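import Pool.Agent.Lib.MP_6d8312_an.Mg.G001

section

/-!
# Vanishing for cross-intersecting families

`ρ = r/(1-r)`, `0 ≤ r < 1`, `ρ r (1-r) = r²`.  `f₁ U = f (insert a U)`.
`EE_b_cons`: `b k = (-ρ)^k`, `b (k+1) = -ρ b k`, so
`EE b (a::l) f f' = EE b l (gg f) (gg f') - ρ EE b l (hh f) (hh f')` (`EE_lin`); expand with
`EE_add_left/right`: `(1-r)² ff' + r(1-r)(ff'₁ + f₁f') + r² f₁f'₁ - ρ r(1-r)(f₁-f)(f'₁-f')`
`= (1-2r) ff' + r ff'₁ + r f₁ f' + 0·f₁f'₁` (symbolically, `(1-r)² - r² = 1-2r`, `r(1-r)+r² = r`).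
`EE_c_cons`: `c k = (-ρ)^k (1-k)`, `c (k+1) = (-ρ)^(k+1) (1-(k+1)) = -ρ c k + ρ b k`, so
`EE c (a::l) f f' = [the same expression for c] + ρ EE b l (hh f) (hh f')` and
`ρ (hh f)(hh f') = r² (f₁-f)(f'₁-f')`.
`EE_b_zero`: by induction on `l` (nodup), generalising `f, f'`: if `f U * f' U' = 0` whenever
`U ∩ U' = ∅`, `U, U' ⊆ l`, then `EE b l f f' = 0`: for `l = []`: `U = U' = ∅`.  For `a :: l`: the pairs
`(f,f'), (f,f'₁), (f₁,f')` satisfy the hypothesis for `l` (`U, U' ⊆ l` do not contain `a`;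
`insert a U ∩ U' = U ∩ U'`).
`EE_c_zero`: if `f U * f' U' = 0` whenever `(U ∩ U').card ≤ 1`: for `l = []` clear; for `a :: l`: the
pairs `(f,f'), (f,f'₁), (f₁,f')` satisfy the hypothesis for `l` (so `EE c = 0`, and also `EE b = 0` by
`EE_b_zero`), and `(f₁,f'₁)` satisfies the hypothesis of `EE_b_zero` (`insert a U ∩ insert a U' =
insert a (U ∩ U')` has one element if `U ∩ U' = ∅`).
-/

set_option autoImplicit false

noncomputable section

namespace Pool.Agent.Lib.MP_6d8312_an.KD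

open Finset

variable {α : Type*} [DecidableEq α]

private theorem Spec2_gg (r : ℝ) (c : ℕ → ℝ) (l : List α) (a : α) (f f' : Finset α → ℝ) :
    EE r c l (gg r a f) (gg r a f') =
      (1 - r) ^ 2 * EE r c l f f' + (1 - r) * r * EE r c l f (fun U => f' (insert a U)) +
      r * (1 - r) * EE r c l (fun U => f (insert a U)) f' +
      r ^ 2 * EE r c l (fun U => f (insert a U)) (fun U => f' (insert a U)) := by
  have e : ∀ g : Finset α → ℝ, gg r a g = fun U => (1 - r) * g U + r * (fun U => g (insert a U)) U :=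
    fun g => rfl
  rw [e f, e f', EE_add_left, EE_add_right, EE_add_right]
  ring

private theorem Spec2_hh {r : ℝ} (h0 : 0 ≤ r) (h1 : r ≤ 1) (c : ℕ → ℝ) (l : List α) (a : α)
    (f f' : Finset α → ℝ) :
    EE r c l (hh r a f) (hh r a f') =
      r * (1 - r) * (EE r c l (fun U => f (insert a U)) (fun U => f' (insert a U)) -
        EE r c l (fun U => f (insert a U)) f' - EE r c l f (fun U => f' (insert a U)) +
        EE r c l f f') := by
  have e : ∀ g : Finset α → ℝ, hh r a g =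
      fun U => Real.sqrt (r * (1 - r)) * (fun U => g (insert a U)) U +
        (-Real.sqrt (r * (1 - r))) * g U := by
    intro g
    funext U
    unfold hh
    ring
  rw [e f, e f', EE_add_left, EE_add_right, EE_add_right]
  have hs : Real.sqrt (r * (1 - r)) * Real.sqrt (r * (1 - r)) = r * (1 - r) :=
    Real.mul_self_sqrt (mul_nonneg h0 (by linarith))
  generalize Real.sqrt (r * (1 - r)) = s at hs
  rw [← hs]
  ring

private theorem Spec2_sub1 {l : List α} {a : α} {U : Finset α} (h : U ⊆ l.toFinset) :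
    U ⊆ (a :: l).toFinset := by
  rw [List.toFinset_cons]
  exact h.trans (Finset.subset_insert _ _)

private theorem Spec2_sub2 {l : List α} {a : α} {U : Finset α} (h : U ⊆ l.toFinset) :
    insert a U ⊆ (a :: l).toFinset := by
  rw [List.toFinset_cons]
  exact Finset.insert_subset_insert _ h

private theorem Spec2_int1 {l : List α} {a : α} (ha : a ∉ l) {U U' : Finset α}
    (h : U ⊆ l.toFinset) : U ∩ insert a U' = U ∩ U' :=
  Finset.inter_insert_of_notMem (fun h1 => ha (List.mem_toFinset.mp (h h1)))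

private theorem Spec2_int2 {l : List α} {a : α} (ha : a ∉ l) {U U' : Finset α}
    (h : U' ⊆ l.toFinset) : insert a U ∩ U' = U ∩ U' :=
  Finset.insert_inter_of_notMem (fun h1 => ha (List.mem_toFinset.mp (h h1)))

theorem EE_b_zero {r : ℝ} (h0 : 0 ≤ r) (h1 : r < 1) {l : List α} (hl : l.Nodup)
    (f f' : Finset α → ℝ)
    (h : ∀ U U' : Finset α, U ⊆ l.toFinset → U' ⊆ l.toFinset → U ∩ U' = ∅ → f U * f' U' = 0) :
    EE r (fun k => (-(r / (1 - r))) ^ k) l f f' = 0 := by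
  induction l generalizing f f' with
  | nil =>
    have := h ∅ ∅ (by simp) (by simp) (by simp)
    simp [EE, this]
  | cons a l ih =>
    obtain ⟨ha, hl'⟩ := List.nodup_cons.mp hl
    have hr : 1 - r ≠ 0 := by linarith
    have e1 : (fun k : ℕ => (-(r / (1 - r))) ^ (k + 1)) =
        fun k => (-(r / (1 - r))) * (fun k => (-(r / (1 - r))) ^ k) k +
          0 * (fun k => (-(r / (1 - r))) ^ k) k := by
      funext k
      simp only [pow_succ]
      ring
    have i1 : EE r (fun k => (-(r / (1 - r))) ^ k) l f f' = 0 :=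
      ih hl' f f' fun U U' hU hU' hi => h U U' (Spec2_sub1 hU) (Spec2_sub1 hU') hi
    have i2 : EE r (fun k => (-(r / (1 - r))) ^ k) l f (fun U => f' (insert a U)) = 0 :=
      ih hl' f _ fun U U' hU hU' hi => h U (insert a U') (Spec2_sub1 hU) (Spec2_sub2 hU')
        (by rw [Spec2_int1 ha hU]; exact hi)
    have i3 : EE r (fun k => (-(r / (1 - r))) ^ k) l (fun U => f (insert a U)) f' = 0 :=
      ih hl' _ f' fun U U' hU hU' hi => h (insert a U) U' (Spec2_sub2 hU) (Spec2_sub1 hU')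
        (by rw [Spec2_int2 ha hU']; exact hi)
    show EE r (fun k => (-(r / (1 - r))) ^ k) l (gg r a f) (gg r a f') +
      EE r (fun k => (-(r / (1 - r))) ^ (k + 1)) l (hh r a f) (hh r a f') = 0
    rw [e1, EE_lin, Spec2_gg, Spec2_hh h0 h1.le, i1, i2, i3]
    field_simp
    ring

theorem EE_c_zero {r : ℝ} (h0 : 0 ≤ r) (h1 : r < 1) {l : List α} (hl : l.Nodup)
    (f f' : Finset α → ℝ)
    (h : ∀ U U' : Finset α, U ⊆ l.toFinset → U' ⊆ l.toFinset → (U ∩ U').card ≤ 1 →
      f U * f' U' = 0) :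
    EE r (fun k => (-(r / (1 - r))) ^ k * (1 - k)) l f f' = 0 := by
  induction l generalizing f f' with
  | nil =>
    have := h ∅ ∅ (by simp) (by simp) (by simp)
    simp [EE, this]
  | cons a l ih =>
    obtain ⟨ha, hl'⟩ := List.nodup_cons.mp hl
    have hr : 1 - r ≠ 0 := by linarith
    have e1 : (fun k : ℕ => (-(r / (1 - r))) ^ (k + 1) * (1 - ((k + 1 : ℕ) : ℝ))) =
        fun k => (-(r / (1 - r))) * (fun k : ℕ => (-(r / (1 - r))) ^ k * (1 - (k : ℝ))) k +
          (r / (1 - r)) * (fun k : ℕ => (-(r / (1 - r))) ^ k) k := by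
      funext k
      simp only [pow_succ]
      push_cast
      ring
    have i1 : EE r (fun k => (-(r / (1 - r))) ^ k * (1 - k)) l f f' = 0 :=
      ih hl' f f' fun U U' hU hU' hi => h U U' (Spec2_sub1 hU) (Spec2_sub1 hU') hi
    have i2 : EE r (fun k => (-(r / (1 - r))) ^ k * (1 - k)) l f (fun U => f' (insert a U)) = 0 :=
      ih hl' f _ fun U U' hU hU' hi => h U (insert a U') (Spec2_sub1 hU) (Spec2_sub2 hU')
        (by rw [Spec2_int1 ha hU]; exact hi)
    have i3 : EE r (fun k => (-(r / (1 - r))) ^ k * (1 - k)) l (fun U => f (insert a U)) f' = 0 :=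
      ih hl' _ f' fun U U' hU hU' hi => h (insert a U) U' (Spec2_sub2 hU) (Spec2_sub1 hU')
        (by rw [Spec2_int2 ha hU']; exact hi)
    have hz : ∀ U U' : Finset α, U ∩ U' = ∅ → (U ∩ U').card ≤ 1 := by
      intro U U' hU; rw [hU]; simp
    have j1 : EE r (fun k => (-(r / (1 - r))) ^ k) l f f' = 0 :=
      EE_b_zero h0 h1 hl' f f' fun U U' hU hU' hi =>
        h U U' (Spec2_sub1 hU) (Spec2_sub1 hU') (hz _ _ hi)
    have j2 : EE r (fun k => (-(r / (1 - r))) ^ k) l f (fun U => f' (insert a U)) = 0 :=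
      EE_b_zero h0 h1 hl' f _ fun U U' hU hU' hi =>
        h U (insert a U') (Spec2_sub1 hU) (Spec2_sub2 hU') (by
          rw [Spec2_int1 ha hU]; exact hz _ _ hi)
    have j3 : EE r (fun k => (-(r / (1 - r))) ^ k) l (fun U => f (insert a U)) f' = 0 :=
      EE_b_zero h0 h1 hl' _ f' fun U U' hU hU' hi =>
        h (insert a U) U' (Spec2_sub2 hU) (Spec2_sub1 hU') (by
          rw [Spec2_int2 ha hU']; exact hz _ _ hi)
    have j4 : EE r (fun k => (-(r / (1 - r))) ^ k) l (fun U => f (insert a U))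
        (fun U => f' (insert a U)) = 0 :=
      EE_b_zero h0 h1 hl' _ _ fun U U' hU hU' hi =>
        h (insert a U) (insert a U') (Spec2_sub2 hU) (Spec2_sub2 hU') (by
          rw [← Finset.insert_inter_distrib, hi]; simp)
    show EE r (fun k => (-(r / (1 - r))) ^ k * (1 - k)) l (gg r a f) (gg r a f') +
      EE r (fun k => (-(r / (1 - r))) ^ (k + 1) * (1 - ((k + 1 : ℕ) : ℝ))) l (hh r a f)
        (hh r a f') = 0
    rw [e1, EE_lin, Spec2_gg, Spec2_hh h0 h1.le, Spec2_hh h0 h1.le, i1, i2, i3, j1, j2, j3, j4]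
    field_simp
    ring

end Pool.Agent.Lib.MP_6d8312_an.KD
end
end

section

/-!
# The measure of a 2-intersecting family

`ρ = r/(1-r) ≤ 1/2`.  Let `f = 1_FF`, `l = S.toList` (nodup, `Finset.toList_toFinset`).
`EE_c_zero`: `EE c l f f = 0`, `c k = (-ρ)^k (1-k)`.  Lower bound: `c k ≥ (1+ρ²) [k=0] - ρ²`:
`k = 0`: `1`; `k = 1`: `0`; `k` odd `≥ 3`: `c k ≥ 0`; `k ≥ 2` even: `c k = -(k-1) ρ^k` and
`(k-1) ρ^(k-2) ≤ 1` since `k - 1 ≤ 2^(k-2)`.  `EE_mono`, `EE_lin`, `EE_one`, `EE_delta`: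
`0 ≥ (1+ρ²) m² - ρ² bern (f²) = (1+ρ²) m² - ρ² m`, `m = bern r S f ≥ 0`, so
`m ≤ ρ²/(1+ρ²) ≤ ρ²`.
-/

set_option autoImplicit false

noncomputable section

namespace Pool.Agent.Lib.MP_6d8312_an.KD

open Finset

variable {α : Type*} [DecidableEq α]

theorem Spec3_coeff {ρ : ℝ} (h0 : 0 ≤ ρ) (h1 : ρ ≤ 1 / 2) (k : ℕ) :
    (1 + ρ ^ 2) * (if k = 0 then 1 else 0) + (-ρ ^ 2) * 1 ≤ (-ρ) ^ k * (1 - k) := by
  rcases k with _ | _ | k
  · simp
  · simp
    positivity
  · rw [if_neg (by omega)]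
    have h2 : ((k : ℝ) + 1) ≤ 2 ^ k := by
      have h3 : k + 1 ≤ 2 ^ k := Nat.lt_two_pow_self
      exact_mod_cast h3
    have h4 : ρ ^ k * ((k : ℝ) + 1) ≤ 1 := by
      calc ρ ^ k * ((k : ℝ) + 1) ≤ (1 / 2) ^ k * 2 ^ k :=
            mul_le_mul (pow_le_pow_left₀ h0 h1 k) h2 (by positivity) (by positivity)
        _ = 1 := by rw [← mul_pow]; norm_num
    have h5 : |(-ρ) ^ (k + 1 + 1) * (1 - ((k + 1 + 1 : ℕ) : ℝ))| =
        ρ ^ 2 * (ρ ^ k * ((k : ℝ) + 1)) := by
      rw [abs_mul, abs_pow, abs_neg, abs_of_nonneg h0]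
      have h6 : (1 : ℝ) - ((k + 1 + 1 : ℕ) : ℝ) = -((k : ℝ) + 1) := by
        push_cast
        ring
      rw [h6, abs_neg, abs_of_nonneg (by positivity)]
      ring
    have h7 := neg_abs_le ((-ρ) ^ (k + 1 + 1) * (1 - ((k + 1 + 1 : ℕ) : ℝ)))
    rw [h5] at h7
    have h8 : ρ ^ 2 * (ρ ^ k * ((k : ℝ) + 1)) ≤ ρ ^ 2 * 1 :=
      mul_le_mul_of_nonneg_left h4 (sq_nonneg _)
    linarith

open Classical in
theorem two_intersecting {r : ℝ} (h0 : 0 ≤ r) (h1 : r ≤ 1 / 3) (S : Finset α)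
    (FF : Set (Finset α))
    (h : ∀ U ∈ FF, ∀ U' ∈ FF, U ⊆ S → U' ⊆ S → 2 ≤ (U ∩ U').card) :
    bern r S (fun U => if U ∈ FF then 1 else 0) ≤ (r / (1 - r)) ^ 2 := by
  have h1' : r < 1 := by linarith
  have hr0 : 0 ≤ r / (1 - r) := div_nonneg h0 (by linarith)
  have hr1 : r / (1 - r) ≤ 1 / 2 := by
    rw [div_le_div_iff₀ (by linarith) (by norm_num)]
    linarith
  have hm0 : 0 ≤ bern r S (fun U => if U ∈ FF then (1 : ℝ) else 0) := by
    refine bern_nonneg h0 h1'.le fun U _ => ?_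
    split_ifs
    · exact zero_le_one
    · exact le_refl _
  have hz := EE_c_zero h0 h1' (S.nodup_toList) (fun U => if U ∈ FF then (1 : ℝ) else 0)
    (fun U => if U ∈ FF then (1 : ℝ) else 0) (by
      intro U U' hU hU' hc
      rw [Finset.toList_toFinset] at hU hU'
      by_cases h2 : U ∈ FF
      · by_cases h3 : U' ∈ FF
        · have := h U h2 U' h3 hU hU'
          omega
        · simp [h3]
      · simp [h2])
  have h2 := EE_mono r (Spec3_coeff hr0 hr1) S.toList (fun U => if U ∈ FF then (1 : ℝ) else 0)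
  rw [hz, EE_lin r (1 + (r / (1 - r)) ^ 2) (-(r / (1 - r)) ^ 2)
    (fun k => if k = 0 then 1 else 0) (fun _ => 1), EE_one h0 h1'.le S.nodup_toList,
    EE_delta S.nodup_toList, Finset.toList_toFinset] at h2
  have h3 : (fun U : Finset α => (if U ∈ FF then (1 : ℝ) else 0) ^ 2) =
      fun U => if U ∈ FF then (1 : ℝ) else 0 := by
    funext U
    split_ifs <;> simp
  rw [h3] at h2
  set m := bern r S (fun U => if U ∈ FF then (1 : ℝ) else 0) with hm
  rcases hm0.eq_or_lt with h4 | h4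
  · rw [← h4]
    positivity
  · have h5 : (1 + (r / (1 - r)) ^ 2) * m ≤ (r / (1 - r)) ^ 2 := by
      have h6 : ((1 + (r / (1 - r)) ^ 2) * m) * m ≤ (r / (1 - r)) ^ 2 * m := by nlinarith
      exact le_of_mul_le_mul_right h6 h4
    have h7 : 0 ≤ (r / (1 - r)) ^ 2 * m := by positivity
    linarith

end Pool.Agent.Lib.MP_6d8312_an.KD
end
end

section

/-!
# Definitions for the critical set
-/

set_option autoImplicit false

noncomputable section

namespace Pool.Agent.Lib.MP_6d8312_an.KD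

open Finset

variable {p : ℕ} [Fact p.Prime]

/-- The density `|A| / qd A`. -/
def dens (A : Finset (ZMod p)) : ℝ := (A.card : ℝ) / qd A

/-- The mean increment of `nu β` at rate `x / dens A`. -/
def gX (β : ℝ) (A : Finset (ZMod p)) (x : ℝ) : ℝ :=
  (∑ a ∈ A, bern (x / dens A) (A.erase a) (Fa β a)) / A.card

/-- `|(1/n) ∑_{a ∈ A} w(a) e(a θ)|`. -/
def Fw (A : Finset (ZMod p)) (w : ZMod p → ℂ) (θ : ZMod p) : ℝ :=
  ‖∑ a ∈ A, w a * ch (a * θ)‖ / A.card

/-- The Laplace transform of `Fw`. -/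
def Zw (A : Finset (ZMod p)) (w : ZMod p → ℂ) (x : ℝ) : ℝ :=
  av (fun θ => Real.exp (qd A * x * Fw A w θ))

/-- The sums `∑ n_v v` with `∑ |n_v| ≤ k`. -/
def ksum (V : Finset (ZMod p)) (k : ℕ) : Finset (ZMod p) := by
  classical
  exact univ.filter fun x => ∃ n : ZMod p → ℤ, ∑ v ∈ V, |n v| ≤ k ∧ x = ∑ v ∈ V, n v • v

end Pool.Agent.Lib.MP_6d8312_an.KD
end
end

section

/-!
# Riesz products over quasi-independent sets

For a finite set `B` and `v : ZMod p` let `A(B, v) = (1/p) ∑_t ∏_{b ∈ B} (1 + Re (z_b ch(b t))) ch(v t)`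
(complex).  Say that `v` is representable by `B` if `v = ∑_B c b • b` with `c b ∈ {-1,0,1}`.
CLAIM 1: if `v` is not representable by `B` then `A(B,v) = 0`.  Induction on `B`: `A(∅, v) = 0` for
`v ≠ 0` (`sum_ch`); `1 + Re (z ch(bt)) = 1 + (z/2) ch(bt) + (conj z/2) ch(-bt)` gives
`A(insert b B, v) = A(B, v) + (z/2) A(B, v+b) + (conj z/2) A(B, v-b)`, and if `v` is not
representable by `insert b B`, then `v, v+b, v-b` are not representable by `B`.
CLAIM 2: if `B` is QI then `A(B,0) = 1`.  Induction: `A(∅,0) = 1`; if `insert b B` is QI then so is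
`B`, and `b`, `-b` are not representable by `B` (else a nontrivial relation).
`riesz_re_le`: for `‖z_b‖ ≤ 1`, `0 ≤ ξ_b` ... see below: by the same recursion, by induction on `B`
for all `v`: `‖A_z(B, v)‖ ≤ A_ξ(B, v)` where `A_z` has factors `1 + ξ Re (z_b ch(bt))` with
`‖z_b‖ ≤ 1`, and `A_ξ` has factors `1 + ξ' Re ch(bt)`, `0 ≤ ξ ≤ ξ'` (in particular `A_ξ(B,v)` is real
and nonnegative).
-/

set_option autoImplicit false

noncomputable section

namespace Pool.Agent.Lib.MP_6d8312_an.KD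

open Finset

variable {p : ℕ} [Fact p.Prime]

/-- The Fourier coefficients of the Riesz product. -/
private def Riesz_R (w : ZMod p → ℂ) (B : Finset (ZMod p)) (v : ZMod p) : ℂ :=
  (∑ t, (∏ b ∈ B, ((1 : ℂ) + ((w b * ch (b * t)).re : ℂ))) * ch (v * t)) / p

private theorem Riesz_p_ne : (p : ℂ) ≠ 0 := by
  exact_mod_cast (Fact.out : p.Prime).ne_zero

private theorem Riesz_R_empty (w : ZMod p → ℂ) (v : ZMod p) :
    Riesz_R w ∅ v = if v = 0 then 1 else 0 := by
  simp only [Riesz_R, Finset.prod_empty, one_mul, sum_ch]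
  split_ifs
  · exact div_self Riesz_p_ne
  · simp

private theorem Riesz_factor (z : ℂ) (b t : ZMod p) :
    ((z * ch (b * t)).re : ℂ) = z / 2 * ch (b * t) + (starRingEnd ℂ z) / 2 * ch (-(b * t)) := by
  rw [Complex.re_eq_add_conj, map_mul, ch_neg]
  ring

private theorem Riesz_R_insert (w : ZMod p → ℂ) (B : Finset (ZMod p)) (b : ZMod p) (hb : b ∉ B)
    (v : ZMod p) :
    Riesz_R w (insert b B) v = Riesz_R w B v + w b / 2 * Riesz_R w B (v + b)
      + (starRingEnd ℂ (w b)) / 2 * Riesz_R w B (v - b) := by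
  have h : ∀ t : ZMod p,
      (∏ c ∈ insert b B, ((1 : ℂ) + ((w c * ch (c * t)).re : ℂ))) * ch (v * t)
        = (∏ c ∈ B, ((1 : ℂ) + ((w c * ch (c * t)).re : ℂ))) * ch (v * t)
        + w b / 2 * ((∏ c ∈ B, ((1 : ℂ) + ((w c * ch (c * t)).re : ℂ))) * ch ((v + b) * t))
        + (starRingEnd ℂ (w b)) / 2 *
          ((∏ c ∈ B, ((1 : ℂ) + ((w c * ch (c * t)).re : ℂ))) * ch ((v - b) * t)) := by
    intro t
    rw [Finset.prod_insert hb, Riesz_factor,
      show (v + b) * t = v * t + b * t by ring, show (v - b) * t = v * t + -(b * t) by ring,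
      ch_add, ch_add]
    ring
  simp only [Riesz_R]
  rw [Finset.sum_congr rfl fun t _ => h t, Finset.sum_add_distrib, Finset.sum_add_distrib,
    ← Finset.mul_sum, ← Finset.mul_sum]
  ring

private theorem Riesz_av (w : ZMod p → ℂ) (B : Finset (ZMod p)) :
    ((av (fun t => ∏ b ∈ B, (1 + (w b * ch (b * t)).re)) : ℝ) : ℂ) = Riesz_R w B 0 := by
  simp only [av, Riesz_R, zero_mul, ch_zero, mul_one]
  push_cast
  rfl

/-- `v` is representable. -/
private def Riesz_Rep (B : Finset (ZMod p)) (v : ZMod p) : Prop :=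
  ∃ c : ZMod p → ℤ, (∀ b ∈ B, c b = -1 ∨ c b = 0 ∨ c b = 1) ∧ ∑ b ∈ B, c b • b = v

private theorem Riesz_rep_insert (B : Finset (ZMod p)) (b : ZMod p) (hb : b ∉ B) (v : ZMod p)
    (k : ℤ) (hk : k = -1 ∨ k = 0 ∨ k = 1) (h : Riesz_Rep B (v - k • b)) :
    Riesz_Rep (insert b B) v := by
  obtain ⟨c, hc, hs⟩ := h
  refine ⟨fun x => if x = b then k else c x, ?_, ?_⟩
  · intro x hx
    by_cases hxb : x = b
    · simp only [hxb, if_true]; exact hk
    · simp only [hxb, if_false]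
      exact hc x ((Finset.mem_insert.mp hx).resolve_left hxb)
  · rw [Finset.sum_insert hb]
    have h2 : ∑ x ∈ B, (if x = b then k else c x) • x = ∑ x ∈ B, c x • x := by
      refine Finset.sum_congr rfl fun x hx => ?_
      have hxb : x ≠ b := fun h => hb (h ▸ hx)
      simp only [hxb, if_false]
    simp only [if_true]
    rw [h2, hs]
    abel

private theorem Riesz_R_zero (w : ZMod p → ℂ) (B : Finset (ZMod p)) :
    ∀ v, ¬ Riesz_Rep B v → Riesz_R w B v = 0 := by
  induction B using Finset.induction_on with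
  | empty =>
    intro v hv
    rw [Riesz_R_empty, if_neg]
    intro h0
    exact hv ⟨fun _ => 0, by simp, by simp [h0]⟩
  | insert b B hb ih =>
    intro v hv
    rw [Riesz_R_insert w B b hb, ih v, ih (v + b), ih (v - b)]
    · simp
    · intro h
      exact hv (Riesz_rep_insert B b hb v 1 (by simp) (by simpa using h))
    · intro h
      exact hv (Riesz_rep_insert B b hb v (-1) (by simp) (by simpa using h))
    · intro h
      exact hv (Riesz_rep_insert B b hb v 0 (by simp) (by simpa using h))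

private theorem Riesz_not_rep (B : Finset (ZMod p)) (b : ZMod p) (hb : b ∉ B)
    (hQ : QI (insert b B)) (k : ℤ) (hk : k = -1 ∨ k = 1) : ¬ Riesz_Rep B (k • b) := by
  intro h
  have h' : Riesz_Rep B (0 - (-k) • b) := by
    have : (0 : ZMod p) - (-k) • b = k • b := by simp
    rw [this]; exact h
  obtain ⟨c, hc, hs⟩ := h'
  have key := hQ (fun x => if x = b then -k else c x) ?_ ?_ b (Finset.mem_insert_self b B)
  · simp only [if_true] at key
    omega
  · intro x hx
    by_cases hxb : x = b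
    · simp only [hxb, if_true]; omega
    · simp only [hxb, if_false]
      exact hc x ((Finset.mem_insert.mp hx).resolve_left hxb)
  · rw [Finset.sum_insert hb]
    have h2 : ∑ x ∈ B, (if x = b then -k else c x) • x = ∑ x ∈ B, c x • x := by
      refine Finset.sum_congr rfl fun x hx => ?_
      have hxb : x ≠ b := fun h => hb (h ▸ hx)
      simp only [hxb, if_false]
    simp only [if_true]
    rw [h2, hs]
    abel

private theorem Riesz_R_one (w : ZMod p → ℂ) (B : Finset (ZMod p)) :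
    QI B → Riesz_R w B 0 = 1 := by
  induction B using Finset.induction_on with
  | empty => intro _; rw [Riesz_R_empty, if_pos rfl]
  | insert b B hb ih =>
    intro hQ
    rw [Riesz_R_insert w B b hb, ih (hQ.mono (Finset.subset_insert b B)),
      Riesz_R_zero w B (0 + b), Riesz_R_zero w B (0 - b)]
    · simp
    · have := Riesz_not_rep B b hb hQ (-1) (by simp)
      simpa using this
    · have := Riesz_not_rep B b hb hQ 1 (by simp)
      simpa using this

theorem riesz (B : Finset (ZMod p)) (hB : QI B) (z : ZMod p → ℂ) :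
    av (fun t => ∏ b ∈ B, (1 + (z b * ch (b * t)).re)) = 1 := by
  have h := Riesz_av z B
  rw [Riesz_R_one z B hB] at h
  exact_mod_cast h

private theorem Riesz_cmp (z : ZMod p → ℂ) (ξ ξ' : ℝ) (h0 : 0 ≤ ξ) (h1 : ξ ≤ ξ')
    (B : Finset (ZMod p)) : (∀ b ∈ B, ‖z b‖ ≤ 1) → ∀ v, ∃ r : ℝ, 0 ≤ r ∧
      Riesz_R (fun _ => (ξ' : ℂ)) B v = r ∧ ‖Riesz_R (fun b => ξ * z b) B v‖ ≤ r := by
  induction B using Finset.induction_on with
  | empty =>
    intro _ v
    refine ⟨if v = 0 then 1 else 0, ?_, ?_, ?_⟩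
    · split_ifs <;> norm_num
    · rw [Riesz_R_empty]; split_ifs <;> simp
    · rw [Riesz_R_empty]; split_ifs <;> simp
  | insert b B hb ih =>
    intro hz v
    have hz' : ∀ c ∈ B, ‖z c‖ ≤ 1 := fun c hc => hz c (Finset.mem_insert_of_mem hc)
    have hzb : ‖z b‖ ≤ 1 := hz b (Finset.mem_insert_self b B)
    obtain ⟨r0, p0, e0, n0⟩ := ih hz' v
    obtain ⟨r1, p1, e1, n1⟩ := ih hz' (v + b)
    obtain ⟨r2, p2, e2, n2⟩ := ih hz' (v - b)
    have hξ' : 0 ≤ ξ' := h0.trans h1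
    refine ⟨r0 + ξ' / 2 * r1 + ξ' / 2 * r2, by positivity, ?_, ?_⟩
    · rw [Riesz_R_insert _ B b hb, e0, e1, e2, Complex.conj_ofReal]
      push_cast
      ring
    · rw [Riesz_R_insert _ B b hb]
      have hw : ‖(ξ : ℂ) * z b / 2‖ ≤ ξ' / 2 := by
        rw [norm_div, norm_mul, Complex.norm_real, Real.norm_of_nonneg h0, Complex.norm_ofNat]
        have : ξ * ‖z b‖ ≤ ξ' := by nlinarith [norm_nonneg (z b)]
        linarith
      have hw' : ‖(starRingEnd ℂ) ((ξ : ℂ) * z b) / 2‖ ≤ ξ' / 2 := by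
        rw [norm_div, RCLike.norm_conj, ← norm_div]
        exact hw
      calc ‖Riesz_R (fun b => (ξ : ℂ) * z b) B v
            + (ξ : ℂ) * z b / 2 * Riesz_R (fun b => (ξ : ℂ) * z b) B (v + b)
            + (starRingEnd ℂ) ((ξ : ℂ) * z b) / 2 * Riesz_R (fun b => (ξ : ℂ) * z b) B (v - b)‖
          ≤ ‖Riesz_R (fun b => (ξ : ℂ) * z b) B v‖
            + ‖(ξ : ℂ) * z b / 2 * Riesz_R (fun b => (ξ : ℂ) * z b) B (v + b)‖
            + ‖(starRingEnd ℂ) ((ξ : ℂ) * z b) / 2
              * Riesz_R (fun b => (ξ : ℂ) * z b) B (v - b)‖ := norm_add₃_le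
        _ ≤ r0 + ξ' / 2 * r1 + ξ' / 2 * r2 := by
            rw [norm_mul, norm_mul]
            gcongr

/-- Comparison of Riesz products (no assumption on `B`). -/
theorem riesz_le (B : Finset (ZMod p)) (z : ZMod p → ℂ) (hz : ∀ b ∈ B, ‖z b‖ ≤ 1) (ξ ξ' : ℝ)
    (h0 : 0 ≤ ξ) (h1 : ξ ≤ ξ') :
    av (fun t => ∏ b ∈ B, (1 + ξ * (z b * ch (b * t)).re)) ≤ rz ξ' B := by
  obtain ⟨r, hr, he, hn⟩ := Riesz_cmp z ξ ξ' h0 h1 B hz 0
  have e1 : (fun t => ∏ b ∈ B, (1 + ξ * (z b * ch (b * t)).re))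
      = fun t => ∏ b ∈ B, (1 + ((fun b => (ξ : ℂ) * z b) b * ch (b * t)).re) := by
    funext t
    refine Finset.prod_congr rfl fun b _ => ?_
    simp only [mul_assoc, Complex.re_ofReal_mul]
  have e2 : rz ξ' B = av (fun t => ∏ b ∈ B, (1 + ((fun _ => (ξ' : ℂ)) b * ch (b * t)).re)) := by
    simp only [rz, Complex.re_ofReal_mul]
  have h2 : ((rz ξ' B : ℝ) : ℂ) = r := by
    rw [e2, Riesz_av (fun _ => (ξ' : ℂ)) B, he]
  have h2' : rz ξ' B = r := by exact_mod_cast h2
  have h3 := Riesz_av (fun b => (ξ : ℂ) * z b) B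
  rw [← h3, Complex.norm_real] at hn
  rw [e1, h2']
  exact (le_abs_self _).trans hn

theorem one_le_rz (B : Finset (ZMod p)) (ξ : ℝ) (h0 : 0 ≤ ξ) : 1 ≤ rz ξ B := by
  have h := riesz_le B (fun _ => 0) (by simp) 0 ξ le_rfl h0
  have h2 : av (fun t : ZMod p => ∏ b ∈ B, (1 + (0 : ℝ) * ((fun _ => (0 : ℂ)) b * ch (b * t)).re))
      = 1 := by
    simp only [zero_mul, add_zero, Finset.prod_const_one]
    exact av_const 1
  rw [← h2]
  exact h

end Pool.Agent.Lib.MP_6d8312_an.KD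
end
end

section

/-!
# The dimension inequality

For a finite set `B` and `v` let
`I(B,v) = (1/p) ∑_t hat f t * ∏_{b ∈ B} (1 + Re ch(b t)) * ch (-(v t))` (complex).
LOWER BOUND: by induction on `B`, for all `v`, `I(B,v)` is real and
`I(B,v) ≥ f v ∏_{b∈B} (1 + f b)`: `I(∅,v) = f v` (`hat_inv`), and since
`1 + Re ch(bt) = 1 + (1/2) ch(bt) + (1/2) ch(-bt)`,
`I(insert b B, v) = I(B,v) + (1/2) I(B,v-b) + (1/2) I(B,v+b) ≥ ∏_B (1+f b') (f v + (1/2)(f(v-b)+f(v+b)))
≥ ∏_B (1+f b') f v (1 + f b)` by `T2.W`.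
UPPER BOUND: `|I(B,0)| ≤ (∑_v f v) av ∏ (1 + Re ch(bt)) = ∑ f` by `norm_hat_le` and `riesz` (`z = 1`),
the factors being nonnegative.
-/

set_option autoImplicit false

noncomputable section

namespace Pool.Agent.Lib.MP_6d8312_an.KD

open Finset

variable {p : ℕ} [Fact p.Prime]

theorem F2_aux {f : ZMod p → ℝ} (hf : T2 f) (B : Finset (ZMod p)) :
    ∃ J : ZMod p → ℝ, (∀ v, f v * ∏ b ∈ B, (1 + f b) ≤ J v) ∧
      ∀ v, (J v : ℂ) * p = ∑ t, hat f t *
        ((∏ b ∈ B, (1 + (ch (b * t)).re) : ℝ) : ℂ) * ch (-(v * t)) := by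
  induction B using Finset.induction_on with
  | empty => exact ⟨f, fun v => by simp, fun v => by rw [hat_inv]; simp⟩
  | insert b B hb ih =>
    obtain ⟨J, h1, h2⟩ := ih
    refine ⟨fun v => J v + (1 / 2) * J (v - b) + (1 / 2) * J (v + b), fun v => ?_, fun v => ?_⟩
    · rw [Finset.prod_insert hb]
      have hW := hf.W v b
      have hP : 0 ≤ ∏ b ∈ B, (1 + f b) :=
        Finset.prod_nonneg fun b _ => by linarith [hf.nonneg b]
      have h3 := mul_le_mul_of_nonneg_right hW hP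
      change _ ≤ J v + (1 / 2) * J (v - b) + (1 / 2) * J (v + b)
      calc f v * ((1 + f b) * ∏ b ∈ B, (1 + f b))
          = f v * (∏ b ∈ B, (1 + f b)) + (1 / 2) * (2 * (f v * f b) * ∏ b ∈ B, (1 + f b)) := by
            ring
        _ ≤ f v * (∏ b ∈ B, (1 + f b)) +
              (1 / 2) * ((f (v + b) + f (v - b)) * ∏ b ∈ B, (1 + f b)) := by linarith
        _ = f v * (∏ b ∈ B, (1 + f b)) + (1 / 2) * (f (v - b) * ∏ b ∈ B, (1 + f b)) +
              (1 / 2) * (f (v + b) * ∏ b ∈ B, (1 + f b)) := by ring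
        _ ≤ _ := by linarith [h1 v, h1 (v - b), h1 (v + b)]
    · have h4 : ((J v + 1 / 2 * J (v - b) + 1 / 2 * J (v + b) : ℝ) : ℂ) * p =
          (J v : ℂ) * p + 1 / 2 * ((J (v - b) : ℂ) * p) + 1 / 2 * ((J (v + b) : ℂ) * p) := by
        push_cast
        ring
      change ((J v + 1 / 2 * J (v - b) + 1 / 2 * J (v + b) : ℝ) : ℂ) * p = _
      rw [h4, h2, h2, h2, Finset.mul_sum, Finset.mul_sum, ← Finset.sum_add_distrib,
        ← Finset.sum_add_distrib]
      refine Finset.sum_congr rfl fun t _ => ?_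
      rw [Finset.prod_insert hb, show -((v - b) * t) = -(v * t) + b * t by ring,
        show -((v + b) * t) = -(v * t) + -(b * t) by ring, ch_add, ch_add]
      have h3 : (((ch (b * t)).re : ℝ) : ℂ) = 1 / 2 * ch (b * t) + 1 / 2 * ch (-(b * t)) := by
        rw [ch_neg, Complex.re_eq_add_conj]
        ring
      rw [Complex.ofReal_mul, Complex.ofReal_add, Complex.ofReal_one, h3]
      ring

theorem F2 {f : ZMod p → ℝ} (hf : T2 f) {B : Finset (ZMod p)} (hB : QI B) {c : ℝ} (hc : 0 ≤ c)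
    (h : ∀ b ∈ B, c ≤ f b) : (1 + c) ^ B.card ≤ ∑ v, f v := by
  obtain ⟨J, h1, h2⟩ := F2_aux hf B
  have hp0 : (0 : ℝ) < p := p_pos
  have hPt : ∀ t : ZMod p, 0 ≤ ∏ b ∈ B, (1 + (ch (b * t)).re) := fun t =>
    Finset.prod_nonneg fun b _ => by linarith [neg_one_le_re_ch (b * t)]
  have h3 : (1 + c) ^ B.card ≤ J 0 := by
    have h4 := h1 0
    rw [hf.zero, one_mul] at h4
    refine le_trans ?_ h4
    rw [← Finset.prod_const]
    exact Finset.prod_le_prod (fun b _ => by linarith) fun b hb => by linarith [h b hb]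
  have h5 : J 0 * p ≤ (∑ v, f v) * p := by
    have h6 := h2 0
    have h7 : ‖(J 0 : ℂ) * p‖ ≤ ∑ t, (∑ v, f v) * ∏ b ∈ B, (1 + (ch (b * t)).re) := by
      rw [h6]
      refine (norm_sum_le _ _).trans (Finset.sum_le_sum fun t _ => ?_)
      rw [norm_mul, norm_mul, norm_ch, mul_one, Complex.norm_real, Real.norm_of_nonneg (hPt t)]
      exact mul_le_mul_of_nonneg_right (norm_hat_le f hf.nonneg t) (hPt t)
    have h8 : J 0 * p ≤ ‖(J 0 : ℂ) * p‖ := by
      rw [norm_mul, Complex.norm_real, Complex.norm_natCast]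
      exact mul_le_mul_of_nonneg_right (le_abs_self _) hp0.le
    have h9 := riesz B hB (fun _ => 1)
    simp only [one_mul] at h9
    have h10 : ∑ t : ZMod p, ∏ b ∈ B, (1 + (ch (b * t)).re) = p := by
      unfold av at h9
      rw [div_eq_one_iff_eq hp0.ne'] at h9
      exact h9
    rw [← Finset.mul_sum, h10] at h7
    exact h8.trans h7
  exact h3.trans (le_of_mul_le_mul_right h5 hp0)

end Pool.Agent.Lib.MP_6d8312_an.KD
end
end

section

/-!
# Quasi-independence and dilations of `ZMod p`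

`qi_dil`: for a relation `∑_{x ∈ i B} c x • x = 0` we have `i * ∑_{b ∈ B} c (i b) • b = 0`
(`Finset.sum_image`, `b ↦ i b` is injective), divide by `i`.
`qd_dil`: `≥`: the image of a maximal QI subset is QI of the same size; `≤`: the same for `i⁻¹`
(`(A.image (i * ·)).image (i⁻¹ * ·) = A`).
-/

set_option autoImplicit false

noncomputable section

namespace Pool.Agent.Lib.MP_6d8312_an.KD

open Finset

variable {p : ℕ} [Fact p.Prime]

theorem qi_dil {B : Finset (ZMod p)} {i : ZMod p} (hi : i ≠ 0) (hB : QI B) :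
    QI (B.image fun b => i * b) := by
  intro c hc hsum x hx
  have hinj : Set.InjOn (fun b => i * b) (B : Set (ZMod p)) := by
    intro a _ b _ h
    exact mul_left_cancel₀ hi h
  rw [Finset.sum_image hinj] at hsum
  have h0 : ∑ b ∈ B, (fun b => c (i * b)) b • b = 0 := by
    have h1 : i * ∑ b ∈ B, c (i * b) • b = 0 := by
      rw [Finset.mul_sum, ← hsum]
      refine Finset.sum_congr rfl fun b _ => ?_
      rw [mul_smul_comm]
    exact (mul_eq_zero.mp h1).resolve_left hi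
  obtain ⟨b, hb, rfl⟩ := Finset.mem_image.mp hx
  exact hB (fun b => c (i * b)) (fun b hb => hc _ (Finset.mem_image_of_mem _ hb)) h0 b hb

theorem card_dil {B : Finset (ZMod p)} {i : ZMod p} (hi : i ≠ 0) :
    (B.image fun b => i * b).card = B.card :=
  Finset.card_image_of_injective _ fun _ _ h => mul_left_cancel₀ hi h

private theorem qd_le_dil {A : Finset (ZMod p)} {i : ZMod p} (hi : i ≠ 0) :
    qd A ≤ qd (A.image fun a => i * a) := by
  obtain ⟨B, hBA, hB, hc⟩ := exists_qi A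
  rw [← hc, ← card_dil hi]
  exact le_qd (Finset.image_subset_image hBA) (qi_dil hi hB)

theorem qd_dil {A : Finset (ZMod p)} {i : ZMod p} (hi : i ≠ 0) :
    qd (A.image fun a => i * a) = qd A := by
  refine le_antisymm ?_ (qd_le_dil hi)
  have h := qd_le_dil (A := A.image fun a => i * a) (inv_ne_zero hi)
  have h2 : ((A.image fun a => i * a).image fun a => i⁻¹ * a) = A := by
    ext x
    simp only [Finset.mem_image, exists_exists_and_eq_and]
    constructor
    · rintro ⟨a, ha, rfl⟩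
      rwa [← mul_assoc, inv_mul_cancel₀ hi, one_mul]
    · intro hx
      exact ⟨x, hx, by rw [← mul_assoc, inv_mul_cancel₀ hi, one_mul]⟩
  rwa [h2] at h

end Pool.Agent.Lib.MP_6d8312_an.KD
end
end

section

/-!
# Rich classes

Let `Ar` be the set of `a ∈ At` whose class `{a' ∈ At | cl a' = cl a}` has at least `M` elements.  The
other elements of `At` lie in classes with fewer than `M` elements: at most `M * T.card` of them
(`Finset.card_le_mul_card_image` or `Finset.card_eq_sum_card_fiberwise`).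
-/

set_option autoImplicit false

noncomputable section

namespace Pool.Agent.Lib.MP_6d8312_an.KD

open Finset

theorem rich {α σ : Type*} [DecidableEq α] [DecidableEq σ] (At : Finset α) (cl : α → σ)
    (T : Finset σ) (hcl : ∀ a ∈ At, cl a ∈ T) (M : ℕ) (h : 2 * (M * T.card) ≤ At.card) :
    ∃ Ar ⊆ At, At.card ≤ 2 * Ar.card ∧
      ∀ a ∈ Ar, M ≤ (At.filter fun a' => cl a' = cl a).card := by
  classical
  refine ⟨At.filter fun a => M ≤ (At.filter fun a' => cl a' = cl a).card,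
    Finset.filter_subset _ _, ?_, fun a ha => (Finset.mem_filter.1 ha).2⟩
  have hbad : (At.filter fun a => ¬ M ≤ (At.filter fun a' => cl a' = cl a).card).card ≤
      M * T.card := by
    refine (Finset.card_le_mul_card_image (f := cl) _ M ?_).trans ?_
    · intro c hc
      obtain ⟨b, hb, rfl⟩ := Finset.mem_image.1 hc
      have hb' := (Finset.mem_filter.1 hb).2
      refine le_trans (Finset.card_le_card ?_) (le_of_lt (not_le.1 hb'))
      intro x hx
      rw [Finset.mem_filter] at hx ⊢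
      exact ⟨(Finset.mem_filter.1 hx.1).1, hx.2⟩
    · refine Nat.mul_le_mul_left _ (Finset.card_le_card ?_)
      intro c hc
      obtain ⟨b, hb, rfl⟩ := Finset.mem_image.1 hc
      exact hcl b (Finset.mem_filter.1 hb).1
  have hsum := Finset.card_filter_add_card_filter_not (s := At)
    (fun a => M ≤ (At.filter fun a' => cl a' = cl a).card)
  omega

end Pool.Agent.Lib.MP_6d8312_an.KD
end
end

section

/-!
# Averages over `K`-tuples

`avK_succ`, `muK_succ`: `Fin.consEquiv` / `Fin.consPiProd`, `Fintype.sum_equiv`,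
`Fintype.sum_prod_type`, `(p:ℝ)^(K+1) = p * p^K`.
`avK_prod`: induction on `K` with `avK_succ` and `Fin.prod_univ_succ`, or
`Finset.prod_univ_sum`; the complex version is the one needed.
-/

set_option autoImplicit false

noncomputable section

namespace Pool.Agent.Lib.MP_6d8312_an.KD

open Finset

variable {p : ℕ} [Fact p.Prime]

theorem avK_const {K : ℕ} (c : ℝ) : avK (fun _ : Fin K → ZMod p => c) = c := by
  have hp : (p : ℝ) ^ K ≠ 0 := pow_ne_zero _ (p_pos (p := p)).ne'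
  rw [avK, Finset.sum_const, Finset.card_univ, Fintype.card_fun, ZMod.card, Fintype.card_fin,
    nsmul_eq_mul, Nat.cast_pow, mul_div_assoc, mul_div_cancel₀]
  exact hp

theorem avK_mono {K : ℕ} {f g : (Fin K → ZMod p) → ℝ} (h : ∀ x, f x ≤ g x) :
    avK f ≤ avK g := by
  rw [avK, avK]
  have hp : (0 : ℝ) < (p : ℝ) ^ K := pow_pos (p_pos (p := p)) _
  exact div_le_div_of_nonneg_right (Finset.sum_le_sum fun x _ => h x) hp.le

theorem avK_add {K : ℕ} (f g : (Fin K → ZMod p) → ℝ) :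
    avK (fun x => f x + g x) = avK f + avK g := by
  rw [avK, avK, avK, Finset.sum_add_distrib, add_div]

theorem avK_mul_left {K : ℕ} (c : ℝ) (f : (Fin K → ZMod p) → ℝ) :
    avK (fun x => c * f x) = c * avK f := by
  rw [avK, avK, ← Finset.mul_sum, mul_div_assoc]

theorem avK_finset_sum {K : ℕ} {ι : Type*} (s : Finset ι) (f : ι → (Fin K → ZMod p) → ℝ) :
    avK (fun x => ∑ i ∈ s, f i x) = ∑ i ∈ s, avK (f i) := by
  simp only [avK]
  rw [Finset.sum_comm, Finset.sum_div]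

theorem exists_avK_le {K : ℕ} (f : (Fin K → ZMod p) → ℝ) : ∃ x, avK f ≤ f x := by
  by_contra hc
  push Not at hc
  have hp : (0 : ℝ) < (p : ℝ) ^ K := pow_pos (p_pos (p := p)) _
  have h1 : ∑ x : Fin K → ZMod p, f x < ∑ _x : Fin K → ZMod p, avK f :=
    Finset.sum_lt_sum_of_nonempty Finset.univ_nonempty fun x _ => hc x
  have h2 := avK_const (p := p) (K := K) (avK f)
  rw [avK, div_eq_iff hp.ne'] at h2
  have h3 : avK f * (p : ℝ) ^ K = ∑ x, f x := by
    rw [avK, div_mul_cancel₀ _ hp.ne']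
  rw [h2, h3] at h1
  exact lt_irrefl _ h1

theorem avK_succ {K : ℕ} (f : (Fin (K + 1) → ZMod p) → ℝ) :
    avK f = av (fun t₀ => avK (fun t : Fin K → ZMod p => f (Fin.cons t₀ t))) := by
  simp only [avK, av]
  rw [← Finset.sum_div, div_div, pow_succ]
  congr 1
  rw [← Fintype.sum_prod_type']
  exact (Fintype.sum_equiv (Fin.consEquiv fun _ => ZMod p) _ _ fun _ => rfl).symm

open Classical in
theorem muK_eq {K : ℕ} (P : Set (Fin K → ZMod p)) :
    muK P = avK (fun t => if t ∈ P then 1 else 0) := by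
  rw [muK, avK, Finset.card_filter, Nat.cast_sum]
  congr 1
  refine Finset.sum_congr rfl fun x _ => ?_
  split_ifs <;> simp

theorem muK_nonneg {K : ℕ} (P : Set (Fin K → ZMod p)) : 0 ≤ muK P := by
  rw [muK]
  positivity

theorem muK_le_one {K : ℕ} (P : Set (Fin K → ZMod p)) : muK P ≤ 1 := by
  classical
  rw [muK_eq]
  refine le_trans (avK_mono (g := fun _ => 1) fun x => ?_) (avK_const 1).le
  split_ifs <;> norm_num

theorem muK_mono {K : ℕ} {P Q : Set (Fin K → ZMod p)} (h : P ⊆ Q) : muK P ≤ muK Q := by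
  classical
  rw [muK_eq, muK_eq]
  refine avK_mono fun x => ?_
  by_cases hx : x ∈ P
  · rw [if_pos hx, if_pos (h hx)]
  · rw [if_neg hx]
    split_ifs <;> norm_num

theorem muK_iUnion_le {K : ℕ} {ι : Type*} (s : Finset ι) (P : ι → Set (Fin K → ZMod p)) :
    muK (⋃ i ∈ s, P i) ≤ ∑ i ∈ s, muK (P i) := by
  classical
  rw [muK_eq, Finset.sum_congr rfl fun i _ => muK_eq (P i), ← avK_finset_sum]
  refine avK_mono fun x => ?_
  have h0 : ∀ i ∈ s, (0 : ℝ) ≤ if x ∈ P i then 1 else 0 := fun i _ => by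
    split_ifs <;> norm_num
  by_cases hx : x ∈ ⋃ i ∈ s, P i
  · rw [if_pos hx]
    rw [Set.mem_iUnion₂] at hx
    obtain ⟨i, hi, hxi⟩ := hx
    refine le_trans ?_ (Finset.single_le_sum h0 hi)
    rw [if_pos hxi]
  · rw [if_neg hx]
    exact Finset.sum_nonneg h0

theorem muK_succ {K : ℕ} (P : Set (Fin (K + 1) → ZMod p)) :
    muK P = av (fun t₀ => muK {t : Fin K → ZMod p | Fin.cons t₀ t ∈ P}) := by
  classical
  rw [muK_eq, avK_succ]
  congr 1
  funext t₀
  rw [muK_eq]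
  rfl

/-- A sum of the coordinates with coefficients `-1, 0, 1`, not all zero, is uniformly
distributed.  Proof: fix `i₀` with `c i₀ ≠ 0`; the map `t ↦ (∑ c_i t_i, t restricted to i ≠ i₀)`
is a bijection.  Or: count with characters, or change variables `t ↦ Function.update t i₀ _`. -/
theorem muK_linear {K : ℕ} (c : Fin K → ZMod p) (i₀ : Fin K) (h : c i₀ ≠ 0)
    (P : Set (ZMod p)) : muK {t : Fin K → ZMod p | ∑ i, c i * t i ∈ P} = mu P := by
  classical
  have hav : ∀ F : ZMod p → (Fin K → ZMod p) → ℝ,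
      av (fun s => avK (fun t => F s t)) = avK (fun t => av (fun s => F s t)) := by
    intro F
    simp only [avK, av]
    rw [← Finset.sum_div, ← Finset.sum_div, Finset.sum_comm, div_div, div_div, mul_comm]
  have hshift : ∀ s : ZMod p, avK (fun t : Fin K → ZMod p =>
      (if (∑ i, c i * t i) ∈ P then (1 : ℝ) else 0)) =
      avK (fun t : Fin K → ZMod p => (if (∑ i, c i * t i) + c i₀ * s ∈ P then (1 : ℝ) else 0)) := by
    intro s
    simp only [avK]
    congr 1
    refine (Fintype.sum_equiv (Equiv.addRight (Pi.single i₀ s : Fin K → ZMod p)) _ _ ?_).symm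
    intro t
    have e : ∑ i, c i * (t + (Pi.single i₀ s : Fin K → ZMod p)) i =
        (∑ i, c i * t i) + c i₀ * s := by
      simp only [Pi.add_apply, mul_add, Finset.sum_add_distrib]
      congr 1
      rw [Finset.sum_eq_single i₀]
      · rw [Pi.single_eq_same]
      · intro j _ hj
        rw [Pi.single_eq_of_ne hj, mul_zero]
      · intro hi
        exact absurd (Finset.mem_univ _) hi
    rw [Equiv.coe_addRight, e]
  have hin : ∀ t : Fin K → ZMod p,
      av (fun s => (if (∑ i, c i * t i) + c i₀ * s ∈ P then (1 : ℝ) else 0)) = mu P := by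
    intro t
    have h1 := av_dil (fun y => (if (∑ i, c i * t i) + y ∈ P then (1 : ℝ) else 0)) h
    rw [h1]
    have h2 := av_shift (fun y => (if y ∈ P then (1 : ℝ) else 0)) (∑ i, c i * t i)
    rw [mu_eq, ← h2]
    congr 1
    funext y
    rw [add_comm]
  rw [muK_eq, ← av_const (p := p) (avK fun t => if t ∈ {t : Fin K → ZMod p | ∑ i, c i * t i ∈ P}
    then (1 : ℝ) else 0)]
  have h3 : (fun _ : ZMod p => avK fun t => if t ∈ {t : Fin K → ZMod p | ∑ i, c i * t i ∈ P}
      then (1 : ℝ) else 0) = fun s => avK (fun t : Fin K → ZMod p =>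
        (if (∑ i, c i * t i) + c i₀ * s ∈ P then (1 : ℝ) else 0)) := by
    funext s
    exact hshift s
  rw [h3, hav]
  simp only [hin]
  exact avK_const _

/-- Products of independent factors. -/
theorem avK_prod {K : ℕ} (φ : ZMod p → ℂ) :
    (∑ t : Fin K → ZMod p, ∏ i, φ (t i)) = (∑ x, φ x) ^ K := by
  exact (Fintype.sum_pow φ K).symm

theorem avK_prod_real {K : ℕ} (φ : ZMod p → ℝ) :
    avK (fun t : Fin K → ZMod p => ∏ i, φ (t i)) = av φ ^ K := by
  rw [avK, av, div_pow, Fintype.sum_pow]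

end Pool.Agent.Lib.MP_6d8312_an.KD
end
end

section

/-!
# Definitions for the hub argument
-/

set_option autoImplicit false

noncomputable section

namespace Pool.Agent.Lib.MP_6d8312_an.KD

open Finset

variable {p : ℕ} [Fact p.Prime]

/-- `η_b(σ) = (1/M) ∑_{a ∈ C b} e((a - b) σ)`. -/
def eta (C : ZMod p → Finset (ZMod p)) (M : ℕ) (b σ : ZMod p) : ℂ :=
  (∑ a ∈ C b, ch ((a - b) * σ)) / M

/-- `(1/|B|) ∑_{b ∈ B} e(b τ) η_b(σ) conj η_b(σ')`. -/
def crs (B : Finset (ZMod p)) (C : ZMod p → Finset (ZMod p)) (M : ℕ) (τ σ σ' : ZMod p) : ℂ :=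
  (∑ b ∈ B, ch (b * τ) * (eta C M b σ * (starRingEnd ℂ) (eta C M b σ'))) / B.card

/-- The diagonal term. -/
def Dst {h : ℕ} (B : Finset (ZMod p)) (C : ZMod p → Finset (ZMod p)) (M : ℕ)
    (t : Fin h → ZMod p) : ℝ :=
  (∑ b ∈ B, (∑ a ∈ C b, ∑ a' ∈ C b, ∏ i, ‖1 + (1 / 16 : ℂ) * ch ((a - a') * t i)‖) /
    (M : ℝ) ^ 2) / B.card

/-- Partial sums of `t`. -/
def tL {h : ℕ} (t : Fin h → ZMod p) (L : Finset (Fin h)) : ZMod p := ∑ i ∈ L, t i

end Pool.Agent.Lib.MP_6d8312_an.KD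
end
end

section

/-!
# The expected diagonal term

`avK Dst = (1/|B|) ∑_b (1/M²) ∑_{a,a'} (av_x ‖1 + (1/16) ch((a-a')x)‖)^h` (`avK_prod_real`,
`avK_finset_sum`).  For `a = a'` the inner average is `17/16`; for `a ≠ a'` it is `≤ (av ‖·‖²)^{1/2} =
(1 + 1/256)^{1/2} ≤ 1 + 1/512` (Cauchy-Schwarz; the cross term `av Re ch((a-a')x) = 0`, `sum_ch`).  There
are `M` diagonal pairs: total `≤ (513/512)^h + (17/16)^h/M ≤ 2 (513/512)^h`.
-/

set_option autoImplicit false

noncomputable section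

namespace Pool.Agent.Lib.MP_6d8312_an.KD

open Finset

variable {p : ℕ} [Fact p.Prime]

private theorem DiagE_sq {d : ZMod p} (hd : d ≠ 0) :
    av (fun x => ‖1 + (1 / 16 : ℂ) * ch (d * x)‖ ^ 2) = 257 / 256 := by
  have h1 : ∀ x : ZMod p, ‖1 + (1 / 16 : ℂ) * ch (d * x)‖ ^ 2 =
      257 / 256 + (1 / 8) * (ch (d * x)).re := by
    intro x
    have hn := norm_ch (d * x)
    have h2 : (ch (d * x)).re ^ 2 + (ch (d * x)).im ^ 2 = 1 := by
      have := Complex.sq_norm (ch (d * x))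
      rw [hn, Complex.normSq_apply] at this
      nlinarith
    rw [Complex.sq_norm, Complex.normSq_apply]
    simp only [Complex.add_re, Complex.one_re, Complex.mul_re, Complex.add_im, Complex.one_im,
      Complex.mul_im]
    have e1 : (1 / 16 : ℂ).re = 1 / 16 := by norm_num
    have e2 : (1 / 16 : ℂ).im = 0 := by norm_num
    rw [e1, e2]
    nlinarith
  have h3 : av (fun x => (ch (d * x)).re) = 0 := by
    unfold av
    have h4 := sum_ch_of_ne hd
    have h5 : ∑ x : ZMod p, (ch (d * x)).re = (∑ x : ZMod p, ch (d * x)).re := by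
      rw [Complex.re_sum]
    rw [h5, h4]
    simp
  have h6 : (fun x : ZMod p => ‖1 + (1 / 16 : ℂ) * ch (d * x)‖ ^ 2) =
      fun x => 257 / 256 + (1 / 8) * (ch (d * x)).re := funext h1
  rw [h6, av_add (fun _ => 257 / 256) (fun x => (1 / 8) * (ch (d * x)).re), av_const,
    av_mul_left, h3]
  ring

private theorem DiagE_av {d : ZMod p} (hd : d ≠ 0) :
    av (fun x => ‖1 + (1 / 16 : ℂ) * ch (d * x)‖) ≤ 513 / 512 := by
  -- `y ≤ (y² + 1)/2`
  have h1 : ∀ x : ZMod p, ‖1 + (1 / 16 : ℂ) * ch (d * x)‖ ≤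
      (1 / 2) * ‖1 + (1 / 16 : ℂ) * ch (d * x)‖ ^ 2 + 1 / 2 := by
    intro x
    nlinarith [sq_nonneg (‖1 + (1 / 16 : ℂ) * ch (d * x)‖ - 1)]
  refine (av_mono h1).trans ?_
  rw [av_add (fun x => (1 / 2) * ‖1 + (1 / 16 : ℂ) * ch (d * x)‖ ^ 2) (fun _ => 1 / 2), av_const,
    av_mul_left, DiagE_sq hd]
  norm_num

private theorem DiagE_av0 :
    av (fun _ : ZMod p => ‖1 + (1 / 16 : ℂ) * ch (0 : ZMod p)‖) = 17 / 16 := by
  rw [av_const, ch_zero]
  norm_num

private theorem DiagE_nn (d : ZMod p) :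
    0 ≤ av (fun x => ‖1 + (1 / 16 : ℂ) * ch (d * x)‖) := av_nonneg fun _ => norm_nonneg _

theorem avK_Dst_le {h : ℕ} (B : Finset (ZMod p)) (C : ZMod p → Finset (ZMod p)) (M : ℕ)
    (hM : (17 / 16 : ℝ) ^ h ≤ M) (hB : B.Nonempty) (hC : ∀ b ∈ B, (C b).card = M) :
    avK (fun t : Fin h → ZMod p => Dst B C M t) ≤ 2 * (513 / 512 : ℝ) ^ h := by
  classical
  have hMpos : (0 : ℝ) < M := lt_of_lt_of_le (by positivity) hM
  have hBpos : (0 : ℝ) < B.card := by exact_mod_cast hB.card_pos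
  -- rewrite
  have e1 : (fun t : Fin h → ZMod p => Dst B C M t) = fun t =>
      (1 / (B.card : ℝ)) * ∑ b ∈ B, (1 / (M : ℝ) ^ 2) *
        ∑ a ∈ C b, ∑ a' ∈ C b, ∏ i, ‖1 + (1 / 16 : ℂ) * ch ((a - a') * t i)‖ := by
    funext t
    unfold Dst
    rw [Finset.sum_div, Finset.mul_sum]
    refine Finset.sum_congr rfl fun b _ => ?_
    ring
  have e2 : avK (fun t : Fin h → ZMod p => Dst B C M t) =
      (1 / (B.card : ℝ)) * ∑ b ∈ B, (1 / (M : ℝ) ^ 2) *
        ∑ a ∈ C b, ∑ a' ∈ C b, av (fun x => ‖1 + (1 / 16 : ℂ) * ch ((a - a') * x)‖) ^ h := by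
    rw [e1, avK_mul_left, avK_finset_sum]
    congr 1
    refine Finset.sum_congr rfl fun b _ => ?_
    rw [avK_mul_left, avK_finset_sum]
    congr 1
    refine Finset.sum_congr rfl fun a _ => ?_
    rw [avK_finset_sum]
    refine Finset.sum_congr rfl fun a' _ => ?_
    exact avK_prod_real (K := h) (fun x => ‖1 + (1 / 16 : ℂ) * ch ((a - a') * x)‖)
  rw [e2]
  have hb : ∀ b ∈ B, (1 / (M : ℝ) ^ 2) *
      ∑ a ∈ C b, ∑ a' ∈ C b, av (fun x => ‖1 + (1 / 16 : ℂ) * ch ((a - a') * x)‖) ^ h ≤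
      2 * (513 / 512 : ℝ) ^ h := by
    intro b hb
    have hcard := hC b hb
    have hin : ∀ a ∈ C b, ∑ a' ∈ C b,
        av (fun x => ‖1 + (1 / 16 : ℂ) * ch ((a - a') * x)‖) ^ h ≤
        (17 / 16 : ℝ) ^ h + M * (513 / 512 : ℝ) ^ h := by
      intro a ha
      rw [← Finset.add_sum_erase _ _ ha]
      refine add_le_add ?_ ?_
      · rw [sub_self]
        simp only [zero_mul]
        rw [DiagE_av0]
      · refine (Finset.sum_le_card_nsmul _ _ ((513 / 512 : ℝ) ^ h) ?_).trans ?_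
        · intro a' ha'
          refine pow_le_pow_left₀ (DiagE_nn _) (DiagE_av ?_) h
          exact sub_ne_zero.2 (Finset.ne_of_mem_erase ha').symm
        · rw [nsmul_eq_mul]
          refine mul_le_mul_of_nonneg_right ?_ (by positivity)
          rw [← hcard]
          exact_mod_cast Finset.card_le_card (Finset.erase_subset a (C b))
    have hsum : ∑ a ∈ C b, ∑ a' ∈ C b,
        av (fun x => ‖1 + (1 / 16 : ℂ) * ch ((a - a') * x)‖) ^ h ≤
        M * ((17 / 16 : ℝ) ^ h + M * (513 / 512 : ℝ) ^ h) := by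
      refine (Finset.sum_le_card_nsmul _ _ _ hin).trans ?_
      rw [nsmul_eq_mul, hcard]
    have h17 : (17 / 16 : ℝ) ^ h ≤ M * (513 / 512 : ℝ) ^ h := by
      refine hM.trans ?_
      have : (1 : ℝ) ≤ (513 / 512 : ℝ) ^ h := one_le_pow₀ (by norm_num)
      nlinarith
    rw [one_div, inv_mul_le_iff₀ (by positivity)]
    refine hsum.trans ?_
    nlinarith
  have hsum2 := Finset.sum_le_card_nsmul B _ _ hb
  rw [nsmul_eq_mul] at hsum2
  rw [one_div, inv_mul_le_iff₀ hBpos]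
  exact hsum2

theorem Dst_nonneg {h : ℕ} (B : Finset (ZMod p)) (C : ZMod p → Finset (ZMod p)) (M : ℕ)
    (t : Fin h → ZMod p) : 0 ≤ Dst B C M t := by
  unfold Dst
  refine div_nonneg (Finset.sum_nonneg fun b _ => div_nonneg (Finset.sum_nonneg fun a _ =>
    Finset.sum_nonneg fun a' _ => Finset.prod_nonneg fun i _ => norm_nonneg _) (by positivity))
    (Nat.cast_nonneg _)

end Pool.Agent.Lib.MP_6d8312_an.KD
end
end

section

/-!
# The hub sum: diagonal and off-diagonal terms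

`κ = 1/4`, `α_b = (1/M) ∑_{a∈C b} wt t a ch(aθ)`, so `‖(1/(|B| M)) ∑_b ∑_{a∈C b}‖² = ‖(1/|B|) ∑_b α_b‖² ≤
(1/|B|) ∑_b ‖α_b‖²`.  `wt t a = ∏ (1 - iκ ch(a t_i)) = ∑_L (-iκ)^{|L|} ch(a tL t L)`
(`Finset.prod_one_add`/`Finset.prod_add`, sum over `L : Finset (Fin h)`).  So
`‖α_b‖² = ∑_{L,L'} (-iκ)^{|L|} conj(-iκ)^{|L'|} (1/M²) ∑_{a,a'} ch(a(tL L + θ) - a'(tL L' + θ))`.
DIAGONAL `L = L'`: `(1/M²) ∑_{a,a'} ch((a-a')θ) ∑_L κ^{2|L|} ch((a-a') tL L) = (1/M²) ∑_{a,a'} ch((a-a')θ)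
∏_i (1 + κ² ch((a-a')t_i))`, norm at most the `b`-term of `Dst`.
OFF-DIAGONAL: `a(tL L+θ) - a'(tL L'+θ) = b(tL L - tL L') + (a-b)(tL L+θ) - (a'-b)(tL L'+θ)`, so
`(1/M²) ∑_{a,a'} = ch(b(tL L - tL L')) η_b(tL L+θ) conj η_b(tL L'+θ)`; after averaging over `b` it is
`crs B C M (tL L - tL L') (tL L + θ) (tL L' + θ)`, of norm `≤ e`.  `∑_{L,L'} κ^{|L|+|L'|} = (1+κ)^{2h}`.
-/

set_option autoImplicit false

noncomputable section

namespace Pool.Agent.Lib.MP_6d8312_an.KD

open Finset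

variable {p : ℕ} [Fact p.Prime]

/-- Expansion of a product over subsets. -/
private theorem prodExp {h : ℕ} (c : ℂ) (t : Fin h → ZMod p) (a : ZMod p) :
    ∏ i, (1 + c * ch (a * t i)) = ∑ L : Finset (Fin h), c ^ L.card * ch (a * tL t L) := by
  rw [Finset.prod_one_add]
  rw [Finset.powerset_univ]
  refine Finset.sum_congr rfl fun L _ => ?_
  rw [Finset.prod_mul_distrib, Finset.prod_const, tL, Finset.mul_sum, ch_sum]

private theorem wtExp {h : ℕ} (t : Fin h → ZMod p) (a : ZMod p) :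
    wt t a = ∑ L : Finset (Fin h), (-(Complex.I * (1 / 4))) ^ L.card * ch (a * tL t L) := by
  rw [← prodExp]
  unfold wt
  refine Finset.prod_congr rfl fun i _ => ?_
  ring

private theorem conj_mul_ch (x y : ZMod p) :
    ch x * (starRingEnd ℂ) (ch y) = ch (x - y) := by
  rw [← ch_neg, ← ch_add, sub_eq_add_neg]

/-- `(1/M) ∑_{a ∈ C b} ch (a σ) = ch (b σ) η_b(σ)`. -/
private theorem sumCh (C : ZMod p → Finset (ZMod p)) (M : ℕ) (b σ : ZMod p) :
    (∑ a ∈ C b, ch (a * σ)) / M = ch (b * σ) * eta C M b σ := by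
  unfold eta
  rw [mul_div_assoc', Finset.mul_sum]
  congr 1
  refine Finset.sum_congr rfl fun a _ => ?_
  rw [← ch_add]
  congr 1
  ring

/-- The inner averages. -/
private theorem alphaExp {h : ℕ} (C : ZMod p → Finset (ZMod p)) (M : ℕ) (t : Fin h → ZMod p)
    (θ b : ZMod p) :
    (∑ a ∈ C b, wt t a * ch (a * θ)) / M =
      ∑ L : Finset (Fin h), (-(Complex.I * (1 / 4))) ^ L.card *
        (ch (b * (tL t L + θ)) * eta C M b (tL t L + θ)) := by
  simp_rw [← sumCh]
  simp_rw [wtExp, Finset.sum_mul]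
  rw [Finset.sum_comm, Finset.sum_div]
  refine Finset.sum_congr rfl fun L _ => ?_
  rw [← mul_div_assoc (_ ^ L.card) (∑ a ∈ C b, ch (a * (tL t L + θ))) (M : ℂ), Finset.mul_sum]
  refine congrArg (fun x : ℂ => x / (M : ℂ)) (Finset.sum_congr rfl fun a _ => ?_)
  rw [mul_assoc, ← ch_add, mul_add]

/-- The square of the norm of the inner averages. -/
private theorem alphaSq {h : ℕ} (C : ZMod p → Finset (ZMod p)) (M : ℕ) (t : Fin h → ZMod p)
    (θ b : ZMod p) :
    ((‖(∑ a ∈ C b, wt t a * ch (a * θ)) / (M : ℂ)‖ ^ 2 : ℝ) : ℂ) =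
      ∑ L : Finset (Fin h), ∑ L' : Finset (Fin h),
        ((-(Complex.I * (1 / 4))) ^ L.card * (starRingEnd ℂ) ((-(Complex.I * (1 / 4))) ^ L'.card)) *
          (ch (b * (tL t L - tL t L')) *
            (eta C M b (tL t L + θ) * (starRingEnd ℂ) (eta C M b (tL t L' + θ)))) := by
  rw [alphaExp]
  push_cast
  rw [← Complex.mul_conj']
  rw [map_sum, Finset.sum_mul_sum]
  refine Finset.sum_congr rfl fun L _ => Finset.sum_congr rfl fun L' _ => ?_
  simp only [map_mul]
  rw [show b * (tL t L - tL t L') = b * (tL t L + θ) - b * (tL t L' + θ) by ring,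
    ← conj_mul_ch]
  ring

private theorem totalSq {h : ℕ} (B : Finset (ZMod p)) (C : ZMod p → Finset (ZMod p)) (M : ℕ)
    (t : Fin h → ZMod p) (θ : ZMod p) :
    (((∑ b ∈ B, ‖(∑ a ∈ C b, wt t a * ch (a * θ)) / (M : ℂ)‖ ^ 2) / B.card : ℝ) : ℂ) =
      ∑ L : Finset (Fin h), ∑ L' : Finset (Fin h),
        ((-(Complex.I * (1 / 4))) ^ L.card * (starRingEnd ℂ) ((-(Complex.I * (1 / 4))) ^ L'.card)) *
          crs B C M (tL t L - tL t L') (tL t L + θ) (tL t L' + θ) := by
  rw [Complex.ofReal_div, Complex.ofReal_sum]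
  simp_rw [alphaSq]
  rw [Finset.sum_comm, Finset.sum_div]
  refine Finset.sum_congr rfl fun L _ => ?_
  rw [Finset.sum_comm, Finset.sum_div]
  refine Finset.sum_congr rfl fun L' _ => ?_
  rw [← Finset.mul_sum, mul_div_assoc]
  rfl

private theorem normC (n : ℕ) : ‖(-(Complex.I * (1 / 4))) ^ n‖ = (1 / 4 : ℝ) ^ n := by
  rw [norm_pow, norm_neg, norm_mul, Complex.norm_I, one_mul]
  norm_num

private theorem sumQ (h : ℕ) (c : ℝ) : ∑ L : Finset (Fin h), c ^ L.card = (1 + c) ^ h := by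
  have := Finset.prod_one_add (f := fun _ : Fin h => c) (s := univ)
  rw [Finset.powerset_univ] at this
  simp only [Finset.prod_const, Finset.card_univ, Fintype.card_fin] at this
  exact this.symm

/-- The diagonal part. -/
private theorem diagSum {h : ℕ} (B : Finset (ZMod p)) (C : ZMod p → Finset (ZMod p)) (M : ℕ)
    (t : Fin h → ZMod p) (θ : ZMod p) :
    ∑ L : Finset (Fin h),
        ((-(Complex.I * (1 / 4))) ^ L.card * (starRingEnd ℂ) ((-(Complex.I * (1 / 4))) ^ L.card)) *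
          crs B C M (tL t L - tL t L) (tL t L + θ) (tL t L + θ) =
      (∑ b ∈ B, (∑ a ∈ C b, ∑ a' ∈ C b, ch ((a - a') * θ) *
        ∏ i, (1 + (1 / 16 : ℂ) * ch ((a - a') * t i))) / (M : ℂ) ^ 2) / B.card := by
  have hc : ∀ n : ℕ, (-(Complex.I * (1 / 4))) ^ n *
      (starRingEnd ℂ) ((-(Complex.I * (1 / 4))) ^ n) = (1 / 16 : ℂ) ^ n := by
    intro n
    rw [map_pow, ← mul_pow]
    congr 1
    simp only [map_neg, map_mul, Complex.conj_I, map_div₀, map_one, map_ofNat]
    ring_nf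
    rw [Complex.I_sq]
    norm_num
  simp_rw [hc]
  unfold crs
  simp_rw [sub_self, mul_zero, ch_zero, one_mul, mul_div_assoc', Finset.mul_sum]
  rw [← Finset.sum_div]
  congr 1
  rw [Finset.sum_comm]
  refine Finset.sum_congr rfl fun b _ => ?_
  have he : ∀ σ : ZMod p, eta C M b σ * (starRingEnd ℂ) (eta C M b σ) =
      (∑ a ∈ C b, ∑ a' ∈ C b, ch ((a - a') * σ)) / (M : ℂ) ^ 2 := by
    intro σ
    unfold eta
    rw [map_div₀, map_sum, Complex.conj_natCast, div_mul_div_comm, Finset.sum_mul_sum, ← sq]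
    congr 1
    refine Finset.sum_congr rfl fun a _ => Finset.sum_congr rfl fun a' _ => ?_
    rw [conj_mul_ch]
    congr 1
    ring
  simp_rw [he, prodExp, mul_div_assoc', Finset.mul_sum]
  rw [← Finset.sum_div]
  congr 1
  rw [Finset.sum_comm]
  refine Finset.sum_congr rfl fun a _ => ?_
  rw [Finset.sum_comm]
  refine Finset.sum_congr rfl fun a' _ => ?_
  refine Finset.sum_congr rfl fun L _ => ?_
  rw [mul_add, ch_add]
  ring

theorem hub_expand {h : ℕ} (B : Finset (ZMod p)) (C : ZMod p → Finset (ZMod p)) (M : ℕ)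
    (hM : 0 < M) (hB : B.Nonempty) (t : Fin h → ZMod p) {e : ℝ} (he : 0 ≤ e)
    (hoff : ∀ L L' : Finset (Fin h), L ≠ L' → ∀ σ σ',
      ‖crs B C M (tL t L - tL t L') σ σ'‖ ≤ e) (θ : ZMod p) :
    ‖(∑ b ∈ B, ∑ a ∈ C b, wt t a * ch (a * θ)) / (B.card * M : ℂ)‖ ^ 2 ≤
      Dst B C M t + (5 / 4) ^ (2 * h) * e := by
  classical
  have hBc : (0 : ℝ) < B.card := by exact_mod_cast hB.card_pos
  -- first step: convexity
  have h1 : ‖(∑ b ∈ B, ∑ a ∈ C b, wt t a * ch (a * θ)) / (B.card * M : ℂ)‖ ^ 2 ≤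
      (∑ b ∈ B, ‖(∑ a ∈ C b, wt t a * ch (a * θ)) / (M : ℂ)‖ ^ 2) / B.card := by
    have e1 : (∑ b ∈ B, ∑ a ∈ C b, wt t a * ch (a * θ)) / (B.card * M : ℂ) =
        (∑ b ∈ B, (∑ a ∈ C b, wt t a * ch (a * θ)) / (M : ℂ)) / (B.card : ℂ) := by
      rw [← Finset.sum_div, div_div, mul_comm (M : ℂ)]
    rw [e1, norm_div, Complex.norm_natCast, div_pow, div_le_div_iff₀ (by positivity) hBc]
    have e2 : ‖∑ b ∈ B, (∑ a ∈ C b, wt t a * ch (a * θ)) / (M : ℂ)‖ ^ 2 ≤
        B.card * ∑ b ∈ B, ‖(∑ a ∈ C b, wt t a * ch (a * θ)) / (M : ℂ)‖ ^ 2 :=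
      (pow_le_pow_left₀ (norm_nonneg _) (norm_sum_le _ _) 2).trans sq_sum_le_card_mul_sum_sq
    calc _ ≤ (B.card * ∑ b ∈ B, ‖(∑ a ∈ C b, wt t a * ch (a * θ)) / (M : ℂ)‖ ^ 2) * B.card :=
          mul_le_mul_of_nonneg_right e2 hBc.le
      _ = _ := by ring
  refine h1.trans ?_
  -- second step: the expansion
  have h2 := totalSq B C M t θ
  have h3 : (∑ b ∈ B, ‖(∑ a ∈ C b, wt t a * ch (a * θ)) / (M : ℂ)‖ ^ 2) / (B.card : ℝ) =
      ‖(((∑ b ∈ B, ‖(∑ a ∈ C b, wt t a * ch (a * θ)) / (M : ℂ)‖ ^ 2) / B.card : ℝ) : ℂ)‖ := by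
    rw [Complex.norm_real, Real.norm_of_nonneg]
    exact div_nonneg (Finset.sum_nonneg fun _ _ => by positivity) hBc.le
  rw [h3, h2]
  -- split into diagonal and off-diagonal terms
  have h4 : ∀ L : Finset (Fin h), ∑ L' : Finset (Fin h),
        ((-(Complex.I * (1 / 4))) ^ L.card * (starRingEnd ℂ) ((-(Complex.I * (1 / 4))) ^ L'.card)) *
          crs B C M (tL t L - tL t L') (tL t L + θ) (tL t L' + θ) =
      ((-(Complex.I * (1 / 4))) ^ L.card * (starRingEnd ℂ) ((-(Complex.I * (1 / 4))) ^ L.card)) *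
          crs B C M (tL t L - tL t L) (tL t L + θ) (tL t L + θ) +
      ∑ L' ∈ univ.erase L,
        ((-(Complex.I * (1 / 4))) ^ L.card * (starRingEnd ℂ) ((-(Complex.I * (1 / 4))) ^ L'.card)) *
          crs B C M (tL t L - tL t L') (tL t L + θ) (tL t L' + θ) := fun L =>
    (Finset.add_sum_erase univ _ (Finset.mem_univ L)).symm
  simp_rw [h4]
  rw [Finset.sum_add_distrib]
  refine (norm_add_le _ _).trans (add_le_add ?_ ?_)
  · rw [diagSum, norm_div, Complex.norm_natCast]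
    unfold Dst
    refine div_le_div_of_nonneg_right ?_ hBc.le
    refine (norm_sum_le _ _).trans (Finset.sum_le_sum fun b _ => ?_)
    rw [norm_div, norm_pow, Complex.norm_natCast]
    refine div_le_div_of_nonneg_right ?_ (by positivity)
    refine (norm_sum_le _ _).trans (Finset.sum_le_sum fun a _ => ?_)
    refine (norm_sum_le _ _).trans (Finset.sum_le_sum fun a' _ => ?_)
    rw [norm_mul, norm_ch, one_mul, norm_prod]
  · have h5 : ∀ L : Finset (Fin h), ‖∑ L' ∈ univ.erase L,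
        ((-(Complex.I * (1 / 4))) ^ L.card * (starRingEnd ℂ) ((-(Complex.I * (1 / 4))) ^ L'.card)) *
          crs B C M (tL t L - tL t L') (tL t L + θ) (tL t L' + θ)‖ ≤
        ∑ L' : Finset (Fin h), ((1 / 4 : ℝ) ^ L.card * (1 / 4 : ℝ) ^ L'.card) * e := by
      intro L
      refine (norm_sum_le _ _).trans ?_
      refine (Finset.sum_le_sum (g := fun L' => ((1 / 4 : ℝ) ^ L.card * (1 / 4 : ℝ) ^ L'.card) * e)
        fun L' hL' => ?_).trans ?_
      · rw [norm_mul, norm_mul, RCLike.norm_conj, normC, normC]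
        exact mul_le_mul_of_nonneg_left
          (hoff L L' (Finset.ne_of_mem_erase hL').symm _ _) (by positivity)
      · exact Finset.sum_le_sum_of_subset_of_nonneg (Finset.erase_subset _ _)
          fun _ _ _ => by positivity
    refine (norm_sum_le _ _).trans ((Finset.sum_le_sum fun L _ => h5 L).trans (le_of_eq ?_))
    simp_rw [← Finset.sum_mul, ← Finset.mul_sum, sumQ]
    rw [← Finset.sum_mul, sumQ, pow_mul', sq]
    norm_num

end Pool.Agent.Lib.MP_6d8312_an.KD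
end
end

section

/-!
# The one-step numerator

`κ = 1/4`, `c = Re ch x ∈ [-1,1]`.  `exp(iκc) = 1 + iκc - κ²c²/2 - iκ³c³/6 + κ⁴c⁴/24 + R`,
`‖R‖ ≤ κ⁵/100` (`Complex.exp_bound` with `n = 5`: `‖x‖^5 * (6 / (120 * 5))`).
`c^k = 2^{-k} (ch x + ch(-x))^k` and the averages of `ch(l x)` vanish for `0 < |l| ≤ 5 < p`
(`sum_ch`, `(l : ZMod p) ≠ 0`), so the averages of `c, c², c³, c⁴` are `0, 1/2, 0, 3/8` and those of
`ch·c, ch·c², ch·c³, ch·c⁴` are `1/2, 0, 3/8, 0`; of `ch` `0`.  The average of `(1 - iκ ch) × (Taylor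
polynomial)` is therefore `1 - κ²/4 + κ⁴/64 - iκ (iκ/2 - iκ³/16) = 1 + κ²/4 - 3κ⁴/64`, and the error
is at most `(5/4) κ⁵/100`.  Numerically `1 + 1/64 - 3/16384 - 5/409600 ≥ 4159/4096`
(`3/16384 + 5/409600 ≤ 1/4096`).
-/

set_option autoImplicit false

noncomputable section

namespace Pool.Agent.Lib.MP_6d8312_an.KD

open Finset

variable {p : ℕ} [Fact p.Prime]

/-- The function averaged. -/
def phi (x : ZMod p) : ℂ :=
  (1 - Complex.I * (1 / 4) * ch x) * Complex.exp (Complex.I * ((1 / 4 * (ch x).re : ℝ) : ℂ))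

private theorem Gp_ne (hp : 7 ≤ p) (k : ℕ) (hk : 0 < k) (hk' : k ≤ 5) : (k : ZMod p) ≠ 0 := by
  intro h
  rw [ZMod.natCast_eq_zero_iff] at h
  have := Nat.le_of_dvd hk h
  omega

private theorem Gp_pow (hp : 7 ≤ p) (k : ℕ) (hk : 0 < k) (hk' : k ≤ 5) :
    ∑ x : ZMod p, ch x ^ k = 0 := by
  have h := sum_ch_of_ne (Gp_ne hp k hk hk')
  rw [← h]
  exact Finset.sum_congr rfl fun x _ => (ch_nsmul k x).symm

private theorem Gp_pow' (hp : 7 ≤ p) (k : ℕ) (hk : 0 < k) (hk' : k ≤ 5) :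
    ∑ x : ZMod p, (starRingEnd ℂ) (ch x) ^ k = 0 := by
  rw [← map_zero (starRingEnd ℂ), ← Gp_pow hp k hk hk', map_sum]
  exact Finset.sum_congr rfl fun x _ => (map_pow _ _ _).symm

private theorem Gp_alg (z w : ℂ) (h : z * w = 1) :
    (1 - Complex.I * (1 / 4) * z) * (∑ m ∈ range 5,
      (Complex.I * (1 / 4 * ((z + w) / 2))) ^ m / (m.factorial : ℂ)) =
    16637 / 16384 +
      (-(8001 / 65536) * Complex.I * z ^ 1 + 571 / 24576 * z ^ 2 + 53 / 32768 * Complex.I * z ^ 3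
        - 7 / 98304 * z ^ 4 - 1 / 393216 * Complex.I * z ^ 5) +
      (12383 / 98304 * Complex.I * w ^ 1 - 193 / 24576 * w ^ 2 - 43 / 131072 * Complex.I * w ^ 3
        + 1 / 98304 * w ^ 4) := by
  have hz : z ≠ 0 := by
    rintro rfl
    simp at h
  have hw : w = z⁻¹ := by
    field_simp
    rw [← h]
    ring
  subst hw
  have hI : Complex.I ^ 2 = -1 := Complex.I_sq
  have hI3 : Complex.I ^ 3 = -Complex.I := by
    rw [pow_succ, hI]; ring
  have hI4 : Complex.I ^ 4 = 1 := by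
    rw [show (4 : ℕ) = 2 * 2 from rfl, pow_mul, hI]; norm_num
  have hI5 : Complex.I ^ 5 = Complex.I := by
    rw [pow_succ, hI4]; ring
  simp only [Finset.sum_range_succ, Finset.sum_range_zero, Nat.factorial]
  push_cast
  field_simp
  ring_nf
  simp only [hI, hI3, hI4, hI5]
  ring

private theorem Gp_err (x : ZMod p) :
    ‖Complex.exp (Complex.I * ((1 / 4 * (ch x).re : ℝ) : ℂ)) -
      ∑ m ∈ range 5, (Complex.I * ((1 / 4 * (ch x).re : ℝ) : ℂ)) ^ m / (m.factorial : ℂ)‖ ≤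
      1 / 102400 := by
  have hn : ‖Complex.I * ((1 / 4 * (ch x).re : ℝ) : ℂ)‖ ≤ 1 / 4 := by
    rw [norm_mul, Complex.norm_I, one_mul, Complex.norm_real, Real.norm_eq_abs, abs_mul]
    have h1 : |(ch x).re| ≤ 1 := abs_le.mpr ⟨neg_one_le_re_ch x, re_ch_le_one x⟩
    rw [abs_of_pos (by norm_num : (0 : ℝ) < 1 / 4)]
    linarith
  have h := Complex.exp_bound (x := Complex.I * ((1 / 4 * (ch x).re : ℝ) : ℂ))
    (hn.trans (by norm_num)) (n := 5) (by norm_num)
  refine h.trans ?_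
  have h5 : ‖Complex.I * ((1 / 4 * (ch x).re : ℝ) : ℂ)‖ ^ 5 ≤ (1 / 4) ^ 5 :=
    pow_le_pow_left₀ (norm_nonneg _) hn 5
  have h6 : (((Nat.succ 5 : ℕ) : ℝ) * (((Nat.factorial 5 : ℕ) : ℝ) * (5 : ℕ))⁻¹) = 1 / 100 := by
    norm_num [Nat.factorial]
  rw [h6]
  nlinarith

theorem phi_sum_ge (hp : 7 ≤ p) : (4159 / 4096 : ℝ) * p ≤ ‖∑ x : ZMod p, phi x‖ := by
  have hppos : (0 : ℝ) < p := p_pos
  set T : ZMod p → ℂ := fun x => (1 - Complex.I * (1 / 4) * ch x) *
    ∑ m ∈ range 5, (Complex.I * ((1 / 4 * (ch x).re : ℝ) : ℂ)) ^ m / (m.factorial : ℂ) with hT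
  have hTx : ∀ x : ZMod p, T x = 16637 / 16384 +
      (-(8001 / 65536) * Complex.I * ch x ^ 1 + 571 / 24576 * ch x ^ 2
        + 53 / 32768 * Complex.I * ch x ^ 3
        - 7 / 98304 * ch x ^ 4 - 1 / 393216 * Complex.I * ch x ^ 5) +
      (12383 / 98304 * Complex.I * (starRingEnd ℂ) (ch x) ^ 1
        - 193 / 24576 * (starRingEnd ℂ) (ch x) ^ 2
        - 43 / 131072 * Complex.I * (starRingEnd ℂ) (ch x) ^ 3
        + 1 / 98304 * (starRingEnd ℂ) (ch x) ^ 4) := by
    intro x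
    have hzw : ch x * (starRingEnd ℂ) (ch x) = 1 := by
      rw [Complex.mul_conj, Complex.normSq_eq_norm_sq, norm_ch]
      norm_num
    have := Gp_alg (ch x) ((starRingEnd ℂ) (ch x)) hzw
    rw [← this, hT]
    have hre : ((1 / 4 * (ch x).re : ℝ) : ℂ) = 1 / 4 * ((ch x + (starRingEnd ℂ) (ch x)) / 2) := by
      rw [← Complex.re_eq_add_conj]
      push_cast
      ring
    simp only [hre]
  have hTs : ∑ x : ZMod p, T x = 16637 / 16384 * p := by
    simp only [hTx, Finset.sum_add_distrib, Finset.sum_sub_distrib, ← Finset.mul_sum]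
    rw [Gp_pow hp 1 (by norm_num) (by norm_num), Gp_pow hp 2 (by norm_num) (by norm_num),
      Gp_pow hp 3 (by norm_num) (by norm_num), Gp_pow hp 4 (by norm_num) (by norm_num),
      Gp_pow hp 5 (by norm_num) (by norm_num), Gp_pow' hp 1 (by norm_num) (by norm_num),
      Gp_pow' hp 2 (by norm_num) (by norm_num), Gp_pow' hp 3 (by norm_num) (by norm_num),
      Gp_pow' hp 4 (by norm_num) (by norm_num)]
    simp [ZMod.card]
    ring
  have hdiff : ∀ x : ZMod p, ‖phi x - T x‖ ≤ 5 / 4 * (1 / 102400) := by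
    intro x
    have : phi x - T x = (1 - Complex.I * (1 / 4) * ch x) *
        (Complex.exp (Complex.I * ((1 / 4 * (ch x).re : ℝ) : ℂ)) -
        ∑ m ∈ range 5, (Complex.I * ((1 / 4 * (ch x).re : ℝ) : ℂ)) ^ m / (m.factorial : ℂ)) := by
      rw [phi, hT]
      ring
    rw [this, norm_mul]
    have h1 : ‖(1 - Complex.I * (1 / 4) * ch x)‖ ≤ 5 / 4 := by
      refine (norm_sub_le _ _).trans ?_
      rw [norm_mul, norm_mul, Complex.norm_I, norm_ch]
      norm_num
    exact mul_le_mul h1 (Gp_err x) (norm_nonneg _) (by norm_num)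
  have hsum : ‖∑ x : ZMod p, phi x - ∑ x : ZMod p, T x‖ ≤ p * (5 / 4 * (1 / 102400)) := by
    rw [← Finset.sum_sub_distrib]
    refine (norm_sum_le _ _).trans ?_
    refine (Finset.sum_le_sum fun x _ => hdiff x).trans ?_
    rw [Finset.sum_const, Finset.card_univ, ZMod.card, nsmul_eq_mul]
  have hnT : ‖∑ x : ZMod p, T x‖ = 16637 / 16384 * p := by
    rw [hTs, norm_mul]
    simp
  have := norm_sub_norm_le (∑ x : ZMod p, T x) (∑ x : ZMod p, phi x)
  rw [norm_sub_rev] at this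
  rw [hnT] at this
  nlinarith

end Pool.Agent.Lib.MP_6d8312_an.KD
end
end

section

/-!
# The numerator

`wt t a * exp (I * phs t a) = ∏_i phi (a * t i)` (`Complex.exp_sum`, `Finset.mul_sum`).
`numer`: `∑_t ∑_{a∈A} ∏_i phi(a t_i) = ∑_{a∈A} (∑_x phi (a x))^K = |A| (∑_x phi x)^K` (`avK_prod`,
`a ≠ 0`: bijection `x ↦ a x`); triangle inequality and `phi_sum_ge`.
`‖1 - (i/4) ch‖ ∈ [3/4, 5/4]`.
-/

set_option autoImplicit false

noncomputable section

namespace Pool.Agent.Lib.MP_6d8312_an.KD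

open Finset

variable {p : ℕ} [Fact p.Prime]

theorem wt_mul_exp {K : ℕ} (t : Fin K → ZMod p) (a : ZMod p) :
    wt t a * Complex.exp (Complex.I * phs t a) = ∏ i, phi (a * t i) := by
  have h : Complex.I * (phs t a : ℂ) =
      ∑ i, Complex.I * ((1 / 4 * (ch (a * t i)).re : ℝ) : ℂ) := by
    rw [phs, Finset.mul_sum, Complex.ofReal_sum, Finset.mul_sum]
  rw [h, Complex.exp_sum, wt, ← Finset.prod_mul_distrib]
  rfl

theorem wt_cons {K : ℕ} (t₀ : ZMod p) (t : Fin K → ZMod p) (a : ZMod p) :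
    wt (Fin.cons t₀ t : Fin (K + 1) → ZMod p) a =
      (1 - Complex.I * (1 / 4) * ch (a * t₀)) * wt t a := by
  rw [wt, wt, Fin.prod_univ_succ]
  simp only [Fin.cons_zero, Fin.cons_succ]

private theorem Numer_le (y : ZMod p) : ‖(1 - Complex.I * (1 / 4) * ch y)‖ ≤ 5 / 4 := by
  refine (norm_sub_le _ _).trans ?_
  rw [norm_mul, norm_mul, Complex.norm_I, norm_ch]
  norm_num

private theorem Numer_ge (y : ZMod p) : 3 / 4 ≤ ‖(1 - Complex.I * (1 / 4) * ch y)‖ := by
  have h := norm_sub_norm_le (1 : ℂ) (Complex.I * (1 / 4) * ch y)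
  have h2 : ‖Complex.I * (1 / 4) * ch y‖ = 1 / 4 := by
    rw [norm_mul, norm_mul, Complex.norm_I, norm_ch]
    norm_num
  rw [h2, norm_one] at h
  linarith

theorem norm_wt_le {K : ℕ} (t : Fin K → ZMod p) (a : ZMod p) : ‖wt t a‖ ≤ (5 / 4 : ℝ) ^ K := by
  rw [wt, norm_prod]
  refine (Finset.prod_le_prod (fun i _ => norm_nonneg _) fun i _ => Numer_le (a * t i)).trans ?_
  rw [Finset.prod_const, Finset.card_univ, Fintype.card_fin]

theorem norm_wt_ge {K : ℕ} (t : Fin K → ZMod p) (a : ZMod p) : (3 / 4 : ℝ) ^ K ≤ ‖wt t a‖ := by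
  rw [wt, norm_prod]
  refine le_trans ?_ (Finset.prod_le_prod (fun i _ => by norm_num)
    fun i _ => Numer_ge (a * t i))
  rw [Finset.prod_const, Finset.card_univ, Fintype.card_fin]

theorem numer_le {K : ℕ} (A : Finset (ZMod p)) (t : Fin K → ZMod p) :
    ‖∑ a ∈ A, wt t a * Complex.exp (Complex.I * phs t a)‖ ≤ A.card * (5 / 4 : ℝ) ^ K := by
  refine (norm_sum_le _ _).trans ?_
  have : ∀ a ∈ A, ‖wt t a * Complex.exp (Complex.I * phs t a)‖ ≤ (5 / 4 : ℝ) ^ K := by
    intro a _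
    rw [norm_mul, mul_comm Complex.I, Complex.norm_exp_ofReal_mul_I, mul_one]
    exact norm_wt_le t a
  refine (Finset.sum_le_sum this).trans ?_
  rw [Finset.sum_const, nsmul_eq_mul]

theorem numer (hp : 7 ≤ p) (K : ℕ) (A : Finset (ZMod p)) (h0 : (0 : ZMod p) ∉ A) :
    A.card * (4159 / 4096 : ℝ) ^ K ≤
      avK (fun t : Fin K → ZMod p => ‖∑ a ∈ A, wt t a * Complex.exp (Complex.I * phs t a)‖) := by
  have hppos : (0 : ℝ) < p := p_pos
  have h1 : ∑ t : Fin K → ZMod p, ∑ a ∈ A, wt t a * Complex.exp (Complex.I * phs t a) =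
      A.card * (∑ x : ZMod p, phi x) ^ K := by
    rw [Finset.sum_comm]
    have : ∀ a ∈ A, ∑ t : Fin K → ZMod p, wt t a * Complex.exp (Complex.I * phs t a) =
        (∑ x : ZMod p, phi x) ^ K := by
      intro a ha
      have ha0 : a ≠ 0 := fun h => h0 (h ▸ ha)
      have h2 : ∑ t : Fin K → ZMod p, wt t a * Complex.exp (Complex.I * phs t a) =
          ∑ t : Fin K → ZMod p, ∏ i, (fun y => phi (a * y)) (t i) :=
        Finset.sum_congr rfl fun t _ => wt_mul_exp t a
      rw [h2, avK_prod (fun y => phi (a * y))]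
      congr 1
      exact Fintype.sum_bijective (fun y => a * y) (mulLeft_bijective₀ a ha0) _ _ fun _ => rfl
    rw [Finset.sum_congr rfl this, Finset.sum_const, nsmul_eq_mul]
  have h3 : (A.card : ℝ) * ((4159 / 4096 : ℝ) * p) ^ K ≤
      ∑ t : Fin K → ZMod p, ‖∑ a ∈ A, wt t a * Complex.exp (Complex.I * phs t a)‖ := by
    refine le_trans ?_ (norm_sum_le _ _)
    rw [h1, norm_mul, norm_pow]
    have h4 : ‖((A.card : ℕ) : ℂ)‖ = A.card := by simp
    rw [h4]
    exact mul_le_mul_of_nonneg_left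
      (pow_le_pow_left₀ (by positivity) (phi_sum_ge hp) K) (Nat.cast_nonneg _)
  rw [avK, le_div_iff₀ (by positivity)]
  rw [mul_pow] at h3
  linarith

end Pool.Agent.Lib.MP_6d8312_an.KD
end
end

section

/-!
# Representations with quasi-independent support

Among all `n : ZMod p → ℤ` vanishing off `V` with `x = ∑_{v ∈ V} n v • v` and `∑ |n v| ≤ k` choose one
with `N = ∑ |n v|` minimal, and among these one with the support `T = {v ∈ V | n v ≠ 0}` of minimal
size (`Nat.find`, or minimise `N * (V.card + 1) + T.card : ℕ`).  Suppose `T` is not QI: there is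
`c` with values in `{-1,0,1}` on `T`, `∑_T c v • v = 0`, `c ≠ 0` on `T`; put `c = 0` off `T`.  Let
`ε v = c v * sign (n v)`, `E = ∑_T ε v`.  `n' = n - c` has `∑ |n'| = N - E` and `n'' = n + c` has
`∑ |n''| = N + E` (because `|n v| ≥ 1` on `T`, `|n v ± c v| = |n v| ± ε v`).  Both represent `x`, so by
minimality `E = 0`.  As `E = 0` and `ε ≠ 0`, some `ε v = -1`.  Let `t ≥ 1` be the minimum of `|n v|`
over the `v ∈ T` with `ε v = -1`.  Then `m' = n + t c` represents `x`, `|m' v| = |n v| + t ε v ≥ 0`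
for `v ∈ T` (for `ε v = -1` since `t ≤ |n v|`), so `∑ |m'| = N + t E = N`, and `m'` vanishes at the
minimising `v` and off `T`: smaller support, contradiction.
-/

set_option autoImplicit false

noncomputable section

namespace Pool.Agent.Lib.MP_6d8312_an.KD

open Finset

variable {p : ℕ} [Fact p.Prime]

theorem sparse (V : Finset (ZMod p)) (k : ℕ) {x : ZMod p} (hx : x ∈ ksum V k) :
    ∃ n : ZMod p → ℤ, (∀ v, v ∉ V → n v = 0) ∧ ∑ v ∈ V, |n v| ≤ k ∧
      x = ∑ v ∈ V, n v • v ∧ QI (V.filter fun v => n v ≠ 0) := by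
  classical
  have hx' : ∃ n : ZMod p → ℤ, ∑ v ∈ V, |n v| ≤ k ∧ x = ∑ v ∈ V, n v • v := by
    unfold ksum at hx
    simpa using hx
  obtain ⟨n0, hn0, hn0x⟩ := hx'
  have hex : ∃ m : ℕ, ∃ n : ZMod p → ℤ, (∀ v, v ∉ V → n v = 0) ∧ ∑ v ∈ V, |n v| ≤ k ∧
      x = ∑ v ∈ V, n v • v ∧
      (∑ v ∈ V, |n v|).toNat * (V.card + 1) + (V.filter fun v => n v ≠ 0).card = m := by
    refine ⟨_, fun v => if v ∈ V then n0 v else 0, ?_, ?_, ?_, rfl⟩
    · intro v hv; simp [hv]
    · rw [Finset.sum_congr rfl (g := fun v => |n0 v|)]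
      · exact hn0
      · intro v hv; simp [hv]
    · rw [hn0x]
      refine Finset.sum_congr rfl fun v hv => by simp [hv]
  obtain ⟨n, hnV, hnk, hnx, hnm⟩ := Nat.find_spec hex
  have hmin : ∀ n' : ZMod p → ℤ, (∀ v, v ∉ V → n' v = 0) → ∑ v ∈ V, |n' v| ≤ k →
      x = ∑ v ∈ V, n' v • v →
      (∑ v ∈ V, |n v|).toNat * (V.card + 1) + (V.filter fun v => n v ≠ 0).card ≤
        (∑ v ∈ V, |n' v|).toNat * (V.card + 1) + (V.filter fun v => n' v ≠ 0).card := by
    intro n' h1 h2 h3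
    rw [hnm]
    exact Nat.find_min' hex ⟨n', h1, h2, h3, rfl⟩
  refine ⟨n, hnV, hnk, hnx, ?_⟩
  by_contra hQI
  unfold QI at hQI
  push Not at hQI
  obtain ⟨c0, hc0, hc0s, b0, hb0, hcb0⟩ := hQI
  -- extend by zero
  set c : ZMod p → ℤ := fun v => if v ∈ V ∧ n v ≠ 0 then c0 v else 0 with hc
  have hcV : ∀ v, v ∉ V → c v = 0 := by intro v hv; simp [hc, hv]
  have hcn : ∀ v, n v = 0 → c v = 0 := by intro v hv; simp [hc, hv]
  have hc1 : ∀ v, c v = -1 ∨ c v = 0 ∨ c v = 1 := by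
    intro v
    by_cases h : v ∈ V ∧ n v ≠ 0
    · have e : c v = c0 v := by simp only [hc]; rw [if_pos h]
      rw [e]
      exact hc0 v (Finset.mem_filter.mpr h)
    · have e : c v = 0 := by simp only [hc]; rw [if_neg h]
      rw [e]; simp
  have hcs : ∑ v ∈ V, c v • v = 0 := by
    rw [← hc0s, Finset.sum_filter]
    refine Finset.sum_congr rfl fun v hv => ?_
    by_cases h : n v ≠ 0
    · simp [hc, hv, h]
    · push Not at h
      simp [hc, h]
  have hcb : c b0 ≠ 0 := by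
    have := Finset.mem_filter.mp hb0
    simp only [hc]
    rw [if_pos this]
    exact hcb0
  set ε : ZMod p → ℤ := fun v => c v * (n v).sign with hε
  have hsg : ∀ v, n v ≠ 0 → (n v).sign = 1 ∧ 1 ≤ n v ∨ (n v).sign = -1 ∧ n v ≤ -1 := by
    intro v hv
    rcases lt_or_gt_of_ne hv with h | h
    · right
      exact ⟨Int.sign_eq_neg_one_of_neg h, by omega⟩
    · left
      exact ⟨Int.sign_eq_one_of_pos h, by omega⟩
  have hε1 : ∀ v, ε v = -1 ∨ ε v = 0 ∨ ε v = 1 := by
    intro v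
    by_cases h : n v = 0
    · right; left; simp [hε, hcn v h]
    · rcases hsg v h with ⟨h1, -⟩ | ⟨h1, -⟩ <;> rcases hc1 v with h2 | h2 | h2 <;>
        simp [hε, h1, h2]
  -- the basic computation
  have habs : ∀ (t : ℤ) (v : ZMod p), 0 ≤ t → (ε v = -1 → t ≤ |n v|) →
      |n v + t * c v| = |n v| + t * ε v := by
    intro t v ht htv
    by_cases h : n v = 0
    · simp [hε, h, hcn v h]
    · rcases hsg v h with ⟨h1, h3⟩ | ⟨h1, h3⟩ <;> rcases hc1 v with h2 | h2 | h2
      · have e : ε v = -1 := by simp [hε, h1, h2]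
        have h4 := htv e
        rw [abs_of_nonneg (by omega : (0 : ℤ) ≤ n v)] at h4 ⊢
        rw [e, h2, abs_of_nonneg (by omega)]
      · have e : ε v = 0 := by simp [hε, h2]
        rw [e, h2]; simp
      · have e : ε v = 1 := by simp [hε, h1, h2]
        rw [e, h2, abs_of_nonneg (by omega), abs_of_nonneg (by omega)]
      · have e : ε v = 1 := by simp [hε, h1, h2]
        rw [e, h2, abs_of_nonpos (by omega), abs_of_nonpos (by omega)]
        ring
      · have e : ε v = 0 := by simp [hε, h2]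
        rw [e, h2]; simp
      · have e : ε v = -1 := by simp [hε, h1, h2]
        have h4 := htv e
        rw [abs_of_nonpos (by omega : n v ≤ 0)] at h4 ⊢
        rw [e, h2, abs_of_nonpos (by omega)]
        ring
  have habs' : ∀ v : ZMod p, |n v - c v| = |n v| - ε v := by
    intro v
    by_cases h : n v = 0
    · simp [hε, h, hcn v h]
    · rcases hsg v h with ⟨h1, h3⟩ | ⟨h1, h3⟩ <;> rcases hc1 v with h2 | h2 | h2
      · have e : ε v = -1 := by simp [hε, h1, h2]
        rw [e, h2, abs_of_nonneg (by omega), abs_of_nonneg (by omega)]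
      · have e : ε v = 0 := by simp [hε, h2]
        rw [e, h2]; simp
      · have e : ε v = 1 := by simp [hε, h1, h2]
        rw [e, h2, abs_of_nonneg (by omega), abs_of_nonneg (by omega)]
      · have e : ε v = 1 := by simp [hε, h1, h2]
        rw [e, h2, abs_of_nonpos (by omega), abs_of_nonpos (by omega)]
        ring
      · have e : ε v = 0 := by simp [hε, h2]
        rw [e, h2]; simp
      · have e : ε v = -1 := by simp [hε, h1, h2]
        rw [e, h2, abs_of_nonpos (by omega), abs_of_nonpos (by omega)]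
        ring
  have hrep : ∀ t : ℤ, x = ∑ v ∈ V, (n v + t * c v) • v := by
    intro t
    have : ∑ v ∈ V, (n v + t * c v) • v = ∑ v ∈ V, n v • v + t • ∑ v ∈ V, c v • v := by
      rw [Finset.smul_sum, ← Finset.sum_add_distrib]
      refine Finset.sum_congr rfl fun v _ => ?_
      rw [add_smul, mul_smul]
    rw [this, hcs, smul_zero, add_zero]
    exact hnx
  have hoff : ∀ t : ℤ, ∀ v, v ∉ V → n v + t * c v = 0 := by
    intro t v hv
    rw [hnV v hv, hcV v hv]; simp
  have hcard : ∀ m : ZMod p → ℤ, (V.filter fun v => m v ≠ 0).card ≤ V.card := fun m =>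
    Finset.card_filter_le _ _
  have hN0 : 0 ≤ ∑ v ∈ V, |n v| := Finset.sum_nonneg fun v _ => abs_nonneg _
  -- minimality of the norm
  have hNmin : ∀ m : ZMod p → ℤ, (∀ v, v ∉ V → m v = 0) → x = ∑ v ∈ V, m v • v →
      ∑ v ∈ V, |n v| ≤ ∑ v ∈ V, |m v| := by
    intro m h1 h2
    by_contra hlt
    push Not at hlt
    have h0 : 0 ≤ ∑ v ∈ V, |m v| := Finset.sum_nonneg fun v _ => abs_nonneg _
    have h3 := hmin m h1 (by omega) h2
    have h4 : (∑ v ∈ V, |m v|).toNat + 1 ≤ (∑ v ∈ V, |n v|).toNat := by omega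
    have h5 := hcard m
    have h6 : ((∑ v ∈ V, |m v|).toNat + 1) * (V.card + 1) ≤
        (∑ v ∈ V, |n v|).toNat * (V.card + 1) := Nat.mul_le_mul_right _ h4
    nlinarith
  have hE : ∑ v ∈ V, ε v = 0 := by
    have h1 : ∑ v ∈ V, |n v| ≤ ∑ v ∈ V, |n v + 1 * c v| :=
      hNmin _ (hoff 1) (hrep 1)
    have h2 : ∑ v ∈ V, |n v| ≤ ∑ v ∈ V, |n v + (-1) * c v| :=
      hNmin _ (hoff (-1)) (hrep (-1))
    have e1 : ∑ v ∈ V, |n v + 1 * c v| = ∑ v ∈ V, |n v| + ∑ v ∈ V, ε v := by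
      rw [← Finset.sum_add_distrib]
      refine Finset.sum_congr rfl fun v _ => ?_
      rw [habs 1 v (by norm_num), one_mul]
      intro he
      have : n v ≠ 0 := by
        intro h0
        rw [hε] at he
        simp [hcn v h0] at he
      rcases hsg v this with ⟨-, h3⟩ | ⟨-, h3⟩
      · rw [abs_of_nonneg (by omega)]; exact h3
      · rw [abs_of_nonpos (by omega)]; omega
    have e2 : ∑ v ∈ V, |n v + (-1) * c v| = ∑ v ∈ V, |n v| - ∑ v ∈ V, ε v := by
      rw [← Finset.sum_sub_distrib]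
      refine Finset.sum_congr rfl fun v _ => ?_
      rw [← habs' v]
      congr 1
      ring
    rw [e1] at h1
    rw [e2] at h2
    omega
  have hb0V := (Finset.mem_filter.mp hb0).1
  have hb0n := (Finset.mem_filter.mp hb0).2
  have hεb : ε b0 ≠ 0 := by
    rw [hε]
    exact mul_ne_zero hcb (fun h => hb0n (Int.sign_eq_zero_iff_zero.mp h))
  have hW : (V.filter fun v => ε v = -1).Nonempty := by
    by_contra hemp
    rw [Finset.not_nonempty_iff_eq_empty, Finset.filter_eq_empty_iff] at hemp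
    have h1 : ∀ v ∈ V, 0 ≤ ε v := by
      intro v hv
      rcases hε1 v with h | h | h
      · exact absurd h (hemp hv)
      · omega
      · omega
    exact hεb ((Finset.sum_eq_zero_iff_of_nonneg h1).mp hE b0 hb0V)
  obtain ⟨v1, hv1, hv1min⟩ := Finset.exists_min_image _ (fun v => |n v|) hW
  have hv1V := (Finset.mem_filter.mp hv1).1
  have hv1ε := (Finset.mem_filter.mp hv1).2
  set t : ℤ := |n v1| with ht
  have ht0 : 0 ≤ t := abs_nonneg _
  have hsum : ∑ v ∈ V, |n v + t * c v| = ∑ v ∈ V, |n v| := by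
    have : ∑ v ∈ V, |n v + t * c v| = ∑ v ∈ V, |n v| + t * ∑ v ∈ V, ε v := by
      rw [Finset.mul_sum, ← Finset.sum_add_distrib]
      refine Finset.sum_congr rfl fun v hv => ?_
      exact habs t v ht0 (fun he => hv1min v (Finset.mem_filter.mpr ⟨hv, he⟩))
    rw [this, hE]; ring
  have h1 := hmin (fun v => n v + t * c v) (hoff t) (by rw [hsum]; exact hnk) (hrep t)
  rw [hsum] at h1
  have hlt : (V.filter fun v => n v + t * c v ≠ 0).card < (V.filter fun v => n v ≠ 0).card := by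
    apply Finset.card_lt_card
    rw [Finset.ssubset_iff_of_subset]
    · refine ⟨v1, ?_, ?_⟩
      · rw [Finset.mem_filter]
        refine ⟨hv1V, fun h0 => ?_⟩
        rw [hε] at hv1ε
        simp [hcn v1 h0] at hv1ε
      · rw [Finset.mem_filter]
        push Not
        intro _
        have h2 := habs t v1 ht0 (fun _ => le_rfl)
        rw [hv1ε] at h2
        have h3 : |n v1 + t * c v1| = 0 := by rw [h2, ht]; ring
        exact abs_eq_zero.mp h3
    · intro v hv
      rw [Finset.mem_filter] at hv ⊢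
      refine ⟨hv.1, fun h0 => hv.2 ?_⟩
      rw [h0, hcn v h0]; simp
  omega

end Pool.Agent.Lib.MP_6d8312_an.KD
end
end

section

/-!
# Subgaussian estimates for quasi-independent sets

For real `λ ≥ 0` and `|x| ≤ 1`: `exp (λ x) ≤ cosh λ + x sinh λ` (convexity of `exp` on `[-λ, λ]`) and
`cosh λ ≤ exp (λ²/2)` (`Real.cosh_le_exp_half_sq`).  So with `x_b(t) = Re (z_b ch(b t))`:
`av exp (λ ∑_B x_b) ≤ av ∏ (cosh λ + x_b sinh λ) = (cosh λ)^|B| av ∏ (1 + Re (tanh λ z_b ch(bt)))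
= (cosh λ)^|B| ≤ exp (λ²|B|/2)` by `riesz`.  Markov: `mu {s ≤ ∑} ≤ exp (-λ s + λ²|B|/2)`, take
`λ = s/|B|` (for `|B| = 0` the claim is `mu ≤ 1`, since division by zero gives `exp 0`).
`subg_norm`: if `‖w‖ > s` then one of `Re w, Re (-w), Re (-i w), Re (i w)` is at least `s/√2`; apply
`subg` to `ζ z_b` for these four `ζ`.
`subg_dil`: `mu {t | P (c t)} = mu P` (`mu_dil`), `c ≠ 0`.
-/

set_option autoImplicit false

noncomputable section

namespace Pool.Agent.Lib.MP_6d8312_an.KD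

open Finset

variable {p : ℕ} [Fact p.Prime]

/-- Convexity of the exponential function on `[-l, l]`. -/
private theorem Subg_conv (l x : ℝ) (h1 : -1 ≤ x) (h2 : x ≤ 1) :
    Real.exp (l * x) ≤ Real.cosh l + x * Real.sinh l := by
  have hc := convexOn_exp.2 (Set.mem_univ (-l)) (Set.mem_univ l)
    (show (0:ℝ) ≤ (1 - x) / 2 by linarith) (show (0:ℝ) ≤ (1 + x) / 2 by linarith) (by ring)
  simp only [smul_eq_mul] at hc
  rw [Real.cosh_eq, Real.sinh_eq]
  have h3 : (1 - x) / 2 * -l + (1 + x) / 2 * l = l * x := by ring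
  rw [h3] at hc
  linarith

theorem av_exp_le (B : Finset (ZMod p)) (hB : QI B) (z : ZMod p → ℂ) (hz : ∀ b ∈ B, ‖z b‖ ≤ 1)
    (l : ℝ) (hl : 0 ≤ l) :
    av (fun t => Real.exp (l * ∑ b ∈ B, (z b * ch (b * t)).re)) ≤
      Real.exp (l ^ 2 * B.card / 2) := by
  have hcosh : 0 < Real.cosh l := Real.cosh_pos l
  have h1 : ∀ t : ZMod p, Real.exp (l * ∑ b ∈ B, (z b * ch (b * t)).re) ≤
      Real.cosh l ^ B.card *
        ∏ b ∈ B, (1 + (((Real.sinh l / Real.cosh l : ℝ) : ℂ) * z b * ch (b * t)).re) := by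
    intro t
    rw [Finset.mul_sum, Real.exp_sum, ← Finset.prod_const, ← Finset.prod_mul_distrib]
    refine Finset.prod_le_prod (fun b _ => (Real.exp_pos _).le) fun b hb => ?_
    have hab := abs_re_ch_le (z b) (hz b hb) (b * t)
    rw [abs_le] at hab
    refine (Subg_conv l _ hab.1 hab.2).trans (le_of_eq ?_)
    rw [mul_assoc, Complex.re_ofReal_mul]
    field_simp
  calc av (fun t => Real.exp (l * ∑ b ∈ B, (z b * ch (b * t)).re))
      ≤ av (fun t => Real.cosh l ^ B.card *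
        ∏ b ∈ B, (1 + (((Real.sinh l / Real.cosh l : ℝ) : ℂ) * z b * ch (b * t)).re)) :=
        av_mono h1
    _ = Real.cosh l ^ B.card := by
        rw [av_mul_left, riesz B hB (fun b => ((Real.sinh l / Real.cosh l : ℝ) : ℂ) * z b), mul_one]
    _ ≤ Real.exp (l ^ 2 / 2) ^ B.card :=
        pow_le_pow_left₀ hcosh.le (Real.cosh_le_exp_half_sq l) _
    _ = Real.exp (l ^ 2 * B.card / 2) := by
        rw [← Real.exp_nat_mul]; congr 1; ring

theorem subg (B : Finset (ZMod p)) (hB : QI B) (z : ZMod p → ℂ) (hz : ∀ b ∈ B, ‖z b‖ ≤ 1)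
    (s : ℝ) (hs : 0 ≤ s) :
    mu {t | s ≤ ∑ b ∈ B, (z b * ch (b * t)).re} ≤ Real.exp (-s ^ 2 / (2 * B.card)) := by
  rcases Nat.eq_zero_or_pos B.card with h0 | h0
  · rw [h0]
    simp only [Nat.cast_zero, mul_zero, div_zero, Real.exp_zero]
    exact mu_le_one _
  have hB0 : (0 : ℝ) < B.card := by exact_mod_cast h0
  set l : ℝ := s / B.card with hl
  have hl0 : 0 ≤ l := div_nonneg hs hB0.le
  have h1 := av_exp_le B hB z hz l hl0
  have h2 := mu_markov (p := p) (f := fun t => Real.exp (l * ∑ b ∈ B, (z b * ch (b * t)).re))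
    (fun t => (Real.exp_pos _).le) (Real.exp (l * s))
  have h3 : mu {t : ZMod p | s ≤ ∑ b ∈ B, (z b * ch (b * t)).re} ≤
      mu {t : ZMod p | Real.exp (l * s) ≤ Real.exp (l * ∑ b ∈ B, (z b * ch (b * t)).re)} := by
    refine mu_mono fun t ht => ?_
    exact Real.exp_le_exp.mpr (mul_le_mul_of_nonneg_left ht hl0)
  have h4 : Real.exp (l * s) * mu {t : ZMod p | s ≤ ∑ b ∈ B, (z b * ch (b * t)).re} ≤
      Real.exp (l ^ 2 * B.card / 2) :=
    (mul_le_mul_of_nonneg_left h3 (Real.exp_pos _).le).trans (h2.trans h1)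
  have h5 : Real.exp (-s ^ 2 / (2 * B.card)) =
      Real.exp (-(l * s)) * Real.exp (l ^ 2 * B.card / 2) := by
    rw [← Real.exp_add]; congr 1; rw [hl]; field_simp; ring
  rw [h5]
  calc mu {t : ZMod p | s ≤ ∑ b ∈ B, (z b * ch (b * t)).re}
      = Real.exp (-(l * s)) * (Real.exp (l * s) *
          mu {t : ZMod p | s ≤ ∑ b ∈ B, (z b * ch (b * t)).re}) := by
        rw [← mul_assoc, ← Real.exp_add]; simp
    _ ≤ Real.exp (-(l * s)) * Real.exp (l ^ 2 * B.card / 2) :=
        mul_le_mul_of_nonneg_left h4 (Real.exp_pos _).le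

theorem subg_norm (B : Finset (ZMod p)) (hB : QI B) (z : ZMod p → ℂ) (hz : ∀ b ∈ B, ‖z b‖ ≤ 1)
    (s : ℝ) (hs : 0 ≤ s) :
    mu {t | s < ‖∑ b ∈ B, z b * ch (b * t)‖} ≤ 4 * Real.exp (-s ^ 2 / (4 * B.card)) := by
  have hs2 : 0 ≤ s / Real.sqrt 2 := div_nonneg hs (Real.sqrt_nonneg _)
  have h2 : Real.sqrt 2 ^ 2 = 2 := Real.sq_sqrt (by norm_num)
  have hr : 0 < Real.sqrt 2 := Real.sqrt_pos.mpr (by norm_num)
  have hval : Real.exp (-(s / Real.sqrt 2) ^ 2 / (2 * B.card)) =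
      Real.exp (-s ^ 2 / (4 * B.card)) := by
    congr 1
    rw [div_pow, h2]
    rcases Nat.eq_zero_or_pos B.card with h0 | h0
    · simp [h0]
    · have hB0 : (0 : ℝ) < B.card := by exact_mod_cast h0
      field_simp; ring
  have key : ∀ ζ : ℂ, ‖ζ‖ = 1 →
      mu {t : ZMod p | s / Real.sqrt 2 ≤ (ζ * ∑ b ∈ B, z b * ch (b * t)).re} ≤
        Real.exp (-s ^ 2 / (4 * B.card)) := by
    intro ζ hζ
    have h := subg B hB (fun b => ζ * z b)
      (fun b hb => by rw [norm_mul, hζ, one_mul]; exact hz b hb) _ hs2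
    rw [hval] at h
    have he : {t : ZMod p | s / Real.sqrt 2 ≤ (ζ * ∑ b ∈ B, z b * ch (b * t)).re} =
        {t | s / Real.sqrt 2 ≤ ∑ b ∈ B, (ζ * z b * ch (b * t)).re} := by
      ext t
      simp only [Set.mem_setOf_eq]
      rw [Finset.mul_sum, Complex.re_sum]
      simp only [mul_assoc]
    rw [he]; exact h
  have hsub : {t : ZMod p | s < ‖∑ b ∈ B, z b * ch (b * t)‖} ⊆
      ({t | s / Real.sqrt 2 ≤ (1 * ∑ b ∈ B, z b * ch (b * t)).re} ∪
        {t | s / Real.sqrt 2 ≤ (-1 * ∑ b ∈ B, z b * ch (b * t)).re}) ∪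
      ({t | s / Real.sqrt 2 ≤ (-Complex.I * ∑ b ∈ B, z b * ch (b * t)).re} ∪
        {t | s / Real.sqrt 2 ≤ (Complex.I * ∑ b ∈ B, z b * ch (b * t)).re}) := by
    intro t ht
    simp only [Set.mem_setOf_eq] at ht
    set w : ℂ := ∑ b ∈ B, z b * ch (b * t) with hw
    have hn : s ^ 2 < w.re ^ 2 + w.im ^ 2 := by
      have h3 : s ^ 2 < ‖w‖ ^ 2 := by
        exact pow_lt_pow_left₀ ht hs (by norm_num)
      rw [← Complex.normSq_eq_norm_sq, Complex.normSq_apply] at h3
      nlinarith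
    simp only [Set.mem_union, Set.mem_setOf_eq, ← hw]
    by_contra hcon
    push Not at hcon
    obtain ⟨⟨ha, hb⟩, hc, hd⟩ := hcon
    simp only [one_mul, neg_mul, Complex.neg_re, Complex.mul_re, Complex.I_re, Complex.I_im,
      zero_mul, zero_sub, neg_neg] at ha hb hc hd
    have hre : w.re ^ 2 < (s / Real.sqrt 2) ^ 2 := by
      apply sq_lt_sq'
      · linarith
      · exact ha
    have him : w.im ^ 2 < (s / Real.sqrt 2) ^ 2 := by
      apply sq_lt_sq'
      · linarith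
      · linarith
    rw [div_pow, h2] at hre him
    linarith
  have k1 := key 1 (by simp)
  have k2 := key (-1) (by simp)
  have k3 := key (-Complex.I) (by simp)
  have k4 := key Complex.I (by simp)
  have m1 := mu_mono hsub
  have m2 := mu_union_le
    ({t : ZMod p | s / Real.sqrt 2 ≤ (1 * ∑ b ∈ B, z b * ch (b * t)).re} ∪
        {t | s / Real.sqrt 2 ≤ (-1 * ∑ b ∈ B, z b * ch (b * t)).re})
    ({t | s / Real.sqrt 2 ≤ (-Complex.I * ∑ b ∈ B, z b * ch (b * t)).re} ∪
        {t | s / Real.sqrt 2 ≤ (Complex.I * ∑ b ∈ B, z b * ch (b * t)).re})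
  have m3 := mu_union_le
    {t : ZMod p | s / Real.sqrt 2 ≤ (1 * ∑ b ∈ B, z b * ch (b * t)).re}
    {t | s / Real.sqrt 2 ≤ (-1 * ∑ b ∈ B, z b * ch (b * t)).re}
  have m4 := mu_union_le
    {t : ZMod p | s / Real.sqrt 2 ≤ (-Complex.I * ∑ b ∈ B, z b * ch (b * t)).re}
    {t | s / Real.sqrt 2 ≤ (Complex.I * ∑ b ∈ B, z b * ch (b * t)).re}
  linarith

theorem subg_dil (B : Finset (ZMod p)) (hB : QI B) (z : ZMod p → ℂ) (hz : ∀ b ∈ B, ‖z b‖ ≤ 1)
    (c : ZMod p) (hc : c ≠ 0) (s : ℝ) (hs : 0 ≤ s) :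
    mu {t | s ≤ ∑ b ∈ B, (z b * ch (b * (c * t))).re} ≤ Real.exp (-s ^ 2 / (2 * B.card)) := by
  have h := mu_dil {t : ZMod p | s ≤ ∑ b ∈ B, (z b * ch (b * t)).re} hc
  have h2 := subg B hB z hz s hs
  rw [← h] at h2
  exact h2

end Pool.Agent.Lib.MP_6d8312_an.KD
end
end
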