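import Pool.Agent.Lib.MP_6d8312_an.Mg.G001
import Pool.Agent.Lib.MP_6d8312_an.Mg.G003

section

/-!
# Counting sparse integer vectors

Let `φ(0) = 1`, `φ(j) = y x^|j|` for `j ≠ 0`.  For `n ∈ T`: `∏_{v∈V} φ(n v) = y^{|supp|} x^{∑|n|} ≥
y^q x^k` (as `0 < x, y ≤ 1`).  All `n v ∈ Icc (-k) k`.  The functions `n ∈ T` restricted to `V` are
different (they vanish off `V`), so `∑_{n∈T} ∏_{v∈V} φ(n v) ≤ ∏_{v∈V} ∑_{j ∈ Icc (-k) k} φ(j)`
(`Finset.prod_sum` / `Finset.prod_univ_sum`), and `∑_{j ∈ Icc (-k) k} φ(j) ≤ 1 + 2 y ∑_{i≥1} x^i =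
1 + 2 y x/(1-x)`.
-/

set_option autoImplicit false

noncomputable section

namespace Pool.Agent.Lib.MP_6d8312_an.KD

open Finset

/-- The weights. -/
private def Count_phi (x y : ℝ) (j : ℤ) : ℝ := if j = 0 then 1 else y * x ^ j.natAbs

private theorem Count_phi_nonneg {x y : ℝ} (hx0 : 0 < x) (hy0 : 0 < y) (j : ℤ) :
    0 ≤ Count_phi x y j := by
  unfold Count_phi
  split_ifs <;> positivity

private theorem Count_sum_Icc (x y : ℝ) (k : ℕ) :
    ∑ j ∈ Icc (-(k : ℤ)) k, Count_phi x y j = 1 + 2 * y * ∑ i ∈ range k, x ^ (i + 1) := by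
  induction k with
  | zero => simp [Count_phi]
  | succ k ih =>
    have h : Icc (-((k + 1 : ℕ) : ℤ)) ((k + 1 : ℕ) : ℤ)
        = insert ((k + 1 : ℕ) : ℤ) (insert (-((k + 1 : ℕ) : ℤ)) (Icc (-(k : ℤ)) k)) := by
      ext j
      simp only [mem_Icc, mem_insert]
      push_cast
      omega
    rw [h, sum_insert, sum_insert, ih, sum_range_succ]
    · have h1 : Count_phi x y ((k + 1 : ℕ) : ℤ) = y * x ^ (k + 1) := by
        unfold Count_phi
        rw [if_neg (by push_cast; omega)]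
        congr 2
      have h2 : Count_phi x y (-((k + 1 : ℕ) : ℤ)) = y * x ^ (k + 1) := by
        unfold Count_phi
        rw [if_neg (by push_cast; omega)]
        congr 2
      rw [h1, h2]
      ring
    · simp only [mem_Icc]
      push_cast
      omega
    · simp only [mem_Icc, mem_insert]
      push_cast
      omega

private theorem Count_sum_le {x y : ℝ} (hx0 : 0 < x) (hx1 : x < 1) (hy0 : 0 < y) (k : ℕ) :
    ∑ j ∈ Icc (-(k : ℤ)) k, Count_phi x y j ≤ 1 + 2 * y * x / (1 - x) := by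
  rw [Count_sum_Icc]
  have h1 : ∑ i ∈ range k, x ^ (i + 1) ≤ x / (1 - x) := by
    rw [le_div_iff₀ (by linarith)]
    have h2 : ∑ i ∈ range k, x ^ (i + 1) = x * ∑ i ∈ range k, x ^ i := by
      rw [mul_sum]
      exact sum_congr rfl fun i _ => by ring
    have h3 := mul_neg_geom_sum x k
    have h4 : (∑ i ∈ range k, x ^ (i + 1)) * (1 - x) = x * (1 - x ^ k) := by
      rw [h2, ← h3]; ring
    rw [h4]
    have h5 : 0 < x ^ k := by positivity
    nlinarith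
  have h6 := mul_le_mul_of_nonneg_left h1 (by positivity : (0 : ℝ) ≤ 2 * y)
  have e : 2 * y * (x / (1 - x)) = 2 * y * x / (1 - x) := by ring
  rw [e] at h6
  linarith

private theorem Count_prod {α : Type*} [DecidableEq α] (V : Finset α) (q k : ℕ) {x y : ℝ}
    (hx0 : 0 < x) (hx1 : x < 1) (hy0 : 0 < y) (hy1 : y ≤ 1) (n : α → ℤ)
    (hs : ∑ v ∈ V, |n v| ≤ k) (hq : (V.filter fun v => n v ≠ 0).card ≤ q) :
    y ^ q * x ^ k ≤ ∏ v ∈ V, Count_phi x y (n v) := by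
  have h1 : ∏ v ∈ V, Count_phi x y (n v)
      = y ^ (V.filter fun v => n v ≠ 0).card * x ^ (∑ v ∈ V, (n v).natAbs) := by
    rw [← prod_pow_eq_pow_sum, card_eq_sum_ones, sum_filter, ← prod_pow_eq_pow_sum,
      ← prod_mul_distrib]
    refine prod_congr rfl fun v _ => ?_
    unfold Count_phi
    by_cases h0 : n v = 0
    · simp [h0]
    · simp [h0]
  rw [h1]
  have h2 : ∑ v ∈ V, (n v).natAbs ≤ k := by
    have : ((∑ v ∈ V, (n v).natAbs : ℕ) : ℤ) ≤ k := by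
      push_cast
      exact hs
    exact_mod_cast this
  exact mul_le_mul (pow_le_pow_of_le_one hy0.le hy1 hq) (pow_le_pow_of_le_one hx0.le hx1.le h2)
    (by positivity) (by positivity)

theorem count_sparse {α : Type*} [DecidableEq α] (V : Finset α) (q k : ℕ) {x y : ℝ}
    (hx0 : 0 < x) (hx1 : x < 1) (hy0 : 0 < y) (hy1 : y ≤ 1) (T : Finset (α → ℤ))
    (hT : ∀ n ∈ T, (∀ v, v ∉ V → n v = 0) ∧ ∑ v ∈ V, |n v| ≤ k ∧
      (V.filter fun v => n v ≠ 0).card ≤ q) :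
    (T.card : ℝ) * (y ^ q * x ^ k) ≤ (1 + 2 * y * x / (1 - x)) ^ V.card := by
  classical
  set F : ((a : α) → a ∈ V → ℤ) → ℝ := fun g => ∏ v ∈ V.attach, Count_phi x y (g v.1 v.2) with hF
  set R : (α → ℤ) → ((a : α) → a ∈ V → ℤ) := fun n v _ => n v with hR
  have hinj : Set.InjOn R T := by
    intro n hn m hm hnm
    funext v
    by_cases hv : v ∈ V
    · exact congrFun (congrFun hnm v) hv
    · rw [(hT n hn).1 v hv, (hT m hm).1 v hv]
  have hsub : T.image R ⊆ V.pi fun _ => Icc (-(k : ℤ)) k := by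
    intro g hg
    obtain ⟨n, hn, rfl⟩ := mem_image.mp hg
    rw [mem_pi]
    intro v hv
    rw [mem_Icc, ← abs_le]
    exact (single_le_sum (f := fun v => |n v|) (fun _ _ => abs_nonneg _) hv).trans (hT n hn).2.1
  have hFR : ∀ n, F (R n) = ∏ v ∈ V, Count_phi x y (n v) := by
    intro n
    simp only [hF, hR]
    exact prod_attach V fun v => Count_phi x y (n v)
  have h1 : (T.card : ℝ) * (y ^ q * x ^ k) ≤ ∑ n ∈ T, F (R n) := by
    rw [← nsmul_eq_mul, ← sum_const]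
    refine sum_le_sum fun n hn => ?_
    rw [hFR]
    exact Count_prod V q k hx0 hx1 hy0 hy1 n (hT n hn).2.1 (hT n hn).2.2
  have h2 : ∑ n ∈ T, F (R n) = ∑ g ∈ T.image R, F g := (sum_image hinj).symm
  have h3 : ∑ g ∈ T.image R, F g ≤ ∑ g ∈ V.pi fun _ => Icc (-(k : ℤ)) k, F g := by
    apply sum_le_sum_of_subset_of_nonneg hsub
    intro g _ _
    exact prod_nonneg fun v _ => Count_phi_nonneg hx0 hy0 _
  have h4 : ∑ g ∈ V.pi fun _ => Icc (-(k : ℤ)) k, F g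
      = ∏ v ∈ V, ∑ j ∈ Icc (-(k : ℤ)) k, Count_phi x y j := by
    rw [prod_sum]
  have h5 : ∏ v ∈ V, ∑ j ∈ Icc (-(k : ℤ)) k, Count_phi x y j
      ≤ (1 + 2 * y * x / (1 - x)) ^ V.card := by
    rw [prod_const]
    apply pow_le_pow_left₀
    · exact sum_nonneg fun j _ => Count_phi_nonneg hx0 hy0 j
    · exact Count_sum_le hx0 hx1 hy0 k
  calc _ ≤ _ := h1
    _ = _ := h2
    _ ≤ _ := h3
    _ = _ := h4
    _ ≤ _ := h5

end Pool.Agent.Lib.MP_6d8312_an.KD
end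
end

section

/-!
# The number of `k`-fold sums

By `sparse` every element of `ksum V k` is `∑ n v • v` for some `n` in the set of all `n` vanishing
off `V` with `∑|n v| ≤ k` and QI support, so of support size `≤ qd V ≤ q` (`le_qd`).  Choose one such
`n` for each element of `ksum`: an injective map to a Finset `T` as in `count_sparse` (take `T` the
image of the choice function).  With `k = K₀ q`, `x = exp (-1/K₀)`, `y = 1/(2 M₀ K₀)`:
`x/(1-x) = 1/(exp(1/K₀)-1) ≤ K₀`, so `(1+2yx/(1-x))^|V| ≤ exp (2 y K₀ |V|) ≤ exp (|V|/M₀) ≤ exp q`;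
`y^{-q} x^{-k} = (2 M₀ K₀)^q exp q`.  Total `(2 M₀ K₀ exp 2)^q`.
-/

set_option autoImplicit false

noncomputable section

namespace Pool.Agent.Lib.MP_6d8312_an.KD

open Finset

variable {p : ℕ} [Fact p.Prime]

theorem card_ksum (V : Finset (ZMod p)) (q M₀ K₀ : ℕ) (hM : 1 ≤ M₀) (hK : 1 ≤ K₀)
    (hV : V.card ≤ M₀ * q) (hd : qd V ≤ q) :
    ((ksum V (K₀ * q)).card : ℝ) ≤ (2 * Real.exp 2 * M₀ * K₀) ^ q := by
  classical
  have hsp := fun x (hx : x ∈ ksum V (K₀ * q)) => sparse V (K₀ * q) hx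
  choose! N hN using hsp
  have hcard : ((ksum V (K₀ * q)).image N).card = (ksum V (K₀ * q)).card := by
    apply Finset.card_image_of_injOn
    intro x hx y hy hxy
    rw [(hN x hx).2.2.1, (hN y hy).2.2.1, hxy]
  have hM' : (1 : ℝ) ≤ M₀ := by exact_mod_cast hM
  have hK' : (1 : ℝ) ≤ K₀ := by exact_mod_cast hK
  have hK0 : (0 : ℝ) < K₀ := by linarith
  have hM0 : (0 : ℝ) < M₀ := by linarith
  have hx0 : 0 < Real.exp (-(1 / (K₀ : ℝ))) := Real.exp_pos _
  have hx1 : Real.exp (-(1 / (K₀ : ℝ))) < 1 := by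
    rw [Real.exp_lt_one_iff]
    have : 0 < 1 / (K₀ : ℝ) := by positivity
    linarith
  have hy0 : 0 < 1 / (2 * (M₀ : ℝ) * K₀) := by positivity
  have hy1 : 1 / (2 * (M₀ : ℝ) * K₀) ≤ 1 := by
    rw [div_le_one (by positivity)]
    nlinarith
  have hc := count_sparse V q (K₀ * q) hx0 hx1 hy0 hy1 ((ksum V (K₀ * q)).image N) (by
    intro n hn
    obtain ⟨x, hx, rfl⟩ := Finset.mem_image.mp hn
    obtain ⟨h1, h2, -, h4⟩ := hN x hx
    refine ⟨h1, h2, ?_⟩
    exact (le_qd (Finset.filter_subset _ _) h4).trans hd)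
  rw [hcard] at hc
  -- the bound of the right-hand side
  have hratio : Real.exp (-(1 / (K₀ : ℝ))) / (1 - Real.exp (-(1 / (K₀ : ℝ)))) ≤ K₀ := by
    rw [div_le_iff₀ (by linarith)]
    have h1 : 1 + 1 / (K₀ : ℝ) ≤ Real.exp (1 / (K₀ : ℝ)) := by
      have := Real.add_one_le_exp (1 / (K₀ : ℝ))
      linarith
    have h2 : Real.exp (-(1 / (K₀ : ℝ))) * Real.exp (1 / (K₀ : ℝ)) = 1 := by
      rw [← Real.exp_add]; simp
    have h3 : Real.exp (-(1 / (K₀ : ℝ))) * (1 + 1 / (K₀ : ℝ)) ≤ 1 := by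
      exact (mul_le_mul_of_nonneg_left h1 hx0.le).trans h2.le
    have h4 : Real.exp (-(1 / (K₀ : ℝ))) * (K₀ + 1) ≤ K₀ := by
      have := mul_le_mul_of_nonneg_left h3 hK0.le
      have e : (K₀ : ℝ) * (Real.exp (-(1 / (K₀ : ℝ))) * (1 + 1 / (K₀ : ℝ)))
          = Real.exp (-(1 / (K₀ : ℝ))) * (K₀ + 1) := by
        field_simp
      rw [e, mul_one] at this
      exact this
    nlinarith
  have hb : 1 + 2 * (1 / (2 * (M₀ : ℝ) * K₀)) * Real.exp (-(1 / (K₀ : ℝ)))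
      / (1 - Real.exp (-(1 / (K₀ : ℝ)))) ≤ Real.exp (1 / M₀) := by
    have h1 : 2 * (1 / (2 * (M₀ : ℝ) * K₀)) * Real.exp (-(1 / (K₀ : ℝ)))
        / (1 - Real.exp (-(1 / (K₀ : ℝ)))) ≤ 1 / M₀ := by
      have := mul_le_mul_of_nonneg_left hratio
        (by positivity : (0 : ℝ) ≤ 2 * (1 / (2 * (M₀ : ℝ) * K₀)))
      rw [mul_div_assoc]
      refine this.trans (le_of_eq ?_)
      field_simp
    have h2 := Real.add_one_le_exp (1 / (M₀ : ℝ))
    linarith
  have hb0 : 0 ≤ 1 + 2 * (1 / (2 * (M₀ : ℝ) * K₀)) * Real.exp (-(1 / (K₀ : ℝ)))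
      / (1 - Real.exp (-(1 / (K₀ : ℝ)))) := by
    have : 0 < 1 - Real.exp (-(1 / (K₀ : ℝ))) := by linarith
    positivity
  have hpow : (1 + 2 * (1 / (2 * (M₀ : ℝ) * K₀)) * Real.exp (-(1 / (K₀ : ℝ)))
      / (1 - Real.exp (-(1 / (K₀ : ℝ))))) ^ V.card ≤ Real.exp 1 ^ q := by
    calc _ ≤ Real.exp (1 / M₀) ^ V.card := pow_le_pow_left₀ hb0 hb _
      _ ≤ Real.exp (1 / M₀) ^ (M₀ * q) := by
          apply pow_le_pow_right₀ _ hV
          exact Real.one_le_exp (by positivity)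
      _ = Real.exp 1 ^ q := by
          rw [pow_mul, ← Real.exp_nat_mul]
          congr 2
          field_simp
  have hxk : Real.exp (-(1 / (K₀ : ℝ))) ^ (K₀ * q) = (Real.exp 1)⁻¹ ^ q := by
    rw [pow_mul, ← Real.exp_nat_mul, ← Real.exp_neg]
    congr 2
    field_simp
  rw [hxk] at hc
  have h5 := hc.trans hpow
  have hy' : (1 / (2 * (M₀ : ℝ) * K₀)) ^ q * (Real.exp 1)⁻¹ ^ q
      = ((2 * (M₀ : ℝ) * K₀ * Real.exp 1) ^ q)⁻¹ := by
    rw [← mul_pow, ← inv_pow]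
    congr 1
    field_simp
  rw [hy'] at h5
  have h6 : ((ksum V (K₀ * q)).card : ℝ)
      ≤ Real.exp 1 ^ q * (2 * (M₀ : ℝ) * K₀ * Real.exp 1) ^ q := by
    rwa [← div_eq_mul_inv, div_le_iff₀ (by positivity)] at h5
  refine h6.trans (le_of_eq ?_)
  rw [← mul_pow]
  congr 1
  have e2 : Real.exp 2 = Real.exp 1 * Real.exp 1 := by
    rw [← Real.exp_add]; norm_num
  rw [e2]
  ring

end Pool.Agent.Lib.MP_6d8312_an.KD
end
end

section

/-!
# Packing by the moment method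

`u(t) = (1/M') ∑_i Re ch(v_i t)`, `b(t) = (1+u(t))/2 ∈ [0,1]`, `a = b^k`.
(1) For all `k` there is `â : ZMod p → ℝ`, `â ≥ 0`, even, `∑ â = 1`, `â x = 0` off `ksum V k`
(`V = image v`), `a(t) = ∑_x â(x) Re ch(x t)` (and `= ∑ â(x) ch(x t)`): induction on `k`;
`b(t) = ∑_x σ(x) ch(xt)` with `σ = (1/2) δ_0 + (1/(4M')) ∑_i (δ_{v_i} + δ_{-v_i})`, `â_{k+1} = σ * â_k`;
`ksum V k + {0, ± v_i} ⊆ ksum V (k+1)`.
(2) `av a² = ∑ â(x)²  ≥ (∑ â)² / |ksum V k| = 1/|ksum V k|` (orthogonality `sum_ch`, Cauchy-Schwarz).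
(3) `‖ch x - ch y‖² = 2 - 2 Re ch(x-y)`, so `(1/M') ∑_i ‖ch(v_i s) - ch(v_i s')‖² = 2 - 2 u(s-s')`.
(4) For `θ`, two different `s, s' ∈ Θ` can not both have `(1/M')∑‖ch(v_i θ) - ch(v_i s)‖² < δ²/8`, since
`‖a-b‖² ≤ 2‖a-c‖² + 2‖b-c‖²` and `hsep`.  If it is `≥ δ²/8` then `u(θ-s) ≤ 1 - δ²/16`,
`b ≤ 1 - δ²/32 ≤ exp(-δ²/32)`, `a(θ-s)² ≤ exp (-k δ²/16)`.  So
`∑_{s∈Θ} a(θ-s)² ≤ 1 + |Θ| exp (-k δ²/16) ≤ 2`; average over `θ` (`av_shift`): `|Θ| av a² ≤ 2`.
-/

set_option autoImplicit false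

noncomputable section

namespace Pool.Agent.Lib.MP_6d8312_an.KD

open Finset

variable {p : ℕ} [Fact p.Prime]

/-- The function `b`. -/
def Packing_b {M' : ℕ} (v : Fin M' → ZMod p) (t : ZMod p) : ℝ :=
  (1 + (∑ i, (ch (v i * t)).re) / M') / 2

theorem Packing_mem_ksum {V : Finset (ZMod p)} {k : ℕ} {x : ZMod p} :
    x ∈ ksum V k ↔ ∃ n : ZMod p → ℤ, ∑ v ∈ V, |n v| ≤ k ∧ x = ∑ v ∈ V, n v • v := by
  simp [ksum]

theorem Packing_mono {V : Finset (ZMod p)} {k : ℕ} {x : ZMod p} (h : x ∈ ksum V k) :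
    x ∈ ksum V (k + 1) := by
  rw [Packing_mem_ksum] at h ⊢
  obtain ⟨n, h1, h2⟩ := h
  refine ⟨n, h1.trans ?_, h2⟩
  push_cast
  linarith

theorem Packing_add {V : Finset (ZMod p)} {k : ℕ} {x w : ZMod p} (hw : w ∈ V)
    (h : x ∈ ksum V k) (ε : ℤ) (hε : |ε| = 1) : x + ε • w ∈ ksum V (k + 1) := by
  rw [Packing_mem_ksum] at h ⊢
  obtain ⟨n, h1, h2⟩ := h
  refine ⟨fun v => n v + if v = w then ε else 0, ?_, ?_⟩
  · calc ∑ v ∈ V, |n v + if v = w then ε else 0|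
        ≤ ∑ v ∈ V, (|n v| + if v = w then 1 else 0) := by
          refine Finset.sum_le_sum fun v _ => ?_
          refine (abs_add_le _ _).trans ?_
          by_cases hv : v = w
          · rw [if_pos hv, if_pos hv, hε]
          · rw [if_neg hv, if_neg hv, abs_zero]
      _ = ∑ v ∈ V, |n v| + 1 := by
          rw [Finset.sum_add_distrib, Finset.sum_ite_eq' V w, if_pos hw]
      _ ≤ ((k + 1 : ℕ) : ℤ) := by
          push_cast
          linarith
  · simp only [add_smul, Finset.sum_add_distrib, ite_smul, zero_smul]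
    rw [Finset.sum_ite_eq' V w, if_pos hw, h2]

theorem Packing_b_eq {M' : ℕ} (v : Fin M' → ZMod p) (t : ZMod p) :
    (Packing_b v t : ℂ) = 1 / 2 +
      1 / (4 * (M' : ℂ)) * ∑ i, (ch (v i * t) + ch (-(v i * t))) := by
  unfold Packing_b
  have h3 : ∀ x : ZMod p, (((ch x).re : ℝ) : ℂ) = 1 / 2 * (ch x + ch (-x)) := by
    intro x
    rw [ch_neg, Complex.re_eq_add_conj]
    ring
  push_cast
  rw [Finset.sum_congr rfl fun i _ => h3 (v i * t), ← Finset.mul_sum]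
  ring

theorem Packing_hat {M' : ℕ} (hM' : 1 ≤ M') (v : Fin M' → ZMod p) (k : ℕ) :
    ∃ a : ZMod p → ℝ, (∑ x, a x = 1) ∧ (∀ x, x ∉ ksum (univ.image v) k → a x = 0) ∧
      ∀ t, ((Packing_b v t ^ k : ℝ) : ℂ) = ∑ x, (a x : ℂ) * ch (x * t) := by
  induction k with
  | zero =>
    refine ⟨dl, ?_, fun x hx => ?_, fun t => ?_⟩
    · simp [dl]
    · unfold dl
      rw [if_neg]
      rintro rfl
      apply hx
      rw [Packing_mem_ksum]
      exact ⟨fun _ => 0, by simp, by simp⟩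
    · rw [Finset.sum_eq_single (0 : ZMod p)]
      · simp [dl, ch_zero]
      · intro x _ hx
        simp [dl, hx]
      · intro h
        exact absurd (Finset.mem_univ _) h
  | succ k ih =>
    obtain ⟨a, h1, h2, h3⟩ := ih
    have hM : (M' : ℝ) ≠ 0 := by
      have : (1 : ℝ) ≤ M' := by exact_mod_cast hM'
      linarith
    have hM2 : (M' : ℂ) ≠ 0 := by exact_mod_cast hM
    have hsh : ∀ w t : ZMod p, ∑ x, (a (x - w) : ℂ) * ch (x * t) =
        ch (w * t) * ∑ x, (a x : ℂ) * ch (x * t) := by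
      intro w t
      rw [← Equiv.sum_comp (Equiv.addRight w), Finset.mul_sum]
      refine Finset.sum_congr rfl fun x _ => ?_
      rw [Equiv.coe_addRight, add_sub_cancel_right, add_mul, ch_add]
      ring
    have hsh1 : ∀ w : ZMod p, ∑ x, a (x - w) = 1 := by
      intro w
      rw [← Equiv.sum_comp (Equiv.addRight w)]
      simp only [Equiv.coe_addRight, add_sub_cancel_right]
      exact h1
    have hsh2 : ∀ w : ZMod p, ∑ x, a (x + w) = 1 := by
      intro w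
      have := hsh1 (-w)
      simp only [sub_neg_eq_add] at this
      exact this
    have hsh3 : ∀ w t : ZMod p, ∑ x, (a (x + w) : ℂ) * ch (x * t) =
        ch (-(w * t)) * ∑ x, (a x : ℂ) * ch (x * t) := by
      intro w t
      have := hsh (-w) t
      simp only [sub_neg_eq_add, neg_mul] at this
      exact this
    refine ⟨fun x => 1 / 2 * a x + 1 / (4 * M') * ∑ i, (a (x - v i) + a (x + v i)), ?_,
      fun x hx => ?_, fun t => ?_⟩
    · rw [Finset.sum_add_distrib, ← Finset.mul_sum, h1, ← Finset.mul_sum, Finset.sum_comm]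
      have h4 : ∀ i, ∑ x, (a (x - v i) + a (x + v i)) = 2 := by
        intro i
        rw [Finset.sum_add_distrib, hsh1, hsh2]
        norm_num
      rw [Finset.sum_congr rfl fun i _ => h4 i, Finset.sum_const, Finset.card_univ,
        Fintype.card_fin, nsmul_eq_mul]
      field_simp
      norm_num
    · have h4 : a x = 0 := h2 x fun h => hx (Packing_mono h)
      have h5 : ∀ i, a (x - v i) = 0 := fun i => h2 _ fun h => hx (by
        have := Packing_add (Finset.mem_image_of_mem v (Finset.mem_univ i)) h 1 (by norm_num)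
        simpa using this)
      have h6 : ∀ i, a (x + v i) = 0 := fun i => h2 _ fun h => hx (by
        have := Packing_add (Finset.mem_image_of_mem v (Finset.mem_univ i)) h (-1) (by norm_num)
        simpa using this)
      simp [h4, h5, h6]
    · have h4 : ∑ x, ((1 / 2 * a x + 1 / (4 * M') * ∑ i, (a (x - v i) + a (x + v i)) : ℝ) : ℂ) *
          ch (x * t) = 1 / 2 * ∑ x, (a x : ℂ) * ch (x * t) + 1 / (4 * (M' : ℂ)) *
          ∑ i, (∑ x, (a (x - v i) : ℂ) * ch (x * t) + ∑ x, (a (x + v i) : ℂ) * ch (x * t)) := by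
        have h5 : ∀ x : ZMod p,
            ((1 / 2 * a x + 1 / (4 * M') * ∑ i, (a (x - v i) + a (x + v i)) : ℝ) : ℂ) *
              ch (x * t) = 1 / 2 * ((a x : ℂ) * ch (x * t)) + 1 / (4 * (M' : ℂ)) *
            ∑ i, ((a (x - v i) : ℂ) * ch (x * t) + (a (x + v i) : ℂ) * ch (x * t)) := by
          intro x
          push_cast
          rw [← Finset.sum_congr rfl fun i _ =>
            add_mul (a (x - v i) : ℂ) (a (x + v i) : ℂ) (ch (x * t)), ← Finset.sum_mul]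
          ring
        rw [Finset.sum_congr rfl fun x _ => h5 x, Finset.sum_add_distrib, ← Finset.mul_sum,
          ← Finset.mul_sum, Finset.sum_comm]
        simp only [Finset.sum_add_distrib]
      rw [h4, pow_succ, Complex.ofReal_mul, h3, Packing_b_eq]
      simp only [hsh, hsh3]
      rw [← Finset.sum_congr rfl fun i _ => add_mul (ch (v i * t)) (ch (-(v i * t)))
        (∑ x, (a x : ℂ) * ch (x * t)), ← Finset.sum_mul]
      ring

theorem Packing_norm (x y : ZMod p) : ‖ch x - ch y‖ ^ 2 = 2 - 2 * (ch (x - y)).re := by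
  have h1 : ‖ch x - ch y‖ ^ 2 = Complex.normSq (ch x - ch y) := by
    rw [Complex.normSq_eq_norm_sq]
  have h2 : ch (x - y) = ch x * (starRingEnd ℂ) (ch y) := by
    rw [sub_eq_add_neg, ch_add, ch_neg]
  have h3 : Complex.normSq (ch x) = 1 := by
    rw [Complex.normSq_eq_norm_sq, norm_ch, one_pow]
  have h4 : Complex.normSq (ch y) = 1 := by
    rw [Complex.normSq_eq_norm_sq, norm_ch, one_pow]
  rw [h1, Complex.normSq_sub, h3, h4, h2]
  ring

theorem Packing_b_nonneg {M' : ℕ} (hM' : 1 ≤ M') (v : Fin M' → ZMod p) (t : ZMod p) :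
    0 ≤ Packing_b v t := by
  unfold Packing_b
  have hM : (1 : ℝ) ≤ M' := by exact_mod_cast hM'
  have h1 : -(M' : ℝ) ≤ ∑ i, (ch (v i * t)).re := by
    have h2 : ∑ i : Fin M', (-1 : ℝ) ≤ ∑ i, (ch (v i * t)).re :=
      Finset.sum_le_sum fun i _ => neg_one_le_re_ch _
    simpa using h2
  have h3 : -1 ≤ (∑ i, (ch (v i * t)).re) / M' := by
    rw [le_div_iff₀ (by linarith)]
    linarith
  linarith

theorem Packing_b_le_one {M' : ℕ} (hM' : 1 ≤ M') (v : Fin M' → ZMod p) (t : ZMod p) :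
    Packing_b v t ≤ 1 := by
  unfold Packing_b
  have hM : (1 : ℝ) ≤ M' := by exact_mod_cast hM'
  have h1 : ∑ i, (ch (v i * t)).re ≤ (M' : ℝ) := by
    have h2 : ∑ i, (ch (v i * t)).re ≤ ∑ i : Fin M', (1 : ℝ) :=
      Finset.sum_le_sum fun i _ => re_ch_le_one _
    simpa using h2
  have h3 : (∑ i, (ch (v i * t)).re) / M' ≤ 1 := by
    rw [div_le_iff₀ (by linarith)]
    linarith
  linarith

/-- The second moment. -/
theorem Packing_moment {M' : ℕ} (hM' : 1 ≤ M') (v : Fin M' → ZMod p) (k : ℕ) :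
    1 ≤ ((ksum (univ.image v) k).card : ℝ) * av (fun t => (Packing_b v t ^ k) ^ 2) := by
  obtain ⟨a, h1, h2, h3⟩ := Packing_hat hM' v k
  have hp0 : (0 : ℝ) < p := p_pos
  have h4 : ((∑ t, (Packing_b v t ^ k) ^ 2 : ℝ) : ℂ) = ((p * ∑ x, a x ^ 2 : ℝ) : ℂ) := by
    have h5 : ∀ t, (((Packing_b v t ^ k) ^ 2 : ℝ) : ℂ) =
        ∑ x, ∑ y, (a x : ℂ) * (a y : ℂ) * ch ((x - y) * t) := by
      intro t
      have h6 : (starRingEnd ℂ) ((Packing_b v t ^ k : ℝ) : ℂ) =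
          ((Packing_b v t ^ k : ℝ) : ℂ) := Complex.conj_ofReal _
      have h7 : (((Packing_b v t ^ k) ^ 2 : ℝ) : ℂ) =
          ((Packing_b v t ^ k : ℝ) : ℂ) * (starRingEnd ℂ) ((Packing_b v t ^ k : ℝ) : ℂ) := by
        rw [h6, ← Complex.ofReal_mul]
        congr 1
        ring
      rw [h7, h3, map_sum, Finset.sum_mul_sum]
      refine Finset.sum_congr rfl fun x _ => Finset.sum_congr rfl fun y _ => ?_
      rw [map_mul, Complex.conj_ofReal, show (x - y) * t = x * t + -(y * t) by ring, ch_add,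
        ch_neg]
      ring
    rw [Complex.ofReal_sum, Finset.sum_congr rfl fun t _ => h5 t, Finset.sum_comm]
    have h8 : ∀ x : ZMod p, ∑ t, ∑ y, (a x : ℂ) * (a y : ℂ) * ch ((x - y) * t) =
        (p : ℂ) * (a x : ℂ) ^ 2 := by
      intro x
      rw [Finset.sum_comm]
      have h9 : ∀ y : ZMod p, ∑ t, (a x : ℂ) * (a y : ℂ) * ch ((x - y) * t) =
          if y = x then (a x : ℂ) * (a y : ℂ) * p else 0 := by
        intro y
        rw [← Finset.mul_sum, sum_ch]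
        by_cases hxy : y = x
        · rw [if_pos (by rw [hxy, sub_self]), if_pos hxy]
        · rw [if_neg (fun h => hxy (sub_eq_zero.1 h).symm), if_neg hxy, mul_zero]
      rw [Finset.sum_congr rfl fun y _ => h9 y, Finset.sum_ite_eq', if_pos (Finset.mem_univ _)]
      ring
    rw [Finset.sum_congr rfl fun x _ => h8 x, ← Finset.mul_sum]
    push_cast
    rfl
  have h5 : ∑ t, (Packing_b v t ^ k) ^ 2 = p * ∑ x, a x ^ 2 := by exact_mod_cast h4
  have h6 : av (fun t => (Packing_b v t ^ k) ^ 2) = ∑ x, a x ^ 2 := by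
    unfold av
    rw [h5, mul_div_cancel_left₀ _ hp0.ne']
  have h7 : ∑ x ∈ ksum (univ.image v) k, a x = 1 := by
    rw [← h1]
    exact Finset.sum_subset (Finset.subset_univ _) fun x _ hx => h2 x hx
  have h8 : (∑ x ∈ ksum (univ.image v) k, a x) ^ 2 ≤
      ((ksum (univ.image v) k).card : ℝ) * ∑ x ∈ ksum (univ.image v) k, a x ^ 2 :=
    sq_sum_le_card_mul_sum_sq
  rw [h7, one_pow] at h8
  rw [h6]
  refine h8.trans (mul_le_mul_of_nonneg_left ?_ (Nat.cast_nonneg _))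
  exact Finset.sum_le_sum_of_subset_of_nonneg (Finset.subset_univ _) fun x _ _ => sq_nonneg _

theorem packing {M' : ℕ} (hM' : 1 ≤ M') (v : Fin M' → ZMod p) (Θ : Finset (ZMod p)) {δ : ℝ}
    (hδ : 0 < δ) (hδ1 : δ ≤ 1)
    (hsep : ∀ σ ∈ Θ, ∀ σ' ∈ Θ, σ ≠ σ' →
      M' * δ ^ 2 / 2 ≤ ∑ i, ‖ch (v i * σ) - ch (v i * σ')‖ ^ 2)
    (k : ℕ) (hk : (Θ.card : ℝ) * Real.exp (-k * δ ^ 2 / 16) ≤ 1) :
    (Θ.card : ℝ) ≤ 2 * (ksum (univ.image v) k).card := by
  classical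
  have hM : (1 : ℝ) ≤ M' := by exact_mod_cast hM'
  have hsum : ∀ s s' : ZMod p, ∑ i, ‖ch (v i * s) - ch (v i * s')‖ ^ 2 =
      M' * (4 - 4 * Packing_b v (s - s')) := by
    intro s s'
    have h1 : ∀ i, ‖ch (v i * s) - ch (v i * s')‖ ^ 2 = 2 - 2 * (ch (v i * (s - s'))).re := by
      intro i
      rw [Packing_norm, mul_sub]
    rw [Finset.sum_congr rfl fun i _ => h1 i, Finset.sum_sub_distrib, ← Finset.mul_sum,
      Finset.sum_const, Finset.card_univ, Fintype.card_fin, nsmul_eq_mul]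
    unfold Packing_b
    generalize ∑ i, (ch (v i * (s - s'))).re = X
    field_simp
    ring
  have hθ : ∀ θ : ZMod p, ∑ s ∈ Θ, (Packing_b v (θ - s) ^ k) ^ 2 ≤ 2 := by
    intro θ
    let S1 := Θ.filter fun s => ∑ i, ‖ch (v i * θ) - ch (v i * s)‖ ^ 2 < M' * δ ^ 2 / 8
    have hS1 : S1.card ≤ 1 := by
      rw [Finset.card_le_one]
      intro s hs s' hs'
      by_contra hne
      rw [Finset.mem_filter] at hs hs'
      have h1 := hsep s hs.1 s' hs'.1 hne
      have h2 : ∑ i, ‖ch (v i * s) - ch (v i * s')‖ ^ 2 ≤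
          ∑ i, (2 * ‖ch (v i * θ) - ch (v i * s)‖ ^ 2 +
            2 * ‖ch (v i * θ) - ch (v i * s')‖ ^ 2) := by
        refine Finset.sum_le_sum fun i _ => ?_
        have h3 : ‖ch (v i * s) - ch (v i * s')‖ ≤
            ‖ch (v i * θ) - ch (v i * s)‖ + ‖ch (v i * θ) - ch (v i * s')‖ := by
          have h4 : ch (v i * s) - ch (v i * s') =
              (ch (v i * θ) - ch (v i * s')) - (ch (v i * θ) - ch (v i * s)) := by ring
          rw [h4]
          exact (norm_sub_le _ _).trans (le_of_eq (add_comm _ _))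
        have h5 := norm_nonneg (ch (v i * s) - ch (v i * s'))
        nlinarith [sq_nonneg (‖ch (v i * θ) - ch (v i * s)‖ - ‖ch (v i * θ) - ch (v i * s')‖)]
      rw [Finset.sum_add_distrib, ← Finset.mul_sum, ← Finset.mul_sum] at h2
      linarith [hs.2, hs'.2]
    rw [← Finset.sum_filter_add_sum_filter_not Θ
      (fun s => ∑ i, ‖ch (v i * θ) - ch (v i * s)‖ ^ 2 < M' * δ ^ 2 / 8)]
    have h1 : ∑ s ∈ S1, (Packing_b v (θ - s) ^ k) ^ 2 ≤ 1 := by
      have h2 : ∑ s ∈ S1, (Packing_b v (θ - s) ^ k) ^ 2 ≤ ∑ s ∈ S1, (1 : ℝ) := by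
        refine Finset.sum_le_sum fun s _ => ?_
        have h3 := Packing_b_nonneg hM' v (θ - s)
        have h4 := Packing_b_le_one hM' v (θ - s)
        exact pow_le_one₀ (pow_nonneg h3 _) (pow_le_one₀ h3 h4)
      rw [Finset.sum_const, nsmul_eq_mul, mul_one] at h2
      refine h2.trans ?_
      exact_mod_cast hS1
    have h5 : ∑ s ∈ Θ.filter (fun s =>
        ¬ ∑ i, ‖ch (v i * θ) - ch (v i * s)‖ ^ 2 < M' * δ ^ 2 / 8),
        (Packing_b v (θ - s) ^ k) ^ 2 ≤ 1 := by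
      refine le_trans ?_ hk
      have h6 : ∀ s ∈ Θ.filter (fun s =>
          ¬ ∑ i, ‖ch (v i * θ) - ch (v i * s)‖ ^ 2 < M' * δ ^ 2 / 8),
          (Packing_b v (θ - s) ^ k) ^ 2 ≤ Real.exp (-k * δ ^ 2 / 16) := by
        intro s hs
        rw [Finset.mem_filter] at hs
        have h7 := hs.2
        push Not at h7
        rw [hsum] at h7
        have h8 : Packing_b v (θ - s) ≤ 1 - δ ^ 2 / 32 := by
          have h9 : (M' : ℝ) * (δ ^ 2 / 8) ≤ M' * (4 - 4 * Packing_b v (θ - s)) := by linarith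
          have h10 := le_of_mul_le_mul_left h9 (by linarith)
          linarith
        have h9 : Packing_b v (θ - s) ≤ Real.exp (-(δ ^ 2 / 32)) := by
          have := Real.add_one_le_exp (-(δ ^ 2 / 32))
          linarith
        have h10 := pow_le_pow_left₀ (Packing_b_nonneg hM' v (θ - s)) h9 (k * 2)
        rw [← pow_mul]
        refine h10.trans (le_of_eq ?_)
        rw [← Real.exp_nat_mul]
        congr 1
        push_cast
        ring
      refine (Finset.sum_le_sum h6).trans ?_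
      rw [Finset.sum_const, nsmul_eq_mul]
      refine mul_le_mul_of_nonneg_right ?_ (Real.exp_pos _).le
      exact_mod_cast Finset.card_filter_le _ _
    linarith
  have hav : av (fun θ => ∑ s ∈ Θ, (Packing_b v (θ - s) ^ k) ^ 2) ≤ 2 := by
    have h1 := av_mono hθ
    rw [av_const] at h1
    exact h1
  rw [av_finset_sum] at hav
  have h2 : ∀ s ∈ Θ, av (fun θ => (Packing_b v (θ - s) ^ k) ^ 2) =
      av (fun t => (Packing_b v t ^ k) ^ 2) := by
    intro s _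
    have h3 := av_shift (fun t => (Packing_b v t ^ k) ^ 2) (-s)
    simp only [← sub_eq_add_neg] at h3
    exact h3
  rw [Finset.sum_congr rfl h2, Finset.sum_const, nsmul_eq_mul] at hav
  have h3 := Packing_moment hM' v k
  have h4 : 0 ≤ av (fun t => (Packing_b v t ^ k) ^ 2) := av_nonneg fun t => sq_nonneg _
  have h5 : (0 : ℝ) ≤ (ksum (univ.image v) k).card := Nat.cast_nonneg _
  have h6 : (0 : ℝ) ≤ Θ.card := Nat.cast_nonneg _
  calc (Θ.card : ℝ) = Θ.card * 1 := by ring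
    _ ≤ Θ.card * (((ksum (univ.image v) k).card : ℝ) *
        av (fun t => (Packing_b v t ^ k) ^ 2)) := mul_le_mul_of_nonneg_left h3 h6
    _ = (Θ.card * av (fun t => (Packing_b v t ^ k) ^ 2)) * (ksum (univ.image v) k).card := by
        ring
    _ ≤ 2 * (ksum (univ.image v) k).card := mul_le_mul_of_nonneg_right hav h5

end Pool.Agent.Lib.MP_6d8312_an.KD
end
end

section

/-!
# Sampling

For `σ ≠ σ'` in `Θ` let `X(v) = ‖ch(vσ) - ch(vσ')‖² ∈ [0,4]`, `E X = ∑ w X ≥ δ²`.  Convexity: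
`exp (-X/4) ≤ 1 - (1 - exp(-1)) X/4` on `[0,4]`, so `E exp(-X/4) ≤ 1 - .158 δ² ≤ exp (-.158 δ²)`
(`(1-exp(-1))/4 ≥ .158`).  Consider
`Φ = ∑_{v : Fin M' → V} ∏ w(v_i) ∑_{σ≠σ'} exp (M' δ²/8 - (1/4) ∑_i X(v_i))`
`= ∑_{σ≠σ'} exp (M'δ²/8) (E exp(-X/4))^{M'} ≤ |Θ|² exp (M' δ² (1/8 - .158)) ≤ |Θ|² exp (-.033 M' δ²) < 1`
(`Finset.prod_univ_sum` for the product formula: sum over `Fintype.piFinset (fun _ => V)`).  As the
weights `∏ w(v_i)` have sum `1`, some `v` has `∑_{σ≠σ'} exp(...) < 1`, so each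
`M' δ²/8 - (1/4) ∑ X(v_i) < 0`.
-/

set_option autoImplicit false

noncomputable section

namespace Pool.Agent.Lib.MP_6d8312_an.KD

open Finset

variable {p : ℕ} [Fact p.Prime]

private theorem Sample_exp {x : ℝ} (h0 : 0 ≤ x) (h4 : x ≤ 4) :
    Real.exp (-x / 4) ≤ 1 - 158 / 1000 * x := by
  have hc := convexOn_exp.2 (Set.mem_univ (0 : ℝ)) (Set.mem_univ (-1 : ℝ))
    (by linarith : (0 : ℝ) ≤ 1 - x / 4) (by linarith : (0 : ℝ) ≤ x / 4) (by ring)
  simp only [smul_eq_mul, mul_zero, zero_add, Real.exp_zero, mul_one] at hc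
  have he : Real.exp (-1) ≤ 368 / 1000 := by
    rw [Real.exp_neg]
    have h1 := Real.exp_one_gt_d9
    have h2 : (1000 / 368 : ℝ) ≤ Real.exp 1 := by
      refine le_trans ?_ h1.le
      norm_num
    rw [inv_le_comm₀ (Real.exp_pos 1) (by norm_num)]
    refine le_trans ?_ h2
    norm_num
  have h3 : x / 4 * Real.exp (-1) ≤ x / 4 * (368 / 1000) :=
    mul_le_mul_of_nonneg_left he (by linarith)
  have h5 : -x / 4 = x / 4 * -1 := by ring
  rw [h5]
  refine hc.trans ?_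
  linarith

theorem sample (V : Finset (ZMod p)) (w : ZMod p → ℝ) (hw : ∀ v ∈ V, 0 ≤ w v)
    (hw1 : ∑ v ∈ V, w v = 1) (Θ : Finset (ZMod p)) {δ : ℝ} (hδ : 0 < δ) (M' : ℕ)
    (hsep : ∀ σ ∈ Θ, ∀ σ' ∈ Θ, σ ≠ σ' →
      δ ^ 2 ≤ ∑ v ∈ V, w v * ‖ch (v * σ) - ch (v * σ')‖ ^ 2)
    (hM : (Θ.card : ℝ) ^ 2 * Real.exp (-(33 / 1000) * M' * δ ^ 2) < 1) :
    ∃ v : Fin M' → ZMod p, (∀ i, v i ∈ V) ∧ ∀ σ ∈ Θ, ∀ σ' ∈ Θ, σ ≠ σ' →
      M' * δ ^ 2 / 2 ≤ ∑ i, ‖ch (v i * σ) - ch (v i * σ')‖ ^ 2 := by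
  classical
  by_contra hcon
  push Not at hcon
  set X : ZMod p → ZMod p → ZMod p → ℝ := fun σ σ' v => ‖ch (v * σ) - ch (v * σ')‖ ^ 2 with hXdef
  have hX0 : ∀ σ σ' v, 0 ≤ X σ σ' v := fun σ σ' v => by positivity
  have hX4 : ∀ σ σ' v, X σ σ' v ≤ 4 := by
    intro σ σ' v
    have h1 : ‖ch (v * σ) - ch (v * σ')‖ ≤ 2 := by
      refine (norm_sub_le _ _).trans ?_
      rw [norm_ch, norm_ch]; norm_num
    have h2 : 0 ≤ ‖ch (v * σ) - ch (v * σ')‖ := norm_nonneg _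
    simp only [hXdef]
    nlinarith
  have hE : ∀ σ ∈ Θ, ∀ σ' ∈ Θ, σ ≠ σ' →
      ∑ v ∈ V, w v * Real.exp (-(X σ σ' v) / 4) ≤ Real.exp (-(158 / 1000) * δ ^ 2) := by
    intro σ hσ σ' hσ' hne
    calc ∑ v ∈ V, w v * Real.exp (-(X σ σ' v) / 4)
        ≤ ∑ v ∈ V, w v * (1 - 158 / 1000 * X σ σ' v) :=
          Finset.sum_le_sum fun v hv =>
            mul_le_mul_of_nonneg_left (Sample_exp (hX0 _ _ _) (hX4 _ _ _)) (hw v hv)
      _ = ∑ v ∈ V, w v - 158 / 1000 * ∑ v ∈ V, w v * X σ σ' v := by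
          rw [Finset.mul_sum, ← Finset.sum_sub_distrib]
          refine Finset.sum_congr rfl fun v _ => ?_
          ring
      _ ≤ 1 - 158 / 1000 * δ ^ 2 := by
          rw [hw1]
          have := hsep σ hσ σ' hσ' hne
          simp only [hXdef]
          linarith
      _ ≤ Real.exp (-(158 / 1000) * δ ^ 2) := by
          have := Real.add_one_le_exp (-(158 / 1000) * δ ^ 2)
          linarith
  set P := (Θ ×ˢ Θ).filter (fun q => q.1 ≠ q.2) with hP
  set W := Fintype.piFinset (fun _ : Fin M' => V) with hWdef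
  have hW1 : ∑ v ∈ W, ∏ i, w (v i) = 1 := by
    rw [hWdef, ← Finset.prod_univ_sum (fun _ : Fin M' => V) (fun _ x => w x)]
    simp [hw1]
  have h1 : (1 : ℝ) ≤ ∑ v ∈ W, (∏ i, w (v i)) *
      ∑ q ∈ P, Real.exp (M' * δ ^ 2 / 8 - (1 / 4) * ∑ i, X q.1 q.2 (v i)) := by
    refine hW1.symm.le.trans (Finset.sum_le_sum fun v hv => ?_)
    rw [hWdef, Fintype.mem_piFinset] at hv
    have hpos : 0 ≤ ∏ i, w (v i) := Finset.prod_nonneg fun i _ => hw _ (hv i)
    obtain ⟨σ, hσ, σ', hσ', hne, hlt⟩ := hcon v hv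
    have hmem : (σ, σ') ∈ P := by
      rw [hP, Finset.mem_filter, Finset.mem_product]
      exact ⟨⟨hσ, hσ'⟩, hne⟩
    have h2 : (1 : ℝ) ≤ ∑ q ∈ P,
        Real.exp (M' * δ ^ 2 / 8 - (1 / 4) * ∑ i, X q.1 q.2 (v i)) := by
      refine le_trans ?_ (Finset.single_le_sum (f := fun q : ZMod p × ZMod p =>
        Real.exp (M' * δ ^ 2 / 8 - (1 / 4) * ∑ i, X q.1 q.2 (v i)))
        (fun q _ => (Real.exp_pos _).le) hmem)
      rw [Real.one_le_exp_iff]
      simp only [hXdef]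
      linarith
    calc ∏ i, w (v i) = (∏ i, w (v i)) * 1 := (mul_one _).symm
      _ ≤ _ := mul_le_mul_of_nonneg_left h2 hpos
  have h3 : ∑ v ∈ W, (∏ i, w (v i)) *
      ∑ q ∈ P, Real.exp (M' * δ ^ 2 / 8 - (1 / 4) * ∑ i, X q.1 q.2 (v i)) =
      ∑ q ∈ P, Real.exp (M' * δ ^ 2 / 8) *
        (∑ v ∈ V, w v * Real.exp (-(X q.1 q.2 v) / 4)) ^ M' := by
    have h30 : ∀ v ∈ W, (∏ i, w (v i)) *
        ∑ q ∈ P, Real.exp (M' * δ ^ 2 / 8 - (1 / 4) * ∑ i, X q.1 q.2 (v i)) =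
        ∑ q ∈ P, (∏ i, w (v i)) *
          Real.exp (M' * δ ^ 2 / 8 - (1 / 4) * ∑ i, X q.1 q.2 (v i)) :=
      fun v _ => Finset.mul_sum _ _ _
    rw [Finset.sum_congr rfl h30, Finset.sum_comm]
    refine Finset.sum_congr rfl fun q _ => ?_
    have h4 : (∑ v ∈ V, w v * Real.exp (-(X q.1 q.2 v) / 4)) ^ M' =
        ∑ v ∈ W, ∏ i, (w (v i) * Real.exp (-(X q.1 q.2 (v i)) / 4)) := by
      rw [hWdef, ← Finset.prod_univ_sum (fun _ : Fin M' => V)
        (fun _ x => w x * Real.exp (-(X q.1 q.2 x) / 4))]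
      simp
    rw [h4, Finset.mul_sum]
    refine Finset.sum_congr rfl fun v _ => ?_
    rw [Finset.prod_mul_distrib, ← Real.exp_sum, sub_eq_add_neg, Real.exp_add]
    have h5 : -((1 / 4) * ∑ i, X q.1 q.2 (v i)) = ∑ i, -(X q.1 q.2 (v i)) / 4 := by
      rw [Finset.mul_sum, ← Finset.sum_neg_distrib]
      refine Finset.sum_congr rfl fun i _ => ?_
      ring
    rw [h5]
    ring
  rw [h3] at h1
  have h6 : ∑ q ∈ P, Real.exp (M' * δ ^ 2 / 8) *
        (∑ v ∈ V, w v * Real.exp (-(X q.1 q.2 v) / 4)) ^ M' ≤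
      ∑ q ∈ P, Real.exp (-(33 / 1000) * M' * δ ^ 2) := by
    refine Finset.sum_le_sum fun q hq => ?_
    rw [hP, Finset.mem_filter, Finset.mem_product] at hq
    have h7 := hE q.1 hq.1.1 q.2 hq.1.2 hq.2
    have h8 : 0 ≤ ∑ v ∈ V, w v * Real.exp (-(X q.1 q.2 v) / 4) :=
      Finset.sum_nonneg fun v hv => mul_nonneg (hw v hv) (Real.exp_pos _).le
    have h9 := pow_le_pow_left₀ h8 h7 M'
    calc Real.exp (M' * δ ^ 2 / 8) * (∑ v ∈ V, w v * Real.exp (-(X q.1 q.2 v) / 4)) ^ M'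
        ≤ Real.exp (M' * δ ^ 2 / 8) * Real.exp (-(158 / 1000) * δ ^ 2) ^ M' :=
          mul_le_mul_of_nonneg_left h9 (Real.exp_pos _).le
      _ = Real.exp (-(33 / 1000) * M' * δ ^ 2) := by
          rw [← Real.exp_nat_mul, ← Real.exp_add]
          congr 1
          ring
  have h10 : ∑ q ∈ P, Real.exp (-(33 / 1000) * M' * δ ^ 2) ≤
      (Θ.card : ℝ) ^ 2 * Real.exp (-(33 / 1000) * M' * δ ^ 2) := by
    rw [Finset.sum_const, nsmul_eq_mul]
    refine mul_le_mul_of_nonneg_right ?_ (Real.exp_pos _).le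
    have h11 : P.card ≤ Θ.card * Θ.card := by
      rw [← Finset.card_product]
      exact Finset.card_filter_le _ _
    calc (P.card : ℝ) ≤ ((Θ.card * Θ.card : ℕ) : ℝ) := by exact_mod_cast h11
      _ = (Θ.card : ℝ) ^ 2 := by push_cast; ring
  linarith

end Pool.Agent.Lib.MP_6d8312_an.KD
end
end

section

/-!
# The parameters
-/

set_option autoImplicit false

noncomputable section

namespace Pool.Agent.Lib.MP_6d8312_an.KD

open Finset

/-- `G₁^m`, `m = 200 h`. -/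
def mG (h : ℕ) : ℝ := (2537 / 2500 : ℝ) ^ (200 * h)

/-- The parameter `ℓ`. -/
def ml (h : ℕ) : ℝ := 30 * (((200 * h : ℕ) : ℝ) + 1) / mG h

/-- The rates `X_j`. -/
def mX (h j : ℕ) : ℝ := 3 * ml h / 4 ^ j

/-- The thresholds `z_j`. -/
def mz (h j : ℕ) : ℝ :=
  mG h / (3 * (((200 * h : ℕ) : ℝ) + 1) * ((200 * h).choose j) * (1 / 4) ^ j)

end Pool.Agent.Lib.MP_6d8312_an.KD
end
end

section

/-!
# Numerical facts, part 1

`m = 200 h`, `1 ≤ mG h`.  (1) `mX ≤ 3 ml = 90 (m+1)/G₁^m → 0` (`tendsto_pow_const_div_const_pow_of_one_lt`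
or Bernoulli).  (2) `C(m,j) (1/4)^j ≤ (5/4)^m` (one term of `(1 + 1/4)^m`, `add_pow`,
`Finset.single_le_sum`), so `mz ≥ 1/(3 (m+1) (5/4)^m)`, and `60 (m+1) (5/4)^m ≤ exp m` eventually
(`exp m = (exp 1)^m ≥ 2.7^m`).  (3) `mX ≥ 90 (m+1)/(G₁^m 4^m) ≥ (1/(4 G₁))^m ≥ exp(-2m)` (`4 G₁ ≤ 7 ≤ exp 2`),
so `√mX ≥ exp(-m)`.  `k_exists`: take the least `k` with `20 m² ≤ 2^k`.
`mz_pos`, `mX_pos` for `j ≤ m` (`Nat.choose_pos`).
-/

set_option autoImplicit false

noncomputable section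

namespace Pool.Agent.Lib.MP_6d8312_an.KD

open Finset

private theorem mG_pos (h : ℕ) : 0 < mG h := by
  unfold mG; positivity

private theorem ml_pos (h : ℕ) : 0 < ml h := by
  have := mG_pos h
  unfold ml; positivity

theorem mz_pos (h j : ℕ) (hj : j ≤ 200 * h) : 0 < mz h j := by
  have h1 := mG_pos h
  have h2 : (0 : ℝ) < ((200 * h).choose j : ℝ) := by exact_mod_cast Nat.choose_pos hj
  unfold mz; positivity

theorem mX_pos (h j : ℕ) : 0 < mX h j := by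
  have := ml_pos h
  unfold mX; positivity

private theorem k_aux (c : ℝ) (hc : 1 < c) : ∃ k : ℕ, c ≤ 2 ^ k ∧ (2 : ℝ) ^ k ≤ 2 * c := by
  classical
  have hex : ∃ k : ℕ, c ≤ (2 : ℝ) ^ k := (pow_unbounded_of_one_lt c one_lt_two).imp fun k hk => hk.le
  refine ⟨Nat.find hex, Nat.find_spec hex, ?_⟩
  have h0 : Nat.find hex ≠ 0 := by
    intro h0
    have := Nat.find_spec hex
    rw [h0, pow_zero] at this
    linarith
  obtain ⟨k, hk⟩ := Nat.exists_eq_succ_of_ne_zero h0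
  have h1 := Nat.find_min hex (m := k) (by omega)
  push Not at h1
  rw [hk, pow_succ]
  linarith

theorem k_exists (m : ℕ) (hm : 1 ≤ m) :
    ∃ k : ℕ, 20 * (m : ℝ) ^ 2 ≤ 2 ^ k ∧ (2 : ℝ) ^ k ≤ 40 * (m : ℝ) ^ 2 := by
  have h1 : (1 : ℝ) ≤ m := by exact_mod_cast hm
  obtain ⟨k, h2, h3⟩ := k_aux (20 * (m : ℝ) ^ 2) (by nlinarith)
  exact ⟨k, h2, by linarith⟩

theorem k_exists' (m : ℕ) (hm : 1 ≤ m) :
    ∃ k : ℕ, 2 * (m : ℝ) ≤ 2 ^ k ∧ (2 : ℝ) ^ k ≤ 4 * (m : ℝ) := by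
  have h1 : (1 : ℝ) ≤ m := by exact_mod_cast hm
  obtain ⟨k, h2, h3⟩ := k_aux (2 * (m : ℝ)) (by linarith)
  exact ⟨k, h2, by linarith⟩

private theorem num_aux1 (h : ℕ) (hh : 5 ≤ h) : 810 * (200 * h + 1) ≤ 18 ^ h := by
  induction h, hh using Nat.le_induction with
  | base => norm_num
  | succ n hn ih => rw [pow_succ]; omega

private theorem num_aux2 (m : ℕ) (hm : 10 ≤ m) : 60 * (m + 1) ≤ 2 ^ m := by
  induction m, hm using Nat.le_induction with
  | base => norm_num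
  | succ n hn ih => rw [pow_succ]; omega

theorem num1 : ∃ h₀ : ℕ, ∀ h : ℕ, h₀ ≤ h → ∀ j : ℕ, j ≤ 200 * h →
    mX h j ≤ 1 / 9 ∧ Real.exp (-((200 * h : ℕ) : ℝ)) ≤ mz h j / 20 ∧
      Real.exp (-((200 * h : ℕ) : ℝ)) ≤ Real.sqrt (mX h j) := by
  refine ⟨5, fun h hh j hj => ?_⟩
  set m : ℕ := 200 * h with hm
  have hG := mG_pos h
  have hG1 : 1 ≤ mG h := by
    unfold mG
    exact one_le_pow₀ (by norm_num)
  have hG2 : (18 : ℝ) ^ h ≤ mG h := by
    unfold mG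
    rw [pow_mul]
    exact pow_le_pow_left₀ (by norm_num) (by norm_num) _
  have he : Real.exp (-(m : ℝ)) = (Real.exp 1)⁻¹ ^ m := by
    rw [← Real.exp_neg, ← Real.exp_nat_mul]
    congr 1; ring
  have he1 : 2.7 < Real.exp 1 := lt_trans (by norm_num) Real.exp_one_gt_d9
  have he0 : 0 < Real.exp 1 := Real.exp_pos 1
  have hm0 : (0 : ℝ) ≤ (m : ℝ) := Nat.cast_nonneg m
  have hC : ((m.choose j : ℕ) : ℝ) * (1 / 4) ^ j ≤ (5 / 4) ^ m := by
    have h1 := add_pow (1 / 4 : ℝ) 1 m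
    have h2 : (1 / 4 + 1 : ℝ) = 5 / 4 := by norm_num
    rw [h2] at h1
    rw [h1]
    have h3 := Finset.single_le_sum
      (f := fun i => (1 / 4 : ℝ) ^ i * 1 ^ (m - i) * (m.choose i : ℝ))
      (s := Finset.range (m + 1)) (fun i _ => by positivity)
      (Finset.mem_range.2 (Nat.lt_succ_of_le hj))
    refine le_trans (le_of_eq ?_) h3
    simp only [one_pow]; ring
  refine ⟨?_, ?_, ?_⟩
  · have h1 : (810 * (200 * h + 1) : ℝ) ≤ 18 ^ h := by exact_mod_cast num_aux1 h hh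
    have h2 : mX h j ≤ 3 * ml h := by
      unfold mX
      have := ml_pos h
      rw [div_le_iff₀ (by positivity)]
      have h4 : (1 : ℝ) ≤ 4 ^ j := one_le_pow₀ (by norm_num)
      nlinarith
    refine h2.trans ?_
    unfold ml
    rw [← hm, mul_div_assoc', div_le_iff₀ hG]
    have h3 : ((m : ℕ) : ℝ) = 200 * h := by rw [hm]; push_cast; ring
    rw [h3]
    linarith
  · have h1 : (60 * ((m : ℝ) + 1)) ≤ 2 ^ m := by exact_mod_cast num_aux2 m (by omega)
    have hC0 : (0 : ℝ) < ((m.choose j : ℕ) : ℝ) := by exact_mod_cast Nat.choose_pos hj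
    have h2 : mz h j / 20 = mG h / (60 * ((m : ℝ) + 1) * (((m.choose j : ℕ) : ℝ) * (1 / 4) ^ j)) := by
      unfold mz
      rw [← hm, div_div]
      congr 1; ring
    rw [h2, le_div_iff₀ (by positivity)]
    calc Real.exp (-(m : ℝ)) * (60 * ((m : ℝ) + 1) * (((m.choose j : ℕ) : ℝ) * (1 / 4) ^ j))
        ≤ (Real.exp 1)⁻¹ ^ m * (2 ^ m * (5 / 4) ^ m) := by
          rw [he]; gcongr
      _ = ((Real.exp 1)⁻¹ * (2 * (5 / 4))) ^ m := by rw [mul_pow, mul_pow]
      _ ≤ 1 := by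
          apply pow_le_one₀ (by positivity)
          rw [inv_mul_le_iff₀ he0]
          norm_num at he1 ⊢
          linarith
      _ ≤ mG h := hG1
  · apply Real.le_sqrt_of_sq_le
    have h1 : mX h j = 90 * ((m : ℝ) + 1) / (mG h * 4 ^ j) := by
      unfold mX ml
      rw [← hm, mul_div_assoc', div_div]
      congr 1; ring
    rw [h1, le_div_iff₀ (by positivity)]
    have h4 : (4 : ℝ) ^ j ≤ 4 ^ m := pow_le_pow_right₀ (by norm_num) hj
    calc Real.exp (-(m : ℝ)) ^ 2 * (mG h * 4 ^ j)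
        ≤ ((Real.exp 1)⁻¹ ^ m) ^ 2 * ((2537 / 2500 : ℝ) ^ m * 4 ^ m) := by
          rw [he]
          unfold mG
          gcongr
      _ = ((Real.exp 1)⁻¹ ^ 2 * (2537 / 2500 * 4)) ^ m := by
          rw [mul_pow, mul_pow, ← pow_mul, ← pow_mul, mul_comm m 2]
      _ ≤ 1 := by
          apply pow_le_one₀ (by positivity)
          rw [inv_pow, inv_mul_le_iff₀ (by positivity)]
          nlinarith
      _ ≤ 90 * ((m : ℝ) + 1) := by linarith

theorem mG_mul_le (h : ℕ) :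
    mG h * (2001 / 2000 : ℝ) ^ (200 * h) ≤ (4159 / 4096 : ℝ) ^ (200 * h) := by
  unfold mG
  rw [← mul_pow]
  exact pow_le_pow_left₀ (by norm_num) (by norm_num) _

end Pool.Agent.Lib.MP_6d8312_an.KD
end
end

section

/-!
# Numerical facts, part 2 (the key inequality)

`m = 200 h`, `K = 1920 (5/4)^(4h) (4+h) · 60000 m² · 3·10⁵ m⁵`.  The claim `K √X³ ≤ z/20` is equivalent to
`400 K² X³ ≤ z²` (both sides of the claim are positive).  With `X = 90 (m+1)/(G 4^j)`,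
`z = G/(3 (m+1) C(m,j) 4^{-j})`: it is `400 K² · 729000 · 9 (m+1)^5 (C(m,j)/32^j)² ≤ G^5`
(`90³ = 729000`, `4^{-3j} 4^{-2j} = (32^{-j})²`).  `C(m,j) (1/32)^j ≤ (33/32)^m`, so it is enough that
`Poly(h) [(33/32)^400 (5/4)^8]^h ≤ [(2537/2500)^1000]^h`, `Poly(h) = 400 (1920·60000·3·10⁵)² (4+h)²
(200h)^14 · 729000 · 9 (200h+1)^5`.  `(33/32)^50 (5/4) (107/100) ≤ (2537/2500)^125` by `norm_num`; the
8-th power: `[(33/32)^400 (5/4)^8] ((107/100)^8) ≤ (2537/2500)^1000`.  So it is enough that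
`Poly(h) ≤ ((107/100)^8)^h`, true for large `h`: `Poly(h) ≤ C (h+4)^21`,
`tendsto_pow_const_div_const_pow_of_one_lt`.
-/

set_option autoImplicit false

noncomputable section

namespace Pool.Agent.Lib.MP_6d8312_an.KD

open Finset

private theorem Num2_growth (C r : ℝ) (hC : 0 < C) (hr : 1 < r) :
    ∃ h₀ : ℕ, ∀ h : ℕ, h₀ ≤ h → C * ((h : ℝ) + 4) ^ 21 ≤ r ^ h := by
  have h1 := tendsto_pow_const_div_const_pow_of_one_lt 21 hr
  have hr0 : 0 < r := by linarith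
  have h2 : ∀ᶠ n : ℕ in Filter.atTop, (n : ℝ) ^ 21 / r ^ n < 1 / (C * r ^ 4) :=
    h1.eventually_lt_const (by positivity)
  obtain ⟨n₀, hn₀⟩ := Filter.eventually_atTop.1 h2
  refine ⟨n₀, fun h hh => ?_⟩
  have h3 := hn₀ (h + 4) (by omega)
  push_cast at h3
  rw [div_lt_div_iff₀ (by positivity) (by positivity), one_mul, pow_add] at h3
  have h4 : (((h : ℝ) + 4) ^ 21 * C) * r ^ 4 < r ^ h * r ^ 4 := by
    calc (((h : ℝ) + 4) ^ 21 * C) * r ^ 4 = ((h : ℝ) + 4) ^ 21 * (C * r ^ 4) := by ring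
      _ < r ^ h * r ^ 4 := h3
  have h5 := lt_of_mul_lt_mul_right h4 (by positivity)
  linarith

private theorem Num2_base :
    (33 / 32 : ℝ) ^ 400 * (5 / 4) ^ 8 * (107 / 100) ^ 8 ≤ (2537 / 2500) ^ 1000 := by
  have h1 : (33 / 32 : ℝ) ^ 50 * (5 / 4) * (107 / 100) ≤ (2537 / 2500) ^ 125 := by norm_num
  calc (33 / 32 : ℝ) ^ 400 * (5 / 4) ^ 8 * (107 / 100) ^ 8
      = ((33 / 32 : ℝ) ^ 50 * (5 / 4) * (107 / 100)) ^ 8 := by
        rw [mul_pow, mul_pow, ← pow_mul]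
    _ ≤ ((2537 / 2500) ^ 125) ^ 8 := pow_le_pow_left₀ (by positivity) h1 8
    _ = (2537 / 2500) ^ 1000 := by rw [← pow_mul]

private theorem Num2_choose {m j : ℕ} (hj : j ≤ m) :
    (m.choose j : ℝ) * (1 / 32) ^ j ≤ (33 / 32) ^ m := by
  have h1 : (33 / 32 : ℝ) ^ m = ∑ k ∈ range (m + 1), (1 / 32 : ℝ) ^ k * 1 ^ (m - k) * m.choose k := by
    rw [← add_pow]
    norm_num
  rw [h1]
  have h2 := Finset.single_le_sum (f := fun k => (1 / 32 : ℝ) ^ k * 1 ^ (m - k) * m.choose k)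
    (fun k _ => by positivity) (Finset.mem_range.2 (Nat.lt_succ_of_le hj))
  refine le_trans (le_of_eq ?_) h2
  simp only [one_pow, mul_one]
  ring

theorem num2 : ∃ h₀ : ℕ, ∀ h : ℕ, h₀ ≤ h → ∀ j : ℕ, j ≤ 200 * h →
    1920 * (5 / 4 : ℝ) ^ (4 * h) * (4 + h) *
      (60000 * ((200 * h : ℕ) : ℝ) ^ 2 * (300000 * ((200 * h : ℕ) : ℝ) ^ 5) *
        Real.sqrt (mX h j) ^ 3) ≤ mz h j / 20 := by
  obtain ⟨h₀, hh₀⟩ := Num2_growth
    (400 * (1920 * 60000 * 300000) ^ 2 * 200 ^ 14 * 729000 * 9 * 200 ^ 5) ((107 / 100) ^ 8)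
    (by positivity) (by norm_num)
  refine ⟨h₀, fun h hh j hj => ?_⟩
  have hgr := hh₀ h hh
  obtain ⟨m, hm⟩ : ∃ m : ℝ, m = ((200 * h : ℕ) : ℝ) := ⟨_, rfl⟩
  have hmh : m = 200 * h := by rw [hm]; push_cast; ring
  have hm0 : 0 ≤ m := by rw [hm]; positivity
  have hh0 : (0 : ℝ) ≤ h := Nat.cast_nonneg h
  obtain ⟨G, hG⟩ : ∃ G : ℝ, G = mG h := ⟨_, rfl⟩
  have hG0 : 0 < G := by rw [hG]; unfold mG; positivity
  have hG5 : G ^ 5 = ((2537 / 2500) ^ 1000) ^ h := by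
    rw [hG, mG, ← pow_mul, ← pow_mul]
    congr 1
    ring
  obtain ⟨C, hC⟩ : ∃ C : ℝ, C = ((200 * h).choose j : ℝ) := ⟨_, rfl⟩
  have hC0 : 0 < C := by
    rw [hC]
    exact_mod_cast Nat.choose_pos hj
  have hCb : C * (1 / 32) ^ j ≤ (33 / 32) ^ (200 * h) := by
    rw [hC]
    exact Num2_choose hj
  have hX : mX h j = 90 * (m + 1) / (G * 4 ^ j) := by
    unfold mX ml
    rw [← hm, ← hG]
    field_simp
    ring
  have hX0 : 0 ≤ mX h j := by rw [hX]; positivity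
  have hz : mz h j = G / (3 * (m + 1) * C * (1 / 4) ^ j) := by
    unfold mz
    rw [← hm, ← hG, ← hC]
  have hz0 : 0 ≤ mz h j / 20 := by rw [hz]; positivity
  rw [← hm]
  obtain ⟨K, hK⟩ : ∃ K : ℝ, K = 1920 * (5 / 4 : ℝ) ^ (4 * h) * (4 + h) *
      (60000 * m ^ 2 * (300000 * m ^ 5)) := ⟨_, rfl⟩
  have hK2 : K ^ 2 = (1920 * 60000 * 300000) ^ 2 * (4 + h) ^ 2 * m ^ 14 * ((5 / 4) ^ 8) ^ h := by
    have h1 : ((5 / 4 : ℝ) ^ (4 * h)) ^ 2 = ((5 / 4) ^ 8) ^ h := by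
      rw [← pow_mul, ← pow_mul]
      congr 1
      ring
    rw [hK, ← h1]
    ring
  have hgoal : 1920 * (5 / 4 : ℝ) ^ (4 * h) * (4 + h) *
      (60000 * m ^ 2 * (300000 * m ^ 5) * Real.sqrt (mX h j) ^ 3) = K * Real.sqrt (mX h j) ^ 3 := by
    rw [hK]
    ring
  rw [hgoal]
  refine abs_le_of_sq_le_sq' ?_ hz0 |>.2
  have hs : (K * Real.sqrt (mX h j) ^ 3) ^ 2 = K ^ 2 * (mX h j) ^ 3 := by
    have h1 : (Real.sqrt (mX h j)) ^ 2 = mX h j := Real.sq_sqrt hX0
    calc (K * Real.sqrt (mX h j) ^ 3) ^ 2 = K ^ 2 * (Real.sqrt (mX h j) ^ 2) ^ 3 := by ring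
      _ = K ^ 2 * (mX h j) ^ 3 := by rw [h1]
  rw [hs]
  -- the main inequality
  have hmain : 400 * K ^ 2 * 729000 * 9 * (m + 1) ^ 5 * (C * (1 / 32) ^ j) ^ 2 ≤ G ^ 5 := by
    have h1 : (C * (1 / 32) ^ j) ^ 2 ≤ ((33 / 32) ^ 400) ^ h := by
      calc (C * (1 / 32) ^ j) ^ 2 ≤ ((33 / 32) ^ (200 * h)) ^ 2 :=
            pow_le_pow_left₀ (by positivity) hCb 2
        _ = ((33 / 32) ^ 400) ^ h := by
            rw [← pow_mul, ← pow_mul]
            congr 1
            ring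
    have h2 : (4 + (h : ℝ)) ^ 2 * m ^ 14 * (m + 1) ^ 5 ≤
        200 ^ 14 * 200 ^ 5 * ((h : ℝ) + 4) ^ 21 := by
      have h3 : m ≤ 200 * ((h : ℝ) + 4) := by rw [hmh]; linarith
      have h4 : m + 1 ≤ 200 * ((h : ℝ) + 4) := by rw [hmh]; linarith
      calc (4 + (h : ℝ)) ^ 2 * m ^ 14 * (m + 1) ^ 5
          ≤ (4 + (h : ℝ)) ^ 2 * (200 * ((h : ℝ) + 4)) ^ 14 * (200 * ((h : ℝ) + 4)) ^ 5 := by
            gcongr
        _ = 200 ^ 14 * 200 ^ 5 * ((h : ℝ) + 4) ^ 21 := by ring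
    calc 400 * K ^ 2 * 729000 * 9 * (m + 1) ^ 5 * (C * (1 / 32) ^ j) ^ 2
        = 400 * (1920 * 60000 * 300000) ^ 2 * 729000 * 9 * ((4 + (h : ℝ)) ^ 2 * m ^ 14 * (m + 1) ^ 5) *
          (((5 / 4) ^ 8) ^ h * (C * (1 / 32) ^ j) ^ 2) := by
          rw [hK2]
          ring
      _ ≤ 400 * (1920 * 60000 * 300000) ^ 2 * 729000 * 9 *
          (200 ^ 14 * 200 ^ 5 * ((h : ℝ) + 4) ^ 21) *
          (((5 / 4) ^ 8) ^ h * ((33 / 32) ^ 400) ^ h) := by
          gcongr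
      _ = (400 * (1920 * 60000 * 300000) ^ 2 * 200 ^ 14 * 729000 * 9 * 200 ^ 5 *
          ((h : ℝ) + 4) ^ 21) * (((5 / 4) ^ 8) ^ h * ((33 / 32) ^ 400) ^ h) := by
          generalize (((5 / 4 : ℝ) ^ 8) ^ h * ((33 / 32) ^ 400) ^ h) = w
          generalize ((h : ℝ) + 4) ^ 21 = w'
          ring
      _ ≤ ((107 / 100) ^ 8) ^ h * (((5 / 4) ^ 8) ^ h * ((33 / 32) ^ 400) ^ h) := by
          gcongr
      _ = ((33 / 32 : ℝ) ^ 400 * (5 / 4) ^ 8 * (107 / 100) ^ 8) ^ h := by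
          rw [mul_pow, mul_pow]
          generalize ((33 / 32 : ℝ) ^ 400) ^ h = w
          generalize ((5 / 4 : ℝ) ^ 8) ^ h = w'
          generalize ((107 / 100 : ℝ) ^ 8) ^ h = w''
          ring
      _ ≤ ((2537 / 2500) ^ 1000) ^ h := pow_le_pow_left₀ (by positivity) Num2_base h
      _ = G ^ 5 := hG5.symm
  have h4j : (4 : ℝ) ^ j ≠ 0 := by positivity
  have e1 : K ^ 2 * (mX h j) ^ 3 = (400 * K ^ 2 * 729000 * 9 * (m + 1) ^ 5 * (C * (1 / 32) ^ j) ^ 2) /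
      (G ^ 3 * 400 * 9 * (m + 1) ^ 2 * C ^ 2 * ((1 / 4) ^ j) ^ 2) := by
    have h32 : ((1 / 32 : ℝ) ^ j) ^ 2 = ((1 / 4) ^ j) ^ 5 := by
      rw [← pow_mul, ← pow_mul, mul_comm j 2, mul_comm j 5, pow_mul, pow_mul]
      norm_num
    have h4 : ((1 / 4 : ℝ) ^ j) = (4 ^ j)⁻¹ := by rw [one_div, inv_pow]
    rw [hX, mul_pow C, h32, h4]
    have hm1 : m + 1 ≠ 0 := by positivity
    field_simp
    ring
  have e2 : (mz h j / 20) ^ 2 = G ^ 5 /
      (G ^ 3 * 400 * 9 * (m + 1) ^ 2 * C ^ 2 * ((1 / 4) ^ j) ^ 2) := by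
    have h4 : ((1 / 4 : ℝ) ^ j) = (4 ^ j)⁻¹ := by rw [one_div, inv_pow]
    rw [hz, h4]
    have hm1 : m + 1 ≠ 0 := by positivity
    field_simp
    ring
  rw [e1, e2]
  exact div_le_div_of_nonneg_right hmain (by positivity)

end Pool.Agent.Lib.MP_6d8312_an.KD
end
end

section

/-!
# The chord inequality

`chord`: `y = (2-y)·1 + (y-1)·2`, `t ↦ t^l` is concave on `[0,∞)` (`Real.concaveOn_rpow`), so
`y^l ≥ (2-y) 1^l + (y-1) 2^l = (2-y) + (y-1)(1+ξ) = (1-ξ) + ξ y`.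
`log_mix_le`: `y = z₁/z₀`, `log z₀ + log((1-ξ)+ξ y) ≤ log z₀ + l log y`.
-/

set_option autoImplicit false

noncomputable section

namespace Pool.Agent.Lib.MP_6d8312_an.KD

open Finset

theorem chord {ξ l y : ℝ} (h0 : 0 ≤ l) (h1 : l ≤ 1) (hξ : 1 + ξ = (2 : ℝ) ^ l) (hy1 : 1 ≤ y)
    (hy2 : y ≤ 2) : (1 - ξ) + ξ * y ≤ y ^ l := by
  have hc := Real.concaveOn_rpow h0 h1
  have h := hc.2 (show (1 : ℝ) ∈ Set.Ici 0 by simp) (show (2 : ℝ) ∈ Set.Ici 0 by simp)
    (show 0 ≤ 2 - y by linarith) (show 0 ≤ y - 1 by linarith) (by ring)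
  simp only [smul_eq_mul, Real.one_rpow, ← hξ] at h
  have e : (2 - y) * 1 + (y - 1) * 2 = y := by ring
  rw [e] at h
  linarith

theorem log_mix_le {ξ l z₀ z₁ : ℝ} (h0 : 0 ≤ l) (h1 : l ≤ 1) (hξ : 1 + ξ = (2 : ℝ) ^ l)
    (hz : 0 < z₀) (h01 : z₀ ≤ z₁) (h2 : z₁ ≤ 2 * z₀) :
    Real.log ((1 - ξ) * z₀ + ξ * z₁) ≤ (1 - l) * Real.log z₀ + l * Real.log z₁ := by
  have hz1 : 0 < z₁ := lt_of_lt_of_le hz h01
  have hξ0 : 0 ≤ ξ := by
    have : (1 : ℝ) ≤ 2 ^ l := Real.one_le_rpow (by norm_num) h0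
    linarith
  have hξ1 : ξ ≤ 1 := by
    have : (2 : ℝ) ^ l ≤ 2 ^ (1 : ℝ) := Real.rpow_le_rpow_of_exponent_le (by norm_num) h1
    rw [Real.rpow_one] at this
    linarith
  set y := z₁ / z₀ with hy
  have hy1 : 1 ≤ y := (one_le_div hz).mpr h01
  have hy2 : y ≤ 2 := (div_le_iff₀ hz).mpr h2
  have hzy : z₁ = z₀ * y := by rw [hy]; field_simp
  have hpos : 0 < (1 - ξ) + ξ * y := by nlinarith
  have hc := chord h0 h1 hξ hy1 hy2
  have e1 : (1 - ξ) * z₀ + ξ * z₁ = z₀ * ((1 - ξ) + ξ * y) := by rw [hzy]; ring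
  have e2 : Real.log y = Real.log z₁ - Real.log z₀ := by
    rw [hy, Real.log_div hz1.ne' hz.ne']
  rw [e1, Real.log_mul hz.ne' hpos.ne']
  have h3 : Real.log ((1 - ξ) + ξ * y) ≤ l * Real.log y := by
    rw [← Real.log_rpow (by linarith)]
    exact Real.log_le_log hpos hc
  rw [e2] at h3
  linarith

end Pool.Agent.Lib.MP_6d8312_an.KD
end
end

section

/-!
# Quasi-independence and reduction modulo `p`

Let `S = ∑ a ∈ A, |a|` and `2 S < p`.  Two elements of `A` have difference of absolute value at most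
`2 S < p`, so reduction modulo `p` is injective on `A` (`ZMod.intCast_eq_intCast_iff`,
`Int.emod_emod_of_dvd`, or `(ZMod.intCast_zmod_eq_zero_iff_dvd ..)` and `Int.eq_zero_of_abs_lt_dvd`).
For `B ⊆ A` and `c : ℤ → ℤ` with values in `{-1,0,1}` on `B`, `|∑ c b b| ≤ S < p`, so
`∑ c b • (b : ZMod p) = 0` iff `∑ c b • b = 0`.  Hence `B.image cast` is QI iff `B` is QI, and
subsets of `A.image cast` are the images of the subsets of `A` (`Finset.subset_image_iff`).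
-/

set_option autoImplicit false

noncomputable section

namespace Pool.Agent.Lib.MP_6d8312_an.KD

open Finset

private theorem eq_zero_of_cast {p : ℕ} [Fact p.Prime] {x : ℤ} (hx : |x| < p)
    (h : (x : ZMod p) = 0) : x = 0 :=
  Int.eq_zero_of_abs_lt_dvd ((ZMod.intCast_zmod_eq_zero_iff_dvd x p).1 h) hx

private theorem abs_le_sum {A : Finset ℤ} {x : ℤ} (hx : x ∈ A) : |x| ≤ ∑ a ∈ A, |a| :=
  Finset.single_le_sum (f := fun a : ℤ => |a|) (fun _ _ => abs_nonneg _) hx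

theorem cast_injOn (A : Finset ℤ) (p : ℕ) [Fact p.Prime] (hp : 2 * ∑ a ∈ A, |a| < p) :
    Set.InjOn (Int.cast : ℤ → ZMod p) A := by
  intro x hx y hy hxy
  have h1 : ((x - y : ℤ) : ZMod p) = 0 := by
    rw [Int.cast_sub]
    exact sub_eq_zero.2 hxy
  have h2 : |x - y| < p := by
    have h3 := abs_sub x y
    have h4 := abs_le_sum (Finset.mem_coe.1 hx)
    have h5 := abs_le_sum (Finset.mem_coe.1 hy)
    linarith
  exact sub_eq_zero.1 (eq_zero_of_cast h2 h1)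

private theorem sum_lt {A : Finset ℤ} {p : ℕ} [Fact p.Prime] (hp : 2 * ∑ a ∈ A, |a| < p)
    {B : Finset ℤ} (hB : B ⊆ A) {c : ℤ → ℤ} (hc : ∀ b ∈ B, c b = -1 ∨ c b = 0 ∨ c b = 1) :
    |∑ b ∈ B, c b • b| < p := by
  have h1 : |∑ b ∈ B, c b • b| ≤ ∑ b ∈ B, |b| := by
    refine (Finset.abs_sum_le_sum_abs _ _).trans (Finset.sum_le_sum fun b hb => ?_)
    rw [smul_eq_mul, abs_mul]
    rcases hc b hb with h | h | h <;> rw [h] <;> simp
  have h2 : ∑ b ∈ B, |b| ≤ ∑ a ∈ A, |a| :=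
    Finset.sum_le_sum_of_subset_of_nonneg hB fun _ _ _ => abs_nonneg _
  have h3 : 0 ≤ ∑ a ∈ A, |a| := Finset.sum_nonneg fun _ _ => abs_nonneg _
  linarith

theorem cast_qi (A : Finset ℤ) (p : ℕ) [Fact p.Prime] (hp : 2 * ∑ a ∈ A, |a| < p)
    (B : Finset ℤ) (hB : B ⊆ A) : QI (B.image (Int.cast : ℤ → ZMod p)) ↔ QI B := by
  have hinj : Set.InjOn (Int.cast : ℤ → ZMod p) B :=
    (cast_injOn A p hp).mono (Finset.coe_subset.2 hB)
  constructor
  · intro h c hc h0 b hb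
    have hinv : ∀ b ∈ B, Function.invFunOn (Int.cast : ℤ → ZMod p) B (b : ZMod p) = b :=
      fun b hb => hinj.leftInvOn_invFunOn (Finset.mem_coe.2 hb)
    have h1 := h (fun z => c (Function.invFunOn (Int.cast : ℤ → ZMod p) B z)) ?_ ?_ (b : ZMod p)
      (Finset.mem_image_of_mem _ hb)
    · simp only [hinv b hb] at h1
      exact h1
    · intro z hz
      obtain ⟨b', hb', rfl⟩ := Finset.mem_image.1 hz
      simp only [hinv b' hb']
      exact hc b' hb'
    · rw [Finset.sum_image hinj]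
      have h2 := congrArg (Int.cast : ℤ → ZMod p) h0
      rw [Int.cast_sum, Int.cast_zero] at h2
      rw [← h2]
      refine Finset.sum_congr rfl fun b' hb' => ?_
      rw [hinv b' hb', zsmul_eq_mul, smul_eq_mul, Int.cast_mul]
  · intro h c hc h0 z hz
    obtain ⟨b, hb, rfl⟩ := Finset.mem_image.1 hz
    have hc' : ∀ b ∈ B, (fun b : ℤ => c (b : ZMod p)) b = -1 ∨
        (fun b : ℤ => c (b : ZMod p)) b = 0 ∨ (fun b : ℤ => c (b : ZMod p)) b = 1 :=
      fun b hb => hc _ (Finset.mem_image_of_mem _ hb)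
    refine h (fun b => c (b : ZMod p)) hc' ?_ b hb
    refine eq_zero_of_cast (p := p) (sum_lt hp hB hc') ?_
    rw [Finset.sum_image hinj] at h0
    rw [Int.cast_sum, ← h0]
    refine Finset.sum_congr rfl fun b' hb' => ?_
    simp [zsmul_eq_mul]

theorem cast_qd (A : Finset ℤ) (p : ℕ) [Fact p.Prime] (hp : 2 * ∑ a ∈ A, |a| < p) :
    qd (A.image (Int.cast : ℤ → ZMod p)) = qd A := by
  apply le_antisymm
  · obtain ⟨B', hB', hq, hcard⟩ := exists_qi (A.image (Int.cast : ℤ → ZMod p))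
    obtain ⟨B, hB, rfl⟩ := Finset.subset_image_iff.1 hB'
    have hinj : Set.InjOn (Int.cast : ℤ → ZMod p) B :=
      (cast_injOn A p hp).mono (by exact_mod_cast hB)
    rw [← hcard, Finset.card_image_of_injOn hinj]
    exact le_qd (by exact_mod_cast hB) ((cast_qi A p hp B (by exact_mod_cast hB)).1 hq)
  · obtain ⟨B, hB, hq, hcard⟩ := exists_qi A
    have hinj : Set.InjOn (Int.cast : ℤ → ZMod p) B :=
      (cast_injOn A p hp).mono (Finset.coe_subset.2 hB)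
    rw [← hcard, ← Finset.card_image_of_injOn hinj]
    exact le_qd (Finset.image_subset_image hB) ((cast_qi A p hp B hB).2 hq)

theorem cast_zero (A : Finset ℤ) (p : ℕ) [Fact p.Prime] (hp : 2 * ∑ a ∈ A, |a| < p)
    (h0 : (0 : ℤ) ∉ A) : (0 : ZMod p) ∉ A.image (Int.cast : ℤ → ZMod p) := by
  intro h
  obtain ⟨a, ha, h⟩ := Finset.mem_image.1 h
  have h1 := abs_le_sum ha
  have h2 : 0 ≤ |a| := abs_nonneg a
  have h3 : a = 0 := eq_zero_of_cast (p := p) (by linarith) h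
  exact h0 (h3 ▸ ha)

end Pool.Agent.Lib.MP_6d8312_an.KD
end
end

section

/-!
# Random signs: definitions

A random sign vector is given by the random set `S` of the elements with sign `-1`.
-/

set_option autoImplicit false

noncomputable section

namespace Pool.Agent.Lib.MP_6d8312_an.KD

open Finset

variable {p : ℕ} [Fact p.Prime]

/-- The sign. -/
def sg (S : Finset (ZMod p)) (a : ZMod p) : ℝ := if a ∈ S then -1 else 1

/-- The random trigonometric polynomial (real part). -/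
def XS (Q : Finset (ZMod p)) (z : ZMod p → ℂ) (S : Finset (ZMod p)) (θ : ZMod p) : ℝ :=
  ∑ a ∈ Q, sg S a * (z a * ch (a * θ)).re

open Classical in
/-- The random Riesz product integrated over `U`. -/
def ZS (Q : Finset (ZMod p)) (z : ZMod p → ℂ) (U : Set (ZMod p)) (S : Finset (ZMod p)) : ℝ :=
  av (fun θ => if θ ∈ U then ∏ a ∈ Q, (1 + (1 / 4) * sg S a * (z a * ch (a * θ)).re) else 0)

/-- The sum of the squares. -/
def SQ (Q : Finset (ZMod p)) (z : ZMod p → ℂ) (θ : ZMod p) : ℝ :=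
  ∑ a ∈ Q, (z a * ch (a * θ)).re ^ 2

/-- The maximum over `ZMod p`. -/
def mx (f : ZMod p → ℝ) : ℝ := Finset.univ.sup' Finset.univ_nonempty f

/-- The mean supremum of the random trigonometric polynomial. -/
def RS (A : Finset (ZMod p)) (c : ZMod p → ℂ) : ℝ :=
  bern (1 / 2) A (fun S => mx (fun θ => ‖∑ a ∈ A, (sg S a : ℂ) * c a * ch (a * θ)‖))

end Pool.Agent.Lib.MP_6d8312_an.KD
end
end

section

/-!
# Moments of the random Riesz product

(0) Product formula: for `y : ZMod p → ℝ`, `bern (1/2) Q (S ↦ ∏_{a∈Q} (1 + sg S a * y a)) = 1`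
(induction on `Q`, `bern_insert`, `sg` at other elements is unchanged by inserting `a`).
`bern_ZS`: exchange `bern` and `av`.
`bern_ZS_sq`: `ZS² = av_θ av_θ' 1_U(θ) 1_U(θ') ∏ (1 + s Y(θ)/4)(1 + s Y(θ')/4)`, and
`bern ∏_{a} (1 + s_a Y_a/4)(1 + s_a Y'_a/4) = ∏ (1 + Y_a Y'_a/16)` (as `s² = 1`, same induction); the
factors are `≥ 0`, so drop the indicators; for fixed `θ'` `riesz` with `z'_a = (Y_a(θ')/16) z_a` gives
`av_θ ∏ = 1`.
`ZS_pos`: every factor is `≥ 3/4`.  `ZS_ratio`: changing the sign at `a` multiplies the integrand by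
a factor in `[3/5, 5/3]` (`(1 ± y/4)/(1 ∓ y/4)`, `|y| ≤ 1`); `a ∈ Q`.
-/

set_option autoImplicit false

noncomputable section

namespace Pool.Agent.Lib.MP_6d8312_an.KD

open Finset

variable {p : ℕ} [Fact p.Prime]

private theorem ZSMom_sg_insert_self (S : Finset (ZMod p)) (a : ZMod p) :
    sg (insert a S) a = -1 := by
  simp [sg]

private theorem ZSMom_sg_insert_ne (S : Finset (ZMod p)) {a b : ZMod p} (h : b ≠ a) :
    sg (insert a S) b = sg S b := by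
  simp [sg, Finset.mem_insert, h]

private theorem ZSMom_sg_not (S : Finset (ZMod p)) {a : ZMod p} (h : a ∉ S) : sg S a = 1 := by
  simp [sg, h]

private theorem ZSMom_sg_cases (S : Finset (ZMod p)) (a : ZMod p) : sg S a = 1 ∨ sg S a = -1 := by
  unfold sg
  split_ifs
  · exact Or.inr rfl
  · exact Or.inl rfl

private theorem ZSMom_prod (Q : Finset (ZMod p)) (g : ZMod p → ℝ → ℝ) :
    bern (1 / 2) Q (fun S => ∏ a ∈ Q, g a (sg S a)) = ∏ a ∈ Q, ((g a 1 + g a (-1)) / 2) := by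
  induction Q using Finset.induction_on with
  | empty => rw [bern_empty]; simp
  | insert a A ha ih =>
    have h1 : bern (1 / 2) A (fun S => ∏ b ∈ insert a A, g b (sg S b)) =
        g a 1 * bern (1 / 2) A (fun S => ∏ b ∈ A, g b (sg S b)) := by
      rw [← bern_mul_left]
      refine bern_congr fun S hS => ?_
      rw [Finset.prod_insert ha, ZSMom_sg_not S fun h => ha (hS h)]
    have h2 : bern (1 / 2) A (fun S => ∏ b ∈ insert a A, g b (sg (insert a S) b)) =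
        g a (-1) * bern (1 / 2) A (fun S => ∏ b ∈ A, g b (sg S b)) := by
      rw [← bern_mul_left]
      refine bern_congr fun S hS => ?_
      rw [Finset.prod_insert ha, ZSMom_sg_insert_self]
      congr 1
      refine Finset.prod_congr rfl fun b hb => ?_
      rw [ZSMom_sg_insert_ne S]
      rintro rfl
      exact ha hb
    rw [bern_insert _ ha, h1, h2, ih, Finset.prod_insert ha]
    ring

private theorem ZSMom_bern_av (l : ℝ) (A : Finset (ZMod p)) (f : ZMod p → Finset (ZMod p) → ℝ) :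
    bern l A (fun S => av (fun θ => f θ S)) = av (fun θ => bern l A (f θ)) := by
  unfold av
  have h : (fun S => (∑ x, f x S) / (p : ℝ)) = fun S => (p : ℝ)⁻¹ * ∑ x, f x S := by
    funext S
    rw [div_eq_inv_mul]
  rw [h, bern_mul_left, bern_finset_sum, div_eq_inv_mul]

/-- The Riesz product. -/
private def ZSMom_P (Q : Finset (ZMod p)) (z : ZMod p → ℂ) (θ : ZMod p) (S : Finset (ZMod p)) : ℝ :=
  ∏ a ∈ Q, (1 + (1 / 4) * sg S a * (z a * ch (a * θ)).re)

private theorem ZSMom_factor (z : ZMod p → ℂ) (a θ : ZMod p) (ha : ‖z a‖ ≤ 1)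
    (S : Finset (ZMod p)) : 3 / 4 ≤ 1 + (1 / 4) * sg S a * (z a * ch (a * θ)).re := by
  have h := abs_le.1 (abs_re_ch_le (z a) ha (a * θ))
  rcases ZSMom_sg_cases S a with h1 | h1 <;> rw [h1] <;> linarith [h.1, h.2]

private theorem ZSMom_P_ge (Q : Finset (ZMod p)) (z : ZMod p → ℂ) (hz : ∀ a ∈ Q, ‖z a‖ ≤ 1)
    (θ : ZMod p) (S : Finset (ZMod p)) : (3 / 4) ^ Q.card ≤ ZSMom_P Q z θ S := by
  unfold ZSMom_P
  rw [← Finset.prod_const]
  exact Finset.prod_le_prod (fun _ _ => by norm_num) fun a ha => ZSMom_factor z a θ (hz a ha) S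

private theorem ZSMom_P_nonneg (Q : Finset (ZMod p)) (z : ZMod p → ℂ) (hz : ∀ a ∈ Q, ‖z a‖ ≤ 1)
    (θ : ZMod p) (S : Finset (ZMod p)) : 0 ≤ ZSMom_P Q z θ S :=
  le_trans (by positivity) (ZSMom_P_ge Q z hz θ S)

private theorem ZSMom_ZS (Q : Finset (ZMod p)) (z : ZMod p → ℂ) (U : Set (ZMod p))
    (S : Finset (ZMod p)) [DecidablePred (· ∈ U)] :
    ZS Q z U S = av (fun θ => if θ ∈ U then ZSMom_P Q z θ S else 0) := by
  unfold ZS ZSMom_P
  congr 1
  funext θ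
  split_ifs <;> rfl

private theorem ZSMom_bern_PP (Q : Finset (ZMod p)) (z : ZMod p → ℂ) (θ θ' : ZMod p) :
    bern (1 / 2) Q (fun S => ZSMom_P Q z θ S * ZSMom_P Q z θ' S) =
      ∏ a ∈ Q, (1 + ((((z a * ch (a * θ')).re / 16 : ℝ) : ℂ) * z a * ch (a * θ)).re) := by
  have h : (fun S => ZSMom_P Q z θ S * ZSMom_P Q z θ' S) = fun S => ∏ a ∈ Q,
      (fun (a : ZMod p) (s : ℝ) => (1 + (1 / 4) * s * (z a * ch (a * θ)).re) *
        (1 + (1 / 4) * s * (z a * ch (a * θ')).re)) a (sg S a) := by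
    funext S
    unfold ZSMom_P
    rw [← Finset.prod_mul_distrib]
  rw [h]
  refine (ZSMom_prod Q (fun a s => (1 + (1 / 4) * s * (z a * ch (a * θ)).re) *
        (1 + (1 / 4) * s * (z a * ch (a * θ')).re))).trans ?_
  refine Finset.prod_congr rfl fun a _ => ?_
  have h9 : ((((z a * ch (a * θ')).re / 16 : ℝ) : ℂ) * z a * ch (a * θ)).re =
      (z a * ch (a * θ')).re / 16 * (z a * ch (a * θ)).re := by
    rw [mul_assoc, Complex.re_ofReal_mul]
  rw [h9]
  ring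

theorem bern_ZS (Q : Finset (ZMod p)) (z : ZMod p → ℂ) (U : Set (ZMod p)) :
    bern (1 / 2) Q (ZS Q z U) = mu U := by
  classical
  have h : (ZS Q z U) = fun S => av (fun θ => if θ ∈ U then ZSMom_P Q z θ S else 0) := by
    funext S
    exact ZSMom_ZS Q z U S
  rw [h, ZSMom_bern_av, mu_eq]
  congr 1
  funext θ
  by_cases hθ : θ ∈ U
  · simp only [hθ, if_true]
    have h2 : (fun S => ZSMom_P Q z θ S) = fun S => ∏ a ∈ Q,
        (fun (a : ZMod p) (s : ℝ) => (1 + (1 / 4) * s * (z a * ch (a * θ)).re)) a (sg S a) := rfl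
    have h3 : bern (1 / 2) Q (fun S => ZSMom_P Q z θ S) = 1 := by
      rw [h2]
      refine (ZSMom_prod Q (fun a s => 1 + (1 / 4) * s * (z a * ch (a * θ)).re)).trans ?_
      refine Finset.prod_eq_one fun a _ => ?_
      ring
    exact h3
  · simp only [hθ, if_false]
    exact bern_const _ _ _

theorem bern_ZS_sq (Q : Finset (ZMod p)) (hQ : QI Q) (z : ZMod p → ℂ)
    (hz : ∀ a ∈ Q, ‖z a‖ ≤ 1) (U : Set (ZMod p)) :
    bern (1 / 2) Q (fun S => ZS Q z U S ^ 2) ≤ 1 := by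
  classical
  have h1 : bern (1 / 2) Q (fun S => ZS Q z U S ^ 2) ≤
      bern (1 / 2) Q (fun S => av (fun θ' => av (fun θ => ZSMom_P Q z θ S * ZSMom_P Q z θ' S))) := by
    refine bern_mono (by norm_num) (by norm_num) fun S _ => ?_
    have h2 : 0 ≤ ZS Q z U S := by
      rw [ZSMom_ZS]
      refine av_nonneg fun θ => ?_
      split_ifs
      · exact ZSMom_P_nonneg Q z hz θ S
      · exact le_rfl
    have h3 : ZS Q z U S ≤ av (fun θ => ZSMom_P Q z θ S) := by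
      rw [ZSMom_ZS]
      refine av_mono fun θ => ?_
      split_ifs
      · exact le_rfl
      · exact ZSMom_P_nonneg Q z hz θ S
    have h4 : av (fun θ' => av (fun θ => ZSMom_P Q z θ S * ZSMom_P Q z θ' S)) =
        av (fun θ => ZSMom_P Q z θ S) * av (fun θ => ZSMom_P Q z θ S) := by
      rw [← av_mul_left]
      congr 1
      funext θ'
      rw [av_mul_right]
    simp only [h4, sq]
    exact mul_le_mul h3 h3 h2 (h2.trans h3)
  refine h1.trans (le_of_eq ?_)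
  rw [ZSMom_bern_av (1 / 2) Q
    (fun θ' S => av (fun θ => ZSMom_P Q z θ S * ZSMom_P Q z θ' S))]
  have h5 : (fun θ' : ZMod p => bern (1 / 2) Q
      (fun S => av (fun θ => ZSMom_P Q z θ S * ZSMom_P Q z θ' S))) = fun _ => (1 : ℝ) := by
    funext θ'
    rw [ZSMom_bern_av (1 / 2) Q (fun θ S => ZSMom_P Q z θ S * ZSMom_P Q z θ' S)]
    simp only [ZSMom_bern_PP]
    exact riesz Q hQ (fun a => (((z a * ch (a * θ')).re / 16 : ℝ) : ℂ) * z a)
  rw [h5, av_const]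

theorem ZS_nonneg (Q : Finset (ZMod p)) (z : ZMod p → ℂ)
    (hz : ∀ a ∈ Q, ‖z a‖ ≤ 1) (U : Set (ZMod p)) (S : Finset (ZMod p)) : 0 ≤ ZS Q z U S := by
  classical
  rw [ZSMom_ZS]
  refine av_nonneg fun θ => ?_
  split_ifs
  · exact ZSMom_P_nonneg Q z hz θ S
  · exact le_rfl

theorem ZS_pos (Q : Finset (ZMod p)) (z : ZMod p → ℂ)
    (hz : ∀ a ∈ Q, ‖z a‖ ≤ 1) (U : Set (ZMod p)) (hU : 0 < mu U) (S : Finset (ZMod p)) :
    0 < ZS Q z U S := by
  classical
  have h1 : (3 / 4) ^ Q.card * mu U ≤ ZS Q z U S := by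
    rw [ZSMom_ZS, mu_eq, ← av_mul_left]
    refine av_mono fun θ => ?_
    by_cases hθ : θ ∈ U
    · simp only [hθ, if_true, mul_one]
      exact ZSMom_P_ge Q z hz θ S
    · simp only [hθ, if_false, mul_zero]
      exact le_rfl
  exact lt_of_lt_of_le (mul_pos (by positivity) hU) h1

private theorem ZSMom_P_cmp (Q : Finset (ZMod p)) (z : ZMod p → ℂ)
    (hz : ∀ a ∈ Q, ‖z a‖ ≤ 1) (S : Finset (ZMod p)) (a θ : ZMod p) :
    ZSMom_P Q z θ (insert a S) ≤ 5 / 3 * ZSMom_P Q z θ S ∧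
      ZSMom_P Q z θ S ≤ 5 / 3 * ZSMom_P Q z θ (insert a S) := by
  by_cases ha : a ∈ Q
  · have h0 : ∀ T : Finset (ZMod p), ZSMom_P Q z θ T =
        (1 + (1 / 4) * sg T a * (z a * ch (a * θ)).re) * ZSMom_P (Q.erase a) z θ T := by
      intro T
      unfold ZSMom_P
      rw [Finset.mul_prod_erase Q (fun b => 1 + (1 / 4) * sg T b * (z b * ch (b * θ)).re) ha]
    have h1 : ZSMom_P (Q.erase a) z θ (insert a S) = ZSMom_P (Q.erase a) z θ S := by
      unfold ZSMom_P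
      refine Finset.prod_congr rfl fun b hb => ?_
      rw [ZSMom_sg_insert_ne S (Finset.ne_of_mem_erase hb)]
    have h2 : 0 ≤ ZSMom_P (Q.erase a) z θ S :=
      ZSMom_P_nonneg _ z (fun b hb => hz b (Finset.mem_of_mem_erase hb)) θ S
    have h3 := abs_le.1 (abs_re_ch_le (z a) (hz a ha) (a * θ))
    rw [h0 (insert a S), h0 S, h1, ZSMom_sg_insert_self]
    rcases ZSMom_sg_cases S a with h4 | h4
    · rw [h4]
      constructor
      · rw [← mul_assoc]
        exact mul_le_mul_of_nonneg_right (by linarith [h3.1, h3.2]) h2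
      · rw [← mul_assoc]
        exact mul_le_mul_of_nonneg_right (by linarith [h3.1, h3.2]) h2
    · rw [h4]
      constructor
      · rw [← mul_assoc]
        exact mul_le_mul_of_nonneg_right (by linarith [h3.1, h3.2]) h2
      · rw [← mul_assoc]
        exact mul_le_mul_of_nonneg_right (by linarith [h3.1, h3.2]) h2
  · have h1 : ZSMom_P Q z θ (insert a S) = ZSMom_P Q z θ S := by
      unfold ZSMom_P
      refine Finset.prod_congr rfl fun b hb => ?_
      rw [ZSMom_sg_insert_ne S]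
      rintro rfl
      exact ha hb
    have h2 := ZSMom_P_nonneg Q z hz θ S
    rw [h1]
    constructor <;> linarith

theorem ZS_ratio (Q : Finset (ZMod p)) (z : ZMod p → ℂ)
    (hz : ∀ a ∈ Q, ‖z a‖ ≤ 1) (U : Set (ZMod p)) (hU : 0 < mu U) (S : Finset (ZMod p))
    (a : ZMod p) :
    |Real.log (ZS Q z U (insert a S)) - Real.log (ZS Q z U S)| ≤ Real.log (5 / 3) := by
  classical
  have hp1 := ZS_pos Q z hz U hU S
  have hp2 := ZS_pos Q z hz U hU (insert a S)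
  have h1 : ZS Q z U (insert a S) ≤ 5 / 3 * ZS Q z U S := by
    rw [ZSMom_ZS, ZSMom_ZS, ← av_mul_left]
    refine av_mono fun θ => ?_
    by_cases hθ : θ ∈ U
    · simp only [hθ, if_true]
      exact (ZSMom_P_cmp Q z hz S a θ).1
    · simp only [hθ, if_false, mul_zero]
      exact le_rfl
  have h2 : ZS Q z U S ≤ 5 / 3 * ZS Q z U (insert a S) := by
    rw [ZSMom_ZS, ZSMom_ZS, ← av_mul_left]
    refine av_mono fun θ => ?_
    by_cases hθ : θ ∈ U
    · simp only [hθ, if_true]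
      exact (ZSMom_P_cmp Q z hz S a θ).2
    · simp only [hθ, if_false, mul_zero]
      exact le_rfl
  have h3 := Real.log_le_log hp2 h1
  have h4 := Real.log_le_log hp1 h2
  rw [Real.log_mul (by norm_num) hp1.ne'] at h3
  rw [Real.log_mul (by norm_num) hp2.ne'] at h4
  rw [abs_le]
  constructor <;> linarith

end Pool.Agent.Lib.MP_6d8312_an.KD
end
end

section

/-!
# Upper bound for the random Riesz product

`N = |Q|`, `ρ = 1/4`.  For `|x| ≤ 1/4`: `1 + x ≤ exp (x - x²/3)` (e.g. `exp y ≥ 1 + y + y²/2 + y³/6` with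
`y = x - x²/3`; or `log(1+x) ≤ x - x²/3`).  So on `U' = U ∩ {SQ ≥ N/16}`: the product is at most
`exp (X/4 - SQ/48) ≤ exp (X/4 - N/768)`.  If `X < N/512`: `≤ exp (N/2048 - N/768) ≤ exp (-N/1300)`.  In any
case the product is at most `(5/4)^N ≤ exp (N/4)`.
-/

set_option autoImplicit false

noncomputable section

namespace Pool.Agent.Lib.MP_6d8312_an.KD

open Finset

variable {p : ℕ} [Fact p.Prime]

private theorem ZSUp_exp {x : ℝ} (hx : |x| ≤ 1 / 4) : 1 + x ≤ Real.exp (x - x ^ 2 / 3) := by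
  obtain ⟨h1, h2⟩ := abs_le.mp hx
  set t : ℝ := 1 - x / 3 with ht
  have ht1 : 11 / 12 ≤ t := by rw [ht]; linarith
  have ht2 : t ≤ 13 / 12 := by rw [ht]; linarith
  have hy : x - x ^ 2 / 3 = x * t := by rw [ht]; ring
  have hyabs : |x * t| ≤ 1 := by
    rw [abs_mul, abs_of_pos (show (0 : ℝ) < t by linarith)]
    nlinarith [abs_nonneg x]
  have hb := Real.exp_bound hyabs (n := 3) (by norm_num)
  have h3 : |x * t| ^ 3 ≤ 1 / 4 * x ^ 2 * t ^ 3 := by
    rw [abs_mul, abs_of_pos (show (0 : ℝ) < t by linarith), mul_pow]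
    have h4 : |x| ^ 3 = |x| * x ^ 2 := by
      rw [pow_succ' |x| 2, sq_abs]
    rw [h4]
    have h5 : |x| * x ^ 2 ≤ 1 / 4 * x ^ 2 := mul_le_mul_of_nonneg_right hx (sq_nonneg x)
    exact mul_le_mul_of_nonneg_right h5 (by positivity)
  have h6 : Real.exp (x * t) ≥ 1 + x * t + (x * t) ^ 2 / 2 - 2 / 9 * |x * t| ^ 3 := by
    have h7 := (abs_le.mp hb).1
    simp only [Finset.sum_range_succ, Finset.sum_range_zero, Nat.factorial] at h7
    norm_num at h7
    rw [← abs_mul] at h7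
    linarith
  have h8 : (1 : ℝ) / 3 ≤ t ^ 2 * (1 / 2 - t / 18) := by nlinarith
  have h9 : x ^ 2 * (1 / 3) ≤ x ^ 2 * (t ^ 2 * (1 / 2 - t / 18)) :=
    mul_le_mul_of_nonneg_left h8 (sq_nonneg x)
  rw [hy]
  have h10 : x * t = x - x ^ 2 / 3 := hy.symm
  nlinarith

theorem ZS_le (Q : Finset (ZMod p)) (z : ZMod p → ℂ) (hz : ∀ a ∈ Q, ‖z a‖ ≤ 1)
    (U : Set (ZMod p)) (S : Finset (ZMod p)) :
    ZS Q z {θ ∈ U | (Q.card : ℝ) / 16 ≤ SQ Q z θ} S ≤ Real.exp (-(Q.card : ℝ) / 1300) +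
      Real.exp ((Q.card : ℝ) / 4) * mu {θ ∈ U | (Q.card : ℝ) / 512 ≤ XS Q z S θ} := by
  classical
  have hN : (0 : ℝ) ≤ Q.card := Nat.cast_nonneg _
  rw [mu_eq, ← av_mul_left, ← av_const (p := p) (Real.exp (-(Q.card : ℝ) / 1300)), ← av_add]
  unfold ZS
  refine av_mono fun θ => ?_
  have hsg : ∀ a, |sg S a| = 1 := by
    intro a
    unfold sg
    split_ifs <;> simp
  have hx : ∀ a ∈ Q, |(1 / 4) * sg S a * (z a * ch (a * θ)).re| ≤ 1 / 4 := by
    intro a ha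
    have h1 := abs_re_ch_le (z a) (hz a ha) (a * θ)
    rw [abs_mul, abs_mul, hsg, abs_of_pos (show (0 : ℝ) < 1 / 4 by norm_num)]
    linarith
  by_cases hU : θ ∈ {θ ∈ U | (Q.card : ℝ) / 16 ≤ SQ Q z θ}
  · rw [if_pos hU]
    by_cases hX : θ ∈ {θ ∈ U | (Q.card : ℝ) / 512 ≤ XS Q z S θ}
    · rw [if_pos hX]
      have h1 : ∏ a ∈ Q, (1 + (1 / 4) * sg S a * (z a * ch (a * θ)).re) ≤
          ∏ _a ∈ Q, Real.exp (1 / 4) := by
        refine Finset.prod_le_prod (fun a ha => ?_) fun a ha => ?_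
        · have := (abs_le.mp (hx a ha)).1
          linarith
        · have h2 := (abs_le.mp (hx a ha)).2
          have h3 := Real.add_one_le_exp (1 / 4 : ℝ)
          linarith
      rw [Finset.prod_const, ← Real.exp_nat_mul] at h1
      have h2 : (Q.card : ℝ) * (1 / 4) = Q.card / 4 := by ring
      rw [h2] at h1
      have h3 := Real.exp_pos (-(Q.card : ℝ) / 1300)
      linarith
    · rw [if_neg hX]
      have hX' : XS Q z S θ < (Q.card : ℝ) / 512 := by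
        by_contra hcon
        exact hX ⟨hU.1, not_lt.mp hcon⟩
      have h1 : ∏ a ∈ Q, (1 + (1 / 4) * sg S a * (z a * ch (a * θ)).re) ≤
          ∏ a ∈ Q, Real.exp ((1 / 4) * sg S a * (z a * ch (a * θ)).re -
            ((1 / 4) * sg S a * (z a * ch (a * θ)).re) ^ 2 / 3) := by
        refine Finset.prod_le_prod (fun a ha => ?_) fun a ha => ZSUp_exp (hx a ha)
        have := (abs_le.mp (hx a ha)).1
        linarith
      have h2 : ∑ a ∈ Q, ((1 / 4) * sg S a * (z a * ch (a * θ)).re -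
            ((1 / 4) * sg S a * (z a * ch (a * θ)).re) ^ 2 / 3) =
          XS Q z S θ / 4 - SQ Q z θ / 48 := by
        unfold XS SQ
        rw [Finset.sum_div, Finset.sum_div, ← Finset.sum_sub_distrib]
        refine Finset.sum_congr rfl fun a _ => ?_
        have h3 : sg S a ^ 2 = 1 := by
          rw [← sq_abs, hsg, one_pow]
        have h4 : ((1 / 4) * sg S a * (z a * ch (a * θ)).re) ^ 2 =
            1 / 16 * (z a * ch (a * θ)).re ^ 2 := by
          rw [mul_pow, mul_pow, h3]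
          ring
        rw [h4]
        ring
      rw [← Real.exp_sum, h2] at h1
      have h5 : Real.exp (XS Q z S θ / 4 - SQ Q z θ / 48) ≤ Real.exp (-(Q.card : ℝ) / 1300) := by
        apply Real.exp_le_exp.mpr
        have h6 : (Q.card : ℝ) / 16 ≤ SQ Q z θ := hU.2
        linarith
      linarith
  · rw [if_neg hU]
    have h3 := Real.exp_pos (-(Q.card : ℝ) / 1300)
    have h4 := Real.exp_pos ((Q.card : ℝ) / 4)
    split_ifs
    · linarith
    · linarith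

end Pool.Agent.Lib.MP_6d8312_an.KD
end
end

section

/-!
# The mean supremum

`RS_mono`: `A = B ∪ (A \ B)`, `bern_union`: for `S ⊆ B`, `bern (A \ B) (T ↦ mx ‖P_B,S + P_{A\B},T‖) ≥
mx ‖P_B,S‖`: for each `θ`, `mx ‖..‖ ≥ ‖P_B,S(θ) + P_T(θ)‖`, and averaging over `T`
(`bern T ↦ P_T(θ) = 0`): `bern ‖x + P_T‖ ≥ ‖x‖` (take the real functional `Re (u ·)`, `u` of norm one with
`u x = ‖x‖`).  `RS_coef`: for each `S`: `mx ‖P‖ ≥ ‖(1/p) ∑_θ P(θ) ch(-aθ)‖ = ‖c a‖` (`sum_ch`).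
`RS_smul`: `mx (r f) = r mx f` for `r ≥ 0`.
-/

set_option autoImplicit false

noncomputable section

namespace Pool.Agent.Lib.MP_6d8312_an.KD

open Finset

variable {p : ℕ} [Fact p.Prime]

theorem le_mx (f : ZMod p → ℝ) (θ : ZMod p) : f θ ≤ mx f :=
  Finset.le_sup' f (Finset.mem_univ θ)

theorem mx_le {f : ZMod p → ℝ} {C : ℝ} (h : ∀ θ, f θ ≤ C) : mx f ≤ C :=
  Finset.sup'_le _ _ fun θ _ => h θ

theorem RS_nonneg (A : Finset (ZMod p)) (c : ZMod p → ℂ) : 0 ≤ RS A c := by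
  unfold RS
  refine bern_nonneg (by norm_num) (by norm_num) fun S _ => ?_
  exact (norm_nonneg _).trans (le_mx (fun θ => ‖∑ a ∈ A, (sg S a : ℂ) * c a * ch (a * θ)‖) 0)

private theorem RSBasic_step {B : Finset (ZMod p)} {a : ZMod p} (ha : a ∉ B) (c : ZMod p → ℂ) :
    RS B c ≤ RS (insert a B) c := by
  unfold RS
  rw [bern_insert _ ha]
  have h0 : (1 - 1 / 2 : ℝ) = 1 / 2 := by norm_num
  rw [h0, ← mul_add, ← bern_add, ← bern_mul_left]
  refine bern_mono (by norm_num) (by norm_num) fun S hS => ?_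
  have haS : a ∉ S := fun h => ha (hS h)
  refine mx_le fun θ => ?_
  set X : ℂ := ∑ b ∈ B, (sg S b : ℂ) * c b * ch (b * θ) with hX
  set Y : ℂ := c a * ch (a * θ) with hY
  have h1 : ∑ b ∈ insert a B, (sg S b : ℂ) * c b * ch (b * θ) = Y + X := by
    rw [Finset.sum_insert ha]
    have : sg S a = 1 := if_neg haS
    rw [this, hX, hY]
    push_cast
    ring
  have h2 : ∑ b ∈ insert a B, (sg (insert a S) b : ℂ) * c b * ch (b * θ) = -Y + X := by
    rw [Finset.sum_insert ha]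
    have h3 : sg (insert a S) a = -1 := if_pos (Finset.mem_insert_self a S)
    have h4 : ∑ b ∈ B, (sg (insert a S) b : ℂ) * c b * ch (b * θ) = X := by
      rw [hX]
      refine Finset.sum_congr rfl fun b hb => ?_
      have hba : b ≠ a := by
        rintro rfl
        exact ha hb
      have h5 : sg (insert a S) b = sg S b := by
        unfold sg
        simp [Finset.mem_insert, hba]
      rw [h5]
    rw [h3, h4, hY]
    push_cast
    ring
  have h3 := le_mx (fun θ => ‖∑ b ∈ insert a B, (sg S b : ℂ) * c b * ch (b * θ)‖) θ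
  have h4 := le_mx (fun θ => ‖∑ b ∈ insert a B, (sg (insert a S) b : ℂ) * c b * ch (b * θ)‖) θ
  simp only [h1] at h3
  simp only [h2] at h4
  have h5 : ‖X‖ ≤ 1 / 2 * (‖Y + X‖ + ‖-Y + X‖) := by
    have h6 : X = (1 / 2 : ℂ) * ((Y + X) + (-Y + X)) := by ring
    calc ‖X‖ = ‖(1 / 2 : ℂ) * ((Y + X) + (-Y + X))‖ := by rw [← h6]
      _ = 1 / 2 * ‖(Y + X) + (-Y + X)‖ := by
        rw [norm_mul]
        norm_num
      _ ≤ 1 / 2 * (‖Y + X‖ + ‖-Y + X‖) :=
        mul_le_mul_of_nonneg_left (norm_add_le _ _) (by norm_num)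
  refine h5.trans ?_
  exact mul_le_mul_of_nonneg_left (add_le_add h3 h4) (by norm_num)

theorem RS_mono {A B : Finset (ZMod p)} (h : B ⊆ A) (c : ZMod p → ℂ) : RS B c ≤ RS A c := by
  have key : ∀ D : Finset (ZMod p), RS B c ≤ RS (D ∪ B) c := by
    intro D
    induction D using Finset.induction_on with
    | empty => rw [Finset.empty_union]
    | insert a D _ ih =>
      rw [Finset.insert_union]
      by_cases ha : a ∈ D ∪ B
      · rw [Finset.insert_eq_of_mem ha]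
        exact ih
      · exact ih.trans (RSBasic_step ha c)
  have h1 := key A
  rwa [Finset.union_eq_left.2 h] at h1

theorem RS_coef {A : Finset (ZMod p)} {a : ZMod p} (ha : a ∈ A) (c : ZMod p → ℂ) :
    ‖c a‖ ≤ RS A c := by
  refine le_trans ?_ (RS_mono (Finset.singleton_subset_iff.2 ha) c)
  unfold RS
  have h1 : ∀ S : Finset (ZMod p),
      ‖c a‖ ≤ mx (fun θ => ‖∑ b ∈ ({a} : Finset (ZMod p)), (sg S b : ℂ) * c b * ch (b * θ)‖) := by
    intro S
    refine le_trans ?_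
      (le_mx (fun θ => ‖∑ b ∈ ({a} : Finset (ZMod p)), (sg S b : ℂ) * c b * ch (b * θ)‖) 0)
    simp only [Finset.sum_singleton]
    rw [norm_mul, norm_mul, norm_ch, mul_one]
    have h2 : ‖(sg S a : ℂ)‖ = 1 := by
      unfold sg
      split_ifs <;> simp
    rw [h2, one_mul]
  have h2 := bern_mono (l := 1 / 2) (by norm_num) (by norm_num) (A := ({a} : Finset (ZMod p)))
    (f := fun _ => ‖c a‖) (fun S _ => h1 S)
  rwa [bern_const] at h2

theorem RS_smul (A : Finset (ZMod p)) (c : ZMod p → ℂ) {r : ℝ} (hr : 0 ≤ r) :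
    RS A (fun a => (r : ℂ) * c a) = r * RS A c := by
  unfold RS
  rw [← bern_mul_left]
  refine bern_congr fun S _ => ?_
  have h1 : (fun θ : ZMod p => ‖∑ a ∈ A, (sg S a : ℂ) * ((r : ℂ) * c a) * ch (a * θ)‖) =
      fun θ => r * ‖∑ a ∈ A, (sg S a : ℂ) * c a * ch (a * θ)‖ := by
    funext θ
    have h2 : ∑ a ∈ A, (sg S a : ℂ) * ((r : ℂ) * c a) * ch (a * θ) =
        (r : ℂ) * ∑ a ∈ A, (sg S a : ℂ) * c a * ch (a * θ) := by
      rw [Finset.mul_sum]
      exact Finset.sum_congr rfl fun a _ => by ring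
    rw [h2, norm_mul, Complex.norm_real, Real.norm_of_nonneg hr]
  rw [h1]
  refine le_antisymm (mx_le fun θ => mul_le_mul_of_nonneg_left
    (le_mx (fun θ => ‖∑ a ∈ A, (sg S a : ℂ) * c a * ch (a * θ)‖) θ) hr) ?_
  rcases hr.eq_or_lt with h0 | h0
  · rw [← h0, zero_mul]
    exact le_trans (by rw [zero_mul]) (le_mx (fun θ : ZMod p =>
      0 * ‖∑ a ∈ A, (sg S a : ℂ) * c a * ch (a * θ)‖) 0)
  · rw [← le_div_iff₀' h0]
    refine mx_le fun θ => ?_
    rw [le_div_iff₀' h0]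
    exact le_mx (fun θ => r * ‖∑ a ∈ A, (sg S a : ℂ) * c a * ch (a * θ)‖) θ

end Pool.Agent.Lib.MP_6d8312_an.KD
end
end
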