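import Pool.Agent.Lib.MP_6d8312_an.Mg.G001
import Pool.Agent.Lib.MP_6d8312_an.Mg.G005
import Pool.Agent.Lib.MP_6d8312_an.Mg.G003

section

/-!
# Interpolation by functionals (Helly, Hahn-Banach)

`T : (ι → ℂ) →ₗ E`, `c ↦ ∑ c i • v i`; `β c = ∑ c i * b i` vanishes on `ker T` (by `h`), so it factors
through `range T` (`LinearMap.range`, `Submodule.liftQ`, `LinearMap.quotKerEquivRange`, or choose a
right inverse of `T.rangeRestrict`): `f : range T →ₗ ℂ`, `f (T c) = β c`, `‖f x‖ ≤ C ‖x‖`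
(`LinearMap.mkContinuous`).  `exists_extension_norm_eq`.
-/

set_option autoImplicit false

noncomputable section

namespace Pool.Agent.Lib.MP_6d8312_an.KD

open Finset

theorem dual_lemma {E : Type*} [NormedAddCommGroup E] [NormedSpace ℂ E] {ι : Type*} [Fintype ι]
    (v : ι → E) (b : ι → ℂ) {C : ℝ} (hC : 0 ≤ C)
    (h : ∀ c : ι → ℂ, ‖∑ i, c i * b i‖ ≤ C * ‖∑ i, c i • v i‖) :
    ∃ g : E →L[ℂ] ℂ, ‖g‖ ≤ C ∧ ∀ i, g (v i) = b i := by
  classical
  let T : (ι → ℂ) →ₗ[ℂ] E := Fintype.linearCombination ℂ v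
  let β : (ι → ℂ) →ₗ[ℂ] ℂ := Fintype.linearCombination ℂ b
  have hT : ∀ c, T c = ∑ i, c i • v i := fun c => Fintype.linearCombination_apply ℂ v c
  have hβ : ∀ c, β c = ∑ i, c i * b i := fun c => by
    simp [β, Fintype.linearCombination_apply]
  have hb : ∀ c, ‖β c‖ ≤ C * ‖T c‖ := fun c => by rw [hT, hβ]; exact h c
  have hker : LinearMap.ker T ≤ LinearMap.ker β := by
    intro c hc
    rw [LinearMap.mem_ker] at hc ⊢
    have := hb c
    rw [hc, norm_zero, mul_zero] at this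
    exact norm_le_zero_iff.mp this
  let f : LinearMap.range T →ₗ[ℂ] ℂ :=
    ((LinearMap.ker T).liftQ β hker).comp T.quotKerEquivRange.symm.toLinearMap
  have hf : ∀ (c : ι → ℂ) (hc : T c ∈ LinearMap.range T), f ⟨T c, hc⟩ = β c := by
    intro c hc
    simp only [f, LinearMap.comp_apply, LinearEquiv.coe_coe]
    rw [LinearMap.quotKerEquivRange_symm_apply_image, Submodule.mkQ_apply, Submodule.liftQ_apply]
  have hfb : ∀ x : LinearMap.range T, ‖f x‖ ≤ C * ‖x‖ := by
    rintro ⟨x, hx⟩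
    obtain ⟨c, rfl⟩ := LinearMap.mem_range.mp hx
    rw [hf c hx]
    exact hb c
  obtain ⟨g, hg1, hg2⟩ := exists_extension_norm_eq (LinearMap.range T) (f.mkContinuous C hfb)
  refine ⟨g, ?_, ?_⟩
  · rw [hg2]
    exact LinearMap.mkContinuous_norm_le _ hC _
  · intro i
    have h1 : T (Pi.single i 1) = v i := by
      rw [hT]
      rw [Finset.sum_eq_single i]
      · simp
      · intro j _ hj; simp [Pi.single_apply, hj]
      · intro hi; exact absurd (Finset.mem_univ i) hi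
    have h2 : β (Pi.single i 1) = b i := by
      rw [hβ]
      rw [Finset.sum_eq_single i]
      · simp
      · intro j _ hj; simp [Pi.single_apply, hj]
      · intro hi; exact absurd (Finset.mem_univ i) hi
    have h3 := hg1 ⟨T (Pi.single i 1), LinearMap.mem_range_self T _⟩
    rw [LinearMap.mkContinuous_apply, hf _ (LinearMap.mem_range_self T _), h2] at h3
    rw [← h1]
    exact h3

end Pool.Agent.Lib.MP_6d8312_an.KD
end
end

section

/-!
# Interpolating measures

`meas_one`: `E = (ZMod p → ℂ)` (sup norm), `ι = A`, `v a = (θ ↦ ch(aθ))`, `g` from `dual_lemma`,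
`m x = g (Pi.single x 1)`: `∑_x ‖m x‖ ≤ ‖g‖` (test on `x ↦` unimodular numbers), `g f = ∑ f x m x`.
`meas_two`: `E = PiLp 1 (fun _ : A.powerset => ZMod p → ℂ)` (or `lp`; norm `∑_S ‖x_S‖_∞`),
`v a = (S ↦ θ ↦ 2^{-|A|} sg S a ch(aθ))`, so `‖∑ c_a v_a‖ = RS A c`, `b = 1`.
`m S x = g(single S (single x 1))`; for each `S` `∑_x ‖m S x‖ ≤ ‖g‖ ≤ C` (test on an element supported at
`S` with unimodular values), and `g (v a) = ∑_S 2^{-|A|} sg S a ∑_x m S x ch(a x) = 1`.
-/

set_option autoImplicit false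

noncomputable section

namespace Pool.Agent.Lib.MP_6d8312_an.KD

open Finset

variable {p : ℕ} [Fact p.Prime]

private theorem DualMeas_sup (φ : (ZMod p → ℂ) →ₗ[ℂ] ℂ) {C : ℝ}
    (hφ : ∀ u : ZMod p → ℂ, (∀ x, ‖u x‖ ≤ 1) → ‖φ u‖ ≤ C) :
    ∑ x, ‖φ (Pi.single x 1)‖ ≤ C ∧ ∀ f : ZMod p → ℂ, φ f = ∑ x, φ (Pi.single x 1) * f x := by
  have hf : ∀ f : ZMod p → ℂ, φ f = ∑ x, φ (Pi.single x 1) * f x := by
    intro f
    have h1 : f = ∑ x, f x • (Pi.single x (1 : ℂ) : ZMod p → ℂ) := by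
      funext y
      rw [Finset.sum_apply, Finset.sum_eq_single y]
      · simp
      · intro x _ hx
        simp [hx.symm]
      · simp
    conv_lhs => rw [h1]
    rw [map_sum]
    refine Finset.sum_congr rfl fun x _ => ?_
    rw [map_smul, smul_eq_mul, mul_comm]
  refine ⟨?_, hf⟩
  have h2 := hφ (fun x => (‖φ (Pi.single x 1)‖ : ℂ) / φ (Pi.single x 1)) fun x => by
    rw [norm_div, Complex.norm_real, norm_norm]
    exact div_self_le_one _
  rw [hf] at h2
  have h3 : ∑ x, φ (Pi.single x 1) * ((‖φ (Pi.single x 1)‖ : ℂ) / φ (Pi.single x 1)) =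
      ((∑ x, ‖φ (Pi.single x 1)‖ : ℝ) : ℂ) := by
    rw [Complex.ofReal_sum]
    refine Finset.sum_congr rfl fun x _ => ?_
    by_cases h : φ (Pi.single x 1) = 0
    · rw [h]
      simp
    · field_simp
  rw [h3, Complex.norm_real, Real.norm_eq_abs, abs_of_nonneg (Finset.sum_nonneg fun _ _ =>
    norm_nonneg _)] at h2
  exact h2

omit [Fact p.Prime] in
private theorem DualMeas_ext (A : Finset (ZMod p)) (c : A → ℂ) :
    ∃ c' : ZMod p → ℂ, ∀ f : ZMod p → ℂ, ∑ i : A, c i * f i = ∑ a ∈ A, c' a * f a := by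
  classical
  refine ⟨fun a => if h : a ∈ A then c ⟨a, h⟩ else 0, fun f => ?_⟩
  rw [← Finset.sum_coe_sort A]
  refine Finset.sum_congr rfl fun i _ => ?_
  change c i * f i = (if h : (i : ZMod p) ∈ A then c ⟨i, h⟩ else 0) * f i
  rw [dif_pos i.2]

theorem meas_one (A : Finset (ZMod p)) {C : ℝ} (hC : 0 ≤ C) (b : ZMod p → ℂ)
    (h : ∀ c : ZMod p → ℂ, ‖∑ a ∈ A, c a * b a‖ ≤ C * mx (fun θ => ‖∑ a ∈ A, c a * ch (a * θ)‖)) :
    ∃ m : ZMod p → ℂ, ∑ x, ‖m x‖ ≤ C ∧ ∀ a ∈ A, ∑ x, m x * ch (a * x) = b a := by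
  obtain ⟨g, hg, hgv⟩ := dual_lemma (E := ZMod p → ℂ) (ι := A)
    (fun a θ => ch ((a : ZMod p) * θ)) (fun a => b a) hC (fun c => by
      obtain ⟨c', hc'⟩ := DualMeas_ext A c
      rw [hc' b]
      refine (h c').trans (mul_le_mul_of_nonneg_left ?_ hC)
      refine mx_le fun θ => ?_
      rw [← hc' (fun a => ch (a * θ))]
      have h1 := norm_le_pi_norm (∑ i : A, c i • (fun θ => ch ((i : ZMod p) * θ))) θ
      simpa [Finset.sum_apply] using h1)
  obtain ⟨h1, h2⟩ := DualMeas_sup (g : (ZMod p → ℂ) →ₗ[ℂ] ℂ) (C := C) (fun u hu => by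
    refine (g.le_opNorm u).trans ?_
    have h3 : ‖u‖ ≤ 1 := (pi_norm_le_iff_of_nonneg zero_le_one).2 hu
    calc ‖g‖ * ‖u‖ ≤ C * 1 := mul_le_mul hg h3 (norm_nonneg _) hC
      _ = C := mul_one C)
  refine ⟨fun x => g (Pi.single x 1), h1, fun a ha => ?_⟩
  rw [← hgv ⟨a, ha⟩]
  exact (h2 _).symm

theorem meas_two (A : Finset (ZMod p)) {C : ℝ} (hC : 0 ≤ C)
    (h : ∀ c : ZMod p → ℂ, ‖∑ a ∈ A, c a‖ ≤ C * RS A c) :
    ∃ m : Finset (ZMod p) → ZMod p → ℂ, (∀ S ⊆ A, ∑ x, ‖m S x‖ ≤ C) ∧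
      ∀ a ∈ A, ∑ S ∈ A.powerset, (sg S a : ℂ) * ∑ x, m S x * ch (a * x) = 2 ^ A.card := by
  classical
  let E := PiLp 1 (fun _ : A.powerset => ZMod p → ℂ)
  let v : A → E := fun a => WithLp.toLp 1 (fun S θ => (2 ^ A.card : ℂ)⁻¹ * (sg S.1 a : ℂ) *
    ch ((a : ZMod p) * θ))
  obtain ⟨g, hg, hgv⟩ := dual_lemma (E := E) (ι := A) v (fun _ => 1) hC (fun c => by
      obtain ⟨c', hc'⟩ := DualMeas_ext A c
      have h0 := hc' (fun _ => 1)
      simp only [mul_one] at h0
      simp only [mul_one]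
      rw [h0]
      refine (h c').trans (mul_le_mul_of_nonneg_left ?_ hC)
      rw [PiLp.norm_eq_of_L1, RS, bern, ← Finset.sum_coe_sort A.powerset]
      refine Finset.sum_le_sum fun S _ => ?_
      have hS : S.1 ⊆ A := Finset.mem_powerset.1 S.2
      have h4 : (1 / 2 : ℝ) ^ S.1.card * (1 - 1 / 2) ^ (A.card - S.1.card) = (2 ^ A.card : ℝ)⁻¹ := by
        rw [show (1 : ℝ) - 1 / 2 = 1 / 2 by norm_num, ← pow_add,
          Nat.add_sub_cancel' (Finset.card_le_card hS), one_div, inv_pow]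
      rw [h4]
      have h5 : (0 : ℝ) < 2 ^ A.card := by positivity
      rw [inv_mul_le_iff₀ h5]
      refine mx_le fun θ => ?_
      have h6 := norm_le_pi_norm ((∑ i : A, c i • v i : E) S) θ
      have h7 : ((∑ i : A, c i • v i : E) S) θ =
          (2 ^ A.card : ℂ)⁻¹ * ∑ a ∈ A, (sg S.1 a : ℂ) * c' a * ch (a * θ) := by
        have h8 := hc' (fun a => (2 ^ A.card : ℂ)⁻¹ * ((sg S.1 a : ℂ) * ch (a * θ)))
        have h9 : ((∑ i : A, c i • v i : E) S) θ =
            ∑ i : A, c i * ((2 ^ A.card : ℂ)⁻¹ * ((sg S.1 i : ℂ) * ch ((i : ZMod p) * θ))) := by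
          rw [WithLp.ofLp_sum, Finset.sum_apply, Finset.sum_apply]
          refine Finset.sum_congr rfl fun i _ => ?_
          change c i * ((2 ^ A.card : ℂ)⁻¹ * (sg S.1 i : ℂ) * ch ((i : ZMod p) * θ)) = _
          ring
        rw [h9, h8, Finset.mul_sum]
        refine Finset.sum_congr rfl fun a _ => ?_
        ring
      rw [h7, norm_mul, norm_inv, norm_pow] at h6
      simp only [Complex.norm_ofNat] at h6
      rwa [inv_mul_le_iff₀ h5] at h6)
  let φ : A.powerset → (ZMod p → ℂ) →ₗ[ℂ] ℂ := fun S =>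
    (g : E →ₗ[ℂ] ℂ) ∘ₗ (WithLp.linearEquiv 1 ℂ (A.powerset → ZMod p → ℂ)).symm.toLinearMap ∘ₗ
      LinearMap.single ℂ (fun _ : A.powerset => ZMod p → ℂ) S
  have hφ : ∀ S u, φ S u = g (WithLp.toLp 1 (Pi.single S u)) := fun S u => rfl
  have hmain : ∀ S, ∑ x, ‖φ S (Pi.single x 1)‖ ≤ C ∧
      ∀ f : ZMod p → ℂ, φ S f = ∑ x, φ S (Pi.single x 1) * f x := by
    intro S
    refine DualMeas_sup (φ S) fun u hu => ?_
    rw [hφ]
    refine (g.le_opNorm _).trans ?_
    have h3 : ‖u‖ ≤ 1 := (pi_norm_le_iff_of_nonneg zero_le_one).2 hu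
    have h4 : ‖(WithLp.toLp 1 (Pi.single S u) : E)‖ = ‖u‖ := by
      rw [PiLp.norm_eq_of_L1, Finset.sum_eq_single S]
      · simp
      · intro T _ hT
        simp [hT]
      · simp
    rw [h4]
    calc ‖g‖ * ‖u‖ ≤ C * 1 := mul_le_mul hg h3 (norm_nonneg _) hC
      _ = C := mul_one C
  refine ⟨fun S x => if hS : S ∈ A.powerset then φ ⟨S, hS⟩ (Pi.single x 1) else 0, ?_, ?_⟩
  · intro S hS
    have hS' : S ∈ A.powerset := Finset.mem_powerset.2 hS
    simp only [dif_pos hS']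
    exact (hmain ⟨S, hS'⟩).1
  · intro a ha
    have h1 := hgv ⟨a, ha⟩
    have h2 : v ⟨a, ha⟩ = ∑ S, WithLp.toLp 1 (Pi.single S ((v ⟨a, ha⟩) S)) := by
      apply (WithLp.linearEquiv 1 ℂ (A.powerset → ZMod p → ℂ)).injective
      rw [map_sum]
      exact (Finset.univ_sum_single _).symm
    rw [h2, map_sum] at h1
    rw [← Finset.sum_coe_sort A.powerset]
    have h5 : (2 ^ A.card : ℂ) ≠ 0 := pow_ne_zero _ two_ne_zero
    have h6 : ∀ S : A.powerset, (sg S.1 a : ℂ) * ∑ x,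
        (if hS : S.1 ∈ A.powerset then φ ⟨S.1, hS⟩ (Pi.single x 1) else 0) * ch (a * x) =
        2 ^ A.card * g (WithLp.toLp 1 (Pi.single S ((v ⟨a, ha⟩) S))) := by
      intro S
      simp only [dif_pos S.2]
      rw [← hφ, (hmain S).2, Finset.mul_sum, Finset.mul_sum]
      refine Finset.sum_congr rfl fun x _ => ?_
      simp only [v]
      field_simp
    rw [Finset.sum_congr rfl fun S _ => h6 S, ← Finset.mul_sum, h1, mul_one]

end Pool.Agent.Lib.MP_6d8312_an.KD
end
end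

section

/-!
# Walsh functions on the cube

`w_B(S) = ∏_{b∈B} sg S b = (-1)^{|B ∩ S|}`; `sg (symmDiff S T) b = sg S b * sg T b`.
`walsh_orth`: for `S, S' ⊆ A`: `∑_{B⊆A} w_B(S) w_B(S') = ∏_{a∈A} (1 + sg S a sg S' a)` (`Finset.prod_one_add`
or `Finset.prod_add`), which is `2^|A|` if `S = S'` and `0` otherwise.
`walsh_bessel`: `∑_B ‖∑_S w_B(S) F S‖² = ∑_{S,S'} F S conj(F S') ∑_B w_B(S) w_B(S')`.
`walsh_corr`: substitute `T = symmDiff S S'` for fixed `S` (a bijection of `A.powerset`),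
`w_B(T) = w_B(S) w_B(S')`.
-/

set_option autoImplicit false

noncomputable section

namespace Pool.Agent.Lib.MP_6d8312_an.KD

open Finset

variable {p : ℕ} [Fact p.Prime]

/-- Walsh function. -/
def wal (B S : Finset (ZMod p)) : ℝ := ∏ b ∈ B, sg S b

private theorem WalshC_sg_mul (S S' : Finset (ZMod p)) (a : ZMod p) :
    sg S a * sg S' a = sg (symmDiff S S') a := by
  unfold sg
  by_cases h : a ∈ S <;> by_cases h' : a ∈ S' <;> simp [Finset.mem_symmDiff, h, h']

private theorem WalshC_wal_mul (B S S' : Finset (ZMod p)) :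
    wal B S * wal B S' = wal B (symmDiff S S') := by
  unfold wal
  rw [← Finset.prod_mul_distrib]
  exact Finset.prod_congr rfl fun a _ => WalshC_sg_mul S S' a

theorem walsh_orth (A : Finset (ZMod p)) {S S' : Finset (ZMod p)} (hS : S ⊆ A) (hS' : S' ⊆ A) :
    ∑ B ∈ A.powerset, wal B S * wal B S' = if S = S' then 2 ^ A.card else 0 := by
  have h1 : ∑ B ∈ A.powerset, wal B S * wal B S' = ∏ a ∈ A, (1 + sg (symmDiff S S') a) := by
    rw [Finset.prod_one_add]
    exact Finset.sum_congr rfl fun B _ => WalshC_wal_mul B S S'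
  rw [h1]
  split_ifs with h
  · subst h
    rw [symmDiff_self]
    have : ∀ a ∈ A, (1 + sg (⊥ : Finset (ZMod p)) a) = 2 := by
      intro a _
      unfold sg
      rw [Finset.bot_eq_empty, if_neg (Finset.notMem_empty a)]
      norm_num
    rw [Finset.prod_congr rfl this, Finset.prod_const]
  · have hne : (symmDiff S S').Nonempty := by
      rw [Finset.nonempty_iff_ne_empty]
      intro he
      exact h (symmDiff_eq_bot.mp he)
    obtain ⟨a, ha⟩ := hne
    have haA : a ∈ A := by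
      rcases Finset.mem_symmDiff.mp ha with h1 | h1
      · exact hS h1.1
      · exact hS' h1.1
    apply Finset.prod_eq_zero haA
    unfold sg
    rw [if_pos ha]
    norm_num

theorem walsh_bessel (A : Finset (ZMod p)) (F : Finset (ZMod p) → ℂ) :
    ∑ B ∈ A.powerset, ‖∑ S ∈ A.powerset, (wal B S : ℂ) * F S‖ ^ 2 =
      2 ^ A.card * ∑ S ∈ A.powerset, ‖F S‖ ^ 2 := by
  have key : ((∑ B ∈ A.powerset, ‖∑ S ∈ A.powerset, (wal B S : ℂ) * F S‖ ^ 2 : ℝ) : ℂ) =
      ((2 ^ A.card * ∑ S ∈ A.powerset, ‖F S‖ ^ 2 : ℝ) : ℂ) := by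
    push_cast
    have h1 : ∀ B : Finset (ZMod p), ((‖∑ S ∈ A.powerset, (wal B S : ℂ) * F S‖ : ℂ)) ^ 2 =
        ∑ S ∈ A.powerset, ∑ S' ∈ A.powerset, ((wal B S * wal B S' : ℝ) : ℂ) *
          (F S * (starRingEnd ℂ) (F S')) := by
      intro B
      rw [← Complex.mul_conj', map_sum, Finset.sum_mul_sum]
      refine Finset.sum_congr rfl fun S _ => Finset.sum_congr rfl fun S' _ => ?_
      rw [map_mul, Complex.conj_ofReal]
      push_cast
      ring
    simp only [h1]
    rw [Finset.sum_comm]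
    rw [Finset.mul_sum]
    refine Finset.sum_congr rfl fun S hS => ?_
    rw [Finset.sum_comm]
    have h2 : ∀ S' ∈ A.powerset, ∑ B ∈ A.powerset, ((wal B S * wal B S' : ℝ) : ℂ) *
        (F S * (starRingEnd ℂ) (F S')) =
        if S = S' then (2 ^ A.card : ℂ) * (F S * (starRingEnd ℂ) (F S')) else 0 := by
      intro S' hS'
      rw [← Finset.sum_mul, ← Complex.ofReal_sum,
        walsh_orth A (Finset.mem_powerset.mp hS) (Finset.mem_powerset.mp hS')]
      split_ifs
      · push_cast; ring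
      · simp
    rw [Finset.sum_congr rfl h2, Finset.sum_ite_eq, if_pos hS, Complex.mul_conj']
  exact_mod_cast key

theorem walsh_corr (A B : Finset (ZMod p)) (hB : B ⊆ A) (F : Finset (ZMod p) → ℂ) :
    ∑ T ∈ A.powerset, ∑ S ∈ A.powerset, (wal B T : ℂ) *
      (F S * (starRingEnd ℂ) (F (symmDiff S T))) =
      ((‖∑ S ∈ A.powerset, (wal B S : ℂ) * F S‖ ^ 2 : ℝ) : ℂ) := by
  push_cast
  rw [← Complex.mul_conj', map_sum, Finset.sum_mul_sum, Finset.sum_comm]
  refine Finset.sum_congr rfl fun S hS => ?_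
  refine Finset.sum_nbij' (fun T => symmDiff S T) (fun T => symmDiff S T) ?_ ?_ ?_ ?_ ?_
  · intro T hT
    rw [Finset.mem_powerset] at *
    intro a ha
    rcases Finset.mem_symmDiff.mp ha with h1 | h1
    · exact hS h1.1
    · exact hT h1.1
  · intro T hT
    rw [Finset.mem_powerset] at *
    intro a ha
    rcases Finset.mem_symmDiff.mp ha with h1 | h1
    · exact hS h1.1
    · exact hT h1.1
  · intro T _
    exact symmDiff_symmDiff_cancel_left S T
  · intro T _
    exact symmDiff_symmDiff_cancel_left S T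
  · intro T _
    have h1 : wal B T = wal B S * wal B (symmDiff S T) := by
      rw [WalshC_wal_mul, symmDiff_symmDiff_cancel_left]
    rw [h1, map_mul, Complex.conj_ofReal]
    push_cast
    ring

end Pool.Agent.Lib.MP_6d8312_an.KD
end
end

section

/-!
# Rider's theorem, part A: the functional

Fix `u : ZMod p → ℂ` with `‖u b‖ ≤ 1`, `δ ∈ [0,1]`, `m : Finset → ZMod p → ℂ`, `M S γ = ∑_x m S x ch(γ x)`, and
`Lam γ = (1/(4^|A| p)) ∑_τ ∑_T ∑_S ∏_{b∈A} (1 + δ sg T b Re (u b ch(bτ))) ch(γτ) M S γ conj (M (S∆T) γ)`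
(`T, S ⊆ A`).
`Lam_bound`: `∑_a c a Lam a = (1/(4^|A| p)) ∑_{τ,T,S} ∏(..) ∑_{x,y} m S x conj(m (S∆T) y) f(τ+x-y)`,
`f(θ) = ∑_a c a ch(aθ)` (`conj (ch(a y)) = ch(-(a y))`), the product is `≥ 0`, so the norm is
`≤ C² mx‖f‖ (1/(2^|A| p)) ∑_{τ,T} ∏(..) = C² mx ‖f‖` (for fixed `τ` the average over `T` of the product
is `1`: induction on `A`; there are `2^|A|` sets `S`).
`Lam_eq`: expand the product over `B ⊆ A` (`Finset.prod_one_add`/`prod_add`): `∏ (1 + δ sg T b Y_b) =
∑_B δ^|B| wal B T ∏_{b∈B} Y_b`; then `walsh_corr`: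
`Lam γ = ∑_B δ^|B| (av_τ ∏_{b∈B} Re (u b ch(bτ)) ch(γτ)) ‖2^{-|A|} ∑_S wal B S M S γ‖²`.
-/

set_option autoImplicit false

noncomputable section

namespace Pool.Agent.Lib.MP_6d8312_an.KD

open Finset

variable {p : ℕ} [Fact p.Prime]

/-- The transform of `m S`. -/
def Mh (m : Finset (ZMod p) → ZMod p → ℂ) (S : Finset (ZMod p)) (γ : ZMod p) : ℂ :=
  ∑ x, m S x * ch (γ * x)

/-- The functional. -/
def Lam (A : Finset (ZMod p)) (δ : ℝ) (u : ZMod p → ℂ) (m : Finset (ZMod p) → ZMod p → ℂ)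
    (γ : ZMod p) : ℂ :=
  (∑ τ, ∑ T ∈ A.powerset, ∑ S ∈ A.powerset,
    ((∏ b ∈ A, (1 + δ * sg T b * (u b * ch (b * τ)).re) : ℝ) : ℂ) * ch (γ * τ) *
      (Mh m S γ * (starRingEnd ℂ) (Mh m (symmDiff S T) γ))) / (4 ^ A.card * p)

private theorem RiderA_sum_T (A : Finset (ZMod p)) (Y : ZMod p → ℝ) (δ : ℝ) :
    ∑ T ∈ A.powerset, ∏ b ∈ A, (1 + δ * sg T b * Y b) = 2 ^ A.card := by
  have h1 : ∀ T ∈ A.powerset, ∏ b ∈ A, (1 + δ * sg T b * Y b) =
      (∏ b ∈ T, (1 - δ * Y b)) * ∏ b ∈ A \ T, (1 + δ * Y b) := by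
    intro T hT
    rw [Finset.mem_powerset] at hT
    rw [← Finset.prod_sdiff hT, mul_comm]
    congr 1
    · refine Finset.prod_congr rfl fun b hb => ?_
      rw [sg, if_pos hb]
      ring
    · refine Finset.prod_congr rfl fun b hb => ?_
      rw [sg, if_neg (Finset.mem_sdiff.1 hb).2]
      ring
  rw [Finset.sum_congr rfl h1, ← Finset.prod_add]
  rw [Finset.prod_congr rfl (fun b _ => show (1 - δ * Y b) + (1 + δ * Y b) = 2 by ring),
    Finset.prod_const]

private theorem RiderA_inner (A : Finset (ZMod p)) (m m' : ZMod p → ℂ) (c : ZMod p → ℂ)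
    (τ : ZMod p) :
    ∑ a ∈ A, c a * (ch (a * τ) * ((∑ x, m x * ch (a * x)) *
      (starRingEnd ℂ) (∑ y, m' y * ch (a * y)))) =
    ∑ x, ∑ y, m x * (starRingEnd ℂ) (m' y) * ∑ a ∈ A, c a * ch (a * (τ + x - y)) := by
  have h1 : ∀ a ∈ A, c a * (ch (a * τ) * ((∑ x, m x * ch (a * x)) *
      (starRingEnd ℂ) (∑ y, m' y * ch (a * y)))) =
      ∑ x, ∑ y, m x * (starRingEnd ℂ) (m' y) * (c a * ch (a * (τ + x - y))) := by
    intro a _
    rw [map_sum, Finset.sum_mul_sum, Finset.mul_sum, Finset.mul_sum]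
    refine Finset.sum_congr rfl fun x _ => ?_
    rw [Finset.mul_sum, Finset.mul_sum]
    refine Finset.sum_congr rfl fun y _ => ?_
    rw [map_mul, ← ch_neg, show a * (τ + x - y) = a * τ + a * x + -(a * y) by ring, ch_add, ch_add]
    ring
  rw [Finset.sum_congr rfl h1, Finset.sum_comm]
  refine Finset.sum_congr rfl fun x _ => ?_
  rw [Finset.sum_comm]
  refine Finset.sum_congr rfl fun y _ => ?_
  rw [Finset.mul_sum]

private theorem RiderA_inner_le (A : Finset (ZMod p)) {C : ℝ} (m m' : ZMod p → ℂ)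
    (c : ZMod p → ℂ) (hm : ∑ x, ‖m x‖ ≤ C) (hm' : ∑ x, ‖m' x‖ ≤ C) (τ : ZMod p) :
    ‖∑ a ∈ A, c a * (ch (a * τ) * ((∑ x, m x * ch (a * x)) *
      (starRingEnd ℂ) (∑ y, m' y * ch (a * y))))‖ ≤
      C ^ 2 * mx (fun θ => ‖∑ a ∈ A, c a * ch (a * θ)‖) := by
  rw [RiderA_inner]
  set Mx := mx (fun θ => ‖∑ a ∈ A, c a * ch (a * θ)‖) with hMx
  have hM0 : 0 ≤ Mx := le_trans (norm_nonneg _) (le_mx (fun θ => ‖∑ a ∈ A, c a * ch (a * θ)‖) 0)
  have hC : 0 ≤ C := le_trans (Finset.sum_nonneg fun x _ => norm_nonneg _) hm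
  calc ‖∑ x, ∑ y, m x * (starRingEnd ℂ) (m' y) * ∑ a ∈ A, c a * ch (a * (τ + x - y))‖
      ≤ ∑ x, ∑ y, ‖m x‖ * ‖m' y‖ * Mx := by
        refine (norm_sum_le _ _).trans (Finset.sum_le_sum fun x _ => ?_)
        refine (norm_sum_le _ _).trans (Finset.sum_le_sum fun y _ => ?_)
        rw [norm_mul, norm_mul, RCLike.norm_conj]
        exact mul_le_mul_of_nonneg_left
          (le_mx (fun θ => ‖∑ a ∈ A, c a * ch (a * θ)‖) (τ + x - y))
          (mul_nonneg (norm_nonneg _) (norm_nonneg _))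
    _ = (∑ x, ‖m x‖) * (∑ y, ‖m' y‖) * Mx := by
        rw [Finset.sum_mul_sum, Finset.sum_mul]
        refine Finset.sum_congr rfl fun x _ => ?_
        rw [Finset.sum_mul]
    _ ≤ C * C * Mx := by
        refine mul_le_mul_of_nonneg_right ?_ hM0
        exact mul_le_mul hm hm' (Finset.sum_nonneg fun x _ => norm_nonneg _) hC
    _ = C ^ 2 * Mx := by ring

theorem Lam_bound (A : Finset (ZMod p)) {δ C : ℝ} (h0 : 0 ≤ δ) (h1 : δ ≤ 1) (u : ZMod p → ℂ)
    (hu : ∀ b ∈ A, ‖u b‖ ≤ 1) (m : Finset (ZMod p) → ZMod p → ℂ)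
    (hm : ∀ S ⊆ A, ∑ x, ‖m S x‖ ≤ C) (c : ZMod p → ℂ) :
    ‖∑ a ∈ A, c a * Lam A δ u m a‖ ≤ C ^ 2 * mx (fun θ => ‖∑ a ∈ A, c a * ch (a * θ)‖) := by
  set Mx := mx (fun θ => ‖∑ a ∈ A, c a * ch (a * θ)‖) with hMx
  set W : ZMod p → Finset (ZMod p) → ℝ := fun τ T =>
    ∏ b ∈ A, (1 + δ * sg T b * (u b * ch (b * τ)).re) with hW
  have hp : (0 : ℝ) < p := p_pos
  have hW0 : ∀ τ T, 0 ≤ W τ T := by
    intro τ T
    refine Finset.prod_nonneg fun b hb => ?_
    have h2 := abs_re_ch_le (u b) (hu b hb) (b * τ)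
    have h3 : |sg T b| = 1 := by
      unfold sg
      split_ifs <;> simp
    have h4 : |δ * sg T b * (u b * ch (b * τ)).re| ≤ 1 := by
      rw [abs_mul, abs_mul, h3, mul_one, abs_of_nonneg h0]
      calc δ * |(u b * ch (b * τ)).re| ≤ 1 * 1 :=
            mul_le_mul h1 h2 (abs_nonneg _) zero_le_one
        _ = 1 := one_mul 1
    have h5 := (abs_le.1 h4).1
    linarith
  have hWs : ∀ τ, ∑ T ∈ A.powerset, W τ T = 2 ^ A.card := fun τ =>
    RiderA_sum_T A (fun b => (u b * ch (b * τ)).re) δ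
  have hexp : ∑ a ∈ A, c a * Lam A δ u m a =
      (∑ τ, ∑ T ∈ A.powerset, ∑ S ∈ A.powerset, (W τ T : ℂ) *
        ∑ a ∈ A, c a * (ch (a * τ) * (Mh m S a * (starRingEnd ℂ) (Mh m (symmDiff S T) a)))) /
        (4 ^ A.card * p) := by
    unfold Lam
    simp_rw [← mul_div_assoc]
    rw [← Finset.sum_div]
    congr 1
    simp_rw [Finset.mul_sum]
    rw [Finset.sum_comm]
    refine Finset.sum_congr rfl fun τ _ => ?_
    rw [Finset.sum_comm]
    refine Finset.sum_congr rfl fun T _ => ?_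
    rw [Finset.sum_comm]
    refine Finset.sum_congr rfl fun S _ => ?_
    refine Finset.sum_congr rfl fun a _ => ?_
    simp only [hW]
    ring
  rw [hexp, norm_div]
  have hden : ‖((4 : ℂ) ^ A.card * p)‖ = 4 ^ A.card * p := by
    rw [norm_mul, norm_pow, Complex.norm_natCast]
    congr 2
    simp
  rw [hden, div_le_iff₀ (by positivity)]
  calc ‖∑ τ, ∑ T ∈ A.powerset, ∑ S ∈ A.powerset, (W τ T : ℂ) *
        ∑ a ∈ A, c a * (ch (a * τ) * (Mh m S a * (starRingEnd ℂ) (Mh m (symmDiff S T) a)))‖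
      ≤ ∑ τ : ZMod p, ∑ T ∈ A.powerset, ∑ S ∈ A.powerset, W τ T * (C ^ 2 * Mx) := by
        refine (norm_sum_le _ _).trans (Finset.sum_le_sum fun τ _ => ?_)
        refine (norm_sum_le _ _).trans (Finset.sum_le_sum fun T hT => ?_)
        refine (norm_sum_le _ _).trans (Finset.sum_le_sum fun S hS => ?_)
        rw [norm_mul, Complex.norm_real, Real.norm_of_nonneg (hW0 τ T)]
        refine mul_le_mul_of_nonneg_left ?_ (hW0 τ T)
        rw [Finset.mem_powerset] at hT hS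
        refine RiderA_inner_le A (m S) (m (symmDiff S T)) c (hm S hS) (hm _ ?_) τ
        intro x hx
        rw [Finset.mem_symmDiff] at hx
        rcases hx with hx | hx
        · exact hS hx.1
        · exact hT hx.1
    _ = C ^ 2 * Mx * (4 ^ A.card * p) := by
        have h6 : ∀ τ : ZMod p, ∑ T ∈ A.powerset, ∑ S ∈ A.powerset, W τ T * (C ^ 2 * Mx) =
            2 ^ A.card * (2 ^ A.card * (C ^ 2 * Mx)) := by
          intro τ
          simp_rw [Finset.sum_const, Finset.card_powerset, nsmul_eq_mul]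
          rw [← Finset.mul_sum, ← Finset.sum_mul, hWs]
          push_cast
          ring
        rw [Finset.sum_congr rfl fun τ _ => h6 τ, Finset.sum_const, Finset.card_univ, ZMod.card,
          nsmul_eq_mul, show (4 : ℝ) = 2 * 2 by norm_num, mul_pow]
        ring

theorem Lam_eq (A : Finset (ZMod p)) (δ : ℝ) (u : ZMod p → ℂ)
    (m : Finset (ZMod p) → ZMod p → ℂ) (γ : ZMod p) :
    Lam A δ u m γ = ∑ B ∈ A.powerset, (δ : ℂ) ^ B.card *
      ((∑ τ, ((∏ b ∈ B, (u b * ch (b * τ)).re : ℝ) : ℂ) * ch (γ * τ)) / p) *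
      (((‖∑ S ∈ A.powerset, (wal B S : ℂ) * Mh m S γ‖ ^ 2 : ℝ) : ℂ) / 4 ^ A.card) := by
  have hprod : ∀ (τ : ZMod p) (T : Finset (ZMod p)),
      ∏ b ∈ A, (1 + δ * sg T b * (u b * ch (b * τ)).re) =
      ∑ B ∈ A.powerset, δ ^ B.card * wal B T * ∏ b ∈ B, (u b * ch (b * τ)).re := by
    intro τ T
    rw [Finset.prod_one_add]
    refine Finset.sum_congr rfl fun B _ => ?_
    rw [Finset.prod_mul_distrib, Finset.prod_mul_distrib, Finset.prod_const]
    rfl
  unfold Lam
  have h1 : ∀ (τ : ZMod p) (T S : Finset (ZMod p)),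
      ((∏ b ∈ A, (1 + δ * sg T b * (u b * ch (b * τ)).re) : ℝ) : ℂ) * ch (γ * τ) *
      (Mh m S γ * (starRingEnd ℂ) (Mh m (symmDiff S T) γ)) =
      ∑ B ∈ A.powerset, (δ : ℂ) ^ B.card *
        (((∏ b ∈ B, (u b * ch (b * τ)).re : ℝ) : ℂ) * ch (γ * τ)) *
        ((wal B T : ℂ) * (Mh m S γ * (starRingEnd ℂ) (Mh m (symmDiff S T) γ))) := by
    intro τ T S
    rw [hprod]
    push_cast
    rw [Finset.sum_mul, Finset.sum_mul]
    refine Finset.sum_congr rfl fun B _ => ?_
    ring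
  have h2 : (∑ τ, ∑ T ∈ A.powerset, ∑ S ∈ A.powerset,
      ((∏ b ∈ A, (1 + δ * sg T b * (u b * ch (b * τ)).re) : ℝ) : ℂ) * ch (γ * τ) *
      (Mh m S γ * (starRingEnd ℂ) (Mh m (symmDiff S T) γ))) =
      ∑ B ∈ A.powerset, ∑ τ, ∑ T ∈ A.powerset, ∑ S ∈ A.powerset, (δ : ℂ) ^ B.card *
        (((∏ b ∈ B, (u b * ch (b * τ)).re : ℝ) : ℂ) * ch (γ * τ)) *
        ((wal B T : ℂ) * (Mh m S γ * (starRingEnd ℂ) (Mh m (symmDiff S T) γ))) := by
    symm
    rw [Finset.sum_comm]
    refine Finset.sum_congr rfl fun τ _ => ?_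
    rw [Finset.sum_comm]
    refine Finset.sum_congr rfl fun T _ => ?_
    rw [Finset.sum_comm]
    refine Finset.sum_congr rfl fun S _ => ?_
    exact (h1 τ T S).symm
  rw [h2, Finset.sum_div]
  refine Finset.sum_congr rfl fun B hB => ?_
  rw [Finset.mem_powerset] at hB
  rw [← walsh_corr A B hB (fun S => Mh m S γ)]
  have h3 : ∑ τ, ∑ T ∈ A.powerset, ∑ S ∈ A.powerset, (δ : ℂ) ^ B.card *
        (((∏ b ∈ B, (u b * ch (b * τ)).re : ℝ) : ℂ) * ch (γ * τ)) *
        ((wal B T : ℂ) * (Mh m S γ * (starRingEnd ℂ) (Mh m (symmDiff S T) γ))) =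
      (δ : ℂ) ^ B.card * (∑ τ, ((∏ b ∈ B, (u b * ch (b * τ)).re : ℝ) : ℂ) * ch (γ * τ)) *
        ∑ T ∈ A.powerset, ∑ S ∈ A.powerset,
          (wal B T : ℂ) * (Mh m S γ * (starRingEnd ℂ) (Mh m (symmDiff S T) γ)) := by
    simp_rw [← Finset.mul_sum, ← Finset.sum_mul]
    rw [Finset.mul_sum (f := fun τ => ((∏ b ∈ B, (u b * ch (b * τ)).re : ℝ) : ℂ) * ch (γ * τ))]
  rw [h3]
  have hp : (p : ℂ) ≠ 0 := by exact_mod_cast (Fact.out : p.Prime).ne_zero
  generalize (∑ τ, ((∏ b ∈ B, (u b * ch (b * τ)).re : ℝ) : ℂ) * ch (γ * τ)) = X1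
  generalize (∑ T ∈ A.powerset, ∑ S ∈ A.powerset,
          (wal B T : ℂ) * (Mh m S γ * (starRingEnd ℂ) (Mh m (symmDiff S T) γ))) = X2
  field_simp

end Pool.Agent.Lib.MP_6d8312_an.KD
end
end

section

/-! # Uniqueness of signed sums -/

set_option autoImplicit false

noncomputable section

namespace Pool.Agent.Lib.MP_6d8312_an.Q

theorem ss_unique {E : Set ℤ} (hE : Dissociate E) {G G' : Finset ℤ} {s s' : ℤ → ℤ}
    (hG : (G : Set ℤ) ⊆ E) (hG' : (G' : Set ℤ) ⊆ E) (hs : IsSign s) (hs' : IsSign s')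
    (h : SS s G = SS s' G') : G = G' ∧ ∀ x ∈ G, s x = s' x := by
  classical
  set c : ℤ → ℤ := fun x => (if x ∈ G then s x else 0) - (if x ∈ G' then s' x else 0) with hc
  have hsum : ∑ x ∈ G ∪ G', c x * x = 0 := by
    have h1 : ∑ x ∈ G ∪ G', (if x ∈ G then s x * x else 0) = SS s G := by
      rw [← Finset.sum_filter]
      unfold SS
      refine Finset.sum_congr ?_ fun _ _ => rfl
      ext x
      simp only [Finset.mem_filter, Finset.mem_union]
      tauto
    have h2 : ∑ x ∈ G ∪ G', (if x ∈ G' then s' x * x else 0) = SS s' G' := by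
      rw [← Finset.sum_filter]
      unfold SS
      refine Finset.sum_congr ?_ fun _ _ => rfl
      ext x
      simp only [Finset.mem_filter, Finset.mem_union]
      tauto
    have h3 : ∀ x ∈ G ∪ G', c x * x =
        (if x ∈ G then s x * x else 0) - (if x ∈ G' then s' x * x else 0) := by
      intro x _
      simp only [hc]
      split_ifs <;> ring
    rw [Finset.sum_congr rfl h3, Finset.sum_sub_distrib, h1, h2, h, sub_self]
  have hbd : ∀ x ∈ G ∪ G', |c x| ≤ 2 := by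
    intro x _
    simp only [hc]
    rcases hs x with h1 | h1 <;> rcases hs' x with h2 | h2 <;> rw [h1, h2] <;>
      split_ifs <;> norm_num
  have hsub : ((G ∪ G' : Finset ℤ) : Set ℤ) ⊆ E := by
    rw [Finset.coe_union]
    exact Set.union_subset hG hG'
  have hzero := hE (G ∪ G') c hsub hbd hsum
  have hne : ∀ x, s x ≠ 0 := by
    intro x
    rcases hs x with h1 | h1 <;> rw [h1] <;> norm_num
  have hne' : ∀ x, s' x ≠ 0 := by
    intro x
    rcases hs' x with h1 | h1 <;> rw [h1] <;> norm_num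
  have hGG : ∀ x, x ∈ G ↔ x ∈ G' := by
    intro x
    constructor
    · intro hx
      by_contra hx'
      have h1 := hzero x (Finset.mem_union_left _ hx)
      simp only [hc, hx, hx', if_true, if_false, sub_zero] at h1
      exact hne x h1
    · intro hx
      by_contra hx'
      have h1 := hzero x (Finset.mem_union_right _ hx)
      simp only [hc, hx, hx', if_true, if_false, zero_sub] at h1
      exact hne' x (neg_eq_zero.1 h1)
  refine ⟨Finset.ext hGG, fun x hx => ?_⟩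
  have h1 := hzero x (Finset.mem_union_left _ hx)
  simp only [hc, hx, (hGG x).1 hx, if_true] at h1
  linarith

theorem ss_ne_zero {E : Set ℤ} (hE : Dissociate E) {G : Finset ℤ} {s : ℤ → ℤ}
    (hG : (G : Set ℤ) ⊆ E) (hs : IsSign s) (hne : G.Nonempty) : SS s G ≠ 0 := by
  intro h
  have h1 := ss_unique hE hG (G' := ∅) (by simp) hs hs (by rw [h]; simp [SS])
  exact hne.ne_empty h1.1

theorem ss_neg (s : ℤ → ℤ) (G : Finset ℤ) : SS (fun x => -s x) G = -SS s G := by
  unfold SS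
  rw [← Finset.sum_neg_distrib]
  exact Finset.sum_congr rfl fun x _ => by ring

theorem signedSums_finite (F : Finset ℤ) (k : ℕ) : (SignedSums (F : Set ℤ) k).Finite := by
  refine (Set.finite_Icc (-(∑ x ∈ F, |x|)) (∑ x ∈ F, |x|)).subset ?_
  rintro n ⟨G, s, hG, _, hs, rfl⟩
  have h1 : |SS s G| ≤ ∑ x ∈ F, |x| := by
    unfold SS
    refine (Finset.abs_sum_le_sum_abs _ _).trans ?_
    have h2 : ∀ x ∈ G, |s x * x| = |x| := by
      intro x _
      rcases hs x with h | h <;> rw [h] <;> simp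
    rw [Finset.sum_congr rfl h2]
    exact Finset.sum_le_sum_of_subset_of_nonneg (by exact_mod_cast hG) fun x _ _ => abs_nonneg x
  exact abs_le.1 h1

theorem part_finite (Λ : Set ℤ) (F : Finset ℤ) (k : ℕ) : (Part Λ F k).Finite :=
  (signedSums_finite F k).subset fun _ h => h.2.2

end Pool.Agent.Lib.MP_6d8312_an.Q
end
end

section

/-! # Classes of signed sums -/

set_option autoImplicit false

noncomputable section

namespace Pool.Agent.Lib.MP_6d8312_an.Q

/-- A finite class `C` of signed sums `l = ∑_{x ∈ G l} s_l(x) x`, each with an element `o l` of its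
support `G l` that is in the support of no other member of the class. -/
structure Cls (E : Set ℤ) (k : ℕ) where
  C : Finset ℤ
  V : Finset ℤ
  G : ℤ → Finset ℤ
  s : ℤ → ℤ → ℤ
  o : ℤ → ℤ
  hV : (V : Set ℤ) ⊆ E
  hG : ∀ l ∈ C, G l ⊆ V
  hk : ∀ l ∈ C, (G l).card ≤ k
  hs : ∀ l ∈ C, IsSign (s l)
  hl : ∀ l ∈ C, l = SS (s l) (G l)
  ho : ∀ l ∈ C, o l ∈ G l
  hd : ∀ l ∈ C, ∀ l' ∈ C, l ≠ l' → o l ∉ G l'

/-- `z` or its conjugate. -/
def sgn (τ : ℤ) (z : ℂ) : ℂ := if τ = 1 then z else (starRingEnd ℂ) z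

variable {E : Set ℤ} {k : ℕ}

/-- The members of the class whose owned element is in `G`. -/
def Cls.B (c : Cls E k) (G : Finset ℤ) : Finset ℤ := c.C.filter (fun l => c.o l ∈ G)

/-- The elements of `V` that no member of the class owns. -/
def Cls.Fr (c : Cls E k) : Finset ℤ := c.V \ c.C.image c.o

/-- The coefficients of the Riesz product. -/
def Cls.cf (c : Cls E k) (ρ : ℝ) (ε z : ℤ → ℂ) (x : ℤ) : ℂ :=
  if x ∈ c.C.image c.o then
    ∑ l ∈ c.C.filter (fun l => c.o l = x),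
      sgn (c.s l x) ((ρ : ℂ) * ε l * ∏ y ∈ (c.G l).erase x, sgn (c.s l y) (z y))
  else (starRingEnd ℂ) (z x)

/-- The exponent of `z y`. -/
def Cls.ex (c : Cls E k) (s : ℤ → ℤ) (G : Finset ℤ) (y : ℤ) : ℤ :=
  -(if y ∈ G then s y else 0) +
    ∑ l ∈ c.B G, s (c.o l) * c.s l (c.o l) * (if y ∈ c.G l then c.s l y else 0)

/-- The product of the targets. -/
def Cls.am (c : Cls E k) (ε : ℤ → ℂ) (s : ℤ → ℤ) (G : Finset ℤ) : ℂ :=
  ∏ l ∈ c.B G, sgn (s (c.o l) * c.s l (c.o l)) (ε l)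

/-- A point of the finite torus. -/
def zu {A : Finset ℤ} (q : ℕ) (u : A → Fin q) (x : ℤ) : ℂ :=
  if h : x ∈ A then e ((((u ⟨x, h⟩ : Fin q) : ℕ) : ℝ) / (q : ℝ)) else 1

end Pool.Agent.Lib.MP_6d8312_an.Q
end
end

section

/-! # The average of a monomial over the finite torus -/

set_option autoImplicit false

noncomputable section

namespace Pool.Agent.Lib.MP_6d8312_an.Q

theorem norm_zu {A : Finset ℤ} (q : ℕ) (u : A → Fin q) (x : ℤ) : ‖zu q u x‖ = 1 := by
  unfold zu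
  split_ifs
  · exact norm_e _
  · exact norm_one

private theorem avgMono_zpow (x : ℝ) (n : ℤ) : e x ^ n = e (n * x) := by
  unfold e
  rw [← Complex.exp_int_mul]
  congr 1
  push_cast
  ring

theorem avg_mono (A : Finset ℤ) (q : ℕ) (hq : 0 < q) (m : ℤ → ℤ)
    (hm : ∀ y ∈ A, |m y| < (q : ℤ)) :
    ∑ u : A → Fin q, ∏ y ∈ A, zu q u y ^ m y =
      if ∀ y ∈ A, m y = 0 then (q : ℂ) ^ A.card else 0 := by
  classical
  have hqC : (q : ℂ) ≠ 0 := by exact_mod_cast hq.ne'
  have h1 : ∀ u : A → Fin q, ∏ y ∈ A, zu q u y ^ m y =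
      ∏ y : A, e ((m y : ℝ) * (((u y : Fin q) : ℕ) / (q : ℝ))) := by
    intro u
    rw [← Finset.prod_coe_sort A (fun y => zu q u y ^ m y)]
    refine Finset.prod_congr rfl fun y _ => ?_
    have h2 : zu q u (y : ℤ) = e ((((u y : Fin q) : ℕ) : ℝ) / (q : ℝ)) := by
      unfold zu
      rw [dif_pos y.2]
    rw [h2, avgMono_zpow]
  simp_rw [h1]
  have h2 := Finset.prod_univ_sum (fun _ : A => (Finset.univ : Finset (Fin q)))
    (fun (y : A) (j : Fin q) => e ((m y : ℝ) * ((j : ℕ) / (q : ℝ))))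
  rw [Fintype.piFinset_univ] at h2
  rw [← h2]
  have h3 : ∀ y : A, ∑ j : Fin q, e ((m y : ℝ) * ((j : ℕ) / (q : ℝ))) =
      if m y = 0 then (q : ℂ) else 0 := by
    intro y
    have h4 := tps_sum_e_div q hq (m y) (hm y y.2)
    have h5 : ∑ j : Fin q, e ((m y : ℝ) * ((j : ℕ) / (q : ℝ))) =
        (q : ℂ) * ((1 / (q : ℂ)) * ∑ j : Fin q, e ((m y : ℝ) * ((j : ℕ) / (q : ℝ)))) := by
      field_simp
    rw [h5, h4]
    split_ifs <;> simp
  rw [Finset.prod_congr rfl fun y _ => h3 y]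
  rw [Finset.prod_coe_sort A (fun y => if m y = 0 then (q : ℂ) else 0), Finset.prod_ite_zero]
  simp

end Pool.Agent.Lib.MP_6d8312_an.Q
end
end

section

/-! # The combinatorics of a class -/

set_option autoImplicit false

noncomputable section

namespace Pool.Agent.Lib.MP_6d8312_an.Q

variable {E : Set ℤ} {k : ℕ}

theorem Combi_o_inj (c : Cls E k) {l l' : ℤ} (hl : l ∈ c.C) (hl' : l' ∈ c.C)
    (h : c.o l = c.o l') : l = l' := by
  by_contra hne
  exact c.hd l hl l' hl' hne (h ▸ c.ho l' hl')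

theorem Combi_abs_sign {s : ℤ → ℤ} (hs : IsSign s) (x : ℤ) : |s x| = 1 := by
  rcases hs x with h | h <;> simp [h]

theorem Combi_sq_sign {s : ℤ → ℤ} (hs : IsSign s) (x : ℤ) : s x * s x = 1 := by
  rcases hs x with h | h <;> simp [h]

theorem card_B_le (c : Cls E k) (G : Finset ℤ) : (c.B G).card ≤ G.card := by
  apply Finset.card_le_card_of_injOn c.o
  · intro l hl
    exact (Finset.mem_filter.1 hl).2
  · intro l hl l' hl' h
    exact Combi_o_inj c (Finset.mem_filter.1 hl).1 (Finset.mem_filter.1 hl').1 h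

theorem abs_ex_le (c : Cls E k) (G : Finset ℤ) (hk : G.card ≤ k) (s : ℤ → ℤ) (hs : IsSign s)
    (y : ℤ) : |c.ex s G y| ≤ k + 1 := by
  have h1 : |(if y ∈ G then s y else 0 : ℤ)| ≤ 1 := by
    split
    · exact (Combi_abs_sign hs y).le
    · simp
  have h2 : |∑ l ∈ c.B G, s (c.o l) * c.s l (c.o l) * (if y ∈ c.G l then c.s l y else 0)| ≤ k := by
    refine (Finset.abs_sum_le_sum_abs _ _).trans ?_
    calc ∑ l ∈ c.B G, |s (c.o l) * c.s l (c.o l) * (if y ∈ c.G l then c.s l y else 0)|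
        ≤ ∑ _l ∈ c.B G, (1 : ℤ) := by
          refine Finset.sum_le_sum fun l hl => ?_
          have hsl := c.hs l (Finset.mem_filter.1 hl).1
          rw [abs_mul, abs_mul, Combi_abs_sign hs, Combi_abs_sign hsl, one_mul, one_mul]
          split
          · exact (Combi_abs_sign hsl y).le
          · simp
      _ = (c.B G).card := by simp
      _ ≤ k := by exact_mod_cast (card_B_le c G).trans hk
  unfold Cls.ex
  calc _ ≤ |-(if y ∈ G then s y else 0 : ℤ)| +
        |∑ l ∈ c.B G, s (c.o l) * c.s l (c.o l) * (if y ∈ c.G l then c.s l y else 0)| :=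
        abs_add_le _ _
    _ ≤ 1 + k := by rw [abs_neg]; exact add_le_add h1 h2
    _ = k + 1 := add_comm _ _

theorem B_self (c : Cls E k) {l : ℤ} (hl : l ∈ c.C) : c.B (c.G l) = {l} := by
  ext l'
  unfold Cls.B
  rw [Finset.mem_filter, Finset.mem_singleton]
  constructor
  · rintro ⟨h1, h2⟩
    by_contra hne
    exact c.hd l' h1 l hl hne h2
  · rintro rfl
    exact ⟨hl, c.ho _ hl⟩

theorem ex_self (c : Cls E k) {l : ℤ} (hl : l ∈ c.C) (y : ℤ) :
    c.ex (c.s l) (c.G l) y = 0 ∧ c.ex (fun x => -c.s l x) (c.G l) y = 0 := by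
  have h := Combi_sq_sign (c.hs l hl) (c.o l)
  unfold Cls.ex
  rw [B_self c hl, Finset.sum_singleton, Finset.sum_singleton, neg_mul, h]
  constructor
  · ring
  · split <;> ring

theorem am_self (c : Cls E k) {l : ℤ} (hl : l ∈ c.C) (ε : ℤ → ℂ) :
    c.am ε (c.s l) (c.G l) = ε l ∧
      c.am ε (fun x => -c.s l x) (c.G l) = (starRingEnd ℂ) (ε l) := by
  have h := Combi_sq_sign (c.hs l hl) (c.o l)
  unfold Cls.am
  rw [B_self c hl, Finset.prod_singleton, Finset.prod_singleton, neg_mul, h]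
  unfold sgn
  constructor
  · rw [if_pos rfl]
  · rw [if_neg (by norm_num)]

theorem ident (c : Cls E k) (G : Finset ℤ) (hG : G ⊆ c.V) (s : ℤ → ℤ) (hs : IsSign s)
    (hB : (c.B G).card = 1) (hex : ∀ y ∈ c.Fr, c.ex s G y = 0) :
    SS s G ∈ c.C ∨ -SS s G ∈ c.C := by
  obtain ⟨l, hl⟩ := Finset.card_eq_one.1 hB
  have hlB : l ∈ c.B G := by rw [hl]; exact Finset.mem_singleton_self l
  have hlC : l ∈ c.C := (Finset.mem_filter.1 hlB).1
  have hoG : c.o l ∈ G := (Finset.mem_filter.1 hlB).2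
  have hsl := c.hs l hlC
  set τ : ℤ := s (c.o l) * c.s l (c.o l) with hτ
  have hτ1 : τ = 1 ∨ τ = -1 := by
    rcases hs (c.o l) with h1 | h1 <;> rcases hsl (c.o l) with h2 | h2 <;> simp [hτ, h1, h2]
  -- comparison of the two sets
  have key : ∀ y ∈ c.V, (y ∈ G ↔ y ∈ c.G l) ∧ (y ∈ G → s y = τ * c.s l y) := by
    intro y hy
    by_cases hfr : y ∈ c.Fr
    · have h1 := hex y hfr
      unfold Cls.ex at h1
      rw [hl, Finset.sum_singleton, ← hτ] at h1
      by_cases h2 : y ∈ G <;> by_cases h3 : y ∈ c.G l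
      · rw [if_pos h2, if_pos h3] at h1
        exact ⟨⟨fun _ => h3, fun _ => h2⟩, fun _ => by linarith⟩
      · rw [if_pos h2, if_neg h3] at h1
        rcases hs y with h4 | h4 <;> rw [h4] at h1 <;> norm_num at h1
      · rw [if_neg h2, if_pos h3] at h1
        rcases hsl y with h4 | h4 <;> rcases hτ1 with h5 | h5 <;> rw [h4, h5] at h1 <;>
          norm_num at h1
      · exact ⟨⟨fun h => absurd h h2, fun h => absurd h h3⟩, fun h => absurd h h2⟩
    · have h1 : y ∈ c.C.image c.o := by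
        by_contra h1
        exact hfr (Finset.mem_sdiff.2 ⟨hy, h1⟩)
      obtain ⟨l', hl', rfl⟩ := Finset.mem_image.1 h1
      by_cases hll : l' = l
      · subst hll
        refine ⟨⟨fun _ => c.ho _ hl', fun _ => hoG⟩, fun _ => ?_⟩
        rw [hτ, mul_assoc, Combi_sq_sign hsl, mul_one]
      · have h2 : c.o l' ∉ G := by
          intro h2
          have : l' ∈ c.B G := Finset.mem_filter.2 ⟨hl', h2⟩
          rw [hl, Finset.mem_singleton] at this
          exact hll this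
        have h3 := c.hd l' hl' l hlC hll
        exact ⟨⟨fun h => absurd h h2, fun h => absurd h h3⟩, fun h => absurd h h2⟩
  have hGl : c.G l ⊆ c.V := c.hG l hlC
  have hGeq : G = c.G l := by
    ext y
    constructor
    · intro h
      exact ((key y (hG h)).1).1 h
    · intro h
      exact ((key y (hGl h)).1).2 h
  have hsum : SS s G = τ * l := by
    conv_rhs => rw [c.hl l hlC]
    unfold SS
    rw [Finset.mul_sum, ← hGeq]
    refine Finset.sum_congr rfl fun y hy => ?_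
    rw [(key y (hG hy)).2 hy, mul_assoc]
  rcases hτ1 with h | h
  · left
    rw [hsum, h, one_mul]
    exact hlC
  · right
    rw [hsum, h, neg_one_mul, neg_neg]
    exact hlC

end Pool.Agent.Lib.MP_6d8312_an.Q
end
end

section

/-! # The coefficient as a monomial -/

set_option autoImplicit false

noncomputable section

namespace Pool.Agent.Lib.MP_6d8312_an.Q

private lemma Mono_sgn_zpow {τ : ℤ} (hτ : τ = 1 ∨ τ = -1) {w : ℂ} (hw : ‖w‖ = 1) :
    sgn τ w = w ^ τ := by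
  unfold sgn
  rcases hτ with h | h
  · rw [if_pos h, h, zpow_one]
  · rw [if_neg (by rw [h]; norm_num), h, zpow_neg_one]
    exact (Complex.inv_eq_conj hw).symm

private lemma Mono_sgn_mul (τ : ℤ) (a b : ℂ) : sgn τ (a * b) = sgn τ a * sgn τ b := by
  unfold sgn
  split
  · rfl
  · exact map_mul _ _ _

private lemma Mono_sgn_prod (τ : ℤ) (A : Finset ℤ) (f : ℤ → ℂ) :
    sgn τ (∏ y ∈ A, f y) = ∏ y ∈ A, sgn τ (f y) := by
  unfold sgn
  split
  · rfl
  · exact map_prod _ _ _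

private lemma Mono_sgn_real (τ : ℤ) (r : ℝ) : sgn τ (r : ℂ) = r := by
  unfold sgn
  split
  · rfl
  · exact Complex.conj_ofReal r

private lemma Mono_sgn_sgn {τ σ : ℤ} (hτ : τ = 1 ∨ τ = -1) (hσ : σ = 1 ∨ σ = -1) (w : ℂ) :
    sgn τ (sgn σ w) = sgn (τ * σ) w := by
  unfold sgn
  rcases hτ with h | h <;> rcases hσ with h' | h' <;> simp [h, h']

private lemma Mono_norm_sgn (τ : ℤ) (w : ℂ) : ‖sgn τ w‖ = ‖w‖ := by
  unfold sgn
  split
  · rfl
  · exact RCLike.norm_conj _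

private lemma Mono_prod_zpow {w : ℂ} (hw : w ≠ 0) (A : Finset ℤ) (m : ℤ → ℤ) :
    ∏ l ∈ A, w ^ m l = w ^ ∑ l ∈ A, m l := by
  classical
  induction A using Finset.induction_on with
  | empty => simp
  | insert a A ha ih => rw [Finset.prod_insert ha, Finset.sum_insert ha, ih, zpow_add₀ hw]

private lemma Mono_o_inj {E : Set ℤ} {k : ℕ} (c : Cls E k) {l l' : ℤ} (hl : l ∈ c.C)
    (hl' : l' ∈ c.C) (h : c.o l = c.o l') : l = l' := by
  by_contra hne
  exact c.hd l hl l' hl' hne (h ▸ c.ho l' hl')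

private lemma Mono_cf_owned {E : Set ℤ} {k : ℕ} (c : Cls E k) (ρ : ℝ) (ε z : ℤ → ℂ) {l : ℤ}
    (hl : l ∈ c.C) : c.cf ρ ε z (c.o l) =
      sgn (c.s l (c.o l)) ((ρ : ℂ) * ε l * ∏ y ∈ (c.G l).erase (c.o l), sgn (c.s l y) (z y)) := by
  unfold Cls.cf
  rw [if_pos (Finset.mem_image_of_mem _ hl)]
  have h1 : c.C.filter (fun l' => c.o l' = c.o l) = {l} := by
    ext l'
    rw [Finset.mem_filter, Finset.mem_singleton]
    constructor
    · rintro ⟨h1, h2⟩
      exact Mono_o_inj c h1 hl h2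
    · rintro rfl
      exact ⟨hl, rfl⟩
  rw [h1, Finset.sum_singleton]

theorem cof_mono {E : Set ℤ} {k : ℕ} (c : Cls E k) (ρ : ℝ) (ε z : ℤ → ℂ)
    (hz : ∀ x, ‖z x‖ = 1) (G : Finset ℤ) (hG : G ⊆ c.V) (s : ℤ → ℤ) (hs : IsSign s) :
    cof (c.cf ρ ε z) s G =
      (1 / 2) ^ G.card * (ρ : ℂ) ^ (c.B G).card * c.am ε s G *
        ∏ y ∈ c.Fr, z y ^ c.ex s G y := by
  classical
  have hz0 : ∀ x, z x ≠ 0 := fun x h => by
    have := hz x
    rw [h, norm_zero] at this
    norm_num at this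
  have h1 : cof (c.cf ρ ε z) s G = (1 / 2) ^ G.card * ∏ x ∈ G, sgn (s x) (c.cf ρ ε z x) := by
    unfold cof
    rw [← Finset.prod_const, ← Finset.prod_mul_distrib]
    refine Finset.prod_congr rfl fun x _ => ?_
    unfold sgn
    split <;> ring
  set O : Finset ℤ := c.C.image c.o with hO
  have h2 : ∏ x ∈ G, sgn (s x) (c.cf ρ ε z x) =
      (∏ x ∈ G.filter (· ∈ O), sgn (s x) (c.cf ρ ε z x)) *
        ∏ x ∈ G.filter (¬ · ∈ O), sgn (s x) (c.cf ρ ε z x) :=
    (Finset.prod_filter_mul_prod_filter_not G (· ∈ O) _).symm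
  -- owned elements
  have h3 : G.filter (· ∈ O) = (c.B G).image c.o := by
    ext x
    rw [Finset.mem_filter, hO, Finset.mem_image, Finset.mem_image]
    unfold Cls.B
    constructor
    · rintro ⟨hx, l, hl, rfl⟩
      exact ⟨l, Finset.mem_filter.2 ⟨hl, hx⟩, rfl⟩
    · rintro ⟨l, hl, rfl⟩
      exact ⟨(Finset.mem_filter.1 hl).2, l, (Finset.mem_filter.1 hl).1, rfl⟩
  have h4 : ∏ x ∈ G.filter (· ∈ O), sgn (s x) (c.cf ρ ε z x) =
      ∏ l ∈ c.B G, ((ρ : ℂ) * sgn (s (c.o l) * c.s l (c.o l)) (ε l) *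
        ∏ y ∈ c.Fr, z y ^ (s (c.o l) * c.s l (c.o l) * (if y ∈ c.G l then c.s l y else 0))) := by
    rw [h3, Finset.prod_image]
    · refine Finset.prod_congr rfl fun l hl => ?_
      have hlC : l ∈ c.C := (Finset.mem_filter.1 hl).1
      have hsl := c.hs l hlC
      rw [Mono_cf_owned c ρ ε z hlC, Mono_sgn_sgn (hs _) (hsl _), Mono_sgn_mul, Mono_sgn_mul,
        Mono_sgn_real, Mono_sgn_prod]
      congr 1
      have h5 : (c.G l).erase (c.o l) = c.Fr.filter (· ∈ c.G l) := by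
        ext y
        rw [Finset.mem_erase, Finset.mem_filter]
        unfold Cls.Fr
        rw [Finset.mem_sdiff, Finset.mem_image]
        constructor
        · rintro ⟨hy, hyG⟩
          refine ⟨⟨c.hG l hlC hyG, ?_⟩, hyG⟩
          rintro ⟨l', hl', rfl⟩
          by_cases hll : l' = l
          · exact hy (by rw [hll])
          · exact c.hd l' hl' l hlC hll hyG
        · rintro ⟨⟨_, hy⟩, hyG⟩
          refine ⟨?_, hyG⟩
          rintro rfl
          exact hy ⟨l, hlC, rfl⟩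
      rw [h5, Finset.prod_filter]
      refine Finset.prod_congr rfl fun y _ => ?_
      have hτ : s (c.o l) * c.s l (c.o l) = 1 ∨ s (c.o l) * c.s l (c.o l) = -1 := by
        rcases hs (c.o l) with h1 | h1 <;> rcases hsl (c.o l) with h2 | h2 <;> simp [h1, h2]
      split
      · rw [Mono_sgn_sgn hτ (hsl y), Mono_sgn_zpow _ (hz y)]
        rcases hτ with h | h <;> rcases hsl y with h' | h' <;> simp [h, h']
      · rw [mul_zero, zpow_zero]
    · intro l hl l' hl' h
      exact Mono_o_inj c (Finset.mem_filter.1 hl).1 (Finset.mem_filter.1 hl').1 h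
  -- free elements
  have h6 : ∏ x ∈ G.filter (¬ · ∈ O), sgn (s x) (c.cf ρ ε z x) =
      ∏ y ∈ c.Fr, z y ^ (-(if y ∈ G then s y else 0) : ℤ) := by
    have h7 : G.filter (¬ · ∈ O) = c.Fr.filter (· ∈ G) := by
      ext y
      rw [Finset.mem_filter, Finset.mem_filter]
      unfold Cls.Fr
      rw [Finset.mem_sdiff, ← hO]
      constructor
      · rintro ⟨h, h'⟩
        exact ⟨⟨hG h, h'⟩, h⟩
      · rintro ⟨⟨_, h'⟩, h⟩
        exact ⟨h, h'⟩
    have h8 : ∏ x ∈ G.filter (¬ · ∈ O), sgn (s x) (c.cf ρ ε z x) =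
        ∏ x ∈ G.filter (¬ · ∈ O), z x ^ (-(s x)) := by
      refine Finset.prod_congr rfl fun x hx => ?_
      have hx' := (Finset.mem_filter.1 hx).2
      have h9 : c.cf ρ ε z x = (starRingEnd ℂ) (z x) := by
        unfold Cls.cf
        rw [if_neg hx']
      have h10 : ‖(starRingEnd ℂ) (z x)‖ = 1 := by rw [RCLike.norm_conj, hz x]
      rw [h9, Mono_sgn_zpow (hs x) h10, ← Complex.inv_eq_conj (hz x), inv_zpow, zpow_neg]
    rw [h8, h7, Finset.prod_filter]
    refine Finset.prod_congr rfl fun y _ => ?_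
    split
    · rfl
    · rw [neg_zero, zpow_zero]
  rw [h1, h2, h4, h6, Finset.prod_mul_distrib, Finset.prod_mul_distrib, Finset.prod_const,
    Finset.prod_comm]
  have h11 : ∏ y ∈ c.Fr, z y ^ c.ex s G y =
      (∏ y ∈ c.Fr, ∏ l ∈ c.B G,
        z y ^ (s (c.o l) * c.s l (c.o l) * (if y ∈ c.G l then c.s l y else 0))) *
      ∏ y ∈ c.Fr, z y ^ (-(if y ∈ G then s y else 0) : ℤ) := by
    rw [← Finset.prod_mul_distrib]
    refine Finset.prod_congr rfl fun y _ => ?_
    rw [Mono_prod_zpow (hz0 y), ← zpow_add₀ (hz0 y)]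
    unfold Cls.ex
    congr 1
    ring
  rw [h11]
  unfold Cls.am
  ring

theorem norm_cf_le {E : Set ℤ} {k : ℕ} (c : Cls E k) (ρ : ℝ) (h0 : 0 ≤ ρ) (h1 : ρ ≤ 1)
    (ε z : ℤ → ℂ) (hε : ∀ l, ‖ε l‖ ≤ 1) (hz : ∀ x, ‖z x‖ = 1) (x : ℤ) :
    ‖c.cf ρ ε z x‖ ≤ 1 := by
  by_cases hx : x ∈ c.C.image c.o
  · obtain ⟨l, hl, rfl⟩ := Finset.mem_image.1 hx
    rw [Mono_cf_owned c ρ ε z hl, Mono_norm_sgn, norm_mul, norm_mul, norm_prod,
      Finset.prod_eq_one (fun y _ => by rw [Mono_norm_sgn, hz]), mul_one, Complex.norm_real,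
      Real.norm_of_nonneg h0]
    exact mul_le_one₀ h1 (norm_nonneg _) (hε l)
  · unfold Cls.cf
    rw [if_neg hx, RCLike.norm_conj, hz]

end Pool.Agent.Lib.MP_6d8312_an.Q
end
end

section

/-! # The coefficients of a Riesz product -/

set_option autoImplicit false

noncomputable section

namespace Pool.Agent.Lib.MP_6d8312_an.Q

/-- a relation between signed sums with one extra element -/
private theorem RieszA_rel {E : Set ℤ} (hE : Dissociate E) {G G' : Finset ℤ} {s s' : ℤ → ℤ}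
    (hG : (G : Set ℤ) ⊆ E) (hG' : (G' : Set ℤ) ⊆ E) (hs : IsSign s) (hs' : IsSign s') {x : ℤ}
    (hx : x ∈ E) (hxG : x ∉ G) (hxG' : x ∉ G') (τ : ℤ) (hτ : |τ| ≤ 2) (hτ0 : τ ≠ 0) :
    SS s G + τ * x ≠ SS s' G' := by
  intro h
  have hne : ∀ y ∈ G ∪ G', y ≠ x := by
    intro y hy hyx
    rw [hyx] at hy
    rcases Finset.mem_union.1 hy with h1 | h1
    · exact hxG h1
    · exact hxG' h1
  have hxU : x ∉ G ∪ G' := fun h => hne x h rfl
  have habs : ∀ s : ℤ → ℤ, IsSign s → ∀ y, |s y| = 1 := by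
    intro s hs y
    rcases hs y with h1 | h1 <;> simp [h1]
  have key := hE (insert x (G ∪ G'))
    (fun y => if y = x then τ else (if y ∈ G then s y else 0) - (if y ∈ G' then s' y else 0))
    (by
      intro y hy
      rcases Finset.mem_insert.1 (Finset.mem_coe.1 hy) with h1 | h1
      · rw [h1]
        exact hx
      · rcases Finset.mem_union.1 h1 with h2 | h2
        · exact hG h2
        · exact hG' h2)
    (by
      intro y _
      split_ifs with h1 h2 h3 h3
      · exact hτ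
      · have := abs_sub (s y) (s' y)
        rw [habs s hs, habs s' hs'] at this
        exact this.trans (by norm_num)
      · rw [sub_zero, habs s hs]
        norm_num
      · rw [zero_sub, abs_neg, habs s' hs']
        norm_num
      · norm_num)
    (by
      rw [Finset.sum_insert hxU]
      simp only [if_true]
      have e1 : ∑ y ∈ G ∪ G', (if y = x then τ else
          (if y ∈ G then s y else 0) - (if y ∈ G' then s' y else 0)) * y =
          ∑ y ∈ G ∪ G', (if y ∈ G then s y * y else 0) -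
            ∑ y ∈ G ∪ G', (if y ∈ G' then s' y * y else 0) := by
        rw [← Finset.sum_sub_distrib]
        refine Finset.sum_congr rfl fun y hy => ?_
        rw [if_neg (hne y hy), sub_mul]
        split_ifs <;> simp
      have e2 : ∑ y ∈ G ∪ G', (if y ∈ G then s y * y else 0) = SS s G := by
        rw [← Finset.sum_filter, Finset.filter_mem_eq_inter, Finset.union_inter_cancel_left]
        rfl
      have e3 : ∑ y ∈ G ∪ G', (if y ∈ G' then s' y * y else 0) = SS s' G' := by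
        rw [← Finset.sum_filter, Finset.filter_mem_eq_inter, Finset.union_inter_cancel_right]
        rfl
      rw [e1, e2, e3, ← h]
      ring)
    x (Finset.mem_insert_self _ _)
  simp only [if_true] at key
  exact hτ0 key

private theorem RieszA_insert {G : Finset ℤ} {s : ℤ → ℤ} {x : ℤ} (hxG : x ∉ G) (σ : ℤ) :
    SS (Function.update s x σ) (insert x G) = SS s G + σ * x := by
  rw [SS, SS, Finset.sum_insert hxG, Function.update_self, add_comm]
  congr 1
  refine Finset.sum_congr rfl fun y hy => ?_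
  rw [Function.update_of_ne]
  rintro rfl
  exact hxG hy

private theorem RieszA_sign {s : ℤ → ℤ} (hs : IsSign s) (x : ℤ) {σ : ℤ} (hσ : σ = 1 ∨ σ = -1) :
    IsSign (Function.update s x σ) := by
  intro y
  by_cases h : y = x
  · subst h
    rw [Function.update_self]
    exact hσ
  · rw [Function.update_of_ne h]
    exact hs y

private theorem RieszA_shift (S S' : Finset ℤ) (a : ℤ → ℂ) (ha : ∀ n, n ∉ S → a n = 0) (x : ℤ)
    (hS' : ∀ n ∈ S, n + x ∈ S') (t : ℝ) :
    ∑ n ∈ S', a (n - x) * e (n * t) = e (x * t) * ∑ n ∈ S, a n * e (n * t) := by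
  have h1 : ∑ n ∈ S.map (Equiv.addRight x).toEmbedding, a (n - x) * e (n * t) =
      ∑ n ∈ S', a (n - x) * e (n * t) := by
    apply Finset.sum_subset
    · intro n hn
      obtain ⟨m, hm, rfl⟩ := Finset.mem_map.1 hn
      exact hS' m hm
    · intro n _ hn
      rw [ha (n - x), zero_mul]
      intro h
      exact hn (Finset.mem_map.2 ⟨n - x, h, sub_add_cancel n x⟩)
  rw [← h1, Finset.sum_map, Finset.mul_sum]
  refine Finset.sum_congr rfl fun n _ => ?_
  change a (n + x - x) * e (((n + x : ℤ) : ℝ) * t) = _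
  rw [add_sub_cancel_right, Int.cast_add, add_mul, e_add]
  ring

theorem riesz_expand {E : Set ℤ} (hE : Dissociate E) (c : ℤ → ℂ) (V : Finset ℤ)
    (hV : (V : Set ℤ) ⊆ E) :
    ∃ (S : Finset ℤ) (a : ℤ → ℂ),
      (∀ t : ℝ, ∏ x ∈ V, (1 + ((c x * e (x * t)).re : ℂ)) = ∑ n ∈ S, a n * e (n * t)) ∧
      (∀ n, n ∉ S → a n = 0) ∧
      (∀ (G : Finset ℤ) (s : ℤ → ℤ), G ⊆ V → IsSign s → a (SS s G) = cof c s G) ∧
      ∀ n : ℤ, (∀ (G : Finset ℤ) (s : ℤ → ℤ), G ⊆ V → IsSign s → n ≠ SS s G) → a n = 0 := by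
  classical
  induction V using Finset.induction_on with
  | empty =>
    refine ⟨{0}, fun n => if n = 0 then 1 else 0, ?_, ?_, ?_, ?_⟩
    · intro t
      simp [e_zero]
    · intro n hn
      rw [Finset.mem_singleton] at hn
      exact if_neg hn
    · intro G s hG _
      rw [Finset.subset_empty] at hG
      subst hG
      simp [SS, cof]
    · intro n hn
      refine if_neg fun h => ?_
      exact hn ∅ (fun _ => 1) (Finset.Subset.refl _) (fun _ => Or.inl rfl) (by simp [SS, h])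
  | insert x V hxV ih =>
    have hVE : (V : Set ℤ) ⊆ E := fun y hy => hV (Finset.mem_coe.2 (Finset.mem_insert_of_mem hy))
    have hxE : x ∈ E := hV (Finset.mem_coe.2 (Finset.mem_insert_self x V))
    obtain ⟨S, a, h1, h2, h3, h4⟩ := ih hVE
    -- vanishing of the coefficients at shifted points
    have hz : ∀ (G : Finset ℤ) (s : ℤ → ℤ), G ⊆ V → IsSign s → ∀ τ : ℤ, |τ| ≤ 2 → τ ≠ 0 →
        a (SS s G + τ * x) = 0 := by
      intro G s hG hs τ hτ hτ0
      apply h4
      intro G' s' hG' hs'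
      exact RieszA_rel hE (fun y hy => hVE (hG hy)) (fun y hy => hVE (hG' hy)) hs hs' hxE
        (fun h => hxV (hG h)) (fun h => hxV (hG' h)) τ hτ hτ0
    refine ⟨S ∪ (S.image (fun n => n + x) ∪ S.image (fun n => n + -x)),
      fun n => a n + c x / 2 * a (n - x) + (starRingEnd ℂ) (c x) / 2 * a (n - -x), ?_, ?_, ?_, ?_⟩
    · intro t
      have e0 : ∑ n ∈ S ∪ (S.image (fun n => n + x) ∪ S.image (fun n => n + -x)),
          a n * e (n * t) = ∑ n ∈ S, a n * e (n * t) := by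
        symm
        apply Finset.sum_subset Finset.subset_union_left
        intro n _ hn
        rw [h2 n hn, zero_mul]
      have e1 := RieszA_shift S (S ∪ (S.image (fun n => n + x) ∪ S.image (fun n => n + -x))) a h2 x
        (fun n hn => Finset.mem_union_right _ (Finset.mem_union_left _
          (Finset.mem_image_of_mem (fun n => n + x) hn))) t
      have e2 := RieszA_shift S (S ∪ (S.image (fun n => n + x) ∪ S.image (fun n => n + -x))) a h2
        (-x) (fun n hn => Finset.mem_union_right _ (Finset.mem_union_right _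
          (Finset.mem_image_of_mem (fun n => n + -x) hn))) t
      have e3 : ∑ n ∈ S ∪ (S.image (fun n => n + x) ∪ S.image (fun n => n + -x)),
          (a n + c x / 2 * a (n - x) + (starRingEnd ℂ) (c x) / 2 * a (n - -x)) * e (n * t) =
          ∑ n ∈ S, a n * e (n * t) + c x / 2 * (e (x * t) * ∑ n ∈ S, a n * e (n * t)) +
            (starRingEnd ℂ) (c x) / 2 * (e (((-x : ℤ) : ℝ) * t) * ∑ n ∈ S, a n * e (n * t)) := by
        rw [← e1, ← e2, ← e0, Finset.mul_sum, Finset.mul_sum, ← Finset.sum_add_distrib,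
          ← Finset.sum_add_distrib]
        refine Finset.sum_congr rfl fun n _ => ?_
        ring
      rw [e3, Finset.prod_insert hxV, h1 t]
      have e4 : ((c x * e (x * t)).re : ℂ) =
          (c x * e (x * t) + (starRingEnd ℂ) (c x) * e (((-x : ℤ) : ℝ) * t)) / 2 := by
        rw [Complex.re_eq_add_conj, map_mul, tps_e_conj]
        congr 3
        push_cast
        ring_nf
      rw [e4]
      ring
    · intro n hn
      rw [Finset.mem_union, Finset.mem_union, not_or, not_or] at hn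
      have e1 : a (n - x) = 0 := h2 _ fun h => hn.2.1 (Finset.mem_image.2 ⟨n - x, h, by ring⟩)
      have e2 : a (n - -x) = 0 := h2 _ fun h => hn.2.2 (Finset.mem_image.2 ⟨n - -x, h, by ring⟩)
      change a n + c x / 2 * a (n - x) + (starRingEnd ℂ) (c x) / 2 * a (n - -x) = 0
      rw [h2 n hn.1, e1, e2]
      ring
    · intro G s hG hs
      change a (SS s G) + c x / 2 * a (SS s G - x) + (starRingEnd ℂ) (c x) / 2 * a (SS s G - -x) = _
      by_cases hx : x ∈ G
      · have hG₀ : G.erase x ⊆ V := by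
          intro y hy
          rcases Finset.mem_insert.1 (hG (Finset.mem_of_mem_erase hy)) with h | h
          · exact absurd h (Finset.ne_of_mem_erase hy)
          · exact h
        have e1 : SS s G = SS s (G.erase x) + s x * x := by
          rw [SS, SS, ← Finset.add_sum_erase G _ hx, add_comm]
        have e2 : cof c s G = (if s x = 1 then c x / 2 else (starRingEnd ℂ) (c x) / 2) *
            cof c s (G.erase x) := by
          rw [cof, cof, ← Finset.mul_prod_erase G _ hx]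
        rw [e1, e2]
        rcases hs x with hsx | hsx
        · rw [hsx, if_pos rfl]
          have f1 : SS s (G.erase x) + 1 * x - x = SS s (G.erase x) := by ring
          have f2 : SS s (G.erase x) + 1 * x - -x = SS s (G.erase x) + 2 * x := by ring
          rw [f1, f2, hz _ s hG₀ hs 1 (by norm_num) (by norm_num),
            hz _ s hG₀ hs 2 (by norm_num) (by norm_num), h3 _ s hG₀ hs]
          ring
        · rw [hsx, if_neg (by norm_num)]
          have f1 : SS s (G.erase x) + -1 * x - x = SS s (G.erase x) + (-2) * x := by ring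
          have f2 : SS s (G.erase x) + -1 * x - -x = SS s (G.erase x) := by ring
          rw [f1, f2, hz _ s hG₀ hs (-1) (by norm_num) (by norm_num),
            hz _ s hG₀ hs (-2) (by norm_num) (by norm_num), h3 _ s hG₀ hs]
          ring
      · have hG₀ : G ⊆ V := by
          intro y hy
          rcases Finset.mem_insert.1 (hG hy) with h | h
          · rw [h] at hy
            exact absurd hy hx
          · exact h
        have f1 : SS s G - x = SS s G + (-1) * x := by ring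
        have f2 : SS s G - -x = SS s G + 1 * x := by ring
        rw [f1, f2, hz _ s hG₀ hs 1 (by norm_num) (by norm_num),
          hz _ s hG₀ hs (-1) (by norm_num) (by norm_num), h3 _ s hG₀ hs]
        ring
    · intro n hn
      have g1 : a n = 0 := h4 n fun G s hG hs =>
        hn G s (hG.trans (Finset.subset_insert x V)) hs
      have g2 : a (n - x) = 0 := by
        apply h4
        intro G s hG hs h
        refine hn (insert x G) (Function.update s x 1) (Finset.insert_subset_insert x hG)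
          (RieszA_sign hs x (Or.inl rfl)) ?_
        rw [RieszA_insert (fun h => hxV (hG h)), ← h]
        ring
      have g3 : a (n - -x) = 0 := by
        apply h4
        intro G s hG hs h
        refine hn (insert x G) (Function.update s x (-1)) (Finset.insert_subset_insert x hG)
          (RieszA_sign hs x (Or.inr rfl)) ?_
        rw [RieszA_insert (fun h => hxV (hG h)), ← h]
        ring
      change a n + c x / 2 * a (n - x) + (starRingEnd ℂ) (c x) / 2 * a (n - -x) = 0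
      rw [g1, g2, g3]
      ring

end Pool.Agent.Lib.MP_6d8312_an.Q
end
end

section

/-! # Riesz products as transforms of discrete measures -/

set_option autoImplicit false

noncomputable section

namespace Pool.Agent.Lib.MP_6d8312_an.Q

theorem riesz {E : Set ℤ} (hE : Dissociate E) (c : ℤ → ℂ) (hc : ∀ x, ‖c x‖ ≤ 1) (V : Finset ℤ)
    (hV : (V : Set ℤ) ⊆ E) (R : ℕ) :
    ∃ F : ℤ → ℂ, TP 1 F ∧
      (∀ (G : Finset ℤ) (s : ℤ → ℤ), G ⊆ V → IsSign s → |SS s G| ≤ (R : ℤ) →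
        F (SS s G) = cof c s G) ∧
      ∀ n : ℤ, |n| ≤ (R : ℤ) →
        (∀ (G : Finset ℤ) (s : ℤ → ℤ), G ⊆ V → IsSign s → n ≠ SS s G) → F n = 0 := by
  classical
  obtain ⟨S, a, h1, h2, h3, h4⟩ := riesz_expand hE c V hV
  -- a large modulus
  let M : ℕ := R + ∑ n ∈ S, n.natAbs + 1
  have hM0 : 0 < M := Nat.succ_pos _
  have hM : ∀ n ∈ S, ∀ k : ℤ, |k| ≤ (R : ℤ) → |n - k| < (M : ℤ) := by
    intro n hn k hk
    have e1 : n.natAbs ≤ ∑ n ∈ S, n.natAbs :=
      Finset.single_le_sum (f := fun n : ℤ => n.natAbs) (fun _ _ => Nat.zero_le _) hn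
    have e2 : |n - k| ≤ |n| + |k| := abs_sub n k
    have e3 : |n| = (n.natAbs : ℤ) := by rw [Int.natCast_natAbs]
    have e4 : (M : ℤ) = (R : ℤ) + ((∑ n ∈ S, n.natAbs : ℕ) : ℤ) + 1 := by
      simp only [M]
      push_cast
      ring
    have e5 : (n.natAbs : ℤ) ≤ ((∑ n ∈ S, n.natAbs : ℕ) : ℤ) := by exact_mod_cast e1
    rw [e4]
    linarith
  have hMR : (M : ℝ) ≠ 0 := by positivity
  have hMC : (M : ℂ) ≠ 0 := by exact_mod_cast hM0.ne'
  -- the real valued product
  let p : ℝ → ℝ := fun t => ∏ x ∈ V, (1 + (c x * e (x * t)).re)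
  have hp0 : ∀ t, 0 ≤ p t := by
    intro t
    refine Finset.prod_nonneg fun x _ => ?_
    have e1 : |(c x * e (x * t)).re| ≤ ‖c x * e (x * t)‖ := Complex.abs_re_le_norm _
    rw [norm_mul, norm_e, mul_one] at e1
    have e2 := (abs_le.1 (e1.trans (hc x))).1
    linarith
  have hpc : ∀ t, (p t : ℂ) = ∑ n ∈ S, a n * e (n * t) := by
    intro t
    rw [← h1 t]
    simp only [p]
    push_cast
    rfl
  -- inversion
  have hinv : ∀ k : ℤ, |k| ≤ (R : ℤ) →
      ∑ l : Fin M, (1 / (M : ℂ) * (p ((l : ℕ) / (M : ℝ)) : ℂ)) * e (k * (-((l : ℕ) / (M : ℝ)))) =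
        a k := by
    intro k hk
    have e1 : ∀ l : Fin M, (1 / (M : ℂ) * (p ((l : ℕ) / (M : ℝ)) : ℂ)) *
        e (k * (-((l : ℕ) / (M : ℝ)))) =
        ∑ n ∈ S, a n * (1 / (M : ℂ) * e (((n - k : ℤ) : ℝ) * ((l : ℕ) / (M : ℝ)))) := by
      intro l
      rw [hpc, Finset.mul_sum, Finset.sum_mul]
      refine Finset.sum_congr rfl fun n _ => ?_
      have e2 : e (((n - k : ℤ) : ℝ) * ((l : ℕ) / (M : ℝ))) =
          e (n * ((l : ℕ) / (M : ℝ))) * e (k * (-((l : ℕ) / (M : ℝ)))) := by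
        rw [← e_add]
        congr 1
        push_cast
        ring
      rw [e2]
      ring
    rw [Finset.sum_congr rfl fun l _ => e1 l, Finset.sum_comm]
    have e3 : ∀ n ∈ S, ∑ l : Fin M, a n * (1 / (M : ℂ) *
        e (((n - k : ℤ) : ℝ) * ((l : ℕ) / (M : ℝ)))) = if n = k then a n else 0 := by
      intro n hn
      rw [← Finset.mul_sum, ← Finset.mul_sum, tps_sum_e_div M hM0 (n - k) (hM n hn k hk)]
      simp only [sub_eq_zero]
      split_ifs <;> simp
    rw [Finset.sum_congr rfl e3, Finset.sum_ite_eq']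
    split_ifs with h
    · rfl
    · exact (h2 k h).symm
  refine ⟨fun n => ∑ l : Fin M, (1 / (M : ℂ) * (p ((l : ℕ) / (M : ℝ)) : ℂ)) *
    e (n * (-((l : ℕ) / (M : ℝ)))), ?_, ?_, ?_⟩
  · apply TP.of_fintype (ι := Fin M) (fun l => 1 / (M : ℂ) * (p ((l : ℕ) / (M : ℝ)) : ℂ))
      (fun l => -((l : ℕ) / (M : ℝ)))
    have e1 : ∀ l : Fin M, ‖1 / (M : ℂ) * (p ((l : ℕ) / (M : ℝ)) : ℂ)‖ =
        1 / (M : ℝ) * p ((l : ℕ) / (M : ℝ)) := by
      intro l
      rw [norm_mul, norm_div, norm_one, Complex.norm_natCast, Complex.norm_real, Real.norm_eq_abs,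
        abs_of_nonneg (hp0 _)]
    have e2 := hinv 0 (by simp)
    have e3 : a 0 = 1 := by
      have e4 := h3 ∅ (fun _ => 1) (Finset.empty_subset _) (fun _ => Or.inl rfl)
      simpa [SS, cof] using e4
    rw [e3] at e2
    have e5 : ((∑ l : Fin M, 1 / (M : ℝ) * p ((l : ℕ) / (M : ℝ)) : ℝ) : ℂ) = 1 := by
      rw [← e2, Complex.ofReal_sum]
      refine Finset.sum_congr rfl fun l _ => ?_
      rw [Int.cast_zero, zero_mul, e_zero, mul_one]
      push_cast
      rfl
    have e6 : (∑ l : Fin M, 1 / (M : ℝ) * p ((l : ℕ) / (M : ℝ))) = 1 := by exact_mod_cast e5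
    rw [Finset.sum_congr rfl fun l _ => e1 l, e6]
  · intro G s hG hs hR
    change ∑ l : Fin M, (1 / (M : ℂ) * (p ((l : ℕ) / (M : ℝ)) : ℂ)) *
      e (((SS s G : ℤ) : ℝ) * (-((l : ℕ) / (M : ℝ)))) = cof c s G
    rw [hinv _ hR, h3 G s hG hs]
  · intro n hR hn
    change ∑ l : Fin M, (1 / (M : ℂ) * (p ((l : ℕ) / (M : ℝ)) : ℂ)) *
      e ((n : ℝ) * (-((l : ℕ) / (M : ℝ)))) = 0
    rw [hinv _ hR, h4 n hn]

end Pool.Agent.Lib.MP_6d8312_an.Q
end
end

section

/-! # The coefficients of the averaged Riesz product of a class -/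

set_option autoImplicit false

noncomputable section

namespace Pool.Agent.Lib.MP_6d8312_an.Q

private lemma ClassRho_ex_congr {E : Set ℤ} {k : ℕ} (c : Cls E k) {s s' : ℤ → ℤ} {G : Finset ℤ}
    (h : ∀ x ∈ G, s x = s' x) (y : ℤ) : c.ex s G y = c.ex s' G y := by
  unfold Cls.ex
  congr 1
  · by_cases hy : y ∈ G
    · rw [if_pos hy, if_pos hy, h y hy]
    · rw [if_neg hy, if_neg hy]
  · refine Finset.sum_congr rfl fun l hl => ?_
    rw [h _ (Finset.mem_filter.1 hl).2]

private lemma ClassRho_am_congr {E : Set ℤ} {k : ℕ} (c : Cls E k) (ε : ℤ → ℂ) {s s' : ℤ → ℤ}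
    {G : Finset ℤ} (h : ∀ x ∈ G, s x = s' x) : c.am ε s G = c.am ε s' G := by
  unfold Cls.am
  refine Finset.prod_congr rfl fun l hl => ?_
  rw [h _ (Finset.mem_filter.1 hl).2]

theorem class_rho {E : Set ℤ} (hE : Dissociate E) {k : ℕ} (c : Cls E k) (R : ℕ) (ε : ℤ → ℂ)
    (hε : ∀ l, ‖ε l‖ ≤ 1) :
    ∃ (a : ℤ → ℂ) (b : ℤ → ℕ),
      (∀ l ∈ c.C, b l = 1 ∧ a l = ε l / 2 ^ (c.G l).card ∧
        b (-l) = 1 ∧ a (-l) = (starRingEnd ℂ) (ε l) / 2 ^ (c.G l).card) ∧
      (∀ n ∈ SignedSums E k, b n ≤ k ∧ (b n = 1 → a n ≠ 0 → n ∈ c.C ∨ -n ∈ c.C)) ∧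
      ∀ ρ : ℝ, 0 ≤ ρ → ρ ≤ 1 → ∃ F : ℤ → ℂ, TP 1 F ∧
        ∀ n ∈ SignedSums E k, |n| ≤ (R : ℤ) → F n = (ρ : ℂ) ^ b n * a n := by
  classical
  -- representations
  have hrep : ∀ n : ℤ, ∃ (G : Finset ℤ) (s : ℤ → ℤ), IsSign s ∧
      (n ∈ SignedSums E k → (G : Set ℤ) ⊆ E ∧ G.card ≤ k ∧ n = SS s G) := by
    intro n
    by_cases hn : n ∈ SignedSums E k
    · obtain ⟨G, s, h1, h2, h3, h4⟩ := hn
      exact ⟨G, s, h3, fun _ => ⟨h1, h2, h4⟩⟩
    · exact ⟨∅, fun _ => 1, fun _ => Or.inl rfl, fun h => absurd h hn⟩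
  choose Gn sn hsn hrn using hrep
  have hVE := c.hV
  -- uniqueness
  have huniq : ∀ (G : Finset ℤ) (s : ℤ → ℤ), G ⊆ c.V → G.card ≤ k → IsSign s →
      Gn (SS s G) = G ∧ ∀ x ∈ G, sn (SS s G) x = s x := by
    intro G s hG hk hs
    have hGE : (G : Set ℤ) ⊆ E := (Finset.coe_subset.2 hG).trans hVE
    have hmem : SS s G ∈ SignedSums E k := ⟨G, s, hGE, hk, hs, rfl⟩
    obtain ⟨h1, h2, h3⟩ := hrn _ hmem
    obtain ⟨h4, h5⟩ := ss_unique hE h1 hGE (hsn _) hs h3.symm
    refine ⟨h4, fun x hx => h5 x ?_⟩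
    rw [h4]
    exact hx
  set a : ℤ → ℂ := fun n => if Gn n ⊆ c.V ∧ ∀ y ∈ c.Fr, c.ex (sn n) (Gn n) y = 0 then
    (1 / 2) ^ (Gn n).card * c.am ε (sn n) (Gn n) else 0 with ha
  set b : ℤ → ℕ := fun n => if Gn n ⊆ c.V then (c.B (Gn n)).card else 0 with hb
  refine ⟨a, b, ?_, ?_, ?_⟩
  · intro l hl
    have hG := c.hG l hl
    have hk := c.hk l hl
    have hs := c.hs l hl
    have hs' : IsSign (fun x => -c.s l x) := fun x => by
      rcases hs x with h | h
      · right; simp [h]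
      · left; simp [h]
    have hl1 : SS (c.s l) (c.G l) = l := (c.hl l hl).symm
    have hl2 : SS (fun x => -c.s l x) (c.G l) = -l := by rw [ss_neg, hl1]
    have key : ∀ s : ℤ → ℤ, IsSign s → (∀ y, c.ex s (c.G l) y = 0) →
        b (SS s (c.G l)) = 1 ∧ a (SS s (c.G l)) = c.am ε s (c.G l) / 2 ^ (c.G l).card := by
      intro s hs hex
      obtain ⟨h1, h2⟩ := huniq (c.G l) s hG hk hs
      constructor
      · simp only [hb]
        rw [h1, if_pos hG, B_self c hl, Finset.card_singleton]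
      · simp only [ha]
        rw [h1, if_pos ⟨hG, fun y _ => by rw [ClassRho_ex_congr c h2, hex]⟩,
          ClassRho_am_congr c ε h2]
        rw [one_div, inv_pow]
        field_simp
    obtain ⟨h1, h2⟩ := key (c.s l) hs fun y => (ex_self c hl y).1
    obtain ⟨h3, h4⟩ := key (fun x => -c.s l x) hs' fun y => (ex_self c hl y).2
    rw [hl1] at h1 h2
    rw [hl2] at h3 h4
    rw [(am_self c hl ε).1] at h2
    rw [(am_self c hl ε).2] at h4
    exact ⟨h1, h2, h3, h4⟩
  · intro n hn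
    obtain ⟨h1, h2, h3⟩ := hrn n hn
    constructor
    · simp only [hb]
      split
      · exact (card_B_le c _).trans h2
      · exact Nat.zero_le _
    · intro hb1 ha0
      simp only [ha] at ha0
      rw [ne_eq, ite_eq_right_iff, Classical.not_imp] at ha0
      obtain ⟨⟨h4, h5⟩, -⟩ := ha0
      simp only [hb] at hb1
      rw [if_pos h4] at hb1
      have := ident c (Gn n) h4 (sn n) (hsn n) hb1 h5
      rw [← h3] at this
      exact this
  · intro ρ h0 h1
    obtain ⟨q, hq⟩ : ∃ q, q = k + 2 := ⟨_, rfl⟩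
    have hq0 : 0 < q := by omega
    choose Fu hFu1 hFu2 hFu3 using fun u : c.Fr → Fin q =>
      riesz hE (c.cf ρ ε (zu q u)) (norm_cf_le c ρ h0 h1 ε _ hε (norm_zu q u)) c.V hVE R
    have hN : ((q : ℂ) ^ c.Fr.card) ≠ 0 := pow_ne_zero _ (by exact_mod_cast hq0.ne')
    refine ⟨fun n => (1 / (q : ℂ) ^ c.Fr.card) * ∑ u, Fu u n, ?_, ?_⟩
    · have h2 := TP.smul (1 / (q : ℂ) ^ c.Fr.card)
        (TP.sum Finset.univ (fun _ : c.Fr → Fin q => (1 : ℝ)) Fu fun u _ => hFu1 u)
      refine TP.mono h2 ?_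
      rw [Finset.sum_const, Finset.card_univ, Fintype.card_fun, Fintype.card_fin,
        Fintype.card_coe, norm_div, norm_one, norm_pow, Complex.norm_natCast, nsmul_eq_mul,
        mul_one]
      push_cast
      have : (q : ℝ) ^ c.Fr.card ≠ 0 := pow_ne_zero _ (by exact_mod_cast hq0.ne')
      rw [one_div, inv_mul_cancel₀ this]
    · intro n hn hnR
      obtain ⟨h2, h3, h4⟩ := hrn n hn
      show (1 / (q : ℂ) ^ c.Fr.card) * ∑ u, Fu u n = (ρ : ℂ) ^ b n * a n
      by_cases hV : Gn n ⊆ c.V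
      · have h5 : ∀ u, Fu u n = (1 / 2) ^ (Gn n).card * (ρ : ℂ) ^ (c.B (Gn n)).card *
            c.am ε (sn n) (Gn n) * ∏ y ∈ c.Fr, zu q u y ^ c.ex (sn n) (Gn n) y := by
          intro u
          have h6 := hFu2 u (Gn n) (sn n) hV (hsn n) (by rw [← h4]; exact hnR)
          rw [← h4] at h6
          rw [h6]
          exact cof_mono c ρ ε (zu q u) (norm_zu q u) (Gn n) hV (sn n) (hsn n)
        rw [Finset.sum_congr rfl fun u _ => h5 u, ← Finset.mul_sum,
          avg_mono c.Fr q hq0 (c.ex (sn n) (Gn n)) (fun y _ => by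
            have := abs_ex_le c (Gn n) h3 (sn n) (hsn n) y
            rw [hq]
            push_cast
            linarith)]
        simp only [ha, hb]
        rw [if_pos hV]
        by_cases hex : ∀ y ∈ c.Fr, c.ex (sn n) (Gn n) y = 0
        · rw [if_pos hex, if_pos ⟨hV, hex⟩]
          generalize (q : ℂ) ^ c.Fr.card = X at hN
          generalize ((1 : ℂ) / 2) ^ (Gn n).card = A₁
          generalize (ρ : ℂ) ^ (c.B (Gn n)).card = A₂
          generalize c.am ε (sn n) (Gn n) = A₃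
          calc 1 / X * (A₁ * A₂ * A₃ * X) = (X⁻¹ * X) * (A₂ * (A₁ * A₃)) := by ring
            _ = A₂ * (A₁ * A₃) := by rw [inv_mul_cancel₀ hN, one_mul]
        · rw [if_neg hex, if_neg (fun h => hex h.2)]
          ring
      · have h5 : ∀ u, Fu u n = 0 := by
          intro u
          apply hFu3 u n hnR
          intro G s hG hs hn'
          have hGE : (G : Set ℤ) ⊆ E := (Finset.coe_subset.2 hG).trans hVE
          have h6 := (ss_unique hE h2 hGE (hsn n) hs (by rw [← h4, ← hn'])).1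
          exact hV (h6 ▸ hG)
        rw [Finset.sum_congr rfl fun u _ => h5 u, Finset.sum_const_zero, mul_zero]
        simp only [ha, hb]
        rw [if_neg hV, if_neg (fun h => hV h.1), mul_zero]

end Pool.Agent.Lib.MP_6d8312_an.Q
end
end

section

/-! # The choice of the owned elements -/

set_option autoImplicit false

noncomputable section

namespace Pool.Agent.Lib.MP_6d8312_an.Q

theorem exists_owner {E : Set ℤ} (hE : Dissociate E) (k C : ℕ) (Λ : Set ℤ)
    (hΛ : Λ ⊆ SignedSums E k)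
    (h : ∀ F : Finset ℤ, (F : Set ℤ) ⊆ E → (Part Λ F k).ncard ≤ C * F.card) :
    ∃ (G : ℤ → Finset ℤ) (s : ℤ → ℤ → ℤ) (o : ℤ → ℤ),
      (∀ l ∈ Λ, l ≠ 0 → (G l : Set ℤ) ⊆ E ∧ (G l).card ≤ k ∧ IsSign (s l) ∧
        l = SS (s l) (G l) ∧ o l ∈ G l) ∧
      ∀ A : Finset ℤ, (∀ l ∈ A, l ∈ Λ ∧ l ≠ 0) →
        ∀ x, (A.filter (fun l => o l = x)).card ≤ C := by
  classical
  have hrep : ∀ l : ℤ, ∃ (G : Finset ℤ) (s : ℤ → ℤ), l ∈ Λ →
      (G : Set ℤ) ⊆ E ∧ G.card ≤ k ∧ IsSign s ∧ l = SS s G := by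
    intro l
    by_cases hl : l ∈ Λ
    · obtain ⟨G, s, h1⟩ := hΛ hl
      exact ⟨G, s, fun _ => h1⟩
    · exact ⟨∅, fun _ => 1, fun h => absurd h hl⟩
  choose G s hG using hrep
  let ι := {l : ℤ // l ∈ Λ ∧ l ≠ 0}
  let t : ι → Finset (ℤ × ℕ) := fun l => G l.1 ×ˢ Finset.range C
  have hall : ∀ S : Finset ι, S.card ≤ (S.biUnion t).card := by
    intro S
    set F : Finset ℤ := S.biUnion (fun l => G l.1) with hF
    have hFE : (F : Set ℤ) ⊆ E := by
      intro x hx
      rw [hF, Finset.mem_coe, Finset.mem_biUnion] at hx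
      obtain ⟨l, _, hx⟩ := hx
      exact (hG l.1 l.2.1).1 hx
    have h1 : S.biUnion t = F ×ˢ Finset.range C := by
      ext ⟨x, n⟩
      simp only [t, hF, Finset.mem_biUnion, Finset.mem_product]
      constructor
      · rintro ⟨l, hl, hx, hn⟩
        exact ⟨⟨l, hl, hx⟩, hn⟩
      · rintro ⟨⟨l, hl, hx⟩, hn⟩
        exact ⟨l, hl, hx, hn⟩
    have h2 : ((S.image Subtype.val : Finset ℤ) : Set ℤ) ⊆ Part Λ F k := by
      intro l hl
      rw [Finset.mem_coe, Finset.mem_image] at hl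
      obtain ⟨l', hl', rfl⟩ := hl
      have h3 := hG l'.1 l'.2.1
      refine ⟨l'.2.1, l'.2.2, G l'.1, s l'.1, ?_, h3.2.1, h3.2.2.1, h3.2.2.2⟩
      intro x hx
      rw [hF, Finset.mem_coe, Finset.mem_biUnion]
      exact ⟨l', hl', hx⟩
    have h3 := Set.ncard_le_ncard h2 (part_finite Λ F k)
    rw [Set.ncard_coe_finset, Finset.card_image_of_injective _ Subtype.val_injective] at h3
    rw [h1, Finset.card_product, Finset.card_range, mul_comm]
    exact h3.trans (h F hFE)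
  obtain ⟨f, hfi, hft⟩ := (Finset.all_card_le_biUnion_card_iff_exists_injective t).1 hall
  refine ⟨G, s, fun l => if hl : l ∈ Λ ∧ l ≠ 0 then (f ⟨l, hl⟩).1 else 0, ?_, ?_⟩
  · intro l hl hl0
    refine ⟨(hG l hl).1, (hG l hl).2.1, (hG l hl).2.2.1, (hG l hl).2.2.2, ?_⟩
    have h1 := hft ⟨l, hl, hl0⟩
    simp only [t, Finset.mem_product] at h1
    have h2 : (fun l : ℤ => if hl : l ∈ Λ ∧ l ≠ 0 then (f ⟨l, hl⟩).1 else 0) l =
        (f ⟨l, hl, hl0⟩).1 := dif_pos (⟨hl, hl0⟩ : l ∈ Λ ∧ l ≠ 0)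
    rw [h2]
    exact h1.1
  · intro A hA x
    have h1 : (A.filter (fun l => (if hl : l ∈ Λ ∧ l ≠ 0 then (f ⟨l, hl⟩).1 else 0) = x)).card ≤
        (Finset.range C).card := by
      refine Finset.card_le_card_of_injOn
        (fun l => if hl : l ∈ Λ ∧ l ≠ 0 then (f ⟨l, hl⟩).2 else 0) ?_ ?_
      · intro l hl
        rw [Finset.mem_coe, Finset.mem_filter] at hl
        have h2 := hA l hl.1
        have h3 := hft ⟨l, h2⟩
        simp only [t, Finset.mem_product] at h3
        simp only [dif_pos h2]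
        exact h3.2
      · intro l hl l' hl' heq
        rw [Finset.mem_coe, Finset.mem_filter] at hl hl'
        have h2 := hA l hl.1
        have h2' := hA l' hl'.1
        have e1 := hl.2
        have e2 := hl'.2
        rw [dif_pos h2] at e1
        rw [dif_pos h2'] at e2
        simp only [dif_pos h2, dif_pos h2'] at heq
        have h4 : f ⟨l, h2⟩ = f ⟨l', h2'⟩ := Prod.ext (e1.trans e2.symm) heq
        exact congrArg Subtype.val (hfi h4)
    rwa [Finset.card_range] at h1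

end Pool.Agent.Lib.MP_6d8312_an.Q
end
end
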