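import Pool.Agent.Lib.MP_6d8312_an.Defs

section

/-! # Closure properties of `TP` -/

set_option autoImplicit false

noncomputable section

namespace Pool.Agent.Lib.MP_6d8312_an

lemma norm_e (x : ℝ) : ‖e x‖ = 1 := by
  unfold e
  rw [show (2 * (Real.pi : ℂ) * (x : ℂ) * Complex.I) = ((2 * Real.pi * x : ℝ) : ℂ) * Complex.I by
    push_cast; ring]
  exact Complex.norm_exp_ofReal_mul_I _

lemma e_add (x y : ℝ) : e (x + y) = e x * e y := by
  unfold e
  rw [← Complex.exp_add]
  congr 1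
  push_cast
  ring

lemma e_zero : e 0 = 1 := by
  simp [e]

lemma e_int (n : ℤ) : e n = 1 := by
  unfold e
  rw [Complex.exp_eq_one_iff]
  exact ⟨n, by push_cast; ring⟩

lemma TP.of_fintype {ι : Type} [Fintype ι] (c : ι → ℂ) (t : ι → ℝ) {r : ℝ}
    (hr : ∑ j, ‖c j‖ ≤ r) : TP r (fun n => ∑ j, c j * e (n * t j)) := by
  refine ⟨Fintype.card ι, fun j => c ((Fintype.equivFin ι).symm j),
    fun j => t ((Fintype.equivFin ι).symm j), ?_, ?_⟩
  · intro n
    exact (Equiv.sum_comp (Fintype.equivFin ι).symm (fun j => c j * e (n * t j))).symm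
  · rw [Equiv.sum_comp (Fintype.equivFin ι).symm (fun j => ‖c j‖)]
    exact hr

lemma TP.nonneg {r : ℝ} {f : ℤ → ℂ} (h : TP r f) : 0 ≤ r := by
  obtain ⟨m, c, t, -, h⟩ := h
  exact le_trans (Finset.sum_nonneg fun _ _ => norm_nonneg _) h

lemma TP.mono {r s : ℝ} {f : ℤ → ℂ} (h : TP r f) (hrs : r ≤ s) : TP s f := by
  obtain ⟨m, c, t, h1, h2⟩ := h
  exact ⟨m, c, t, h1, h2.trans hrs⟩

lemma TP.norm_le {r : ℝ} {f : ℤ → ℂ} (h : TP r f) (n : ℤ) : ‖f n‖ ≤ r := by
  obtain ⟨m, c, t, h1, h2⟩ := h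
  rw [h1 n]
  refine (norm_sum_le _ _).trans (le_trans (le_of_eq ?_) h2)
  refine Finset.sum_congr rfl fun j _ => ?_
  rw [norm_mul, norm_e, mul_one]

lemma TP.const (c : ℂ) : TP ‖c‖ (fun _ => c) := by
  refine ⟨1, fun _ => c, fun _ => 0, ?_, ?_⟩
  · intro n
    simp [e_zero]
  · simp

lemma TP.char (t : ℝ) : TP 1 (fun n => e (n * t)) := by
  refine ⟨1, fun _ => 1, fun _ => t, ?_, ?_⟩
  · intro n
    simp
  · simp

lemma TP.add {r s : ℝ} {f g : ℤ → ℂ} (hf : TP r f) (hg : TP s g) :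
    TP (r + s) (fun n => f n + g n) := by
  obtain ⟨m, c, t, h1, h2⟩ := hf
  obtain ⟨m', c', t', h1', h2'⟩ := hg
  have h := TP.of_fintype (ι := Fin m ⊕ Fin m') (Sum.elim c c') (Sum.elim t t') (r := r + s)
    (by
      rw [Fintype.sum_sum_type]
      exact add_le_add h2 h2')
  refine (funext fun n => ?_ : (fun n : ℤ => ∑ j : Fin m ⊕ Fin m',
    Sum.elim c c' j * e (n * Sum.elim t t' j)) = fun n => f n + g n) ▸ h
  rw [Fintype.sum_sum_type, h1 n, h1' n]
  rfl

lemma TP.smul {r : ℝ} {f : ℤ → ℂ} (c : ℂ) (hf : TP r f) :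
    TP (‖c‖ * r) (fun n => c * f n) := by
  obtain ⟨m, d, t, h1, h2⟩ := hf
  refine ⟨m, fun j => c * d j, t, ?_, ?_⟩
  · intro n
    show c * f n = _
    rw [h1 n, Finset.mul_sum]
    exact Finset.sum_congr rfl fun j _ => by ring
  · simp only [norm_mul]
    rw [← Finset.mul_sum]
    exact mul_le_mul_of_nonneg_left h2 (norm_nonneg _)

lemma TP.mul {r s : ℝ} {f g : ℤ → ℂ} (hf : TP r f) (hg : TP s g) :
    TP (r * s) (fun n => f n * g n) := by
  have hr := hf.nonneg
  obtain ⟨m, c, t, h1, h2⟩ := hf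
  obtain ⟨m', c', t', h1', h2'⟩ := hg
  have h := TP.of_fintype (ι := Fin m × Fin m') (fun p => c p.1 * c' p.2)
    (fun p => t p.1 + t' p.2) (r := r * s)
    (by
      simp only [norm_mul]
      rw [Fintype.sum_prod_type]
      simp only [← Finset.mul_sum]
      rw [← Finset.sum_mul]
      exact mul_le_mul h2 h2' (Finset.sum_nonneg fun _ _ => norm_nonneg _) hr)
  refine (funext fun n => ?_ : (fun n : ℤ => ∑ p : Fin m × Fin m',
    c p.1 * c' p.2 * e (n * (t p.1 + t' p.2))) = fun n => f n * g n) ▸ h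
  rw [Fintype.sum_prod_type, h1 n, h1' n, Finset.sum_mul]
  refine Finset.sum_congr rfl fun j _ => ?_
  rw [Finset.mul_sum]
  refine Finset.sum_congr rfl fun k _ => ?_
  rw [mul_add, e_add]
  ring

lemma TP.pow {r : ℝ} {f : ℤ → ℂ} (hf : TP r f) (k : ℕ) : TP (r ^ k) (fun n => f n ^ k) := by
  induction k with
  | zero =>
    have h := TP.const (1 : ℂ)
    rw [norm_one] at h
    simpa using h
  | succ k ih =>
    have h := TP.mul ih hf
    simpa only [pow_succ] using h

lemma TP.sum {ι : Type} (s : Finset ι) (r : ι → ℝ) (f : ι → ℤ → ℂ)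
    (h : ∀ i ∈ s, TP (r i) (f i)) : TP (∑ i ∈ s, r i) (fun n => ∑ i ∈ s, f i n) := by
  classical
  induction s using Finset.induction_on with
  | empty =>
    have h := TP.const (0 : ℂ)
    rw [norm_zero] at h
    simpa using h
  | insert a s ha ih =>
    have h1 := TP.add (h a (Finset.mem_insert_self a s))
      (ih fun i hi => h i (Finset.mem_insert_of_mem hi))
    rw [Finset.sum_insert ha]
    simpa only [Finset.sum_insert ha] using h1

lemma tps_e_conj (x : ℝ) : (starRingEnd ℂ) (e x) = e (-x) := by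
  unfold e
  rw [← Complex.exp_conj]
  congr 1
  simp only [map_mul, Complex.conj_I, Complex.conj_ofReal, map_ofNat]
  push_cast
  ring

lemma TP.tps_conj {r : ℝ} {f : ℤ → ℂ} (hf : TP r f) : TP r (fun n => (starRingEnd ℂ) (f n)) := by
  obtain ⟨m, c, t, h1, h2⟩ := hf
  refine ⟨m, fun j => (starRingEnd ℂ) (c j), fun j => -t j, ?_, ?_⟩
  · intro n
    show (starRingEnd ℂ) (f n) = _
    rw [h1 n, map_sum]
    refine Finset.sum_congr rfl fun j _ => ?_
    rw [map_mul, tps_e_conj, mul_neg]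
  · simpa only [RCLike.norm_conj] using h2

/-- Real parts. -/
lemma RTP.re {r : ℝ} {f : ℤ → ℂ} (hf : TP r f) : RTP r (fun n => (f n).re) := by
  have h := TP.smul (1 / 2 : ℂ) (TP.add hf hf.tps_conj)
  have hr : ‖(1 / 2 : ℂ)‖ * (r + r) = r := by
    rw [norm_div, norm_one, Complex.norm_ofNat]
    ring
  rw [hr] at h
  have he : (fun n : ℤ => (1 / 2 : ℂ) * (f n + (starRingEnd ℂ) (f n))) =
      fun n => (((f n).re : ℝ) : ℂ) := by
    funext n
    rw [Complex.add_conj]
    push_cast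
    ring
  rw [he] at h
  exact h

/-- Imaginary parts. -/
lemma RTP.im {r : ℝ} {f : ℤ → ℂ} (hf : TP r f) : RTP r (fun n => (f n).im) := by
  have h := RTP.re (TP.smul (-Complex.I) hf)
  have hr : ‖(-Complex.I : ℂ)‖ * r = r := by
    rw [norm_neg, Complex.norm_I, one_mul]
  rw [hr] at h
  refine (funext fun n => ?_ : (fun n : ℤ => (-Complex.I * f n).re) =
    fun n => (f n).im) ▸ h
  simp

lemma RTP.mono {r s : ℝ} {U : ℤ → ℝ} (h : RTP r U) (hrs : r ≤ s) : RTP s U :=
  TP.mono h hrs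

lemma RTP.smul {r : ℝ} {U : ℤ → ℝ} (c : ℝ) (h : RTP r U) : RTP (|c| * r) (fun n => c * U n) := by
  have h1 := TP.smul (c : ℂ) h
  rw [Complex.norm_real, Real.norm_eq_abs] at h1
  unfold RTP
  simpa only [Complex.ofReal_mul] using h1

lemma RTP.add {r s : ℝ} {U V : ℤ → ℝ} (h : RTP r U) (h' : RTP s V) :
    RTP (r + s) (fun n => U n + V n) := by
  have h1 := TP.add h h'
  unfold RTP
  simpa only [Complex.ofReal_add] using h1

lemma RTP.const (c : ℝ) : RTP |c| (fun _ => c) := by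
  have h1 := TP.const (c : ℂ)
  rw [Complex.norm_real, Real.norm_eq_abs] at h1
  exact h1

lemma RTP.sum {ι : Type} (s : Finset ι) (r : ι → ℝ) (U : ι → ℤ → ℝ)
    (h : ∀ i ∈ s, RTP (r i) (U i)) : RTP (∑ i ∈ s, r i) (fun n => ∑ i ∈ s, U i n) := by
  have h1 := TP.sum s r (fun i n => (U i n : ℂ)) h
  unfold RTP
  simpa only [Complex.ofReal_sum] using h1

lemma RTP.cos (t : ℝ) : RTP 1 (fun n => Real.cos (2 * Real.pi * (n * t))) := by
  have h := RTP.re (TP.char t)
  have he : (fun n : ℤ => (e (n * t)).re) =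
      fun n : ℤ => Real.cos (2 * Real.pi * (n * t)) := by
    funext n
    unfold e
    rw [show (2 * (Real.pi : ℂ) * ((((n : ℝ) * t : ℝ)) : ℂ) * Complex.I) =
      ((2 * Real.pi * (n * t) : ℝ) : ℂ) * Complex.I by push_cast; ring]
    exact Complex.exp_ofReal_mul_I_re _
  rw [he] at h
  exact h

lemma tps_e_nat_mul (k : ℕ) (x : ℝ) : e (k * x) = e x ^ k := by
  unfold e
  rw [← Complex.exp_nat_mul]
  congr 1
  push_cast
  ring

/-- The average of a character over `ℤ/M`. -/
lemma tps_sum_e_div (M : ℕ) (hM : 0 < M) (d : ℤ) (hd : |d| < M) :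
    (1 / (M : ℂ)) * ∑ k : Fin M, e ((d : ℝ) * ((k : ℕ) / (M : ℝ))) = if d = 0 then 1 else 0 := by
  have hM' : (M : ℝ) ≠ 0 := by positivity
  have hMC : (M : ℂ) ≠ 0 := by
    exact_mod_cast hM.ne'
  split_ifs with h
  · subst h
    simp only [Int.cast_zero, zero_mul, e_zero, Finset.sum_const, Finset.card_univ,
      Fintype.card_fin, nsmul_eq_mul, mul_one]
    field_simp
  · have h1 : ∀ k : Fin M, e ((d : ℝ) * ((k : ℕ) / (M : ℝ))) = e ((d : ℝ) / M) ^ (k : ℕ) := by
      intro k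
      rw [← tps_e_nat_mul]
      congr 1
      ring
    simp only [h1]
    rw [Fin.sum_univ_eq_sum_range (fun k => e ((d : ℝ) / M) ^ k) M]
    have h2 : e ((d : ℝ) / M) ≠ 1 := by
      intro h3
      unfold e at h3
      rw [Complex.exp_eq_one_iff] at h3
      obtain ⟨n, hn⟩ := h3
      have h4 : (2 * (Real.pi : ℂ) * Complex.I) ≠ 0 := by
        simp [Real.pi_ne_zero]
      have h5 : (((d : ℝ) / M : ℝ) : ℂ) = n := by
        apply mul_right_cancel₀ h4
        rw [← hn]
        ring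
      have h6 : (d : ℝ) / M = n := by exact_mod_cast h5
      have h7 : (d : ℝ) = n * M := by
        field_simp at h6
        linarith
      have h8 : d = n * M := by exact_mod_cast h7
      rcases eq_or_ne n 0 with h9 | h9
      · exact h (by rw [h8, h9, zero_mul])
      · have : (M : ℤ) ≤ |d| := by
          rw [h8, abs_mul, Nat.abs_cast]
          have : 1 ≤ |n| := Int.one_le_abs h9
          nlinarith
        omega
    rw [geom_sum_eq h2, ← tps_e_nat_mul]
    have h3 : (M : ℝ) * ((d : ℝ) / M) = (d : ℤ) := by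
      field_simp
    rw [h3, e_int, sub_self, zero_div, mul_zero]

/-- On a finite set, the indicator function of a point has norm `1`. -/
lemma RTP.exists_indicator (A : Finset ℤ) (l : ℤ) :
    ∃ U : ℤ → ℝ, RTP 1 U ∧ ∀ n ∈ A, U n = if n = l then 1 else 0 := by
  obtain ⟨M, hM0, hM⟩ : ∃ M : ℕ, 0 < M ∧ ∀ n ∈ A, |n - l| < M := by
    refine ⟨∑ n ∈ A, (n - l).natAbs + 1, by omega, ?_⟩
    intro n hn
    have h1 : (n - l).natAbs ≤ ∑ n ∈ A, (n - l).natAbs :=
      Finset.single_le_sum (f := fun n => (n - l).natAbs) (fun _ _ => Nat.zero_le _) hn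
    have h2 : |n - l| = ((n - l).natAbs : ℤ) := by
      rw [Int.natCast_natAbs]
    rw [h2]
    exact_mod_cast Nat.lt_succ_of_le h1
  have hMC : (M : ℝ) ≠ 0 := by positivity
  have h := TP.of_fintype (ι := Fin M) (fun k => (1 / (M : ℂ)) * e (-(l : ℝ) * ((k : ℕ) / (M : ℝ))))
    (fun k => (k : ℕ) / (M : ℝ)) (r := 1) (by
      simp only [norm_mul, norm_e, norm_div, norm_one, Complex.norm_natCast, mul_one,
        Finset.sum_const, Finset.card_univ, Fintype.card_fin, nsmul_eq_mul]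
      rw [mul_one_div_cancel hMC])
  refine ⟨_, RTP.re h, ?_⟩
  intro n hn
  have h1 : ∑ k : Fin M, (1 / (M : ℂ)) * e (-(l : ℝ) * ((k : ℕ) / (M : ℝ))) *
      e (n * ((k : ℕ) / (M : ℝ))) = if n = l then 1 else 0 := by
    have h2 := tps_sum_e_div M hM0 (n - l) (hM n hn)
    rw [Finset.mul_sum] at h2
    simp only [sub_eq_zero] at h2
    rw [← h2]
    refine Finset.sum_congr rfl fun k _ => ?_
    rw [mul_assoc, ← e_add]
    congr 2
    push_cast
    ring
  show (∑ k : Fin M, (1 / (M : ℂ)) * e (-(l : ℝ) * ((k : ℕ) / (M : ℝ))) *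
      e (n * ((k : ℕ) / (M : ℝ)))).re = _
  rw [h1]
  split_ifs <;> simp

end Pool.Agent.Lib.MP_6d8312_an
end
end

section

/-!
# Signed sums of a dissociate set: definitions
-/

set_option autoImplicit false

noncomputable section

namespace Pool.Agent.Lib.MP_6d8312_an.Q

/-- `E` is dissociate: the only relation `∑ c_x x = 0` between finitely many elements of `E`, with
coefficients in `{-2, -1, 0, 1, 2}`, is the trivial one. -/
def Dissociate (E : Set ℤ) : Prop :=
  ∀ (G : Finset ℤ) (c : ℤ → ℤ), (G : Set ℤ) ⊆ E → (∀ x ∈ G, |c x| ≤ 2) →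
    ∑ x ∈ G, c x * x = 0 → ∀ x ∈ G, c x = 0

/-- `s` is a choice of signs. -/
def IsSign (s : ℤ → ℤ) : Prop := ∀ x, s x = 1 ∨ s x = -1

/-- The signed sum of the elements of `G`. -/
def SS (s : ℤ → ℤ) (G : Finset ℤ) : ℤ := ∑ x ∈ G, s x * x

/-- The sums `± e_1 ± ... ± e_j` with `j ≤ k` and `e_1, ..., e_j` distinct elements of `E`. -/
def SignedSums (E : Set ℤ) (k : ℕ) : Set ℤ :=
  {n | ∃ (G : Finset ℤ) (s : ℤ → ℤ), (G : Set ℤ) ⊆ E ∧ G.card ≤ k ∧ IsSign s ∧ n = SS s G}

/-- `Λ` is a Sidon set: every sequence that tends to zero along `Λ` belongs to `A(Λ)`. -/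
def SidonSet (Λ : Set ℤ) : Prop :=
  ∀ a : ℤ → ℂ, (∀ ε : ℝ, 0 < ε → {n : ℤ | n ∈ Λ ∧ ε ≤ ‖a n‖}.Finite) → InA Λ a

/-- Exponential growth of `exp(i v)` in `A(Λ)`, tested by duality. -/
def GrowthG (Λ : Set ℤ) : Prop :=
  ∃ a c₀ γ : ℝ, 0 < a ∧ 0 < c₀ ∧ c₀ ≤ 1 ∧ 1 < γ ∧
    ∀ R K₀ : ℕ, ∃ K : ℕ, K₀ ≤ K ∧ ∃ A : Finset ℤ, (∀ n ∈ A, n ∈ Λ ∧ (R : ℤ) < |n|) ∧
      ∃ v : ℤ → ℝ, RTP (a * K) v ∧ ∃ w : ℤ → ℂ, (∀ θ : ℝ, ‖W A w θ‖ ≤ 1) ∧
        c₀ * γ ^ K ≤ ‖∑ l ∈ A, w l * Complex.exp (Complex.I * v l)‖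

/-- The sets of the elements of `Λ` that are signed sums of at most `k` elements of `F`. -/
def Part (Λ : Set ℤ) (F : Finset ℤ) (k : ℕ) : Set ℤ :=
  {n | n ∈ Λ ∧ n ≠ 0 ∧ n ∈ SignedSums (F : Set ℤ) k}

/-- The eight-point cosine. -/
def cs (x : ZMod 8) : ℝ := Real.cos (2 * Real.pi * (x.val / 8))

/-- The weight. -/
def om {K : ℕ} (X : Fin K → ZMod 8) : ℂ := ∏ κ, (1 - Complex.I * (cs (X κ) : ℂ))

/-- The phase function. -/
def ph {K : ℕ} (X : Fin K → ZMod 8) : ℝ := (1 / 2) * ∑ κ, cs (X κ)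

/-- The coefficient of the Riesz product `∏_x (1 + Re (c_x e(x t)))` at the signed sum of `G`. -/
def cof (c : ℤ → ℂ) (s : ℤ → ℤ) (G : Finset ℤ) : ℂ :=
  ∏ x ∈ G, (if s x = 1 then c x / 2 else (starRingEnd ℂ) (c x) / 2)

end Pool.Agent.Lib.MP_6d8312_an.Q
end
end

section

/-!
# The dichotomy: basic definitions

Everything takes place on `ZMod p`, `p` an odd prime, except quasi-independence, which is needed for
the integers too.
-/

set_option autoImplicit false

noncomputable section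

namespace Pool.Agent.Lib.MP_6d8312_an.KD

open Finset

/-- Quasi-independent finite sets: the only relation with coefficients in `{-1, 0, 1}` is the
trivial one. -/
def QI {M : Type*} [AddCommGroup M] (B : Finset M) : Prop :=
  ∀ c : M → ℤ, (∀ b ∈ B, c b = -1 ∨ c b = 0 ∨ c b = 1) → ∑ b ∈ B, c b • b = 0 →
    ∀ b ∈ B, c b = 0

open Classical in
/-- The largest size of a quasi-independent subset. -/
def qd {M : Type*} [AddCommGroup M] (A : Finset M) : ℕ :=
  (A.powerset.filter QI).sup Finset.card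

/-- Expectation of `f` over a random subset of `A`, each element being chosen independently with
probability `l`. -/
def bern {α : Type*} (l : ℝ) (A : Finset α) (f : Finset α → ℝ) : ℝ :=
  ∑ S ∈ A.powerset, l ^ S.card * (1 - l) ^ (A.card - S.card) * f S

variable {p : ℕ} [Fact p.Prime]

/-- The character `x ↦ exp (2 π i x / p)`. -/
def ch (x : ZMod p) : ℂ := ZMod.stdAddChar x

/-- Average over `ZMod p`. -/
def av (f : ZMod p → ℝ) : ℝ := (∑ x, f x) / p

open Classical in
/-- Normalised counting measure. -/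
def mu (P : Set (ZMod p)) : ℝ := ((univ.filter fun x => x ∈ P).card : ℝ) / p

/-- Average over `K`-tuples. -/
def avK {K : ℕ} (f : (Fin K → ZMod p) → ℝ) : ℝ := (∑ t, f t) / (p : ℝ) ^ K

open Classical in
/-- Normalised counting measure on `K`-tuples. -/
def muK {K : ℕ} (P : Set (Fin K → ZMod p)) : ℝ :=
  ((univ.filter fun t => t ∈ P).card : ℝ) / (p : ℝ) ^ K

/-- The point mass at `0`. -/
def dl (v : ZMod p) : ℝ := if v = 0 then 1 else 0

/-- `(op w s F) (v) = ∑_j w(j) F(v - j s)`. -/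
def op (w : ZMod p → ℝ) (s : ZMod p) (F : ZMod p → ℝ) : ZMod p → ℝ :=
  fun v => ∑ j, w j * F (v - j * s)

theorem op_comm (w w' : ZMod p → ℝ) (s s' : ZMod p) (F : ZMod p → ℝ) :
    op w s (op w' s' F) = op w' s' (op w s F) := by
  funext v
  simp only [op, Finset.mul_sum]
  rw [Finset.sum_comm]
  refine Finset.sum_congr rfl fun j _ => Finset.sum_congr rfl fun i _ => ?_
  rw [show v - i * s - j * s' = v - j * s' - i * s by ring]
  ring

instance op_leftComm (w : ZMod p → ℝ) : LeftCommutative (op w) :=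
  ⟨fun s s' F => op_comm w w s s' F⟩

/-- Apply `op w s` for all `s ∈ S` to `F`:
`(KK w F S) (v) = ∑_{n : S → ZMod p} ∏_s w(n_s) F(v - ∑_s n_s s)`. Use only `KK_empty` and
`KK_insert`. -/
def KK (w F : ZMod p → ℝ) (S : Finset (ZMod p)) : ZMod p → ℝ :=
  Multiset.foldr (op w) F S.val

/-- Functions of theta type. -/
def Theta (F : ZMod p → ℝ) : Prop :=
  ∃ (C : Type) (_ : Fintype C) (P : C → ZMod p → ℝ),
    ∀ x y, F x * F y = ∑ c, P c (x + y) * P c (x - y)

/-- The basic property of normalised functions of theta type. -/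
structure T2 (f : ZMod p → ℝ) : Prop where
  zero : f 0 = 1
  nonneg : ∀ x, 0 ≤ f x
  mul : ∀ x y, (f x * f y) ^ 2 ≤ f (x + y) * f (x - y)

/-- `F'` is a doubling of `F`. -/
def Dbl (F F' : ZMod p → ℝ) : Prop :=
  ∃ (C : Type) (_ : Fintype C) (Q : C → ZMod p → ℝ),
    (∀ x y, F' (x + y) * F' (x - y) = ∑ c, Q c x * Q c y) ∧ (∀ c x, Q c (-x) = Q c x) ∧
    ∀ c, ∃ (E : Type) (_ : Fintype E) (R : E → ZMod p → ℝ),
      ∀ x y, F x * Q c y = ∑ e, R e (y + x) * R e (y - x)

/-- The Villain weights: the Gaussian `exp (-m² / (2 β))` on the integers, folded modulo `p`. -/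
def vw (β : ℝ) (x : ZMod p) : ℝ :=
  ∑' m : ℤ, if (m : ZMod p) = x then Real.exp (-(m : ℝ) ^ 2 / (2 * β)) else 0

/-- The total mass of the Villain weights. -/
def ph (β : ℝ) : ℝ := ∑' m : ℤ, Real.exp (-(m : ℝ) ^ 2 / (2 * β))

/-- The Villain kernel of `S`. -/
def kf (β : ℝ) (S : Finset (ZMod p)) : ZMod p → ℝ := KK (vw β) dl S

/-- The normalised Villain kernel of `S`. -/
def fS (β : ℝ) (S : Finset (ZMod p)) (v : ZMod p) : ℝ := kf β S v / kf β S 0

/-- The logarithm of the mass at `0` of the Villain kernel of `S`. -/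
def nu (β : ℝ) (S : Finset (ZMod p)) : ℝ := Real.log (kf β S 0)

/-- The increment of `nu`. -/
def Fa (β : ℝ) (a : ZMod p) (S : Finset (ZMod p)) : ℝ := nu β (insert a S) - nu β S

/-- The Riesz product average. -/
def rz (ξ : ℝ) (A : Finset (ZMod p)) : ℝ :=
  av (fun t => ∏ a ∈ A, (1 + ξ * (ch (a * t)).re))

/-- The weights `∏_i (1 - (i/4) e(a t_i))`. -/
def wt {K : ℕ} (t : Fin K → ZMod p) (a : ZMod p) : ℂ :=
  ∏ i, (1 - Complex.I * (1 / 4) * ch (a * t i))

/-- The phases `(1/4) ∑_i cos (a t_i)`. -/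
def phs {K : ℕ} (t : Fin K → ZMod p) (a : ZMod p) : ℝ := (1 / 4) * ∑ i, (ch (a * t i)).re

/-- Exponential growth after `K` steps on a subset of `A`. -/
def Succ (A : Finset (ZMod p)) (K : ℕ) : Prop :=
  ∃ A' ⊆ A, ∃ (t : Fin K → ZMod p) (L : ℝ), 0 < L ∧
    (∀ θ, ‖∑ a ∈ A', wt t a * ch (a * θ)‖ ≤ L) ∧
    (1 / 10) * (2001 / 2000 : ℝ) ^ K * L ≤
      ‖∑ a ∈ A', wt t a * Complex.exp (Complex.I * phs t a)‖

/-- Critical sets for the ratio `|A| / qd A`. -/
structure Crit (A : Finset (ZMod p)) : Prop where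
  ne : A.Nonempty
  zero : (0 : ZMod p) ∉ A
  le : ∀ A' ⊆ A, A'.card * qd A ≤ A.card * qd A'

end Pool.Agent.Lib.MP_6d8312_an.KD
end
end

section

/-!
# Quasi-independence: basic facts

All proofs are short.  `QI.mono`: extend a relation on `B'` by zero (use `c' x = if x ∈ B' then c x
else 0`).  `exists_qi`: `A.powerset.filter QI` is nonempty (`∅` is QI), `Finset.exists_mem_eq_sup`.
`card_le_three_pow`: take `B ⊆ A` QI with `B.card = qd A`.  CLAIM: every `a ∈ A` is
`∑ b ∈ B, ε b • b` with `ε : B → {-1,0,1}`.  If `a ∈ B` clear.  Otherwise `insert a B ⊆ A` is larger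
than `qd A`, so it is not QI: there is a nontrivial `c` with `c a • a + ∑_B c b • b = 0`; `c a ≠ 0`
(otherwise, `B` being QI, all `c b = 0` on `B` and then `c = 0` on `insert a B`), so `c a = ± 1` and
`a = ∓ ∑ c b • b`.  So `A` is contained in the image of `Fintype.piFinset (fun _ : B => {-1,0,1})`
(or of `Finset.pi`) under `ε ↦ ∑ ε b • b`, which has at most `3 ^ B.card` elements.
`qd_pos`: `{a}` is QI for `a ≠ 0`.
-/

set_option autoImplicit false

noncomputable section

namespace Pool.Agent.Lib.MP_6d8312_an.KD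

open Finset

variable {M : Type*} [AddCommGroup M]

theorem QI.mono {B B' : Finset M} (h : B' ⊆ B) (hB : QI B) : QI B' := by
  classical
  intro c hc hs b hb
  have h1 := hB (fun x => if x ∈ B' then c x else 0) ?_ ?_ b (h hb)
  · simpa [hb] using h1
  · intro x _
    by_cases hx : x ∈ B'
    · simpa [hx] using hc x hx
    · simp [hx]
  · rw [← hs, ← Finset.sum_subset h]
    · refine Finset.sum_congr rfl fun x hx => ?_
      simp [hx]
    · intro x _ hx
      simp [hx]

theorem Qd_empty : QI (∅ : Finset M) := by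
  intro c _ _ b hb
  simp at hb

theorem exists_qi (A : Finset M) : ∃ B ⊆ A, QI B ∧ B.card = qd A := by
  classical
  have hne : (A.powerset.filter QI).Nonempty :=
    ⟨∅, by simp [Finset.mem_filter, Qd_empty]⟩
  obtain ⟨B, hB, hs⟩ := Finset.exists_mem_eq_sup (A.powerset.filter QI) hne Finset.card
  rw [Finset.mem_filter, Finset.mem_powerset] at hB
  refine ⟨B, hB.1, hB.2, ?_⟩
  unfold qd
  convert hs.symm

theorem le_qd {A B : Finset M} (h : B ⊆ A) (hB : QI B) : B.card ≤ qd A := by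
  classical
  unfold qd
  have hmem : B ∈ A.powerset.filter QI := by
    rw [Finset.mem_filter, Finset.mem_powerset]
    exact ⟨h, hB⟩
  have := Finset.le_sup (f := Finset.card) hmem
  convert this

theorem qd_mono {A A' : Finset M} (h : A' ⊆ A) : qd A' ≤ qd A := by
  obtain ⟨B, hB, hQ, hc⟩ := exists_qi A'
  rw [← hc]
  exact le_qd (hB.trans h) hQ

theorem card_le_three_pow (A : Finset M) : A.card ≤ 3 ^ qd A := by
  classical
  obtain ⟨B, hB, hQ, hc⟩ := exists_qi A
  let E : Finset ℤ := {-1, 0, 1}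
  have key : ∀ a ∈ A, ∃ e : (b : M) → b ∈ B → ℤ, e ∈ B.pi (fun _ => E) ∧
      a = ∑ b ∈ B.attach, e b.1 b.2 • (b.1 : M) := by
    intro a ha
    by_cases haB : a ∈ B
    · refine ⟨fun b _ => if b = a then 1 else 0, ?_, ?_⟩
      · rw [Finset.mem_pi]
        intro b _
        by_cases hb : b = a <;> simp [E, hb]
      · rw [Finset.sum_attach B (fun b => (if b = a then (1 : ℤ) else 0) • (b : M))]
        simp [haB]
    · have hnot : ¬ QI (insert a B) := by
        intro hq
        have h1 := le_qd (Finset.insert_subset ha hB) hq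
        rw [Finset.card_insert_of_notMem haB] at h1
        omega
      unfold QI at hnot
      push Not at hnot
      obtain ⟨c, hcr, hcs, x, hx, hx0⟩ := hnot
      have hca : c a ≠ 0 := by
        intro h0
        rw [Finset.sum_insert haB, h0, zero_smul, zero_add] at hcs
        have h2 := hQ c (fun b hb => hcr b (Finset.mem_insert_of_mem hb)) hcs
        rcases Finset.mem_insert.1 hx with rfl | hx
        · exact hx0 h0
        · exact hx0 (h2 x hx)
      rw [Finset.sum_insert haB] at hcs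
      refine ⟨fun b _ => - (c a * c b), ?_, ?_⟩
      · rw [Finset.mem_pi]
        intro b hb
        rcases hcr a (Finset.mem_insert_self _ _) with h1 | h1 | h1
        · rcases hcr b (Finset.mem_insert_of_mem hb) with h2 | h2 | h2 <;> simp [E, h1, h2]
        · exact absurd h1 hca
        · rcases hcr b (Finset.mem_insert_of_mem hb) with h2 | h2 | h2 <;> simp [E, h1, h2]
      · rw [Finset.sum_attach B (fun b => (-(c a * c b)) • (b : M))]
        have h3 : ∑ b ∈ B, (-(c a * c b)) • (b : M) = -(c a • ∑ b ∈ B, c b • b) := by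
          rw [Finset.smul_sum, ← Finset.sum_neg_distrib]
          refine Finset.sum_congr rfl fun b _ => ?_
          rw [neg_smul, mul_smul]
        have h4 : ∑ b ∈ B, c b • b = -(c a • a) := by
          rw [eq_neg_iff_add_eq_zero, add_comm]; exact hcs
        rw [h3, h4, smul_neg, neg_neg, ← mul_smul]
        rcases hcr a (Finset.mem_insert_self _ _) with h1 | h1 | h1
        · simp [h1]
        · exact absurd h1 hca
        · simp [h1]
  have hsub : A ⊆ (B.pi (fun _ => E)).image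
      (fun e => ∑ b ∈ B.attach, e b.1 b.2 • (b.1 : M)) := by
    intro a ha
    obtain ⟨e, he, hae⟩ := key a ha
    rw [Finset.mem_image]
    exact ⟨e, he, hae.symm⟩
  calc A.card ≤ ((B.pi (fun _ => E)).image
      (fun e => ∑ b ∈ B.attach, e b.1 b.2 • (b.1 : M))).card := Finset.card_le_card hsub
    _ ≤ (B.pi (fun _ => E)).card := Finset.card_image_le
    _ = 3 ^ qd A := by
      rw [Finset.card_pi, Finset.prod_const, hc]
      congr 1

theorem qd_pos {A : Finset M} {a : M} (ha : a ∈ A) (h0 : a ≠ 0) : 1 ≤ qd A := by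
  classical
  have hq : QI ({a} : Finset M) := by
    intro c hc hs b hb
    rw [Finset.mem_singleton] at hb
    subst hb
    rw [Finset.sum_singleton] at hs
    rcases hc b (Finset.mem_singleton_self _) with h | h | h
    · rw [h] at hs
      simp at hs
      exact absurd hs h0
    · exact h
    · rw [h] at hs
      simp at hs
      exact absurd hs h0
  have := le_qd (Finset.singleton_subset_iff.2 ha) hq
  simpa using this

end Pool.Agent.Lib.MP_6d8312_an.KD
end
end

section

/-!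
# Critical sets exist

`exists_crit`: among the nonempty `A' ⊆ A` take `A₀` with `A'.card / qd A'` maximal
(`Finset.exists_max_image`; `qd A' ≥ 1` for nonempty `A'` since `0 ∉ A`, `qd_pos`).  Then for
nonempty `A' ⊆ A₀` we have `A'.card * qd A₀ ≤ A₀.card * qd A'`, which holds trivially for `A' = ∅`;
and `A₀.card / qd A₀ ≥ A.card / qd A ≥ D₀`.
`Crit.dens_le`: `A.card ≤ 3 ^ qd A` and `qd A ≥ 1`.
`Crit.card_le`: divide `Crit.le` by `qd A`.
-/

set_option autoImplicit false

noncomputable section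

namespace Pool.Agent.Lib.MP_6d8312_an.KD

open Finset

variable {p : ℕ} [Fact p.Prime]

theorem Crit.qd_pos {A : Finset (ZMod p)} (h : Crit A) : 1 ≤ qd A := by
  obtain ⟨a, ha⟩ := h.ne
  refine KD.qd_pos ha ?_
  rintro rfl
  exact h.zero ha

theorem exists_crit (A : Finset (ZMod p)) (D₀ : ℝ) (hA : A.Nonempty) (h0 : (0 : ZMod p) ∉ A)
    (h : D₀ * qd A ≤ A.card) : ∃ A₀ ⊆ A, Crit A₀ ∧ D₀ * qd A₀ ≤ A₀.card := by
  classical
  have hpos : ∀ A' ⊆ A, A'.Nonempty → (0 : ℝ) < (qd A' : ℝ) := by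
    intro A' hA' hne
    obtain ⟨a, ha⟩ := hne
    have h1 : 1 ≤ qd A' := by
      refine KD.qd_pos ha ?_
      rintro rfl
      exact h0 (hA' ha)
    exact_mod_cast h1
  have hS : (A.powerset.filter fun A' => A'.Nonempty).Nonempty :=
    ⟨A, by simpa using hA⟩
  obtain ⟨A₀, hA₀, hmax⟩ := Finset.exists_max_image (A.powerset.filter fun A' => A'.Nonempty)
    (fun A' => (A'.card : ℝ) / qd A') hS
  rw [Finset.mem_filter, Finset.mem_powerset] at hA₀
  obtain ⟨hsub, hne⟩ := hA₀
  have hq0 := hpos A₀ hsub hne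
  refine ⟨A₀, hsub, ⟨hne, fun hz => h0 (hsub hz), ?_⟩, ?_⟩
  · intro A' hA'
    rcases A'.eq_empty_or_nonempty with rfl | hne'
    · simp
    have h1 := hmax A' (by
      rw [Finset.mem_filter, Finset.mem_powerset]
      exact ⟨hA'.trans hsub, hne'⟩)
    have hq1 := hpos A' (hA'.trans hsub) hne'
    rw [div_le_div_iff₀ hq1 hq0] at h1
    exact_mod_cast h1
  · have h1 := hmax A (by
      rw [Finset.mem_filter, Finset.mem_powerset]
      exact ⟨Finset.Subset.refl A, hA⟩)
    have hq := hpos A (Finset.Subset.refl A) hA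
    have h2 : D₀ ≤ (A.card : ℝ) / qd A := by
      rw [le_div_iff₀ hq]
      exact h
    have h3 : D₀ ≤ (A₀.card : ℝ) / qd A₀ := h2.trans h1
    rwa [le_div_iff₀ hq0] at h3

theorem Crit.dens_le {A : Finset (ZMod p)} (h : Crit A) :
    (A.card : ℝ) / qd A ≤ 3 ^ qd A := by
  have h1 : (1 : ℝ) ≤ (qd A : ℝ) := by exact_mod_cast h.qd_pos
  have h2 : (A.card : ℝ) ≤ 3 ^ qd A := by exact_mod_cast card_le_three_pow A
  exact (div_le_self (Nat.cast_nonneg _) h1).trans h2

theorem Crit.card_le {A : Finset (ZMod p)} (h : Crit A) {A' : Finset (ZMod p)} (hA : A' ⊆ A) :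
    (A'.card : ℝ) ≤ (A.card : ℝ) / qd A * qd A' := by
  have h1 : (0 : ℝ) < (qd A : ℝ) := by exact_mod_cast h.qd_pos
  have h2 : (A'.card : ℝ) * qd A ≤ A.card * qd A' := by exact_mod_cast h.le A' hA
  rw [div_mul_eq_mul_div, le_div_iff₀ h1]
  exact h2

end Pool.Agent.Lib.MP_6d8312_an.KD
end
end

section

/-!
# Averages over `ZMod p`

Everything is elementary: `av f = (∑ f) / p`, `p > 0`, `Fintype.card (ZMod p) = p` (`ZMod.card`).
`av_dil`: `Fintype.sum_equiv` or `Fintype.sum_bijective` with `x ↦ i * x`.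
`mu_eq`: `Finset.sum_boole`, `mu_markov`: `c * 1_{c ≤ f} ≤ f` for `f ≥ 0`.
-/

set_option autoImplicit false

noncomputable section

namespace Pool.Agent.Lib.MP_6d8312_an.KD

open Finset

variable {p : ℕ} [Fact p.Prime]

theorem p_pos : (0 : ℝ) < p := by
  exact_mod_cast (Fact.out : p.Prime).pos

theorem av_const (c : ℝ) : av (fun _ : ZMod p => c) = c := by
  unfold av
  rw [Finset.sum_const, Finset.card_univ, ZMod.card, nsmul_eq_mul,
    mul_div_cancel_left₀ _ (ne_of_gt p_pos)]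

theorem av_add (f g : ZMod p → ℝ) : av (fun x => f x + g x) = av f + av g := by
  unfold av
  rw [Finset.sum_add_distrib, add_div]

theorem av_sub (f g : ZMod p → ℝ) : av (fun x => f x - g x) = av f - av g := by
  unfold av
  rw [Finset.sum_sub_distrib, sub_div]

theorem av_mul_left (c : ℝ) (f : ZMod p → ℝ) : av (fun x => c * f x) = c * av f := by
  unfold av
  rw [← Finset.mul_sum, mul_div_assoc]

theorem av_mul_right (c : ℝ) (f : ZMod p → ℝ) : av (fun x => f x * c) = av f * c := by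
  unfold av
  rw [← Finset.sum_mul, div_mul_eq_mul_div]

theorem av_mono {f g : ZMod p → ℝ} (h : ∀ x, f x ≤ g x) : av f ≤ av g := by
  unfold av
  exact div_le_div_of_nonneg_right (Finset.sum_le_sum fun x _ => h x) p_pos.le

theorem av_nonneg {f : ZMod p → ℝ} (h : ∀ x, 0 ≤ f x) : 0 ≤ av f := by
  unfold av
  exact div_nonneg (Finset.sum_nonneg fun x _ => h x) p_pos.le

theorem av_finset_sum {ι : Type*} (s : Finset ι) (f : ι → ZMod p → ℝ) :
    av (fun x => ∑ i ∈ s, f i x) = ∑ i ∈ s, av (f i) := by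
  unfold av
  rw [Finset.sum_comm, Finset.sum_div]

theorem av_shift (f : ZMod p → ℝ) (c : ZMod p) : av (fun x => f (x + c)) = av f := by
  unfold av
  rw [Fintype.sum_equiv (Equiv.addRight c) (fun x => f (x + c)) f (fun x => rfl)]

theorem av_dil (f : ZMod p → ℝ) {i : ZMod p} (hi : i ≠ 0) : av (fun x => f (i * x)) = av f := by
  unfold av
  rw [Fintype.sum_equiv (Equiv.mulLeft₀ i hi) (fun x => f (i * x)) f (fun x => rfl)]

theorem av_comm (f : ZMod p → ZMod p → ℝ) :
    av (fun x => av (fun y => f x y)) = av (fun y => av (fun x => f x y)) := by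
  unfold av
  rw [← Finset.sum_div, ← Finset.sum_div, Finset.sum_comm]

theorem exists_av_le (f : ZMod p → ℝ) : ∃ x, av f ≤ f x := by
  by_contra h
  push Not at h
  have h1 : ∑ x : ZMod p, f x < ∑ _x : ZMod p, av f :=
    Finset.sum_lt_sum_of_nonempty ⟨0, Finset.mem_univ 0⟩ fun x _ => h x
  rw [Finset.sum_const, Finset.card_univ, ZMod.card, nsmul_eq_mul] at h1
  have h2 : (p : ℝ) * av f = ∑ x : ZMod p, f x := by
    unfold av
    exact mul_div_cancel₀ _ (ne_of_gt p_pos)
  rw [h2] at h1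
  exact lt_irrefl _ h1

open Classical in
theorem mu_eq (P : Set (ZMod p)) : mu P = av (fun x => if x ∈ P then 1 else 0) := by
  unfold mu av
  rw [Finset.sum_boole]

theorem mu_nonneg (P : Set (ZMod p)) : 0 ≤ mu P := by
  classical
  rw [mu_eq]
  exact av_nonneg fun x => by split_ifs <;> norm_num

theorem mu_le_one (P : Set (ZMod p)) : mu P ≤ 1 := by
  classical
  rw [mu_eq]
  calc av (fun x => if x ∈ P then (1 : ℝ) else 0) ≤ av (fun _ : ZMod p => (1 : ℝ)) :=
        av_mono fun x => by split_ifs <;> norm_num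
    _ = 1 := av_const 1

theorem mu_univ : mu (Set.univ : Set (ZMod p)) = 1 := by
  classical
  rw [mu_eq]
  simp only [Set.mem_univ, if_true]
  exact av_const 1

theorem mu_mono {P Q : Set (ZMod p)} (h : P ⊆ Q) : mu P ≤ mu Q := by
  classical
  rw [mu_eq, mu_eq]
  refine av_mono fun x => ?_
  by_cases hx : x ∈ P
  · rw [if_pos hx, if_pos (h hx)]
  · rw [if_neg hx]
    split_ifs <;> norm_num

theorem mu_union_le (P Q : Set (ZMod p)) : mu (P ∪ Q) ≤ mu P + mu Q := by
  classical
  rw [mu_eq, mu_eq, mu_eq, ← av_add]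
  refine av_mono fun x => ?_
  by_cases hP : x ∈ P
  · rw [if_pos (show x ∈ P ∪ Q from Or.inl hP), if_pos hP]
    split_ifs <;> norm_num
  · by_cases hQ : x ∈ Q
    · rw [if_pos (show x ∈ P ∪ Q from Or.inr hQ), if_neg hP, if_pos hQ]
      norm_num
    · rw [if_neg (show x ∉ P ∪ Q from fun h => h.elim hP hQ), if_neg hP, if_neg hQ]
      norm_num

theorem mu_iUnion_le {ι : Type*} (s : Finset ι) (P : ι → Set (ZMod p)) :
    mu (⋃ i ∈ s, P i) ≤ ∑ i ∈ s, mu (P i) := by
  classical
  have h1 : ∀ i, mu (P i) = av (fun x => if x ∈ P i then 1 else 0) := fun i => mu_eq (P i)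
  rw [mu_eq, Finset.sum_congr rfl (fun i _ => h1 i), ← av_finset_sum]
  refine av_mono fun x => ?_
  by_cases hx : x ∈ ⋃ i ∈ s, P i
  · rw [if_pos hx]
    obtain ⟨i, hi, hxi⟩ := Set.mem_iUnion₂.1 hx
    calc (1 : ℝ) = if x ∈ P i then 1 else 0 := by rw [if_pos hxi]
      _ ≤ ∑ i ∈ s, if x ∈ P i then (1 : ℝ) else 0 :=
        Finset.single_le_sum (f := fun i => if x ∈ P i then (1 : ℝ) else 0)
          (fun j _ => by split_ifs <;> norm_num) hi
  · rw [if_neg hx]
    exact Finset.sum_nonneg fun j _ => by split_ifs <;> norm_num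

theorem mu_shift (P : Set (ZMod p)) (c : ZMod p) : mu {x | x + c ∈ P} = mu P := by
  classical
  rw [mu_eq, mu_eq]
  exact av_shift (fun x => if x ∈ P then 1 else 0) c

theorem mu_dil (P : Set (ZMod p)) {i : ZMod p} (hi : i ≠ 0) : mu {x | i * x ∈ P} = mu P := by
  classical
  rw [mu_eq, mu_eq]
  exact av_dil (fun x => if x ∈ P then 1 else 0) hi

theorem mu_markov {f : ZMod p → ℝ} (hf : ∀ x, 0 ≤ f x) (c : ℝ) : c * mu {x | c ≤ f x} ≤ av f := by
  classical
  rw [mu_eq, ← av_mul_left]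
  refine av_mono fun x => ?_
  by_cases hx : c ≤ f x
  · rw [if_pos (show x ∈ {x | c ≤ f x} from hx), mul_one]
    exact hx
  · rw [if_neg (show x ∉ {x | c ≤ f x} from hx), mul_zero]
    exact hf x

theorem mu_compl (P : Set (ZMod p)) : mu Pᶜ = 1 - mu P := by
  classical
  rw [mu_eq, mu_eq, eq_sub_iff_add_eq, ← av_add, ← av_const (p := p) 1]
  congr 1
  funext x
  by_cases hx : x ∈ P
  · rw [if_neg (fun h => h hx), if_pos hx, zero_add, av_const]
  · rw [if_pos (show x ∈ Pᶜ from hx), if_neg hx, add_zero, av_const]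

theorem mu_nonempty {P : Set (ZMod p)} (h : 0 < mu P) : P.Nonempty := by
  classical
  by_contra hP
  rw [Set.not_nonempty_iff_eq_empty] at hP
  rw [hP, mu_eq] at h
  simp only [Set.mem_empty_iff_false, if_false] at h
  rw [av_const] at h
  exact lt_irrefl _ h

/-- Two disjoint sets. -/
theorem mu_disjoint_sum {ι : Type*} (s : Finset ι) (P : ι → Set (ZMod p))
    (h : ∀ i ∈ s, ∀ j ∈ s, i ≠ j → Disjoint (P i) (P j)) : ∑ i ∈ s, mu (P i) ≤ 1 := by
  classical
  have h1 : ∀ i, mu (P i) = av (fun x => if x ∈ P i then 1 else 0) := fun i => mu_eq (P i)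
  rw [Finset.sum_congr rfl (fun i _ => h1 i), ← av_finset_sum]
  refine le_trans (av_mono (g := fun _ => (1 : ℝ)) fun x => ?_) (av_const 1).le
  rw [Finset.sum_boole]
  have h2 : (s.filter fun i => x ∈ P i).card ≤ 1 := by
    rw [Finset.card_le_one]
    intro i hi j hj
    rw [Finset.mem_filter] at hi hj
    by_contra hij
    exact Set.disjoint_left.1 (h i hi.1 j hj.1 hij) hi.2 hj.2
  exact_mod_cast h2

end Pool.Agent.Lib.MP_6d8312_an.KD
end
end

section

/-!
# The characters of `ZMod p`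

`ZMod.stdAddChar` is an additive character with values in `ℂ`: `AddChar.map_add_eq_mul`,
`AddChar.map_zero_eq_one`, `ZMod.stdAddChar_coe`, `ZMod.stdAddChar_apply`, `ZMod.toCircle`
(norm one), `AddChar.sum_mulShift`, `ZMod.isPrimitive_stdAddChar`.
`ch_eq_e`: `x = (x.val : ZMod p)`, so `(n : ZMod p) * x = ((n * x.val : ℤ) : ZMod p)` and
`ZMod.stdAddChar_coe` gives `exp (2 π i (n x.val) / p)`.
-/

set_option autoImplicit false

noncomputable section

namespace Pool.Agent.Lib.MP_6d8312_an.KD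

open Finset

variable {p : ℕ} [Fact p.Prime]

theorem ch_add (x y : ZMod p) : ch (x + y) = ch x * ch y := by
  exact AddChar.map_add_eq_mul _ _ _

theorem ch_zero : ch (0 : ZMod p) = 1 := by
  exact AddChar.map_zero_eq_one _

theorem norm_ch (x : ZMod p) : ‖ch x‖ = 1 := by
  unfold ch
  rw [ZMod.stdAddChar_apply]
  exact Circle.norm_coe _

theorem ch_neg (x : ZMod p) : ch (-x) = (starRingEnd ℂ) (ch x) := by
  unfold ch
  rw [ZMod.stdAddChar_apply, ZMod.stdAddChar_apply, AddChar.map_neg_eq_inv]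
  exact Circle.coe_inv_eq_conj _

theorem ch_nsmul (k : ℕ) (x : ZMod p) : ch ((k : ZMod p) * x) = ch x ^ k := by
  unfold ch
  rw [← nsmul_eq_mul, AddChar.map_nsmul_eq_pow]

theorem ch_sum {ι : Type*} (s : Finset ι) (x : ι → ZMod p) :
    ch (∑ i ∈ s, x i) = ∏ i ∈ s, ch (x i) := by
  classical
  induction s using Finset.induction_on with
  | empty => rw [Finset.sum_empty, Finset.prod_empty, ch_zero]
  | insert a s ha ih => rw [Finset.sum_insert ha, Finset.prod_insert ha, ch_add, ih]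

theorem sum_ch (a : ZMod p) : ∑ x, ch (a * x) = if a = 0 then (p : ℂ) else 0 := by
  have h := AddChar.sum_mulShift (ψ := (ZMod.stdAddChar : AddChar (ZMod p) ℂ)) a
    (ZMod.isPrimitive_stdAddChar p)
  rw [ZMod.card] at h
  have h2 : ∑ x, ch (a * x) = ∑ x : ZMod p, (ZMod.stdAddChar : AddChar (ZMod p) ℂ) (x * a) := by
    refine Finset.sum_congr rfl fun x _ => ?_
    rw [mul_comm]
    rfl
  rw [h2, h]
  split_ifs <;> simp

/-- For `a ≠ 0`. -/
theorem sum_ch_of_ne {a : ZMod p} (ha : a ≠ 0) : ∑ x, ch (a * x) = 0 := by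
  rw [sum_ch, if_neg ha]

theorem ch_eq_e (n : ℤ) (x : ZMod p) :
    ch ((n : ZMod p) * x) = e (n * ((x.val : ℝ) / p)) := by
  have h1 : ((n : ZMod p) * x) = ((n * (x.val : ℤ) : ℤ) : ZMod p) := by
    push_cast
    rw [ZMod.natCast_zmod_val]
  unfold ch
  rw [h1, ZMod.stdAddChar_coe]
  unfold e
  congr 1
  push_cast
  ring

theorem abs_re_ch_le (z : ℂ) (hz : ‖z‖ ≤ 1) (x : ZMod p) : |(z * ch x).re| ≤ 1 := by
  refine (Complex.abs_re_le_norm _).trans ?_
  rw [norm_mul, norm_ch, mul_one]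
  exact hz

theorem neg_one_le_re_ch (x : ZMod p) : -1 ≤ (ch x).re := by
  have h := abs_re_ch_le 1 (by simp) x
  rw [one_mul] at h
  exact (abs_le.1 h).1

theorem re_ch_le_one (x : ZMod p) : (ch x).re ≤ 1 := by
  have h := abs_re_ch_le 1 (by simp) x
  rw [one_mul] at h
  exact (abs_le.1 h).2

theorem re_ch_neg (x : ZMod p) : (ch (-x)).re = (ch x).re := by
  rw [ch_neg, Complex.conj_re]

end Pool.Agent.Lib.MP_6d8312_an.KD
end
end

section

/-!
# Fourier transforms on `ZMod p`

`hat_op`: `∑_v ∑_j w(j) F(v - j s) ch(v t)`, put `v = v' + j s`.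
`hat_KK`: `Finset.induction_on`, with `KK_insert'` (`Finset.insert_val_of_notMem`,
`Multiset.foldr_cons`).
`hat_inv`: `sum_ch`.  `norm_hat_le`: `norm_ch`.
-/

set_option autoImplicit false

noncomputable section

namespace Pool.Agent.Lib.MP_6d8312_an.KD

open Finset

variable {p : ℕ} [Fact p.Prime]

theorem KK_empty' (w F : ZMod p → ℝ) : KK w F ∅ = F := by
  simp [KK]

theorem KK_insert' (w F : ZMod p → ℝ) {s : ZMod p} {S : Finset (ZMod p)} (hs : s ∉ S) :
    KK w F (insert s S) = op w s (KK w F S) := by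
  unfold KK
  rw [Finset.insert_val_of_notMem hs, Multiset.foldr_cons]

/-- The Fourier transform. -/
def hat (F : ZMod p → ℝ) (t : ZMod p) : ℂ := ∑ v, (F v : ℂ) * ch (v * t)

theorem hat_op (w F : ZMod p → ℝ) (s t : ZMod p) : hat (op w s F) t = hat w (s * t) * hat F t := by
  unfold hat op
  have h1 : ∀ v : ZMod p, ((∑ j, w j * F (v - j * s) : ℝ) : ℂ) * ch (v * t) =
      ∑ j, ((w j : ℂ) * ch (j * (s * t))) * ((F (v - j * s) : ℂ) * ch ((v - j * s) * t)) := by
    intro v
    push_cast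
    rw [Finset.sum_mul]
    refine Finset.sum_congr rfl fun j _ => ?_
    have h2 : ch (v * t) = ch (j * (s * t)) * ch ((v - j * s) * t) := by
      rw [← ch_add]; congr 1; ring
    rw [h2]; ring
  rw [Finset.sum_congr rfl fun v _ => h1 v, Finset.sum_comm, Finset.sum_mul]
  refine Finset.sum_congr rfl fun j _ => ?_
  rw [← Finset.mul_sum]
  congr 1
  exact Fintype.sum_equiv (Equiv.subRight (j * s)) _ _ (fun v => rfl)

theorem hat_KK (w F : ZMod p → ℝ) (S : Finset (ZMod p)) (t : ZMod p) :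
    hat (KK w F S) t = (∏ s ∈ S, hat w (s * t)) * hat F t := by
  induction S using Finset.induction_on with
  | empty => rw [KK_empty']; simp
  | insert a S ha ih => rw [KK_insert' w F ha, hat_op, ih, Finset.prod_insert ha, mul_assoc]

theorem hat_inv (F : ZMod p → ℝ) (v : ZMod p) :
    (F v : ℂ) * p = ∑ t, hat F t * ch (-(v * t)) := by
  unfold hat
  have h1 : ∀ t : ZMod p, (∑ u, (F u : ℂ) * ch (u * t)) * ch (-(v * t)) =
      ∑ u, (F u : ℂ) * ch ((u - v) * t) := by
    intro t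
    rw [Finset.sum_mul]
    refine Finset.sum_congr rfl fun u _ => ?_
    rw [mul_assoc, ← ch_add]; congr 2; ring
  rw [Finset.sum_congr rfl fun t _ => h1 t, Finset.sum_comm]
  have h2 : ∀ u : ZMod p, ∑ t, (F u : ℂ) * ch ((u - v) * t) =
      if u = v then (F u : ℂ) * p else 0 := by
    intro u
    rw [← Finset.mul_sum, sum_ch]
    by_cases h : u = v
    · simp [h]
    · rw [if_neg h, if_neg (sub_ne_zero.mpr h), mul_zero]
  rw [Finset.sum_congr rfl fun u _ => h2 u]
  simp

theorem norm_hat_le (F : ZMod p → ℝ) (hF : ∀ v, 0 ≤ F v) (t : ZMod p) :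
    ‖hat F t‖ ≤ ∑ v, F v := by
  unfold hat
  refine (norm_sum_le _ _).trans (le_of_eq (Finset.sum_congr rfl fun v _ => ?_))
  rw [norm_mul, norm_ch, mul_one, Complex.norm_real, Real.norm_of_nonneg (hF v)]

theorem hat_dl (t : ZMod p) : hat dl t = 1 := by
  unfold hat dl
  rw [Finset.sum_eq_single (0 : ZMod p)]
  · simp [ch_zero]
  · intro b _ hb; simp [hb]
  · intro h; exact absurd (Finset.mem_univ _) h

end Pool.Agent.Lib.MP_6d8312_an.KD
end
end

section

/-!
# Stability of theta functions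

`theta_dl`: `C = Unit`, `P = dl`: `x = y = 0` iff `x + y = 0` and `x - y = 0` (`2` is invertible in
`ZMod p` for `p ≠ 2`).
`Theta.op`: `(op w s F) x (op w s F) y = ∑_{j,j'} w j w j' F(x - j s) F(y - j' s)
= ∑_{j,j'} ∑_e u_e(j+j') u_e(j-j') ∑_c P_c(x+y-(j+j')s) P_c(x-y-(j-j')s)`; `(j,j') ↦ (j+j', j-j')`
is a bijection of `ZMod p × ZMod p` (`Fintype.sum_bijective` or `Equiv`, inverse
`(J,J') ↦ ((J+J')/2, (J-J')/2)`), so this is `∑_{(e,c)} R_{e,c}(x+y) R_{e,c}(x-y)` with
`R_{e,c} = op u_e s P_c`.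
`Theta.mul`: index set `C × C'`, `P_c P'_{c'}`.  `Theta.smul`: `c P`.
-/

set_option autoImplicit false

noncomputable section

namespace Pool.Agent.Lib.MP_6d8312_an.KD

open Finset

variable {p : ℕ} [Fact p.Prime]

theorem two_ne_zero' (hp : p ≠ 2) : (2 : ZMod p) ≠ 0 := by
  intro h
  have h1 : ((2 : ℕ) : ZMod p) = 0 := by exact_mod_cast h
  rw [ZMod.natCast_eq_zero_iff] at h1
  exact hp ((Nat.prime_dvd_prime_iff_eq (Fact.out : p.Prime) Nat.prime_two).1 h1)

theorem ThetaOp_pm_iff (hp : p ≠ 2) (x y : ZMod p) : (x + y = 0 ∧ x - y = 0) ↔ (x = 0 ∧ y = 0) := by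
  constructor
  · rintro ⟨h1, h2⟩
    have h3 : 2 * x = 0 := by linear_combination h1 + h2
    have h4 : x = 0 := (mul_eq_zero.1 h3).resolve_left (two_ne_zero' hp)
    refine ⟨h4, ?_⟩
    rw [h4, zero_add] at h1
    exact h1
  · rintro ⟨h1, h2⟩
    simp [h1, h2]

theorem ThetaOp_dl (hp : p ≠ 2) (x y : ZMod p) :
    (dl x : ℝ) * dl y = dl (x + y) * dl (x - y) := by
  have h := ThetaOp_pm_iff hp x y
  unfold dl
  by_cases h1 : x = 0 <;> by_cases h2 : y = 0
  · simp [h1, h2]
  · have h3 : ¬ (x + y = 0 ∧ x - y = 0) := fun h4 => h2 (h.1 h4).2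
    rw [if_neg h2, mul_zero]
    by_cases h4 : x + y = 0
    · rw [if_neg (fun h5 => h3 ⟨h4, h5⟩), mul_zero]
    · rw [if_neg h4, zero_mul]
  · have h3 : ¬ (x + y = 0 ∧ x - y = 0) := fun h4 => h1 (h.1 h4).1
    rw [if_neg h1, zero_mul]
    by_cases h4 : x + y = 0
    · rw [if_neg (fun h5 => h3 ⟨h4, h5⟩), mul_zero]
    · rw [if_neg h4, zero_mul]
  · have h3 : ¬ (x + y = 0 ∧ x - y = 0) := fun h4 => h1 (h.1 h4).1
    rw [if_neg h1, zero_mul]
    by_cases h4 : x + y = 0
    · rw [if_neg (fun h5 => h3 ⟨h4, h5⟩), mul_zero]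
    · rw [if_neg h4, zero_mul]

/-- The change of variables `(J, J') = (j + j', j - j')`. -/
theorem ThetaOp_sum_pm (hp : p ≠ 2) (g : ZMod p → ZMod p → ℝ) :
    ∑ j, ∑ j', g (j + j') (j - j') = ∑ J, ∑ J', g J J' := by
  rw [← Fintype.sum_prod_type' (f := fun j j' => g (j + j') (j - j')),
    ← Fintype.sum_prod_type' (f := fun J J' => g J J')]
  have h2 := two_ne_zero' hp
  let e : ZMod p × ZMod p ≃ ZMod p × ZMod p :=
    { toFun := fun j => (j.1 + j.2, j.1 - j.2)
      invFun := fun J => ((J.1 + J.2) / 2, (J.1 - J.2) / 2)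
      left_inv := fun j => by
        refine Prod.ext ?_ ?_
        · change (j.1 + j.2 + (j.1 - j.2)) / 2 = j.1
          field_simp
          ring
        · change (j.1 + j.2 - (j.1 - j.2)) / 2 = j.2
          field_simp
          ring
      right_inv := fun J => by
        refine Prod.ext ?_ ?_
        · change (J.1 + J.2) / 2 + (J.1 - J.2) / 2 = J.1
          field_simp
          ring
        · change (J.1 + J.2) / 2 - (J.1 - J.2) / 2 = J.2
          field_simp
          ring }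
  exact e.sum_comp (fun J : ZMod p × ZMod p => g J.1 J.2)

/-- The product of two `op`s with the same functions. -/
theorem ThetaOp_prod {E C : Type} [Fintype E] [Fintype C] (u : E → ZMod p → ℝ)
    (P : C → ZMod p → ℝ) (s X Y : ZMod p) :
    ∑ J, ∑ J', (∑ e, u e J * u e J') * (∑ c, P c (X - J * s) * P c (Y - J' * s)) =
      ∑ ec : E × C, op (u ec.1) s (P ec.2) X * op (u ec.1) s (P ec.2) Y := by
  calc ∑ J, ∑ J', (∑ e, u e J * u e J') * (∑ c, P c (X - J * s) * P c (Y - J' * s))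
      = ∑ J, ∑ J', ∑ ec : E × C, (u ec.1 J * u ec.1 J') *
          (P ec.2 (X - J * s) * P ec.2 (Y - J' * s)) := by
        refine Finset.sum_congr rfl fun J _ => Finset.sum_congr rfl fun J' _ => ?_
        rw [Finset.sum_mul_sum, Fintype.sum_prod_type]
    _ = ∑ J, ∑ ec : E × C, ∑ J', (u ec.1 J * u ec.1 J') *
          (P ec.2 (X - J * s) * P ec.2 (Y - J' * s)) :=
        Finset.sum_congr rfl fun J _ => Finset.sum_comm
    _ = ∑ ec : E × C, ∑ J, ∑ J', (u ec.1 J * u ec.1 J') *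
          (P ec.2 (X - J * s) * P ec.2 (Y - J' * s)) := Finset.sum_comm
    _ = _ := by
        refine Finset.sum_congr rfl fun ec _ => ?_
        unfold op
        rw [Finset.sum_mul_sum]
        exact Finset.sum_congr rfl fun J _ => Finset.sum_congr rfl fun J' _ => by ring

theorem theta_dl (hp : p ≠ 2) : Theta (dl : ZMod p → ℝ) := by
  exact ⟨Unit, inferInstance, fun _ => dl, fun x y => by
    rw [ThetaOp_dl hp]
    simp⟩

theorem Theta.op {w F : ZMod p → ℝ} (hp : p ≠ 2) (hw : Theta w) (hF : Theta F) (s : ZMod p) :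
    Theta (op w s F) := by
  obtain ⟨E, _, u, hu⟩ := hw
  obtain ⟨C, _, P, hP⟩ := hF
  refine ⟨E × C, inferInstance, fun ec => KD.op (u ec.1) s (P ec.2), fun x y => ?_⟩
  rw [← ThetaOp_prod, ← ThetaOp_sum_pm hp]
  unfold KD.op
  rw [Finset.sum_mul_sum]
  refine Finset.sum_congr rfl fun j _ => Finset.sum_congr rfl fun j' _ => ?_
  rw [← hu, show x + y - (j + j') * s = (x - j * s) + (y - j' * s) by ring,
    show x - y - (j - j') * s = (x - j * s) - (y - j' * s) by ring, ← hP]
  ring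

theorem Theta.mul {F G : ZMod p → ℝ} (hF : Theta F) (hG : Theta G) :
    Theta (fun v => F v * G v) := by
  obtain ⟨E, _, u, hu⟩ := hF
  obtain ⟨C, _, P, hP⟩ := hG
  refine ⟨E × C, inferInstance, fun ec v => u ec.1 v * P ec.2 v, fun x y => ?_⟩
  change F x * G x * (F y * G y) = _
  rw [show F x * G x * (F y * G y) = (F x * F y) * (G x * G y) by ring, hu, hP,
    Finset.sum_mul_sum, Fintype.sum_prod_type]
  exact Finset.sum_congr rfl fun J _ => Finset.sum_congr rfl fun J' _ => by ring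

theorem Theta.smul {F : ZMod p → ℝ} (hF : Theta F) (c : ℝ) : Theta (fun v => c * F v) := by
  obtain ⟨C, _, P, hP⟩ := hF
  refine ⟨C, inferInstance, fun e v => c * P e v, fun x y => ?_⟩
  change c * F x * (c * F y) = _
  rw [show c * F x * (c * F y) = c ^ 2 * (F x * F y) by ring, hP, Finset.mul_sum]
  exact Finset.sum_congr rfl fun J _ => by ring

end Pool.Agent.Lib.MP_6d8312_an.KD
end
end

section

/-!
# Doublings

`Dbl.ineq`: let `Q_c`, `R_e` be as in the definition.  `F' v ² = F'(v+0) F'(v-0) = ∑_c Q_c(v) Q_c(0)`,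
`F 0 Q_c(v) = ∑_e R_e(v)²`, `F v Q_c(0) = ∑_e R_e(v) R_e(-v) ≤ (1/2) ∑_e (R_e(v)² + R_e(-v)²)
= (1/2)(F 0 Q_c(v) + F 0 Q_c(-v)) = F 0 Q_c(v)`; also `F 0 Q_c(0) ≥ 0` so `Q_c(0) ≥ 0`.  Hence
`F 0 F' v ² = ∑ F 0 Q_c(v) Q_c(0) ≥ ∑ F v Q_c(0)² = F v F' 0 ²`.
`Dbl.op`: with `q_e, r` for `(w,w')` and `Q_c, R` for `(F,F')`: `op w' s F' (x+y) op w' s F' (x-y)
= ∑_{j,j'} w' j w' j' F'(x+y-js) F'(x-y-j's)`; put `j = i+i', j' = i-i'` (a bijection):
`= ∑_{i,i'} ∑_e q_e(i) q_e(i') ∑_c Q_c(x-is) Q_c(y-i's)`, so the new `Q`s are `op q_e s Q_c`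
(index `(e,c)`), even by `i → -i`.  And `(op w s F) x (op q_e s Q_c) y = ∑_{j,i} w j q_e(i)
F(x-js) Q_c(y-is) = ∑_{j,i} ∑ r(i+j) r(i-j) ∑ R((y-is)+(x-js)) R((y-is)-(x-js))`; put `k = i+j`,
`l = i-j`: `∑ (op r s R)(y+x) (op r s R)(y-x)`.
`dbl_dl`: `C = E = Unit`, `Q = R = dl` (`x + y = 0 = x - y` iff `x = y = 0`).
-/

set_option autoImplicit false

noncomputable section

namespace Pool.Agent.Lib.MP_6d8312_an.KD

open Finset

variable {p : ℕ} [Fact p.Prime]

theorem Dbl.ineq {F F' : ZMod p → ℝ} (h : Dbl F F') (h0 : 0 < F 0) (v : ZMod p) :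
    F v * F' 0 ^ 2 ≤ F' v ^ 2 * F 0 := by
  obtain ⟨C, _, Q, h1, h2, h3⟩ := h
  have hQ : ∀ c y, 0 ≤ F 0 * Q c y := by
    intro c y
    obtain ⟨E, _, R, hR⟩ := h3 c
    rw [hR 0 y]
    refine Finset.sum_nonneg fun e _ => ?_
    rw [add_zero, sub_zero]
    exact mul_self_nonneg _
  have hQ0 : ∀ c, 0 ≤ Q c 0 := fun c => (mul_nonneg_iff_of_pos_left h0).1 (hQ c 0)
  have hQ1 : ∀ c, F v * Q c 0 ≤ F 0 * Q c v := by
    intro c
    obtain ⟨E, _, R, hR⟩ := h3 c
    have e1 : F v * Q c 0 = ∑ e, R e v * R e (-v) := by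
      rw [hR v 0]
      simp only [zero_add, zero_sub]
    have e2 : F 0 * Q c v = ∑ e, R e v * R e v := by
      rw [hR 0 v]
      simp only [add_zero, sub_zero]
    have e3 : F 0 * Q c v = ∑ e, R e (-v) * R e (-v) := by
      rw [← h2 c v, hR 0 (-v)]
      simp only [add_zero, sub_zero]
    have e4 : 2 * (F v * Q c 0) ≤ F 0 * Q c v + F 0 * Q c v := by
      conv_rhs => rw [e2]
      rw [← e2]
      conv_rhs =>
        arg 2
        rw [e3]
      rw [e2, e1, ← Finset.sum_add_distrib, Finset.mul_sum]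
      refine Finset.sum_le_sum fun e _ => ?_
      nlinarith [sq_nonneg (R e v - R e (-v))]
    linarith
  have a1 : F' 0 ^ 2 = ∑ c, Q c 0 * Q c 0 := by
    have := h1 0 0
    rw [add_zero, sub_zero] at this
    rw [← this]
    ring
  have a2 : F' v ^ 2 = ∑ c, Q c v * Q c 0 := by
    have := h1 v 0
    rw [add_zero, sub_zero] at this
    rw [← this]
    ring
  rw [a1, a2, Finset.mul_sum, Finset.sum_mul]
  refine Finset.sum_le_sum fun c _ => ?_
  have := mul_le_mul_of_nonneg_right (hQ1 c) (hQ0 c)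
  linarith

theorem Dbl.op {w w' F F' : ZMod p → ℝ} (hp : p ≠ 2) (hw : Dbl w w') (hF : Dbl F F')
    (s : ZMod p) : Dbl (op w s F) (op w' s F') := by
  obtain ⟨E, _, q, hq1, hq2, hq3⟩ := hw
  obtain ⟨C, _, Q, hQ1, hQ2, hQ3⟩ := hF
  refine ⟨E × C, inferInstance, fun ec => KD.op (q ec.1) s (Q ec.2), fun x y => ?_,
    fun ec x => ?_, fun ec => ?_⟩
  · rw [← ThetaOp_prod]
    unfold KD.op
    rw [Finset.sum_mul_sum, ← ThetaOp_sum_pm hp (fun J J' =>
      w' J * F' (x + y - J * s) * (w' J' * F' (x - y - J' * s)))]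
    refine Finset.sum_congr rfl fun j _ => Finset.sum_congr rfl fun j' _ => ?_
    rw [← hq1, show x + y - (j + j') * s = (x - j * s) + (y - j' * s) by ring,
      show x - y - (j - j') * s = (x - j * s) - (y - j' * s) by ring, ← hQ1]
    ring
  · change KD.op (q ec.1) s (Q ec.2) (-x) = KD.op (q ec.1) s (Q ec.2) x
    unfold KD.op
    rw [← Equiv.sum_comp (Equiv.neg (ZMod p))]
    refine Finset.sum_congr rfl fun j _ => ?_
    rw [Equiv.neg_apply, hq2, show -x - -j * s = -(x - j * s) by ring, hQ2]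
  · obtain ⟨E', _, r, hr⟩ := hq3 ec.1
    obtain ⟨C', _, R, hR⟩ := hQ3 ec.2
    refine ⟨E' × C', inferInstance, fun ab => KD.op (r ab.1) s (R ab.2), fun x y => ?_⟩
    rw [← ThetaOp_prod, ← ThetaOp_sum_pm hp]
    unfold KD.op
    rw [Finset.sum_mul_sum, Finset.sum_comm]
    refine Finset.sum_congr rfl fun i _ => Finset.sum_congr rfl fun j _ => ?_
    rw [← hr, show y + x - (i + j) * s = (y - i * s) + (x - j * s) by ring,
      show y - x - (i - j) * s = (y - i * s) - (x - j * s) by ring, ← hR]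
    ring

theorem dbl_dl (hp : p ≠ 2) : Dbl (dl : ZMod p → ℝ) dl := by
  refine ⟨Unit, inferInstance, fun _ => dl, fun x y => ?_, fun _ x => ?_, fun _ =>
    ⟨Unit, inferInstance, fun _ => dl, fun x y => ?_⟩⟩
  · rw [← ThetaOp_dl hp]
    simp
  · unfold dl
    simp [neg_eq_zero]
  · rw [mul_comm, ThetaOp_dl hp]
    simp

theorem Dbl.KK {w w' : ZMod p → ℝ} (hp : p ≠ 2) (hw : Dbl w w') (S : Finset (ZMod p)) :
    Dbl (KK w dl S) (KK w' dl S) := by
  induction S using Finset.induction_on with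
  | empty =>
    rw [KK_empty', KK_empty']
    exact dbl_dl hp
  | insert a S ha ih =>
    rw [KK_insert' _ _ ha, KK_insert' _ _ ha]
    exact Dbl.op hp hw ih a

end Pool.Agent.Lib.MP_6d8312_an.KD
end
end

section

/-!
# Basic properties of `KK`

All by `Finset.induction_on S` with `KK_empty'` and `KK_insert'`.
`KK_union`: induction on `S`.
`sum_KK_mul`: for `w` even `∑_v (op w s F) v G v = ∑_v F v (op w s G) v`; so by induction on `U`
`∑_v KK w F U v * G v = ∑_v F v * KK w G U v`; take `F = dl`, `G = KK w dl R`, and `KK_union`.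
-/

set_option autoImplicit false

noncomputable section

namespace Pool.Agent.Lib.MP_6d8312_an.KD

open Finset

variable {p : ℕ} [Fact p.Prime]

private theorem KBasic_op_nonneg {w F : ZMod p → ℝ} (hw : ∀ j, 0 ≤ w j) (hF : ∀ v, 0 ≤ F v)
    (s v : ZMod p) : 0 ≤ op w s F v :=
  Finset.sum_nonneg fun j _ => mul_nonneg (hw j) (hF _)

private theorem KBasic_sum_op (w F : ZMod p → ℝ) (s : ZMod p) :
    ∑ v, op w s F v = (∑ j, w j) * ∑ v, F v := by
  unfold op
  rw [Finset.sum_comm, Finset.sum_mul]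
  refine Finset.sum_congr rfl fun j _ => ?_
  rw [← Finset.mul_sum]
  congr 1
  exact Equiv.sum_comp (Equiv.subRight (j * s)) F

private theorem KBasic_adj {w : ZMod p → ℝ} (hwe : ∀ j, w (-j) = w j) (s : ZMod p)
    (F G : ZMod p → ℝ) : ∑ v, op w s F v * G v = ∑ v, F v * op w s G v := by
  have h1 : ∑ v, op w s F v * G v = ∑ j, w j * ∑ v, F v * G (v + j * s) := by
    unfold op
    simp only [Finset.sum_mul]
    rw [Finset.sum_comm]
    refine Finset.sum_congr rfl fun j _ => ?_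
    rw [Finset.mul_sum, ← Equiv.sum_comp (Equiv.addRight (j * s))]
    refine Finset.sum_congr rfl fun v _ => ?_
    simp only [Equiv.coe_addRight, add_sub_cancel_right]
    ring
  have h2 : ∑ v, F v * op w s G v = ∑ j, w j * ∑ v, F v * G (v - j * s) := by
    unfold op
    simp only [Finset.mul_sum]
    rw [Finset.sum_comm]
    refine Finset.sum_congr rfl fun j _ => Finset.sum_congr rfl fun v _ => ?_
    ring
  rw [h1, h2, ← Equiv.sum_comp (Equiv.neg (ZMod p))]
  refine Finset.sum_congr rfl fun j _ => ?_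
  simp only [Equiv.neg_apply, hwe]
  congr 1
  refine Finset.sum_congr rfl fun v _ => ?_
  congr 2
  ring

private theorem KBasic_comm (w : ZMod p → ℝ) (s : ZMod p) (G : ZMod p → ℝ)
    (U : Finset (ZMod p)) : KK w (op w s G) U = op w s (KK w G U) := by
  induction U using Finset.induction_on with
  | empty => rw [KK_empty', KK_empty']
  | insert a S ha ih => rw [KK_insert' _ _ ha, KK_insert' _ _ ha, ih, op_comm]

private theorem KBasic_adjK {w : ZMod p → ℝ} (hwe : ∀ j, w (-j) = w j) (U : Finset (ZMod p)) :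
    ∀ F G : ZMod p → ℝ, ∑ v, KK w F U v * G v = ∑ v, F v * KK w G U v := by
  induction U using Finset.induction_on with
  | empty =>
    intro F G
    rw [KK_empty', KK_empty']
  | insert a S ha ih =>
    intro F G
    rw [KK_insert' _ _ ha, KK_insert' _ _ ha, KBasic_adj hwe, ih, KBasic_comm]

theorem KK_nonneg {w F : ZMod p → ℝ} (hw : ∀ j, 0 ≤ w j) (hF : ∀ v, 0 ≤ F v)
    (S : Finset (ZMod p)) (v : ZMod p) : 0 ≤ KK w F S v := by
  induction S using Finset.induction_on generalizing v with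
  | empty => rw [KK_empty']; exact hF v
  | insert a S ha ih =>
    rw [KK_insert' _ _ ha]
    exact KBasic_op_nonneg hw ih a v

theorem KK_le {w w' F F' : ZMod p → ℝ} (hw : ∀ j, 0 ≤ w j) (hww : ∀ j, w j ≤ w' j)
    (hF : ∀ v, 0 ≤ F v) (hFF : ∀ v, F v ≤ F' v) (S : Finset (ZMod p)) (v : ZMod p) :
    KK w F S v ≤ KK w' F' S v := by
  induction S using Finset.induction_on generalizing v with
  | empty => rw [KK_empty', KK_empty']; exact hFF v
  | insert a S ha ih =>
    rw [KK_insert' _ _ ha, KK_insert' _ _ ha]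
    unfold op
    refine Finset.sum_le_sum fun j _ => ?_
    exact mul_le_mul (hww j) (ih _) (KK_nonneg hw hF S _) ((hw j).trans (hww j))

theorem KK_ge {w F : ZMod p → ℝ} (hw : ∀ j, 0 ≤ w j) (hw0 : 1 ≤ w 0) (hF : ∀ v, 0 ≤ F v)
    (S : Finset (ZMod p)) (v : ZMod p) : F v ≤ KK w F S v := by
  induction S using Finset.induction_on generalizing v with
  | empty => rw [KK_empty']
  | insert a S ha ih =>
    rw [KK_insert' _ _ ha]
    unfold op
    have h1 : w 0 * KK w F S (v - 0 * a) ≤ ∑ j, w j * KK w F S (v - j * a) :=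
      Finset.single_le_sum (f := fun j => w j * KK w F S (v - j * a))
        (fun j _ => mul_nonneg (hw j) (KK_nonneg hw hF S _)) (Finset.mem_univ 0)
    rw [zero_mul, sub_zero] at h1
    refine le_trans ?_ h1
    calc F v ≤ KK w F S v := ih v
      _ = 1 * KK w F S v := (one_mul _).symm
      _ ≤ w 0 * KK w F S v := mul_le_mul_of_nonneg_right hw0 (KK_nonneg hw hF S v)

theorem sum_KK (w F : ZMod p → ℝ) (S : Finset (ZMod p)) :
    ∑ v, KK w F S v = (∑ j, w j) ^ S.card * ∑ v, F v := by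
  induction S using Finset.induction_on with
  | empty => rw [KK_empty', Finset.card_empty, pow_zero, one_mul]
  | insert a S ha ih =>
    rw [KK_insert' _ _ ha, KBasic_sum_op, ih, Finset.card_insert_of_notMem ha, pow_succ]
    ring

theorem KK_smul (w F : ZMod p → ℝ) (c : ℝ) (S : Finset (ZMod p)) (v : ZMod p) :
    KK w (fun v => c * F v) S v = c * KK w F S v := by
  induction S using Finset.induction_on generalizing v with
  | empty => rw [KK_empty', KK_empty']
  | insert a S ha ih =>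
    rw [KK_insert' _ _ ha, KK_insert' _ _ ha]
    unfold op
    rw [Finset.mul_sum]
    refine Finset.sum_congr rfl fun j _ => ?_
    rw [ih]
    ring

theorem KK_union (w F : ZMod p → ℝ) {S T : Finset (ZMod p)} (h : Disjoint S T) :
    KK w F (S ∪ T) = KK w (KK w F T) S := by
  induction S using Finset.induction_on with
  | empty => rw [Finset.empty_union, KK_empty']
  | insert a S ha ih =>
    rw [Finset.disjoint_insert_left] at h
    have h1 : a ∉ S ∪ T := by
      rw [Finset.mem_union]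
      rintro (h2 | h2)
      · exact ha h2
      · exact h.1 h2
    rw [Finset.insert_union, KK_insert' _ _ h1, KK_insert' _ _ ha, ih h.2]

theorem sum_KK_mul {w : ZMod p → ℝ} (hwe : ∀ j, w (-j) = w j) {U R : Finset (ZMod p)}
    (h : Disjoint U R) : ∑ v, KK w dl U v * KK w dl R v = KK w dl (U ∪ R) 0 := by
  rw [KBasic_adjK hwe, KK_union w dl h]
  have h1 : ∀ v : ZMod p, dl v * KK w (KK w dl R) U v =
      if v = 0 then KK w (KK w dl R) U v else 0 := by
    intro v
    unfold dl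
    split_ifs <;> simp
  simp only [h1]
  rw [Finset.sum_ite_eq' Finset.univ (0 : ZMod p), if_pos (Finset.mem_univ _)]

end Pool.Agent.Lib.MP_6d8312_an.KD
end
end

section

/-!
# Consequences of the theta identity

`Theta.t2`: with `F x F y = ∑ P_c(x+y) P_c(x-y)`: at `y = 0`: `F u F 0 = ∑ P_c(u)²`, so `F u ≥ 0`.
Cauchy-Schwarz (`Finset.sum_mul_sq_le_sq_mul_sq`):
`(F x F y)² ≤ ∑ P_c(x+y)² ∑ P_c(x-y)² = F(x+y) F(0) F(x-y) F(0)`; divide by `F(0)^4`.
`T2.le_one`: let `M = f x₀` be the maximum of `f` (`Finite.exists_max`); `(f x₀ f x₀)² ≤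
f(2x₀) f(0) ≤ M`, so `M^4 ≤ M`, so `M ≤ 1`.
`T2.even`: `x := 0, y := x`: `f x ² ≤ f x f(-x)`, so `f x ≤ f (-x)` if `f x > 0`; symmetric.
`T2.W`: `2 f x f y ≤ 2 √(f(x+y) f(x-y)) ≤ f(x+y) + f(x-y)`.
`T2.sub_ge`: `f(x+y) ≤ 1`.
-/

set_option autoImplicit false

noncomputable section

namespace Pool.Agent.Lib.MP_6d8312_an.KD

open Finset

variable {p : ℕ} [Fact p.Prime]

theorem Theta.nonneg {F : ZMod p → ℝ} (hF : Theta F) (h0 : 0 < F 0) (x : ZMod p) : 0 ≤ F x := by
  obtain ⟨C, _, P, hP⟩ := hF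
  have h := hP x 0
  simp only [add_zero, sub_zero] at h
  have h1 : 0 ≤ F x * F 0 := by
    rw [h]
    exact Finset.sum_nonneg fun c _ => mul_self_nonneg _
  exact (mul_nonneg_iff_of_pos_right h0).1 h1

theorem Theta.t2 {F : ZMod p → ℝ} (hF : Theta F) (h0 : 0 < F 0) :
    T2 (fun v => F v / F 0) := by
  refine ⟨div_self h0.ne', fun x => div_nonneg (hF.nonneg h0 x) h0.le, fun x y => ?_⟩
  obtain ⟨C, _, P, hP⟩ := hF
  have h1 : ∀ u, F u * F 0 = ∑ c, P c u ^ 2 := by
    intro u
    have h := hP u 0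
    simp only [add_zero, sub_zero] at h
    rw [h]
    exact Finset.sum_congr rfl fun c _ => by ring
  have h2 : (F x * F y) ^ 2 ≤ (F (x + y) * F 0) * (F (x - y) * F 0) := by
    rw [hP x y, h1, h1]
    exact Finset.sum_mul_sq_le_sq_mul_sq _ _ _
  have h3 : (F x / F 0 * (F y / F 0)) ^ 2 = (F x * F y) ^ 2 / (F 0) ^ 4 := by
    field_simp
  have h4 : F (x + y) / F 0 * (F (x - y) / F 0) =
      (F (x + y) * F 0) * (F (x - y) * F 0) / (F 0) ^ 4 := by
    field_simp
  change (F x / F 0 * (F y / F 0)) ^ 2 ≤ F (x + y) / F 0 * (F (x - y) / F 0)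
  rw [h3, h4]
  exact div_le_div_of_nonneg_right h2 (by positivity)

theorem T2.le_one {f : ZMod p → ℝ} (hf : T2 f) (x : ZMod p) : f x ≤ 1 := by
  obtain ⟨x₀, hx₀⟩ := Finite.exists_max f
  refine (hx₀ x).trans ?_
  have h1 := hf.mul x₀ x₀
  rw [sub_self, hf.zero, mul_one] at h1
  have h2 := h1.trans (hx₀ (x₀ + x₀))
  have h0 := hf.nonneg x₀
  by_contra h
  push Not at h
  have h3 : f x₀ * 1 < f x₀ * f x₀ := by
    apply mul_lt_mul_of_pos_left h
    linarith
  nlinarith [mul_self_nonneg (f x₀ * f x₀ - 1)]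

theorem T2.even {f : ZMod p → ℝ} (hf : T2 f) (x : ZMod p) : f (-x) = f x := by
  have h1 := hf.mul 0 x
  have h2 := hf.mul 0 (-x)
  rw [hf.zero, one_mul, zero_add, zero_sub] at h1
  rw [hf.zero, one_mul, zero_add, zero_sub, neg_neg] at h2
  have h3 : (f (-x) - f x) ^ 2 ≤ 0 := by nlinarith
  have h4 : f (-x) - f x = 0 := by
    have := le_antisymm h3 (sq_nonneg _)
    exact pow_eq_zero_iff (two_ne_zero) |>.1 this
  linarith

theorem T2.W {f : ZMod p → ℝ} (hf : T2 f) (x y : ZMod p) :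
    2 * (f x * f y) ≤ f (x + y) + f (x - y) := by
  have h1 := hf.mul x y
  have h2 := hf.nonneg (x + y)
  have h3 := hf.nonneg (x - y)
  have h4 := mul_nonneg (hf.nonneg x) (hf.nonneg y)
  by_contra h
  push Not at h
  nlinarith [sq_nonneg (f (x + y) - f (x - y))]

theorem T2.mul' {f g : ZMod p → ℝ} (hf : T2 f) (hg : T2 g) : T2 (fun v => f v * g v) := by
  refine ⟨by rw [hf.zero, hg.zero, one_mul], fun x => mul_nonneg (hf.nonneg x) (hg.nonneg x),
    fun x y => ?_⟩
  have h1 := hf.mul x y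
  have h2 := hg.mul x y
  calc (f x * g x * (f y * g y)) ^ 2 = (f x * f y) ^ 2 * (g x * g y) ^ 2 := by ring
    _ ≤ (f (x + y) * f (x - y)) * (g (x + y) * g (x - y)) :=
        mul_le_mul h1 h2 (sq_nonneg _) (mul_nonneg (hf.nonneg _) (hf.nonneg _))
    _ = f (x + y) * g (x + y) * (f (x - y) * g (x - y)) := by ring

theorem T2.sub_ge {f : ZMod p → ℝ} (hf : T2 f) (x y : ZMod p) :
    (f x * f y) ^ 2 ≤ f (x - y) := by
  refine (hf.mul x y).trans ?_
  have h1 := hf.le_one (x + y)
  have h2 := hf.nonneg (x - y)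
  nlinarith

theorem T2.add_ge {f : ZMod p → ℝ} (hf : T2 f) (x y : ZMod p) :
    (f x * f y) ^ 2 ≤ f (x + y) := by
  refine (hf.mul x y).trans ?_
  have h1 := hf.le_one (x - y)
  have h2 := hf.nonneg (x + y)
  nlinarith

end Pool.Agent.Lib.MP_6d8312_an.KD
end
end

section

/-!
# Adding an element increases the normalised kernel

`op w s f v = ∑_j w j f(v - j s)`; by `j → -j` and evenness of `w` it equals
`(1/2) ∑_j w j (f(v - j s) + f(v + j s)) ≥ ∑_j w j f v f(j s)` (`T2.W`), and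
`op w s f 0 = ∑_j w j f(-j s) = ∑_j w j f(j s)` (`T2.even`).
-/

set_option autoImplicit false

noncomputable section

namespace Pool.Agent.Lib.MP_6d8312_an.KD

open Finset

variable {p : ℕ} [Fact p.Prime]

theorem T2.op_ge {f w : ZMod p → ℝ} (hf : T2 f) (hw : ∀ j, 0 ≤ w j) (hwe : ∀ j, w (-j) = w j)
    (s v : ZMod p) : f v * op w s f 0 ≤ op w s f v := by
  have h1 : op w s f v = ∑ j, w j * f (v + j * s) := by
    unfold op
    rw [← Equiv.sum_comp (Equiv.neg (ZMod p))]
    refine Finset.sum_congr rfl fun j _ => ?_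
    rw [Equiv.neg_apply, hwe, neg_mul, sub_neg_eq_add]
  have h2 : op w s f 0 = ∑ j, w j * f (j * s) := by
    unfold op
    refine Finset.sum_congr rfl fun j _ => ?_
    rw [zero_sub, hf.even]
  have h3 : 2 * op w s f v = ∑ j, w j * (f (v + j * s) + f (v - j * s)) := by
    have h4 : 2 * op w s f v = op w s f v + op w s f v := by ring
    have h7 : op w s f v + op w s f v =
        ∑ j, w j * f (v + j * s) + ∑ j, w j * f (v - j * s) := by
      congr 1
    rw [h4, h7, ← Finset.sum_add_distrib]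
    exact Finset.sum_congr rfl fun j _ => by ring
  have h5 : 2 * (f v * op w s f 0) ≤ 2 * op w s f v := by
    rw [h3, h2, Finset.mul_sum, Finset.mul_sum]
    refine Finset.sum_le_sum fun j _ => ?_
    have h6 := mul_le_mul_of_nonneg_left (hf.W v (j * s)) (hw j)
    calc 2 * (f v * (w j * f (j * s))) = w j * (2 * (f v * f (j * s))) := by ring
      _ ≤ _ := h6
  linarith

end Pool.Agent.Lib.MP_6d8312_an.KD
end
end

section

/-!
# Monotonicity of the normalised kernel

`Theta.KK`: induction on `S` with `Theta.op`.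
`KK_mono`: it is enough to treat `T = insert s S`, `s ∉ S` (induction on `T \ S`).  Let
`G = KK w F S` (theta, `G 0 ≥ F 0 > 0` by `KK_ge`), `f = G / G 0` is `T2`; `KK w F T = op w s G =
G 0 • op w s f`, so `KK w F T v / KK w F T 0 = op w s f v / op w s f 0 ≥ f v` by `T2.op_ge`
(`op w s f 0 > 0` since `KK w F T 0 ≥ G 0 > 0`).
-/

set_option autoImplicit false

noncomputable section

namespace Pool.Agent.Lib.MP_6d8312_an.KD

open Finset

variable {p : ℕ} [Fact p.Prime]

theorem Theta.KK {w F : ZMod p → ℝ} (hp : p ≠ 2) (hw : Theta w) (hF : Theta F)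
    (S : Finset (ZMod p)) : Theta (KK w F S) := by
  induction S using Finset.induction_on with
  | empty =>
    rw [KK_empty']
    exact hF
  | insert s S hs ih =>
    rw [KK_insert' _ _ hs]
    exact Theta.op hp hw ih s

private theorem KMono_insert {w F : ZMod p → ℝ} (hp : p ≠ 2) (hw : Theta w) (hw0 : 1 ≤ w 0)
    (hwn : ∀ j, 0 ≤ w j) (hwe : ∀ j, w (-j) = w j) (hF : Theta F) (hF0 : 0 < F 0)
    {S : Finset (ZMod p)} {s : ZMod p} (hs : s ∉ S) (v : ZMod p) :
    KD.KK w F S v / KD.KK w F S 0 ≤ KD.KK w F (insert s S) v / KD.KK w F (insert s S) 0 := by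
  have hFn : ∀ v, 0 ≤ F v := fun v => Theta.nonneg hF hF0 v
  have hG0 : 0 < KD.KK w F S 0 := lt_of_lt_of_le hF0 (KK_ge hwn hw0 hFn S 0)
  have hT0 : 0 < KD.KK w F (insert s S) 0 :=
    lt_of_lt_of_le hF0 (KK_ge hwn hw0 hFn (insert s S) 0)
  have hG : Theta (KD.KK w F S) := Theta.KK hp hw hF S
  have ht := Theta.t2 hG hG0
  have h1 := T2.op_ge ht hwn hwe s v
  have h2 : ∀ v, op w s (fun v => KD.KK w F S v / KD.KK w F S 0) v =
      KD.KK w F (insert s S) v / KD.KK w F S 0 := by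
    intro v
    rw [KK_insert' _ _ hs]
    unfold op
    rw [Finset.sum_div]
    exact Finset.sum_congr rfl fun j _ => (mul_div_assoc _ _ _).symm
  rw [h2, h2, ← mul_div_assoc, div_le_div_iff_of_pos_right hG0] at h1
  rw [le_div_iff₀ hT0]
  exact h1

theorem KK_mono {w F : ZMod p → ℝ} (hp : p ≠ 2) (hw : Theta w) (hw0 : 1 ≤ w 0)
    (hwn : ∀ j, 0 ≤ w j) (hwe : ∀ j, w (-j) = w j) (hF : Theta F) (hF0 : 0 < F 0)
    {S T : Finset (ZMod p)} (h : S ⊆ T) (v : ZMod p) :
    KD.KK w F S v / KD.KK w F S 0 ≤ KD.KK w F T v / KD.KK w F T 0 := by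
  have key : ∀ U : Finset (ZMod p), Disjoint U S →
      KD.KK w F S v / KD.KK w F S 0 ≤ KD.KK w F (U ∪ S) v / KD.KK w F (U ∪ S) 0 := by
    intro U
    induction U using Finset.induction_on with
    | empty =>
      intro _
      rw [Finset.empty_union]
    | insert s U hs ih =>
      intro hd
      rw [Finset.disjoint_insert_left] at hd
      refine (ih hd.2).trans ?_
      rw [Finset.insert_union]
      refine KMono_insert hp hw hw0 hwn hwe hF hF0 ?_ v
      rw [Finset.mem_union]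
      exact fun h => h.elim hs hd.1
  have h1 := key (T \ S) Finset.sdiff_disjoint
  rw [Finset.sdiff_union_of_subset h] at h1
  exact h1

end Pool.Agent.Lib.MP_6d8312_an.KD
end
end

section

/-!
# The Villain weights: basic facts

`g(m) = exp (-m²/(2β))`, `β > 0`.  Summability over `ℤ`: e.g. `summable_pow_mul_jacobiTheta₂_term_bound`
or compare with `exp (-|m|/(2β))`, geometric (`m² ≥ |m|` for integers), or
`Summable.of_nat_of_neg`.
`vw_even`: `m → -m` (`Equiv.neg`, `Equiv.tsum_eq`).  `exp_le_vw`: the term `m = j` (`le_tsum`/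
`Summable.le_tsum`).  `sum_vw`: exchange the finite sum and the tsum (`Summable.tsum_finsetSum`);
more generally `sum_vw_mul`.  `ph_le`: `∑_m g(m) ≤ ∑_m exp(-|m|/(2β)) = (1+q)/(1-q)` with
`q = exp(-1/(2β))`, and `(1+q)/(1-q) = 1 + 2/(1/q - 1) ≤ 1 + 4β` since `1/q ≥ 1 + 1/(2β)`.
`sum_vw_le` (`β = 1`): `∑_x vw 1 x f x = ∑'_j exp(-j²/2) f(j)` and `∑_{|j|>m} exp(-j²/2) ≤
∑_{|j|>m} exp(-(m+1)|j|/2) = 2 exp(-(m+1)²/2)/(1-exp(-(m+1)/2)) ≤ 4 exp(-(m+1)²/2)·(5/4)`; with
`m ≥ 1` the last factor `1/(1-exp(-1)) ≤ 2`.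
`vw_zero_small`: `vw β 0 - 1 = ∑_{p ∣ m, m ≠ 0} g(m) ≤ ∑_{|m| ≥ p} g(m)`, the tail of a summable
series, uniformly small for `p ≥ p₀` (`tendsto_tsum_compl_atTop_zero` or
`Summable.tendsto_cofinite_zero`-type lemmas; choose a finite set `s` of integers with
`∑_{m ∉ s} g(m) ≤ ε` and `p₀` larger than all `|m|`, `m ∈ s`).
-/

set_option autoImplicit false

noncomputable section

namespace Pool.Agent.Lib.MP_6d8312_an.KD

open Finset

variable {p : ℕ} [Fact p.Prime]

private theorem VwBasic_q_lt {β : ℝ} (hβ : 0 < β) : Real.exp (-(1 / (2 * β))) < 1 := by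
  rw [Real.exp_lt_one_iff]
  have : 0 < 1 / (2 * β) := by positivity
  linarith

private theorem VwBasic_le_pow {β : ℝ} (hβ : 0 < β) (n : ℕ) :
    Real.exp (-((n : ℤ) : ℝ) ^ 2 / (2 * β)) ≤ Real.exp (-(1 / (2 * β))) ^ n := by
  rw [← Real.exp_nat_mul]
  apply Real.exp_le_exp.mpr
  have h1 : (n : ℝ) ≤ (n : ℝ) ^ 2 := by
    rcases Nat.eq_zero_or_pos n with h | h
    · rw [h]; norm_num
    · have : (1 : ℝ) ≤ n := by exact_mod_cast h
      nlinarith
  have h2 : 0 < 2 * β := by linarith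
  rw [Int.cast_natCast, mul_neg, mul_one_div, neg_div]
  exact neg_le_neg (div_le_div_of_nonneg_right h1 h2.le)

private theorem VwBasic_summable_nat {β : ℝ} (hβ : 0 < β) :
    Summable (fun n : ℕ => Real.exp (-((n : ℤ) : ℝ) ^ 2 / (2 * β))) :=
  Summable.of_nonneg_of_le (fun _ => (Real.exp_pos _).le) (VwBasic_le_pow hβ)
    (summable_geometric_of_lt_one (Real.exp_pos _).le (VwBasic_q_lt hβ))

theorem summable_gauss {β : ℝ} (hβ : 0 < β) :
    Summable (fun m : ℤ => Real.exp (-(m : ℝ) ^ 2 / (2 * β))) := by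
  refine Summable.of_nat_of_neg (VwBasic_summable_nat hβ) ?_
  have h : (fun n : ℕ => Real.exp (-((-(n : ℤ) : ℤ) : ℝ) ^ 2 / (2 * β))) =
      fun n : ℕ => Real.exp (-((n : ℤ) : ℝ) ^ 2 / (2 * β)) := by
    funext n
    push_cast
    rw [neg_sq]
  rw [h]
  exact VwBasic_summable_nat hβ

theorem vw_nonneg (β : ℝ) (x : ZMod p) : 0 ≤ vw β x := by
  unfold vw
  refine tsum_nonneg fun m => ?_
  split_ifs
  · exact (Real.exp_pos _).le
  · exact le_rfl

theorem vw_even (β : ℝ) (x : ZMod p) : vw β (-x) = vw β x := by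
  unfold vw
  rw [← (Equiv.neg ℤ).tsum_eq]
  refine tsum_congr fun m => ?_
  have h : (((Equiv.neg ℤ) m : ℤ) : ZMod p) = -x ↔ ((m : ℤ) : ZMod p) = x := by
    rw [Equiv.neg_apply, Int.cast_neg, neg_inj]
  rw [if_congr h rfl rfl, Equiv.neg_apply, Int.cast_neg, neg_sq]

private theorem VwBasic_summable_ite {β : ℝ} (hβ : 0 < β) (x : ZMod p) :
    Summable (fun m : ℤ => if (m : ZMod p) = x then Real.exp (-(m : ℝ) ^ 2 / (2 * β)) else 0) := by
  refine Summable.of_nonneg_of_le (fun m => ?_) (fun m => ?_) (summable_gauss hβ)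
  · split_ifs
    · exact (Real.exp_pos _).le
    · exact le_rfl
  · split_ifs
    · exact le_rfl
    · exact (Real.exp_pos _).le

theorem exp_le_vw {β : ℝ} (hβ : 0 < β) (j : ℤ) :
    Real.exp (-(j : ℝ) ^ 2 / (2 * β)) ≤ vw β (j : ZMod p) := by
  unfold vw
  have h := (VwBasic_summable_ite hβ (j : ZMod p)).le_tsum j fun i _ => by
    split_ifs
    · exact (Real.exp_pos _).le
    · exact le_rfl
  rw [if_pos rfl] at h
  exact h

theorem one_le_vw_zero {β : ℝ} (hβ : 0 < β) : 1 ≤ vw β (0 : ZMod p) := by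
  have h := exp_le_vw (p := p) hβ 0
  simpa using h

theorem sum_vw_mul {β : ℝ} (hβ : 0 < β) (f : ZMod p → ℝ) :
    ∑ x, vw β x * f x = ∑' j : ℤ, Real.exp (-(j : ℝ) ^ 2 / (2 * β)) * f (j : ZMod p) := by
  have h1 : ∀ x : ZMod p, vw β x * f x =
      ∑' m : ℤ, (if (m : ZMod p) = x then Real.exp (-(m : ℝ) ^ 2 / (2 * β)) else 0) * f x :=
    fun x => by
      unfold vw
      rw [tsum_mul_right]
  rw [Finset.sum_congr rfl fun x _ => h1 x,
    ← Summable.tsum_finsetSum fun x _ => (VwBasic_summable_ite hβ x).mul_right (f x)]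
  refine tsum_congr fun m => ?_
  rw [Finset.sum_eq_single (m : ZMod p)]
  · rw [if_pos rfl]
  · intro b _ hb
    rw [if_neg (Ne.symm hb), zero_mul]
  · intro h
    exact absurd (Finset.mem_univ _) h

theorem sum_vw {β : ℝ} (hβ : 0 < β) : ∑ x : ZMod p, vw β x = ph β := by
  have h := sum_vw_mul (p := p) hβ fun _ => 1
  simpa [ph] using h

theorem ph_le {β : ℝ} (hβ : 0 < β) : ph β ≤ 1 + 4 * β := by
  have hs := VwBasic_summable_nat hβ
  have hneg : (fun n : ℕ => Real.exp (-((-(n : ℤ) : ℤ) : ℝ) ^ 2 / (2 * β))) =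
      fun n : ℕ => Real.exp (-((n : ℤ) : ℝ) ^ 2 / (2 * β)) := by
    funext n
    push_cast
    rw [neg_sq]
  have h1 : ph β = ∑' n : ℕ, Real.exp (-((n : ℤ) : ℝ) ^ 2 / (2 * β)) +
      ∑' n : ℕ, Real.exp (-((n : ℤ) : ℝ) ^ 2 / (2 * β)) - 1 := by
    have h2 := Summable.tsum_of_nat_of_neg
      (f := fun m : ℤ => Real.exp (-(m : ℝ) ^ 2 / (2 * β))) hs (by rw [hneg]; exact hs)
    rw [hneg] at h2
    unfold ph
    rw [h2]
    simp
  have hq0 := Real.exp_pos (-(1 / (2 * β)))
  have hq1 := VwBasic_q_lt hβ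
  have h3 : ∑' n : ℕ, Real.exp (-((n : ℤ) : ℝ) ^ 2 / (2 * β)) ≤
      (1 - Real.exp (-(1 / (2 * β))))⁻¹ := by
    rw [← tsum_geometric_of_lt_one hq0.le hq1]
    exact hs.tsum_le_tsum (VwBasic_le_pow hβ) (summable_geometric_of_lt_one hq0.le hq1)
  have h4 : (1 - Real.exp (-(1 / (2 * β))))⁻¹ ≤ 1 + 2 * β := by
    rw [inv_le_comm₀ (by linarith) (by linarith)]
    have h5 : 1 + 1 / (2 * β) ≤ Real.exp (1 / (2 * β)) := by
      have := Real.add_one_le_exp (1 / (2 * β))
      linarith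
    have h6 : Real.exp (-(1 / (2 * β))) ≤ (1 + 1 / (2 * β))⁻¹ := by
      rw [Real.exp_neg]
      exact inv_anti₀ (by positivity) h5
    have h7 : (1 + 1 / (2 * β))⁻¹ = 1 - (1 + 2 * β)⁻¹ := by
      field_simp
      ring
    rw [h7] at h6
    linarith
  rw [h1]
  linarith

theorem one_le_ph {β : ℝ} (hβ : 0 < β) : 1 ≤ ph β := by
  unfold ph
  have h := (summable_gauss hβ).le_tsum 0 fun i _ => (Real.exp_pos _).le
  simpa using h

private theorem VwBasic_shift (G g : ℕ → ℝ) (k : ℕ) (h0 : ∀ n, n < k → G n = 0)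
    (hnn : ∀ n, 0 ≤ G n) (hle : ∀ n, G (n + k) ≤ g n) (hg : Summable g) :
    Summable G ∧ ∑' n, G n ≤ ∑' n, g n := by
  have hs' : Summable fun n : ℕ => G (n + k) :=
    Summable.of_nonneg_of_le (fun n => hnn (n + k)) hle hg
  have hs : Summable G := (summable_nat_add_iff k).mp hs'
  refine ⟨hs, ?_⟩
  have h1 := hs.sum_add_tsum_nat_add k
  have h2 : ∑ i ∈ Finset.range k, G i = 0 :=
    Finset.sum_eq_zero fun i hi => h0 i (Finset.mem_range.mp hi)
  rw [h2, zero_add] at h1
  rw [← h1]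
  exact hs'.tsum_le_tsum hle hg

private theorem VwBasic_exp2 : Real.exp (-2) ≤ 1 / 2 := by
  have h := Real.add_one_le_exp (2 : ℝ)
  rw [Real.exp_neg, inv_le_comm₀ (Real.exp_pos _) (by norm_num)]
  linarith

private theorem VwBasic_quad (x y : ℝ) (hx : 0 ≤ x) (hy : 1 ≤ y) :
    -(x + (y + 1)) ^ 2 / 2 ≤ -(y + 1) ^ 2 / 2 + x * (-2) := by
  nlinarith [mul_nonneg hx (sub_nonneg.mpr hy), sq_nonneg x]

private theorem VwBasic_tail_nat (m : ℕ) (hm : 1 ≤ m) :
    Summable (fun n : ℕ => if m < n then Real.exp (-(n : ℝ) ^ 2 / 2) else 0) ∧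
      ∑' n : ℕ, (if m < n then Real.exp (-(n : ℝ) ^ 2 / 2) else 0) ≤
        2 * Real.exp (-((m : ℝ) + 1) ^ 2 / 2) := by
  have hq0 : 0 < Real.exp (-2 : ℝ) := Real.exp_pos (-2)
  have hq1 : Real.exp (-2 : ℝ) ≤ 1 / 2 := VwBasic_exp2
  have hgeo : Summable fun n : ℕ =>
      Real.exp (-((m : ℝ) + 1) ^ 2 / 2) * Real.exp (-2 : ℝ) ^ n :=
    (summable_geometric_of_lt_one hq0.le (by linarith)).mul_left _
  have hm1 : (1 : ℝ) ≤ (m : ℝ) := by exact_mod_cast hm
  obtain ⟨h1, h2⟩ := VwBasic_shift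
    (fun n : ℕ => if m < n then Real.exp (-(n : ℝ) ^ 2 / 2) else 0)
    (fun n : ℕ => Real.exp (-((m : ℝ) + 1) ^ 2 / 2) * Real.exp (-2 : ℝ) ^ n) (m + 1)
    (fun n hn => if_neg (by omega))
    (fun n => by
      show (0 : ℝ) ≤ if m < n then Real.exp (-(n : ℝ) ^ 2 / 2) else 0
      split_ifs
      · exact (Real.exp_pos _).le
      · exact le_rfl)
    (fun n => by
      show (if m < n + (m + 1) then Real.exp (-((n + (m + 1) : ℕ) : ℝ) ^ 2 / 2) else 0) ≤
        Real.exp (-((m : ℝ) + 1) ^ 2 / 2) * Real.exp (-2 : ℝ) ^ n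
      have hmn : m < n + (m + 1) := by omega
      have h3 := VwBasic_quad (n : ℝ) (m : ℝ) (Nat.cast_nonneg n) hm1
      rw [if_pos hmn, ← Real.exp_nat_mul, ← Real.exp_add]
      apply Real.exp_le_exp.mpr
      rw [Nat.cast_add, Nat.cast_add, Nat.cast_one]
      exact h3)
    hgeo
  refine ⟨h1, h2.trans ?_⟩
  rw [tsum_mul_left, tsum_geometric_of_lt_one hq0.le (by linarith), mul_comm]
  refine mul_le_mul_of_nonneg_right ?_ (Real.exp_pos _).le
  rw [inv_le_comm₀ (by linarith) (by norm_num)]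
  linarith

private theorem VwBasic_two_sided (G : ℤ → ℝ) (g : ℕ → ℝ) (hp : ∀ n : ℕ, G (n : ℤ) = g n)
    (hn : ∀ n : ℕ, G (-(n : ℤ)) = g n) (h0 : 0 ≤ G 0) (hg : Summable g) :
    Summable G ∧ ∑' j, G j ≤ 2 * ∑' n, g n := by
  have hs1 : Summable (fun n : ℕ => G (n : ℤ)) := by
    have : (fun n : ℕ => G (n : ℤ)) = g := funext hp
    rw [this]; exact hg
  have hs2 : Summable (fun n : ℕ => G (-(n : ℤ))) := by
    have : (fun n : ℕ => G (-(n : ℤ))) = g := funext hn
    rw [this]; exact hg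
  refine ⟨Summable.of_nat_of_neg hs1 hs2, ?_⟩
  have h1 := Summable.tsum_of_nat_of_neg hs1 hs2
  have e1 : (fun n : ℕ => G (n : ℤ)) = g := funext hp
  have e2 : (fun n : ℕ => G (-(n : ℤ))) = g := funext hn
  have h2 : ∑' n : ℕ, G (n : ℤ) = ∑' n, g n := by rw [e1]
  have h3 : ∑' n : ℕ, G (-(n : ℤ)) = ∑' n, g n := by rw [e2]
  rw [h2, h3] at h1
  linarith

private theorem VwBasic_tail (m : ℕ) (hm : 1 ≤ m) :
    Summable (fun j : ℤ => if m < j.natAbs then Real.exp (-(j : ℝ) ^ 2 / 2) else 0) ∧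
      ∑' j : ℤ, (if m < j.natAbs then Real.exp (-(j : ℝ) ^ 2 / 2) else 0) ≤
        4 * Real.exp (-((m : ℝ) + 1) ^ 2 / 2) := by
  obtain ⟨h1, h2⟩ := VwBasic_tail_nat m hm
  obtain ⟨h3, h4⟩ := VwBasic_two_sided
    (fun j : ℤ => if m < j.natAbs then Real.exp (-(j : ℝ) ^ 2 / 2) else 0)
    (fun n : ℕ => if m < n then Real.exp (-(n : ℝ) ^ 2 / 2) else 0)
    (fun n => by
      show (if m < ((n : ℤ)).natAbs then Real.exp (-(((n : ℤ)) : ℝ) ^ 2 / 2) else 0) =
        if m < n then Real.exp (-(n : ℝ) ^ 2 / 2) else 0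
      rw [Int.natAbs_natCast, Int.cast_natCast])
    (fun n => by
      show (if m < (-(n : ℤ)).natAbs then Real.exp (-((-(n : ℤ) : ℤ) : ℝ) ^ 2 / 2) else 0) =
        if m < n then Real.exp (-(n : ℝ) ^ 2 / 2) else 0
      rw [Int.natAbs_neg, Int.natAbs_natCast, Int.cast_neg, Int.cast_natCast, neg_sq])
    (by
      show (0 : ℝ) ≤ if m < (0 : ℤ).natAbs then Real.exp (-((0 : ℤ) : ℝ) ^ 2 / 2) else 0
      split_ifs
      · exact (Real.exp_pos _).le
      · exact le_rfl)
    h1
  refine ⟨h3, h4.trans ?_⟩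
  linarith

theorem sum_vw_le (m : ℕ) (hm : 1 ≤ m) (f : ZMod p → ℝ) (h0 : ∀ x, 0 ≤ f x)
    (h1 : ∀ x, f x ≤ 1) :
    ∑ x, vw 1 x * f x ≤
      ∑ j ∈ Finset.Icc (-(m : ℤ)) m, Real.exp (-(j : ℝ) ^ 2 / 2) * f (j : ZMod p) +
        4 * Real.exp (-((m : ℝ) + 1) ^ 2 / 2) := by
  classical
  have hβ : (0 : ℝ) < 1 := one_pos
  rw [sum_vw_mul hβ]
  have e2 : ∀ j : ℤ, Real.exp (-(j : ℝ) ^ 2 / (2 * 1)) = Real.exp (-(j : ℝ) ^ 2 / 2) := fun j => by
    rw [mul_one]
  simp only [e2]
  have hsum := summable_gauss hβ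
  simp only [e2] at hsum
  obtain ⟨hG, hGs⟩ := VwBasic_tail m hm
  have hle : ∀ j : ℤ, Real.exp (-(j : ℝ) ^ 2 / 2) * f (j : ZMod p) ≤
      (if j ∈ Finset.Icc (-(m : ℤ)) m then Real.exp (-(j : ℝ) ^ 2 / 2) * f (j : ZMod p) else 0) +
        (if m < j.natAbs then Real.exp (-(j : ℝ) ^ 2 / 2) else 0) := by
    intro j
    by_cases hj : j ∈ Finset.Icc (-(m : ℤ)) m
    · rw [if_pos hj]
      have : (0 : ℝ) ≤ if m < j.natAbs then Real.exp (-(j : ℝ) ^ 2 / 2) else 0 := by
        split_ifs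
        · exact (Real.exp_pos _).le
        · exact le_rfl
      linarith
    · rw [if_neg hj]
      have hj' : m < j.natAbs := by
        rw [Finset.mem_Icc] at hj
        omega
      rw [if_pos hj', zero_add]
      exact mul_le_of_le_one_right (Real.exp_pos _).le (h1 _)
  have hs1 : Summable fun j : ℤ => (if j ∈ Finset.Icc (-(m : ℤ)) m then
      Real.exp (-(j : ℝ) ^ 2 / 2) * f (j : ZMod p) else 0) := by
    refine summable_of_ne_finset_zero (s := Finset.Icc (-(m : ℤ)) m) fun j hj => ?_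
    rw [if_neg hj]
  have hs0 : Summable fun j : ℤ => Real.exp (-(j : ℝ) ^ 2 / 2) * f (j : ZMod p) := by
    refine Summable.of_nonneg_of_le (fun j => mul_nonneg (Real.exp_pos _).le (h0 _)) (fun j => ?_)
      hsum
    exact mul_le_of_le_one_right (Real.exp_pos _).le (h1 _)
  refine (hs0.tsum_le_tsum hle (hs1.add hG)).trans ?_
  rw [hs1.tsum_add hG]
  refine add_le_add (le_of_eq ?_) hGs
  rw [tsum_eq_sum (s := Finset.Icc (-(m : ℤ)) m) fun j hj => by rw [if_neg hj]]
  refine Finset.sum_congr rfl fun j hj => by rw [if_pos hj]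

theorem vw_zero_small {β : ℝ} (hβ : 0 < β) {ε : ℝ} (hε : 0 < ε) :
    ∃ p₀ : ℕ, ∀ (q : ℕ) [Fact q.Prime], p₀ ≤ q → vw β (0 : ZMod q) ≤ 1 + ε := by
  classical
  have hs := summable_gauss hβ
  have ht := tendsto_tsum_compl_atTop_zero fun m : ℤ => Real.exp (-(m : ℝ) ^ 2 / (2 * β))
  have hev := (ht.eventually (gt_mem_nhds hε)).exists
  obtain ⟨s, hs1⟩ := hev
  refine ⟨(s.sup Int.natAbs) + 1, fun q hq hp => ?_⟩
  have hle : ∀ m : ℤ, (if (m : ZMod q) = 0 then Real.exp (-(m : ℝ) ^ 2 / (2 * β)) else 0) ≤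
      (if m = 0 then (1 : ℝ) else 0) +
        Set.indicator {m : ℤ | m ∉ s} (fun m : ℤ => Real.exp (-(m : ℝ) ^ 2 / (2 * β))) m := by
    intro m
    have hnn : 0 ≤ Set.indicator {m : ℤ | m ∉ s}
        (fun m : ℤ => Real.exp (-(m : ℝ) ^ 2 / (2 * β))) m :=
      Set.indicator_nonneg (fun _ _ => (Real.exp_pos _).le) _
    by_cases h0 : m = 0
    · rw [h0] at hnn ⊢
      rw [if_pos rfl]
      have : (if ((0 : ℤ) : ZMod q) = 0 then Real.exp (-((0 : ℤ) : ℝ) ^ 2 / (2 * β)) else 0) ≤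
          (1 : ℝ) := by
        simp
      linarith
    · rw [if_neg h0, zero_add]
      by_cases hz : (m : ZMod q) = 0
      · rw [if_pos hz]
        have hd : (q : ℤ) ∣ m := (ZMod.intCast_zmod_eq_zero_iff_dvd m q).mp hz
        have hm : m ∉ s := by
          intro hms
          have h1 : m.natAbs ≤ s.sup Int.natAbs := Finset.le_sup hms
          have h2 : q ≤ m.natAbs := Nat.le_of_dvd (Int.natAbs_pos.mpr h0)
            (Int.natCast_dvd.mp hd)
          omega
        rw [Set.indicator_of_mem (show m ∈ {m : ℤ | m ∉ s} from hm)]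
      · rw [if_neg hz]
        exact hnn
  have hsA : Summable fun m : ℤ => (if m = 0 then (1 : ℝ) else 0) :=
    summable_of_ne_finset_zero (s := {0}) fun m hm => by
      rw [if_neg (by simpa using hm)]
  have hsB : Summable (Set.indicator {m : ℤ | m ∉ s}
      (fun m : ℤ => Real.exp (-(m : ℝ) ^ 2 / (2 * β)))) := hs.indicator _
  unfold vw
  refine ((VwBasic_summable_ite hβ (0 : ZMod q)).tsum_le_tsum hle (hsA.add hsB)).trans ?_
  rw [hsA.tsum_add hsB, tsum_ite_eq]
  have h4 : ∑' m : ℤ, Set.indicator {m : ℤ | m ∉ s}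
      (fun m : ℤ => Real.exp (-(m : ℝ) ^ 2 / (2 * β))) m =
      ∑' m : { m : ℤ // m ∉ s }, Real.exp (-((m : ℤ) : ℝ) ^ 2 / (2 * β)) :=
    (tsum_subtype {m : ℤ | m ∉ s} fun m : ℤ => Real.exp (-(m : ℝ) ^ 2 / (2 * β))).symm
  rw [h4]
  linarith

end Pool.Agent.Lib.MP_6d8312_an.KD
end
end

section

/-!
# Doubling of the Villain weights

`Q_c(z) = ∑'_m [m ≡ 2z mod p, m % 2 = c] exp (-m²/(8β))`, `c ∈ {0,1}`.
(1) `vw (2β) (x+y) * vw (2β) (x-y) = ∑'_{(n,n')} [n ≡ x+y][n' ≡ x-y] exp (-(n²+n'²)/(4β))`; the map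
`(n,n') ↦ (n+n', n-n')` is injective with range `{a ≡ b mod 2}`; `a ≡ 2x`, `b ≡ 2y` (iff, since `2` is
invertible mod `p`), `n²+n'² = (a²+b²)/2`; this gives `∑_c Q_c(x) Q_c(y)`.
(2) `Q_c(-z) = Q_c(z)`: `m → -m`.
(3) for `c` let `R_e(z) = [e % 2 = c] ∑'_P [P ≡ 2z mod p, P % 4 = e] exp (-P²/(16β))`, `e ∈ Fin 4`.
`vw β x * Q_c(y) = ∑'_{(n,m)} [n ≡ x][m ≡ 2y, m % 2 = c] exp (-n²/(2β) - m²/(8β))`, the map
`(n,m) ↦ (P,Q) = (m+2n, m-2n)` is injective with range `{P ≡ Q mod 4}`, `P ≡ 2(y+x)`,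
`Q ≡ 2(y-x)` (iff), `P % 2 = m % 2`, `(P²+Q²)/(16β) = m²/(8β) + n²/(2β)`; this gives
`∑_e R_e(y+x) R_e(y-x)`.
-/

set_option autoImplicit false

noncomputable section

namespace Pool.Agent.Lib.MP_6d8312_an.KD

open Finset

variable {p : ℕ} [Fact p.Prime]

/-- Gaussian terms on a set. -/
private def VwDbl_E (c : ℝ) (A : ℤ → Prop) (m : ℤ) : ℝ :=
  open Classical in if A m then Real.exp (-(m : ℝ) ^ 2 / c) else 0

private theorem VwDbl_pos {c : ℝ} {A : ℤ → Prop} {m : ℤ} (h : A m) :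
    VwDbl_E c A m = Real.exp (-(m : ℝ) ^ 2 / c) := by
  simp [VwDbl_E, h]

private theorem VwDbl_neg {c : ℝ} {A : ℤ → Prop} {m : ℤ} (h : ¬ A m) : VwDbl_E c A m = 0 := by
  simp [VwDbl_E, h]

private theorem VwDbl_summable {c : ℝ} (hc : 0 < c) (A : ℤ → Prop) :
    Summable (fun m => ‖VwDbl_E c A m‖) := by
  have h := summable_gauss (β := c / 2) (by positivity)
  rw [show 2 * (c / 2) = c by ring] at h
  refine Summable.of_nonneg_of_le (fun m => norm_nonneg _) (fun m => ?_) h
  by_cases hm : A m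
  · rw [VwDbl_pos hm, Real.norm_of_nonneg (Real.exp_pos _).le]
  · rw [VwDbl_neg hm, norm_zero]
    exact (Real.exp_pos _).le

private theorem VwDbl_prod {ι : Type} [Fintype ι] {f g : ℤ → ℝ} {f' g' : ι → ℤ → ℝ}
    (hf : Summable fun m => ‖f m‖) (hg : Summable fun m => ‖g m‖)
    (hf' : ∀ i, Summable fun m => ‖f' i m‖) (hg' : ∀ i, Summable fun m => ‖g' i m‖)
    (φ : ℤ × ℤ → ℤ × ℤ) (hφ : Function.Injective φ)
    (h1 : ∀ i a b, f' i a * g' i b ≠ 0 → (a, b) ∈ Set.range φ)
    (h2 : ∀ x : ℤ × ℤ, f x.1 * g x.2 = ∑ i, f' i (φ x).1 * g' i (φ x).2) :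
    (∑' m, f m) * (∑' m, g m) = ∑ i, (∑' m, f' i m) * (∑' m, g' i m) := by
  rw [tsum_mul_tsum_of_summable_norm hf hg]
  have h3 : ∀ i, (∑' m, f' i m) * (∑' m, g' i m) = ∑' x : ℤ × ℤ, f' i x.1 * g' i x.2 :=
    fun i => tsum_mul_tsum_of_summable_norm (hf' i) (hg' i)
  simp_rw [h3]
  rw [← Summable.tsum_finsetSum (fun i _ => summable_mul_of_summable_norm (hf' i) (hg' i))]
  have h4 := hφ.tsum_eq (f := fun x : ℤ × ℤ => ∑ i, f' i x.1 * g' i x.2) (by
    rintro ⟨a, b⟩ hab
    obtain ⟨i, -, hi⟩ := Finset.exists_ne_zero_of_sum_ne_zero (Function.mem_support.1 hab)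
    exact h1 i a b hi)
  rw [← h4]
  exact tsum_congr fun x => h2 x

private theorem VwDbl_vw (β : ℝ) (x : ZMod p) :
    vw β x = ∑' m : ℤ, VwDbl_E (2 * β) (fun m => (m : ZMod p) = x) m := by
  unfold vw
  refine tsum_congr fun m => ?_
  by_cases hm : (m : ZMod p) = x
  · rw [VwDbl_pos (A := fun m => (m : ZMod p) = x) hm, if_pos hm]
  · rw [VwDbl_neg (A := fun m => (m : ZMod p) = x) hm, if_neg hm]

private theorem VwDbl_exp_ne {c : ℝ} {A : ℤ → Prop} {m : ℤ} (h : VwDbl_E c A m ≠ 0) : A m := by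
  by_contra hm
  exact h (VwDbl_neg hm)

theorem dbl_vw (hp : p ≠ 2) {β : ℝ} (hβ : 0 < β) :
    Dbl (vw β : ZMod p → ℝ) (vw (2 * β)) := by
  have h2 : (2 : ZMod p) ≠ 0 := two_ne_zero' hp
  let AQ : Fin 2 → ZMod p → ℤ → Prop := fun c z m => (m : ZMod p) = 2 * z ∧ m % 2 = (c : ℤ)
  let AR : Fin 2 → Fin 4 → ZMod p → ℤ → Prop := fun c e z m =>
    (m : ZMod p) = 2 * z ∧ m % 4 = (e : ℤ) ∧ m % 2 = (c : ℤ)
  refine ⟨Fin 2, inferInstance, fun c z => ∑' m : ℤ, VwDbl_E (8 * β) (AQ c z) m, ?_, ?_, ?_⟩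
  · intro x y
    rw [VwDbl_vw, VwDbl_vw]
    refine VwDbl_prod (VwDbl_summable (by positivity) _) (VwDbl_summable (by positivity) _)
      (fun i => VwDbl_summable (by positivity) _) (fun i => VwDbl_summable (by positivity) _)
      (fun q => (q.1 + q.2, q.1 - q.2)) ?_ ?_ ?_
    · rintro ⟨a, b⟩ ⟨a', b'⟩ h
      simp only [Prod.mk.injEq] at h ⊢
      omega
    · intro i a b hab
      obtain ⟨ha, hb⟩ := mul_ne_zero_iff.1 hab
      have ha' := (VwDbl_exp_ne ha).2
      have hb' := (VwDbl_exp_ne hb).2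
      refine ⟨((a + b) / 2, (a - b) / 2), ?_⟩
      simp only [Prod.mk.injEq]
      omega
    · rintro ⟨n, n'⟩
      show VwDbl_E (2 * (2 * β)) (fun m => (m : ZMod p) = x + y) n *
        VwDbl_E (2 * (2 * β)) (fun m => (m : ZMod p) = x - y) n' =
        ∑ i, VwDbl_E (8 * β) (AQ i x) (n + n') * VwDbl_E (8 * β) (AQ i y) (n - n')
      by_cases hn : ((n : ℤ) : ZMod p) = x + y ∧ ((n' : ℤ) : ZMod p) = x - y
      · rw [VwDbl_pos (A := fun m => (m : ZMod p) = x + y) hn.1,
          VwDbl_pos (A := fun m => (m : ZMod p) = x - y) hn.2]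
        have e1 : ((n + n' : ℤ) : ZMod p) = 2 * x := by push_cast; rw [hn.1, hn.2]; ring
        have e2 : ((n - n' : ℤ) : ZMod p) = 2 * y := by push_cast; rw [hn.1, hn.2]; ring
        have e3 : Real.exp (-(n : ℝ) ^ 2 / (2 * (2 * β))) * Real.exp (-(n' : ℝ) ^ 2 / (2 * (2 * β)))
            = Real.exp (-((n + n' : ℤ) : ℝ) ^ 2 / (8 * β)) *
              Real.exp (-((n - n' : ℤ) : ℝ) ^ 2 / (8 * β)) := by
          rw [← Real.exp_add, ← Real.exp_add]
          congr 1
          push_cast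
          field_simp
          ring
        rw [e3, Fin.sum_univ_two]
        rcases Int.emod_two_eq_zero_or_one (n + n') with h | h
        · have h' : (n - n') % 2 = 0 := by omega
          rw [VwDbl_pos (A := AQ 0 x) ⟨e1, by simpa using h⟩,
            VwDbl_pos (A := AQ 0 y) ⟨e2, by simpa using h'⟩,
            VwDbl_neg (A := AQ 1 x) (fun q => by have := q.2; simp at this; omega)]
          ring
        · have h' : (n - n') % 2 = 1 := by omega
          rw [VwDbl_pos (A := AQ 1 x) ⟨e1, by simpa using h⟩,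
            VwDbl_pos (A := AQ 1 y) ⟨e2, by simpa using h'⟩,
            VwDbl_neg (A := AQ 0 x) (fun q => by have := q.2; simp at this; omega)]
          ring
      · have e0 : VwDbl_E (2 * (2 * β)) (fun m => (m : ZMod p) = x + y) n *
            VwDbl_E (2 * (2 * β)) (fun m => (m : ZMod p) = x - y) n' = 0 := by
          by_contra hne
          obtain ⟨ha, hb⟩ := mul_ne_zero_iff.1 hne
          exact hn ⟨VwDbl_exp_ne ha, VwDbl_exp_ne hb⟩
        rw [e0]
        symm
        refine Finset.sum_eq_zero fun i _ => ?_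
        by_contra hne
        obtain ⟨ha, hb⟩ := mul_ne_zero_iff.1 hne
        have ha' := (VwDbl_exp_ne ha).1
        have hb' := (VwDbl_exp_ne hb).1
        push_cast at ha' hb'
        refine hn ⟨mul_left_cancel₀ h2 ?_, mul_left_cancel₀ h2 ?_⟩
        · linear_combination ha' + hb'
        · linear_combination ha' - hb'
  · intro c z
    show ∑' m : ℤ, VwDbl_E (8 * β) (AQ c (-z)) m = ∑' m : ℤ, VwDbl_E (8 * β) (AQ c z) m
    rw [← (Equiv.neg ℤ).tsum_eq (fun m => VwDbl_E (8 * β) (AQ c (-z)) m)]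
    refine tsum_congr fun m => ?_
    by_cases hm : AQ c z m
    · have hm' : AQ c (-z) (-m) := ⟨by push_cast; rw [hm.1]; ring, by have := hm.2; omega⟩
      show VwDbl_E (8 * β) (AQ c (-z)) (-m) = _
      rw [VwDbl_pos hm, VwDbl_pos hm']
      push_cast
      rw [neg_sq]
    · have hm' : ¬ AQ c (-z) (-m) := fun q => hm ⟨by
          have := q.1
          push_cast at this
          linear_combination -this, by have := q.2; omega⟩
      show VwDbl_E (8 * β) (AQ c (-z)) (-m) = _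
      rw [VwDbl_neg hm, VwDbl_neg hm']
  · intro c
    refine ⟨Fin 4, inferInstance, fun e z => ∑' m : ℤ, VwDbl_E (16 * β) (AR c e z) m, ?_⟩
    intro x y
    show vw β x * (∑' m : ℤ, VwDbl_E (8 * β) (AQ c y) m) = ∑ e,
      (∑' m : ℤ, VwDbl_E (16 * β) (AR c e (y + x)) m) *
        (∑' m : ℤ, VwDbl_E (16 * β) (AR c e (y - x)) m)
    rw [VwDbl_vw]
    refine VwDbl_prod (VwDbl_summable (by positivity) _) (VwDbl_summable (by positivity) _)
      (fun i => VwDbl_summable (by positivity) _) (fun i => VwDbl_summable (by positivity) _)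
      (fun q => (q.2 + 2 * q.1, q.2 - 2 * q.1)) ?_ ?_ ?_
    · rintro ⟨a, b⟩ ⟨a', b'⟩ h
      simp only [Prod.mk.injEq] at h ⊢
      omega
    · intro i a b hab
      obtain ⟨ha, hb⟩ := mul_ne_zero_iff.1 hab
      have ha' := (VwDbl_exp_ne ha).2.1
      have hb' := (VwDbl_exp_ne hb).2.1
      refine ⟨((a - b) / 4, (a + b) / 2), ?_⟩
      simp only [Prod.mk.injEq]
      omega
    · rintro ⟨n, m⟩
      show VwDbl_E (2 * β) (fun m => (m : ZMod p) = x) n * VwDbl_E (8 * β) (AQ c y) m =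
        ∑ i, VwDbl_E (16 * β) (AR c i (y + x)) (m + 2 * n) *
          VwDbl_E (16 * β) (AR c i (y - x)) (m - 2 * n)
      by_cases hn : ((n : ℤ) : ZMod p) = x ∧ AQ c y m
      · obtain ⟨hn1, hn2, hn3⟩ := hn
        rw [VwDbl_pos (A := fun m => (m : ZMod p) = x) hn1, VwDbl_pos (A := AQ c y) ⟨hn2, hn3⟩]
        have e1 : ((m + 2 * n : ℤ) : ZMod p) = 2 * (y + x) := by push_cast; rw [hn1, hn2]; ring
        have e2 : ((m - 2 * n : ℤ) : ZMod p) = 2 * (y - x) := by push_cast; rw [hn1, hn2]; ring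
        have e3 : Real.exp (-(n : ℝ) ^ 2 / (2 * β)) * Real.exp (-(m : ℝ) ^ 2 / (8 * β))
            = Real.exp (-((m + 2 * n : ℤ) : ℝ) ^ 2 / (16 * β)) *
              Real.exp (-((m - 2 * n : ℤ) : ℝ) ^ 2 / (16 * β)) := by
          rw [← Real.exp_add, ← Real.exp_add]
          congr 1
          push_cast
          field_simp
          ring
        obtain ⟨i, hi⟩ : ∃ i : Fin 4, (m + 2 * n) % 4 = (i : ℤ) :=
          ⟨⟨((m + 2 * n) % 4).toNat, by omega⟩, by simp; omega⟩
        rw [e3, Finset.sum_eq_single i]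
        · rw [VwDbl_pos (A := AR c i (y + x)) ⟨e1, hi, by omega⟩,
            VwDbl_pos (A := AR c i (y - x)) ⟨e2, by omega, by omega⟩]
        · intro j _ hj
          rw [VwDbl_neg (A := AR c j (y + x)), zero_mul]
          intro q
          apply hj
          have := q.2.1
          apply Fin.ext
          omega
        · intro h
          exact absurd (Finset.mem_univ i) h
      · have e0 : VwDbl_E (2 * β) (fun m => (m : ZMod p) = x) n * VwDbl_E (8 * β) (AQ c y) m = 0 := by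
          by_contra hne
          obtain ⟨ha, hb⟩ := mul_ne_zero_iff.1 hne
          exact hn ⟨VwDbl_exp_ne ha, VwDbl_exp_ne hb⟩
        rw [e0]
        symm
        refine Finset.sum_eq_zero fun i _ => ?_
        by_contra hne
        obtain ⟨ha, hb⟩ := mul_ne_zero_iff.1 hne
        obtain ⟨ha1, ha2, ha3⟩ := VwDbl_exp_ne ha
        obtain ⟨hb1, hb2, hb3⟩ := VwDbl_exp_ne hb
        push_cast at ha1 hb1
        have h4 : (2 : ZMod p) * 2 ≠ 0 := mul_ne_zero h2 h2
        refine hn ⟨mul_left_cancel₀ h4 ?_, mul_left_cancel₀ h2 ?_, by omega⟩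
        · linear_combination ha1 - hb1
        · linear_combination ha1 + hb1

end Pool.Agent.Lib.MP_6d8312_an.KD
end
end

section

/-!
# Expectations over random subsets

`bern_one`: `Finset.sum_pow_mul_eq_add_pow` or `Finset.prod_add`; `bern_insert`:
`Finset.sum_powerset_insert`, cards.  The others follow from `bern_insert` by induction on `A` or
directly from the definition.
`bern_sum_mem`: reindex `(S, a ∈ S)` by `(a, S' = S.erase a ⊆ A.erase a)` (`Finset.sum_sigma'`,
`Finset.sum_bij'`), the weight of `S` is `l` times the weight of `S'` in `A.erase a`.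
`bern_erase_le`: `A = insert a (A.erase a)`, `bern_insert`, monotonicity.
`bern_thin`: induction on `A`, `bern_insert` for both (`a ∉ S` for `S ⊆ A`):
`(1-l) X + l ((1-r) X + r Y) = (1-lr) X + l r Y`.
-/

set_option autoImplicit false

noncomputable section

namespace Pool.Agent.Lib.MP_6d8312_an.KD

open Finset

variable {α : Type*} [DecidableEq α]

theorem bern_empty (l : ℝ) (f : Finset α → ℝ) : bern l ∅ f = f ∅ := by
  unfold bern
  rw [Finset.powerset_empty, Finset.sum_singleton]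
  simp

theorem bern_insert (l : ℝ) {A : Finset α} {a : α} (ha : a ∉ A) (f : Finset α → ℝ) :
    bern l (insert a A) f = (1 - l) * bern l A f + l * bern l A (fun S => f (insert a S)) := by
  unfold bern
  rw [Finset.sum_powerset_insert ha, Finset.mul_sum, Finset.mul_sum]
  congr 1
  · refine Finset.sum_congr rfl fun S hS => ?_
    have hc : S.card ≤ A.card := Finset.card_le_card (Finset.mem_powerset.1 hS)
    rw [Finset.card_insert_of_notMem ha, Nat.succ_sub hc, pow_succ]
    ring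
  · refine Finset.sum_congr rfl fun S hS => ?_
    have haS : a ∉ S := fun h => ha (Finset.mem_powerset.1 hS h)
    rw [Finset.card_insert_of_notMem ha, Finset.card_insert_of_notMem haS, Nat.succ_sub_succ,
      pow_succ]
    ring

theorem bern_const (l : ℝ) (A : Finset α) (c : ℝ) : bern l A (fun _ => c) = c := by
  induction A using Finset.induction_on with
  | empty => exact bern_empty l _
  | insert a A ha ih =>
    rw [bern_insert l ha, ih]
    ring

theorem bern_congr {l : ℝ} {A : Finset α} {f g : Finset α → ℝ} (h : ∀ S ⊆ A, f S = g S) :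
    bern l A f = bern l A g := by
  unfold bern
  refine Finset.sum_congr rfl fun S hS => ?_
  rw [h S (Finset.mem_powerset.1 hS)]

theorem bern_mono {l : ℝ} (h0 : 0 ≤ l) (h1 : l ≤ 1) {A : Finset α} {f g : Finset α → ℝ}
    (h : ∀ S ⊆ A, f S ≤ g S) : bern l A f ≤ bern l A g := by
  unfold bern
  refine Finset.sum_le_sum fun S hS => ?_
  exact mul_le_mul_of_nonneg_left (h S (Finset.mem_powerset.1 hS))
    (mul_nonneg (pow_nonneg h0 _) (pow_nonneg (sub_nonneg.2 h1) _))

theorem bern_nonneg {l : ℝ} (h0 : 0 ≤ l) (h1 : l ≤ 1) {A : Finset α} {f : Finset α → ℝ}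
    (h : ∀ S ⊆ A, 0 ≤ f S) : 0 ≤ bern l A f := by
  have h2 := bern_mono h0 h1 (A := A) (f := fun _ => 0) (g := f) h
  rwa [bern_const] at h2

theorem bern_add (l : ℝ) (A : Finset α) (f g : Finset α → ℝ) :
    bern l A (fun S => f S + g S) = bern l A f + bern l A g := by
  unfold bern
  rw [← Finset.sum_add_distrib]
  exact Finset.sum_congr rfl fun S _ => by ring

theorem bern_sub (l : ℝ) (A : Finset α) (f g : Finset α → ℝ) :
    bern l A (fun S => f S - g S) = bern l A f - bern l A g := by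
  unfold bern
  rw [← Finset.sum_sub_distrib]
  exact Finset.sum_congr rfl fun S _ => by ring

theorem bern_mul_left (l : ℝ) (A : Finset α) (c : ℝ) (f : Finset α → ℝ) :
    bern l A (fun S => c * f S) = c * bern l A f := by
  unfold bern
  rw [Finset.mul_sum]
  exact Finset.sum_congr rfl fun S _ => by ring

theorem bern_finset_sum {ι : Type*} (l : ℝ) (A : Finset α) (s : Finset ι)
    (f : ι → Finset α → ℝ) :
    bern l A (fun S => ∑ i ∈ s, f i S) = ∑ i ∈ s, bern l A (f i) := by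
  unfold bern
  rw [Finset.sum_comm]
  exact Finset.sum_congr rfl fun S _ => by rw [Finset.mul_sum]

theorem bern_card (l : ℝ) (A : Finset α) : bern l A (fun S => (S.card : ℝ)) = l * A.card := by
  induction A using Finset.induction_on with
  | empty => rw [bern_empty]; simp
  | insert a A ha ih =>
    have h1 : bern l A (fun S => ((insert a S).card : ℝ)) =
        bern l A (fun S => (S.card : ℝ) + 1) := by
      refine bern_congr fun S hS => ?_
      rw [Finset.card_insert_of_notMem fun h => ha (hS h)]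
      push_cast
      ring
    rw [bern_insert l ha, h1, bern_add, bern_const, ih, Finset.card_insert_of_notMem ha]
    push_cast
    ring

theorem bern_sum_mem (l : ℝ) (A : Finset α) (f : α → Finset α → ℝ) :
    bern l A (fun S => ∑ a ∈ S, f a (S.erase a)) = l * ∑ a ∈ A, bern l (A.erase a) (f a) := by
  induction A using Finset.induction_on generalizing f with
  | empty => rw [bern_empty, Finset.sum_empty, Finset.sum_empty, mul_zero]
  | insert a A ha ih =>
    have h1 : bern l A (fun S => ∑ x ∈ insert a S, f x ((insert a S).erase x)) =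
        bern l A (fun S => f a S + ∑ x ∈ S, f x (insert a (S.erase x))) := by
      refine bern_congr fun S hS => ?_
      have haS : a ∉ S := fun h => ha (hS h)
      rw [Finset.sum_insert haS, Finset.erase_insert haS]
      congr 1
      refine Finset.sum_congr rfl fun x hx => ?_
      rw [Finset.erase_insert_of_ne]
      rintro rfl
      exact haS hx
    have h2 : ∑ x ∈ A, bern l ((insert a A).erase x) (f x) =
        ∑ x ∈ A, ((1 - l) * bern l (A.erase x) (f x) +
          l * bern l (A.erase x) (fun S => f x (insert a S))) := by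
      refine Finset.sum_congr rfl fun x hx => ?_
      have hax : a ≠ x := by
        rintro rfl
        exact ha hx
      rw [Finset.erase_insert_of_ne hax, bern_insert]
      exact fun h => ha (Finset.mem_of_mem_erase h)
    rw [bern_insert l ha, ih, h1, bern_add, ih (fun x S => f x (insert a S)),
      Finset.sum_insert ha, Finset.erase_insert ha, h2, Finset.sum_add_distrib,
      ← Finset.mul_sum, ← Finset.mul_sum]
    ring

theorem bern_erase_le {l : ℝ} (h0 : 0 ≤ l) (h1 : l ≤ 1) {A : Finset α} {f : Finset α → ℝ}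
    (h : ∀ S T, S ⊆ T → T ⊆ A → f S ≤ f T) (a : α) : bern l (A.erase a) f ≤ bern l A f := by
  by_cases ha : a ∈ A
  · obtain ⟨B, hB⟩ : ∃ B, B = A.erase a := ⟨_, rfl⟩
    have haB : a ∉ B := by rw [hB]; exact Finset.notMem_erase a A
    have hAB : insert a B = A := by rw [hB]; exact Finset.insert_erase ha
    have h2 : bern l A f = (1 - l) * bern l B f + l * bern l B (fun S => f (insert a S)) := by
      rw [← hAB, bern_insert l haB]
    have h3 : bern l B f ≤ bern l B (fun S => f (insert a S)) := by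
      refine bern_mono h0 h1 fun S hS => h _ _ (Finset.subset_insert a S) ?_
      rw [← hAB]
      exact Finset.insert_subset_insert a hS
    have h4 := mul_le_mul_of_nonneg_left h3 h0
    rw [← hB, h2]
    linarith
  · rw [Finset.erase_eq_of_notMem ha]

theorem exists_bern_le {l : ℝ} (h0 : 0 ≤ l) (h1 : l ≤ 1) (A : Finset α) (f : Finset α → ℝ) :
    ∃ S ⊆ A, bern l A f ≤ f S := by
  obtain ⟨S, hS, hmax⟩ := Finset.exists_max_image A.powerset f ⟨∅, Finset.empty_mem_powerset A⟩
  refine ⟨S, Finset.mem_powerset.1 hS, ?_⟩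
  have h2 := bern_mono h0 h1 (A := A) (f := f) (g := fun _ => f S)
    (fun T hT => hmax T (Finset.mem_powerset.2 hT))
  rwa [bern_const] at h2

theorem bern_thin (l r : ℝ) (A : Finset α) (f : Finset α → ℝ) :
    bern l A (fun S => bern r S f) = bern (l * r) A f := by
  induction A using Finset.induction_on generalizing f with
  | empty => rw [bern_empty, bern_empty, bern_empty]
  | insert a A ha ih =>
    have h1 : bern l A (fun S => bern r (insert a S) f) =
        bern l A (fun S => (1 - r) * bern r S f + r * bern r S (fun T => f (insert a T))) := by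
      refine bern_congr fun S hS => ?_
      rw [bern_insert r fun h => ha (hS h)]
    rw [bern_insert l ha, h1, bern_add, bern_mul_left, bern_mul_left, ih, ih, bern_insert _ ha]
    ring

/-- The union of two independent random subsets of disjoint sets. -/
theorem bern_union (l : ℝ) {A B : Finset α} (h : Disjoint A B) (f : Finset α → ℝ) :
    bern l (A ∪ B) f = bern l A (fun S => bern l B (fun T => f (S ∪ T))) := by
  induction A using Finset.induction_on generalizing f with
  | empty =>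
    rw [bern_empty, Finset.empty_union]
    exact bern_congr fun S _ => by rw [Finset.empty_union]
  | insert a A ha ih =>
    rw [Finset.disjoint_insert_left] at h
    have h1 : a ∉ A ∪ B := by
      rw [Finset.mem_union]
      rintro (h2 | h2)
      · exact ha h2
      · exact h.1 h2
    rw [Finset.insert_union, bern_insert l h1, bern_insert l ha, ih h.2, ih h.2]
    congr 2
    refine bern_congr fun S _ => bern_congr fun T _ => ?_
    rw [Finset.insert_union]

end Pool.Agent.Lib.MP_6d8312_an.KD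
end
end

section

/-!
# A quadratic form on functions of subsets

All statements by induction on the list.  `EE_one` and `EE_delta`: for a nodup list, pointwise
`(gg f)² + (hh f)² = (1-r) f(U)² + r f(insert a U)²`, and `bern_insert` (`List.toFinset_cons`).
For `EE_delta`, the shifted sequence is `0`, so the second term vanishes (`EE_zero`), and
`bern r l (gg f) = bern r (a::l) f`.
-/

set_option autoImplicit false

noncomputable section

namespace Pool.Agent.Lib.MP_6d8312_an.KD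

open Finset

variable {α : Type*} [DecidableEq α]

/-- Average over the coordinate `a`. -/
def gg (r : ℝ) (a : α) (f : Finset α → ℝ) : Finset α → ℝ :=
  fun U => (1 - r) * f U + r * f (insert a U)

/-- The `a`-component. -/
def hh (r : ℝ) (a : α) (f : Finset α → ℝ) : Finset α → ℝ :=
  fun U => Real.sqrt (r * (1 - r)) * (f (insert a U) - f U)

/-- The bilinear form with eigenvalue `c k` on the `k`-th level. -/
def EE (r : ℝ) : (ℕ → ℝ) → List α → (Finset α → ℝ) → (Finset α → ℝ) → ℝ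
  | c, [], f, f' => c 0 * (f ∅ * f' ∅)
  | c, a :: l, f, f' =>
      EE r c l (gg r a f) (gg r a f') + EE r (fun k => c (k + 1)) l (hh r a f) (hh r a f')

theorem EE_lin (r : ℝ) (x y : ℝ) (c c' : ℕ → ℝ) (l : List α) (f f' : Finset α → ℝ) :
    EE r (fun k => x * c k + y * c' k) l f f' = x * EE r c l f f' + y * EE r c' l f f' := by
  induction l generalizing c c' f f' with
  | nil => simp only [EE]; ring
  | cons a l ih =>
    simp only [EE]
    rw [ih c c', ih (fun k => c (k + 1)) (fun k => c' (k + 1))]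
    ring

theorem EE_mono (r : ℝ) {c c' : ℕ → ℝ} (h : ∀ k, c k ≤ c' k) (l : List α)
    (f : Finset α → ℝ) : EE r c l f f ≤ EE r c' l f f := by
  induction l generalizing c c' f with
  | nil =>
    simp only [EE]
    exact mul_le_mul_of_nonneg_right (h 0) (mul_self_nonneg _)
  | cons a l ih =>
    simp only [EE]
    exact add_le_add (ih h _) (ih (fun k => h (k + 1)) _)

theorem EE_add_left (r : ℝ) (c : ℕ → ℝ) (l : List α) (x y : ℝ) (f g f' : Finset α → ℝ) :
    EE r c l (fun U => x * f U + y * g U) f' = x * EE r c l f f' + y * EE r c l g f' := by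
  induction l generalizing c f g f' with
  | nil => simp only [EE]; ring
  | cons a l ih =>
    have h1 : gg r a (fun U => x * f U + y * g U) =
        fun U => x * gg r a f U + y * gg r a g U := by
      funext U; simp only [gg]; ring
    have h2 : hh r a (fun U => x * f U + y * g U) =
        fun U => x * hh r a f U + y * hh r a g U := by
      funext U; simp only [hh]; ring
    simp only [EE]
    rw [h1, h2, ih, ih]
    ring

theorem EE_add_right (r : ℝ) (c : ℕ → ℝ) (l : List α) (x y : ℝ) (f f' g' : Finset α → ℝ) :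
    EE r c l f (fun U => x * f' U + y * g' U) = x * EE r c l f f' + y * EE r c l f g' := by
  induction l generalizing c f f' g' with
  | nil => simp only [EE]; ring
  | cons a l ih =>
    have h1 : gg r a (fun U => x * f' U + y * g' U) =
        fun U => x * gg r a f' U + y * gg r a g' U := by
      funext U; simp only [gg]; ring
    have h2 : hh r a (fun U => x * f' U + y * g' U) =
        fun U => x * hh r a f' U + y * hh r a g' U := by
      funext U; simp only [hh]; ring
    simp only [EE]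
    rw [h1, h2, ih, ih]
    ring

theorem EE_one {r : ℝ} (h0 : 0 ≤ r) (h1 : r ≤ 1) {l : List α} (hl : l.Nodup)
    (f : Finset α → ℝ) : EE r (fun _ => 1) l f f = bern r l.toFinset (fun U => f U ^ 2) := by
  induction l generalizing f with
  | nil => simp only [EE, List.toFinset_nil, bern_empty]; ring
  | cons a l ih =>
    have hl' := List.nodup_cons.mp hl
    have ha : a ∉ l.toFinset := by simpa using hl'.1
    simp only [EE]
    rw [ih hl'.2, ih hl'.2, List.toFinset_cons, bern_insert r ha, ← bern_mul_left,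
      ← bern_mul_left, ← bern_add, ← bern_add]
    refine bern_congr fun U _ => ?_
    simp only [gg, hh]
    rw [mul_pow, Real.sq_sqrt (mul_nonneg h0 (by linarith))]
    ring

theorem EE_delta {r : ℝ} {l : List α} (hl : l.Nodup) (f : Finset α → ℝ) :
    EE r (fun k => if k = 0 then 1 else 0) l f f = bern r l.toFinset f ^ 2 := by
  have hz : ∀ (l : List α) (f : Finset α → ℝ), EE r (fun _ => 0) l f f = 0 := by
    intro l
    induction l with
    | nil => intro f; simp [EE]
    | cons a l ih => intro f; simp only [EE]; rw [ih, ih]; simp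
  induction l generalizing f with
  | nil => simp only [EE, List.toFinset_nil, bern_empty]; simp; ring
  | cons a l ih =>
    have hl' := List.nodup_cons.mp hl
    have ha : a ∉ l.toFinset := by simpa using hl'.1
    simp only [EE]
    have h2 : (fun k : ℕ => if k + 1 = 0 then (1 : ℝ) else 0) = fun _ => 0 := by
      funext k; simp
    rw [h2, hz, add_zero, ih hl'.2, List.toFinset_cons, bern_insert r ha, ← bern_mul_left,
      ← bern_mul_left, ← bern_add]
    rfl

end Pool.Agent.Lib.MP_6d8312_an.KD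
end
end
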