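import Mathlib
import Pool.Agent.Lib.MP_6d8312_an.Mg.G011
import Pool.Agent.Lib.MP_6d8312_an.Mg.G001

section

/-! # A Vandermonde system -/

set_option autoImplicit false

noncomputable section

namespace Pool.Agent.Lib.MP_6d8312_an.Q

theorem exists_coeffs (k : ℕ) : ∃ c ρ : Fin (k + 1) → ℝ, (∀ r, 0 ≤ ρ r ∧ ρ r ≤ 1) ∧
    ∀ b ≤ k, ∑ r, c r * ρ r ^ b = if b = 1 then 1 else 0 := by
  have hk : (0 : ℝ) < k + 1 := by positivity
  let ρ : Fin (k + 1) → ℝ := fun r => (r : ℕ) / ((k : ℝ) + 1)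
  have hinj : Function.Injective ρ := by
    intro r r' h
    simp only [ρ] at h
    have h1 := (div_left_inj' hk.ne').1 h
    exact Fin.ext (by exact_mod_cast h1)
  let M : Matrix (Fin (k + 1)) (Fin (k + 1)) ℝ := Matrix.vandermonde ρ
  have hdet : IsUnit M.det := isUnit_iff_ne_zero.2 (Matrix.det_vandermonde_ne_zero_iff.2 hinj)
  let v : Fin (k + 1) → ℝ := fun b => if (b : ℕ) = 1 then 1 else 0
  refine ⟨Matrix.vecMul v M⁻¹, ρ, ?_, ?_⟩
  · intro r
    refine ⟨by positivity, ?_⟩
    simp only [ρ]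
    rw [div_le_one hk]
    have : ((r : ℕ) : ℝ) < (k : ℝ) + 1 := by exact_mod_cast r.2
    exact this.le
  · intro b hb
    have h1 : Matrix.vecMul (Matrix.vecMul v M⁻¹) M = v := by
      rw [Matrix.vecMul_vecMul, Matrix.nonsing_inv_mul M hdet, Matrix.vecMul_one]
    have h2 := congrFun h1 ⟨b, by omega⟩
    simpa [Matrix.vecMul, dotProduct, M, Matrix.vandermonde_apply, v] using h2

end Pool.Agent.Lib.MP_6d8312_an.Q
end
end

section

/-! # Interpolation on a class -/

set_option autoImplicit false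

noncomputable section

namespace Pool.Agent.Lib.MP_6d8312_an.Q

private lemma ClassInterp_one {k : ℕ} (co ρ : Fin (k + 1) → ℝ)
    (hρ : ∀ r, 0 ≤ ρ r ∧ ρ r ≤ 1)
    (hco : ∀ b ≤ k, ∑ r, co r * ρ r ^ b = if b = 1 then 1 else 0)
    {E : Set ℤ} (hE : Dissociate E) (c : Cls E k) (R : ℕ) (ε : ℤ → ℂ) (hε : ∀ l, ‖ε l‖ ≤ 1) :
    ∃ (a : ℤ → ℂ) (F : ℤ → ℂ), TP (∑ r, |co r|) F ∧
      (∀ l ∈ c.C, a l = ε l / 2 ^ (c.G l).card ∧
        a (-l) = (starRingEnd ℂ) (ε l) / 2 ^ (c.G l).card) ∧
      (∀ n ∈ SignedSums E k, n ∉ c.C → -n ∉ c.C → a n = 0) ∧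
      ∀ n ∈ SignedSums E k, |n| ≤ (R : ℤ) → F n = a n := by
  obtain ⟨a, b, h1, h2, h3⟩ := class_rho hE c R ε hε
  choose F hF1 hF2 using fun r => h3 (ρ r) (hρ r).1 (hρ r).2
  refine ⟨fun n => if b n = 1 then a n else 0, fun n => ∑ r, (co r : ℂ) * F r n, ?_, ?_, ?_, ?_⟩
  · have h4 := TP.sum Finset.univ (fun r : Fin (k + 1) => ‖(co r : ℂ)‖ * 1)
      (fun r n => (co r : ℂ) * F r n) fun r _ => TP.smul (co r : ℂ) (hF1 r)
    refine TP.mono h4 (le_of_eq ?_)
    refine Finset.sum_congr rfl fun r _ => ?_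
    rw [mul_one, Complex.norm_real, Real.norm_eq_abs]
  · intro l hl
    obtain ⟨h4, h5, h6, h7⟩ := h1 l hl
    exact ⟨by simp only [h4, if_true]; exact h5, by simp only [h6, if_true]; exact h7⟩
  · intro n hn hn1 hn2
    show (if b n = 1 then a n else 0) = 0
    split
    · rename_i hb
      by_contra ha
      rcases (h2 n hn).2 hb ha with h | h
      · exact hn1 h
      · exact hn2 h
    · rfl
  · intro n hn hnR
    show ∑ r, (co r : ℂ) * F r n = if b n = 1 then a n else 0
    rw [Finset.sum_congr rfl fun r _ => by rw [hF2 r n hn hnR, ← mul_assoc], ← Finset.sum_mul]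
    have h4 := hco (b n) (h2 n hn).1
    have h5 : ∑ r, (co r : ℂ) * (ρ r : ℂ) ^ b n = ((if b n = 1 then 1 else 0 : ℝ) : ℂ) := by
      rw [← h4]
      push_cast
      rfl
    rw [h5]
    split <;> simp

theorem class_interp (k : ℕ) : ∃ C₁ : ℝ, 0 ≤ C₁ ∧ ∀ E : Set ℤ, Dissociate E →
    ∀ (c : Cls E k) (ε : ℤ → ℂ), (∀ l, ‖ε l‖ ≤ 1) → ∀ R : ℕ,
      ∃ F : ℤ → ℂ, TP C₁ F ∧ (∀ l ∈ c.C, |l| ≤ (R : ℤ) → F l = ε l) ∧
        ∀ n ∈ SignedSums E k, n ∉ c.C → |n| ≤ (R : ℤ) → F n = 0 := by
  classical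
  obtain ⟨co, ρ, hρ, hco⟩ := exists_coeffs k
  refine ⟨2 ^ k * ∑ r, |co r|, by positivity, ?_⟩
  intro E hE c ε hε R
  -- the rescaled targets
  set ε' : ℤ → ℂ := fun l => if l ∈ c.C then ε l * (2 ^ (c.G l).card / 2 ^ k) else 0 with hε'
  have hn1 : ∀ l, ‖ε' l‖ ≤ 1 := by
    intro l
    simp only [hε']
    split
    · rename_i hl
      rw [norm_mul, norm_div, norm_pow, norm_pow, Complex.norm_ofNat]
      have h1 : (2 : ℝ) ^ (c.G l).card / 2 ^ k ≤ 1 := by
        rw [div_le_one (by positivity)]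
        exact pow_le_pow_right₀ (by norm_num) (c.hk l hl)
      exact mul_le_one₀ (hε l) (by positivity) h1
    · simp
  have hn2 : ∀ l, ‖Complex.I * ε' l‖ ≤ 1 := by
    intro l
    rw [norm_mul, Complex.norm_I, one_mul]
    exact hn1 l
  obtain ⟨a, F, h1, h2, h3, h4⟩ := ClassInterp_one co ρ hρ hco hE c R ε' hn1
  obtain ⟨a', F', h1', h2', h3', h4'⟩ :=
    ClassInterp_one co ρ hρ hco hE c R (fun l => Complex.I * ε' l) hn2
  refine ⟨fun n => ((2 : ℂ) ^ k / 2) * (F n + (-Complex.I) * F' n), ?_, ?_, ?_⟩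
  · have h5 := TP.smul ((2 : ℂ) ^ k / 2) (TP.add h1 (TP.smul (-Complex.I) h1'))
    refine TP.mono h5 (le_of_eq ?_)
    rw [norm_div, norm_pow, Complex.norm_ofNat, norm_neg, Complex.norm_I]
    ring
  · intro l hl hlR
    have hls : l ∈ SignedSums E k := ⟨c.G l, c.s l, (Finset.coe_subset.2 (c.hG l hl)).trans c.hV,
      c.hk l hl, c.hs l hl, c.hl l hl⟩
    show ((2 : ℂ) ^ k / 2) * (F l + (-Complex.I) * F' l) = ε l
    rw [h4 l hls hlR, h4' l hls hlR, (h2 l hl).1, (h2' l hl).1]
    simp only [hε', if_pos hl]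
    have e1 : (-Complex.I) * (Complex.I * (ε l * (2 ^ (c.G l).card / 2 ^ k)) /
        2 ^ (c.G l).card) = ε l * (2 ^ (c.G l).card / 2 ^ k) / 2 ^ (c.G l).card := by
      have := Complex.I_mul_I
      linear_combination (-(ε l * (2 ^ (c.G l).card / 2 ^ k)) / 2 ^ (c.G l).card) * this
    rw [e1]
    field_simp
    ring
  · intro n hn hnC hnR
    show ((2 : ℂ) ^ k / 2) * (F n + (-Complex.I) * F' n) = 0
    rw [h4 n hn hnR, h4' n hn hnR]
    by_cases hneg : -n ∈ c.C
    · have h5 := (h2 (-n) hneg).2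
      have h5' := (h2' (-n) hneg).2
      rw [neg_neg] at h5 h5'
      rw [h5, h5', map_mul, Complex.conj_I]
      have := Complex.I_mul_I
      linear_combination ((2 : ℂ) ^ k / 2 *
        ((starRingEnd ℂ) (ε' (-n)) / 2 ^ (c.G (-n)).card)) * this
    · rw [h3 n hn hnC hneg, h3' n hn hnC hneg]
      ring

end Pool.Agent.Lib.MP_6d8312_an.Q
end
end

section

/-! # Coloring a digraph of small degree -/

set_option autoImplicit false

noncomputable section

namespace Pool.Agent.Lib.MP_6d8312_an.Q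

theorem exists_coloring {α : Type} [DecidableEq α] (r : α → α → Prop) [DecidableRel r] (D : ℕ)
    (A : Finset α) (h : ∀ y ∈ A, (A.filter (fun x => r x y)).card ≤ D) :
    ∃ col : α → Fin (2 * D + 1), ∀ x ∈ A, ∀ y ∈ A, x ≠ y → r x y → col x ≠ col y := by
  induction A using Finset.strongInduction with
  | H A ih =>
    rcases A.eq_empty_or_nonempty with rfl | hne
    · exact ⟨fun _ => 0, by simp⟩
    · have hsum : ∑ x ∈ A, ((A.filter (fun y => r y x)).card + (A.filter (fun y => r x y)).card) ≤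
          ∑ _x ∈ A, 2 * D := by
        have h1 : ∑ x ∈ A, (A.filter (fun y => r x y)).card =
            ∑ x ∈ A, (A.filter (fun y => r y x)).card := by
          simp_rw [Finset.card_filter]
          rw [Finset.sum_comm]
        rw [Finset.sum_add_distrib, h1, ← two_mul, Finset.mul_sum]
        exact Finset.sum_le_sum fun x hx => Nat.mul_le_mul_left 2 (h x hx)
      obtain ⟨x, hx, hdeg⟩ := Finset.exists_le_of_sum_le hne hsum
      obtain ⟨col, hcol⟩ := ih (A.erase x) (Finset.erase_ssubset hx) (by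
        intro y hy
        refine le_trans (Finset.card_le_card ?_) (h y (Finset.mem_of_mem_erase hy))
        exact Finset.filter_subset_filter _ (Finset.erase_subset _ _))
      set N : Finset (Fin (2 * D + 1)) :=
        ((A.filter (fun y => r y x)) ∪ (A.filter (fun y => r x y))).image col with hN
      have hNc : N.card < 2 * D + 1 := by
        have h1 : N.card ≤ ((A.filter (fun y => r y x)) ∪ (A.filter (fun y => r x y))).card :=
          Finset.card_image_le
        have h2 := Finset.card_union_le (A.filter (fun y => r y x)) (A.filter (fun y => r x y))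
        omega
      have hex : ∃ c : Fin (2 * D + 1), c ∉ N := by
        by_contra hcon
        push Not at hcon
        have h1 : N = Finset.univ := Finset.eq_univ_iff_forall.2 hcon
        rw [h1, Finset.card_univ, Fintype.card_fin] at hNc
        exact lt_irrefl _ hNc
      obtain ⟨c, hc⟩ := hex
      have hc' : ∀ y ∈ A, (r y x ∨ r x y) → col y ≠ c := by
        intro y hy hr heq
        refine hc ?_
        rw [hN, Finset.mem_image]
        refine ⟨y, ?_, heq⟩
        rw [Finset.mem_union, Finset.mem_filter, Finset.mem_filter]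
        rcases hr with hr | hr
        · exact Or.inl ⟨hy, hr⟩
        · exact Or.inr ⟨hy, hr⟩
      refine ⟨Function.update col x c, ?_⟩
      intro y hy z hz hyz hr
      by_cases hyx : y = x
      · subst hyx
        have hzy : z ≠ y := hyz.symm
        rw [Function.update_self, Function.update_of_ne hzy]
        exact (hc' z hz (Or.inr hr)).symm
      · by_cases hzx : z = x
        · subst hzx
          rw [Function.update_self, Function.update_of_ne hyx]
          exact hc' y hy (Or.inl hr)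
        · rw [Function.update_of_ne hyx, Function.update_of_ne hzx]
          exact hcol y (Finset.mem_erase.2 ⟨hyx, hy⟩) z (Finset.mem_erase.2 ⟨hzx, hz⟩) hyz hr

end Pool.Agent.Lib.MP_6d8312_an.Q
end
end

section

/-! # Interpolation on finite sets -/

set_option autoImplicit false

noncomputable section

namespace Pool.Agent.Lib.MP_6d8312_an.Q

/-- Interpolation on finite subsets of `Λ` without `0`, with value zero on the rest of `Λ`. -/
def Interp (Λ : Set ℤ) (C' : ℝ) : Prop :=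
  ∀ A : Finset ℤ, (∀ l ∈ A, l ∈ Λ ∧ l ≠ 0) → ∀ ε : ℤ → ℂ, (∀ l, ‖ε l‖ ≤ 1) → ∀ R : ℕ,
    ∃ F : ℤ → ℂ, TP C' F ∧ (∀ l ∈ A, |l| ≤ (R : ℤ) → F l = ε l) ∧
      ∀ n ∈ Λ, n ∉ A → |n| ≤ (R : ℤ) → F n = 0

theorem finite_interp {E : Set ℤ} (hE : Dissociate E) (k C : ℕ) (Λ : Set ℤ)
    (hΛ : Λ ⊆ SignedSums E k)
    (h : ∀ F : Finset ℤ, (F : Set ℤ) ⊆ E → (Part Λ F k).ncard ≤ C * F.card) :
    ∃ C' : ℝ, Interp Λ C' := by
  classical
  obtain ⟨C₁, hC₁, hint⟩ := class_interp k
  obtain ⟨G, s, o, hG, ho⟩ := exists_owner hE k C Λ hΛ h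
  refine ⟨(2 * (k * C) + 1) * C₁, ?_⟩
  intro A hA ε hε R
  obtain ⟨col, hcol⟩ := exists_coloring (fun x y => o x ∈ G y) (k * C) A (by
    intro y hy
    have h1 : A.filter (fun x => o x ∈ G y) ⊆
        (G y).biUnion (fun v => A.filter (fun x => o x = v)) := by
      intro x hx
      rw [Finset.mem_filter] at hx
      rw [Finset.mem_biUnion]
      exact ⟨o x, hx.2, Finset.mem_filter.2 ⟨hx.1, rfl⟩⟩
    calc (A.filter (fun x => o x ∈ G y)).card
        ≤ ((G y).biUnion (fun v => A.filter (fun x => o x = v))).card := Finset.card_le_card h1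
      _ ≤ (G y).card * C := Finset.card_biUnion_le_card_mul _ _ _ fun v _ => ho A hA v
      _ ≤ k * C := Nat.mul_le_mul_right _ (hG y (hA y hy).1 (hA y hy).2).2.1)
  -- the classes
  have hVE : ((A.biUnion G : Finset ℤ) : Set ℤ) ⊆ E := by
    intro x hx
    obtain ⟨l, hl, hx⟩ := Finset.mem_biUnion.1 (Finset.mem_coe.1 hx)
    exact (hG l (hA l hl).1 (hA l hl).2).1 hx
  let c : Fin (2 * (k * C) + 1) → Cls E k := fun i =>
    { C := A.filter (fun l => col l = i)
      V := A.biUnion G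
      G := G
      s := s
      o := o
      hV := hVE
      hG := fun l hl => Finset.subset_biUnion_of_mem G (Finset.mem_filter.1 hl).1
      hk := fun l hl => by
        have h1 := hA l (Finset.mem_filter.1 hl).1
        exact (hG l h1.1 h1.2).2.1
      hs := fun l hl => by
        have h1 := hA l (Finset.mem_filter.1 hl).1
        exact (hG l h1.1 h1.2).2.2.1
      hl := fun l hl => by
        have h1 := hA l (Finset.mem_filter.1 hl).1
        exact (hG l h1.1 h1.2).2.2.2.1
      ho := fun l hl => by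
        have h1 := hA l (Finset.mem_filter.1 hl).1
        exact (hG l h1.1 h1.2).2.2.2.2
      hd := fun l hl l' hl' hne hmem => by
        rw [Finset.mem_filter] at hl hl'
        exact hcol l hl.1 l' hl'.1 hne hmem (hl.2.trans hl'.2.symm) }
  choose F hF1 hF2 hF3 using fun i => hint E hE (c i) ε hε R
  refine ⟨fun n => ∑ i, F i n, ?_, ?_, ?_⟩
  · refine TP.mono (TP.sum Finset.univ (fun _ : Fin (2 * (k * C) + 1) => C₁) F
      fun i _ => hF1 i) ?_
    rw [Finset.sum_const, Finset.card_univ, Fintype.card_fin, nsmul_eq_mul]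
    push_cast
    exact le_rfl
  · intro l hl hlR
    show ∑ i, F i l = ε l
    rw [Finset.sum_eq_single (col l)]
    · exact hF2 (col l) l (Finset.mem_filter.2 ⟨hl, rfl⟩) hlR
    · intro i _ hi
      refine hF3 i l (hΛ (hA l hl).1) ?_ hlR
      intro hmem
      exact hi (Finset.mem_filter.1 hmem).2.symm
    · intro h1
      exact absurd (Finset.mem_univ _) h1
  · intro n hn hnA hnR
    show ∑ i, F i n = 0
    refine Finset.sum_eq_zero fun i _ => hF3 i n (hΛ hn) ?_ hnR
    intro hmem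
    exact hnA (Finset.mem_filter.1 hmem).1

end Pool.Agent.Lib.MP_6d8312_an.Q
end
end

section

/-! # Passing to `F (b sin x)` -/

set_option autoImplicit false

noncomputable section

namespace Pool.Agent.Lib.MP_6d8312_an

open Filter Topology

/-- Boundedness of `F (b sin (x + U))`. -/
def SinBdd (Λ : Set ℤ) (F : ℝ → ℝ) (R : ℕ) (s b C : ℝ) : Prop :=
  ∀ A : Finset ℤ, (∀ n ∈ A, n ∈ Λ ∧ (R : ℤ) < |n|) → ∀ U : ℤ → ℝ, RTP s U →
    ∀ w : ℤ → ℂ, (∀ θ : ℝ, ‖W A w θ‖ ≤ 1) → ∀ x : ℝ,
      ‖∑ l ∈ A, w l * ((F (b * Real.sin (x + U l)) : ℝ) : ℂ)‖ ≤ C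

theorem bdd_limit {Λ : Set ℤ} {F : ℝ → ℝ} {R : ℕ} {r C : ℝ} (hB : Bdd Λ F R r C)
    (A : Finset ℤ) (hA : ∀ n ∈ A, n ∈ Λ ∧ (R : ℤ) < |n|) (f : ℤ → ℝ) (U : ℕ → ℤ → ℝ)
    (hU : ∀ k, RTP r (U k)) (hlim : ∀ n ∈ A, Tendsto (fun k => U k n) atTop (𝓝 (f n)))
    (hc : ∀ n ∈ A, ContinuousAt F (f n)) (w : ℤ → ℂ) (hw : ∀ θ : ℝ, ‖W A w θ‖ ≤ 1) :
    ‖∑ l ∈ A, w l * ((F (f l) : ℝ) : ℂ)‖ ≤ C := by
  have h1 : Tendsto (fun k => ‖∑ l ∈ A, w l * ((F (U k l) : ℝ) : ℂ)‖) atTop
      (𝓝 ‖∑ l ∈ A, w l * ((F (f l) : ℝ) : ℂ)‖) := by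
    apply Tendsto.norm
    apply tendsto_finsetSum
    intro l hl
    apply Tendsto.const_mul
    exact (Complex.continuous_ofReal.tendsto _).comp ((hc l hl).tendsto.comp (hlim l hl))
  exact le_of_tendsto' h1 fun k => hB A hA (U k) (hU k) w hw

theorem sin_limit {s : ℝ} {U : ℤ → ℝ} (hU : RTP s U) (b x : ℝ) (hb : 0 ≤ b) :
    ∃ V : ℕ → ℤ → ℝ, (∀ k, RTP (b * Real.exp s) (V k)) ∧
      ∀ n, Tendsto (fun k => V k n) atTop (𝓝 (b * Real.sin (x + U n))) := by
  have hs : 0 ≤ s := TP.nonneg hU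
  set c : ℂ := b * Complex.exp (x * Complex.I) with hc
  have hcn : ‖c‖ = b := by
    rw [hc, norm_mul, Complex.norm_exp_ofReal_mul_I, mul_one, Complex.norm_real,
      Real.norm_of_nonneg hb]
  refine ⟨fun k n => (c * ∑ j ∈ Finset.range k, (1 / (j.factorial : ℂ)) *
    (Complex.I * (U n : ℂ)) ^ j).im, fun k => ?_, fun n => ?_⟩
  · apply RTP.im
    have h1 : ∀ j ∈ Finset.range k, TP (s ^ j / j.factorial)
        (fun n => (1 / (j.factorial : ℂ)) * (Complex.I * (U n : ℂ)) ^ j) := by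
      intro j _
      have h2 := TP.smul (1 / (j.factorial : ℂ)) (TP.pow (TP.smul Complex.I hU) j)
      apply TP.mono h2
      rw [Complex.norm_I, one_mul, norm_div, norm_one, Complex.norm_natCast]
      apply le_of_eq
      ring
    have h2 := TP.smul c (TP.sum (Finset.range k) (fun j => s ^ j / j.factorial) _ h1)
    apply TP.mono h2
    rw [hcn]
    exact mul_le_mul_of_nonneg_left (Real.sum_le_exp_of_nonneg hs k) hb
  · have h1 : HasSum (fun j : ℕ => (Complex.I * (U n : ℂ)) ^ j / (j.factorial : ℂ))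
        (Complex.exp (Complex.I * (U n : ℂ))) := by
      rw [Complex.exp_eq_exp_ℂ]
      exact NormedSpace.expSeries_div_hasSum_exp _
    have h2 := h1.tendsto_sum_nat
    have h3 : Tendsto (fun k => (c * ∑ j ∈ Finset.range k, (1 / (j.factorial : ℂ)) *
        (Complex.I * (U n : ℂ)) ^ j).im) atTop
        (𝓝 (c * Complex.exp (Complex.I * (U n : ℂ))).im) := by
      apply (Complex.continuous_im.tendsto _).comp
      apply Tendsto.const_mul
      refine h2.congr fun k => ?_
      apply Finset.sum_congr rfl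
      intro j _
      ring
    have h4 : (c * Complex.exp (Complex.I * (U n : ℂ))).im = b * Real.sin (x + U n) := by
      have h5 : c * Complex.exp (Complex.I * (U n : ℂ)) =
          (b : ℂ) * Complex.exp (((x + U n : ℝ) : ℂ) * Complex.I) := by
        rw [hc, mul_assoc, ← Complex.exp_add]
        congr 2
        push_cast
        ring
      rw [h5, Complex.im_ofReal_mul, Complex.exp_ofReal_mul_I_im]
    rw [h4] at h3
    exact h3

theorem sinBdd_of_bdd {Λ : Set ℤ} {F : ℝ → ℝ} {R : ℕ} {r C s b : ℝ} (hB : Bdd Λ F R r C)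
    (hF : ∀ x : ℝ, |x| < r → ContinuousAt F x) (hb : 0 ≤ b) (hbr : b < r)
    (hbs : b * Real.exp s ≤ r) : SinBdd Λ F R s b C := by
  intro A hA U hU w hw x
  obtain ⟨V, hV, hlim⟩ := sin_limit hU b x hb
  refine bdd_limit hB A hA (fun l => b * Real.sin (x + U l)) V (fun k => RTP.mono (hV k) hbs)
    (fun n _ => hlim n) (fun n _ => hF _ ?_) w hw
  calc |b * Real.sin (x + U n)| = b * |Real.sin (x + U n)| := by
        rw [abs_mul, abs_of_nonneg hb]
    _ ≤ b * 1 := mul_le_mul_of_nonneg_left (Real.abs_sin_le_one _) hb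
    _ < r := by rw [mul_one]; exact hbr

end Pool.Agent.Lib.MP_6d8312_an
end
end

section

/-! # Decay of the Fourier coefficients of `F (b sin x)` -/

set_option autoImplicit false

noncomputable section

namespace Pool.Agent.Lib.MP_6d8312_an

open MeasureTheory

/-- Fourier coefficients of `F (b sin x)`. -/
def cf (F : ℝ → ℝ) (b : ℝ) (m : ℤ) : ℂ :=
  (1 / (2 * Real.pi) : ℝ) * ∫ x in (0 : ℝ)..(2 * Real.pi),
    ((F (b * Real.sin x) : ℝ) : ℂ) * Complex.exp (-(m * x) * Complex.I)

theorem cf_bound {A : Finset ℤ} {w : ℤ → ℂ} {F : ℝ → ℝ} {b C : ℝ} {U : ℤ → ℝ}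
    (hc : Continuous (fun x : ℝ => F (b * Real.sin x)))
    (h : ∀ x : ℝ, ‖∑ l ∈ A, w l * ((F (b * Real.sin (x + U l)) : ℝ) : ℂ)‖ ≤ C) (m : ℤ) :
    ‖cf F b m‖ * ‖∑ l ∈ A, w l * Complex.exp (m * U l * Complex.I)‖ ≤ C := by
  have hpi : (0 : ℝ) < 2 * Real.pi := by positivity
  set G : ℝ → ℂ := fun x => ((F (b * Real.sin x) : ℝ) : ℂ) * Complex.exp (-(m * x) * Complex.I)
    with hG
  have hGc : Continuous G := by
    rw [hG]
    refine (Complex.continuous_ofReal.comp hc).mul ?_
    exact Complex.continuous_exp.comp (by fun_prop)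
  have hGp : Function.Periodic G (2 * Real.pi) := by
    intro x
    simp only [hG, Real.sin_add_two_pi]
    congr 1
    have : -((m : ℂ) * ((x + 2 * Real.pi : ℝ) : ℂ)) * Complex.I
        = -((m : ℂ) * (x : ℂ)) * Complex.I + ((-m : ℤ) : ℂ) * (2 * Real.pi * Complex.I) := by
      push_cast; ring
    rw [this, Complex.exp_add, Complex.exp_int_mul_two_pi_mul_I, mul_one]
  have key : ∀ l, ∫ x in (0 : ℝ)..(2 * Real.pi), G (x + U l) = ∫ x in (0 : ℝ)..(2 * Real.pi), G x := by
    intro l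
    rw [intervalIntegral.integral_comp_add_right]
    have := hGp.intervalIntegral_add_eq (0 + U l) 0
    rw [zero_add] at this
    rw [zero_add, add_comm (2 * Real.pi) (U l), this, zero_add]
  have e1 : (∫ x in (0 : ℝ)..(2 * Real.pi), (∑ l ∈ A, w l * ((F (b * Real.sin (x + U l)) : ℝ) : ℂ)) *
      Complex.exp (-(m * x) * Complex.I))
      = (∫ x in (0 : ℝ)..(2 * Real.pi), G x) *
        ∑ l ∈ A, w l * Complex.exp (m * U l * Complex.I) := by
    have e2 : (fun x : ℝ => (∑ l ∈ A, w l * ((F (b * Real.sin (x + U l)) : ℝ) : ℂ)) *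
      Complex.exp (-(m * x) * Complex.I))
      = fun x : ℝ => ∑ l ∈ A, (w l * Complex.exp (m * U l * Complex.I)) * G (x + U l) := by
      funext x
      rw [Finset.sum_mul]
      refine Finset.sum_congr rfl fun l _ => ?_
      simp only [hG]
      have : Complex.exp (-((m : ℂ) * (x : ℂ)) * Complex.I)
          = Complex.exp (m * U l * Complex.I) *
            Complex.exp (-((m : ℂ) * ((x + U l : ℝ) : ℂ)) * Complex.I) := by
        rw [← Complex.exp_add]
        congr 1
        push_cast; ring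
      rw [this]; ring
    rw [e2, intervalIntegral.integral_finsetSum]
    · rw [Finset.mul_sum]
      refine Finset.sum_congr rfl fun l _ => ?_
      rw [intervalIntegral.integral_const_mul, key l]; ring
    · intro l _
      exact (Continuous.intervalIntegrable
        (continuous_const.mul (hGc.comp (continuous_id.add continuous_const))) _ _)
  have hb : ‖∫ x in (0 : ℝ)..(2 * Real.pi), (∑ l ∈ A, w l * ((F (b * Real.sin (x + U l)) : ℝ) : ℂ)) *
      Complex.exp (-(m * x) * Complex.I)‖ ≤ C * |2 * Real.pi - 0| := by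
    refine intervalIntegral.norm_integral_le_of_norm_le_const fun x _ => ?_
    rw [norm_mul]
    have h1 : ‖Complex.exp (-((m : ℂ) * (x : ℂ)) * Complex.I)‖ = 1 := by
      have : -((m : ℂ) * (x : ℂ)) * Complex.I = ((-(m * x) : ℝ) : ℂ) * Complex.I := by
        push_cast; ring
      rw [this, Complex.norm_exp_ofReal_mul_I]
    rw [h1, mul_one]
    exact h x
  rw [sub_zero, abs_of_pos hpi, e1, norm_mul] at hb
  have hcf : ‖cf F b m‖ = (1 / (2 * Real.pi)) * ‖∫ x in (0 : ℝ)..(2 * Real.pi), G x‖ := by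
    unfold cf
    rw [norm_mul, Complex.norm_real, Real.norm_of_nonneg (by positivity)]
  rw [hcf, mul_assoc]
  calc 1 / (2 * Real.pi) * (‖∫ x in (0 : ℝ)..(2 * Real.pi), G x‖ *
        ‖∑ l ∈ A, w l * Complex.exp (m * U l * Complex.I)‖)
      ≤ 1 / (2 * Real.pi) * (C * (2 * Real.pi)) := by gcongr
    _ = C := by field_simp

theorem mult_iter (A : Finset ℤ) (f : ℤ → ℂ) (B : ℝ) (hB : 0 ≤ B)
    (h : ∀ w : ℤ → ℂ, (∀ θ : ℝ, ‖W A w θ‖ ≤ 1) → ‖∑ l ∈ A, w l * f l‖ ≤ B) (M : ℕ) :
    ∀ w : ℤ → ℂ, (∀ θ : ℝ, ‖W A w θ‖ ≤ 1) → ‖∑ l ∈ A, w l * f l ^ M‖ ≤ B ^ M := by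
  -- homogeneous version of the hypothesis
  have hom : ∀ (D : ℝ), 0 ≤ D → ∀ w : ℤ → ℂ, (∀ θ : ℝ, ‖W A w θ‖ ≤ D) →
      ‖∑ l ∈ A, w l * f l‖ ≤ D * B := by
    intro D hD w hw
    rcases hD.eq_or_lt with hD0 | hD0
    · subst hD0
      -- all scalar multiples are admissible
      rw [zero_mul]
      by_contra hne
      push Not at hne
      obtain ⟨n, hn⟩ := exists_nat_gt (B / ‖∑ l ∈ A, w l * f l‖)
      have := h (fun l => (n : ℂ) * w l) (fun θ => by
        have : W A (fun l => (n : ℂ) * w l) θ = n * W A w θ := by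
          unfold W; rw [Finset.mul_sum]; exact Finset.sum_congr rfl fun l _ => by ring
        rw [this, norm_mul, le_antisymm (hw θ) (norm_nonneg _), mul_zero]
        exact zero_le_one)
      have e : ∑ l ∈ A, (n : ℂ) * w l * f l = n * ∑ l ∈ A, w l * f l := by
        rw [Finset.mul_sum]; exact Finset.sum_congr rfl fun l _ => by ring
      rw [e, norm_mul, Complex.norm_natCast] at this
      rw [div_lt_iff₀ hne] at hn
      linarith
    · have := h (fun l => ((1 / D : ℝ) : ℂ) * w l) (fun θ => by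
        have : W A (fun l => ((1 / D : ℝ) : ℂ) * w l) θ = ((1 / D : ℝ) : ℂ) * W A w θ := by
          unfold W; rw [Finset.mul_sum]; exact Finset.sum_congr rfl fun l _ => by ring
        rw [this, norm_mul, Complex.norm_real, Real.norm_of_nonneg (by positivity)]
        calc 1 / D * ‖W A w θ‖ ≤ 1 / D * D := by gcongr; exact hw θ
          _ = 1 := by field_simp)
      have e : ∑ l ∈ A, ((1 / D : ℝ) : ℂ) * w l * f l = ((1 / D : ℝ) : ℂ) * ∑ l ∈ A, w l * f l := by
        rw [Finset.mul_sum]; exact Finset.sum_congr rfl fun l _ => by ring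
      rw [e, norm_mul, Complex.norm_real, Real.norm_of_nonneg (by positivity)] at this
      calc ‖∑ l ∈ A, w l * f l‖ = D * (1 / D * ‖∑ l ∈ A, w l * f l‖) := by field_simp
        _ ≤ D * B := by gcongr
  have shift : ∀ (w : ℤ → ℂ) (θ θ' : ℝ), W A (fun l => w l * e (l * θ)) θ' = W A w (θ + θ') := by
    intro w θ θ'
    unfold W
    refine Finset.sum_congr rfl fun l _ => ?_
    rw [mul_add, e_add]; ring
  have main : ∀ M : ℕ, ∀ w : ℤ → ℂ, (∀ θ : ℝ, ‖W A w θ‖ ≤ 1) →
      ∀ θ : ℝ, ‖W A (fun l => w l * f l ^ M) θ‖ ≤ B ^ M := by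
    intro M
    induction M with
    | zero =>
      intro w hw θ
      simpa using hw θ
    | succ M ih =>
      intro w hw θ
      have h1 := hom (B ^ M) (pow_nonneg hB M) (fun l => (w l * e (l * θ)) * f l ^ M)
        (fun θ' => ih (fun l => w l * e (l * θ)) (fun θ'' => by rw [shift]; exact hw _) θ')
      have e2 : W A (fun l => w l * f l ^ (M + 1)) θ
          = ∑ l ∈ A, w l * e (l * θ) * f l ^ M * f l := by
        unfold W
        exact Finset.sum_congr rfl fun l _ => by ring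
      rw [e2, pow_succ]
      exact h1
  intro w hw
  have := main M w hw 0
  unfold W at this
  simpa [e_zero] using this

end Pool.Agent.Lib.MP_6d8312_an
end
end

section

/-! # Exponential decay of Fourier coefficients and analyticity -/

set_option autoImplicit false

noncomputable section

namespace Pool.Agent.Lib.MP_6d8312_an

open MeasureTheory

theorem anal_summable_exp (C c : ℝ) (hc : 0 < c) :
    Summable (fun m : ℤ => C * Real.exp (-c * |(m : ℝ)|)) := by
  apply Summable.mul_left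
  have h : Summable (fun n : ℕ => Real.exp (-c * (n : ℝ))) := by
    have h1 : Summable (fun n : ℕ => (Real.exp (-c)) ^ n) :=
      summable_geometric_of_lt_one (Real.exp_pos _).le (by
        rw [← Real.exp_zero]; exact Real.exp_lt_exp.2 (by linarith))
    refine h1.congr fun n => ?_
    rw [← Real.exp_nat_mul]
    congr 1
    ring
  refine Summable.of_nat_of_neg ?_ ?_
  · simpa using h
  · simpa using h

theorem analyticAt_of_cf_decay (F : ℝ → ℝ) (b : ℝ) (hb : 0 < b)
    (hc : Continuous (fun x : ℝ => F (b * Real.sin x))) (C c : ℝ) (hcpos : 0 < c)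
    (h : ∀ m : ℤ, ‖cf F b m‖ ≤ C * Real.exp (-c * |(m : ℝ)|)) : AnalyticAt ℝ F 0 := by
  have : Fact (0 < 2 * Real.pi) := ⟨by positivity⟩
  -- the function on the circle
  have hper : Function.Periodic (fun x : ℝ => ((F (b * Real.sin x) : ℝ) : ℂ)) (2 * Real.pi) := by
    intro x
    simp only [Real.sin_add_two_pi]
  let G : AddCircle (2 * Real.pi) → ℂ := hper.lift
  have hGx : ∀ x : ℝ, G (x : AddCircle (2 * Real.pi)) = ((F (b * Real.sin x) : ℝ) : ℂ) :=
    fun x => rfl
  have hGc : Continuous G := by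
    refine continuous_coinduced_dom.2 ?_
    exact Complex.continuous_ofReal.comp hc
  let g : C(AddCircle (2 * Real.pi), ℂ) := ⟨G, hGc⟩
  have hcoef : ∀ m : ℤ, fourierCoeff g m = cf F b m := by
    intro m
    rw [fourierCoeff_eq_intervalIntegral _ _ 0, cf, zero_add]
    rw [Complex.real_smul]
    congr 1
    refine intervalIntegral.integral_congr fun x _ => ?_
    show (fourier (-m) (x : AddCircle (2 * Real.pi))) • G (x : AddCircle (2 * Real.pi)) = _
    rw [fourier_coe_apply, hGx, smul_eq_mul, mul_comm]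
    congr 2
    push_cast
    field_simp
  have hsum : Summable (fourierCoeff g) := by
    refine Summable.of_norm_bounded (anal_summable_exp C c hcpos) fun m => ?_
    rw [hcoef]
    exact h m
  have hpt : ∀ x : ℝ, HasSum (fun m : ℤ => cf F b m * Complex.exp (m * x * Complex.I))
      ((F (b * Real.sin x) : ℝ) : ℂ) := by
    intro x
    have h1 := has_pointwise_sum_fourier_series_of_summable hsum (x : AddCircle (2 * Real.pi))
    have h2 : g (x : AddCircle (2 * Real.pi)) = ((F (b * Real.sin x) : ℝ) : ℂ) := hGx x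
    rw [h2] at h1
    convert h1 using 1
    funext m
    rw [hcoef, fourier_coe_apply, smul_eq_mul]
    congr 2
    push_cast
    field_simp
  -- the holomorphic extension
  let H : ℂ → ℂ := fun z => ∑' m : ℤ, cf F b m * Complex.exp (m * z * Complex.I)
  have hHx : ∀ x : ℝ, H (x : ℂ) = ((F (b * Real.sin x) : ℝ) : ℂ) := fun x => (hpt x).tsum_eq
  let U : Set ℂ := {z | |z.im| < c / 2}
  have hU : IsOpen U := isOpen_lt (continuous_abs.comp Complex.continuous_im) continuous_const
  have h0U : (0 : ℂ) ∈ U := by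
    show |(0 : ℂ).im| < c / 2
    simp; exact hcpos
  have hH : DifferentiableOn ℂ H U := by
    refine Complex.differentiableOn_tsum_of_summable_norm
      (anal_summable_exp C (c / 2) (half_pos hcpos)) ?_ hU ?_
    · intro m
      refine (DifferentiableOn.const_mul ?_ _)
      fun_prop
    · intro m z hz
      have hz' : |z.im| < c / 2 := hz
      rw [norm_mul, Complex.norm_exp]
      have h3 : ((m : ℂ) * z * Complex.I).re = - (m : ℝ) * z.im := by
        simp [Complex.mul_re, Complex.mul_im]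
      rw [h3]
      have h4 : - (m : ℝ) * z.im ≤ |(m : ℝ)| * (c / 2) := by
        calc - (m : ℝ) * z.im ≤ |- (m : ℝ) * z.im| := le_abs_self _
          _ = |(m : ℝ)| * |z.im| := by rw [abs_mul, abs_neg]
          _ ≤ _ := mul_le_mul_of_nonneg_left hz'.le (abs_nonneg _)
      have h5 : Real.exp (-(m : ℝ) * z.im) ≤ Real.exp (|(m : ℝ)| * (c / 2)) :=
        Real.exp_le_exp.2 h4
      have hC : 0 ≤ C * Real.exp (-c * |(m : ℝ)|) := (norm_nonneg _).trans (h m)
      calc ‖cf F b m‖ * Real.exp (-(m : ℝ) * z.im)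
          ≤ (C * Real.exp (-c * |(m : ℝ)|)) * Real.exp (|(m : ℝ)| * (c / 2)) :=
            mul_le_mul (h m) h5 (Real.exp_pos _).le hC
        _ = C * Real.exp (-(c / 2) * |(m : ℝ)|) := by
            rw [mul_assoc, ← Real.exp_add]
            congr 2
            ring
  have hHan : AnalyticAt ℂ H 0 := hH.analyticAt (hU.mem_nhds h0U)
  -- compose with arcsin
  have has : AnalyticAt ℝ (fun y : ℝ => Real.arcsin (y / b)) 0 := by
    have h1 : AnalyticAt ℝ Real.arcsin ((0 : ℝ) / b) := by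
      rw [zero_div]
      exact (Real.contDiffAt_arcsin (by norm_num) (by norm_num)).analyticAt
    have h2 : AnalyticAt ℝ (fun y : ℝ => y / b) 0 := analyticAt_id.div_const
    exact AnalyticAt.fun_comp (g := Real.arcsin) (f := fun y : ℝ => y / b) h1 h2
  have hof : AnalyticAt ℝ (fun y : ℝ => ((Real.arcsin (y / b) : ℝ) : ℂ)) 0 :=
    AnalyticAt.fun_comp (g := Complex.ofRealCLM) (f := fun y : ℝ => Real.arcsin (y / b))
      (Complex.ofRealCLM.analyticAt _) has
  have hcomp : AnalyticAt ℝ (fun y : ℝ => H ((Real.arcsin (y / b) : ℝ) : ℂ)) 0 := by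
    have h1 : AnalyticAt ℝ H ((Real.arcsin ((0 : ℝ) / b) : ℝ) : ℂ) := by
      simp only [zero_div, Real.arcsin_zero, Complex.ofReal_zero]
      exact hHan.restrictScalars
    exact AnalyticAt.fun_comp (g := H) (f := fun y : ℝ => ((Real.arcsin (y / b) : ℝ) : ℂ)) h1 hof
  have hre : AnalyticAt ℝ (fun y : ℝ => (H ((Real.arcsin (y / b) : ℝ) : ℂ)).re) 0 :=
    AnalyticAt.fun_comp (g := Complex.reCLM)
      (f := fun y : ℝ => H ((Real.arcsin (y / b) : ℝ) : ℂ)) (Complex.reCLM.analyticAt _) hcomp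
  refine hre.congr ?_
  have hnear : ∀ᶠ y : ℝ in nhds 0, |y| < b := by
    have : Filter.Tendsto (fun y : ℝ => |y|) (nhds 0) (nhds |0|) := continuous_abs.tendsto 0
    rw [abs_zero] at this
    exact this.eventually (gt_mem_nhds hb)
  filter_upwards [hnear] with y hy
  rw [hHx, Complex.ofReal_re, Real.sin_arcsin, mul_div_cancel₀ _ hb.ne']
  · rw [le_div_iff₀ hb]
    have := (abs_lt.1 hy).1
    linarith
  · rw [div_le_iff₀ hb]
    have := (abs_lt.1 hy).2
    linarith

end Pool.Agent.Lib.MP_6d8312_an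
end
end

section

/-! # Trapezoidal kernels -/

set_option autoImplicit false

noncomputable section

namespace Pool.Agent.Lib.MP_6d8312_an

open MeasureTheory

private lemma Kernel_integrable {E : Type} [NormedAddCommGroup E] {f : UnitAddCircle → E}
    (hf : Continuous f) : Integrable f AddCircle.haarAddCircle :=
  hf.integrable_of_hasCompactSupport (HasCompactSupport.of_compactSpace f)

private lemma Kernel_int_fourier (n : ℤ) :
    ∫ t : UnitAddCircle, fourier n t ∂AddCircle.haarAddCircle = if n = 0 then 1 else 0 := by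
  have h := congrFun (fourierCoeff_fourier (T := 1) n) 0
  unfold fourierCoeff at h
  simp only [neg_zero, fourier_zero, one_smul] at h
  rw [h]
  by_cases hn : n = 0
  · subst hn; simp
  · rw [if_neg hn, Pi.single_eq_of_ne (Ne.symm hn)]

private lemma Kernel_cont (s : Finset ℤ) (a : ℤ → ℂ) :
    Continuous (fun t : UnitAddCircle => ∑ k ∈ s, a k * fourier k t) :=
  continuous_finsetSum _ fun k _ => continuous_const.mul (fourier k).continuous

private lemma Kernel_cont' (s : Finset ℤ) :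
    Continuous (fun t : UnitAddCircle => ∑ k ∈ s, fourier k t) :=
  continuous_finsetSum _ fun k _ => (fourier k).continuous

private lemma Kernel_sq (s : Finset ℤ) :
    ∫ t : UnitAddCircle, ‖∑ k ∈ s, fourier k t‖ ^ 2 ∂AddCircle.haarAddCircle = s.card := by
  have h1 : ∀ t : UnitAddCircle, ((‖∑ k ∈ s, fourier k t‖ ^ 2 : ℝ) : ℂ)
      = ∑ j ∈ s, ∑ k ∈ s, fourier (j - k) t := by
    intro t
    rw [← Complex.normSq_eq_norm_sq, ← Complex.mul_conj, map_sum, Finset.sum_mul_sum]
    refine Finset.sum_congr rfl fun j _ => Finset.sum_congr rfl fun k _ => ?_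
    rw [sub_eq_add_neg, fourier_add, fourier_neg]
  have h2 : ((∫ t : UnitAddCircle, ‖∑ k ∈ s, fourier k t‖ ^ 2 ∂AddCircle.haarAddCircle : ℝ) : ℂ)
      = s.card := by
    rw [← integral_complex_ofReal]
    simp_rw [h1]
    rw [integral_finsetSum]
    · have : ∀ j ∈ s, ∫ t : UnitAddCircle, ∑ k ∈ s, fourier (j - k) t ∂AddCircle.haarAddCircle
          = 1 := by
        intro j hj
        rw [integral_finsetSum]
        · simp_rw [Kernel_int_fourier, sub_eq_zero]
          rw [Finset.sum_ite_eq]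
          simp [hj]
        · intro k _
          exact Kernel_integrable (fourier (j - k)).continuous
      rw [Finset.sum_congr rfl this]
      simp
    · intro j _
      exact Kernel_integrable (continuous_finsetSum _ fun k _ => (fourier (j - k)).continuous)
  exact_mod_cast h2

/-- The number of representations. -/
private def Kernel_c (N : ℕ) (n : ℤ) : ℕ :=
  ((Finset.Icc (0 : ℤ) N).filter (fun j => -(2 * N : ℤ) ≤ n - j ∧ n - j ≤ N)).card

private lemma Kernel_c_le (N : ℕ) (n : ℤ) : Kernel_c N n ≤ N + 1 := by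
  unfold Kernel_c
  refine (Finset.card_filter_le _ _).trans ?_
  simp

private lemma Kernel_c_eq (N : ℕ) (n : ℤ) (h : |n| ≤ N) : Kernel_c N n = N + 1 := by
  unfold Kernel_c
  rw [Finset.filter_true_of_mem]
  · simp
  · intro j hj
    rw [Finset.mem_Icc] at hj
    rw [abs_le] at h
    constructor <;> omega

private lemma Kernel_c_zero (N : ℕ) (n : ℤ) (h : 2 * (N : ℤ) < |n|) : Kernel_c N n = 0 := by
  unfold Kernel_c
  rw [Finset.card_eq_zero, Finset.filter_eq_empty_iff]
  intro j hj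
  rw [Finset.mem_Icc] at hj
  rw [lt_abs] at h
  omega

private lemma Kernel_prod (N S : ℕ) (hS : 2 * N ≤ S) (t : UnitAddCircle) :
    (∑ j ∈ Finset.Icc (0 : ℤ) N, fourier j t) * (∑ k ∈ Finset.Icc (-(2 * N : ℤ)) N, fourier k t)
      = ∑ n ∈ Finset.Icc (-(S : ℤ)) S, (Kernel_c N n : ℂ) * fourier n t := by
  rw [Finset.sum_mul_sum]
  have h1 : ∀ j ∈ Finset.Icc (0 : ℤ) N,
      ∑ k ∈ Finset.Icc (-(2 * N : ℤ)) N, (fourier j t * fourier k t : ℂ)
        = ∑ n ∈ Finset.Icc (-(S : ℤ)) S,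
          if -(2 * N : ℤ) ≤ n - j ∧ n - j ≤ N then (fourier n t : ℂ) else 0 := by
    intro j hj
    rw [Finset.mem_Icc] at hj
    rw [← Finset.sum_filter]
    refine Finset.sum_nbij' (fun k => j + k) (fun n => n - j) ?_ ?_ ?_ ?_ ?_
    · intro k hk
      rw [Finset.mem_Icc] at hk
      rw [Finset.mem_filter, Finset.mem_Icc]
      omega
    · intro n hn
      rw [Finset.mem_filter, Finset.mem_Icc] at hn
      rw [Finset.mem_Icc]
      omega
    · intro k _; ring
    · intro n _; ring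
    · intro k _
      rw [fourier_add]
  rw [Finset.sum_congr rfl h1, Finset.sum_comm]
  refine Finset.sum_congr rfl fun n _ => ?_
  rw [← Finset.sum_filter, Finset.sum_const, nsmul_eq_mul]
  rfl

private lemma Kernel_norm (N S : ℕ) (hS : 2 * N ≤ S) :
    ∫ t : UnitAddCircle, ‖∑ n ∈ Finset.Icc (-(S : ℤ)) S,
      ((Kernel_c N n / (N + 1) : ℝ) : ℂ) * fourier n t‖ ∂AddCircle.haarAddCircle ≤ 3 := by
  have hN : (0 : ℝ) < N + 1 := by positivity
  have e1 : ∀ t : UnitAddCircle, ∑ n ∈ Finset.Icc (-(S : ℤ)) S,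
      ((Kernel_c N n / (N + 1) : ℝ) : ℂ) * fourier n t
      = ((1 / (N + 1) : ℝ) : ℂ) * ((∑ j ∈ Finset.Icc (0 : ℤ) N, fourier j t) *
        (∑ k ∈ Finset.Icc (-(2 * N : ℤ)) N, fourier k t)) := by
    intro t
    rw [Kernel_prod N S hS t, Finset.mul_sum]
    refine Finset.sum_congr rfl fun n _ => ?_
    push_cast
    ring
  have e2 : ∀ t : UnitAddCircle, ‖∑ n ∈ Finset.Icc (-(S : ℤ)) S,
      ((Kernel_c N n / (N + 1) : ℝ) : ℂ) * fourier n t‖
      ≤ (1 / (N + 1)) * (‖∑ j ∈ Finset.Icc (0 : ℤ) N, fourier j t‖ ^ 2 +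
        ‖∑ k ∈ Finset.Icc (-(2 * N : ℤ)) N, fourier k t‖ ^ 2 / 4) := by
    intro t
    rw [e1 t, norm_mul, norm_mul, Complex.norm_real, Real.norm_of_nonneg (by positivity)]
    gcongr
    nlinarith [sq_nonneg (‖∑ j ∈ Finset.Icc (0 : ℤ) N, (fourier j t : ℂ)‖ -
      ‖∑ k ∈ Finset.Icc (-(2 * N : ℤ)) N, (fourier k t : ℂ)‖ / 2)]
  have i1 : Integrable (fun t : UnitAddCircle => ‖∑ j ∈ Finset.Icc (0 : ℤ) N, fourier j t‖ ^ 2)
      AddCircle.haarAddCircle := Kernel_integrable ((Kernel_cont' _).norm.pow 2)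
  have i2 : Integrable (fun t : UnitAddCircle =>
      ‖∑ k ∈ Finset.Icc (-(2 * N : ℤ)) N, fourier k t‖ ^ 2)
      AddCircle.haarAddCircle := Kernel_integrable ((Kernel_cont' _).norm.pow 2)
  calc _ ≤ ∫ t : UnitAddCircle, (1 / ((N : ℝ) + 1)) * (‖∑ j ∈ Finset.Icc (0 : ℤ) N, fourier j t‖ ^ 2 +
        ‖∑ k ∈ Finset.Icc (-(2 * N : ℤ)) N, fourier k t‖ ^ 2 / 4) ∂AddCircle.haarAddCircle := by
        refine integral_mono (Kernel_integrable (Kernel_cont _ _).norm)
          ((i1.add (i2.div_const 4)).const_mul _) e2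
    _ = (1 / ((N : ℝ) + 1)) * ((N + 1) + (3 * N + 1) / 4) := by
        rw [integral_const_mul, integral_add i1 (i2.div_const 4), integral_div,
          Kernel_sq, Kernel_sq]
        have c1 : ((Finset.Icc (0 : ℤ) N).card : ℝ) = N + 1 := by simp
        have c2 : ((Finset.Icc (-(2 * N : ℤ)) N).card : ℝ) = 3 * N + 1 := by
          rw [Int.card_Icc]
          have : (N : ℤ) + 1 - -(2 * N : ℤ) = ((3 * N + 1 : ℕ) : ℤ) := by push_cast; ring
          rw [this, Int.toNat_natCast]
          push_cast; ring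
        rw [c1, c2]
    _ ≤ 3 := by
        rw [one_div, inv_mul_le_iff₀ hN]
        nlinarith [Nat.cast_nonneg (α := ℝ) N]

private lemma Kernel_fourier_add (n : ℤ) (x : UnitAddCircle) (t : ℝ) :
    fourier n (x + (t : UnitAddCircle)) = fourier n x * e (n * t) := by
  have h1 : fourier n (x + (t : UnitAddCircle))
      = fourier n x * fourier n (t : UnitAddCircle) := by
    rw [fourier_apply, fourier_apply, fourier_apply, smul_add, AddCircle.toCircle_add]
    push_cast
    rfl
  rw [h1, fourier_coe_apply]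
  congr 1
  unfold e
  congr 1
  push_cast
  ring

theorem kernel (R : ℕ) (A : Finset ℤ) (hA : ∀ n ∈ A, 2 * (R : ℤ) < |n|) :
    ∃ (φ : ℤ → ℝ) (R' : ℕ), (∀ n, 0 ≤ φ n ∧ φ n ≤ 1) ∧ (∀ n : ℤ, |n| ≤ R → φ n = 0) ∧
      (∀ n ∈ A, φ n = 1) ∧ (∀ n : ℤ, (R' : ℤ) < |n| → φ n = 0) ∧
      ∀ (r : ℝ) (f : ℤ → ℂ), TP r f → ∃ g : UnitAddCircle → ℂ,
        Integrable g AddCircle.haarAddCircle ∧ (∀ n, fourierCoeff g n = φ n * f n) ∧
        ∫ t, ‖g t‖ ∂AddCircle.haarAddCircle ≤ 6 * r := by
  obtain ⟨N, hN1, hN2⟩ : ∃ N : ℕ, 2 * R ≤ N ∧ ∀ n ∈ A, |n| ≤ N := by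
    refine ⟨2 * R + ∑ n ∈ A, n.natAbs, by omega, fun n hn => ?_⟩
    have := Finset.single_le_sum (f := fun n : ℤ => n.natAbs) (fun _ _ => Nat.zero_le _) hn
    rw [Int.abs_eq_natAbs]
    omega
  set φ : ℤ → ℝ := fun n => Kernel_c N n / (N + 1) - Kernel_c R n / (R + 1) with hφ
  have hNp : (0 : ℝ) < N + 1 := by positivity
  have hRp : (0 : ℝ) < R + 1 := by positivity
  have a1 : ∀ (M : ℕ) (n : ℤ), |n| ≤ M → (Kernel_c M n / (M + 1) : ℝ) = 1 := by
    intro M n h
    rw [Kernel_c_eq M n h]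
    push_cast
    exact div_self (by positivity)
  have a2 : ∀ (M : ℕ) (n : ℤ), (Kernel_c M n / (M + 1) : ℝ) ≤ 1 := by
    intro M n
    rw [div_le_one (by positivity)]
    exact_mod_cast Kernel_c_le M n
  have a3 : ∀ (M : ℕ) (n : ℤ), (0 : ℝ) ≤ Kernel_c M n / (M + 1) := by
    intro M n; positivity
  have a4 : ∀ (M : ℕ) (n : ℤ), 2 * (M : ℤ) < |n| → (Kernel_c M n / (M + 1) : ℝ) = 0 := by
    intro M n h
    rw [Kernel_c_zero M n h]; simp
  have hout : ∀ n : ℤ, 2 * (N : ℤ) < |n| → φ n = 0 := by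
    intro n hn
    simp only [hφ]
    rw [a4 N n hn, a4 R n (by omega), sub_zero]
  refine ⟨φ, 2 * N, ?_, ?_, ?_, ?_, ?_⟩
  · intro n
    constructor
    · simp only [hφ]
      by_cases h : |n| ≤ N
      · rw [a1 N n h]; linarith [a2 R n]
      · rw [a4 R n (by omega)]; linarith [a3 N n]
    · simp only [hφ]; linarith [a2 N n, a3 R n]
  · intro n hn
    simp only [hφ]
    rw [a1 N n (by omega), a1 R n hn, sub_self]
  · intro n hn
    simp only [hφ]
    rw [a1 N n (hN2 n hn), a4 R n (hA n hn), sub_zero]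
  · intro n hn
    exact hout n (by push_cast at hn; exact hn)
  · intro r f hf
    obtain ⟨m, c, s, hfc, hc⟩ := hf
    set I := Finset.Icc (-((2 * N : ℕ) : ℤ)) ((2 * N : ℕ) : ℤ) with hI
    set V : UnitAddCircle → ℂ := fun t => ∑ n ∈ I, (φ n : ℂ) * fourier n t with hV
    have hVc : Continuous V := Kernel_cont I _
    have hVn : ∫ t, ‖V t‖ ∂AddCircle.haarAddCircle ≤ 6 := by
      have e1 : ∀ t : UnitAddCircle, V t
          = (∑ n ∈ I, ((Kernel_c N n / (N + 1) : ℝ) : ℂ) * fourier n t)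
            - ∑ n ∈ I, ((Kernel_c R n / (R + 1) : ℝ) : ℂ) * fourier n t := by
        intro t
        rw [← Finset.sum_sub_distrib]
        refine Finset.sum_congr rfl fun n _ => ?_
        simp only [hφ]
        push_cast
        ring
      have i1 : Integrable (fun t : UnitAddCircle =>
          ‖∑ n ∈ I, ((Kernel_c N n / (N + 1) : ℝ) : ℂ) * fourier n t‖) AddCircle.haarAddCircle :=
        Kernel_integrable (Kernel_cont I _).norm
      have i2 : Integrable (fun t : UnitAddCircle =>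
          ‖∑ n ∈ I, ((Kernel_c R n / (R + 1) : ℝ) : ℂ) * fourier n t‖) AddCircle.haarAddCircle :=
        Kernel_integrable (Kernel_cont I _).norm
      calc ∫ t, ‖V t‖ ∂AddCircle.haarAddCircle
          ≤ ∫ t : UnitAddCircle, (‖∑ n ∈ I, ((Kernel_c N n / (N + 1) : ℝ) : ℂ) * fourier n t‖
            + ‖∑ n ∈ I, ((Kernel_c R n / (R + 1) : ℝ) : ℂ) * fourier n t‖)
            ∂AddCircle.haarAddCircle := by
            refine integral_mono (Kernel_integrable hVc.norm) (i1.add i2) fun t => ?_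
            simp only
            rw [e1 t]
            exact norm_sub_le _ _
        _ = _ := integral_add i1 i2
        _ ≤ 3 + 3 := add_le_add (Kernel_norm N (2 * N) le_rfl) (Kernel_norm R (2 * N) (by omega))
        _ = 6 := by norm_num
    set g : UnitAddCircle → ℂ := fun t => ∑ n ∈ I, ((φ n : ℂ) * f n) * fourier n t with hg
    have hgc : Continuous g := Kernel_cont I _
    have hgV : ∀ t : UnitAddCircle, g t = ∑ j, c j * V (t + (s j : UnitAddCircle)) := by
      intro t
      simp only [hg, hV]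
      simp_rw [Finset.mul_sum, Kernel_fourier_add]
      rw [Finset.sum_comm]
      refine Finset.sum_congr rfl fun n _ => ?_
      rw [hfc n, Finset.mul_sum, Finset.sum_mul]
      refine Finset.sum_congr rfl fun j _ => ?_
      ring
    refine ⟨g, Kernel_integrable hgc, ?_, ?_⟩
    · intro n
      have h1 : g = ∑ k ∈ I, (fun t => ((φ k : ℂ) * f k) * fourier k t) := by
        funext t
        simp only [hg, Finset.sum_apply]
      rw [h1, fourierCoeff.sum]
      · rw [Finset.sum_apply]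
        simp_rw [fourierCoeff.const_mul]
        have h2 : ∀ k : ℤ, fourierCoeff (fun t : UnitAddCircle => fourier k t) n
            = if k = n then 1 else 0 := by
          intro k
          have := congrFun (fourierCoeff_fourier (T := 1) k) n
          rw [show (fun t : UnitAddCircle => fourier k t) = ⇑(fourier (T := 1) k) from rfl, this]
          by_cases hk : k = n
          · subst hk; simp
          · rw [if_neg hk, Pi.single_eq_of_ne (Ne.symm hk)]
        simp_rw [h2, mul_ite, mul_one, mul_zero]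
        rw [Finset.sum_ite_eq']
        by_cases hn : n ∈ I
        · rw [if_pos hn]
        · rw [if_neg hn]
          rw [hI, Finset.mem_Icc] at hn
          have : φ n = 0 := hout n (by
            push_cast at hn
            by_contra hcon
            apply hn
            rw [not_lt, abs_le] at hcon
            exact hcon)
          rw [this]; simp
      · intro k _
        exact Kernel_integrable (continuous_const.mul (fourier k).continuous)
    · have hr : 0 ≤ r := (Finset.sum_nonneg fun _ _ => norm_nonneg _).trans hc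
      have e3 : ∀ t : UnitAddCircle, ‖g t‖ ≤ ∑ j, ‖c j‖ * ‖V (t + (s j : UnitAddCircle))‖ := by
        intro t
        rw [hgV t]
        refine (norm_sum_le _ _).trans ?_
        refine Finset.sum_le_sum fun j _ => ?_
        rw [norm_mul]
      have hi : ∀ j : Fin m, Integrable (fun t : UnitAddCircle =>
          ‖c j‖ * ‖V (t + (s j : UnitAddCircle))‖) AddCircle.haarAddCircle := fun j =>
        Kernel_integrable (continuous_const.mul
          (hVc.comp (continuous_id.add continuous_const)).norm)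
      calc ∫ t, ‖g t‖ ∂AddCircle.haarAddCircle
          ≤ ∫ t : UnitAddCircle, ∑ j, ‖c j‖ * ‖V (t + (s j : UnitAddCircle))‖
            ∂AddCircle.haarAddCircle :=
            integral_mono (Kernel_integrable hgc.norm) (integrable_finsetSum _ fun j _ => hi j) e3
        _ = ∑ j, ‖c j‖ * ∫ t, ‖V t‖ ∂AddCircle.haarAddCircle := by
            rw [integral_finsetSum _ fun j _ => hi j]
            refine Finset.sum_congr rfl fun j _ => ?_
            rw [integral_const_mul]
            congr 1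
            exact integral_add_right_eq_self (μ := AddCircle.haarAddCircle)
              (fun t : UnitAddCircle => ‖V t‖) (s j : UnitAddCircle)
        _ ≤ ∑ j, ‖c j‖ * 6 := by gcongr
        _ = (∑ j, ‖c j‖) * 6 := by rw [Finset.sum_mul]
        _ ≤ 6 * r := by linarith

end Pool.Agent.Lib.MP_6d8312_an
end
end

section

/-! # Duality pairing -/

set_option autoImplicit false

noncomputable section

namespace Pool.Agent.Lib.MP_6d8312_an

open MeasureTheory

theorem pairing (A : Finset ℤ) (w : ℤ → ℂ) (hw : ∀ θ : ℝ, ‖W A w θ‖ ≤ 1)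
    (f : UnitAddCircle → ℂ) (hf : Integrable f AddCircle.haarAddCircle) :
    ‖∑ l ∈ A, w l * fourierCoeff f l‖ ≤ ∫ t, ‖f t‖ ∂AddCircle.haarAddCircle := by
  have hint : ∀ l : ℤ, Integrable (fun t : UnitAddCircle => fourier (-l) t • f t)
      AddCircle.haarAddCircle := by
    intro l
    refine hf.bdd_mul (c := 1) (fourier (-l)).continuous.aestronglyMeasurable ?_
    refine Filter.Eventually.of_forall fun t => ?_
    rw [fourier_apply, Circle.norm_coe]
  have h1 : ∑ l ∈ A, w l * fourierCoeff f l =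
      ∫ t, ∑ l ∈ A, w l * (fourier (-l) t • f t) ∂AddCircle.haarAddCircle := by
    rw [integral_finsetSum A fun l _ => (hint l).const_mul (w l)]
    refine Finset.sum_congr rfl fun l _ => ?_
    rw [fourierCoeff, integral_const_mul]
  rw [h1]
  refine (norm_integral_le_integral_norm _).trans ?_
  refine integral_mono ?_ hf.norm fun t => ?_
  · exact (integrable_finsetSum A fun l _ => (hint l).const_mul (w l)).norm
  · obtain ⟨x, rfl⟩ : ∃ x : ℝ, (x : UnitAddCircle) = t := QuotientAddGroup.mk_surjective t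
    have h2 : ∑ l ∈ A, w l * (fourier (-l) (x : UnitAddCircle) • f x) = W A w (-x) * f x := by
      rw [W, Finset.sum_mul]
      refine Finset.sum_congr rfl fun l _ => ?_
      rw [fourier_coe_apply, smul_eq_mul, e]
      have : (2 * Real.pi * Complex.I * ((-l : ℤ) : ℂ) * (x : ℂ) / ((1 : ℝ) : ℂ)) =
          2 * Real.pi * ((l : ℝ) * (-x) : ℝ) * Complex.I := by
        push_cast
        ring
      rw [this]
      ring
    show ‖∑ l ∈ A, w l * (fourier (-l) (x : UnitAddCircle) • f x)‖ ≤ ‖f x‖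
    rw [h2, norm_mul]
    calc ‖W A w (-x)‖ * ‖f x‖ ≤ 1 * ‖f x‖ :=
          mul_le_mul_of_nonneg_right (hw (-x)) (norm_nonneg _)
      _ = ‖f x‖ := one_mul _

end Pool.Agent.Lib.MP_6d8312_an
end
end

section

/-! # Gliding hump: an operating function is bounded near zero -/

set_option autoImplicit false

noncomputable section

namespace Pool.Agent.Lib.MP_6d8312_an

open MeasureTheory

private lemma glide_norm_fc (f : UnitAddCircle → ℂ) (n : ℤ) :
    ‖fourierCoeff f n‖ ≤ ∫ t, ‖f t‖ ∂AddCircle.haarAddCircle := by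
  unfold fourierCoeff
  refine (norm_integral_le_integral_norm _).trans_eq ?_
  apply integral_congr_ae
  filter_upwards with t
  rw [norm_smul]
  have : ‖(fourier (-n) : C(UnitAddCircle, ℂ)) t‖ = 1 := by
    rw [fourier_apply]
    exact Circle.norm_coe _
  rw [this, one_mul]

/-- the `n`-th Fourier coefficient as a continuous linear map on `L¹` -/
private def glideFC (n : ℤ) :
    (Lp ℂ 1 (AddCircle.haarAddCircle (T := 1))) →L[ℂ] ℂ :=
  LinearMap.mkContinuous
    { toFun := fun f => fourierCoeff (f : UnitAddCircle → ℂ) n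
      map_add' := by
        intro f g
        have h1 := congrFun (fourierCoeff.add (L1.integrable_coeFn f) (L1.integrable_coeFn g)) n
        have h2 := congrFun (fourierCoeff_congr_ae (Lp.coeFn_add f g)) n
        exact h2.trans h1
      map_smul' := by
        intro c f
        rw [RingHom.id_apply, ← fourierCoeff.const_smul]
        exact congrFun (fourierCoeff_congr_ae (Lp.coeFn_smul c f)) n }
    1 (by
      intro f
      rw [one_mul, L1.norm_eq_integral_norm]
      exact glide_norm_fc _ n)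

private lemma glideFC_apply (n : ℤ) (f : Lp ℂ 1 (AddCircle.haarAddCircle (T := 1))) :
    glideFC n f = fourierCoeff (f : UnitAddCircle → ℂ) n := rfl

/-- sums of `L¹` functions -/
private lemma glide_sum (g : ℕ → UnitAddCircle → ℂ)
    (hg : ∀ k, Integrable (g k) AddCircle.haarAddCircle)
    (hs : Summable fun k => ∫ t, ‖g k t‖ ∂AddCircle.haarAddCircle) :
    ∃ G : UnitAddCircle → ℂ, Integrable G AddCircle.haarAddCircle ∧
      ∀ n, HasSum (fun k => fourierCoeff (g k) n) (fourierCoeff G n) := by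
  have hsum : Summable fun k => (hg k).toL1 (g k) := by
    apply Summable.of_norm
    refine hs.congr fun k => ?_
    rw [L1.norm_of_fun_eq_integral_norm]
  refine ⟨(∑' k, (hg k).toL1 (g k) : Lp ℂ 1 (AddCircle.haarAddCircle (T := 1))),
    L1.integrable_coeFn _, fun n => ?_⟩
  have h := hsum.hasSum.mapL (glideFC n)
  rw [glideFC_apply] at h
  have e : (fun k => glideFC n ((hg k).toL1 (g k))) = fun k => fourierCoeff (g k) n := by
    funext k
    rw [glideFC_apply]
    exact congrFun (fourierCoeff_congr_ae (hg k).coeFn_toL1) n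
  rw [e] at h
  exact h

theorem exists_bdd (Λ : Set ℤ) (F : ℝ → ℝ) (hF : Operates Λ F) :
    ∃ (R : ℕ) (r C : ℝ), 0 < r ∧ r ≤ 1 ∧ 0 < C ∧ Bdd Λ F R r C := by
  by_contra hcon
  push Not at hcon
  -- one step of the construction
  have step : ∀ (k ρ : ℕ), ∃ (A : Finset ℤ) (U : ℤ → ℝ) (w : ℤ → ℂ) (φ : ℤ → ℝ) (ρ' : ℕ)
      (g : UnitAddCircle → ℂ), (∀ n ∈ A, n ∈ Λ) ∧ RTP ((1 / 2) ^ k) U ∧
      (∀ θ : ℝ, ‖W A w θ‖ ≤ 1) ∧ (k : ℝ) < ‖∑ l ∈ A, w l * ((F (U l) : ℝ) : ℂ)‖ ∧
      (∀ n, 0 ≤ φ n ∧ φ n ≤ 1) ∧ (∀ n : ℤ, |n| ≤ ρ → φ n = 0) ∧ (∀ n ∈ A, φ n = 1) ∧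
      (∀ n : ℤ, (ρ' : ℤ) < |n| → φ n = 0) ∧ ρ ≤ ρ' ∧
      Integrable g AddCircle.haarAddCircle ∧ (∀ n, fourierCoeff g n = φ n * U n) ∧
      ∫ t, ‖g t‖ ∂AddCircle.haarAddCircle ≤ 6 * (1 / 2) ^ k := by
    intro k ρ
    have h := hcon (2 * ρ) ((1 / 2) ^ k) (k + 1) (by positivity)
      (pow_le_one₀ (by norm_num) (by norm_num)) (by positivity)
    unfold Bdd at h
    push Not at h
    obtain ⟨A, hA, U, hU, w, hw, hlt⟩ := h
    obtain ⟨φ, R', hφ1, hφ2, hφ3, hφ4, hφ5⟩ := kernel ρ A (fun n hn => by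
      have := (hA n hn).2
      push_cast at this
      exact this)
    obtain ⟨g, hg1, hg2, hg3⟩ := hφ5 _ _ hU
    refine ⟨A, U, w, φ, max ρ R', g, fun n hn => (hA n hn).1, hU, hw, by linarith, hφ1, hφ2, hφ3,
      ?_, le_max_left _ _, hg1, hg2, hg3⟩
    intro n hn
    apply hφ4
    refine lt_of_le_of_lt ?_ hn
    exact_mod_cast le_max_right _ _
  choose A U w φ ρ' g h1 h2 h3 h4 h5 h6 h7 h8 h9 h10 h11 h12 using step
  -- the sequence of radii
  let ρ : ℕ → ℕ := fun k => Nat.rec 0 (fun k r => ρ' k r) k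
  have hρs : ∀ k, ρ (k + 1) = ρ' k (ρ k) := fun k => rfl
  have hmono : Monotone ρ := monotone_nat_of_le_succ fun k => by
    rw [hρs]; exact h9 k (ρ k)
  -- disjoint supports
  have hdisj : ∀ (j k : ℕ) (n : ℤ), j ≠ k → φ k (ρ k) n ≠ 0 → φ j (ρ j) n = 0 := by
    have key : ∀ (j k : ℕ) (n : ℤ), j < k → φ k (ρ k) n ≠ 0 → φ j (ρ j) n ≠ 0 → False := by
      intro j k n hjk hk hj
      have a1 : (Nat.cast (ρ k) : ℤ) < |n| := by
        by_contra hc
        exact hk (h6 k (ρ k) n (by push Not at hc; exact hc))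
      have a2 : |n| ≤ ((ρ' j (ρ j) : ℕ) : ℤ) := by
        by_contra hc
        exact hj (h8 j (ρ j) n (by push Not at hc; exact hc))
      have a3 : ρ (j + 1) ≤ ρ k := hmono hjk
      rw [hρs] at a3
      have a4 : ((ρ' j (ρ j) : ℕ) : ℤ) ≤ (Nat.cast (ρ k) : ℤ) := by exact_mod_cast a3
      omega
    intro j k n hne hk
    by_contra hj
    rcases lt_or_gt_of_ne hne with h | h
    · exact key j k n h hk hj
    · exact key k j n h hj hk
  -- the sum
  have hsummable : Summable fun k => ∫ t, ‖g k (ρ k) t‖ ∂AddCircle.haarAddCircle := by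
    refine Summable.of_nonneg_of_le (fun k => integral_nonneg fun t => norm_nonneg _)
      (fun k => h12 k (ρ k)) ?_
    exact (summable_geometric_of_lt_one (by norm_num) (by norm_num)).mul_left 6
  obtain ⟨G, hG, hGs⟩ := glide_sum (fun k => g k (ρ k)) (fun k => h10 k (ρ k)) hsummable
  let a : ℤ → ℝ := fun n => ∑' k, φ k (ρ k) n * U k (ρ k) n
  have ha : ∀ n, fourierCoeff G n = (a n : ℂ) := by
    intro n
    rw [← (hGs n).tsum_eq, Complex.ofReal_tsum]
    apply tsum_congr
    intro k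
    rw [h11 k (ρ k) n]
    push_cast
    rfl
  have ha1 : ∀ (k : ℕ) (n : ℤ), φ k (ρ k) n ≠ 0 → a n = φ k (ρ k) n * U k (ρ k) n := by
    intro k n hk
    apply tsum_eq_single
    intro j hj
    rw [hdisj j k n hj hk, zero_mul]
  have hUle : ∀ (k : ℕ) (n : ℤ), |U k (ρ k) n| ≤ 1 := by
    intro k n
    have := (h2 k (ρ k)).norm_le n
    rw [Complex.norm_real, Real.norm_eq_abs] at this
    exact this.trans (pow_le_one₀ (by norm_num) (by norm_num))
  have ha2 : ∀ n, a n ∈ Set.Icc (-1 : ℝ) 1 := by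
    intro n
    rw [Set.mem_Icc, ← abs_le]
    by_cases hex : ∃ k, φ k (ρ k) n ≠ 0
    · obtain ⟨k, hk⟩ := hex
      rw [ha1 k n hk, abs_mul, abs_of_nonneg (h5 k (ρ k) n).1]
      exact mul_le_one₀ (h5 k (ρ k) n).2 (abs_nonneg _) (hUle k n)
    · push Not at hex
      have : a n = 0 := by
        show ∑' k, φ k (ρ k) n * U k (ρ k) n = 0
        rw [tsum_congr (fun k => by rw [hex k, zero_mul]), tsum_zero]
      rw [this]
      norm_num
  obtain ⟨h, hh, hhF⟩ := hF a (fun n _ => ha2 n) ⟨G, hG, fun n _ => ha n⟩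
  -- contradiction
  obtain ⟨k, hk⟩ := exists_nat_gt (∫ t, ‖h t‖ ∂AddCircle.haarAddCircle)
  have hp := pairing (A k (ρ k)) (w k (ρ k)) (h3 k (ρ k)) h hh
  have he : ∑ l ∈ A k (ρ k), w k (ρ k) l * fourierCoeff h l =
      ∑ l ∈ A k (ρ k), w k (ρ k) l * ((F (U k (ρ k) l) : ℝ) : ℂ) := by
    apply Finset.sum_congr rfl
    intro l hl
    rw [hhF l (h1 k (ρ k) l hl)]
    have h71 := h7 k (ρ k) l hl
    have : a l = U k (ρ k) l := by
      rw [ha1 k l (by rw [h71]; exact one_ne_zero), h71, one_mul]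
    show w k (ρ k) l * ((F (a l) : ℝ) : ℂ) = _
    rw [this]
  rw [he] at hp
  have := h4 k (ρ k)
  linarith

end Pool.Agent.Lib.MP_6d8312_an
end
end

section

/-! # Continuity near zero -/

set_option autoImplicit false

noncomputable section

namespace Pool.Agent.Lib.MP_6d8312_an.Q

theorem exists_large_sum {Λ : Set ℤ} (h : GrowthG Λ) (R : ℕ) (M : ℝ) :
    ∃ A B : Finset ℤ, B ⊆ A ∧ (∀ n ∈ A, n ∈ Λ ∧ (R : ℤ) < |n|) ∧
      ∃ w : ℤ → ℂ, (∀ θ : ℝ, ‖W A w θ‖ ≤ 1) ∧ M ≤ ‖∑ l ∈ B, w l‖ := by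
  classical
  obtain ⟨a, c₀, γ, _, hc0, _, hγ, h⟩ := h
  obtain ⟨K₀, hK₀⟩ := pow_unbounded_of_one_lt (4 * M / c₀) hγ
  obtain ⟨K, hK, A, hA, v, _, w, hw, hbig⟩ := h R K₀
  rw [div_lt_iff₀ hc0, mul_comm] at hK₀
  by_contra hcon
  have hsmall : ∀ B : Finset ℤ, B ⊆ A → ‖∑ l ∈ B, w l‖ < M := by
    intro B hB
    by_contra h1
    push Not at h1
    exact hcon ⟨A, B, hB, hA, w, hw, h1⟩
  have hpow : c₀ * γ ^ K₀ ≤ c₀ * γ ^ K :=
    mul_le_mul_of_nonneg_left (pow_le_pow_right₀ hγ.le hK) hc0.le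
  have hsum : ‖∑ l ∈ A, w l * Complex.exp (Complex.I * v l)‖ ≤
      ∑ l ∈ A, |(w l).re| + ∑ l ∈ A, |(w l).im| := by
    rw [← Finset.sum_add_distrib]
    refine (norm_sum_le _ _).trans (Finset.sum_le_sum fun l _ => ?_)
    rw [norm_mul, mul_comm Complex.I, Complex.norm_exp_ofReal_mul_I, mul_one]
    exact Complex.norm_le_abs_re_add_abs_im _
  have hre : ∑ l ∈ A, |(w l).re| ≤ ‖∑ l ∈ A.filter (fun l => 0 ≤ (w l).re), w l‖ +
      ‖∑ l ∈ A.filter (fun l => ¬ 0 ≤ (w l).re), w l‖ := by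
    rw [← Finset.sum_filter_add_sum_filter_not A (fun l => 0 ≤ (w l).re) (fun l => |(w l).re|)]
    apply add_le_add
    · calc ∑ l ∈ A.filter (fun l => 0 ≤ (w l).re), |(w l).re|
          = (∑ l ∈ A.filter (fun l => 0 ≤ (w l).re), w l).re := by
            rw [Complex.re_sum]
            exact Finset.sum_congr rfl fun l hl => abs_of_nonneg (Finset.mem_filter.1 hl).2
        _ ≤ _ := (le_abs_self _).trans (Complex.abs_re_le_norm _)
    · calc ∑ l ∈ A.filter (fun l => ¬ 0 ≤ (w l).re), |(w l).re|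
          = -(∑ l ∈ A.filter (fun l => ¬ 0 ≤ (w l).re), w l).re := by
            rw [Complex.re_sum, ← Finset.sum_neg_distrib]
            exact Finset.sum_congr rfl fun l hl =>
              abs_of_neg (not_le.1 (Finset.mem_filter.1 hl).2)
        _ ≤ _ := (neg_le_abs _).trans (Complex.abs_re_le_norm _)
  have him : ∑ l ∈ A, |(w l).im| ≤ ‖∑ l ∈ A.filter (fun l => 0 ≤ (w l).im), w l‖ +
      ‖∑ l ∈ A.filter (fun l => ¬ 0 ≤ (w l).im), w l‖ := by
    rw [← Finset.sum_filter_add_sum_filter_not A (fun l => 0 ≤ (w l).im) (fun l => |(w l).im|)]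
    apply add_le_add
    · calc ∑ l ∈ A.filter (fun l => 0 ≤ (w l).im), |(w l).im|
          = (∑ l ∈ A.filter (fun l => 0 ≤ (w l).im), w l).im := by
            rw [Complex.im_sum]
            exact Finset.sum_congr rfl fun l hl => abs_of_nonneg (Finset.mem_filter.1 hl).2
        _ ≤ _ := (le_abs_self _).trans (Complex.abs_im_le_norm _)
    · calc ∑ l ∈ A.filter (fun l => ¬ 0 ≤ (w l).im), |(w l).im|
          = -(∑ l ∈ A.filter (fun l => ¬ 0 ≤ (w l).im), w l).im := by
            rw [Complex.im_sum, ← Finset.sum_neg_distrib]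
            exact Finset.sum_congr rfl fun l hl =>
              abs_of_neg (not_le.1 (Finset.mem_filter.1 hl).2)
        _ ≤ _ := (neg_le_abs _).trans (Complex.abs_im_le_norm _)
  have h1 := hsmall _ (Finset.filter_subset (fun l => 0 ≤ (w l).re) A)
  have h2 := hsmall _ (Finset.filter_subset (fun l => ¬ 0 ≤ (w l).re) A)
  have h3 := hsmall _ (Finset.filter_subset (fun l => 0 ≤ (w l).im) A)
  have h4 := hsmall _ (Finset.filter_subset (fun l => ¬ 0 ≤ (w l).im) A)
  linarith

theorem continuousAt_of_bdd {Λ : Set ℤ} {F : ℝ → ℝ} {R : ℕ} {r C : ℝ} (hG : GrowthG Λ)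
    (hB : Bdd Λ F R r C) (x : ℝ) (hx : |x| < r) : ContinuousAt F x := by
  classical
  rw [Metric.continuousAt_iff]
  intro ε hε
  obtain ⟨A, B, hBA, hA, w, hw, hbig⟩ := exists_large_sum hG R ((|C| + |F x| + 1) / ε)
  have hpos : 0 < r - |x| := by linarith
  refine ⟨(r - |x|) / (B.card + 1), by positivity, fun y hy => ?_⟩
  rw [Real.dist_eq] at hy ⊢
  have hind : ∀ b : ℤ, ∃ U : ℤ → ℝ, RTP 1 U ∧ ∀ n ∈ A, U n = if n = b then 1 else 0 :=
    fun b => RTP.exists_indicator A b
  choose ind hind1 hind2 using hind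
  have hU : RTP r (fun n => x + (y - x) * ∑ b ∈ B, ind b n) := by
    have h1 : RTP (∑ _b ∈ B, (1 : ℝ)) (fun n => ∑ b ∈ B, ind b n) :=
      RTP.sum B (fun _ => 1) ind fun b _ => hind1 b
    have h2 := RTP.add (RTP.const x) (RTP.smul (y - x) h1)
    apply RTP.mono h2
    rw [Finset.sum_const, nsmul_eq_mul, mul_one]
    have h3 : |y - x| * B.card ≤ r - |x| := by
      calc |y - x| * B.card ≤ |y - x| * (B.card + 1) :=
            mul_le_mul_of_nonneg_left (by linarith) (abs_nonneg _)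
        _ ≤ (r - |x|) / (B.card + 1) * (B.card + 1) :=
            mul_le_mul_of_nonneg_right hy.le (by positivity)
        _ = r - |x| := by field_simp
    linarith
  have hval : ∀ n ∈ A, x + (y - x) * ∑ b ∈ B, ind b n = if n ∈ B then y else x := by
    intro n hn
    have h1 : ∑ b ∈ B, ind b n = if n ∈ B then 1 else 0 := by
      rw [Finset.sum_congr rfl fun b _ => hind2 b n hn]
      simp
    rw [h1]
    split <;> ring
  have hb := hB A hA _ hU w hw
  have hsum : ∑ l ∈ A, w l * ((F (x + (y - x) * ∑ b ∈ B, ind b l) : ℝ) : ℂ) =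
      (F x : ℂ) * ∑ l ∈ A, w l + ((F y - F x : ℝ) : ℂ) * ∑ l ∈ B, w l := by
    have h1 : ∀ l ∈ A, w l * ((F (x + (y - x) * ∑ b ∈ B, ind b l) : ℝ) : ℂ) =
        (F x : ℂ) * w l + (if l ∈ B then ((F y - F x : ℝ) : ℂ) * w l else 0) := by
      intro l hl
      rw [hval l hl]
      split
      · push_cast
        ring
      · ring
    rw [Finset.sum_congr rfl h1, Finset.sum_add_distrib, ← Finset.mul_sum, ← Finset.sum_filter,
      Finset.filter_mem_eq_inter, Finset.inter_eq_right.2 hBA, ← Finset.mul_sum]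
  rw [hsum] at hb
  have hW0 : ‖∑ l ∈ A, w l‖ ≤ 1 := by
    have h1 := hw 0
    unfold W at h1
    simpa [e_zero] using h1
  have h5 : ‖((F y - F x : ℝ) : ℂ) * ∑ l ∈ B, w l‖ ≤ C + |F x| := by
    calc ‖((F y - F x : ℝ) : ℂ) * ∑ l ∈ B, w l‖
        = ‖((F x : ℂ) * ∑ l ∈ A, w l + ((F y - F x : ℝ) : ℂ) * ∑ l ∈ B, w l) -
            (F x : ℂ) * ∑ l ∈ A, w l‖ := by
          congr 1
          ring
      _ ≤ ‖(F x : ℂ) * ∑ l ∈ A, w l + ((F y - F x : ℝ) : ℂ) * ∑ l ∈ B, w l‖ +
            ‖(F x : ℂ) * ∑ l ∈ A, w l‖ := norm_sub_le _ _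
      _ ≤ C + |F x| * 1 := by
          apply add_le_add hb
          rw [norm_mul, Complex.norm_real, Real.norm_eq_abs]
          exact mul_le_mul_of_nonneg_left hW0 (abs_nonneg _)
      _ = C + |F x| := by ring
  rw [norm_mul, Complex.norm_real, Real.norm_eq_abs] at h5
  have h6 : |F y - F x| * ((|C| + |F x| + 1) / ε) ≤ C + |F x| :=
    (mul_le_mul_of_nonneg_left hbig (abs_nonneg _)).trans h5
  have h7 : |F y - F x| * ((|C| + |F x| + 1) / ε) < |C| + |F x| + 1 := by
    have := le_abs_self C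
    linarith
  have h8 : 0 < |C| + |F x| + 1 := by positivity
  rw [← mul_div_assoc, div_lt_iff₀ hε, mul_comm] at h7
  exact lt_of_mul_lt_mul_left h7 h8.le

end Pool.Agent.Lib.MP_6d8312_an.Q
end
end

section

/-! # Exponential decay of the Fourier coefficients of `F (b sin x)` -/

set_option autoImplicit false

noncomputable section

namespace Pool.Agent.Lib.MP_6d8312_an.Q

theorem cf_decay {Λ : Set ℤ} {F : ℝ → ℝ} {R : ℕ} {s b C : ℝ} (hG : GrowthG Λ) (hs : 0 < s)
    (hc : Continuous (fun x : ℝ => F (b * Real.sin x))) (hB : SinBdd Λ F R s b C) :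
    ∃ C' c : ℝ, 0 < c ∧ ∀ m : ℤ, ‖cf F b m‖ ≤ C' * Real.exp (-c * |(m : ℝ)|) := by
  obtain ⟨α, c₀, γ, hα, hc0, hc1, hγ, hG⟩ := hG
  have hC0 : 0 ≤ C := by
    obtain ⟨K, _, A, hA, v, _, w, hw, _⟩ := hG R 0
    have h0 : RTP s (fun _ : ℤ => (0 : ℝ)) := by
      have := RTP.const 0
      rw [abs_zero] at this
      exact this.mono hs.le
    exact (norm_nonneg _).trans (hB A hA (fun _ => 0) h0 w hw 0)
  set L : ℝ := Real.log γ with hL
  have hL0 : 0 < L := Real.log_pos hγ
  refine ⟨C / c₀ + ‖cf F b 0‖, s * L / (2 * α), by positivity, ?_⟩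
  intro m
  rcases eq_or_ne m 0 with hm | hm
  · subst hm
    simp only [Int.cast_zero, abs_zero, mul_zero, Real.exp_zero, mul_one]
    have : 0 ≤ C / c₀ := by positivity
    linarith [norm_nonneg (cf F b 0)]
  -- the main case
  set y : ℝ := ‖cf F b m‖ with hy
  rcases (norm_nonneg (cf F b m)).eq_or_lt with hy0 | hy0
  · rw [← hy] at hy0
    rw [← hy0]
    have := norm_nonneg (cf F b 0)
    positivity
  rw [← hy] at hy0
  have hm1 : (1 : ℝ) ≤ |(m : ℝ)| := by
    have := Int.one_le_abs hm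
    exact_mod_cast this
  set a : ℝ := |(m : ℝ)| with ha
  have ha0 : 0 < a := by linarith
  obtain ⟨K, hK, A, hA, v, hv, w, hw, hlow⟩ := hG R ⌈a * s / α⌉₊
  have hKs : a * s / α ≤ K := (Nat.le_ceil _).trans (by exact_mod_cast hK)
  have hKs1 : 1 ≤ α * K / (a * s) := by
    rw [le_div_iff₀ (by positivity)]
    rw [div_le_iff₀ hα] at hKs
    linarith
  set M : ℕ := ⌈α * (K : ℝ) / (a * s)⌉₊ with hM
  have has : 0 < a * s := by positivity
  have hM1 : α * (K : ℝ) / (a * s) ≤ M := Nat.le_ceil _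
  have hM2 : (M : ℝ) ≤ 2 * (α * K / (a * s)) := by
    have h1 : (M : ℝ) < α * K / (a * s) + 1 := Nat.ceil_lt_add_one (by positivity)
    linarith
  have hMone : (1 : ℝ) ≤ M := hKs1.trans hM1
  have hMpos : (0 : ℝ) < M := by linarith
  have hmR : (m : ℝ) ≠ 0 := by exact_mod_cast hm
  set U : ℤ → ℝ := fun n => (1 / (m * M)) * v n with hU
  have hUs : RTP s U := by
    refine (RTP.smul (1 / (m * M)) hv).mono ?_
    rw [abs_div, abs_one, abs_mul, abs_of_pos hMpos, ← ha]
    rw [div_mul_eq_mul_div, div_le_iff₀ (by positivity)]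
    rw [div_le_iff₀ has] at hM1
    nlinarith
  have hB2 : ∀ w' : ℤ → ℂ, (∀ θ : ℝ, ‖W A w' θ‖ ≤ 1) →
      ‖∑ l ∈ A, w' l * Complex.exp (m * U l * Complex.I)‖ ≤ C / y := by
    intro w' hw'
    have := cf_bound (w := w') hc (fun x => hB A hA U hUs w' hw' x) m
    rw [le_div_iff₀ hy0, mul_comm]
    exact this
  have h3 := mult_iter A (fun l => Complex.exp (m * U l * Complex.I)) (C / y) (by positivity)
    hB2 M w hw
  have h4 : ∑ l ∈ A, w l * Complex.exp (m * U l * Complex.I) ^ M
      = ∑ l ∈ A, w l * Complex.exp (Complex.I * v l) := by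
    refine Finset.sum_congr rfl fun l _ => ?_
    rw [← Complex.exp_nat_mul]
    congr 2
    simp only [hU]
    have hmC : (m : ℂ) ≠ 0 := by exact_mod_cast hm
    have hMC : (M : ℂ) ≠ 0 := by
      have : (M : ℝ) ≠ 0 := hMpos.ne'
      exact_mod_cast this
    push_cast
    field_simp
  rw [h4] at h3
  have h5 : c₀ * γ ^ K ≤ (C / y) ^ M := hlow.trans h3
  have hγ0 : 0 < γ := by linarith
  -- take logarithms
  have hCy : 0 < C / y := by
    by_contra hne
    have h0 : C / y = 0 := le_antisymm (not_lt.mp hne) (by positivity)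
    rw [h0, zero_pow (by intro h; rw [h] at hMpos; simp at hMpos)] at h5
    have : (0 : ℝ) < c₀ * γ ^ K := by positivity
    linarith
  set ℓ : ℝ := Real.log (1 / c₀) with hℓ
  have hℓ0 : 0 ≤ ℓ := Real.log_nonneg (by rw [le_div_iff₀ hc0]; linarith)
  have h6 : K * L - ℓ ≤ M * Real.log (C / y) := by
    have h := Real.log_le_log (by positivity) h5
    rw [Real.log_mul (by positivity) (by positivity), Real.log_pow, Real.log_pow] at h
    rw [hℓ, one_div, Real.log_inv]
    linarith
  have hlog2 : ℓ ≤ M * ℓ := by nlinarith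
  have h7 : a * s / (2 * α) * M * L ≤ K * L := by
    have : a * s / (2 * α) * M ≤ K := by
      calc a * s / (2 * α) * M ≤ a * s / (2 * α) * (2 * (α * K / (a * s))) :=
            mul_le_mul_of_nonneg_left hM2 (by positivity)
        _ = K := by field_simp
    nlinarith
  have h8 : a * s / (2 * α) * L ≤ Real.log ((1 / c₀) * (C / y)) := by
    rw [Real.log_mul (by positivity) hCy.ne']
    have : M * (a * s / (2 * α) * L) ≤ M * (ℓ + Real.log (C / y)) := by nlinarith
    exact le_of_mul_le_mul_left this hMpos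
  have h9 : Real.exp (a * s / (2 * α) * L) ≤ (1 / c₀) * (C / y) := by
    rw [← Real.le_log_iff_exp_le (by positivity)]
    exact h8
  have h10 : y ≤ C / c₀ * Real.exp (-(s * L / (2 * α)) * a) := by
    have e1 : -(s * L / (2 * α)) * a = -(a * s / (2 * α) * L) := by ring
    rw [e1, Real.exp_neg, ← div_eq_mul_inv, le_div_iff₀ (Real.exp_pos _)]
    calc y * Real.exp (a * s / (2 * α) * L) ≤ y * ((1 / c₀) * (C / y)) := by gcongr
      _ = C / c₀ := by field_simp
  calc y ≤ C / c₀ * Real.exp (-(s * L / (2 * α)) * a) := h10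
    _ ≤ (C / c₀ + ‖cf F b 0‖) * Real.exp (-(s * L / (2 * α)) * a) := by
      gcongr
      linarith [norm_nonneg (cf F b 0)]

end Pool.Agent.Lib.MP_6d8312_an.Q
end
end

section

/-! # Exponential growth implies analyticity -/

set_option autoImplicit false

noncomputable section

namespace Pool.Agent.Lib.MP_6d8312_an.Q

theorem analyticitySet_of_growth {Λ : Set ℤ} (hG : GrowthG Λ) : AnalyticitySet Λ := by
  intro F hF
  obtain ⟨R, r, C, hr, -, -, hB⟩ := exists_bdd Λ F hF
  have hcont : ∀ x : ℝ, |x| < r → ContinuousAt F x := continuousAt_of_bdd hG hB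
  -- the parameters
  have he : (0 : ℝ) < Real.exp 1 := Real.exp_pos 1
  have he1 : (1 : ℝ) < Real.exp 1 := by
    have := Real.add_one_lt_exp (x := 1) one_ne_zero
    linarith
  set b : ℝ := r / Real.exp 1 with hb
  have hb0 : 0 < b := div_pos hr he
  have hbr : b < r := by
    rw [hb, div_lt_iff₀ he]
    nlinarith
  have hbs : b * Real.exp 1 ≤ r := by
    rw [hb, div_mul_cancel₀ _ he.ne']
  have hS : SinBdd Λ F R 1 b C := sinBdd_of_bdd hB hcont hb0.le hbr hbs
  have hc : Continuous (fun x : ℝ => F (b * Real.sin x)) := by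
    rw [continuous_iff_continuousAt]
    intro x
    have h1 : |b * Real.sin x| < r := by
      rw [abs_mul, abs_of_pos hb0]
      have := Real.abs_sin_le_one x
      nlinarith
    have h2 : ContinuousAt (fun x : ℝ => b * Real.sin x) x := by fun_prop
    exact ContinuousAt.comp (f := fun x : ℝ => b * Real.sin x) (hcont _ h1) h2
  obtain ⟨C', c, hcpos, h⟩ := cf_decay hG one_pos hc hS
  exact analyticAt_of_cf_decay F b hb0 hc C' c hcpos h

end Pool.Agent.Lib.MP_6d8312_an.Q
end
end
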