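import Pool.Agent.Lib.MP_6d8312_an.Mg.G001
import Pool.Agent.Lib.MP_6d8312_an.Mg.G003
import Pool.Agent.Lib.MP_6d8312_an.Mg.G005
import Pool.Agent.Lib.MP_6d8312_an.Mg.G011
import Pool.Agent.Lib.MP_6d8312_an.Mg.G012

section

/-!
# The phases are trigonometric polynomials on the integers

`phs t (n : ZMod p) = (1/4) ∑_i cos(2π n t_i.val/p) = ∑_i ((1/8) e(n t_i.val/p) + (1/8) e(-n t_i.val/p))`
(`ch_eq_e`, `(ch x).re = (ch x + ch(-x))/2`): `2 K` terms with coefficients `1/8`, total `K/4`.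
(`TP` is an existential over `Fin m`; there are lemmas `RTP.add`, `RTP.sum`, `RTP.smul`, `RTP.mono`,
perhaps `RTP.cos`, in `Lib/MP_6d8312_an/TPs.lean`.)
-/

set_option autoImplicit false

noncomputable section

namespace Pool.Agent.Lib.MP_6d8312_an.KD

open Finset

variable {p : ℕ} [Fact p.Prime]

theorem rtp_phs {K : ℕ} (t : Fin K → ZMod p) :
    RTP ((1 / 4 : ℝ) * K) (fun n : ℤ => phs t (n : ZMod p)) := by
  have h0 := TP.of_fintype (ι := Fin K ⊕ Fin K) (fun _ => (1 / 8 : ℂ))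
    (Sum.elim (fun i => ((t i).val : ℝ) / p) (fun i => -(((t i).val : ℝ) / p)))
    (r := (1 / 4 : ℝ) * K) (by
      rw [Finset.sum_const, Finset.card_univ, Fintype.card_sum, Fintype.card_fin, nsmul_eq_mul]
      have h1 : ‖(1 / 8 : ℂ)‖ = 1 / 8 := by
        rw [norm_div, norm_one, Complex.norm_ofNat]
      rw [h1]
      push_cast
      linarith)
  change TP _ _
  refine (funext fun n => ?_ : (fun n : ℤ => ∑ j : Fin K ⊕ Fin K, (1 / 8 : ℂ) *
    e (n * Sum.elim (fun i => ((t i).val : ℝ) / p) (fun i => -(((t i).val : ℝ) / p)) j)) =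
      fun n : ℤ => ((phs t (n : ZMod p) : ℝ) : ℂ)) ▸ h0
  rw [Fintype.sum_sum_type, ← Finset.sum_add_distrib]
  unfold phs
  push_cast
  rw [Finset.mul_sum]
  refine Finset.sum_congr rfl fun i _ => ?_
  have h3 : (((ch ((n : ZMod p) * t i)).re : ℝ) : ℂ) =
      1 / 2 * (ch ((n : ZMod p) * t i) + ch (-((n : ZMod p) * t i))) := by
    rw [ch_neg, Complex.re_eq_add_conj]
    ring
  have h4 : ch ((n : ZMod p) * t i) = e (n * (((t i).val : ℝ) / p)) := ch_eq_e n (t i)
  have h5 : ch (-((n : ZMod p) * t i)) = e (n * -(((t i).val : ℝ) / p)) := by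
    rw [ch_neg, h4, tps_e_conj]
    congr 1
    ring
  rw [h3, h4, h5]
  simp only [Sum.elim_inl, Sum.elim_inr]
  ring

end Pool.Agent.Lib.MP_6d8312_an.KD
end
end

section

/-!
# From the grid to the circle

`P = ∑_{a∈A'} wt t a e(aθ)`.  Let `p₀ > 2 ∑_{a∈A} |a|` (so reduction is injective on `A`,
`cast_injOn`) and `p₀ ≥ 7 (5/3)^K ∑_{a∈A} |a|`.  (1) `L ≥ (3/4)^K`: by Parseval on the grid (`sum_ch`,
injectivity) `L² ≥ (1/p) ∑_θ ‖∑ wt ch(aθ)‖² = ∑_{a∈A'} ‖wt t a‖² ≥ (9/16)^K` (`norm_wt_ge`, `A'` nonempty).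
(2) For real `θ` put `y = ⌊p θ⌋`, `x = (y : ZMod p)`: `e(a y/p) = ch((a : ZMod p) x)` (`ch_eq_e`-type;
`e(a x.val/p) = e(a y/p)` since `x.val ≡ y mod p`) and `‖e(aθ) - e(a y/p)‖ ≤ 2π|a|/p`, so
`‖P(θ)‖ ≤ L + (5/4)^K (2π/p) ∑ |a| ≤ L + (3/4)^K ≤ 2 L` (`norm_wt_le`).
-/

set_option autoImplicit false

noncomputable section

namespace Pool.Agent.Lib.MP_6d8312_an.KD

open Finset

variable {p : ℕ} [Fact p.Prime]

/-- The value at `a₀` of the coefficient function, recovered from the values on the grid. -/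
private theorem Transfer_coef {A' : Finset ℤ}
    (hinj : Set.InjOn (Int.cast : ℤ → ZMod p) A') {a₀ : ℤ} (ha₀ : a₀ ∈ A') (w : ℤ → ℂ) :
    ∑ θ : ZMod p, (∑ a ∈ A', w a * ch ((a : ZMod p) * θ)) * ch (-(a₀ : ZMod p) * θ) =
      (p : ℂ) * w a₀ := by
  have h1 : ∀ θ : ZMod p, (∑ a ∈ A', w a * ch ((a : ZMod p) * θ)) * ch (-(a₀ : ZMod p) * θ) =
      ∑ a ∈ A', w a * ch (((a : ZMod p) - (a₀ : ZMod p)) * θ) := by
    intro θ
    rw [Finset.sum_mul]
    refine Finset.sum_congr rfl fun a _ => ?_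
    rw [mul_assoc, ← ch_add]
    congr 2
    ring
  rw [Finset.sum_congr rfl fun θ _ => h1 θ, Finset.sum_comm]
  rw [Finset.sum_eq_single a₀]
  · rw [← Finset.mul_sum, sum_ch, if_pos (sub_self _), mul_comm]
  · intro b hb hne
    rw [← Finset.mul_sum, sum_ch, if_neg, mul_zero]
    intro h
    exact hne (hinj hb ha₀ (sub_eq_zero.1 h))
  · intro h
    exact absurd ha₀ h

private theorem Transfer_lower {A' : Finset ℤ} {K : ℕ}
    (hinj : Set.InjOn (Int.cast : ℤ → ZMod p) A') (hne : A'.Nonempty) (t : Fin K → ZMod p) {L : ℝ}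
    (hL : ∀ θ : ZMod p, ‖∑ a ∈ A', wt t (a : ZMod p) * ch ((a : ZMod p) * θ)‖ ≤ L) :
    (3 / 4 : ℝ) ^ K ≤ L := by
  obtain ⟨a₀, ha₀⟩ := hne
  have h1 := Transfer_coef (p := p) hinj ha₀ (fun a => wt t (a : ZMod p))
  have hp : (0 : ℝ) < p := p_pos
  have h2 : (p : ℝ) * ‖wt t (a₀ : ZMod p)‖ ≤ p * L := by
    have h3 : ‖(p : ℂ) * wt t (a₀ : ZMod p)‖ = (p : ℝ) * ‖wt t (a₀ : ZMod p)‖ := by
      rw [norm_mul, Complex.norm_natCast]
    rw [← h3, ← h1]
    refine (norm_sum_le _ _).trans ?_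
    have h4 : ∀ θ ∈ (Finset.univ : Finset (ZMod p)),
        ‖(∑ a ∈ A', wt t (a : ZMod p) * ch ((a : ZMod p) * θ)) * ch (-(a₀ : ZMod p) * θ)‖ ≤ L := by
      intro θ _
      rw [norm_mul, norm_ch, mul_one]
      exact hL θ
    refine (Finset.sum_le_sum h4).trans ?_
    rw [Finset.sum_const, nsmul_eq_mul, Finset.card_univ, ZMod.card]
  exact (norm_wt_ge t (a₀ : ZMod p)).trans (le_of_mul_le_mul_left h2 hp)

private theorem Transfer_ch (n y : ℤ) :
    ch ((n : ZMod p) * (y : ZMod p)) = e (n * ((y : ℝ) / p)) := by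
  unfold ch
  rw [← Int.cast_mul, ZMod.stdAddChar_coe]
  unfold e
  congr 1
  push_cast
  ring

private theorem Transfer_e (x y : ℝ) : ‖e x - e y‖ ≤ 2 * Real.pi * |x - y| := by
  have h1 : e x - e y = e y * (Complex.exp (Complex.I * ((2 * Real.pi * (x - y) : ℝ) : ℂ)) - 1) := by
    unfold e
    rw [mul_sub, ← Complex.exp_add, mul_one]
    congr 2
    push_cast
    ring
  have h2 : ‖e y‖ = 1 := by
    unfold e
    rw [show (2 * (Real.pi : ℂ) * y * Complex.I) = ((2 * Real.pi * y : ℝ) : ℂ) * Complex.I by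
      push_cast; ring]
    exact Complex.norm_exp_ofReal_mul_I _
  rw [h1, norm_mul, h2, one_mul]
  refine (Real.norm_exp_I_mul_ofReal_sub_one_le).trans ?_
  rw [Real.norm_eq_abs, abs_mul, abs_of_pos (by positivity : (0 : ℝ) < 2 * Real.pi)]

theorem transfer (A : Finset ℤ) (K : ℕ) : ∃ p₀ : ℕ, ∀ (p : ℕ) [Fact p.Prime], p₀ ≤ p →
    ∀ A' ⊆ A, A'.Nonempty → ∀ (t : Fin K → ZMod p) (L : ℝ),
      (∀ θ : ZMod p, ‖∑ a ∈ A', wt t (a : ZMod p) * ch ((a : ZMod p) * θ)‖ ≤ L) →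
      ∀ θ : ℝ, ‖∑ a ∈ A', wt t (a : ZMod p) * e (a * θ)‖ ≤ 2 * L := by
  obtain ⟨m, hm⟩ := exists_nat_ge (7 * (5 / 3 : ℝ) ^ K * ∑ a ∈ A, |(a : ℝ)|)
  refine ⟨m + 2 * (∑ a ∈ A, |a|).toNat + 1, ?_⟩
  intro p _ hp A' hA' hne t L hL θ
  have hS0 : 0 ≤ ∑ a ∈ A, |a| := Finset.sum_nonneg fun _ _ => abs_nonneg _
  have hpp : (0 : ℝ) < p := p_pos
  have h2S : 2 * ∑ a ∈ A, |a| < p := by
    have h := Int.toNat_of_nonneg hS0
    have : ((m + 2 * (∑ a ∈ A, |a|).toNat + 1 : ℕ) : ℤ) ≤ (p : ℤ) := by exact_mod_cast hp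
    push_cast at this
    rw [h] at this
    have hm0 : (0 : ℤ) ≤ m := Int.natCast_nonneg m
    linarith
  have hmp : (m : ℝ) ≤ p := by
    have : m ≤ p := by omega
    exact_mod_cast this
  have hinj : Set.InjOn (Int.cast : ℤ → ZMod p) A' :=
    (cast_injOn A p h2S).mono (Finset.coe_subset.2 hA')
  have hlow := Transfer_lower hinj hne t hL
  set y : ℤ := ⌊(p : ℝ) * θ⌋ with hy
  have hyθ : |θ - (y : ℝ) / p| ≤ 1 / p := by
    have h1 := Int.floor_le ((p : ℝ) * θ)
    have h2 := Int.lt_floor_add_one ((p : ℝ) * θ)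
    rw [← hy] at h1 h2
    rw [show θ - (y : ℝ) / p = ((p : ℝ) * θ - y) / p by field_simp, abs_div, abs_of_pos hpp]
    refine div_le_div_of_nonneg_right ?_ hpp.le
    rw [abs_le]
    constructor <;> linarith
  have hgrid := hL (y : ZMod p)
  have hdiff : ‖∑ a ∈ A', wt t (a : ZMod p) * e (a * θ) -
      ∑ a ∈ A', wt t (a : ZMod p) * ch ((a : ZMod p) * (y : ZMod p))‖ ≤ (3 / 4 : ℝ) ^ K := by
    rw [← Finset.sum_sub_distrib]
    have h1 : ∀ a ∈ A', ‖wt t (a : ZMod p) * e (a * θ) -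
        wt t (a : ZMod p) * ch ((a : ZMod p) * (y : ZMod p))‖ ≤
        (5 / 4 : ℝ) ^ K * (7 * |(a : ℝ)| / p) := by
      intro a _
      rw [← mul_sub, norm_mul, Transfer_ch]
      refine mul_le_mul (norm_wt_le t _) ?_ (norm_nonneg _) (by positivity)
      refine (Transfer_e _ _).trans ?_
      rw [← mul_sub, abs_mul]
      have hpi : 2 * Real.pi ≤ 7 := by
        have := Real.pi_lt_d2
        linarith
      calc 2 * Real.pi * (|(a : ℝ)| * |θ - (y : ℝ) / p|) ≤ 7 * (|(a : ℝ)| * (1 / p)) := by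
            refine mul_le_mul hpi ?_ (by positivity) (by norm_num)
            exact mul_le_mul_of_nonneg_left hyθ (abs_nonneg _)
        _ = 7 * |(a : ℝ)| / p := by ring
    refine (norm_sum_le _ _).trans ((Finset.sum_le_sum h1).trans ?_)
    have h2 : ∑ a ∈ A', (5 / 4 : ℝ) ^ K * (7 * |(a : ℝ)| / p) ≤
        ∑ a ∈ A, (5 / 4 : ℝ) ^ K * (7 * |(a : ℝ)| / p) :=
      Finset.sum_le_sum_of_subset_of_nonneg hA' fun _ _ _ => by positivity
    refine h2.trans ?_
    have h3 : ∑ a ∈ A, (5 / 4 : ℝ) ^ K * (7 * |(a : ℝ)| / p) =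
        (5 / 4 : ℝ) ^ K * 7 * (∑ a ∈ A, |(a : ℝ)|) / p := by
      rw [Finset.mul_sum, Finset.sum_div]
      refine Finset.sum_congr rfl fun a _ => ?_
      ring
    rw [h3, div_le_iff₀ hpp]
    have h4 : (5 / 4 : ℝ) ^ K = (3 / 4 : ℝ) ^ K * (5 / 3 : ℝ) ^ K := by
      rw [← mul_pow]
      norm_num
    calc (5 / 4 : ℝ) ^ K * 7 * ∑ a ∈ A, |(a : ℝ)|
        = (3 / 4 : ℝ) ^ K * (7 * (5 / 3 : ℝ) ^ K * ∑ a ∈ A, |(a : ℝ)|) := by rw [h4]; ring
      _ ≤ (3 / 4 : ℝ) ^ K * p :=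
          mul_le_mul_of_nonneg_left (hm.trans hmp) (by positivity)
  have h := norm_sub_norm_le (∑ a ∈ A', wt t (a : ZMod p) * e (a * θ))
    (∑ a ∈ A', wt t (a : ZMod p) * ch ((a : ZMod p) * (y : ZMod p)))
  linarith

end Pool.Agent.Lib.MP_6d8312_an.KD
end
end

section

/-!
# Greedy choice of levels

Induction on `s` with the stronger invariant
`∑_{k<s} n k/2^k + R (∑_{j∈K} n j) 2/2^s ≤ (1+R) ∑_{j∈K} n j/2^j`.
Step `s → s+1`: if `0 < n s` and `R ∑_{j∈K} n j ≤ n s`, add `s` to `K` (`K.filter (· < s) = K`); the left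
side changes by `n s/2^s + R n s/2^s - R (∑_K n j)/2^s`, the right side by `(1+R) n s/2^s`.  Otherwise
`n s ≤ R ∑_K n j` (or `n s = 0`) and the left side changes by `n s/2^s - R(∑_K n j)/2^s ≤ 0`.  For old
`k ∈ K`, `(K ∪ {s}).filter (· < k) = K.filter (· < k)`.
-/

set_option autoImplicit false

noncomputable section

namespace Pool.Agent.Lib.MP_6d8312_an.KD

open Finset

private theorem Greedy_aux (s : ℕ) (n : ℕ → ℝ) (hn : ∀ k, 0 ≤ n k) {R : ℝ} (hR : 0 ≤ R) :
    ∃ K ⊆ range s, (∀ k ∈ K, 0 < n k ∧ R * ∑ j ∈ K.filter (· < k), n j ≤ n k) ∧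
      ∑ k ∈ range s, n k / 2 ^ k + R * (∑ k ∈ K, n k) * 2 / 2 ^ s
        ≤ (1 + R) * ∑ k ∈ K, n k / 2 ^ k := by
  induction s with
  | zero => exact ⟨∅, by simp, by simp, by simp⟩
  | succ s ih =>
    obtain ⟨K, hK, h1, h2⟩ := ih
    have hs : s ∉ K := fun h => by simpa using hK h
    have hp : (0 : ℝ) < 2 ^ s := by positivity
    have hS : 0 ≤ ∑ k ∈ K, n k := sum_nonneg fun k _ => hn k
    have hRS : 0 ≤ R * (∑ k ∈ K, n k) / 2 ^ s := by positivity
    have hexp : ∀ x : ℝ, x * 2 / 2 ^ (s + 1) = x / 2 ^ s := by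
      intro x
      rw [pow_succ]
      field_simp
    have hexp2 : ∀ x : ℝ, x * 2 / 2 ^ s = 2 * (x / 2 ^ s) := by
      intro x
      ring
    by_cases hc : 0 < n s ∧ R * ∑ j ∈ K, n j ≤ n s
    · refine ⟨insert s K, ?_, ?_, ?_⟩
      · intro x hx
        rw [mem_insert] at hx
        rcases hx with rfl | hx
        · simp
        · have := hK hx
          rw [mem_range] at this ⊢
          omega
      · intro k hk
        rw [mem_insert] at hk
        rcases hk with rfl | hk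
        · have hf : (insert k K).filter (· < k) = K := by
            ext x
            simp only [mem_filter, mem_insert]
            constructor
            · rintro ⟨rfl | h, h'⟩
              · exact absurd h' (lt_irrefl _)
              · exact h
            · intro h
              have := hK h
              rw [mem_range] at this
              exact ⟨Or.inr h, this⟩
          rw [hf]
          exact hc
        · have hks : k < s := by
            have := hK hk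
            rwa [mem_range] at this
          have hf : (insert s K).filter (· < k) = K.filter (· < k) := by
            ext x
            simp only [mem_filter, mem_insert]
            constructor
            · rintro ⟨rfl | h, h'⟩
              · omega
              · exact ⟨h, h'⟩
            · rintro ⟨h, h'⟩
              exact ⟨Or.inr h, h'⟩
          rw [hf]
          exact h1 k hk
      · rw [sum_range_succ, sum_insert hs, sum_insert hs, hexp]
        rw [hexp2] at h2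
        have e1 : R * (n s + ∑ k ∈ K, n k) / 2 ^ s
            = R * (n s / 2 ^ s) + R * (∑ k ∈ K, n k) / 2 ^ s := by ring
        rw [e1]
        nlinarith [h2, hRS]
    · have hle : n s ≤ R * ∑ j ∈ K, n j := by
        by_cases h0 : 0 < n s
        · by_contra hcon
          exact hc ⟨h0, le_of_not_ge hcon⟩
        · have : n s ≤ 0 := le_of_not_gt h0
          have h3 : 0 ≤ R * ∑ j ∈ K, n j := mul_nonneg hR hS
          linarith
      refine ⟨K, hK.trans ?_, h1, ?_⟩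
      · intro x hx
        rw [mem_range] at hx ⊢
        omega
      · rw [sum_range_succ, hexp]
        rw [hexp2] at h2
        have : n s / 2 ^ s ≤ R * (∑ k ∈ K, n k) / 2 ^ s := by
          gcongr
        linarith

theorem greedy (s : ℕ) (n : ℕ → ℝ) (hn : ∀ k, 0 ≤ n k) {R : ℝ} (hR : 0 ≤ R) :
    ∃ K ⊆ range s, (∀ k ∈ K, 0 < n k ∧ R * ∑ j ∈ K.filter (· < k), n j ≤ n k) ∧
      ∑ k ∈ range s, n k / 2 ^ k ≤ (1 + R) * ∑ k ∈ K, n k / 2 ^ k := by
  obtain ⟨K, hK, h1, h2⟩ := Greedy_aux s n hn hR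
  refine ⟨K, hK, h1, ?_⟩
  have hS : 0 ≤ ∑ k ∈ K, n k := sum_nonneg fun k _ => hn k
  have : 0 ≤ R * (∑ k ∈ K, n k) * 2 / 2 ^ s := by positivity
  linarith

end Pool.Agent.Lib.MP_6d8312_an.KD
end
end

section

/-!
# McDiarmid's inequality on the cube

`mcd_mgf`: induction on `Q`: for `insert a Q` (`a ∉ Q`) put `f₁ S = f (insert a S)`,
`g = (f + f₁)/2`; `bern (1/2) (insert a Q) F = (1/2) bern Q F + (1/2) bern Q (F ∘ insert a)`
(`bern_insert`), so `bern f = bern Q g` and the left side is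
`bern Q (exp (s (g - E g)) cosh (s (f₁ - f)/2)) ≤ exp (s² c²/8) bern Q (exp (s (g - E g)))`
(`Real.cosh_le_exp_half_sq`, `|f₁ - f| ≤ c`), and `g` satisfies the hypothesis on `Q`.
`mcd_lower`: Markov: `1[f ≤ E - t] ≤ exp (-s (f - E)) exp(-s t)` with `s = 4t/(|Q| c²) ≥ 0`:
`exp(-st + s² c² |Q|/8) = exp (-2t²/(|Q|c²))`; if `Q = ∅` or `c = 0` the right side is `exp 0 = 1`.
`mcd_upper`: the same for `-f`.
-/

set_option autoImplicit false

noncomputable section

namespace Pool.Agent.Lib.MP_6d8312_an.KD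

open Finset

variable {α : Type*} [DecidableEq α]

theorem mcd_mgf (Q : Finset α) (f : Finset α → ℝ) {c : ℝ} (hc : 0 ≤ c)
    (h : ∀ a ∈ Q, ∀ S ⊆ Q, |f (insert a S) - f S| ≤ c) (s : ℝ) :
    bern (1 / 2) Q (fun S => Real.exp (s * (f S - bern (1 / 2) Q f))) ≤
      Real.exp (s ^ 2 * c ^ 2 * Q.card / 8) := by
  induction Q using Finset.induction_on generalizing f with
  | empty =>
    rw [bern_empty, bern_empty]
    simp
  | insert a Q ha ih =>
    obtain ⟨g, hg⟩ : ∃ g : Finset α → ℝ, g = fun S => (f S + f (insert a S)) / 2 := ⟨_, rfl⟩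
    obtain ⟨E, hE⟩ : ∃ E : ℝ, E = bern (1 / 2) (insert a Q) f := ⟨_, rfl⟩
    have hEg : bern (1 / 2) Q g = E := by
      rw [hE, bern_insert _ ha, hg]
      have h1 : (fun S => (f S + f (insert a S)) / 2) =
          fun S => (1 / 2 : ℝ) * f S + (1 / 2 : ℝ) * f (insert a S) := by
        funext S
        ring
      rw [h1, bern_add, bern_mul_left, bern_mul_left]
      ring
    have hgc : ∀ b ∈ Q, ∀ S ⊆ Q, |g (insert b S) - g S| ≤ c := by
      intro b hb S hS
      have h1 := abs_le.1 (h b (Finset.mem_insert_of_mem hb) S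
        (hS.trans (Finset.subset_insert a Q)))
      have h2 := abs_le.1 (h b (Finset.mem_insert_of_mem hb) (insert a S)
        (Finset.insert_subset_insert a hS))
      rw [Finset.insert_comm] at h2
      rw [hg]
      simp only
      rw [abs_le]
      constructor <;> linarith [h1.1, h1.2, h2.1, h2.2]
    have h3 := ih g hgc
    rw [hEg] at h3
    rw [← hE, bern_insert _ ha]
    have h4 : (1 - 1 / 2) * bern (1 / 2) Q (fun S => Real.exp (s * (f S - E))) +
        1 / 2 * bern (1 / 2) Q (fun S => Real.exp (s * (f (insert a S) - E))) ≤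
        Real.exp (s ^ 2 * c ^ 2 / 8) * bern (1 / 2) Q (fun S => Real.exp (s * (g S - E))) := by
      rw [← bern_mul_left, ← bern_mul_left, ← bern_mul_left, ← bern_add]
      refine bern_mono (by norm_num) (by norm_num) fun S hS => ?_
      have h5 : (1 - 1 / 2) * Real.exp (s * (f S - E)) +
          1 / 2 * Real.exp (s * (f (insert a S) - E)) =
          Real.exp (s * (g S - E)) * Real.cosh (s * (f (insert a S) - f S) / 2) := by
        rw [Real.cosh_eq, hg]
        simp only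
        have e1 : Real.exp (s * (f (insert a S) - E)) =
            Real.exp (s * ((f S + f (insert a S)) / 2 - E)) *
              Real.exp (s * (f (insert a S) - f S) / 2) := by
          rw [← Real.exp_add]
          congr 1
          ring
        have e2 : Real.exp (s * (f S - E)) =
            Real.exp (s * ((f S + f (insert a S)) / 2 - E)) *
              Real.exp (-(s * (f (insert a S) - f S) / 2)) := by
          rw [← Real.exp_add]
          congr 1
          ring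
        rw [e1, e2]
        ring
      rw [h5, mul_comm]
      refine mul_le_mul_of_nonneg_right ?_ (Real.exp_pos _).le
      refine (Real.cosh_le_exp_half_sq _).trans (Real.exp_le_exp.2 ?_)
      have h6 := h a (Finset.mem_insert_self a Q) S (hS.trans (Finset.subset_insert a Q))
      have h7 : (f (insert a S) - f S) ^ 2 ≤ c ^ 2 := by
        rw [← sq_abs]
        exact pow_le_pow_left₀ (abs_nonneg _) h6 2
      nlinarith [mul_le_mul_of_nonneg_left h7 (sq_nonneg s)]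
    refine h4.trans ((mul_le_mul_of_nonneg_left h3 (Real.exp_pos _).le).trans ?_)
    rw [← Real.exp_add, Finset.card_insert_of_notMem ha]
    refine Real.exp_le_exp.2 (le_of_eq ?_)
    push_cast
    ring

open Classical in
theorem mcd_lower (Q : Finset α) (f : Finset α → ℝ) {c : ℝ} (hc : 0 ≤ c)
    (h : ∀ a ∈ Q, ∀ S ⊆ Q, |f (insert a S) - f S| ≤ c) {t : ℝ} (ht : 0 ≤ t) :
    bern (1 / 2) Q (fun S => if f S ≤ bern (1 / 2) Q f - t then 1 else 0) ≤
      Real.exp (-2 * t ^ 2 / (Q.card * c ^ 2)) := by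
  obtain ⟨E, hE⟩ : ∃ E : ℝ, E = bern (1 / 2) Q f := ⟨_, rfl⟩
  obtain ⟨D, hD⟩ : ∃ D : ℝ, D = (Q.card : ℝ) * c ^ 2 := ⟨_, rfl⟩
  have hD0 : 0 ≤ D := by
    rw [hD]
    positivity
  rw [← hE, ← hD]
  rcases hD0.eq_or_lt with h0 | h0
  · rw [← h0, div_zero, Real.exp_zero]
    have h1 : bern (1 / 2) Q (fun S => if f S ≤ E - t then (1 : ℝ) else 0) ≤
        bern (1 / 2) Q (fun _ => (1 : ℝ)) := by
      refine bern_mono (by norm_num) (by norm_num) fun S _ => ?_
      split_ifs <;> norm_num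
    rwa [bern_const] at h1
  · obtain ⟨s, hs⟩ : ∃ s : ℝ, s = 4 * t / D := ⟨_, rfl⟩
    have hs0 : 0 ≤ s := by
      rw [hs]
      positivity
    have h1 : bern (1 / 2) Q (fun S => if f S ≤ E - t then (1 : ℝ) else 0) ≤
        bern (1 / 2) Q (fun S => Real.exp (-(s * t)) * Real.exp (-s * (f S - E))) := by
      refine bern_mono (by norm_num) (by norm_num) fun S _ => ?_
      rw [← Real.exp_add]
      split_ifs with h2
      · rw [← Real.exp_zero]
        refine Real.exp_le_exp.2 ?_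
        nlinarith [mul_le_mul_of_nonneg_left h2 hs0]
      · exact (Real.exp_pos _).le
    rw [bern_mul_left] at h1
    have h3 := mcd_mgf Q f hc h (-s)
    rw [← hE] at h3
    refine h1.trans ((mul_le_mul_of_nonneg_left h3 (Real.exp_pos _).le).trans ?_)
    rw [← Real.exp_add]
    refine Real.exp_le_exp.2 (le_of_eq ?_)
    have h4 : (-s) ^ 2 * c ^ 2 * (Q.card : ℝ) / 8 = s ^ 2 * D / 8 := by
      rw [hD]
      ring
    rw [h4, hs]
    field_simp
    ring

open Classical in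
theorem mcd_upper (Q : Finset α) (f : Finset α → ℝ) {c : ℝ} (hc : 0 ≤ c)
    (h : ∀ a ∈ Q, ∀ S ⊆ Q, |f (insert a S) - f S| ≤ c) {t : ℝ} (ht : 0 ≤ t) :
    bern (1 / 2) Q (fun S => if bern (1 / 2) Q f + t ≤ f S then 1 else 0) ≤
      Real.exp (-2 * t ^ 2 / (Q.card * c ^ 2)) := by
  have h1 : ∀ a ∈ Q, ∀ S ⊆ Q, |(fun S => -f S) (insert a S) - (fun S => -f S) S| ≤ c := by
    intro a ha S hS
    have h2 : (fun S => -f S) (insert a S) - (fun S => -f S) S = -(f (insert a S) - f S) := by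
      simp only
      ring
    rw [h2, abs_neg]
    exact h a ha S hS
  have h3 := mcd_lower Q (fun S => -f S) hc h1 ht
  have h4 : bern (1 / 2) Q (fun S => -f S) = -bern (1 / 2) Q f := by
    have h5 := bern_mul_left (1 / 2) Q (-1) f
    simpa using h5
  rw [h4] at h3
  refine le_trans (le_of_eq (bern_congr fun S _ => ?_)) h3
  by_cases h6 : bern (1 / 2) Q f + t ≤ f S
  · rw [if_pos h6, if_pos (by linarith)]
  · rw [if_neg h6, if_neg]
    intro h7
    exact h6 (by linarith)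

end Pool.Agent.Lib.MP_6d8312_an.KD
end
end

section

/-!
# The sum of the squares is large on most of `U`

`N = |Q| ≥ 4·10⁷`.  `Re(w)² = (|w|² + Re (w²))/2`, so `SQ = (1/2) ∑ |z_a|² + (1/2) ∑ Re (z_a² ch(a (2θ))) ≥
N/8 + (1/2) ∑ Re(z_a² ch(a·(2θ)))` (`|z_a| ≥ 1/2`).  `SQ < N/16` implies `∑ Re (-z_a² ch(a(2θ))) ≥ N/8`; by
`subg_dil` with `c = 2 ≠ 0` this has measure `≤ exp (-(N/8)²/(2N)) = exp (-N/128)`.  And
`exp (-N/128) ≤ (1/2) exp (-N/10⁷) ≤ (1/2) mu U`.
-/

set_option autoImplicit false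

noncomputable section

namespace Pool.Agent.Lib.MP_6d8312_an.KD

open Finset

variable {p : ℕ} [Fact p.Prime]

private theorem SumSq_re (w : ℂ) : w.re ^ 2 = (‖w‖ ^ 2 + (w ^ 2).re) / 2 := by
  rw [← Complex.normSq_eq_norm_sq, Complex.normSq_apply, sq w, Complex.mul_re]
  ring

private theorem SumSq_ch (a θ : ZMod p) : ch (a * θ) ^ 2 = ch (a * (2 * θ)) := by
  rw [sq, ← ch_add]
  congr 1
  ring

private theorem SumSq_term (z : ℂ) (hz : 1 / 2 ≤ ‖z‖) (a θ : ZMod p) :
    1 / 8 - (-z ^ 2 * ch (a * (2 * θ))).re / 2 ≤ (z * ch (a * θ)).re ^ 2 := by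
  rw [SumSq_re, mul_pow, SumSq_ch, norm_mul, norm_ch, mul_one, neg_mul, Complex.neg_re]
  nlinarith

theorem sumSq (hp : p ≠ 2) (Q : Finset (ZMod p)) (hQ : QI Q) (z : ZMod p → ℂ)
    (hz : ∀ a ∈ Q, 1 / 2 ≤ ‖z a‖ ∧ ‖z a‖ ≤ 1) (hN : 4 * 10 ^ 7 ≤ Q.card) (U : Set (ZMod p))
    (hU : Real.exp (-(Q.card : ℝ) / 10 ^ 7) ≤ mu U) :
    mu U / 2 ≤ mu {θ ∈ U | (Q.card : ℝ) / 16 ≤ SQ Q z θ} := by
  have hNR : (4 * 10 ^ 7 : ℝ) ≤ (Q.card : ℝ) := by exact_mod_cast hN
  have hN0 : (0 : ℝ) < (Q.card : ℝ) := by linarith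
  have h2 : (2 : ZMod p) ≠ 0 := by
    intro h
    have h3 : ((2 : ℕ) : ZMod p) = 0 := by exact_mod_cast h
    rw [ZMod.natCast_eq_zero_iff] at h3
    exact hp ((Nat.prime_dvd_prime_iff_eq (Fact.out : p.Prime) Nat.prime_two).mp h3)
  have h1 := subg_dil Q hQ (fun a => -z a ^ 2) (fun b hb => by
    rw [norm_neg, norm_pow]
    exact pow_le_one₀ (norm_nonneg _) (hz b hb).2) 2 h2 ((Q.card : ℝ) / 8) (by positivity)
  have hsub : U ⊆ {θ ∈ U | (Q.card : ℝ) / 16 ≤ SQ Q z θ} ∪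
      {t | (Q.card : ℝ) / 8 ≤ ∑ b ∈ Q, (-z b ^ 2 * ch (b * (2 * t))).re} := by
    intro θ hθ
    by_cases h : (Q.card : ℝ) / 16 ≤ SQ Q z θ
    · exact Or.inl ⟨hθ, h⟩
    · right
      push Not at h
      have h3 : ∑ a ∈ Q, ((1 : ℝ) / 8 - (-z a ^ 2 * ch (a * (2 * θ))).re / 2) ≤ SQ Q z θ := by
        unfold SQ
        exact Finset.sum_le_sum fun a ha => SumSq_term (z a) (hz a ha).1 a θ
      rw [Finset.sum_sub_distrib, Finset.sum_const, nsmul_eq_mul, ← Finset.sum_div] at h3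
      show (Q.card : ℝ) / 8 ≤ ∑ b ∈ Q, (-z b ^ 2 * ch (b * (2 * θ))).re
      linarith
  have h4 := (mu_mono hsub).trans (mu_union_le _ _)
  have h5 : Real.exp (-((Q.card : ℝ) / 8) ^ 2 / (2 * (Q.card : ℝ))) ≤ mu U / 2 := by
    have h6 : -((Q.card : ℝ) / 8) ^ 2 / (2 * (Q.card : ℝ)) ≤ -1 + -(Q.card : ℝ) / 10 ^ 7 := by
      have h7 : -((Q.card : ℝ) / 8) ^ 2 / (2 * (Q.card : ℝ)) = -(Q.card : ℝ) / 128 := by
        field_simp
        ring
      rw [h7]
      linarith
    have h8 : Real.exp (-1) ≤ 1 / 2 := by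
      have h9 := Real.add_one_le_exp (1 : ℝ)
      rw [Real.exp_neg, one_div]
      exact inv_anti₀ (by norm_num) (by linarith)
    calc Real.exp (-((Q.card : ℝ) / 8) ^ 2 / (2 * (Q.card : ℝ)))
        ≤ Real.exp (-1 + -(Q.card : ℝ) / 10 ^ 7) := Real.exp_le_exp.mpr h6
      _ = Real.exp (-1) * Real.exp (-(Q.card : ℝ) / 10 ^ 7) := Real.exp_add _ _
      _ ≤ 1 / 2 * mu U := mul_le_mul h8 hU (Real.exp_pos _).le (by norm_num)
      _ = mu U / 2 := by ring
  linarith

end Pool.Agent.Lib.MP_6d8312_an.KD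
end
end

section

/-!
# Rider's theorem, part B: the value of the functional

`a ∈ A`, `a ≠ 0`, `‖u b‖ ≤ 1`, `0 ≤ δ ≤ 1`, `P B = ‖∑_S wal B S M S a‖²/4^|A| ≥ 0`; `P {a} = 1` by `h1` (`∑_S sg S a
M S a = 2^|A|`).  In `Lam_eq` for `γ = a`: `B = ∅`: `∑_τ ch(aτ) = 0`.  `B = {b}`:
`(1/p) ∑_τ Re (u ch(bτ)) ch(aτ) = (1/2)(u_b [b = -a] + conj u_b [b = a])` (`a ≠ -a` for `p ≠ 2`).  `|B| ≥ 2`:
the `τ`-average has norm `≤ 1`, so these terms have total norm `≤ δ² ∑_B P B ≤ δ² C²` (`walsh_bessel`: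
`∑_B P B = 2^{-|A|} ∑_S ‖M S a‖² ≤ C²`).  So with
`q = if -a ∈ A then P {-a} else 0`: `‖Lam a - (δ/2)(conj (u a) + q u(-a))‖ ≤ δ² C²`.
-/

set_option autoImplicit false

noncomputable section

namespace Pool.Agent.Lib.MP_6d8312_an.KD

open Finset

variable {p : ℕ} [Fact p.Prime]

omit [Fact p.Prime] in
theorem RiderB_split (A : Finset (ZMod p)) (f : Finset (ZMod p) → ℂ) :
    ∑ B ∈ A.powerset, f B = f ∅ + ∑ b ∈ A, f {b} +
      ∑ B ∈ A.powerset.filter (fun B => 2 ≤ B.card), f B := by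
  rw [← Finset.sum_filter_add_sum_filter_not A.powerset (fun B => 2 ≤ B.card)]
  have h1 : A.powerset.filter (fun B => ¬ 2 ≤ B.card) =
      insert ∅ (A.image (fun b => ({b} : Finset (ZMod p)))) := by
    ext B
    rw [Finset.mem_filter, Finset.mem_powerset, Finset.mem_insert, Finset.mem_image]
    constructor
    · rintro ⟨h2, h3⟩
      have h4 : B.card = 0 ∨ B.card = 1 := by omega
      rcases h4 with h4 | h4
      · exact Or.inl (Finset.card_eq_zero.1 h4)
      · obtain ⟨b, rfl⟩ := Finset.card_eq_one.1 h4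
        exact Or.inr ⟨b, h2 (Finset.mem_singleton_self b), rfl⟩
    · rintro (rfl | ⟨b, hb, rfl⟩)
      · simp
      · simpa using hb
  rw [h1, Finset.sum_insert (by simp), Finset.sum_image (by
    intro x _ y _ hxy
    exact Finset.singleton_injective hxy)]
  ring

theorem RiderB_T (a b : ZMod p) (z : ℂ) :
    (∑ τ, (((z * ch (b * τ)).re : ℝ) : ℂ) * ch (a * τ)) / p =
      1 / 2 * ((if b = -a then z else 0) + if b = a then (starRingEnd ℂ) z else 0) := by
  have hp0 : (p : ℂ) ≠ 0 := by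
    exact_mod_cast (Fact.out : p.Prime).pos.ne'
  have h1 : ∀ τ : ZMod p, (((z * ch (b * τ)).re : ℝ) : ℂ) * ch (a * τ) =
      1 / 2 * (z * ch ((a + b) * τ) + (starRingEnd ℂ) z * ch ((a - b) * τ)) := by
    intro τ
    rw [Complex.re_eq_add_conj, map_mul, ← ch_neg, show (a + b) * τ = a * τ + b * τ by ring,
      show (a - b) * τ = a * τ + -(b * τ) by ring, ch_add, ch_add]
    ring
  rw [Finset.sum_congr rfl fun τ _ => h1 τ, ← Finset.mul_sum, Finset.sum_add_distrib,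
    ← Finset.mul_sum, ← Finset.mul_sum, sum_ch, sum_ch]
  have h2 : (a + b = 0) ↔ (b = -a) := by
    rw [add_comm, ← eq_neg_iff_add_eq_zero]
  have h3 : (a - b = 0) ↔ (b = a) := by
    rw [sub_eq_zero, eq_comm]
  by_cases h4 : b = -a
  · by_cases h5 : b = a
    · rw [if_pos (h2.2 h4), if_pos (h3.2 h5), if_pos h4, if_pos h5]
      field_simp
    · rw [if_pos (h2.2 h4), if_neg (fun h => h5 (h3.1 h)), if_pos h4, if_neg h5]
      field_simp
      ring
  · by_cases h5 : b = a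
    · rw [if_neg (fun h => h4 (h2.1 h)), if_pos (h3.2 h5), if_neg h4, if_pos h5]
      field_simp
      ring
    · rw [if_neg (fun h => h4 (h2.1 h)), if_neg (fun h => h5 (h3.1 h)), if_neg h4, if_neg h5]
      simp

theorem RiderB_Tle (A B : Finset (ZMod p)) (hB : B ⊆ A) (u : ZMod p → ℂ)
    (hu : ∀ b ∈ A, ‖u b‖ ≤ 1) (a : ZMod p) :
    ‖(∑ τ, ((∏ b ∈ B, (u b * ch (b * τ)).re : ℝ) : ℂ) * ch (a * τ)) / p‖ ≤ 1 := by
  have hp0 : (0 : ℝ) < p := by
    exact_mod_cast (Fact.out : p.Prime).pos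
  rw [norm_div, Complex.norm_natCast, div_le_one hp0]
  refine (norm_sum_le _ _).trans ?_
  have h1 : ∀ τ : ZMod p, ‖((∏ b ∈ B, (u b * ch (b * τ)).re : ℝ) : ℂ) * ch (a * τ)‖ ≤ 1 := by
    intro τ
    rw [norm_mul, norm_ch, mul_one, Complex.norm_real, Real.norm_eq_abs, Finset.abs_prod]
    exact Finset.prod_le_one (fun b _ => abs_nonneg _) fun b hb =>
      abs_re_ch_le (u b) (hu b (hB hb)) (b * τ)
  refine (Finset.sum_le_sum fun τ _ => h1 τ).trans ?_
  rw [Finset.sum_const, Finset.card_univ, ZMod.card, nsmul_eq_mul, mul_one]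

theorem Lam_value (hp : p ≠ 2) (A : Finset (ZMod p)) {δ C : ℝ} (h0 : 0 ≤ δ) (h1 : δ ≤ 1)
    (m : Finset (ZMod p) → ZMod p → ℂ)
    (hm : ∀ S ⊆ A, ∑ x, ‖m S x‖ ≤ C) {a : ZMod p} (ha : a ∈ A) (ha0 : a ≠ 0)
    (hma : ∑ S ∈ A.powerset, (sg S a : ℂ) * ∑ x, m S x * ch (a * x) = 2 ^ A.card) :
    ∃ q : ℂ, ∀ u : ZMod p → ℂ, (∀ b ∈ A, ‖u b‖ ≤ 1) →
      ‖Lam A δ u m a - (δ / 2 : ℂ) * ((starRingEnd ℂ) (u a) + q * u (-a))‖ ≤ δ ^ 2 * C ^ 2 := by
  classical
  have hC : 0 ≤ C := (Finset.sum_nonneg fun x _ => norm_nonneg _).trans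
    (hm ∅ (Finset.empty_subset A))
  let P : Finset (ZMod p) → ℝ := fun B =>
    ‖∑ S ∈ A.powerset, (wal B S : ℂ) * Mh m S a‖ ^ 2 / 4 ^ A.card
  have hP0 : ∀ B, 0 ≤ P B := fun B => by
    change 0 ≤ ‖∑ S ∈ A.powerset, (wal B S : ℂ) * Mh m S a‖ ^ 2 / 4 ^ A.card
    positivity
  have hPc : ∀ B, (((‖∑ S ∈ A.powerset, (wal B S : ℂ) * Mh m S a‖ ^ 2 : ℝ) : ℂ) /
      4 ^ A.card) = (P B : ℂ) := by
    intro B
    change _ = ((‖∑ S ∈ A.powerset, (wal B S : ℂ) * Mh m S a‖ ^ 2 / 4 ^ A.card : ℝ) : ℂ)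
    push_cast
    rfl
  have hPa : P {a} = 1 := by
    change ‖∑ S ∈ A.powerset, (wal {a} S : ℂ) * Mh m S a‖ ^ 2 / 4 ^ A.card = 1
    have h2 : ∑ S ∈ A.powerset, (wal {a} S : ℂ) * Mh m S a = 2 ^ A.card := by
      rw [← hma]
      refine Finset.sum_congr rfl fun S _ => ?_
      unfold wal Mh
      rw [Finset.prod_singleton]
    rw [h2, norm_pow, Complex.norm_ofNat, ← pow_mul, mul_comm, pow_mul]
    norm_num
  have hPsum : ∑ B ∈ A.powerset, P B ≤ C ^ 2 := by
    change ∑ B ∈ A.powerset, ‖∑ S ∈ A.powerset, (wal B S : ℂ) * Mh m S a‖ ^ 2 / 4 ^ A.card ≤ C ^ 2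
    rw [← Finset.sum_div, walsh_bessel, div_le_iff₀ (by positivity)]
    have h3 : ∑ S ∈ A.powerset, ‖Mh m S a‖ ^ 2 ≤ 2 ^ A.card * C ^ 2 := by
      have h4 : ∀ S ∈ A.powerset, ‖Mh m S a‖ ^ 2 ≤ C ^ 2 := by
        intro S hS
        have h5 : ‖Mh m S a‖ ≤ C := by
          refine le_trans ?_ (hm S (Finset.mem_powerset.1 hS))
          unfold Mh
          refine (norm_sum_le _ _).trans (Finset.sum_le_sum fun x _ => ?_)
          rw [norm_mul, norm_ch, mul_one]
        exact pow_le_pow_left₀ (norm_nonneg _) h5 2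
      refine (Finset.sum_le_sum h4).trans ?_
      rw [Finset.sum_const, Finset.card_powerset, nsmul_eq_mul]
      push_cast
      exact le_refl _
    calc 2 ^ A.card * ∑ S ∈ A.powerset, ‖Mh m S a‖ ^ 2
        ≤ 2 ^ A.card * (2 ^ A.card * C ^ 2) := mul_le_mul_of_nonneg_left h3 (by positivity)
      _ = C ^ 2 * 4 ^ A.card := by
        rw [show (4 : ℝ) = 2 * 2 by norm_num, mul_pow]
        ring
  refine ⟨if -a ∈ A then (P {-a} : ℂ) else 0, fun u hu => ?_⟩
  rw [Lam_eq]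
  simp only [hPc]
  rw [RiderB_split]
  have hempty : (δ : ℂ) ^ (∅ : Finset (ZMod p)).card *
      ((∑ τ, ((∏ b ∈ (∅ : Finset (ZMod p)), (u b * ch (b * τ)).re : ℝ) : ℂ) * ch (a * τ)) / p) *
      (P ∅ : ℂ) = 0 := by
    have h2 : ∑ τ : ZMod p, ((∏ b ∈ (∅ : Finset (ZMod p)), (u b * ch (b * τ)).re : ℝ) : ℂ) *
        ch (a * τ) = 0 := by
      rw [← sum_ch_of_ne ha0]
      refine Finset.sum_congr rfl fun τ _ => ?_
      rw [Finset.prod_empty, Complex.ofReal_one, one_mul]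
    rw [h2, zero_div, mul_zero, zero_mul]
  have hone : ∑ b ∈ A, ((δ : ℂ) ^ ({b} : Finset (ZMod p)).card *
      ((∑ τ, ((∏ b ∈ ({b} : Finset (ZMod p)), (u b * ch (b * τ)).re : ℝ) : ℂ) * ch (a * τ)) / p) *
      (P {b} : ℂ)) = (δ / 2 : ℂ) * ((starRingEnd ℂ) (u a) +
        (if -a ∈ A then (P {-a} : ℂ) else 0) * u (-a)) := by
    have h2 : ∀ b ∈ A, ((δ : ℂ) ^ ({b} : Finset (ZMod p)).card *
      ((∑ τ, ((∏ b ∈ ({b} : Finset (ZMod p)), (u b * ch (b * τ)).re : ℝ) : ℂ) * ch (a * τ)) / p) *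
      (P {b} : ℂ)) = (δ / 2 : ℂ) * ((if b = -a then (P {b} : ℂ) * u b else 0) +
        if b = a then (starRingEnd ℂ) (u b) * (P {b} : ℂ) else 0) := by
      intro b _
      simp only [Finset.prod_singleton, Finset.card_singleton, pow_one]
      rw [RiderB_T]
      by_cases h4 : b = -a
      · by_cases h5 : b = a
        · rw [if_pos h4, if_pos h4, if_pos h5, if_pos h5]
          ring
        · rw [if_pos h4, if_pos h4, if_neg h5, if_neg h5]
          ring
      · by_cases h5 : b = a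
        · rw [if_neg h4, if_neg h4, if_pos h5, if_pos h5]
          ring
        · rw [if_neg h4, if_neg h4, if_neg h5, if_neg h5]
          ring
    rw [Finset.sum_congr rfl h2, ← Finset.mul_sum, Finset.sum_add_distrib,
      Finset.sum_ite_eq' A (-a), Finset.sum_ite_eq' A a, if_pos ha, hPa, Complex.ofReal_one,
      mul_one]
    by_cases h6 : -a ∈ A
    · rw [if_pos h6, if_pos h6]
      ring
    · rw [if_neg h6, if_neg h6]
      ring
  rw [hempty, hone, zero_add, add_sub_cancel_left]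
  refine (norm_sum_le _ _).trans ?_
  calc ∑ B ∈ A.powerset.filter (fun B => 2 ≤ B.card), ‖(δ : ℂ) ^ B.card *
        ((∑ τ, ((∏ b ∈ B, (u b * ch (b * τ)).re : ℝ) : ℂ) * ch (a * τ)) / p) * (P B : ℂ)‖
      ≤ ∑ B ∈ A.powerset.filter (fun B => 2 ≤ B.card), δ ^ 2 * P B := by
        refine Finset.sum_le_sum fun B hB => ?_
        rw [Finset.mem_filter, Finset.mem_powerset] at hB
        rw [norm_mul, norm_mul, norm_pow, Complex.norm_real, Real.norm_of_nonneg h0,
          Complex.norm_real, Real.norm_of_nonneg (hP0 B)]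
        refine mul_le_mul_of_nonneg_right ?_ (hP0 B)
        calc δ ^ B.card * ‖(∑ τ, ((∏ b ∈ B, (u b * ch (b * τ)).re : ℝ) : ℂ) * ch (a * τ)) / p‖
            ≤ δ ^ 2 * 1 := mul_le_mul (pow_le_pow_of_le_one h0 h1 hB.2)
              (RiderB_Tle A B hB.1 u hu a) (norm_nonneg _) (by positivity)
          _ = δ ^ 2 := mul_one _
    _ ≤ ∑ B ∈ A.powerset, δ ^ 2 * P B :=
        Finset.sum_le_sum_of_subset_of_nonneg (Finset.filter_subset _ _)
          fun B _ _ => mul_nonneg (sq_nonneg _) (hP0 B)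
    _ = δ ^ 2 * ∑ B ∈ A.powerset, P B := by rw [Finset.mul_sum]
    _ ≤ δ ^ 2 * C ^ 2 := mul_le_mul_of_nonneg_left hPsum (sq_nonneg _)

end Pool.Agent.Lib.MP_6d8312_an.KD
end
end

section

/-! # From finite interpolation to null sequences -/

set_option autoImplicit false

noncomputable section

namespace Pool.Agent.Lib.MP_6d8312_an.Q

open MeasureTheory

private lemma sidonOf_norm_fc (f : UnitAddCircle → ℂ) (n : ℤ) :
    ‖fourierCoeff f n‖ ≤ ∫ t, ‖f t‖ ∂AddCircle.haarAddCircle := by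
  unfold fourierCoeff
  refine (norm_integral_le_integral_norm _).trans_eq ?_
  apply integral_congr_ae
  filter_upwards with t
  rw [norm_smul]
  have : ‖(fourier (-n) : C(UnitAddCircle, ℂ)) t‖ = 1 := by
    rw [fourier_apply]
    exact Circle.norm_coe _
  rw [this, one_mul]

/-- the `n`-th Fourier coefficient as a continuous linear map on `L¹` -/
private def sidonOfFC (n : ℤ) :
    (Lp ℂ 1 (AddCircle.haarAddCircle (T := 1))) →L[ℂ] ℂ :=
  LinearMap.mkContinuous
    { toFun := fun f => fourierCoeff (f : UnitAddCircle → ℂ) n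
      map_add' := by
        intro f g
        have h1 := congrFun (fourierCoeff.add (L1.integrable_coeFn f) (L1.integrable_coeFn g)) n
        have h2 := congrFun (fourierCoeff_congr_ae (Lp.coeFn_add f g)) n
        exact h2.trans h1
      map_smul' := by
        intro c f
        rw [RingHom.id_apply, ← fourierCoeff.const_smul]
        exact congrFun (fourierCoeff_congr_ae (Lp.coeFn_smul c f)) n }
    1 (by
      intro f
      rw [one_mul, L1.norm_eq_integral_norm]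
      exact sidonOf_norm_fc _ n)

private lemma sidonOfFC_apply (n : ℤ) (f : Lp ℂ 1 (AddCircle.haarAddCircle (T := 1))) :
    sidonOfFC n f = fourierCoeff (f : UnitAddCircle → ℂ) n := rfl

/-- sums of `L¹` functions -/
private lemma sidonOf_sum (g : ℕ → UnitAddCircle → ℂ)
    (hg : ∀ k, Integrable (g k) AddCircle.haarAddCircle)
    (hs : Summable fun k => ∫ t, ‖g k t‖ ∂AddCircle.haarAddCircle) :
    ∃ G : UnitAddCircle → ℂ, Integrable G AddCircle.haarAddCircle ∧
      ∀ n, HasSum (fun k => fourierCoeff (g k) n) (fourierCoeff G n) := by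
  have hsum : Summable fun k => (hg k).toL1 (g k) := by
    apply Summable.of_norm
    refine hs.congr fun k => ?_
    rw [L1.norm_of_fun_eq_integral_norm]
  refine ⟨(∑' k, (hg k).toL1 (g k) : Lp ℂ 1 (AddCircle.haarAddCircle (T := 1))),
    L1.integrable_coeFn _, fun n => ?_⟩
  have h := hsum.hasSum.mapL (sidonOfFC n)
  rw [sidonOfFC_apply] at h
  have e : (fun k => sidonOfFC n ((hg k).toL1 (g k))) = fun k => fourierCoeff (g k) n := by
    funext k
    rw [sidonOfFC_apply]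
    exact congrFun (fourierCoeff_congr_ae (hg k).coeFn_toL1) n
  rw [e] at h
  exact h

private lemma sidonOf_rank (x : ℝ) (hx : 0 < x) :
    ∃ r : ℕ, (1 / 2 : ℝ) ^ r ≤ x ∧ ∀ r' < r, x < (1 / 2 : ℝ) ^ r' := by
  classical
  have h : ∃ r : ℕ, (1 / 2 : ℝ) ^ r ≤ x := by
    obtain ⟨r, hr⟩ := exists_pow_lt_of_lt_one hx (by norm_num : (1 / 2 : ℝ) < 1)
    exact ⟨r, hr.le⟩
  exact ⟨Nat.find h, Nat.find_spec h, fun r' hr' => not_le.1 (Nat.find_min h hr')⟩

private lemma sidonOf_const (c : ℂ) (n : ℤ) :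
    fourierCoeff (fun t : UnitAddCircle => c * fourier 0 t) n = if n = 0 then c else 0 := by
  rw [fourierCoeff.const_mul]
  have h2 : fourierCoeff (fun t : UnitAddCircle => fourier 0 t) n = if n = 0 then 1 else 0 := by
    have := congrFun (fourierCoeff_fourier (T := 1) 0) n
    rw [show (fun t : UnitAddCircle => fourier 0 t) = ⇑(fourier (T := 1) 0) from rfl, this]
    by_cases hn : n = 0
    · subst hn; simp
    · rw [if_neg hn, Pi.single_eq_of_ne hn]
  rw [h2]
  split_ifs <;> simp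

theorem sidon_of_interp (Λ : Set ℤ) (C' : ℝ) (h : Interp Λ C') : SidonSet Λ := by
  classical
  intro a ha
  have hC' : 0 ≤ C' := by
    obtain ⟨F, hF, _⟩ := h ∅ (by simp) (fun _ => 0) (by simp) 0
    exact hF.nonneg
  have hrk : ∀ n : ℤ, ∃ r : ℕ, a n ≠ 0 →
      ((1 / 2 : ℝ) ^ r ≤ ‖a n‖ ∧ ∀ r' < r, ‖a n‖ < (1 / 2 : ℝ) ^ r') := by
    intro n
    by_cases hn : a n = 0
    · exact ⟨0, fun h' => absurd hn h'⟩
    · obtain ⟨r, hr⟩ := sidonOf_rank ‖a n‖ (norm_pos_iff.2 hn)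
      exact ⟨r, fun _ => hr⟩
  choose rk hrk' using hrk
  let A : ℕ → Finset ℤ := fun r =>
    ((ha ((1 / 2 : ℝ) ^ r) (by positivity)).toFinset).filter
      (fun n => n ≠ 0 ∧ a n ≠ 0 ∧ rk n = r)
  have hA : ∀ r n, n ∈ A r ↔ n ∈ Λ ∧ n ≠ 0 ∧ a n ≠ 0 ∧ rk n = r := by
    intro r n
    simp only [A, Finset.mem_filter, Set.Finite.mem_toFinset, Set.mem_setOf_eq]
    constructor
    · rintro ⟨⟨h1, _⟩, h2, h3, h4⟩
      exact ⟨h1, h2, h3, h4⟩
    · rintro ⟨h1, h2, h3, h4⟩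
      refine ⟨⟨h1, ?_⟩, h2, h3, h4⟩
      rw [← h4]
      exact (hrk' n h3).1
  set S : ℝ := ∑ n ∈ A 0, ‖a n‖ with hS
  have hS0 : 0 ≤ S := Finset.sum_nonneg fun _ _ => norm_nonneg _
  let M : ℕ → ℝ := fun r => (2 + S) * (1 / 2) ^ r
  have hM0 : ∀ r, 0 < M r := fun r => by positivity
  have hMA : ∀ r, ∀ n ∈ A r, ‖a n‖ ≤ M r := by
    intro r n hn
    obtain ⟨h1, h2, h3, h4⟩ := (hA r n).1 hn
    rcases Nat.eq_zero_or_pos r with hr | hr
    · subst hr
      have := Finset.single_le_sum (f := fun n => ‖a n‖) (fun _ _ => norm_nonneg _) hn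
      have e : M 0 = 2 + S := by simp [M]
      rw [e]
      linarith
    · obtain ⟨r', rfl⟩ : ∃ r', r = r' + 1 := ⟨r - 1, by omega⟩
      have h5 := (hrk' n h3).2 r' (by omega)
      have e : M (r' + 1) = (2 + S) / 2 * (1 / 2) ^ r' := by
        simp only [M, pow_succ]
        ring
      rw [e]
      have h6 : (0 : ℝ) < (1 / 2) ^ r' := by positivity
      nlinarith
  -- one block
  have step : ∀ r : ℕ, ∃ g : UnitAddCircle → ℂ, Integrable g AddCircle.haarAddCircle ∧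
      (∀ n ∈ A r, fourierCoeff g n = a n) ∧
      (∀ n ∈ Λ, n ∉ A r → fourierCoeff g n = 0) ∧ fourierCoeff g 0 = 0 ∧
      ∫ t, ‖g t‖ ∂AddCircle.haarAddCircle ≤ 6 * (M r * C') := by
    intro r
    obtain ⟨φ, R', k1, k2, k3, k4, k5⟩ := kernel 0 (A r) (by
      intro n hn
      have := ((hA r n).1 hn).2.1
      simpa using this)
    obtain ⟨F, f1, f2, f3⟩ := h (A r) (fun l hl => ⟨((hA r l).1 hl).1, ((hA r l).1 hl).2.1⟩)
      (fun l => if l ∈ A r then a l / (M r : ℂ) else 0) (by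
        intro l
        split_ifs with hl
        · rw [norm_div, Complex.norm_real, Real.norm_of_nonneg (hM0 r).le,
            div_le_one (hM0 r)]
          exact hMA r l hl
        · simp) R'
    obtain ⟨g, g1, g2, g3⟩ := k5 _ _ (TP.smul (M r : ℂ) f1)
    have hMr : (M r : ℂ) ≠ 0 := by
      exact_mod_cast (hM0 r).ne'
    refine ⟨g, g1, ?_, ?_, ?_, ?_⟩
    · intro n hn
      have hn' : |n| ≤ (R' : ℤ) := by
        by_contra hc
        have := k4 n (not_le.1 hc)
        rw [k3 n hn] at this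
        exact one_ne_zero this
      rw [g2 n, k3 n hn, f2 n hn hn', if_pos hn]
      rw [Complex.ofReal_one, one_mul, mul_div_cancel₀ _ hMr]
    · intro n hn hnA
      rw [g2 n]
      by_cases hn' : |n| ≤ (R' : ℤ)
      · rw [f3 n hn hnA hn', mul_zero, mul_zero]
      · rw [k4 n (not_le.1 hn'), Complex.ofReal_zero, zero_mul]
    · rw [g2 0, k2 0 (by simp), Complex.ofReal_zero, zero_mul]
    · rw [Complex.norm_real, Real.norm_of_nonneg (hM0 r).le] at g3
      exact g3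
  choose g g1 g2 g3 g4 g5 using step
  have hsummable : Summable fun k => ∫ t, ‖g k t‖ ∂AddCircle.haarAddCircle := by
    refine Summable.of_nonneg_of_le (fun k => integral_nonneg fun t => norm_nonneg _)
      (fun k => g5 k) ?_
    have e : (fun r => 6 * (M r * C')) = fun r => (6 * (2 + S) * C') * (1 / 2 : ℝ) ^ r := by
      funext r
      simp only [M]
      ring
    rw [e]
    exact (summable_geometric_of_lt_one (by norm_num) (by norm_num)).mul_left _
  obtain ⟨G, hG, hGs⟩ := sidonOf_sum g g1 hsummable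
  have hG0 : fourierCoeff G 0 = 0 := by
    have h1 := hGs 0
    simp only [g4] at h1
    exact h1.unique hasSum_zero
  have hGn : ∀ n ∈ Λ, n ≠ 0 → fourierCoeff G n = a n := by
    intro n hn hn0
    by_cases han : a n = 0
    · have h1 := hGs n
      have h2 : ∀ k, fourierCoeff (g k) n = 0 := fun k =>
        g3 k n hn fun hk => ((hA k n).1 hk).2.2.1 han
      simp only [h2] at h1
      rw [han]
      exact h1.unique hasSum_zero
    · have h1 := hasSum_single (f := fun k => fourierCoeff (g k) n) (rk n) (by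
        intro k hk
        exact g3 k n hn fun hk' => hk ((hA k n).1 hk').2.2.2.symm)
      have h2 := (hGs n).unique h1
      rw [h2]
      exact g2 (rk n) n ((hA _ _).2 ⟨hn, hn0, han, rfl⟩)
  have hcI : Integrable (fun t : UnitAddCircle => a 0 * fourier 0 t)
      AddCircle.haarAddCircle := by
    have hc : Continuous (fun t : UnitAddCircle => a 0 * fourier 0 t) :=
      continuous_const.mul (fourier 0).continuous
    exact hc.integrable_of_hasCompactSupport (HasCompactSupport.of_compactSpace _)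
  refine ⟨G + fun t => a 0 * fourier 0 t, hG.add hcI, fun n hn => ?_⟩
  have h1 := congrFun (fourierCoeff.add hG hcI) n
  rw [h1, Pi.add_apply, sidonOf_const]
  by_cases hn0 : n = 0
  · subst hn0
    rw [hG0, if_pos rfl, zero_add]
  · rw [hGn n hn hn0, if_neg hn0, add_zero]

end Pool.Agent.Lib.MP_6d8312_an.Q
end
end
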