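import Pool.Agent.Lib.MP_6d8312_an.Mg.G005
import Pool.Agent.Lib.MP_6d8312_an.Mg.G009
import Pool.Agent.Lib.MP_6d8312_an.Mg.G001
import Pool.Agent.Lib.MP_6d8312_an.Mg.G011
import Pool.Agent.Lib.MP_6d8312_an.Mg.G012

section

/-!
# One step

`N = |Q|`, `U' = {θ ∈ U | N/16 ≤ SQ}`, `μ' = mu U' ≥ exp(-N/10⁷)/2 > 0`, `f S = log (ZS Q z U' S)`,
`E = bern (1/2) Q f`, `c = log (5/3) ≤ 52/100`, `t = N/5200`; `2t²/(N c²) ≥ (27/10⁸) N` (numerically
`2/(5200² · .2704) = 2.735·10⁻⁷`).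
(1) Paley-Zygmund: `μ' = bern ZS ≤ μ'/2 + bern (ZS 1[ZS ≥ μ'/2]) ≤ μ'/2 + (bern ZS²)^{1/2}
(bern 1[..])^{1/2}`, so `bern 1[ZS ≥ μ'/2] ≥ μ'²/4 ≥ exp(-2N/10⁷)/16`.
(2) `E ≥ log(μ'/2) - t`: otherwise `{ZS ≥ μ'/2} ⊆ {f ≥ E + t}`, of probability `≤ exp(-(2735/10^10) N)`
(`mcd_upper`; use a constant between: `2t²/(Nc²) ≥ (273/10⁹) N`), and `exp(-(273/10⁹)N) <
exp(-2N/10⁷)/16` as `(73/10⁹) N ≥ 2.92 > log 16` for `N ≥ 4·10⁷`.
(3) `mcd_lower`: with probability `≥ 1 - exp(-(27/10⁸)N)`: `f ≥ E - t ≥ log(μ'/2) - 2t ≥ -N/10⁷ - log 4 -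
N/2600 ≥ log 2 - N/1300`, i.e. `ZS ≥ 2 exp(-N/1300)`.
(4) Then by `ZS_le` `exp(N/4) mu{..} ≥ exp(-N/1300)`, so `mu ≥ exp(-N/1300 - N/4) ≥ exp(-N)`.
-/

set_option autoImplicit false

noncomputable section

namespace Pool.Agent.Lib.MP_6d8312_an.KD

open Finset

variable {p : ℕ} [Fact p.Prime]

open Classical in
theorem oneStep (hp : p ≠ 2) (Q : Finset (ZMod p)) (hQ : QI Q) (z : ZMod p → ℂ)
    (hz : ∀ a ∈ Q, 1 / 2 ≤ ‖z a‖ ∧ ‖z a‖ ≤ 1) (hN : 4 * 10 ^ 7 ≤ Q.card) (U : Set (ZMod p))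
    (hU : Real.exp (-(Q.card : ℝ) / 10 ^ 7) ≤ mu U) :
    1 - Real.exp (-(27 / 10 ^ 8) * (Q.card : ℝ)) ≤
      bern (1 / 2) Q (fun S =>
        if Real.exp (-(Q.card : ℝ)) ≤ mu {θ ∈ U | (Q.card : ℝ) / 512 ≤ XS Q z S θ}
        then 1 else 0) := by
  have hNr : (4 * 10 ^ 7 : ℝ) ≤ (Q.card : ℝ) := by exact_mod_cast hN
  obtain ⟨N, hNdef⟩ : ∃ N : ℝ, N = (Q.card : ℝ) := ⟨_, rfl⟩
  rw [← hNdef] at hNr hU ⊢
  have hNpos : 0 < N := by linarith
  have hz1 : ∀ a ∈ Q, ‖z a‖ ≤ 1 := fun a ha => (hz a ha).2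
  obtain ⟨U', hU'def⟩ : ∃ U' : Set (ZMod p), U' = {θ ∈ U | (Q.card : ℝ) / 16 ≤ SQ Q z θ} := ⟨_, rfl⟩
  have hmu : mu U / 2 ≤ mu U' := by
    rw [hU'def]
    exact sumSq hp Q hQ z hz hN U (by rw [← hNdef]; exact hU)
  have hmu1 : Real.exp (-N / 10 ^ 7) / 2 ≤ mu U' := by linarith
  have hmupos : 0 < mu U' := lt_of_lt_of_le (by positivity) hmu1
  obtain ⟨m, hm⟩ : ∃ m : ℝ, m = mu U' := ⟨_, rfl⟩
  rw [← hm] at hmu1 hmupos
  have hZpos : ∀ S, 0 < ZS Q z U' S := fun S => ZS_pos Q z hz1 U' (by rw [← hm]; exact hmupos) S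
  -- Paley-Zygmund
  have hPZ : m ^ 2 / 4 ≤ bern (1 / 2) Q (fun S => if m / 2 ≤ ZS Q z U' S then 1 else 0) := by
    have h1 : bern (1 / 2) Q (ZS Q z U') = m := by rw [bern_ZS, hm]
    have h2 := bern_ZS_sq Q hQ z hz1 U'
    have h3 : bern (1 / 2) Q (ZS Q z U') ≤
        bern (1 / 2) Q (fun S => m / 2 + (m / 4 * ZS Q z U' S ^ 2 +
          1 / m * (if m / 2 ≤ ZS Q z U' S then 1 else 0))) := by
      refine bern_mono (by norm_num) (by norm_num) fun S _ => ?_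
      by_cases hS : m / 2 ≤ ZS Q z U' S
      · rw [if_pos hS]
        have h4 : ZS Q z U' S ≤ m / 4 * ZS Q z U' S ^ 2 + 1 / m * 1 := by
          have h5 : 0 ≤ (m * ZS Q z U' S / 2 - 1) ^ 2 / m := by positivity
          have h6 : (m * ZS Q z U' S / 2 - 1) ^ 2 / m =
              m / 4 * ZS Q z U' S ^ 2 + 1 / m * 1 - ZS Q z U' S := by
            field_simp
            ring
          rw [h6] at h5
          linarith
        linarith
      · rw [if_neg hS]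
        push Not at hS
        have h5 : 0 ≤ m / 4 * ZS Q z U' S ^ 2 := by positivity
        linarith
    rw [h1, bern_add, bern_const, bern_add, bern_mul_left, bern_mul_left] at h3
    have h7 : m / 4 * bern (1 / 2) Q (fun S => ZS Q z U' S ^ 2) ≤ m / 4 * 1 :=
      mul_le_mul_of_nonneg_left h2 (by positivity)
    have h8 : m / 4 ≤ 1 / m * bern (1 / 2) Q
        (fun S => if m / 2 ≤ ZS Q z U' S then 1 else 0) := by linarith
    have h9 := mul_le_mul_of_nonneg_left h8 hmupos.le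
    have h10 : m * (1 / m * bern (1 / 2) Q
        (fun S => if m / 2 ≤ ZS Q z U' S then 1 else 0)) = bern (1 / 2) Q
        (fun S => if m / 2 ≤ ZS Q z U' S then 1 else 0) := by
      field_simp
    rw [h10] at h9
    calc m ^ 2 / 4 = m * (m / 4) := by ring
      _ ≤ _ := h9
  obtain ⟨f, hf⟩ : ∃ f : Finset (ZMod p) → ℝ, f = fun S => Real.log (ZS Q z U' S) := ⟨_, rfl⟩
  have hlip : ∀ a ∈ Q, ∀ S ⊆ Q, |f (insert a S) - f S| ≤ Real.log (5 / 3) := by
    intro a _ S _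
    rw [hf]
    exact ZS_ratio Q z hz1 U' (by rw [← hm]; exact hmupos) S a
  have hc0 : 0 < Real.log (5 / 3) := Real.log_pos (by norm_num)
  have hc1 : Real.log (5 / 3) ≤ 52 / 100 := by
    rw [Real.log_le_iff_le_exp (by norm_num)]
    have h1 := Real.sum_le_exp_of_nonneg (x := 52 / 100) (by norm_num) 4
    simp only [Finset.sum_range_succ, Finset.sum_range_zero] at h1
    norm_num [Nat.factorial] at h1
    linarith
  obtain ⟨E, hE⟩ : ∃ E : ℝ, E = bern (1 / 2) Q f := ⟨_, rfl⟩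
  have hexp : -2 * (N / 5200) ^ 2 / (N * Real.log (5 / 3) ^ 2) ≤ -(273 / 10 ^ 9) * N := by
    rw [div_le_iff₀ (by positivity)]
    have h1 : Real.log (5 / 3) ^ 2 ≤ (52 / 100) ^ 2 := pow_le_pow_left₀ hc0.le hc1 2
    nlinarith [mul_nonneg hNpos.le hNpos.le, mul_le_mul_of_nonneg_left h1 (mul_nonneg hNpos.le hNpos.le)]
  -- the mean is large
  have hEl : Real.log (m / 2) - N / 5200 ≤ E := by
    by_contra hcon
    push Not at hcon
    have h1 := mcd_upper Q f hc0.le hlip (t := N / 5200) (by positivity)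
    rw [← hNdef, ← hE] at h1
    have h2 : bern (1 / 2) Q (fun S => if m / 2 ≤ ZS Q z U' S then 1 else 0) ≤
        bern (1 / 2) Q (fun S => if E + N / 5200 ≤ f S then 1 else 0) := by
      refine bern_mono (by norm_num) (by norm_num) fun S _ => ?_
      by_cases hS : m / 2 ≤ ZS Q z U' S
      · have h3 : Real.log (m / 2) ≤ f S := by
          rw [hf]
          exact Real.log_le_log (by positivity) hS
        rw [if_pos hS, if_pos (by linarith)]
      · rw [if_neg hS]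
        split_ifs <;> norm_num
    have h3 : m ^ 2 / 4 ≤ Real.exp (-(273 / 10 ^ 9) * N) :=
      le_trans hPZ (le_trans h2 (le_trans h1 (Real.exp_le_exp.2 hexp)))
    have h4 : (Real.exp (-N / 10 ^ 7) / 2) ^ 2 ≤ m ^ 2 := pow_le_pow_left₀ (by positivity) hmu1 2
    have h5 : Real.exp (-(2 / 10 ^ 7) * N) / 16 ≤ Real.exp (-(273 / 10 ^ 9) * N) := by
      have h6 : Real.exp (-(2 / 10 ^ 7) * N) = Real.exp (-N / 10 ^ 7) ^ 2 := by
        rw [← Real.exp_nat_mul]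
        congr 1
        push_cast
        ring
      rw [h6]
      have h7 : (Real.exp (-N / 10 ^ 7) / 2) ^ 2 = Real.exp (-N / 10 ^ 7) ^ 2 / 4 := by ring
      rw [h7] at h4
      linarith
    have h6 : Real.exp (-(2 / 10 ^ 7) * N) =
        Real.exp ((73 / 10 ^ 9) * N) * Real.exp (-(273 / 10 ^ 9) * N) := by
      rw [← Real.exp_add]
      congr 1
      ring
    rw [h6] at h5
    have h7 : (16 : ℝ) < Real.exp ((73 / 10 ^ 9) * N) := by
      have h8 : Real.log 16 < (73 / 10 ^ 9) * N := by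
        have h9 : Real.log 16 = 4 * Real.log 2 := by
          rw [show (16 : ℝ) = 2 ^ 4 by norm_num, Real.log_pow]
          norm_num
        have h10 := Real.log_two_lt_d9
        rw [h9]
        nlinarith
      rwa [Real.log_lt_iff_lt_exp (by norm_num)] at h8
    have h8 : 0 < Real.exp (-(273 / 10 ^ 9) * N) := Real.exp_pos _
    nlinarith [mul_lt_mul_of_pos_right h7 h8]
  -- concentration
  have hlow := mcd_lower Q f hc0.le hlip (t := N / 5200) (by positivity)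
  rw [← hNdef, ← hE] at hlow
  have h1 : bern (1 / 2) Q (fun S => if f S ≤ E - N / 5200 then 1 else 0) ≤
      Real.exp (-(27 / 10 ^ 8) * N) := by
    refine le_trans hlow (Real.exp_le_exp.2 (le_trans hexp ?_))
    nlinarith
  have h2 : bern (1 / 2) Q (fun S => 1 - (if f S ≤ E - N / 5200 then 1 else 0)) =
      1 - bern (1 / 2) Q (fun S => if f S ≤ E - N / 5200 then 1 else 0) := by
    rw [bern_sub, bern_const]
  have h3 : 1 - Real.exp (-(27 / 10 ^ 8) * N) ≤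
      bern (1 / 2) Q (fun S => 1 - (if f S ≤ E - N / 5200 then 1 else 0)) := by
    rw [h2]
    linarith
  refine le_trans h3 (bern_mono (by norm_num) (by norm_num) fun S _ => ?_)
  by_cases hS : f S ≤ E - N / 5200
  · rw [if_pos hS]
    split_ifs <;> norm_num
  · rw [if_neg hS]
    push Not at hS
    rw [if_pos]
    · norm_num
    have h4 : Real.log (m / 2) - N / 2600 < f S := by
      have : N / 2600 = N / 5200 + N / 5200 := by ring
      linarith
    have h5 : (m / 2) * Real.exp (-(N / 2600)) < ZS Q z U' S := by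
      rw [hf] at h4
      have h6 := Real.exp_lt_exp.2 h4
      simp only at h6
      rw [Real.exp_log (hZpos S), sub_eq_add_neg, Real.exp_add, Real.exp_log (by positivity)] at h6
      exact h6
    have h6 : 2 * Real.exp (-N / 1300) ≤ (m / 2) * Real.exp (-(N / 2600)) := by
      have h7 : Real.exp (-N / 10 ^ 7) / 4 * Real.exp (-(N / 2600)) ≤
          (m / 2) * Real.exp (-(N / 2600)) :=
        mul_le_mul_of_nonneg_right (by linarith) (Real.exp_pos _).le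
      refine le_trans ?_ h7
      have h8 : Real.exp (-N / 10 ^ 7) * Real.exp (-(N / 2600)) =
          Real.exp (N / 2600 - N / 10 ^ 7) * Real.exp (-N / 1300) := by
        rw [← Real.exp_add, ← Real.exp_add]
        congr 1
        ring
      have h9 : (8 : ℝ) ≤ Real.exp (N / 2600 - N / 10 ^ 7) := by
        have h10 := Real.add_one_le_exp (N / 2600 - N / 10 ^ 7)
        have h11 : (7 : ℝ) ≤ N / 2600 - N / 10 ^ 7 := by
          linarith
        linarith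
      have h12 : Real.exp (-N / 10 ^ 7) / 4 * Real.exp (-(N / 2600)) =
          Real.exp (N / 2600 - N / 10 ^ 7) * Real.exp (-N / 1300) / 4 := by
        rw [← h8]
        ring
      rw [h12]
      have h13 : 0 < Real.exp (-N / 1300) := Real.exp_pos _
      nlinarith [mul_le_mul_of_nonneg_right h9 h13.le]
    have h7 := ZS_le Q z hz1 U S
    rw [← hU'def, ← hNdef] at h7
    have h8 : Real.exp (-N / 1300) ≤
        Real.exp (N / 4) * mu {θ ∈ U | N / 512 ≤ XS Q z S θ} := by linarith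
    have h9 : Real.exp (-N) * Real.exp (N / 4) ≤ Real.exp (-N / 1300) := by
      rw [← Real.exp_add]
      apply Real.exp_le_exp.2
      linarith
    have h10 : 0 < Real.exp (N / 4) := Real.exp_pos _
    have h11 : Real.exp (-N) * Real.exp (N / 4) ≤
        mu {θ ∈ U | N / 512 ≤ XS Q z S θ} * Real.exp (N / 4) := by
      rw [mul_comm (mu _)]
      linarith
    exact le_of_mul_le_mul_right h11 h10

end Pool.Agent.Lib.MP_6d8312_an.KD
end
end

section

/-!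
# The chain of levels

`levels_aux`: induction on `s`, generalising `Q` and `U`.  `s = 0`: `U` is nonempty (`mu_nonempty`), the
right side is `1`.  `s + 1`: `(range (s+1)).biUnion Q = Q 0 ∪ (range s).biUnion (Q ∘ succ)`, disjoint,
`bern_union`.  For `S₀ ⊆ Q 0` in the good event of `oneStep` (`U₁ = {θ ∈ U | N₀/512 ≤ XS (Q 0) z S₀ θ}`,
`mu U₁ ≥ exp(-N₀) ≥ exp (-N₁/10⁷)` if `s ≥ 1`, `mu U₁ > 0`), apply the induction hypothesis to
`Q ∘ succ` and `U₁`; `XS (Q i) z (S₀ ∪ T)` depends only on `(S₀ ∪ T) ∩ Q i`.  The expectation is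
`≥ P(good) (1 - ∑') ≥ 1 - exp(..N₀) - ∑'` (if `1 - ∑' < 0` the claim is trivial since the expectation is
`≥ 0`; or use `≥ (1 - ∑')1_good` and `1_good (1-∑') ≥ 1_good - ∑'`).
`levels`: `N_i ≥ 4·10⁷ (i+1)` (`10⁷ ≥ 2`), `(27/10⁸) 4·10⁷ = 10.8`, `∑_i exp(-10.8 (i+1)) ≤ 1/2`.
-/

set_option autoImplicit false

noncomputable section

namespace Pool.Agent.Lib.MP_6d8312_an.KD

open Finset

variable {p : ℕ} [Fact p.Prime]

private theorem LevelsC_XS {Q S S' : Finset (ZMod p)} {z : ZMod p → ℂ} {θ : ZMod p}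
    (h : ∀ a ∈ Q, (a ∈ S ↔ a ∈ S')) : XS Q z S θ = XS Q z S' θ := by
  unfold XS
  refine Finset.sum_congr rfl fun a ha => ?_
  have h1 : sg S a = sg S' a := by
    unfold sg
    by_cases h2 : a ∈ S
    · rw [if_pos h2, if_pos ((h a ha).1 h2)]
    · rw [if_neg h2, if_neg fun h3 => h2 ((h a ha).2 h3)]
  rw [h1]

open Classical in
theorem levels_aux (hp : p ≠ 2) (z : ZMod p → ℂ) (s : ℕ) (Q : ℕ → Finset (ZMod p))
    (hQ : ∀ i < s, QI (Q i)) (hdis : ∀ i < s, ∀ j < s, i ≠ j → Disjoint (Q i) (Q j))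
    (hz : ∀ i < s, ∀ a ∈ Q i, 1 / 2 ≤ ‖z a‖ ∧ ‖z a‖ ≤ 1)
    (hN : ∀ i < s, 4 * 10 ^ 7 ≤ (Q i).card)
    (hg : ∀ i, i + 1 < s → 10 ^ 7 * (Q i).card ≤ (Q (i + 1)).card) (U : Set (ZMod p))
    (hU0 : 0 < mu U) (hU : 0 < s → Real.exp (-((Q 0).card : ℝ) / 10 ^ 7) ≤ mu U) :
    1 - ∑ i ∈ range s, Real.exp (-(27 / 10 ^ 8) * ((Q i).card : ℝ)) ≤
      bern (1 / 2) ((range s).biUnion Q) (fun S =>
        if ∃ θ ∈ U, ∀ i < s, ((Q i).card : ℝ) / 512 ≤ XS (Q i) z S θ then 1 else 0) := by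
  induction s generalizing Q U with
  | zero =>
    obtain ⟨θ, hθ⟩ := mu_nonempty hU0
    rw [Finset.sum_range_zero, Finset.range_zero, Finset.biUnion_empty, bern_empty,
      if_pos ⟨θ, hθ, fun i hi => absurd hi (Nat.not_lt_zero i)⟩]
    norm_num
  | succ s ih =>
    obtain ⟨B, hB⟩ : ∃ B, B = (range s).biUnion (fun i => Q (i + 1)) := ⟨_, rfl⟩
    have hun : (range (s + 1)).biUnion Q = Q 0 ∪ B := by
      rw [hB]
      ext a
      simp only [Finset.mem_biUnion, Finset.mem_range, Finset.mem_union]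
      constructor
      · rintro ⟨i, hi, ha⟩
        rcases i with _ | i
        · exact Or.inl ha
        · exact Or.inr ⟨i, by omega, ha⟩
      · rintro (ha | ⟨i, hi, ha⟩)
        · exact ⟨0, by omega, ha⟩
        · exact ⟨i + 1, by omega, ha⟩
    have hdB : Disjoint (Q 0) B := by
      rw [hB, Finset.disjoint_biUnion_right]
      intro i hi
      exact hdis 0 (by omega) (i + 1) (by have := Finset.mem_range.1 hi; omega) (by omega)
    obtain ⟨sg1, hsg⟩ : ∃ sg1 : ℝ, sg1 = ∑ i ∈ range s, Real.exp (-(27 / 10 ^ 8) * ((Q (i + 1)).card : ℝ)) :=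
      ⟨_, rfl⟩
    have hsg0 : 0 ≤ sg1 := by
      rw [hsg]
      exact Finset.sum_nonneg fun i _ => (Real.exp_pos _).le
    rw [Finset.sum_range_succ', hun, bern_union _ hdB, ← hsg]
    have hone := oneStep hp (Q 0) (hQ 0 (by omega)) z (hz 0 (by omega)) (hN 0 (by omega)) U
      (hU (by omega))
    have hstep : ∀ S ⊆ Q 0,
        (if Real.exp (-((Q 0).card : ℝ)) ≤ mu {θ ∈ U | ((Q 0).card : ℝ) / 512 ≤ XS (Q 0) z S θ}
          then (1 : ℝ) else 0) - sg1 ≤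
        bern (1 / 2) B (fun T =>
          if ∃ θ ∈ U, ∀ i < s + 1, ((Q i).card : ℝ) / 512 ≤ XS (Q i) z (S ∪ T) θ then 1 else 0) := by
      intro S hS
      by_cases hgood : Real.exp (-((Q 0).card : ℝ)) ≤
          mu {θ ∈ U | ((Q 0).card : ℝ) / 512 ≤ XS (Q 0) z S θ}
      · rw [if_pos hgood]
        have hμ : 0 < mu {θ ∈ U | ((Q 0).card : ℝ) / 512 ≤ XS (Q 0) z S θ} :=
          (Real.exp_pos _).trans_le hgood
        have h1 := ih (fun i => Q (i + 1)) (fun i hi => hQ (i + 1) (by omega))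
          (fun i hi j hj hij => hdis (i + 1) (by omega) (j + 1) (by omega) (by omega))
          (fun i hi => hz (i + 1) (by omega)) (fun i hi => hN (i + 1) (by omega))
          (fun i hi => hg (i + 1) (by omega)) _ hμ (fun hs => by
            refine le_trans (Real.exp_le_exp.2 ?_) hgood
            have h2 := hg 0 (by omega)
            have h3 : (10 : ℝ) ^ 7 * ((Q 0).card : ℝ) ≤ ((Q (0 + 1)).card : ℝ) := by
              exact_mod_cast h2
            rw [neg_div]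
            refine neg_le_neg ?_
            rw [le_div_iff₀ (by positivity)]
            linarith)
        rw [← hsg, ← hB] at h1
        refine h1.trans (bern_mono (by norm_num) (by norm_num) fun T hT => ?_)
        by_cases hex : ∃ θ ∈ {θ ∈ U | ((Q 0).card : ℝ) / 512 ≤ XS (Q 0) z S θ},
            ∀ i < s, ((Q (i + 1)).card : ℝ) / 512 ≤ XS (Q (i + 1)) z T θ
        · rw [if_pos hex]
          obtain ⟨θ, ⟨hθ, hθ0⟩, hθ1⟩ := hex
          refine le_of_eq (if_pos ⟨θ, hθ, fun i hi => ?_⟩).symm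
          rcases i with _ | i
          · rw [LevelsC_XS (S' := S)]
            · exact hθ0
            · intro a ha
              rw [Finset.mem_union]
              constructor
              · rintro (h | h)
                · exact h
                · exact absurd (hT h) (Finset.disjoint_left.1 hdB ha)
              · exact Or.inl
          · rw [LevelsC_XS (S' := T)]
            · exact hθ1 i (by omega)
            · intro a ha
              rw [Finset.mem_union]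
              constructor
              · rintro (h | h)
                · exact absurd ha (Finset.disjoint_left.1
                    (hdis 0 (by omega) (i + 1) (by omega) (by omega)) (hS h))
                · exact h
              · exact Or.inr
        · rw [if_neg hex]
          split_ifs <;> norm_num
      · rw [if_neg hgood]
        have h1 : 0 ≤ bern (1 / 2) B (fun T =>
            if ∃ θ ∈ U, ∀ i < s + 1, ((Q i).card : ℝ) / 512 ≤ XS (Q i) z (S ∪ T) θ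
            then (1 : ℝ) else 0) :=
          bern_nonneg (by norm_num) (by norm_num) fun T _ => by split_ifs <;> norm_num
        linarith
    have h2 := bern_mono (l := 1 / 2) (by norm_num) (by norm_num) hstep
    rw [bern_sub, bern_const] at h2
    linarith


open Classical in
theorem levels (hp : p ≠ 2) (z : ZMod p → ℂ) (s : ℕ) (Q : ℕ → Finset (ZMod p))
    (hQ : ∀ i < s, QI (Q i)) (hdis : ∀ i < s, ∀ j < s, i ≠ j → Disjoint (Q i) (Q j))
    (hz : ∀ i < s, ∀ a ∈ Q i, 1 / 2 ≤ ‖z a‖ ∧ ‖z a‖ ≤ 1)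
    (hN : ∀ i < s, 4 * 10 ^ 7 ≤ (Q i).card)
    (hg : ∀ i, i + 1 < s → 10 ^ 7 * (Q i).card ≤ (Q (i + 1)).card) :
    1 / 2 ≤ bern (1 / 2) ((range s).biUnion Q) (fun S =>
      if ∃ θ, ∀ i < s, ((Q i).card : ℝ) / 512 ≤ XS (Q i) z S θ then 1 else 0) := by
  have h1 := levels_aux hp z s Q hQ hdis hz hN hg Set.univ (by rw [mu_univ]; norm_num) (fun _ => by
    rw [mu_univ, Real.exp_le_one_iff]
    have : (0 : ℝ) ≤ ((Q 0).card : ℝ) := Nat.cast_nonneg _
    rw [neg_div]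
    have h2 : 0 ≤ ((Q 0).card : ℝ) / 10 ^ 7 := by positivity
    linarith)
  have h2 : ∀ i < s, 4 * 10 ^ 7 * (i + 1) ≤ (Q i).card := by
    intro i
    induction i with
    | zero =>
      intro h
      have := hN 0 h
      omega
    | succ i ih =>
      intro h
      have h3 := ih (by omega)
      have h4 := hg i h
      have h5 : 10 ^ 7 * (4 * 10 ^ 7 * (i + 1)) ≤ 10 ^ 7 * (Q i).card := Nat.mul_le_mul_left _ h3
      omega
  have he : Real.exp (-(54 / 5)) ≤ 1 / 4 := by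
    rw [Real.exp_neg, ← one_div]
    have h3 := Real.add_one_le_exp (54 / 5 : ℝ)
    exact one_div_le_one_div_of_le (by norm_num) (by linarith)
  have h3 : ∑ i ∈ range s, Real.exp (-(27 / 10 ^ 8) * ((Q i).card : ℝ)) ≤
      ∑ i ∈ range s, (1 / 4 : ℝ) ^ (i + 1) := by
    refine Finset.sum_le_sum fun i hi => ?_
    have h4 : (4 * 10 ^ 7 * ((i : ℝ) + 1)) ≤ ((Q i).card : ℝ) := by
      exact_mod_cast h2 i (Finset.mem_range.1 hi)
    calc Real.exp (-(27 / 10 ^ 8) * ((Q i).card : ℝ)) ≤ Real.exp (((i + 1 : ℕ) : ℝ) * (-(54 / 5))) := by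
          refine Real.exp_le_exp.2 ?_
          push_cast
          linarith
      _ = Real.exp (-(54 / 5)) ^ (i + 1) := by rw [Real.exp_nat_mul]
      _ ≤ (1 / 4 : ℝ) ^ (i + 1) := pow_le_pow_left₀ (Real.exp_pos _).le he _
  have h4 : ∀ n : ℕ, ∑ i ∈ range n, (1 / 4 : ℝ) ^ (i + 1) ≤ 1 / 2 - (1 / 4) ^ n / 2 := by
    intro n
    induction n with
    | zero => simp
    | succ n ih =>
      rw [Finset.sum_range_succ, pow_succ]
      have : (0 : ℝ) < (1 / 4) ^ n := by positivity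
      linarith
  have h5 : (0 : ℝ) < (1 / 4) ^ s := by positivity
  have h6 := h4 s
  refine le_trans (by linarith) (h1.trans (bern_mono (by norm_num) (by norm_num) fun S _ => ?_))
  by_cases hex : ∃ θ ∈ (Set.univ : Set (ZMod p)), ∀ i < s, ((Q i).card : ℝ) / 512 ≤ XS (Q i) z S θ
  · rw [if_pos hex]
    obtain ⟨θ, -, hθ⟩ := hex
    exact le_of_eq (if_pos ⟨θ, hθ⟩).symm
  · rw [if_neg hex]
    split_ifs <;> norm_num


end Pool.Agent.Lib.MP_6d8312_an.KD
end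
end

section

/-!
# Lower bound for the mean supremum by levels

The set `B = (range s).biUnion Q`, `z a = 2^(k i) c a` for `a ∈ Q i` (well defined, the `Q i` are
disjoint).  On the event of `levels`: `Re ∑_{a∈B} sg S a c a ch(aθ) = ∑_i 2^{-k i} XS (Q i) z S θ ≥
∑_i 2^{-k i} |Q i|/512`, so `mx ≥` this; `bern 1[..] ≥ 1/2` and `mx ≥ 0`.  `RS_mono` for `B ⊆ A`.
-/

set_option autoImplicit false

noncomputable section

namespace Pool.Agent.Lib.MP_6d8312_an.KD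

open Finset

variable {p : ℕ} [Fact p.Prime]

theorem rand_low (hp : p ≠ 2) (A : Finset (ZMod p)) (c : ZMod p → ℂ) (s : ℕ)
    (Q : ℕ → Finset (ZMod p)) (k : ℕ → ℕ) (hA : ∀ i < s, Q i ⊆ A) (hQ : ∀ i < s, QI (Q i))
    (hdis : ∀ i < s, ∀ j < s, i ≠ j → Disjoint (Q i) (Q j))
    (hc : ∀ i < s, ∀ a ∈ Q i, 1 / 2 ≤ 2 ^ (k i) * ‖c a‖ ∧ 2 ^ (k i) * ‖c a‖ ≤ 1)
    (hN : ∀ i < s, 4 * 10 ^ 7 ≤ (Q i).card)
    (hg : ∀ i, i + 1 < s → 10 ^ 7 * (Q i).card ≤ (Q (i + 1)).card) :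
    1 / 1024 * ∑ i ∈ range s, ((Q i).card : ℝ) / 2 ^ (k i) ≤ RS A c := by
  classical
  obtain ⟨z, hz⟩ : ∃ z : ZMod p → ℂ,
      z = fun a => ∑ i ∈ range s, if a ∈ Q i then ((2 ^ (k i) : ℝ) : ℂ) * c a else 0 := ⟨_, rfl⟩
  have hzi : ∀ i < s, ∀ a ∈ Q i, z a = ((2 ^ (k i) : ℝ) : ℂ) * c a := by
    intro i hi a ha
    rw [hz]
    show (∑ j ∈ range s, if a ∈ Q j then ((2 ^ (k j) : ℝ) : ℂ) * c a else 0) = _
    rw [Finset.sum_eq_single i]
    · rw [if_pos ha]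
    · intro j hj hji
      rw [if_neg]
      intro haj
      exact Finset.disjoint_left.1 (hdis i hi j (Finset.mem_range.1 hj) (Ne.symm hji)) ha haj
    · intro h
      exact absurd (Finset.mem_range.2 hi) h
  have hzn : ∀ i < s, ∀ a ∈ Q i, 1 / 2 ≤ ‖z a‖ ∧ ‖z a‖ ≤ 1 := by
    intro i hi a ha
    have h1 : ‖z a‖ = 2 ^ (k i) * ‖c a‖ := by
      rw [hzi i hi a ha, norm_mul, Complex.norm_real, Real.norm_eq_abs, abs_of_nonneg (by positivity)]
    rw [h1]
    exact hc i hi a ha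
  have hlev := levels hp z s Q hQ hdis hzn hN hg
  obtain ⟨B, hB⟩ : ∃ B, B = (range s).biUnion Q := ⟨_, rfl⟩
  rw [← hB] at hlev
  obtain ⟨V, hV⟩ : ∃ V, V = ∑ i ∈ range s, ((Q i).card : ℝ) / 2 ^ (k i) := ⟨_, rfl⟩
  have hV0 : 0 ≤ V := by
    rw [hV]
    exact Finset.sum_nonneg fun i _ => by positivity
  have hBA : B ⊆ A := by
    rw [hB]
    intro a ha
    obtain ⟨i, hi, hai⟩ := Finset.mem_biUnion.1 ha
    exact hA i (Finset.mem_range.1 hi) hai
  have hkey : ∀ S ⊆ B,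
      V / 512 * (if ∃ θ, ∀ i < s, ((Q i).card : ℝ) / 512 ≤ XS (Q i) z S θ then (1 : ℝ) else 0) ≤
        mx (fun θ => ‖∑ a ∈ B, (sg S a : ℂ) * c a * ch (a * θ)‖) := by
    intro S _
    split_ifs with hθ
    · obtain ⟨θ, hθ⟩ := hθ
      rw [mul_one]
      refine le_trans ?_ (le_mx _ θ)
      refine le_trans ?_ (Complex.re_le_norm _)
      rw [Complex.re_sum, hB, Finset.sum_biUnion]
      · rw [hV, Finset.sum_div]
        refine Finset.sum_le_sum fun i hi => ?_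
        have hi' := Finset.mem_range.1 hi
        have h1 : ∑ a ∈ Q i, ((sg S a : ℂ) * c a * ch (a * θ)).re = XS (Q i) z S θ / 2 ^ (k i) := by
          unfold XS
          rw [Finset.sum_div]
          refine Finset.sum_congr rfl fun a ha => ?_
          rw [hzi i hi' a ha, mul_assoc, Complex.re_ofReal_mul, mul_assoc, Complex.re_ofReal_mul]
          have h2 : (2 : ℝ) ^ (k i) ≠ 0 := by positivity
          field_simp
        rw [h1]
        have h3 := hθ i hi'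
        have h4 : ((Q i).card : ℝ) / 2 ^ (k i) / 512 = ((Q i).card : ℝ) / 512 / 2 ^ (k i) := by
          ring
        rw [h4]
        exact div_le_div_of_nonneg_right h3 (by positivity)
      · intro i hi j hj hij
        exact hdis i (Finset.mem_range.1 (Finset.mem_coe.1 hi)) j
          (Finset.mem_range.1 (Finset.mem_coe.1 hj)) hij
    · rw [mul_zero]
      exact le_trans (norm_nonneg _) (le_mx (fun θ => ‖∑ a ∈ B, (sg S a : ℂ) * c a * ch (a * θ)‖) 0)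
  have h5 : V / 512 * (1 / 2) ≤ RS B c := by
    refine le_trans (mul_le_mul_of_nonneg_left hlev (by positivity)) ?_
    rw [← bern_mul_left]
    exact bern_mono (by norm_num) (by norm_num) hkey
  rw [← hV]
  refine le_trans (le_of_eq ?_) (le_trans h5 (RS_mono hBA c))
  ring

end Pool.Agent.Lib.MP_6d8312_an.KD
end
end

section

/-!
# The mean supremum dominates the sum of the coefficients

By `RS_smul` we may assume `max ‖c a‖ = 1` over `A` (if all `c a = 0`, trivial).  `L k = {a ∈ A |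
2^{-k-1} < ‖c a‖ ≤ 2^{-k}}` (`k < s`, `s` large: every `a` with `c a ≠ 0` is in exactly one),
`n k = |L k|`, `R = 10⁷ D₁`.  `∑ ‖c a‖ ≤ ∑_k n k/2^k ≤ (1+R) ∑_{k∈K} n k/2^k` (`greedy`).
SMALL: `k ∈ K` with `n k < 4·10⁷ D₁`: `∑ n k/2^k ≤ 4·10⁷ D₁ · 2 ≤ 8·10⁷ D₁ RS A c` (`RS ≥ 1`: `RS_coef`).
LARGE: let `k_0 < k_1 < ... < k_{s'-1}` be the others (`Finset.orderEmbOfFin` or `Finset.sort`),
`Q_i ⊆ L (k_i)` QI with `|Q_i| = qd (L (k_i)) ≥ n/D₁` (`exists_qi`, `hD`): `|Q_i| ≥ 4·10⁷` and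
`|Q_{i+1}| ≥ n_{k_{i+1}}/D₁ ≥ R n_{k_i}/D₁ = 10⁷ n_{k_i} ≥ 10⁷ |Q_i|`.  `rand_low`:
`∑ n_{k_i}/2^{k_i} ≤ D₁ ∑ |Q_i|/2^{k_i} ≤ 1024 D₁ RS`.  Total `(1+10⁷D₁)(8·10⁷D₁ + 1024 D₁) ≤ 10^16 D₁²`.
-/

set_option autoImplicit false

noncomputable section

namespace Pool.Agent.Lib.MP_6d8312_an.KD

open Finset

variable {p : ℕ} [Fact p.Prime]

private theorem RandSidon_level {x : ℝ} (h0 : 0 < x) (h1 : x ≤ 1) :
    ∃ k : ℕ, 1 / 2 ≤ 2 ^ k * x ∧ 2 ^ k * x ≤ 1 := by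
  have hex : ∃ k : ℕ, 1 / 2 < 2 ^ k * x := by
    obtain ⟨n, hn⟩ := pow_unbounded_of_one_lt (1 / 2 / x) (show (1 : ℝ) < 2 by norm_num)
    refine ⟨n, ?_⟩
    rwa [div_lt_iff₀ h0] at hn
  classical
  refine ⟨Nat.find hex, (Nat.find_spec hex).le, ?_⟩
  rcases Nat.eq_zero_or_pos (Nat.find hex) with h | h
  · rw [h]
    simpa using h1
  · have h2 := Nat.find_min hex (show Nat.find hex - 1 < Nat.find hex by omega)
    push Not at h2
    have h3 : (2 : ℝ) ^ (Nat.find hex) = 2 ^ (Nat.find hex - 1) * 2 := by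
      rw [← pow_succ]
      congr 1
      omega
    rw [h3]
    linarith

private theorem RandSidon_geo (K : Finset ℕ) : ∑ k ∈ K, 1 / (2 : ℝ) ^ k ≤ 2 := by
  have h1 : ∑ k ∈ K, 1 / (2 : ℝ) ^ k = ∑ k ∈ K, (1 / 2 : ℝ) ^ k := by
    refine Finset.sum_congr rfl fun k _ => ?_
    rw [one_div_pow]
  have h2 := summable_geometric_two.sum_le_tsum K (fun k _ => by positivity)
  rw [tsum_geometric_two] at h2
  rw [h1]
  exact h2

private theorem RandSidon_main (hp : p ≠ 2) (A : Finset (ZMod p)) (D₁ : ℕ) (hD1 : 1 ≤ D₁)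
    (hD : ∀ A' ⊆ A, A'.card ≤ D₁ * qd A') (c : ZMod p → ℂ) (hc1 : ∀ a ∈ A, ‖c a‖ ≤ 1)
    (a₀ : ZMod p) (ha₀ : a₀ ∈ A) (hca₀ : ‖c a₀‖ = 1) :
    ∑ a ∈ A, ‖c a‖ ≤ 10 ^ 16 * (D₁ : ℝ) ^ 2 * RS A c := by
  classical
  have hRS : 1 ≤ RS A c := by
    rw [← hca₀]
    exact RS_coef ha₀ c
  have hD1' : (1 : ℝ) ≤ D₁ := by exact_mod_cast hD1
  -- the levels
  have hlev : ∀ a : ZMod p, ∃ k : ℕ, a ∈ A → c a ≠ 0 →
      1 / 2 ≤ 2 ^ k * ‖c a‖ ∧ 2 ^ k * ‖c a‖ ≤ 1 := by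
    intro a
    by_cases ha : a ∈ A ∧ c a ≠ 0
    · obtain ⟨k, hk⟩ := RandSidon_level (norm_pos_iff.2 ha.2) (hc1 a ha.1)
      exact ⟨k, fun _ _ => hk⟩
    · exact ⟨0, fun h1 h2 => absurd ⟨h1, h2⟩ ha⟩
  choose kk hkk using hlev
  let B : Finset (ZMod p) := A.filter (fun a => c a ≠ 0)
  have hBmem : ∀ a, a ∈ B ↔ a ∈ A ∧ c a ≠ 0 := fun a => Finset.mem_filter
  let L : ℕ → Finset (ZMod p) := fun k => B.filter (fun a => kk a = k)
  have hLmem : ∀ k a, a ∈ L k ↔ a ∈ B ∧ kk a = k := fun k a => Finset.mem_filter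
  have hLA : ∀ k, L k ⊆ A := fun k a ha => ((hBmem a).1 ((hLmem k a).1 ha).1).1
  let s : ℕ := B.sup kk + 1
  let n : ℕ → ℝ := fun k => ((L k).card : ℝ)
  have hsum : ∑ a ∈ A, ‖c a‖ ≤ ∑ k ∈ range s, n k / 2 ^ k := by
    have h1 : ∑ a ∈ A, ‖c a‖ = ∑ a ∈ B, ‖c a‖ := by
      symm
      refine Finset.sum_subset (Finset.filter_subset _ _) fun a ha hb => ?_
      have : c a = 0 := by
        by_contra h
        exact hb ((hBmem a).2 ⟨ha, h⟩)
      rw [this, norm_zero]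
    have h2 : ∑ k ∈ range s, ∑ a ∈ B.filter (fun a => kk a = k), ‖c a‖ = ∑ a ∈ B, ‖c a‖ := by
      refine Finset.sum_fiberwise_of_maps_to (fun a ha => ?_) _
      rw [Finset.mem_range]
      exact Nat.lt_succ_of_le (Finset.le_sup (f := kk) ha)
    rw [h1, ← h2]
    refine Finset.sum_le_sum fun k _ => ?_
    have h3 : ∀ a ∈ L k, ‖c a‖ ≤ 1 / 2 ^ k := by
      intro a ha
      obtain ⟨h4, h5⟩ := (hLmem k a).1 ha
      obtain ⟨h6, h7⟩ := (hBmem a).1 h4
      have h8 := (hkk a h6 h7).2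
      rw [h5] at h8
      rw [le_div_iff₀ (by positivity)]
      linarith
    calc ∑ a ∈ L k, ‖c a‖ ≤ ∑ a ∈ L k, (1 : ℝ) / 2 ^ k := Finset.sum_le_sum h3
      _ = n k / 2 ^ k := by
        rw [Finset.sum_const, nsmul_eq_mul]
        show n k * (1 / 2 ^ k) = n k / 2 ^ k
        ring
  obtain ⟨K, -, hK, hgr⟩ := greedy s n (fun k => Nat.cast_nonneg _)
    (show (0 : ℝ) ≤ 10 ^ 7 * D₁ by positivity)
  -- small levels
  have hsmall : ∑ k ∈ K.filter (fun k => ¬ (4 * 10 ^ 7 * (D₁ : ℝ) ≤ n k)), n k / 2 ^ k ≤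
      8 * 10 ^ 7 * D₁ * RS A c := by
    calc ∑ k ∈ K.filter (fun k => ¬ (4 * 10 ^ 7 * (D₁ : ℝ) ≤ n k)), n k / 2 ^ k
        ≤ ∑ k ∈ K.filter (fun k => ¬ (4 * 10 ^ 7 * (D₁ : ℝ) ≤ n k)),
            (4 * 10 ^ 7 * (D₁ : ℝ)) * (1 / 2 ^ k) := by
          refine Finset.sum_le_sum fun k hk => ?_
          have h1 := (Finset.mem_filter.1 hk).2
          push Not at h1
          rw [div_eq_mul_one_div]
          exact mul_le_mul_of_nonneg_right h1.le (by positivity)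
      _ = (4 * 10 ^ 7 * (D₁ : ℝ)) *
            ∑ k ∈ K.filter (fun k => ¬ (4 * 10 ^ 7 * (D₁ : ℝ) ≤ n k)), 1 / (2 : ℝ) ^ k := by
          rw [Finset.mul_sum]
      _ ≤ (4 * 10 ^ 7 * (D₁ : ℝ)) * 2 :=
          mul_le_mul_of_nonneg_left (RandSidon_geo _) (by positivity)
      _ ≤ 8 * 10 ^ 7 * D₁ * RS A c := by nlinarith
  -- large levels
  have hlarge : ∑ k ∈ K.filter (fun k => 4 * 10 ^ 7 * (D₁ : ℝ) ≤ n k), n k / 2 ^ k ≤
      1024 * D₁ * RS A c := by
    set KL := K.filter (fun k => 4 * 10 ^ 7 * (D₁ : ℝ) ≤ n k) with hKL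
    have hKLn : ∀ k ∈ KL, 4 * 10 ^ 7 * (D₁ : ℝ) ≤ n k := fun k hk => (Finset.mem_filter.1 hk).2
    have hKLK : ∀ k ∈ KL, k ∈ K := fun k hk => (Finset.mem_filter.1 hk).1
    let em := KL.orderEmbOfFin rfl
    have hem : ∀ i, em i ∈ KL := fun i => Finset.orderEmbOfFin_mem KL rfl i
    let kf : ℕ → ℕ := fun i => if h : i < KL.card then em ⟨i, h⟩ else 0
    have hkf : ∀ i (h : i < KL.card), kf i = em ⟨i, h⟩ := fun i h => dif_pos h
    have hkfmem : ∀ i, i < KL.card → kf i ∈ KL := fun i h => by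
      rw [hkf i h]
      exact hem _
    have hkflt : ∀ i j, i < j → j < KL.card → kf i < kf j := by
      intro i j hij hj
      rw [hkf i (hij.trans hj), hkf j hj]
      exact em.strictMono hij
    have hQex : ∀ k, ∃ Q ⊆ L k, QI Q ∧ Q.card = qd (L k) := fun k => exists_qi (L k)
    choose Q0 hQ0L hQ0 hQ0c using hQex
    have hQn : ∀ k, n k ≤ D₁ * ((Q0 k).card : ℝ) := by
      intro k
      rw [hQ0c]
      show ((L k).card : ℝ) ≤ _
      exact_mod_cast hD (L k) (hLA k)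
    have hlow := rand_low hp A c KL.card (fun i => Q0 (kf i)) kf
      (fun i _ => (hQ0L _).trans (hLA _)) (fun i _ => hQ0 _)
      (by
        intro i hi j hj hij
        rw [Finset.disjoint_left]
        intro x hx hx'
        have h1 := ((hLmem _ x).1 (hQ0L _ hx)).2
        have h2 := ((hLmem _ x).1 (hQ0L _ hx')).2
        rcases lt_or_gt_of_ne hij with h | h
        · have := hkflt i j h hj
          omega
        · have := hkflt j i h hi
          omega)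
      (by
        intro i hi a ha
        obtain ⟨h1, h2⟩ := (hLmem _ a).1 (hQ0L _ ha)
        obtain ⟨h3, h4⟩ := (hBmem a).1 h1
        have h5 := hkk a h3 h4
        rwa [h2] at h5)
      (by
        intro i hi
        have h1 := hQn (kf i)
        have h2 := hKLn _ (hkfmem i hi)
        have h3 : (4 * 10 ^ 7 : ℝ) ≤ ((Q0 (kf i)).card : ℝ) := by
          have h4 : (D₁ : ℝ) * (4 * 10 ^ 7) ≤ D₁ * ((Q0 (kf i)).card : ℝ) := by linarith
          exact le_of_mul_le_mul_left h4 (by linarith)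
        exact_mod_cast h3)
      (by
        intro i hi
        have h1 := hQn (kf (i + 1))
        have h2 := (hK (kf (i + 1)) (hKLK _ (hkfmem (i + 1) hi))).2
        have h3 : n (kf i) ≤ ∑ j ∈ K.filter (· < kf (i + 1)), n j := by
          refine Finset.single_le_sum (f := n) (fun j _ => Nat.cast_nonneg _) ?_
          exact Finset.mem_filter.2 ⟨hKLK _ (hkfmem i (by omega)), hkflt i (i + 1) (by omega) hi⟩
        have h4 : ((Q0 (kf i)).card : ℝ) ≤ n (kf i) := by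
          show ((Q0 (kf i)).card : ℝ) ≤ ((L (kf i)).card : ℝ)
          exact_mod_cast Finset.card_le_card (hQ0L (kf i))
        have h5 : (10 ^ 7 * ((Q0 (kf i)).card : ℝ)) ≤ ((Q0 (kf (i + 1))).card : ℝ) := by
          have h6 : (D₁ : ℝ) * (10 ^ 7 * ((Q0 (kf i)).card : ℝ)) ≤
              D₁ * ((Q0 (kf (i + 1))).card : ℝ) := by
            calc (D₁ : ℝ) * (10 ^ 7 * ((Q0 (kf i)).card : ℝ))
                = 10 ^ 7 * D₁ * ((Q0 (kf i)).card : ℝ) := by ring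
              _ ≤ 10 ^ 7 * D₁ * n (kf i) := mul_le_mul_of_nonneg_left h4 (by positivity)
              _ ≤ 10 ^ 7 * D₁ * ∑ j ∈ K.filter (· < kf (i + 1)), n j :=
                  mul_le_mul_of_nonneg_left h3 (by positivity)
              _ ≤ n (kf (i + 1)) := h2
              _ ≤ _ := h1
          exact le_of_mul_le_mul_left h6 (by linarith)
        exact_mod_cast h5)
    have hsumKL : ∑ k ∈ KL, n k / 2 ^ k = ∑ i ∈ range KL.card, n (kf i) / 2 ^ (kf i) := by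
      rw [Finset.sum_range (fun i => n (kf i) / 2 ^ (kf i))]
      have h1 : ∑ k ∈ KL, n k / 2 ^ k = ∑ k ∈ Finset.map em.toEmbedding Finset.univ,
          n k / 2 ^ k := by
        rw [Finset.map_orderEmbOfFin_univ]
      rw [h1, Finset.sum_map]
      refine Finset.sum_congr rfl fun i _ => ?_
      have h2 : kf (i : ℕ) = em i := hkf i i.2
      rw [h2]
      rfl
    rw [hsumKL]
    calc ∑ i ∈ range KL.card, n (kf i) / 2 ^ (kf i)
        ≤ ∑ i ∈ range KL.card, D₁ * (((Q0 (kf i)).card : ℝ) / 2 ^ (kf i)) := by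
          refine Finset.sum_le_sum fun i _ => ?_
          rw [← mul_div_assoc]
          exact div_le_div_of_nonneg_right (hQn _) (by positivity)
      _ = D₁ * ∑ i ∈ range KL.card, ((Q0 (kf i)).card : ℝ) / 2 ^ (kf i) := by
          rw [Finset.mul_sum]
      _ ≤ D₁ * (1024 * RS A c) := mul_le_mul_of_nonneg_left (by linarith) (by positivity)
      _ = _ := by ring
  have hsplit : ∑ k ∈ K, n k / 2 ^ k =
      ∑ k ∈ K.filter (fun k => 4 * 10 ^ 7 * (D₁ : ℝ) ≤ n k), n k / 2 ^ k +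
      ∑ k ∈ K.filter (fun k => ¬ (4 * 10 ^ 7 * (D₁ : ℝ) ≤ n k)), n k / 2 ^ k :=
    (Finset.sum_filter_add_sum_filter_not K _ _).symm
  have htot : ∑ k ∈ K, n k / 2 ^ k ≤ (8 * 10 ^ 7 + 1024) * D₁ * RS A c := by
    rw [hsplit]
    nlinarith
  calc ∑ a ∈ A, ‖c a‖ ≤ ∑ k ∈ range s, n k / 2 ^ k := hsum
    _ ≤ (1 + 10 ^ 7 * D₁) * ∑ k ∈ K, n k / 2 ^ k := hgr
    _ ≤ (1 + 10 ^ 7 * D₁) * ((8 * 10 ^ 7 + 1024) * D₁ * RS A c) :=
        mul_le_mul_of_nonneg_left htot (by positivity)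
    _ ≤ ((10 ^ 7 + 1) * D₁) * ((8 * 10 ^ 7 + 1024) * D₁ * RS A c) := by
        refine mul_le_mul_of_nonneg_right (by linarith) ?_
        have : (0 : ℝ) ≤ RS A c := by linarith
        positivity
    _ = ((10 ^ 7 + 1) * (8 * 10 ^ 7 + 1024)) * ((D₁ : ℝ) ^ 2 * RS A c) := by ring
    _ ≤ 10 ^ 16 * ((D₁ : ℝ) ^ 2 * RS A c) := by
        refine mul_le_mul_of_nonneg_right (by norm_num) ?_
        have : (0 : ℝ) ≤ RS A c := by linarith
        positivity
    _ = _ := by ring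

theorem rand_sidon (hp : p ≠ 2) (A : Finset (ZMod p)) (D₁ : ℕ) (hD1 : 1 ≤ D₁)
    (hD : ∀ A' ⊆ A, A'.card ≤ D₁ * qd A') (c : ZMod p → ℂ) :
    ∑ a ∈ A, ‖c a‖ ≤ 10 ^ 16 * (D₁ : ℝ) ^ 2 * RS A c := by
  classical
  by_cases h0 : ∀ a ∈ A, c a = 0
  · rw [Finset.sum_eq_zero (fun a ha => by rw [h0 a ha, norm_zero])]
    have := RS_nonneg A c
    positivity
  push Not at h0
  obtain ⟨a₁, ha₁, hca₁⟩ := h0
  obtain ⟨a₀, ha₀, hmax⟩ := Finset.exists_max_image A (fun a => ‖c a‖) ⟨a₁, ha₁⟩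
  set m := ‖c a₀‖ with hm
  have hmpos : 0 < m := lt_of_lt_of_le (norm_pos_iff.2 hca₁) (hmax a₁ ha₁)
  have hnorm : ∀ a, ‖((1 / m : ℝ) : ℂ) * c a‖ = 1 / m * ‖c a‖ := by
    intro a
    rw [norm_mul, Complex.norm_real, Real.norm_of_nonneg (by positivity)]
  have h1 := RandSidon_main hp A D₁ hD1 hD (fun a => ((1 / m : ℝ) : ℂ) * c a)
    (by
      intro a ha
      rw [hnorm, one_div_mul_eq_div, div_le_one hmpos]
      exact hmax a ha)
    a₀ ha₀ (by
      rw [hnorm, one_div_mul_eq_div]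
      exact div_self hmpos.ne')
  rw [RS_smul A c (by positivity : (0 : ℝ) ≤ 1 / m)] at h1
  have h2 : ∑ a ∈ A, ‖((1 / m : ℝ) : ℂ) * c a‖ = 1 / m * ∑ a ∈ A, ‖c a‖ := by
    rw [Finset.mul_sum]
    exact Finset.sum_congr rfl fun a _ => hnorm a
  rw [h2] at h1
  have h3 : 1 / m * ∑ a ∈ A, ‖c a‖ ≤ 1 / m * (10 ^ 16 * (D₁ : ℝ) ^ 2 * RS A c) := by
    linarith
  exact le_of_mul_le_mul_left h3 (by positivity)

end Pool.Agent.Lib.MP_6d8312_an.KD
end
end

section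

/-!
# Rider's theorem, part C

`C ≥ 1` (if `A` is nonempty this follows, but it is assumed).  From `h` (`‖∑ c a‖ ≤ ∑ ‖c a‖ ≤ C RS A c`),
`meas_two` gives `m`.  Let `c` be given, `u a = c a/‖c a‖` (`1` if `c a = 0`), so `c a conj(u a) = ‖c a‖`;
`u' = i u`.  `Lam_value` for `u` and `u'` (same `q`): `conj(u a) + q u(-a) + i (conj (u' a) + q u'(-a)) =
conj(u a) + q u(-a) + i(-i conj(u a) + i q u(-a)) = 2 conj (u a)`.  So
`‖Lam_u a + i Lam_{u'} a - δ conj (u a)‖ ≤ 2 δ² C²`, and `δ ∑‖c a‖ ≤ ‖∑ c a (Lam_u a + i Lam_{u'} a)‖ +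
2 δ² C² ∑ ‖c a‖ ≤ 2 C² mx‖f‖ + 2 δ² C² ∑‖c a‖` (`Lam_bound`).  `δ = 1/(4C²)`: `(δ/2) ∑ ‖c a‖ ≤ 2 C² mx`, i.e.
`∑ ‖c a‖ ≤ 16 C⁴ mx`.
-/

set_option autoImplicit false

noncomputable section

namespace Pool.Agent.Lib.MP_6d8312_an.KD

open Finset

variable {p : ℕ} [Fact p.Prime]

theorem RiderC_unit (z : ℂ) : ∃ w : ℂ, ‖w‖ = 1 ∧ z * (starRingEnd ℂ) w = (‖z‖ : ℂ) := by
  by_cases hz : z = 0
  · exact ⟨1, by simp, by simp [hz]⟩
  · have h1 : ‖z‖ ≠ 0 := norm_ne_zero_iff.2 hz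
    have h2 : (‖z‖ : ℂ) ≠ 0 := by exact_mod_cast h1
    refine ⟨z / ‖z‖, ?_, ?_⟩
    · rw [norm_div, Complex.norm_real, norm_norm, div_self h1]
    · rw [map_div₀, Complex.conj_ofReal, mul_div_assoc', Complex.mul_conj,
        Complex.normSq_eq_norm_sq, div_eq_iff h2]
      push_cast
      ring

theorem rider (hp : p ≠ 2) (A : Finset (ZMod p)) (h0 : (0 : ZMod p) ∉ A) {C : ℝ} (hC : 1 ≤ C)
    (h : ∀ c : ZMod p → ℂ, ∑ a ∈ A, ‖c a‖ ≤ C * RS A c) (c : ZMod p → ℂ) :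
    ∑ a ∈ A, ‖c a‖ ≤ 16 * C ^ 4 * mx (fun θ => ‖∑ a ∈ A, c a * ch (a * θ)‖) := by
  have hC0 : 0 ≤ C := zero_le_one.trans hC
  obtain ⟨m, hm, hma⟩ := meas_two A hC0 (fun c => (norm_sum_le _ _).trans (h c))
  choose w hw1 hw2 using fun a => RiderC_unit (c a)
  set δ : ℝ := 1 / (4 * C ^ 2) with hδ
  have hCC : 1 ≤ C ^ 2 := one_le_pow₀ hC
  have hδ0 : 0 < δ := by rw [hδ]; positivity
  have hδ1 : δ ≤ 1 := by
    rw [hδ, div_le_one (by positivity)]
    linarith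
  have hδC : δ * C ^ 2 = 1 / 4 := by
    rw [hδ]
    field_simp
  have hu1 : ∀ b ∈ A, ‖w b‖ ≤ 1 := fun b _ => (hw1 b).le
  have hu2 : ∀ b ∈ A, ‖(fun b => Complex.I * w b) b‖ ≤ 1 := fun b _ => by
    change ‖Complex.I * w b‖ ≤ 1
    rw [norm_mul, Complex.norm_I, one_mul]
    exact (hw1 b).le
  have key : ∀ a ∈ A, ‖Lam A δ w m a + Complex.I * Lam A δ (fun b => Complex.I * w b) m a -
      δ * (starRingEnd ℂ) (w a)‖ ≤ 2 * (δ ^ 2 * C ^ 2) := by
    intro a ha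
    have ha0 : a ≠ 0 := fun h1 => h0 (h1 ▸ ha)
    obtain ⟨q, hq⟩ := Lam_value hp A hδ0.le hδ1 m hm ha ha0 (hma a ha)
    have e1 := hq w hu1
    have e2 := hq (fun b => Complex.I * w b) hu2
    have e3 : Lam A δ w m a + Complex.I * Lam A δ (fun b => Complex.I * w b) m a -
        δ * (starRingEnd ℂ) (w a) =
        (Lam A δ w m a - (δ / 2 : ℂ) * ((starRingEnd ℂ) (w a) + q * w (-a))) +
        Complex.I * (Lam A δ (fun b => Complex.I * w b) m a - (δ / 2 : ℂ) *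
          ((starRingEnd ℂ) (Complex.I * w a) + q * (Complex.I * w (-a)))) := by
      rw [map_mul, Complex.conj_I]
      linear_combination (-(δ / 2 : ℂ) * (starRingEnd ℂ) (w a) +
        (δ / 2 : ℂ) * q * w (-a)) * Complex.I_sq
    rw [e3]
    refine (norm_add_le _ _).trans ?_
    rw [norm_mul, Complex.norm_I, one_mul]
    change _ + ‖Lam A δ (fun b => Complex.I * w b) m a - (δ / 2 : ℂ) *
      ((starRingEnd ℂ) ((fun b => Complex.I * w b) a) +
        q * (fun b => Complex.I * w b) (-a))‖ ≤ _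
    linarith
  have b1 := Lam_bound A hδ0.le hδ1 w hu1 m hm c
  have b2 := Lam_bound A hδ0.le hδ1 (fun b => Complex.I * w b) hu2 m hm c
  set X := ∑ a ∈ A, ‖c a‖ with hX
  set Y := mx (fun θ => ‖∑ a ∈ A, c a * ch (a * θ)‖) with hY
  have hX0 : 0 ≤ X := Finset.sum_nonneg fun _ _ => norm_nonneg _
  have e4 : ((δ * X : ℝ) : ℂ) = ∑ a ∈ A, c a * (δ * (starRingEnd ℂ) (w a)) := by
    rw [hX]
    push_cast
    rw [Finset.mul_sum]
    refine Finset.sum_congr rfl fun a _ => ?_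
    rw [← hw2 a]
    ring
  have e5 : ∑ a ∈ A, c a * (δ * (starRingEnd ℂ) (w a)) =
      (∑ a ∈ A, c a * Lam A δ w m a + Complex.I *
        ∑ a ∈ A, c a * Lam A δ (fun b => Complex.I * w b) m a) -
      ∑ a ∈ A, c a * (Lam A δ w m a + Complex.I * Lam A δ (fun b => Complex.I * w b) m a -
        δ * (starRingEnd ℂ) (w a)) := by
    rw [Finset.mul_sum, ← Finset.sum_add_distrib, ← Finset.sum_sub_distrib]
    exact Finset.sum_congr rfl fun a _ => by ring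
  have e6 : ‖∑ a ∈ A, c a * (Lam A δ w m a + Complex.I *
      Lam A δ (fun b => Complex.I * w b) m a - δ * (starRingEnd ℂ) (w a))‖ ≤
      X * (2 * (δ ^ 2 * C ^ 2)) := by
    refine (norm_sum_le _ _).trans ?_
    rw [hX, Finset.sum_mul]
    refine Finset.sum_le_sum fun a ha => ?_
    rw [norm_mul]
    exact mul_le_mul_of_nonneg_left (key a ha) (norm_nonneg _)
  have e7 : δ * X ≤ 2 * (C ^ 2 * Y) + X * (2 * (δ ^ 2 * C ^ 2)) := by
    have h1 : δ * X = ‖((δ * X : ℝ) : ℂ)‖ := by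
      rw [Complex.norm_real, Real.norm_of_nonneg (mul_nonneg hδ0.le hX0)]
    rw [h1, e4, e5]
    refine (norm_sub_le _ _).trans ?_
    have h2 := norm_add_le (∑ a ∈ A, c a * Lam A δ w m a) (Complex.I *
        ∑ a ∈ A, c a * Lam A δ (fun b => Complex.I * w b) m a)
    rw [norm_mul, Complex.norm_I, one_mul] at h2
    linarith
  have e8 : δ ^ 2 * C ^ 2 = δ / 4 := by
    calc δ ^ 2 * C ^ 2 = δ * (δ * C ^ 2) := by ring
      _ = δ / 4 := by rw [hδC]; ring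
  rw [e8] at e7
  have e9 : δ * X ≤ 4 * C ^ 2 * Y := by linarith
  have e10 : (4 * C ^ 2) * (δ * X) = X := by
    calc (4 * C ^ 2) * (δ * X) = 4 * (δ * C ^ 2) * X := by ring
      _ = X := by rw [hδC]; ring
  calc X = (4 * C ^ 2) * (δ * X) := e10.symm
    _ ≤ (4 * C ^ 2) * (4 * C ^ 2 * Y) := mul_le_mul_of_nonneg_left e9 (by positivity)
    _ = 16 * C ^ 4 * Y := by ring

end Pool.Agent.Lib.MP_6d8312_an.KD
end
end

section

/-!
# Interpolation for sets with proportional quasi-independent subsets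

`C = 10^16 max(D₁,1)²`, `C₁ = 16 C⁴`.  Given `A`, `ε`, `R` as in `Interp`: `A₁ = A ∪ {n ∈ Λ | n ≠ 0, |n| ≤ R}`
(finite), `b n = ε n` for `n ∈ A`, `0` for `n ∈ A₁ \ A`.  Choose a prime `p > 2`, `p > 2 ∑_{A₁} |a|`; `A₂ =
A₁.image cast`: subsets of `A₂` are images of subsets `B` of `A₁` with the same `card` and `qd`
(`cast_injOn`, `cast_qd` for `B`: `2 ∑_B |a| < p`), so `|A'| ≤ D₁ qd A'` for `A' ⊆ A₂`, `0 ∉ A₂`.  `rand_sidon`,
`rider`, and `‖∑ c a b a‖ ≤ ∑ ‖c a‖`: `meas_one` gives `m` with `∑ ‖m x‖ ≤ C₁`,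
`F₀ n = ∑_x m x ch((n:ZMod p) x) = ∑_x m x e(n x.val/p)` (`ch_eq_e`), `TP C₁ F₀` (reindex `ZMod p` by
`Fin p`, `ZMod.finEquiv` or `Fintype.equivFin`), `F₀ n = b n` on `A₁`.
For `n = 0` (if `0 ∈ Λ`): `F = F₀ - F₀(0) G`, `G n = (1/N) ∑_{k<N} e(n k/N)` with `N = R + 1`: `G 0 = 1`,
`G n = 0` for `0 < |n| ≤ R`, `TP 1 G`; `|F₀ 0| ≤ C₁`: `TP (2 C₁) F`.  For `l ∈ A`, `|l| ≤ R`, `l ≠ 0`:
`F l = ε l`; for `n ∈ Λ`, `n ∉ A`, `|n| ≤ R`: `F n = 0` (both for `n = 0` and `n ≠ 0`).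
-/

set_option autoImplicit false

noncomputable section

namespace Pool.Agent.Lib.MP_6d8312_an.KD

open Finset

theorem interp_of_qd (Λ : Set ℤ) (D₁ : ℕ)
    (h : ∀ A : Finset ℤ, (∀ n ∈ A, n ∈ Λ ∧ n ≠ 0) → A.card ≤ D₁ * qd A) :
    ∃ C' : ℝ, Q.Interp Λ C' := by
  classical
  obtain ⟨D, hD1, hDD⟩ : ∃ D : ℕ, 1 ≤ D ∧ D₁ ≤ D := ⟨max D₁ 1, le_max_right _ _, le_max_left _ _⟩
  obtain ⟨C, hCdef⟩ : ∃ C : ℝ, C = 10 ^ 16 * (D : ℝ) ^ 2 := ⟨_, rfl⟩
  have hC : 1 ≤ C := by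
    have h1 : (1 : ℝ) ≤ (D : ℝ) := by exact_mod_cast hD1
    have h2 : (1 : ℝ) ≤ (D : ℝ) ^ 2 := one_le_pow₀ h1
    rw [hCdef]
    linarith
  have hC1 : 0 ≤ 16 * C ^ 4 := by positivity
  refine ⟨16 * C ^ 4 + 16 * C ^ 4, ?_⟩
  intro A hA ε hε R
  obtain ⟨A₁, hA₁def⟩ : ∃ A₁ : Finset ℤ, A₁ = A ∪
      (Finset.Icc (-(R : ℤ)) R).filter (fun n => n ∈ Λ ∧ n ≠ 0) := ⟨_, rfl⟩
  have hA₁ : ∀ n ∈ A₁, n ∈ Λ ∧ n ≠ 0 := by
    intro n hn
    rw [hA₁def, Finset.mem_union, Finset.mem_filter] at hn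
    rcases hn with hn | hn
    · exact hA n hn
    · exact hn.2
  obtain ⟨p, hp1, hpp⟩ := Nat.exists_infinite_primes (2 * ∑ a ∈ A₁, a.natAbs + 3)
  have : Fact p.Prime := ⟨hpp⟩
  have hp2 : p ≠ 2 := by omega
  have hsum : ((∑ a ∈ A₁, a.natAbs : ℕ) : ℤ) = ∑ a ∈ A₁, |a| := by
    push_cast
    rfl
  have hpS : 2 * ∑ a ∈ A₁, |a| < (p : ℤ) := by
    rw [← hsum]
    omega
  have h0 : (0 : ZMod p) ∉ A₁.image (Int.cast : ℤ → ZMod p) :=
    cast_zero A₁ p hpS (fun h => (hA₁ 0 h).2 rfl)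
  have hD : ∀ A' ⊆ A₁.image (Int.cast : ℤ → ZMod p), A'.card ≤ D * qd A' := by
    intro A' hA'
    obtain ⟨B, hB, rfl⟩ := Finset.subset_image_iff.1 hA'
    have hB' : B ⊆ A₁ := by exact_mod_cast hB
    have hBs : 2 * ∑ a ∈ B, |a| < (p : ℤ) := by
      have h1 : ∑ a ∈ B, |a| ≤ ∑ a ∈ A₁, |a| :=
        Finset.sum_le_sum_of_subset_of_nonneg hB' fun _ _ _ => abs_nonneg _
      linarith
    rw [cast_qd B p hBs, Finset.card_image_of_injOn (cast_injOn B p hBs)]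
    refine (h B fun n hn => hA₁ n (hB' hn)).trans ?_
    exact Nat.mul_le_mul_right _ hDD
  have h1 : ∀ c : ZMod p → ℂ, ∑ a ∈ A₁.image (Int.cast : ℤ → ZMod p), ‖c a‖ ≤
      C * RS (A₁.image (Int.cast : ℤ → ZMod p)) c := by
    intro c
    rw [hCdef]
    exact rand_sidon hp2 _ D hD1 hD c
  have h2 := rider hp2 (A₁.image (Int.cast : ℤ → ZMod p)) h0 hC h1
  have hinj := cast_injOn A₁ p hpS
  have hinv : ∀ b ∈ A₁, Function.invFunOn (Int.cast : ℤ → ZMod p) A₁ (b : ZMod p) = b :=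
    fun b hb => hinj.leftInvOn_invFunOn (Finset.mem_coe.2 hb)
  obtain ⟨b', hb'def⟩ : ∃ b' : ZMod p → ℂ, b' = fun z => (fun n : ℤ => if n ∈ A then ε n else 0)
      (Function.invFunOn (Int.cast : ℤ → ZMod p) A₁ z) := ⟨_, rfl⟩
  have hb'v : ∀ n ∈ A₁, b' (n : ZMod p) = if n ∈ A then ε n else 0 := by
    intro n hn
    rw [hb'def]
    simp only [hinv n hn]
  have hb'1 : ∀ z, ‖b' z‖ ≤ 1 := by
    intro z
    rw [hb'def]
    dsimp only
    split_ifs
    · exact hε _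
    · rw [norm_zero]
      exact zero_le_one
  obtain ⟨m, hm1, hm2⟩ := meas_one (A₁.image (Int.cast : ℤ → ZMod p)) hC1 b' (by
    intro c
    refine (norm_sum_le _ _).trans (le_trans (Finset.sum_le_sum fun a _ => ?_) (h2 c))
    rw [norm_mul]
    exact mul_le_of_le_one_right (norm_nonneg _) (hb'1 a))
  have hF := TP.of_fintype (ι := ZMod p) m (fun x => (x.val : ℝ) / p) hm1
  have hFv : ∀ n ∈ A₁, ∑ x : ZMod p, m x * e (n * ((x.val : ℝ) / p)) =
      if n ∈ A then ε n else 0 := by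
    intro n hn
    rw [← hb'v n hn, ← hm2 (n : ZMod p) (Finset.mem_image_of_mem _ hn)]
    refine Finset.sum_congr rfl fun x _ => ?_
    rw [ch_eq_e]
  have hN : (0 : ℕ) < R + 1 := Nat.succ_pos R
  have hNC : ((R + 1 : ℕ) : ℝ) ≠ 0 := by positivity
  have hG := TP.of_fintype (ι := Fin (R + 1)) (fun _ => (1 / ((R + 1 : ℕ) : ℂ)))
    (fun k => (k : ℕ) / ((R + 1 : ℕ) : ℝ)) (r := 1) (by
      simp only [norm_div, norm_one, Complex.norm_natCast,
        Finset.sum_const, Finset.card_univ, Fintype.card_fin, nsmul_eq_mul]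
      rw [mul_one_div_cancel hNC])
  have hGv : ∀ n : ℤ, |n| ≤ (R : ℤ) → ∑ k : Fin (R + 1), (1 / ((R + 1 : ℕ) : ℂ)) *
      e (n * ((k : ℕ) / ((R + 1 : ℕ) : ℝ))) = if n = 0 then 1 else 0 := by
    intro n hn
    rw [← tps_sum_e_div (R + 1) hN n (by push_cast; omega), Finset.mul_sum]
  have hF0 := hF.norm_le 0
  have hT := TP.add hF (TP.smul (-(∑ x : ZMod p, m x * e ((0 : ℤ) * ((x.val : ℝ) / p)))) hG)
  refine ⟨_, hT.mono ?_, ?_, ?_⟩
  · rw [norm_neg, mul_one]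
    exact add_le_add le_rfl hF0
  · intro l hl hlR
    have hl1 : l ∈ A₁ := by
      rw [hA₁def]
      exact Finset.mem_union_left _ hl
    rw [hFv l hl1, hGv l hlR, if_pos hl, if_neg (hA l hl).2, mul_zero, add_zero]
  · intro n hn hnA hnR
    by_cases hn0 : n = 0
    · subst hn0
      rw [hGv 0 hnR, if_pos rfl, mul_one, add_neg_cancel]
    · have hn1 : n ∈ A₁ := by
        rw [hA₁def]
        refine Finset.mem_union_right _ (Finset.mem_filter.2 ⟨?_, hn, hn0⟩)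
        rw [Finset.mem_Icc]
        exact abs_le.1 hnR
      rw [hFv n hn1, hGv n hnR, if_neg hnA, if_neg hn0, mul_zero, add_zero]

end Pool.Agent.Lib.MP_6d8312_an.KD
end
end
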