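import Pool.Agent.Lib.MP_6d8312_an.Mg.G001
import Pool.Agent.Lib.MP_6d8312_an.Mg.G003

section

/-!
# The Villain weights are theta functions

`P_c(z) = ∑'_m [m ≡ z mod p, m ≡ c mod 2] exp (-m²/(4β))`, `c ∈ {0,1}` (`C = Fin 2`, condition
`m % 2 = c`).  Then
`vw x * vw y = ∑'_{(n,n')} [n ≡ x][n' ≡ y] exp (-(n²+n'²)/(2β))` (`Summable.tsum_mul_tsum`) and
`∑_c P_c(x+y) P_c(x-y) = ∑'_{(a,b)} [a ≡ x+y][b ≡ x-y][a ≡ b mod 2] exp (-(a²+b²)/(4β))`.
The map `(n,n') ↦ (n+n', n-n')` is injective on `ℤ × ℤ` with range `{a ≡ b mod 2}`, and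
`a ≡ x+y`, `b ≡ x-y` iff `n ≡ x`, `n' ≡ y` (`2` is invertible mod `p`), `n²+n'² = (a²+b²)/2`:
`Function.Injective.tsum_eq`.
-/

set_option autoImplicit false

noncomputable section

namespace Pool.Agent.Lib.MP_6d8312_an.KD

open Finset

variable {p : ℕ} [Fact p.Prime]

theorem VwTheta_summable (f : ℤ → ℝ) (hf : Summable f) (h0 : ∀ m, 0 ≤ f m) (q : ℤ → Prop)
    [DecidablePred q] : Summable (fun m => ‖if q m then f m else 0‖) := by
  refine Summable.of_nonneg_of_le (fun _ => norm_nonneg _) (fun m => ?_) hf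
  split_ifs
  · rw [Real.norm_of_nonneg (h0 m)]
  · rw [norm_zero]
    exact h0 m

theorem VwTheta_inj : Function.Injective (fun n : ℤ × ℤ => (n.1 + n.2, n.1 - n.2)) := by
  intro n m h
  have h1 : n.1 + n.2 = m.1 + m.2 := congrArg Prod.fst h
  have h2 : n.1 - n.2 = m.1 - m.2 := congrArg Prod.snd h
  refine Prod.ext ?_ ?_ <;> omega

theorem VwTheta_ite (hp : p ≠ 2) (x y : ZMod p) (a b : ℤ) :
    (((a + b : ℤ) : ZMod p) = x + y ∧ ((a - b : ℤ) : ZMod p) = x - y) ↔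
      ((a : ZMod p) = x ∧ (b : ZMod p) = y) := by
  have h := ThetaOp_pm_iff hp ((a : ZMod p) - x) ((b : ZMod p) - y)
  have e1 : (a : ZMod p) - x = 0 ↔ (a : ZMod p) = x := sub_eq_zero
  have e2 : (b : ZMod p) - y = 0 ↔ (b : ZMod p) = y := sub_eq_zero
  rw [e1, e2] at h
  rw [← h]
  push_cast
  constructor
  · rintro ⟨h1, h2⟩
    exact ⟨by linear_combination h1, by linear_combination h2⟩
  · rintro ⟨h1, h2⟩
    exact ⟨by linear_combination h1, by linear_combination h2⟩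

theorem theta_vw (hp : p ≠ 2) {β : ℝ} (hβ : 0 < β) : Theta (vw β : ZMod p → ℝ) := by
  let P : Fin 2 → ZMod p → ℝ := fun c z =>
    ∑' m : ℤ, if (m : ZMod p) = z ∧ m % 2 = (c : ℤ) then Real.exp (-(m : ℝ) ^ 2 / (4 * β)) else 0
  refine ⟨Fin 2, inferInstance, P, fun x y => ?_⟩
  have hs2 : Summable (fun m : ℤ => Real.exp (-(m : ℝ) ^ 2 / (2 * β))) := summable_gauss hβ
  have hs4 : Summable (fun m : ℤ => Real.exp (-(m : ℝ) ^ 2 / (4 * β))) := by
    have h1 := summable_gauss (β := 2 * β) (by positivity)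
    have h2 : (2 : ℝ) * (2 * β) = 4 * β := by ring
    rw [h2] at h1
    exact h1
  have h2 : ∀ z : ZMod p, Summable (fun m : ℤ =>
      ‖if (m : ZMod p) = z then Real.exp (-(m : ℝ) ^ 2 / (2 * β)) else 0‖) := fun z =>
    VwTheta_summable _ hs2 (fun m => (Real.exp_pos _).le) _
  have h4 : ∀ (c : ℤ) (z : ZMod p), Summable (fun m : ℤ =>
      ‖if (m : ZMod p) = z ∧ m % 2 = c then Real.exp (-(m : ℝ) ^ 2 / (4 * β)) else 0‖) :=
    fun c z => VwTheta_summable _ hs4 (fun m => (Real.exp_pos _).le) _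
  have hP : ∀ c : Fin 2, P c (x + y) * P c (x - y) = ∑' z : ℤ × ℤ,
      (if (z.1 : ZMod p) = x + y ∧ z.1 % 2 = (c : ℤ) then
        Real.exp (-(z.1 : ℝ) ^ 2 / (4 * β)) else 0) *
      (if (z.2 : ZMod p) = x - y ∧ z.2 % 2 = (c : ℤ) then
        Real.exp (-(z.2 : ℝ) ^ 2 / (4 * β)) else 0) := fun c =>
    tsum_mul_tsum_of_summable_norm (h4 (c : ℤ) (x + y)) (h4 (c : ℤ) (x - y))
  have hPs : ∀ c : Fin 2, Summable fun z : ℤ × ℤ =>
      (if (z.1 : ZMod p) = x + y ∧ z.1 % 2 = (c : ℤ) then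
        Real.exp (-(z.1 : ℝ) ^ 2 / (4 * β)) else 0) *
      (if (z.2 : ZMod p) = x - y ∧ z.2 % 2 = (c : ℤ) then
        Real.exp (-(z.2 : ℝ) ^ 2 / (4 * β)) else 0) := fun c =>
    summable_mul_of_summable_norm (h4 (c : ℤ) (x + y)) (h4 (c : ℤ) (x - y))
  unfold vw
  rw [tsum_mul_tsum_of_summable_norm (h2 x) (h2 y)]
  simp only [hP]
  rw [Fin.sum_univ_two, ← (hPs 0).tsum_add (hPs 1)]
  refine Eq.trans ?_ (VwTheta_inj.tsum_eq ?_)
  · refine tsum_congr fun n => ?_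
    obtain ⟨a, b⟩ := n
    have hi := VwTheta_ite hp x y a b
    have hz : ((0 : Fin 2) : ℤ) = 0 := rfl
    have ho : ((1 : Fin 2) : ℤ) = 1 := rfl
    simp only [hz, ho]
    by_cases hab : (a : ZMod p) = x ∧ (b : ZMod p) = y
    · obtain ⟨k1, k2⟩ := hi.2 hab
      rw [if_pos hab.1, if_pos hab.2]
      simp only [k1, k2, true_and]
      have key : Real.exp (-(a : ℝ) ^ 2 / (2 * β)) * Real.exp (-(b : ℝ) ^ 2 / (2 * β)) =
          Real.exp (-(((a + b : ℤ) : ℝ)) ^ 2 / (4 * β)) *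
            Real.exp (-(((a - b : ℤ) : ℝ)) ^ 2 / (4 * β)) := by
        rw [← Real.exp_add, ← Real.exp_add]
        congr 1
        push_cast
        field_simp
        ring
      rw [key]
      rcases Int.emod_two_eq_zero_or_one (a + b) with hr | hr
      · have hr' : (a - b) % 2 = 0 := by omega
        rw [if_pos hr, if_pos hr', if_neg (by omega), zero_mul, add_zero]
      · have hr' : (a - b) % 2 = 1 := by omega
        rw [if_neg (by omega), zero_mul, zero_add, if_pos hr, if_pos hr']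
    · have hl : (if (a : ZMod p) = x then Real.exp (-(a : ℝ) ^ 2 / (2 * β)) else 0) *
          (if (b : ZMod p) = y then Real.exp (-(b : ℝ) ^ 2 / (2 * β)) else 0) = 0 := by
        by_cases h5 : (a : ZMod p) = x
        · rw [if_neg (c := (b : ZMod p) = y) (fun h6 => hab ⟨h5, h6⟩), mul_zero]
        · rw [if_neg h5, zero_mul]
      refine hl.trans ?_
      have hr : ∀ c : ℤ, (if ((a + b : ℤ) : ZMod p) = x + y ∧ (a + b) % 2 = c then
            Real.exp (-(((a + b : ℤ) : ℝ)) ^ 2 / (4 * β)) else 0) *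
          (if ((a - b : ℤ) : ZMod p) = x - y ∧ (a - b) % 2 = c then
            Real.exp (-(((a - b : ℤ) : ℝ)) ^ 2 / (4 * β)) else 0) = 0 := by
        intro c
        by_cases h5 : ((a + b : ℤ) : ZMod p) = x + y
        · rw [if_neg (c := ((a - b : ℤ) : ZMod p) = x - y ∧ (a - b) % 2 = c)
            (fun h6 => hab (hi.1 ⟨h5, h6.1⟩)), mul_zero]
        · rw [if_neg (fun h6 => h5 h6.1), zero_mul]
      rw [hr 0, hr 1, add_zero]
  · intro n hn
    obtain ⟨a, b⟩ := n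
    have hz : ((0 : Fin 2) : ℤ) = 0 := rfl
    have ho : ((1 : Fin 2) : ℤ) = 1 := rfl
    have hpar : a % 2 = b % 2 := by
      by_contra hne
      apply hn
      change _ + _ = (0 : ℝ)
      simp only [hz, ho]
      have hr : ∀ c : ℤ, (if ((a : ℤ) : ZMod p) = x + y ∧ a % 2 = c then
            Real.exp (-((a : ℝ)) ^ 2 / (4 * β)) else 0) *
          (if ((b : ℤ) : ZMod p) = x - y ∧ b % 2 = c then
            Real.exp (-((b : ℝ)) ^ 2 / (4 * β)) else 0) = 0 := by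
        intro c
        by_cases h5 : a % 2 = c
        · rw [if_neg (c := (b : ZMod p) = x - y ∧ b % 2 = c)
            (fun h6 => hne (h5.trans h6.2.symm)), mul_zero]
        · rw [if_neg (fun h6 => h5 h6.2), zero_mul]
      rw [hr 0, hr 1, add_zero]
    refine ⟨((a + b) / 2, (a - b) / 2), ?_⟩
    refine Prod.ext ?_ ?_
    · change (a + b) / 2 + (a - b) / 2 = a
      omega
    · change (a + b) / 2 - (a - b) / 2 = b
      omega

end Pool.Agent.Lib.MP_6d8312_an.KD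
end
end

section

/-!
# The normalised Villain kernel

Combine the previous files with `w = vw β` (`theta_vw`, `vw_nonneg`, `vw_even`, `one_le_vw_zero`,
`sum_vw`) and `F = dl` (`theta_dl`).
`fS_dbl`: `Dbl.ineq` for `Dbl.KK hp (dbl_vw ..)`.  `fS_pow`: induction on `k`, using
`2^(k+1) * β = 2 * (2^k * β)` and `0 ≤ fS ≤ 1`.
`sum_fS_le`: `sum_KK`, `∑ dl = 1`, `kf ≥ 1`.
`fS_self`: `S = insert s S'`, `S' = S.erase s`: `kf S (j s) = ∑_l vw l * kf S' (j s - l s) ≥
vw j * kf S' 0` and `kf S 0 = ∑_l vw l kf S' (-l s) ≤ ph β * kf S' 0` (`kf S' ≤ kf S' 0`).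
`sum_fS_mul`: `sum_KK_mul`.
-/

set_option autoImplicit false

noncomputable section

namespace Pool.Agent.Lib.MP_6d8312_an.KD

open Finset

variable {p : ℕ} [Fact p.Prime]

theorem one_le_kf (hp : p ≠ 2) {β : ℝ} (hβ : 0 < β) (S : Finset (ZMod p)) : 1 ≤ kf β S 0 := by
  have h := KK_ge (w := vw β) (F := dl) (fun j => vw_nonneg β j) (one_le_vw_zero hβ)
    (fun v => by unfold dl; split_ifs <;> norm_num) S (0 : ZMod p)
  have h0 : (dl (0 : ZMod p)) = 1 := by simp [dl]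
  rw [h0] at h
  exact h

theorem nu_nonneg (hp : p ≠ 2) {β : ℝ} (hβ : 0 < β) (S : Finset (ZMod p)) : 0 ≤ nu β S := by
  exact Real.log_nonneg (one_le_kf hp hβ S)

theorem fS_t2 (hp : p ≠ 2) {β : ℝ} (hβ : 0 < β) (S : Finset (ZMod p)) : T2 (fS β S) := by
  have h : Theta (kf β S) := Theta.KK hp (theta_vw hp hβ) (theta_dl hp) S
  exact h.t2 (lt_of_lt_of_le one_pos (one_le_kf hp hβ S))

theorem theta_fS (hp : p ≠ 2) {β : ℝ} (hβ : 0 < β) (S : Finset (ZMod p)) : Theta (fS β S) := by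
  have h : Theta (kf β S) := Theta.KK hp (theta_vw hp hβ) (theta_dl hp) S
  have h2 := h.smul (kf β S 0)⁻¹
  have h3 : (fun v => (kf β S 0)⁻¹ * kf β S v) = fS β S := by
    funext v; unfold fS; rw [div_eq_inv_mul]
  rw [h3] at h2
  exact h2

theorem fS_mono (hp : p ≠ 2) {β : ℝ} (hβ : 0 < β) {S T : Finset (ZMod p)} (h : S ⊆ T)
    (v : ZMod p) : fS β S v ≤ fS β T v := by
  exact KK_mono hp (theta_vw hp hβ) (one_le_vw_zero hβ) (fun j => vw_nonneg β j)
    (fun j => vw_even β j) (theta_dl hp) (by simp [dl]) h v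

theorem fS_empty {β : ℝ} {v : ZMod p} (hv : v ≠ 0) : fS β ∅ v = 0 := by
  unfold fS kf
  rw [KK_empty']
  simp [dl, hv]

theorem sum_fS_le (hp : p ≠ 2) {β : ℝ} (hβ : 0 < β) (S : Finset (ZMod p)) :
    ∑ v, fS β S v ≤ ph β ^ S.card := by
  have h1 : ∑ v, kf β S v = ph β ^ S.card := by
    unfold kf
    rw [sum_KK, sum_vw hβ]
    have : ∑ v : ZMod p, dl v = 1 := by simp [dl]
    rw [this, mul_one]
  have h2 : ∑ v, fS β S v = (∑ v, kf β S v) / kf β S 0 := by
    unfold fS; rw [Finset.sum_div]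
  rw [h2, h1]
  exact div_le_self (pow_nonneg (le_trans zero_le_one (one_le_ph hβ)) _) (one_le_kf hp hβ S)

theorem fS_dbl (hp : p ≠ 2) {β : ℝ} (hβ : 0 < β) (S : Finset (ZMod p)) (v : ZMod p) :
    fS β S v ≤ fS (2 * β) S v ^ 2 := by
  have hβ2 : 0 < 2 * β := by positivity
  have hk : 0 < kf β S 0 := lt_of_lt_of_le one_pos (one_le_kf hp hβ S)
  have hk2 : 0 < kf (2 * β) S 0 := lt_of_lt_of_le one_pos (one_le_kf hp hβ2 S)
  have h := Dbl.ineq (Dbl.KK hp (dbl_vw hp hβ) S) hk v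
  unfold fS
  rw [div_pow, div_le_div_iff₀ hk (by positivity)]
  exact h

theorem fS_pow (hp : p ≠ 2) {β : ℝ} (hβ : 0 < β) (S : Finset (ZMod p)) (v : ZMod p) (k : ℕ) :
    fS β S v ≤ fS (2 ^ k * β) S v ^ (2 ^ k) := by
  induction k with
  | zero => simp
  | succ k ih =>
    have hβk : 0 < 2 ^ k * β := by positivity
    refine ih.trans ?_
    have h1 := fS_dbl hp hβk S v
    have h2 : (2 : ℝ) * (2 ^ k * β) = 2 ^ (k + 1) * β := by ring
    rw [h2] at h1
    calc fS (2 ^ k * β) S v ^ (2 ^ k) ≤ (fS (2 ^ (k + 1) * β) S v ^ 2) ^ (2 ^ k) :=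
          pow_le_pow_left₀ ((fS_t2 hp hβk S).nonneg v) h1 _
      _ = fS (2 ^ (k + 1) * β) S v ^ (2 ^ (k + 1)) := by rw [← pow_mul]; congr 1; ring

theorem fS_self (hp : p ≠ 2) {β : ℝ} (hβ : 0 < β) {S : Finset (ZMod p)} {s : ZMod p}
    (hs : s ∈ S) (j : ℤ) :
    Real.exp (-(j : ℝ) ^ 2 / (2 * β)) / ph β ≤ fS β S ((j : ZMod p) * s) := by
  classical
  have hk0 : 0 < kf β S 0 := lt_of_lt_of_le one_pos (one_le_kf hp hβ S)
  have hk'0 : 0 < kf β (S.erase s) 0 := lt_of_lt_of_le one_pos (one_le_kf hp hβ (S.erase s))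
  have hT := fS_t2 hp hβ (S.erase s)
  have hkn : ∀ v, 0 ≤ kf β (S.erase s) v := by
    intro v
    have h := hT.nonneg v
    unfold fS at h
    have h2 := mul_nonneg h hk'0.le
    rwa [div_mul_cancel₀ _ hk'0.ne'] at h2
  have hkle : ∀ v, kf β (S.erase s) v ≤ kf β (S.erase s) 0 := by
    intro v
    have h := hT.le_one v
    unfold fS at h
    rwa [div_le_one hk'0] at h
  have hins : ∀ v, kf β S v = ∑ l, vw β l * kf β (S.erase s) (v - l * s) := by
    intro v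
    have h1 : KK (vw β) dl (insert s (S.erase s)) = op (vw β) s (KK (vw β) dl (S.erase s)) :=
      KK_insert' _ _ (Finset.notMem_erase s S)
    rw [Finset.insert_erase hs] at h1
    unfold kf
    rw [h1]; rfl
  have hup : kf β S 0 ≤ ph β * kf β (S.erase s) 0 := by
    rw [hins 0, ← sum_vw (p := p) hβ, Finset.sum_mul]
    exact Finset.sum_le_sum fun l _ => mul_le_mul_of_nonneg_left (hkle _) (vw_nonneg β l)
  have hlow : Real.exp (-(j : ℝ) ^ 2 / (2 * β)) * kf β (S.erase s) 0 ≤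
      kf β S ((j : ZMod p) * s) := by
    rw [hins]
    refine le_trans ?_ (Finset.single_le_sum (f := fun l => vw β l *
      kf β (S.erase s) ((j : ZMod p) * s - l * s))
      (fun l _ => mul_nonneg (vw_nonneg β l) (hkn _)) (Finset.mem_univ (j : ZMod p)))
    simp only [sub_self]
    exact mul_le_mul_of_nonneg_right (exp_le_vw hβ j) hk'0.le
  have hph : 0 < ph β := lt_of_lt_of_le one_pos (one_le_ph hβ)
  unfold fS
  rw [div_le_div_iff₀ hph hk0]
  calc Real.exp (-(j : ℝ) ^ 2 / (2 * β)) * kf β S 0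
      ≤ Real.exp (-(j : ℝ) ^ 2 / (2 * β)) * (ph β * kf β (S.erase s) 0) :=
        mul_le_mul_of_nonneg_left hup (Real.exp_pos _).le
    _ = (Real.exp (-(j : ℝ) ^ 2 / (2 * β)) * kf β (S.erase s) 0) * ph β := by ring
    _ ≤ kf β S ((j : ZMod p) * s) * ph β := mul_le_mul_of_nonneg_right hlow hph.le

theorem sum_fS_mul (hp : p ≠ 2) {β : ℝ} (hβ : 0 < β) {U R : Finset (ZMod p)}
    (h : Disjoint U R) :
    ∑ v, fS β U v * fS β R v = Real.exp (nu β (U ∪ R) - nu β U - nu β R) := by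
  have hU : 0 < kf β U 0 := lt_of_lt_of_le one_pos (one_le_kf hp hβ U)
  have hR : 0 < kf β R 0 := lt_of_lt_of_le one_pos (one_le_kf hp hβ R)
  have hUR : 0 < kf β (U ∪ R) 0 := lt_of_lt_of_le one_pos (one_le_kf hp hβ (U ∪ R))
  unfold nu
  rw [Real.exp_sub, Real.exp_sub, Real.exp_log hU, Real.exp_log hR, Real.exp_log hUR]
  have h1 := sum_KK_mul (w := vw β) (fun j => vw_even β j) h
  unfold fS
  have h2 : ∀ v, kf β U v / kf β U 0 * (kf β R v / kf β R 0) =
      (kf β U v * kf β R v) / (kf β U 0 * kf β R 0) := fun v => div_mul_div_comm _ _ _ _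
  rw [Finset.sum_congr rfl fun v _ => h2 v, ← Finset.sum_div]
  have h3 : ∑ v, kf β U v * kf β R v = kf β (U ∪ R) 0 := h1
  rw [h3, div_div]

end Pool.Agent.Lib.MP_6d8312_an.KD
end
end

section

/-!
# The shift inequality for the Villain weights

`vw β (x + j) = ∑'_{m ≡ x} exp (-(m+j)²/(2β))` (shift the summation variable by `j`,
`Equiv.addRight`), similarly for `x - j`; and `exp(-(m+j)²/(2β)) + exp(-(m-j)²/(2β)) ≥
2 exp (-(m²+j²)/(2β))` (`a + b ≥ 2 √(ab)`).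
`op_shift`: `op (vw β) s Q (j s) = ∑_l vw(l) Q((j-l) s) = ∑_l vw(l+j) Q(-l s)`, and symmetrising
`l → -l` (with `Q`, `vw` even) this is `(1/2) ∑_l (vw(l+j) + vw(l-j)) Q(l s) ≥
exp(-j²/(2β)) ∑_l vw(l) Q(l s) = exp(-j²/(2β)) op (vw β) s Q 0`.
-/

set_option autoImplicit false

noncomputable section

namespace Pool.Agent.Lib.MP_6d8312_an.KD

open Finset

variable {p : ℕ} [Fact p.Prime]

theorem vw_shift {β : ℝ} (hβ : 0 < β) (j : ℤ) (x : ZMod p) :
    2 * Real.exp (-(j : ℝ) ^ 2 / (2 * β)) * vw β x ≤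
      vw β (x + (j : ZMod p)) + vw β (x - (j : ZMod p)) := by
  have hsum : ∀ i : ℤ, Summable (fun n : ℤ => if (n : ZMod p) = x then
      Real.exp (-((n + i : ℤ) : ℝ) ^ 2 / (2 * β)) else 0) := by
    intro i
    have h1 : Summable (fun n : ℤ => Real.exp (-((n + i : ℤ) : ℝ) ^ 2 / (2 * β))) :=
      (summable_gauss hβ).comp_injective (Equiv.addRight i).injective
    refine Summable.of_nonneg_of_le (fun n => ?_) (fun n => ?_) h1
    · split_ifs
      · exact (Real.exp_pos _).le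
      · exact le_rfl
    · split_ifs
      · exact le_rfl
      · exact (Real.exp_pos _).le
  have hshift : ∀ i : ℤ, vw β (x + (i : ZMod p)) = ∑' n : ℤ, if (n : ZMod p) = x then
      Real.exp (-((n + i : ℤ) : ℝ) ^ 2 / (2 * β)) else 0 := by
    intro i
    unfold vw
    rw [← (Equiv.addRight i).tsum_eq (fun m : ℤ => if (m : ZMod p) = x + (i : ZMod p) then
      Real.exp (-(m : ℝ) ^ 2 / (2 * β)) else 0)]
    refine tsum_congr fun n => ?_
    have h2 : (((Equiv.addRight i) n : ℤ) : ZMod p) = x + (i : ZMod p) ↔ (n : ZMod p) = x := by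
      rw [Equiv.coe_addRight, Int.cast_add]
      exact add_left_inj _
    simp only [h2]
    rfl
  have h0 : vw β x = ∑' n : ℤ, if (n : ZMod p) = x then
      Real.exp (-(n : ℝ) ^ 2 / (2 * β)) else 0 := rfl
  have h3 : x - (j : ZMod p) = x + ((-j : ℤ) : ZMod p) := by
    push_cast
    ring
  rw [h3, hshift j, hshift (-j), h0, ← tsum_mul_left, ← (hsum j).tsum_add (hsum (-j))]
  have hs0 := hsum 0
  simp only [add_zero] at hs0
  refine Summable.tsum_le_tsum (fun n => ?_) (hs0.mul_left _) ((hsum j).add (hsum (-j)))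
  split_ifs with hn
  · have e1 : Real.exp (-((n + j : ℤ) : ℝ) ^ 2 / (2 * β)) =
        Real.exp (-((n : ℝ) + j) ^ 2 / (4 * β)) ^ 2 := by
      rw [← Real.exp_nat_mul]
      congr 1
      push_cast
      field_simp
      ring
    have e2 : Real.exp (-((n + -j : ℤ) : ℝ) ^ 2 / (2 * β)) =
        Real.exp (-((n : ℝ) - j) ^ 2 / (4 * β)) ^ 2 := by
      rw [← Real.exp_nat_mul]
      congr 1
      push_cast
      field_simp
      ring
    have e3 : Real.exp (-(j : ℝ) ^ 2 / (2 * β)) * Real.exp (-(n : ℝ) ^ 2 / (2 * β)) =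
        Real.exp (-((n : ℝ) + j) ^ 2 / (4 * β)) * Real.exp (-((n : ℝ) - j) ^ 2 / (4 * β)) := by
      rw [← Real.exp_add, ← Real.exp_add]
      congr 1
      field_simp
      ring
    rw [e1, e2, mul_assoc, e3]
    nlinarith [sq_nonneg (Real.exp (-((n : ℝ) + j) ^ 2 / (4 * β)) -
      Real.exp (-((n : ℝ) - j) ^ 2 / (4 * β)))]
  · simp

theorem op_shift {β : ℝ} (hβ : 0 < β) {Q : ZMod p → ℝ} (hQ : ∀ v, 0 ≤ Q v)
    (hQe : ∀ v, Q (-v) = Q v) (s : ZMod p) (j : ℤ) :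
    Real.exp (-(j : ℝ) ^ 2 / (2 * β)) * op (vw β) s Q 0 ≤ op (vw β) s Q ((j : ZMod p) * s) := by
  have h0 : op (vw β) s Q 0 = ∑ l, vw β l * Q (l * s) := by
    unfold op
    refine Finset.sum_congr rfl fun l _ => ?_
    rw [zero_sub, hQe]
  have h1 : op (vw β) s Q ((j : ZMod p) * s) = ∑ l, vw β (l + (j : ZMod p)) * Q (l * s) := by
    unfold op
    rw [← Equiv.sum_comp (Equiv.addRight (j : ZMod p))]
    refine Finset.sum_congr rfl fun l _ => ?_
    rw [Equiv.coe_addRight, ← hQe (l * s)]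
    congr 2
    ring
  have h2 : op (vw β) s Q ((j : ZMod p) * s) = ∑ l, vw β (l - (j : ZMod p)) * Q (l * s) := by
    rw [h1, ← Equiv.sum_comp (Equiv.neg (ZMod p))]
    refine Finset.sum_congr rfl fun l _ => ?_
    rw [Equiv.neg_apply, ← vw_even β (l - (j : ZMod p)), ← hQe (l * s)]
    congr 2
    · ring
    · ring
  have h3 : 2 * (Real.exp (-(j : ℝ) ^ 2 / (2 * β)) * op (vw β) s Q 0) ≤
      op (vw β) s Q ((j : ZMod p) * s) + op (vw β) s Q ((j : ZMod p) * s) := by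
    conv_rhs => lhs; rw [h1]
    conv_rhs => rhs; rw [h2]
    rw [h0, ← Finset.sum_add_distrib, Finset.mul_sum, Finset.mul_sum]
    refine Finset.sum_le_sum fun l _ => ?_
    have h4 := mul_le_mul_of_nonneg_right (vw_shift hβ j l) (hQ (l * s))
    linarith
  linarith

end Pool.Agent.Lib.MP_6d8312_an.KD
end
end

section

/-!
# Attachment

`fS 1 (insert s R) y ≥ exp(-m)` means `∑_x vw 1 x kf 1 R (y - x s) ≥ exp(-m) kf 1 (insert s R) 0 ≥
exp(-m) kf 1 R 0` (`KK_insert'`, `KK_ge`), so with `f = fS 1 R`: `∑_x vw 1 x f(y - x s) ≥ exp(-m)`.  By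
`sum_vw_le` and `4 exp(-(m+1)²/2) ≤ exp(-m)/2` (`m ≥ 4`): `∑_{|j|≤m} exp(-j²/2) f(y - j s) ≥ exp(-m)/2`,
and `∑_{|j|≤m} exp(-j²/2) ≤ ph 1 ≤ 5`, so some `|j| ≤ m` has `f(y - j s) ≥ exp(-m)/10 ≥ exp(-2m²)`.
`fS 1 U (j s) ≥ exp(-m²/2)/5` (`fS_self`), so by `T2.sub_ge` `fS 1 U (y - j s) ≥ (fS 1 U y fS 1 U (j s))² ≥
exp(-2m) exp(-m²)/25 ≥ exp(-2m²)` (`m ≥ 4`).  By `fS_pow` (`β = 1`): `fS (2^k) _ ≥ exp(-2m²/2^k) ≥
exp(-1/10) ≥ 9/10` for both, and `(9/10)² ≥ 3/4`.
(If `s ∈ R` then `insert s R = R`: use `vw 1 0 ≥ 1`-term only: then `f y ≥ exp(-m)` and `j = 0`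
works.)
-/

set_option autoImplicit false

noncomputable section

namespace Pool.Agent.Lib.MP_6d8312_an.KD

open Finset

variable {p : ℕ} [Fact p.Prime]

/-- `a` is attached to `U` (for the pair `U, R`). -/
def Att (β : ℝ) (m : ℕ) (i : ZMod p) (U R : Finset (ZMod p)) (a : ZMod p) : Prop :=
  ∃ s ∈ U, ∃ j : ℤ, |j| ≤ m ∧
    3 / 4 ≤ fS β U (i * a - (j : ZMod p) * s) * fS β R (i * a - (j : ZMod p) * s)

private theorem Attach_insert (hp : p ≠ 2) {R : Finset (ZMod p)} {s : ZMod p} (hs : s ∉ R)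
    (y : ZMod p) : fS 1 (insert s R) y ≤ ∑ x, vw 1 x * fS 1 R (y - x * s) := by
  have h1 : (1 : ℝ) ≤ kf 1 R 0 := one_le_kf hp one_pos R
  have hpos : (0 : ℝ) < kf 1 R 0 := lt_of_lt_of_le one_pos h1
  have hnn : ∀ v, 0 ≤ kf 1 R v := fun v => by
    have h := (fS_t2 hp one_pos R).nonneg v
    have h2 : kf 1 R v = fS 1 R v * kf 1 R 0 := by
      unfold fS
      field_simp
    rw [h2]
    exact mul_nonneg h hpos.le
  have hins : kf 1 (insert s R) = op (vw 1) s (kf 1 R) := KK_insert' _ _ hs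
  have h0 : kf 1 R 0 ≤ kf 1 (insert s R) 0 := by
    rw [hins]
    unfold op
    have := Finset.single_le_sum (f := fun j : ZMod p => vw 1 j * kf 1 R (0 - j * s))
      (fun j _ => mul_nonneg (vw_nonneg 1 j) (hnn _)) (Finset.mem_univ (0 : ZMod p))
    simp only [zero_mul, sub_zero] at this
    refine le_trans ?_ this
    have hv : (1 : ℝ) ≤ vw 1 (0 : ZMod p) := one_le_vw_zero one_pos
    nlinarith
  have hfy : 0 ≤ kf 1 (insert s R) y := by
    rw [hins]
    unfold op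
    exact Finset.sum_nonneg fun j _ => mul_nonneg (vw_nonneg 1 j) (hnn _)
  calc fS 1 (insert s R) y = kf 1 (insert s R) y / kf 1 (insert s R) 0 := rfl
    _ ≤ kf 1 (insert s R) y / kf 1 R 0 := div_le_div_of_nonneg_left hfy hpos h0
    _ = ∑ x, vw 1 x * fS 1 R (y - x * s) := by
        rw [hins]
        unfold op fS
        rw [Finset.sum_div]
        refine Finset.sum_congr rfl fun x _ => ?_
        rw [mul_div_assoc]

private theorem Attach_find (hp : p ≠ 2) (m : ℕ) (hm : 4 ≤ m) {R : Finset (ZMod p)}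
    {y s : ZMod p} (hR : Real.exp (-m) ≤ fS 1 (insert s R) y) :
    ∃ j : ℤ, |j| ≤ m ∧ Real.exp (-m) / 10 ≤ fS 1 R (y - (j : ZMod p) * s) := by
  have hm' : (4 : ℝ) ≤ m := by exact_mod_cast hm
  by_cases hs : s ∈ R
  · refine ⟨0, by simp, ?_⟩
    rw [Finset.insert_eq_of_mem hs] at hR
    simp only [Int.cast_zero, zero_mul, sub_zero]
    have := Real.exp_pos (-(m : ℝ))
    linarith
  · have h1 := le_trans hR (Attach_insert hp hs y)
    have ht := fS_t2 hp (one_pos : (0 : ℝ) < 1) R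
    have h2 := sum_vw_le (p := p) m (by omega) (fun x => fS 1 R (y - x * s))
      (fun x => ht.nonneg _) (fun x => ht.le_one _)
    have h3 : 4 * Real.exp (-((m : ℝ) + 1) ^ 2 / 2) ≤ Real.exp (-m) / 2 := by
      have h4 : Real.exp (-((m : ℝ) + 1) ^ 2 / 2) * Real.exp (((m : ℝ) ^ 2 + 1) / 2) =
          Real.exp (-m) := by
        rw [← Real.exp_add]
        congr 1
        ring
      have h5 : (8 : ℝ) ≤ Real.exp (((m : ℝ) ^ 2 + 1) / 2) := by
        have := Real.add_one_le_exp (((m : ℝ) ^ 2 + 1) / 2)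
        nlinarith
      have h6 := Real.exp_pos (-((m : ℝ) + 1) ^ 2 / 2)
      nlinarith
    by_contra hcon
    push Not at hcon
    have h7 : ∑ j ∈ Finset.Icc (-(m : ℤ)) m,
        Real.exp (-(j : ℝ) ^ 2 / 2) * fS 1 R (y - (j : ZMod p) * s) <
        ∑ j ∈ Finset.Icc (-(m : ℤ)) m, Real.exp (-(j : ℝ) ^ 2 / 2) * (Real.exp (-m) / 10) := by
      refine Finset.sum_lt_sum_of_nonempty ⟨0, by simp⟩ fun j hj => ?_
      rw [Finset.mem_Icc] at hj
      exact mul_lt_mul_of_pos_left (hcon j (abs_le.mpr hj)) (Real.exp_pos _)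
    rw [← Finset.sum_mul] at h7
    have h8 : ∑ j ∈ Finset.Icc (-(m : ℤ)) m, Real.exp (-(j : ℝ) ^ 2 / 2) ≤ 5 := by
      have h9 : ph 1 ≤ 1 + 4 * 1 := ph_le one_pos
      have h10 := (summable_gauss (one_pos : (0 : ℝ) < 1)).sum_le_tsum
        (Finset.Icc (-(m : ℤ)) m) (fun j _ => (Real.exp_pos _).le)
      have h11 : ph 1 = ∑' j : ℤ, Real.exp (-(j : ℝ) ^ 2 / (2 * 1)) := rfl
      rw [← h11] at h10
      simp only [mul_one] at h10
      linarith
    have h12 := Real.exp_pos (-(m : ℝ))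
    have h13 : (∑ j ∈ Finset.Icc (-(m : ℤ)) m, Real.exp (-(j : ℝ) ^ 2 / 2)) *
        (Real.exp (-m) / 10) ≤ 5 * (Real.exp (-m) / 10) :=
      mul_le_mul_of_nonneg_right h8 (by positivity)
    linarith

private theorem Attach_pow (hp : p ≠ 2) (m k : ℕ) (hk : 20 * (m : ℝ) ^ 2 ≤ 2 ^ k)
    {S : Finset (ZMod p)} {v : ZMod p} (h : Real.exp (-(2 * (m : ℝ) ^ 2)) ≤ fS 1 S v) :
    9 / 10 ≤ fS (2 ^ k) S v := by
  have h1 := le_trans h (fS_pow hp one_pos S v k)
  rw [mul_one] at h1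
  have hnn : 0 ≤ fS (2 ^ k) S v := (fS_t2 hp (by positivity) S).nonneg v
  have h2 : Real.exp (-(1 / 10)) ≤ fS (2 ^ k) S v := by
    by_contra hcon
    push Not at hcon
    have h3 : fS (2 ^ k) S v ^ (2 ^ k) < Real.exp (-(1 / 10)) ^ (2 ^ k) :=
      pow_lt_pow_left₀ hcon hnn (by positivity)
    rw [← Real.exp_nat_mul] at h3
    have h4 : Real.exp (((2 ^ k : ℕ) : ℝ) * -(1 / 10)) ≤ Real.exp (-(2 * (m : ℝ) ^ 2)) := by
      rw [Real.exp_le_exp]
      push_cast
      linarith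
    linarith
  have h5 := Real.add_one_le_exp (-(1 / 10) : ℝ)
  linarith

theorem attach (hp : p ≠ 2) (m k : ℕ) (hm : 4 ≤ m) (hk : 20 * (m : ℝ) ^ 2 ≤ 2 ^ k)
    {U R : Finset (ZMod p)} {i a s : ZMod p} (hs : s ∈ U)
    (hU : Real.exp (-m) ≤ fS 1 U (i * a)) (hR : Real.exp (-m) ≤ fS 1 (insert s R) (i * a)) :
    Att (2 ^ k) m i U R a := by
  have hm' : (4 : ℝ) ≤ m := by exact_mod_cast hm
  obtain ⟨j, hj, hjR⟩ := Attach_find hp m hm hR
  refine ⟨s, hs, j, hj, ?_⟩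
  have hR1 : Real.exp (-(2 * (m : ℝ) ^ 2)) ≤ fS 1 R (i * a - (j : ZMod p) * s) := by
    refine le_trans ?_ hjR
    have h1 : Real.exp (-(2 * (m : ℝ) ^ 2)) * Real.exp (2 * (m : ℝ) ^ 2 - m) =
        Real.exp (-m) := by
      rw [← Real.exp_add]
      congr 1
      ring
    have h2 : (10 : ℝ) ≤ Real.exp (2 * (m : ℝ) ^ 2 - m) := by
      have := Real.add_one_le_exp (2 * (m : ℝ) ^ 2 - m)
      nlinarith
    have h3 := Real.exp_pos (-(2 * (m : ℝ) ^ 2))
    nlinarith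
  have hU1 : Real.exp (-(2 * (m : ℝ) ^ 2)) ≤ fS 1 U (i * a - (j : ZMod p) * s) := by
    have ht := fS_t2 hp (one_pos : (0 : ℝ) < 1) U
    refine le_trans ?_ (ht.sub_ge (i * a) ((j : ZMod p) * s))
    have h1 := fS_self hp (one_pos : (0 : ℝ) < 1) hs j
    have hph : ph 1 ≤ 1 + 4 * 1 := ph_le one_pos
    have hph1 : 1 ≤ ph 1 := one_le_ph one_pos
    have h2 : Real.exp (-(m : ℝ) ^ 2 / 2) / 5 ≤ fS 1 U ((j : ZMod p) * s) := by
      refine le_trans ?_ h1
      have h3 : Real.exp (-(m : ℝ) ^ 2 / 2) ≤ Real.exp (-(j : ℝ) ^ 2 / (2 * 1)) := by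
        rw [Real.exp_le_exp]
        have h4 : (j : ℝ) ^ 2 ≤ (m : ℝ) ^ 2 := by
          rw [sq_le_sq, Nat.abs_cast]
          exact_mod_cast hj
        linarith
      exact div_le_div₀ (Real.exp_pos _).le h3 (by linarith) (by linarith)
    have h5 : Real.exp (-(m : ℝ) ^ 2) ≤ fS 1 U (i * a) * fS 1 U ((j : ZMod p) * s) := by
      have h6 : Real.exp (-m) * (Real.exp (-(m : ℝ) ^ 2 / 2) / 5) ≤
          fS 1 U (i * a) * fS 1 U ((j : ZMod p) * s) :=
        mul_le_mul hU h2 (by positivity) (le_trans (Real.exp_pos _).le hU)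
      refine le_trans ?_ h6
      have h7 : Real.exp (-m) * (Real.exp (-(m : ℝ) ^ 2 / 2) / 5) =
          Real.exp (-(m : ℝ) ^ 2) * Real.exp ((m : ℝ) ^ 2 / 2 - m) / 5 := by
        rw [← mul_div_assoc, ← Real.exp_add, ← Real.exp_add]
        congr 2
        ring
      rw [h7]
      have h8 : (5 : ℝ) ≤ Real.exp ((m : ℝ) ^ 2 / 2 - m) := by
        have := Real.add_one_le_exp ((m : ℝ) ^ 2 / 2 - m)
        nlinarith
      have h9 := Real.exp_pos (-(m : ℝ) ^ 2)
      rw [le_div_iff₀ (by norm_num)]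
      nlinarith
    calc Real.exp (-(2 * (m : ℝ) ^ 2)) = Real.exp (-(m : ℝ) ^ 2) ^ 2 := by
          rw [← Real.exp_nat_mul]
          congr 1
          push_cast
          ring
      _ ≤ _ := pow_le_pow_left₀ (Real.exp_pos _).le h5 2
  have h1 := Attach_pow hp m k hk hU1
  have h2 := Attach_pow hp m k hk hR1
  calc (3 / 4 : ℝ) ≤ (9 / 10) * (9 / 10) := by norm_num
    _ ≤ _ := mul_le_mul h1 h2 (by norm_num) (by linarith)

end Pool.Agent.Lib.MP_6d8312_an.KD
end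
end

section

/-!
# The exceptional event

Fix `S` and let `FF = {U ⊆ S | u ≤ fS β U (i a) and for all s ∈ U not u ≤ fS β (insert s (S \ U)) (i a)}`.
If `FF` is empty the inner expectation is `0`.  Otherwise `u ≤ fS β S (i a)` by `fS_mono`, and it is
enough to prove that `FF` is 2-intersecting (`two_intersecting`).  `U ∈ FF` is nonempty
(`fS_empty`, `i a ≠ 0`, `u > 0`).  Let `U, U' ∈ FF`.  If `U ∩ U' = ∅`, take `s ∈ U`: `U' ⊆ S \ U ⊆
insert s (S \ U)`, so `u ≤ fS β U' ≤ fS β (insert s (S \ U))`, a contradiction; if `U ∩ U' = {s}`, then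
`U' ⊆ insert s (S \ U)`, the same contradiction.
-/

set_option autoImplicit false

noncomputable section

namespace Pool.Agent.Lib.MP_6d8312_an.KD

open Finset

variable {p : ℕ} [Fact p.Prime]

open Classical in
private theorem EvTwo_aux (hp : p ≠ 2) {β : ℝ} (hβ : 0 < β) {u : ℝ} (hu : 0 < u)
    {y : ZMod p} (hy : y ≠ 0) (S U U' : Finset (ZMod p)) (hU : U ⊆ S) (hU' : U' ⊆ S)
    (h1 : u ≤ fS β U y) (h2 : ∀ s ∈ U, ¬ u ≤ fS β (insert s (S \ U)) y)
    (h1' : u ≤ fS β U' y) : 2 ≤ (U ∩ U').card := by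
  by_contra hlt
  have hne : U.Nonempty := by
    rw [Finset.nonempty_iff_ne_empty]
    rintro rfl
    rw [fS_empty hy] at h1
    linarith
  have hcard : (U ∩ U').card ≤ 1 := by omega
  -- there is `s ∈ U` with `U' ⊆ insert s (S \ U)`
  obtain ⟨s, hs, hsub⟩ : ∃ s ∈ U, U' ⊆ insert s (S \ U) := by
    rcases (U ∩ U').eq_empty_or_nonempty with h0 | ⟨s, hs⟩
    · obtain ⟨s, hs⟩ := hne
      refine ⟨s, hs, fun x hx => ?_⟩
      rw [Finset.mem_insert, Finset.mem_sdiff]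
      right
      refine ⟨hU' hx, fun hxU => ?_⟩
      have : x ∈ U ∩ U' := Finset.mem_inter.2 ⟨hxU, hx⟩
      rw [h0] at this
      simp at this
    · refine ⟨s, (Finset.mem_inter.1 hs).1, fun x hx => ?_⟩
      rw [Finset.mem_insert, Finset.mem_sdiff]
      by_cases hxU : x ∈ U
      · left
        exact Finset.card_le_one.1 hcard x (Finset.mem_inter.2 ⟨hxU, hx⟩) s hs
      · right
        exact ⟨hU' hx, hxU⟩
  exact h2 s hs (h1'.trans (fS_mono hp hβ hsub y))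

open Classical in
theorem ev_two (hp : p ≠ 2) {β : ℝ} (hβ : 0 < β) {l r u : ℝ} (hl0 : 0 ≤ l) (hl1 : l ≤ 1)
    (hr0 : 0 ≤ r) (hr1 : r ≤ 1 / 3) (hu : 0 < u) (A : Finset (ZMod p)) {y : ZMod p}
    (hy : y ≠ 0) :
    bern l A (fun S => bern r S (fun U =>
      if u ≤ fS β U y ∧ ∀ s ∈ U, ¬ u ≤ fS β (insert s (S \ U)) y then 1 else 0)) ≤
      (r / (1 - r)) ^ 2 * bern l A (fun S => if u ≤ fS β S y then 1 else 0) := by
  rw [← bern_mul_left]
  refine bern_mono hl0 hl1 fun S _ => ?_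
  by_cases hS : u ≤ fS β S y
  · rw [if_pos hS, mul_one]
    have key := two_intersecting hr0 hr1 S
      {U | u ≤ fS β U y ∧ ∀ s ∈ U, ¬ u ≤ fS β (insert s (S \ U)) y}
      (fun U hU U' hU' hUS hUS' =>
        EvTwo_aux hp hβ hu hy S U U' hUS hUS' hU.1 hU.2 hU'.1)
    refine le_trans (le_of_eq (bern_congr fun U _ => ?_)) key
    simp only [Set.mem_setOf_eq]
  · rw [if_neg hS, mul_zero]
    have h0 : ∀ U ⊆ S, (if u ≤ fS β U y ∧ ∀ s ∈ U, ¬ u ≤ fS β (insert s (S \ U)) y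
        then (1 : ℝ) else 0) = 0 := by
      intro U hU
      rw [if_neg]
      rintro ⟨h1, -⟩
      exact hS (h1.trans (fS_mono hp hβ hU y))
    rw [bern_congr h0, bern_const]

end Pool.Agent.Lib.MP_6d8312_an.KD
end
end

section

/-!
# Increments of `nu`

`Fa_eq`: `kf β (insert a S) 0 = ∑_v vw β v * kf β S (0 - v a)` and `kf` is even; divide by
`kf β S 0 ≥ 1`.  `Fa_mono`: `fS_mono` in `Fa_eq`.  `Fa_nonneg`: the term `v = 0` is `vw β 0 ≥ 1`.
`Fa_le`: `log y ≤ y - 1` and split off `v = 0` (`fS β S 0 = 1`).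
`nu_sub_le`: induction on `S \ R`: for `S = insert a S'`, `a ∉ S'`, `R ⊆ S'`:
`nu S - nu R = Fa a S' + (nu S' - nu R) ≤ Fa a S' + ∑_{b ∈ S'\R} Fa b (S'.erase b)` and
`Fa b (S'.erase b) ≤ Fa b (S.erase b)` (`Fa_mono`, `b ∉ S.erase b`), `S' = S.erase a`.
`bern_nu_le`: `nu_sub_le` with `R = ∅` (`nu β ∅ = log 1 = 0`), `bern_sum_mem`.
-/

set_option autoImplicit false

noncomputable section

namespace Pool.Agent.Lib.MP_6d8312_an.KD

open Finset

variable {p : ℕ} [Fact p.Prime]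

theorem nu_empty (β : ℝ) : nu β (∅ : Finset (ZMod p)) = 0 := by
  unfold nu kf
  rw [KK_empty']
  simp [dl]

theorem Fa_eq (hp : p ≠ 2) {β : ℝ} (hβ : 0 < β) {a : ZMod p} {S : Finset (ZMod p)}
    (ha : a ∉ S) : Fa β a S = Real.log (∑ v, vw β v * fS β S (v * a)) := by
  have hk : 0 < kf β S 0 := lt_of_lt_of_le one_pos (one_le_kf hp hβ S)
  have hk2 : 0 < kf β (insert a S) 0 := lt_of_lt_of_le one_pos (one_le_kf hp hβ (insert a S))
  unfold Fa nu
  rw [← Real.log_div hk2.ne' hk.ne']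
  congr 1
  have h1 : kf β (insert a S) 0 = ∑ v, vw β v * kf β S (0 - v * a) := by
    unfold kf
    rw [KK_insert' _ _ ha]
    rfl
  rw [h1, Finset.sum_div]
  refine Finset.sum_congr rfl fun v _ => ?_
  have h2 := (fS_t2 hp hβ S).even (v * a)
  rw [zero_sub, mul_div_assoc]
  congr 1

theorem Fa_mono (hp : p ≠ 2) {β : ℝ} (hβ : 0 < β) {a : ZMod p} {S T : Finset (ZMod p)}
    (h : S ⊆ T) (ha : a ∉ T) : Fa β a S ≤ Fa β a T := by
  have haS : a ∉ S := fun hh => ha (h hh)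
  rw [Fa_eq hp hβ haS, Fa_eq hp hβ ha]
  refine Real.log_le_log ?_ (Finset.sum_le_sum fun v _ =>
    mul_le_mul_of_nonneg_left (fS_mono hp hβ h _) (vw_nonneg β v))
  have h0 : vw β (0 : ZMod p) * fS β S (0 * a) ≤ ∑ v, vw β v * fS β S (v * a) :=
    Finset.single_le_sum (f := fun v => vw β v * fS β S (v * a))
      (fun v _ => mul_nonneg (vw_nonneg β v) ((fS_t2 hp hβ S).nonneg _)) (Finset.mem_univ 0)
  rw [zero_mul, (fS_t2 hp hβ S).zero, mul_one] at h0
  linarith [one_le_vw_zero (p := p) hβ]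

theorem Fa_nonneg (hp : p ≠ 2) {β : ℝ} (hβ : 0 < β) {a : ZMod p} {S : Finset (ZMod p)}
    (ha : a ∉ S) : 0 ≤ Fa β a S := by
  rw [Fa_eq hp hβ ha]
  apply Real.log_nonneg
  have h0 : vw β (0 : ZMod p) * fS β S (0 * a) ≤ ∑ v, vw β v * fS β S (v * a) :=
    Finset.single_le_sum (f := fun v => vw β v * fS β S (v * a))
      (fun v _ => mul_nonneg (vw_nonneg β v) ((fS_t2 hp hβ S).nonneg _)) (Finset.mem_univ 0)
  rw [zero_mul, (fS_t2 hp hβ S).zero, mul_one] at h0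
  linarith [one_le_vw_zero (p := p) hβ]

theorem Fa_le (hp : p ≠ 2) {β : ℝ} (hβ : 0 < β) {a : ZMod p} {S : Finset (ZMod p)}
    (ha : a ∉ S) :
    Fa β a S ≤ (vw β (0 : ZMod p) - 1) + ∑ v ∈ univ.erase 0, vw β v * fS β S (v * a) := by
  rw [Fa_eq hp hβ ha]
  have h0 : vw β (0 : ZMod p) * fS β S (0 * a) ≤ ∑ v, vw β v * fS β S (v * a) :=
    Finset.single_le_sum (f := fun v => vw β v * fS β S (v * a))
      (fun v _ => mul_nonneg (vw_nonneg β v) ((fS_t2 hp hβ S).nonneg _)) (Finset.mem_univ 0)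
  rw [zero_mul, (fS_t2 hp hβ S).zero, mul_one] at h0
  have hpos : 0 < ∑ v, vw β v * fS β S (v * a) := by
    linarith [one_le_vw_zero (p := p) hβ]
  have h1 := Real.log_le_sub_one_of_pos hpos
  have h2 : ∑ v, vw β v * fS β S (v * a) =
      vw β (0 : ZMod p) + ∑ v ∈ univ.erase 0, vw β v * fS β S (v * a) := by
    rw [← Finset.add_sum_erase _ _ (Finset.mem_univ (0 : ZMod p))]
    rw [zero_mul, (fS_t2 hp hβ S).zero, mul_one]
  linarith

theorem nu_sub_le (hp : p ≠ 2) {β : ℝ} (hβ : 0 < β) {R S : Finset (ZMod p)} (h : R ⊆ S) :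
    nu β S - nu β R ≤ ∑ a ∈ S \ R, Fa β a (S.erase a) := by
  classical
  obtain ⟨D, hD⟩ : ∃ D, D = S \ R := ⟨_, rfl⟩
  induction D using Finset.induction_on generalizing S with
  | empty =>
    have hSR : S = R := by
      apply Finset.Subset.antisymm _ h
      rw [← Finset.sdiff_eq_empty_iff_subset]; exact hD.symm
    rw [hSR]; simp
  | insert a D ha ih =>
    have haSR : a ∈ S \ R := by rw [← hD]; exact Finset.mem_insert_self _ _
    obtain ⟨haS, haR⟩ := Finset.mem_sdiff.mp haSR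
    have hRS' : R ⊆ S.erase a := Finset.subset_erase.mpr ⟨h, haR⟩
    have hD' : D = S.erase a \ R := by
      ext x
      have hx := congrArg (fun T => x ∈ T) hD
      simp only [Finset.mem_insert, Finset.mem_sdiff, eq_iff_iff] at hx
      simp only [Finset.mem_sdiff, Finset.mem_erase]
      constructor
      · intro hxD
        have h3 := hx.mp (Or.inr hxD)
        exact ⟨⟨fun hxa => ha (hxa ▸ hxD), h3.1⟩, h3.2⟩
      · rintro ⟨⟨hne, hxS⟩, hxR⟩
        rcases hx.mpr ⟨hxS, hxR⟩ with h4 | h4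
        · exact absurd h4 hne
        · exact h4
    have h1 := ih hRS' hD'
    have h2 : Fa β a (S.erase a) = nu β S - nu β (S.erase a) := by
      unfold Fa; rw [Finset.insert_erase haS]
    have h3 : S \ R = insert a (S.erase a \ R) := by rw [← hD', hD]
    have ha' : a ∉ S.erase a \ R := by rw [← hD']; exact ha
    rw [h3, Finset.sum_insert ha']
    have h4 : ∑ b ∈ S.erase a \ R, Fa β b ((S.erase a).erase b) ≤
        ∑ b ∈ S.erase a \ R, Fa β b (S.erase b) := by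
      refine Finset.sum_le_sum fun b hb => ?_
      exact Fa_mono hp hβ (Finset.erase_subset_erase _ (Finset.erase_subset _ _))
        (Finset.notMem_erase b S)
    linarith

theorem bern_nu_le (hp : p ≠ 2) {β : ℝ} (hβ : 0 < β) {l : ℝ} (h0 : 0 ≤ l) (h1 : l ≤ 1)
    (A : Finset (ZMod p)) :
    bern l A (nu β) ≤ l * ∑ a ∈ A, bern l (A.erase a) (Fa β a) := by
  classical
  rw [← bern_sum_mem]
  refine bern_mono h0 h1 fun S _ => ?_
  have h := nu_sub_le hp hβ (Finset.empty_subset S)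
  rw [nu_empty, sub_zero, Finset.sdiff_empty] at h
  exact h

end Pool.Agent.Lib.MP_6d8312_an.KD
end
end

section

/-!
# The expected overlap

For `U ⊆ S`: `nu S - nu U - nu (S \ U) ≤ nu S - nu (S \ U) ≤ ∑_{a ∈ U} Fa a (S.erase a)` (`nu_nonneg`,
`nu_sub_le`, `S \ (S \ U) = U`).  `bern r S (U ↦ ∑_{a∈U} F(a)) = r ∑_{a∈S} F(a)` (`bern_sum_mem` with
`f a _ = F a`, `bern_const`); then `bern l A (S ↦ r ∑_{a∈S} Fa a (S.erase a))` by `bern_sum_mem`.
-/

set_option autoImplicit false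

noncomputable section

namespace Pool.Agent.Lib.MP_6d8312_an.KD

open Finset

variable {p : ℕ} [Fact p.Prime]

theorem kprime_le (hp : p ≠ 2) {β : ℝ} (hβ : 0 < β) {l r : ℝ} (hl0 : 0 ≤ l) (hl1 : l ≤ 1)
    (hr0 : 0 ≤ r) (hr1 : r ≤ 1) (A : Finset (ZMod p)) :
    bern l A (fun S => bern r S (fun U => nu β S - nu β U - nu β (S \ U))) ≤
      l * r * ∑ a ∈ A, bern l (A.erase a) (Fa β a) := by
  have h1 : ∀ S ⊆ A, bern r S (fun U => nu β S - nu β U - nu β (S \ U)) ≤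
      r * ∑ a ∈ S, Fa β a (S.erase a) := by
    intro S _
    have h2 : bern r S (fun U => nu β S - nu β U - nu β (S \ U)) ≤
        bern r S (fun U => ∑ a ∈ U, (fun (a : ZMod p) (_ : Finset (ZMod p)) =>
          Fa β a (S.erase a)) a (U.erase a)) := by
      refine bern_mono hr0 hr1 fun U hU => ?_
      have h3 := nu_sub_le hp hβ (R := S \ U) (S := S) sdiff_subset
      rw [Finset.sdiff_sdiff_eq_self hU] at h3
      have h4 := nu_nonneg hp hβ U
      simp only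
      linarith
    refine h2.trans (le_of_eq ?_)
    refine (bern_sum_mem r S (fun (a : ZMod p) (_ : Finset (ZMod p)) =>
      Fa β a (S.erase a))).trans ?_
    simp only [bern_const]
  refine (bern_mono hl0 hl1 h1).trans (le_of_eq ?_)
  rw [bern_mul_left, bern_sum_mem]
  ring

end Pool.Agent.Lib.MP_6d8312_an.KD
end
end
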