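import Pool.Agent.Lib.MP_6d8312_an.Mg.G002
import Pool.Agent.Lib.MP_6d8312_an.Mg.G003
import Pool.Agent.Lib.MP_6d8312_an.Mg.G001

section

/-!
# The dimension inequality for Villain kernels

`F2S`: let `B ⊆ A` be QI with `B.card = qd A`; `i B = B.image (i * ·)` is QI of the same size.  By
`fS_pow` and `exp (-τ) ≤ fS β S (i a)`: `fS (2^k β) S (i a) ≥ exp (-τ/2^k) ≥ exp (-1/2) ≥ 1/2`.  `F2`
for `f = fS (2^k β) S` (`fS_t2`) gives `(3/2)^qd ≤ ∑ f ≤ ph(2^k β)^|S|`, take logarithms,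
`log (3/2) ≥ 2/5`.
`F2Q`: `f = fS β U * fS β R` is `T2` (`T2.mul'`), `F2`, `sum_fS_mul`.
-/

set_option autoImplicit false

noncomputable section

namespace Pool.Agent.Lib.MP_6d8312_an.KD

open Finset

variable {p : ℕ} [Fact p.Prime]

theorem F2S (hp : p ≠ 2) {β : ℝ} (hβ : 0 < β) (S A : Finset (ZMod p)) {i : ZMod p}
    (hi : i ≠ 0) (τ : ℝ) (k : ℕ) (hk : 2 * τ ≤ 2 ^ k)
    (h : ∀ a ∈ A, Real.exp (-τ) ≤ fS β S (i * a)) :
    (qd A : ℝ) ≤ 5 / 2 * S.card * Real.log (ph (2 ^ k * β)) := by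
  obtain ⟨B, hBA, hBQ, hBc⟩ := exists_qi A
  have hβ' : 0 < 2 ^ k * β := by positivity
  have hT : T2 (fS (2 ^ k * β) S) := fS_t2 hp hβ' S
  have h1 : ∀ b ∈ B.image (fun b => i * b), (1 / 2 : ℝ) ≤ fS (2 ^ k * β) S b := by
    intro b hb
    obtain ⟨a, ha, rfl⟩ := Finset.mem_image.mp hb
    have h2 := (h a (hBA ha)).trans (fS_pow hp hβ S (i * a) k)
    have h0 : 0 ≤ fS (2 ^ k * β) S (i * a) := hT.nonneg _
    have h3 : Real.exp (-(1 / 2)) ≤ fS (2 ^ k * β) S (i * a) := by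
      by_contra hlt
      push Not at hlt
      have h4 : fS (2 ^ k * β) S (i * a) ^ (2 ^ k) < Real.exp (-(1 / 2)) ^ (2 ^ k) :=
        pow_lt_pow_left₀ hlt h0 (by positivity)
      have h5 : Real.exp (-(1 / 2)) ^ (2 ^ k) ≤ Real.exp (-τ) := by
        rw [← Real.exp_nat_mul]
        apply Real.exp_le_exp.mpr
        push_cast
        linarith
      linarith
    have h6 : (1 / 2 : ℝ) ≤ Real.exp (-(1 / 2)) := by
      have := Real.add_one_le_exp (-(1 / 2) : ℝ)
      linarith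
    exact h6.trans h3
  have h2 := F2 hT (qi_dil hi hBQ) (c := 1 / 2) (by norm_num) h1
  rw [card_dil hi, hBc] at h2
  have h3 : ((1 : ℝ) + 1 / 2) ^ qd A ≤ ph (2 ^ k * β) ^ S.card := h2.trans (sum_fS_le hp hβ' S)
  have h4 : Real.log (((1 : ℝ) + 1 / 2) ^ qd A) ≤ Real.log (ph (2 ^ k * β) ^ S.card) :=
    Real.log_le_log (by positivity) h3
  rw [Real.log_pow, Real.log_pow] at h4
  have h5 : (2 / 5 : ℝ) ≤ Real.log (1 + 1 / 2) := by
    rw [Real.le_log_iff_exp_le (by norm_num)]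
    by_contra hlt
    push Not at hlt
    have h6 : ((1 : ℝ) + 1 / 2) ^ 5 < Real.exp (2 / 5) ^ 5 :=
      pow_lt_pow_left₀ hlt (by norm_num) (by norm_num)
    have h7 : Real.exp (2 / 5) ^ 5 = Real.exp 1 ^ 2 := by
      rw [← Real.exp_nat_mul, ← Real.exp_nat_mul]
      norm_num
    have h8 : Real.exp 1 ^ 2 < (2.7182818286 : ℝ) ^ 2 :=
      pow_lt_pow_left₀ Real.exp_one_lt_d9 (Real.exp_pos 1).le (by norm_num)
    rw [h7] at h6
    have h9 := h6.trans h8
    norm_num at h9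
  have h6 : (qd A : ℝ) * (2 / 5) ≤ qd A * Real.log (1 + 1 / 2) :=
    mul_le_mul_of_nonneg_left h5 (Nat.cast_nonneg _)
  linarith

theorem F2Q (hp : p ≠ 2) {β : ℝ} (hβ : 0 < β) {U R : Finset (ZMod p)} (hUR : Disjoint U R)
    (A : Finset (ZMod p)) {i : ZMod p} (hi : i ≠ 0) {c : ℝ} (hc : 0 ≤ c)
    (h : ∀ a ∈ A, c ≤ fS β U (i * a) * fS β R (i * a)) :
    qd A * Real.log (1 + c) ≤ nu β (U ∪ R) - nu β U - nu β R := by
  obtain ⟨B, hBA, hBQ, hBc⟩ := exists_qi A
  have hT : T2 (fun v => fS β U v * fS β R v) := (fS_t2 hp hβ U).mul' (fS_t2 hp hβ R)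
  have h1 : ∀ b ∈ B.image (fun b => i * b), c ≤ fS β U b * fS β R b := by
    intro b hb
    obtain ⟨a, ha, rfl⟩ := Finset.mem_image.mp hb
    exact h a (hBA ha)
  have h2 := F2 hT (qi_dil hi hBQ) hc h1
  rw [card_dil hi, hBc, sum_fS_mul hp hβ hUR] at h2
  have h4 := Real.log_le_log (by positivity) h2
  rwa [Real.log_pow, Real.log_exp] at h4

end Pool.Agent.Lib.MP_6d8312_an.KD
end
end

section

/-!
# Mass of correlated elements and the increments at rate `x`

`n = |A|`, `l = x/dens A ∈ [0,1]`, `Λ = log (ph (2^k β))`.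
`mass_le`: exchange the sums (`bern_finset_sum`): `bern l A (S ↦ #{a ∈ A | exp(-τ) ≤ fS β S (i a)})`.
For each `S` the set has `card ≤ dens A * qd ≤ dens A * (5/2) |S| Λ` (`Crit.card_le`, `F2S`), and
`bern l A |S| = l n` (`bern_card`): total `dens A (5/2) Λ (x/dens A) n`.
`gX_le`: `Fa_le`, `bern_erase_le` (`fS` is monotone in `S`): `gX β A x ≤ (vw β 0 - 1) + ∑_{v≠0} vw β v
(1/n) ∑_a bern l A (fS β S (v a))`, `fS ≤ 1_{exp(-τ) ≤ fS} + exp(-τ)`, `mass_le` with `i = v`,
`∑_{v≠0} vw β v ≤ ph β`.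
-/

set_option autoImplicit false

noncomputable section

namespace Pool.Agent.Lib.MP_6d8312_an.KD

open Finset

variable {p : ℕ} [Fact p.Prime]

private theorem massLe_dens_pos {A : Finset (ZMod p)} (hA : Crit A) : 0 < dens A := by
  have h1 : (0 : ℝ) < A.card := by exact_mod_cast hA.ne.card_pos
  have h2 : (0 : ℝ) < qd A := by exact_mod_cast hA.qd_pos
  exact div_pos h1 h2

private theorem massLe_rate {A : Finset (ZMod p)} (hA : Crit A) {x : ℝ} (hx : 0 ≤ x)
    (hxd : x ≤ dens A) : 0 ≤ x / dens A ∧ x / dens A ≤ 1 :=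
  ⟨div_nonneg hx (massLe_dens_pos hA).le, (div_le_one (massLe_dens_pos hA)).2 hxd⟩

open Classical in
theorem mass_le (hp : p ≠ 2) {A : Finset (ZMod p)} (hA : Crit A) {β τ x : ℝ} (hβ : 0 < β)
    (k : ℕ) (hk : 2 * τ ≤ 2 ^ k) (hx : 0 ≤ x) (hxd : x ≤ dens A) {i : ZMod p} (hi : i ≠ 0) :
    ∑ a ∈ A, bern (x / dens A) A (fun S => if Real.exp (-τ) ≤ fS β S (i * a) then 1 else 0) ≤
      5 / 2 * x * Real.log (ph (2 ^ k * β)) * A.card := by
  have hd := massLe_dens_pos hA
  obtain ⟨hl0, hl1⟩ := massLe_rate hA hx hxd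
  rw [← bern_finset_sum]
  have h1 : ∀ S ⊆ A, ∑ a ∈ A, (if Real.exp (-τ) ≤ fS β S (i * a) then (1 : ℝ) else 0) ≤
      (dens A * (5 / 2 * Real.log (ph (2 ^ k * β)))) * (S.card : ℝ) := by
    intro S _
    rw [← Finset.sum_filter, Finset.sum_const, nsmul_eq_mul, mul_one]
    have h2 := hA.card_le (Finset.filter_subset
      (fun a => Real.exp (-τ) ≤ fS β S (i * a)) A)
    have h3 := F2S hp hβ S (A.filter fun a => Real.exp (-τ) ≤ fS β S (i * a)) hi τ k hk
      (fun a ha => (Finset.mem_filter.1 ha).2)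
    refine h2.trans ?_
    refine (mul_le_mul_of_nonneg_left h3 hd.le).trans (le_of_eq ?_)
    ring
  refine (bern_mono hl0 hl1 h1).trans (le_of_eq ?_)
  rw [bern_mul_left, bern_card]
  field_simp

theorem gX_le (hp : p ≠ 2) {A : Finset (ZMod p)} (hA : Crit A) {β τ x : ℝ} (hβ : 0 < β)
    (k : ℕ) (hk : 2 * τ ≤ 2 ^ k) (hx : 0 ≤ x) (hxd : x ≤ dens A) :
    gX β A x ≤ (vw β (0 : ZMod p) - 1) +
      ph β * (5 / 2 * x * Real.log (ph (2 ^ k * β)) + Real.exp (-τ)) := by
  classical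
  have hd := massLe_dens_pos hA
  obtain ⟨hl0, hl1⟩ := massLe_rate hA hx hxd
  have hn : (0 : ℝ) < A.card := by exact_mod_cast hA.ne.card_pos
  have h1 : ∀ a ∈ A, bern (x / dens A) (A.erase a) (Fa β a) ≤
      (vw β (0 : ZMod p) - 1) + ∑ v ∈ univ.erase (0 : ZMod p), vw β v *
        (bern (x / dens A) A (fun S => if Real.exp (-τ) ≤ fS β S (v * a) then 1 else 0) +
          Real.exp (-τ)) := by
    intro a ha
    have h2 : bern (x / dens A) (A.erase a) (Fa β a) ≤
        bern (x / dens A) (A.erase a) (fun S => (vw β (0 : ZMod p) - 1) +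
          ∑ v ∈ univ.erase (0 : ZMod p), vw β v * fS β S (v * a)) := by
      refine bern_mono hl0 hl1 fun S hS => ?_
      exact Fa_le hp hβ (fun h => (Finset.notMem_erase a A) (hS h))
    refine h2.trans ?_
    rw [bern_add, bern_const, bern_finset_sum]
    refine add_le_add le_rfl (Finset.sum_le_sum fun v _ => ?_)
    rw [bern_mul_left]
    refine mul_le_mul_of_nonneg_left ?_ (vw_nonneg β v)
    refine (bern_erase_le hl0 hl1 (fun S T hST _ => fS_mono hp hβ hST (v * a)) a).trans ?_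
    have h3 : bern (x / dens A) A (fun S => fS β S (v * a)) ≤
        bern (x / dens A) A (fun S =>
          (if Real.exp (-τ) ≤ fS β S (v * a) then 1 else 0) + Real.exp (-τ)) := by
      refine bern_mono hl0 hl1 fun S _ => ?_
      split_ifs with h
      · have := (fS_t2 hp hβ S).le_one (v * a)
        have := Real.exp_pos (-τ)
        linarith
      · have := not_le.1 h
        linarith
    refine h3.trans (le_of_eq ?_)
    rw [bern_add, bern_const]
  have h4 : ∑ a ∈ A, bern (x / dens A) (A.erase a) (Fa β a) ≤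
      (vw β (0 : ZMod p) - 1) * A.card + ∑ v ∈ univ.erase (0 : ZMod p), vw β v *
        ((5 / 2 * x * Real.log (ph (2 ^ k * β)) + Real.exp (-τ)) * A.card) := by
    refine (Finset.sum_le_sum h1).trans ?_
    rw [Finset.sum_add_distrib, Finset.sum_const, nsmul_eq_mul, Finset.sum_comm]
    refine add_le_add (le_of_eq (mul_comm _ _)) (Finset.sum_le_sum fun v hv => ?_)
    rw [← Finset.mul_sum]
    refine mul_le_mul_of_nonneg_left ?_ (vw_nonneg β v)
    rw [Finset.sum_add_distrib, Finset.sum_const, nsmul_eq_mul]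
    have h5 := mass_le hp hA hβ k hk hx hxd (Finset.ne_of_mem_erase hv)
    linarith
  have h6 : ∑ v ∈ univ.erase (0 : ZMod p), vw β v ≤ ph β := by
    rw [← sum_vw (p := p) hβ]
    exact Finset.sum_le_sum_of_subset_of_nonneg (Finset.erase_subset _ _)
      (fun v _ _ => vw_nonneg β v)
  have h7 : 0 ≤ 5 / 2 * x * Real.log (ph (2 ^ k * β)) + Real.exp (-τ) := by
    have h8 : 0 ≤ Real.log (ph (2 ^ k * β)) :=
      Real.log_nonneg (one_le_ph (by positivity))
    have := Real.exp_pos (-τ)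
    positivity
  rw [gX, div_le_iff₀ hn]
  refine h4.trans ?_
  rw [← Finset.sum_mul]
  have h9 := mul_le_mul_of_nonneg_right h6 (mul_nonneg h7 hn.le)
  linarith

end Pool.Agent.Lib.MP_6d8312_an.KD
end
end

section

/-!
# The choice of `U` and `R`

`n = |A|`, `d = qd A`, `D = dens A = n/d`, `l = x/D`, `r = x`, `l r = x²/D`.  For every `a ∈ A` (`a ≠ 0`,
`y = i a ≠ 0`) and `U ⊆ S ⊆ A`, `R = S \ U`: by `attach`
`1[exp(-m) ≤ fS 1 U y] ≤ 1[exceptional event of ev_two] + 1[Att (2^k) m i U R a]`.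
`bern_thin`: `om n ≤ ∑_a bern l A bern r S 1[exp(-m) ≤ fS 1 U (i a)]`.  By `ev_two` and `mass_le`
(`β = 1`, `τ = m`, `k₁` with `2 m ≤ 2^k₁ ≤ 4 m`, `log (ph (2^k₁)) ≤ log (1 + 16 m) ≤ 16 m`, `ph_le`) the
exceptional part is at most `(x/(1-x))² (5/2) x · 16 m · n ≤ 90 m x³ n` (`x/(1-x) ≤ (3/2) x`).  So
`bern l A bern r S #At ≥ om n/2`, `At = {a ∈ A | Att ...}`.  Moreover `bern bern |U| = l r n = x² d`
(`bern_card` for `bern_thin`), and `bern bern k' ≤ l r ∑_a bern l (A.erase a) (Fa (2^k) a) =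
x² d gX (2^k) A x ≤ P x³ d` (`kprime_le`, `hP`).  Hence the expectation of
`#At - (om/4) n - (om/(8x²)) (|U|/d) n - (om/(8 P x³)) (k'/d) n` is `≥ 0`: `exists_bern_le` twice.
-/

set_option autoImplicit false

noncomputable section

namespace Pool.Agent.Lib.MP_6d8312_an.KD

open Finset

variable {p : ℕ} [Fact p.Prime]

open Classical in
theorem choose_UR (hp : p ≠ 2) {A : Finset (ZMod p)} (hA : Crit A) (m k : ℕ) (hm : 4 ≤ m)
    (hk : 20 * (m : ℝ) ^ 2 ≤ 2 ^ k) {x om P : ℝ} (hx0 : 0 < x) (hx1 : x ≤ 1 / 3)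
    (hxd : x ≤ dens A) (hP0 : 0 < P) (hom0 : 0 < om) {i : ZMod p} (hi : i ≠ 0)
    (hom : om * A.card ≤ ∑ a ∈ A, bern (x ^ 2 / dens A) A
      (fun S => if Real.exp (-m) ≤ fS 1 S (i * a) then 1 else 0))
    (h90 : 90 * m * x ^ 3 ≤ om / 2) (hP : gX (2 ^ k) A x ≤ P * x) :
    ∃ U R At : Finset (ZMod p), Disjoint U R ∧ At ⊆ A ∧ (∀ a ∈ At, Att (2 ^ k) m i U R a) ∧
      om / 4 * A.card + om / (8 * x ^ 2) * (U.card / qd A) * A.card +
        om / (8 * P * x ^ 3) * ((nu (2 ^ k) (U ∪ R) - nu (2 ^ k) U - nu (2 ^ k) R) / qd A) *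
          A.card ≤ At.card := by
  classical
  set n : ℝ := (A.card : ℝ) with hn
  set d : ℝ := (qd A : ℝ) with hd
  have hnpos : 0 < n := by
    rw [hn]; exact_mod_cast hA.ne.card_pos
  have hdpos : 0 < d := by
    have := hA.qd_pos
    rw [hd]; exact_mod_cast this
  have hD : dens A = n / d := rfl
  have hDpos : 0 < dens A := by rw [hD]; positivity
  have hnD : n / dens A = d := by
    rw [hD]; field_simp
  have hl0 : 0 ≤ x / dens A := by positivity
  have hl1 : x / dens A ≤ 1 := (div_le_one hDpos).2 hxd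
  have hx1' : x ≤ 1 := by linarith
  have hlr : x / dens A * x = x ^ 2 / dens A := by ring
  have hm0 : (0 : ℝ) < m := by
    have : 0 < m := by omega
    exact_mod_cast this
  obtain ⟨k₁, hk1, hk2⟩ : ∃ k₁ : ℕ, 2 * (m : ℝ) ≤ 2 ^ k₁ ∧ (2 : ℝ) ^ k₁ ≤ 4 * m := by
    refine ⟨Nat.log 2 m + 2, ?_, ?_⟩
    · have h := Nat.lt_pow_succ_log_self (b := 2) (by norm_num) m
      have h' : 2 * m ≤ 2 ^ (Nat.log 2 m + 2) := by
        rw [pow_succ]; omega
      exact_mod_cast h'
    · have h := Nat.pow_log_le_self 2 (x := m) (by omega)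
      have h' : 2 ^ (Nat.log 2 m + 2) ≤ 4 * m := by
        rw [pow_add]; omega
      exact_mod_cast h'
  have hph : Real.log (ph (2 ^ k₁ * 1)) ≤ 16 * m := by
    have h1 : ph (2 ^ k₁ * 1) ≤ 1 + 4 * (2 ^ k₁ * 1) := ph_le (by positivity)
    have h2 : 1 ≤ ph (2 ^ k₁ * 1) := one_le_ph (by positivity)
    have h3 := Real.log_le_sub_one_of_pos (lt_of_lt_of_le one_pos h2)
    linarith
  -- the three indicators
  let I : Finset (ZMod p) → ZMod p → ℝ := fun U a =>
    if Real.exp (-m) ≤ fS 1 U (i * a) then 1 else 0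
  let B : Finset (ZMod p) → Finset (ZMod p) → ZMod p → ℝ := fun S U a =>
    if Real.exp (-m) ≤ fS 1 U (i * a) ∧ ∀ s ∈ U, ¬ Real.exp (-m) ≤ fS 1 (insert s (S \ U)) (i * a)
    then 1 else 0
  let T : Finset (ZMod p) → Finset (ZMod p) → ZMod p → ℝ := fun S U a =>
    if Att (2 ^ k) m i U (S \ U) a then 1 else 0
  have hpt : ∀ S U a, I U a ≤ B S U a + T S U a := by
    intro S U a
    by_cases h1 : Real.exp (-m) ≤ fS 1 U (i * a)
    · by_cases h2 : ∀ s ∈ U, ¬ Real.exp (-m) ≤ fS 1 (insert s (S \ U)) (i * a)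
      · have hB : B S U a = 1 := if_pos ⟨h1, h2⟩
        have hI : I U a = 1 := if_pos h1
        have hT : 0 ≤ T S U a := by
          change 0 ≤ ite _ _ _
          split_ifs <;> norm_num
        rw [hB, hI]; linarith
      · push Not at h2
        obtain ⟨s, hs, h3⟩ := h2
        have hT : T S U a = 1 := if_pos (attach hp m k hm hk hs h1 h3)
        have hI : I U a = 1 := if_pos h1
        have hB : 0 ≤ B S U a := by
          change 0 ≤ ite _ _ _
          split_ifs <;> norm_num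
        rw [hT, hI]; linarith
    · have hI : I U a = 0 := if_neg h1
      have hT : 0 ≤ T S U a := by
        change 0 ≤ ite _ _ _
        split_ifs <;> norm_num
      have hB : 0 ≤ B S U a := by
        change 0 ≤ ite _ _ _
        split_ifs <;> norm_num
      rw [hI]; linarith
  have h1 : om * n ≤ ∑ a ∈ A, bern (x / dens A) A (fun S => bern x S (fun U => I U a)) := by
    refine hom.trans (le_of_eq (Finset.sum_congr rfl fun a _ => ?_))
    rw [bern_thin, hlr]
  have h2 : ∀ a ∈ A, bern (x / dens A) A (fun S => bern x S (fun U => I U a)) ≤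
      bern (x / dens A) A (fun S => bern x S (fun U => B S U a)) +
      bern (x / dens A) A (fun S => bern x S (fun U => T S U a)) := by
    intro a _
    rw [← bern_add]
    refine bern_mono hl0 hl1 fun S _ => ?_
    rw [← bern_add]
    exact bern_mono hx0.le hx1' fun U _ => hpt S U a
  have h3 : ∑ a ∈ A, bern (x / dens A) A (fun S => bern x S (fun U => B S U a)) ≤
      om / 2 * n := by
    have h31 : ∀ a ∈ A, bern (x / dens A) A (fun S => bern x S (fun U => B S U a)) ≤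
        (x / (1 - x)) ^ 2 * bern (x / dens A) A
          (fun S => if Real.exp (-m) ≤ fS 1 S (i * a) then 1 else 0) := by
      intro a ha
      have ha0 : a ≠ 0 := fun h => hA.zero (h ▸ ha)
      exact ev_two hp one_pos hl0 hl1 hx0.le hx1 (Real.exp_pos _) A (mul_ne_zero hi ha0)
    have h32 := mass_le hp hA (β := 1) (τ := m) one_pos k₁ hk1 hx0.le hxd hi
    have h33 : (x / (1 - x)) ^ 2 ≤ 9 / 4 * x ^ 2 := by
      have h34 : x / (1 - x) ≤ 3 / 2 * x := by
        rw [div_le_iff₀ (by linarith)]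
        nlinarith
      have h35 : 0 ≤ x / (1 - x) := div_nonneg hx0.le (by linarith)
      calc (x / (1 - x)) ^ 2 ≤ (3 / 2 * x) ^ 2 := by gcongr
        _ = 9 / 4 * x ^ 2 := by ring
    calc ∑ a ∈ A, bern (x / dens A) A (fun S => bern x S (fun U => B S U a))
        ≤ ∑ a ∈ A, (x / (1 - x)) ^ 2 * bern (x / dens A) A
          (fun S => if Real.exp (-m) ≤ fS 1 S (i * a) then 1 else 0) := Finset.sum_le_sum h31
      _ = (x / (1 - x)) ^ 2 * ∑ a ∈ A, bern (x / dens A) A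
          (fun S => if Real.exp (-m) ≤ fS 1 S (i * a) then 1 else 0) := by
          rw [Finset.mul_sum]
      _ ≤ (x / (1 - x)) ^ 2 * (5 / 2 * x * Real.log (ph (2 ^ k₁ * 1)) * n) := by
          refine mul_le_mul_of_nonneg_left ?_ (sq_nonneg _)
          convert h32 using 6
      _ ≤ (x / (1 - x)) ^ 2 * (5 / 2 * x * (16 * m) * n) := by
          gcongr
      _ ≤ 9 / 4 * x ^ 2 * (5 / 2 * x * (16 * m) * n) := by
          gcongr
      _ = (90 * m * x ^ 3) * n := by ring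
      _ ≤ om / 2 * n := by gcongr
  have h4 : om / 2 * n ≤ ∑ a ∈ A, bern (x / dens A) A (fun S => bern x S (fun U => T S U a)) := by
    have h5 := Finset.sum_le_sum h2
    rw [Finset.sum_add_distrib] at h5
    linarith
  let G : Finset (ZMod p) → Finset (ZMod p) → ℝ := fun S U =>
    (∑ a ∈ A, T S U a) - om / 4 * n - (om / (8 * x ^ 2) / d * n) * (U.card : ℝ) -
      (om / (8 * P * x ^ 3) / d * n) * (nu (2 ^ k) S - nu (2 ^ k) U - nu (2 ^ k) (S \ U))
  have hcard : bern (x / dens A) A (fun S => bern x S (fun U => (U.card : ℝ))) = x ^ 2 * d := by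
    rw [bern_thin, hlr, bern_card, ← hnD]
    ring
  have hkp : bern (x / dens A) A (fun S => bern x S
      (fun U => nu (2 ^ k) S - nu (2 ^ k) U - nu (2 ^ k) (S \ U))) ≤ P * x ^ 3 * d := by
    refine (kprime_le hp (by positivity) hl0 hl1 hx0.le hx1' A).trans ?_
    have h6 : ∑ a ∈ A, bern (x / dens A) (A.erase a) (Fa (2 ^ k) a) = gX (2 ^ k) A x * n := by
      rw [gX, ← hn, div_mul_cancel₀ _ hnpos.ne']
    rw [h6, hlr]
    calc x ^ 2 / dens A * (gX (2 ^ k) A x * n) = x ^ 2 * gX (2 ^ k) A x * (n / dens A) := by ring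
      _ = x ^ 2 * gX (2 ^ k) A x * d := by rw [hnD]
      _ ≤ x ^ 2 * (P * x) * d := by gcongr
      _ = P * x ^ 3 * d := by ring
  have hE : 0 ≤ bern (x / dens A) A (fun S => bern x S (G S)) := by
    have h7 : bern (x / dens A) A (fun S => bern x S (G S)) =
        (∑ a ∈ A, bern (x / dens A) A (fun S => bern x S (fun U => T S U a))) - om / 4 * n -
        (om / (8 * x ^ 2) / d * n) *
          bern (x / dens A) A (fun S => bern x S (fun U => (U.card : ℝ))) -
        (om / (8 * P * x ^ 3) / d * n) * bern (x / dens A) A (fun S => bern x S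
          (fun U => nu (2 ^ k) S - nu (2 ^ k) U - nu (2 ^ k) (S \ U))) := by
      have h8 : ∀ S, bern x S (G S) = (∑ a ∈ A, bern x S (fun U => T S U a)) - om / 4 * n -
          (om / (8 * x ^ 2) / d * n) * bern x S (fun U => (U.card : ℝ)) -
          (om / (8 * P * x ^ 3) / d * n) * bern x S
            (fun U => nu (2 ^ k) S - nu (2 ^ k) U - nu (2 ^ k) (S \ U)) := by
        intro S
        simp only [G]
        rw [bern_sub, bern_sub, bern_sub, bern_finset_sum, bern_const, bern_mul_left,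
          bern_mul_left]
      simp only [h8]
      rw [bern_sub, bern_sub, bern_sub, bern_finset_sum, bern_const, bern_mul_left,
        bern_mul_left]
    rw [h7, hcard]
    have h9 : (om / (8 * x ^ 2) / d * n) * (x ^ 2 * d) = om / 8 * n := by
      field_simp
    have h10 : (om / (8 * P * x ^ 3) / d * n) * bern (x / dens A) A (fun S => bern x S
          (fun U => nu (2 ^ k) S - nu (2 ^ k) U - nu (2 ^ k) (S \ U))) ≤ om / 8 * n := by
      calc (om / (8 * P * x ^ 3) / d * n) * bern (x / dens A) A (fun S => bern x S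
          (fun U => nu (2 ^ k) S - nu (2 ^ k) U - nu (2 ^ k) (S \ U)))
          ≤ (om / (8 * P * x ^ 3) / d * n) * (P * x ^ 3 * d) := by
            refine mul_le_mul_of_nonneg_left hkp (by positivity)
        _ = om / 8 * n := by field_simp
    rw [h9]
    linarith
  obtain ⟨S, hSA, hS⟩ := exists_bern_le hl0 hl1 A (fun S => bern x S (G S))
  obtain ⟨U, hUS, hU⟩ := exists_bern_le hx0.le hx1' S (G S)
  have hG : 0 ≤ G S U := hE.trans (hS.trans hU)
  refine ⟨U, S \ U, A.filter (fun a => Att (2 ^ k) m i U (S \ U) a), Finset.disjoint_sdiff,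
    Finset.filter_subset _ _, fun a ha => (Finset.mem_filter.1 ha).2, ?_⟩
  have hcd : (((A.filter (fun a => Att (2 ^ k) m i U (S \ U) a)).card : ℕ) : ℝ) =
      ∑ a ∈ A, T S U a := by
    rw [Finset.card_filter]
    push_cast
    rfl
  rw [hcd, Finset.union_sdiff_of_subset hUS]
  have hG' : 0 ≤ (∑ a ∈ A, T S U a) - om / 4 * n - (om / (8 * x ^ 2) / d * n) * (U.card : ℝ) -
      (om / (8 * P * x ^ 3) / d * n) * (nu (2 ^ k) S - nu (2 ^ k) U - nu (2 ^ k) (S \ U)) := hG
  have e1 : om / (8 * x ^ 2) * ((U.card : ℝ) / d) * n = (om / (8 * x ^ 2) / d * n) * (U.card : ℝ) := by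
    ring
  have e2 : om / (8 * P * x ^ 3) * ((nu (2 ^ k) S - nu (2 ^ k) U - nu (2 ^ k) (S \ U)) / d) * n =
      (om / (8 * P * x ^ 3) / d * n) * (nu (2 ^ k) S - nu (2 ^ k) U - nu (2 ^ k) (S \ U)) := by
    ring
  rw [e1, e2]
  linarith

end Pool.Agent.Lib.MP_6d8312_an.KD
end
end

section

/-!
# A correlation

`n = |A|`, `l = x²/dens A ∈ [0,1]`.  By `Fa_le` (for `a ∉ S ⊆ A.erase a`), `bern_mono`:
`z < gX 1 A (x²) ≤ (vw 1 0 - 1) + ∑_{v ≠ 0} vw 1 v H(v)`, `H(v) = (1/n) ∑_{a∈A} bern l (A.erase a)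
(fun S => fS 1 S (v a))`; so `∑_{v≠0} vw 1 v H(v) ≥ z/2`, and as `∑ vw 1 v = ph 1 ≤ 5` some `v = i ≠ 0`
has `H(i) ≥ z/10`.  `fS ≤ 1_{u ≤ fS} + u` and `bern_erase_le` (the indicator is monotone in `S` by
`fS_mono`): `z/10 ≤ (1/n)∑ bern l A (1_{u ≤ fS 1 S (i a)}) + u`, `u ≤ z/20`.
-/

set_option autoImplicit false

noncomputable section

namespace Pool.Agent.Lib.MP_6d8312_an.KD

open Finset

variable {p : ℕ} [Fact p.Prime]

open Classical in
theorem find_i (hp : p ≠ 2) {A : Finset (ZMod p)} (hA : Crit A) {x z u : ℝ}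
    (hxd : x ^ 2 ≤ dens A) (hz0 : 0 < z) (hz : z < gX 1 A (x ^ 2))
    (hv : vw 1 (0 : ZMod p) ≤ 1 + z / 2) (hu0 : 0 ≤ u) (hu : u ≤ z / 20) :
    ∃ i : ZMod p, i ≠ 0 ∧ z / 20 * A.card ≤
      ∑ a ∈ A, bern (x ^ 2 / dens A) A (fun S => if u ≤ fS 1 S (i * a) then 1 else 0) := by
  have hn : (0 : ℝ) < A.card := by
    exact_mod_cast Finset.card_pos.mpr hA.ne
  have hq : (0 : ℝ) < qd A := by
    have := hA.qd_pos
    exact_mod_cast this
  have hD : 0 < dens A := div_pos hn hq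
  obtain ⟨l, hl⟩ : ∃ l, l = x ^ 2 / dens A := ⟨_, rfl⟩
  have hl0 : 0 ≤ l := by
    rw [hl]
    exact div_nonneg (sq_nonneg x) hD.le
  have hl1 : l ≤ 1 := by
    rw [hl, div_le_one hD]
    exact hxd
  rw [← hl]
  have h1 : ∀ a ∈ A, bern l (A.erase a) (Fa 1 a) ≤ (vw 1 (0 : ZMod p) - 1) +
      ∑ v ∈ univ.erase 0, vw 1 v * bern l (A.erase a) (fun S => fS 1 S (v * a)) := by
    intro a _
    calc bern l (A.erase a) (Fa 1 a) ≤ bern l (A.erase a) (fun S => (vw 1 (0 : ZMod p) - 1) +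
          ∑ v ∈ univ.erase 0, vw 1 v * fS 1 S (v * a)) :=
          bern_mono hl0 hl1 fun S hS => Fa_le hp one_pos fun haS =>
            (Finset.mem_erase.mp (hS haS)).1 rfl
      _ = _ := by
        rw [bern_add, bern_const, bern_finset_sum]
        congr 1
        refine Finset.sum_congr rfl fun v _ => ?_
        rw [bern_mul_left]
  have h2 : z * A.card < A.card * (vw 1 (0 : ZMod p) - 1) + ∑ v ∈ univ.erase 0, vw 1 v *
      ∑ a ∈ A, bern l (A.erase a) (fun S => fS 1 S (v * a)) := by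
    rw [gX, ← hl, lt_div_iff₀ hn] at hz
    calc z * A.card < ∑ a ∈ A, bern l (A.erase a) (Fa 1 a) := hz
      _ ≤ ∑ a ∈ A, ((vw 1 (0 : ZMod p) - 1) +
        ∑ v ∈ univ.erase 0, vw 1 v * bern l (A.erase a) (fun S => fS 1 S (v * a))) :=
          Finset.sum_le_sum h1
      _ = _ := by
        rw [Finset.sum_add_distrib, Finset.sum_const, nsmul_eq_mul, Finset.sum_comm]
        congr 1
        refine Finset.sum_congr rfl fun v _ => ?_
        rw [Finset.mul_sum]
  have h3 : ∃ i : ZMod p, i ≠ 0 ∧ z / 10 * A.card ≤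
      ∑ a ∈ A, bern l (A.erase a) (fun S => fS 1 S (i * a)) := by
    by_contra hcon
    push Not at hcon
    have h4 : ∑ v ∈ univ.erase 0, vw 1 v *
        ∑ a ∈ A, bern l (A.erase a) (fun S => fS 1 S (v * a)) ≤
        ∑ v ∈ univ.erase (0 : ZMod p), vw 1 v * (z / 10 * A.card) := by
      refine Finset.sum_le_sum fun v hv => ?_
      exact mul_le_mul_of_nonneg_left (hcon v (Finset.mem_erase.mp hv).1).le (vw_nonneg 1 v)
    have h5 : ∑ v ∈ univ.erase (0 : ZMod p), vw 1 v ≤ 5 := by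
      calc ∑ v ∈ univ.erase (0 : ZMod p), vw 1 v ≤ ∑ v : ZMod p, vw 1 v :=
            Finset.sum_le_sum_of_subset_of_nonneg (Finset.erase_subset _ _)
              fun v _ _ => vw_nonneg 1 v
        _ = ph 1 := sum_vw one_pos
        _ ≤ 1 + 4 * 1 := ph_le one_pos
        _ = 5 := by norm_num
    rw [← Finset.sum_mul] at h4
    have h6 : (∑ v ∈ univ.erase (0 : ZMod p), vw 1 v) * (z / 10 * A.card) ≤
        5 * (z / 10 * A.card) := mul_le_mul_of_nonneg_right h5 (by positivity)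
    nlinarith [mul_le_mul_of_nonneg_left hv hn.le]
  obtain ⟨i, hi, h4⟩ := h3
  refine ⟨i, hi, ?_⟩
  have h5 : ∀ a ∈ A, bern l (A.erase a) (fun S => fS 1 S (i * a)) ≤
      bern l A (fun S => if u ≤ fS 1 S (i * a) then 1 else 0) + u := by
    intro a _
    calc bern l (A.erase a) (fun S => fS 1 S (i * a)) ≤
          bern l (A.erase a) (fun S => (if u ≤ fS 1 S (i * a) then 1 else 0) + u) := by
          refine bern_mono hl0 hl1 fun S _ => ?_
          split_ifs with h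
          · have := (fS_t2 hp one_pos S).le_one (i * a)
            linarith
          · rw [zero_add]
            exact (not_le.mp h).le
      _ = bern l (A.erase a) (fun S => if u ≤ fS 1 S (i * a) then 1 else 0) + u := by
          rw [bern_add, bern_const]
      _ ≤ _ := by
          have h6 := bern_erase_le hl0 hl1 (A := A)
            (f := fun S => if u ≤ fS 1 S (i * a) then (1 : ℝ) else 0) (fun S T hST _ => by
              by_cases h : u ≤ fS 1 S (i * a)
              · have h' : u ≤ fS 1 T (i * a) := h.trans (fS_mono hp one_pos hST _)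
                simp only [h, h', if_true, le_refl]
              · simp only [h, if_false]
                split_ifs <;> norm_num) a
          linarith
  have h6 := Finset.sum_le_sum h5
  rw [Finset.sum_add_distrib, Finset.sum_const, nsmul_eq_mul] at h6
  nlinarith [mul_le_mul_of_nonneg_left hu hn.le]

end Pool.Agent.Lib.MP_6d8312_an.KD
end
end

section

/-!
# The number of hubs used by a quasi-independent set

`Q = fS β U * fS β R` is theta (`theta_fS`, `Theta.mul`), `T2`, `Q 0 = 1`, even.  `T = B.image s`,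
`H v = KK (vw β) Q T v / KK (vw β) Q T 0` is `T2` (`Theta.KK`, `Theta.t2`).  For `b ∈ B`, `s = s b`,
`j = j b`: by `KK_mono` `H(v) ≥ Q(v)` (`∅ ⊆ T`) and `H(v) ≥ op (vw β) s Q v / op (vw β) s Q 0`
(`{s} ⊆ T`), so `H(i b - j s) ≥ 3/4` and `H(j s) ≥ exp(-j²/(2β))` (`op_shift`); `T2.add_ge`:
`H(i b) ≥ (H(ib-js) H(js))² ≥ (9/16) exp(-j²/β) ≥ (9/16) exp(-1/20) ≥ 1/2` (`j² ≤ m²`, `20 m² ≤ β`; if
`m = 0` then `j = 0`).  `F2` for `H`, the QI set `i B` (`qi_dil`, `card_dil`) and `c = 1/2`: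
`(3/2)^|B| ≤ ∑ H ≤ ph β ^|T| ∑ Q` (`sum_KK`, `KK_ge` at `0`), `∑ Q = exp k'` (`sum_fS_mul`); logarithms,
`log (3/2) ≥ 2/5`.
-/

set_option autoImplicit false

noncomputable section

namespace Pool.Agent.Lib.MP_6d8312_an.KD

open Finset

variable {p : ℕ} [Fact p.Prime]

private theorem DimT_log : (2 / 5 : ℝ) ≤ Real.log (1 + 1 / 2) := by
  rw [Real.le_log_iff_exp_le (by norm_num)]
  have h := Real.exp_one_lt_d9
  have h2 : Real.exp (2 / 5) ^ 5 = Real.exp 1 ^ 2 := by
    rw [← Real.exp_nat_mul, ← Real.exp_nat_mul]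
    norm_num
  by_contra hlt
  push Not at hlt
  have h3 : (1 + 1 / 2 : ℝ) ^ 5 < Real.exp (2 / 5) ^ 5 :=
    pow_lt_pow_left₀ hlt (by norm_num) (by norm_num)
  rw [h2] at h3
  have h4 : Real.exp 1 ^ 2 < (2.7182818286 : ℝ) ^ 2 :=
    pow_lt_pow_left₀ h (Real.exp_pos 1).le (by norm_num)
  norm_num at h3 h4
  linarith

private theorem DimT_exp {β : ℝ} (hβ : 0 < β) {m : ℕ} (hβm : 20 * (m : ℝ) ^ 2 ≤ β) {j : ℤ}
    (hj : |j| ≤ m) : (19 / 20 : ℝ) ≤ Real.exp (-(j : ℝ) ^ 2 / (2 * β)) ^ 2 := by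
  rw [← Real.exp_nat_mul]
  have hj2 : (j : ℝ) ^ 2 ≤ (m : ℝ) ^ 2 := by
    have : |(j : ℝ)| ≤ m := by exact_mod_cast hj
    exact sq_le_sq' (by linarith [neg_abs_le (j : ℝ)]) (le_trans (le_abs_self _) this)
  have h1 : -(1 / 20 : ℝ) ≤ ((2 : ℕ) : ℝ) * (-(j : ℝ) ^ 2 / (2 * β)) := by
    have : ((2 : ℕ) : ℝ) * (-(j : ℝ) ^ 2 / (2 * β)) = -((j : ℝ) ^ 2 / β) := by
      push_cast
      field_simp
    rw [this]
    have : (j : ℝ) ^ 2 / β ≤ 1 / 20 := by
      rw [div_le_iff₀ hβ]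
      linarith
    linarith
  have h2 := Real.add_one_le_exp (((2 : ℕ) : ℝ) * (-(j : ℝ) ^ 2 / (2 * β)))
  linarith

theorem dim_T (hp : p ≠ 2) {β : ℝ} (hβ : 0 < β) {U R : Finset (ZMod p)} (hUR : Disjoint U R)
    (B : Finset (ZMod p)) (hB : QI B) {i : ZMod p} (hi : i ≠ 0) (s : ZMod p → ZMod p)
    (j : ZMod p → ℤ) (m : ℕ) (hβm : 20 * (m : ℝ) ^ 2 ≤ β) (hj : ∀ b ∈ B, |j b| ≤ m)
    (h : ∀ b ∈ B, 3 / 4 ≤ fS β U (i * b - (j b : ZMod p) * s b) *
      fS β R (i * b - (j b : ZMod p) * s b)) :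
    2 / 5 * (B.card : ℝ) ≤ (nu β (U ∪ R) - nu β U - nu β R) +
      (B.image s).card * Real.log (ph β) := by
  classical
  set Q : ZMod p → ℝ := fun v => fS β U v * fS β R v with hQ
  have tU := fS_t2 hp hβ U
  have tR := fS_t2 hp hβ R
  have hQt : Theta Q := (theta_fS hp hβ U).mul (theta_fS hp hβ R)
  have hQ2 : T2 Q := tU.mul' tR
  have hQ0 : Q 0 = 1 := hQ2.zero
  have hQn : ∀ v, 0 ≤ Q v := hQ2.nonneg
  have hwt : Theta (vw β : ZMod p → ℝ) := theta_vw hp hβ
  have hw0 : 1 ≤ vw β (0 : ZMod p) := one_le_vw_zero hβ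
  have hwn : ∀ x : ZMod p, 0 ≤ vw β x := vw_nonneg β
  have hwe : ∀ x : ZMod p, vw β (-x) = vw β x := vw_even β
  set T : Finset (ZMod p) := B.image s with hT
  have hK0 : 1 ≤ KK (vw β) Q T 0 := by
    have := KK_ge hwn hw0 hQn T 0
    rw [hQ0] at this
    exact this
  have hK0' : 0 < KK (vw β) Q T 0 := by linarith
  have hKt : Theta (KK (vw β) Q T) := Theta.KK hp hwt hQt T
  have hH2 : T2 (fun v => KK (vw β) Q T v / KK (vw β) Q T 0) := hKt.t2 hK0'
  -- lower bound on `i B`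
  have hlow : ∀ b ∈ B, 1 / 2 ≤ KK (vw β) Q T (i * b) / KK (vw β) Q T 0 := by
    intro b hb
    have h1 : 3 / 4 ≤ KK (vw β) Q T (i * b - (j b : ZMod p) * s b) / KK (vw β) Q T 0 := by
      have hm := KK_mono hp hwt hw0 hwn hwe hQt (by rw [hQ0]; norm_num) (Finset.empty_subset T)
        (i * b - (j b : ZMod p) * s b)
      rw [KK_empty', hQ0, div_one] at hm
      exact (h b hb).trans hm
    have h2 : Real.exp (-(j b : ℝ) ^ 2 / (2 * β)) ≤
        KK (vw β) Q T ((j b : ZMod p) * s b) / KK (vw β) Q T 0 := by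
      have hsT : ({s b} : Finset (ZMod p)) ⊆ T := by
        rw [Finset.singleton_subset_iff]
        exact Finset.mem_image_of_mem s hb
      have hm := KK_mono hp hwt hw0 hwn hwe hQt (by rw [hQ0]; norm_num) hsT
        ((j b : ZMod p) * s b)
      have hK1 : KK (vw β) Q {s b} = op (vw β) (s b) Q := by
        have := KK_insert' (vw β) Q (s := s b) (S := ∅) (by simp)
        rw [KK_empty'] at this
        exact this
      rw [hK1] at hm
      have hpos : 0 < op (vw β) (s b) Q 0 := by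
        have := KK_ge hwn hw0 hQn {s b} 0
        rw [hK1, hQ0] at this
        linarith
      refine le_trans ?_ hm
      rw [le_div_iff₀ hpos]
      exact op_shift hβ hQn hQ2.even (s b) (j b)
    have h3 := hH2.add_ge (i * b - (j b : ZMod p) * s b) ((j b : ZMod p) * s b)
    simp only [sub_add_cancel] at h3
    refine le_trans ?_ h3
    have h4 := DimT_exp hβ hβm (hj b hb)
    set X := KK (vw β) Q T (i * b - (j b : ZMod p) * s b) / KK (vw β) Q T 0
    set Y := KK (vw β) Q T ((j b : ZMod p) * s b) / KK (vw β) Q T 0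
    set E := Real.exp (-(j b : ℝ) ^ 2 / (2 * β)) with hE
    have hE0 : 0 < E := Real.exp_pos _
    have hX2 : 9 / 16 ≤ X ^ 2 := by nlinarith
    have hY2 : 19 / 20 ≤ Y ^ 2 := by nlinarith
    rw [mul_pow]
    nlinarith
  -- F2
  have hF := F2 hH2 (qi_dil hi hB) (c := 1 / 2) (by norm_num) (by
    intro x hx
    obtain ⟨b, hb, rfl⟩ := Finset.mem_image.1 hx
    exact hlow b hb)
  rw [card_dil hi] at hF
  have hsum : ∑ v, KK (vw β) Q T v / KK (vw β) Q T 0 ≤
      ph β ^ T.card * Real.exp (nu β (U ∪ R) - nu β U - nu β R) := by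
    rw [← Finset.sum_div, sum_KK, sum_vw hβ]
    have hs : ∑ v, Q v = Real.exp (nu β (U ∪ R) - nu β U - nu β R) := sum_fS_mul hp hβ hUR
    rw [hs]
    refine div_le_self ?_ hK0
    have := one_le_ph hβ
    positivity
  have hfin := hF.trans hsum
  have hph : 1 ≤ ph β := one_le_ph hβ
  have hlog := Real.log_le_log (by positivity) hfin
  rw [Real.log_mul (by positivity) (Real.exp_pos _).ne', Real.log_exp, Real.log_pow,
    Real.log_pow] at hlog
  have := DimT_log
  have hBn : (0 : ℝ) ≤ B.card := Nat.cast_nonneg _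
  nlinarith

end Pool.Agent.Lib.MP_6d8312_an.KD
end
end
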