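import Pool.Agent.Lib.MP_6d8312_an.Mg.G001
import Pool.Agent.Lib.MP_6d8312_an.Mg.G003
import Pool.Agent.Lib.MP_6d8312_an.Mg.G005
import Pool.Agent.Lib.MP_6d8312_an.Mg.G002

section

/-!
# One step of the recursion for the Laplace transform

With `w' a = (1 - (i/4) ch(a t)) w a`: `∑ w' a ch(aθ) = ∑ w a ch(aθ) - (i/4) ∑ w a ch(a(θ+t))`, so
`Fw A w' θ ≤ Fw A w θ + (1/4) Fw A w (θ+t)` and `exp(d x Fw w' θ) ≤ exp (d x Fw w θ) exp (d (x/4)
Fw w (θ+t))`; average over `t` first (`av_shift`, `av_comm`), then over `θ`.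
`Zw_pos`, `one_le_Zw` (`x ≥ 0`: the exponent is `≥ 0`).
-/

set_option autoImplicit false

noncomputable section

namespace Pool.Agent.Lib.MP_6d8312_an.KD

open Finset

variable {p : ℕ} [Fact p.Prime]

private theorem StepZ_Fw_nonneg (A : Finset (ZMod p)) (w : ZMod p → ℂ) (θ : ZMod p) :
    0 ≤ Fw A w θ := by
  unfold Fw
  positivity

private theorem StepZ_Fw_le (A : Finset (ZMod p)) (w : ZMod p → ℂ) (t θ : ZMod p) :
    Fw A (fun a => (1 - Complex.I * (1 / 4) * ch (a * t)) * w a) θ ≤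
      Fw A w θ + (1 / 4) * Fw A w (θ + t) := by
  have h1 : ∑ a ∈ A, (1 - Complex.I * (1 / 4) * ch (a * t)) * w a * ch (a * θ) =
      ∑ a ∈ A, w a * ch (a * θ) - Complex.I * (1 / 4) * ∑ a ∈ A, w a * ch (a * (θ + t)) := by
    rw [Finset.mul_sum, ← Finset.sum_sub_distrib]
    refine Finset.sum_congr rfl fun a _ => ?_
    rw [mul_add, ch_add]
    ring
  unfold Fw
  rw [h1]
  have h2 : ∀ u v c : ℝ, u / c + 1 / 4 * (v / c) = (u + 1 / 4 * v) / c := by
    intro u v c
    ring
  rw [h2]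
  refine div_le_div_of_nonneg_right ?_ (Nat.cast_nonneg _)
  refine (norm_sub_le _ _).trans ?_
  rw [norm_mul, norm_mul, Complex.norm_I, one_mul]
  norm_num

theorem one_le_Zw (A : Finset (ZMod p)) (w : ZMod p → ℂ) {x : ℝ} (hx : 0 ≤ x) :
    1 ≤ Zw A w x := by
  unfold Zw
  have h1 : (1 : ℝ) = av (fun _ : ZMod p => (1 : ℝ)) := (av_const 1).symm
  rw [h1]
  refine av_mono fun θ => ?_
  have h2 := StepZ_Fw_nonneg A w θ
  exact Real.one_le_exp (by positivity)

theorem Zw_step (A : Finset (ZMod p)) (w : ZMod p → ℂ) {x : ℝ} (hx : 0 ≤ x) :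
    av (fun t => Zw A (fun a => (1 - Complex.I * (1 / 4) * ch (a * t)) * w a) x) ≤
      Zw A w x * Zw A w (x / 4) := by
  unfold Zw
  have h1 : ∀ t θ : ZMod p,
      Real.exp (qd A * x * Fw A (fun a => (1 - Complex.I * (1 / 4) * ch (a * t)) * w a) θ) ≤
        Real.exp (qd A * x * Fw A w θ) * Real.exp (qd A * (x / 4) * Fw A w (t + θ)) := by
    intro t θ
    rw [← Real.exp_add]
    refine Real.exp_le_exp.2 ?_
    have h2 := StepZ_Fw_le A w t θ
    have h3 : (0 : ℝ) ≤ qd A * x := by positivity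
    have h4 := mul_le_mul_of_nonneg_left h2 h3
    rw [add_comm t θ]
    linarith
  calc av (fun t => av (fun θ => Real.exp (qd A * x *
        Fw A (fun a => (1 - Complex.I * (1 / 4) * ch (a * t)) * w a) θ)))
      ≤ av (fun t => av (fun θ =>
        Real.exp (qd A * x * Fw A w θ) * Real.exp (qd A * (x / 4) * Fw A w (t + θ)))) :=
        av_mono fun t => av_mono fun θ => h1 t θ
    _ = av (fun θ => av (fun t =>
        Real.exp (qd A * x * Fw A w θ) * Real.exp (qd A * (x / 4) * Fw A w (t + θ)))) := av_comm _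
    _ = av (fun θ => Real.exp (qd A * x * Fw A w θ) *
        av (fun t => Real.exp (qd A * (x / 4) * Fw A w t))) := by
        congr 1
        funext θ
        rw [av_mul_left]
        congr 1
        exact av_shift (fun t => Real.exp (qd A * (x / 4) * Fw A w t)) θ
    _ = _ := av_mul_right _ _

end Pool.Agent.Lib.MP_6d8312_an.KD
end
end

section

/-!
# The recursion along random steps

Induction on `K`, for all `w`.  `K = 0`: `wt t a = 1`, and `log Z < log c + log Z` or equality; the set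
is empty (`log c ≥ 0`).  `K + 1`: `t = Fin.cons t₀ t'` (`muK_succ`, `wt_cons`), `w' a =
(1 - (i/4) ch(a t₀)) w a`.  Call `t₀` bad if for some `j ≤ K` `c Zw w (x/4^j) Zw w (x/4^(j+1)) <
Zw w' (x/4^j)`; by `Zw_step` and `mu_markov` this has measure `≤ (K+1)/c` (union over `j`).  For good
`t₀` the induction hypothesis for `w'`: outside a set of `t'` of measure `≤ (K+1)²/c`,
`log Z(wt t' w') ≤ 2^K log c + ∑_j C(K,j) log Zw w' (x/4^j) ≤ 2^K log c + ∑_j C(K,j) (log c +
log Zw w (x/4^j) + log Zw w (x/4^(j+1))) = 2^(K+1) log c + ∑_{j ≤ K+1} C(K+1,j) log Zw w (x/4^j)`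
(`Nat.choose_succ_succ`, `Nat.sum_range_choose`, `Finset.sum_range_succ'`).  Total
`(K+1)/c + (K+1)²/c ≤ (K+2)²/c`.
-/

set_option autoImplicit false

noncomputable section

namespace Pool.Agent.Lib.MP_6d8312_an.KD

open Finset

variable {p : ℕ} [Fact p.Prime]

private theorem ChainZ_binom (K : ℕ) (L : ℕ → ℝ) :
    ∑ j ∈ range (K + 1), (K.choose j : ℝ) * (L j + L (j + 1)) =
      ∑ j ∈ range (K + 2), ((K + 1).choose j : ℝ) * L j := by
  have h1 : ∑ j ∈ range (K + 2), (K.choose j : ℝ) * L j =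
      ∑ j ∈ range (K + 1), (K.choose j : ℝ) * L j := by
    rw [Finset.sum_range_succ]
    simp
  have h2 := Finset.sum_range_succ' (fun j => (K.choose j : ℝ) * L j) (K + 1)
  have h3 := Finset.sum_range_succ' (fun j => ((K + 1).choose j : ℝ) * L j) (K + 1)
  rw [h1] at h2
  rw [h3]
  simp only [mul_add, Finset.sum_add_distrib]
  rw [h2]
  have h4 : ∑ j ∈ range (K + 1), ((K + 1).choose (j + 1) : ℝ) * L (j + 1) =
      ∑ j ∈ range (K + 1), (K.choose j : ℝ) * L (j + 1) +
        ∑ j ∈ range (K + 1), (K.choose (j + 1) : ℝ) * L (j + 1) := by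
    rw [← Finset.sum_add_distrib]
    refine Finset.sum_congr rfl fun j _ => ?_
    rw [Nat.choose_succ_succ]
    push_cast
    ring
  rw [h4]
  simp only [Nat.choose_zero_right]
  ring

private theorem ChainZ_choose (K : ℕ) : ∑ j ∈ range (K + 1), (K.choose j : ℝ) = 2 ^ K := by
  exact_mod_cast Nat.sum_range_choose K

theorem chainZ (A : Finset (ZMod p)) (K : ℕ) (w : ZMod p → ℂ) {x c : ℝ} (hx : 0 ≤ x)
    (hc : 1 ≤ c) :
    muK {t : Fin K → ZMod p |
      2 ^ K * Real.log c + ∑ j ∈ range (K + 1), (K.choose j : ℝ) * Real.log (Zw A w (x / 4 ^ j)) <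
        Real.log (Zw A (fun a => wt t a * w a) x)} ≤ ((K : ℝ) + 1) ^ 2 / c := by
  classical
  have hc0 : 0 < c := by linarith
  have hlogc : 0 ≤ Real.log c := Real.log_nonneg hc
  induction K generalizing w with
  | zero =>
    have h1 : {t : Fin 0 → ZMod p |
        2 ^ 0 * Real.log c + ∑ j ∈ range (0 + 1), ((0 : ℕ).choose j : ℝ) *
          Real.log (Zw A w (x / 4 ^ j)) < Real.log (Zw A (fun a => wt t a * w a) x)} = ∅ := by
      rw [Set.eq_empty_iff_forall_notMem]
      intro t ht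
      have ht' : 2 ^ 0 * Real.log c + ∑ j ∈ range (0 + 1), ((0 : ℕ).choose j : ℝ) *
          Real.log (Zw A w (x / 4 ^ j)) < Real.log (Zw A (fun a => wt t a * w a) x) := ht
      have h2 : (fun a => wt t a * w a) = w := by
        funext a
        simp [wt]
      rw [h2] at ht'
      simp at ht'
      linarith
    rw [h1]
    have h2 : muK (∅ : Set (Fin 0 → ZMod p)) = 0 := by
      simp [muK]
    rw [h2]
    positivity
  | succ K ih =>
    obtain ⟨w', hw'⟩ : ∃ w' : ZMod p → ZMod p → ℂ,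
        w' = fun t₀ a => (1 - Complex.I * (1 / 4) * ch (a * t₀)) * w a := ⟨_, rfl⟩
    obtain ⟨B, hB⟩ : ∃ B : Set (ZMod p), B = ⋃ j ∈ range (K + 1),
        {t₀ | c * (Zw A w (x / 4 ^ j) * Zw A w (x / 4 ^ j / 4)) ≤ Zw A (w' t₀) (x / 4 ^ j)} :=
      ⟨_, rfl⟩
    have hxj : ∀ j : ℕ, 0 ≤ x / 4 ^ j := fun j => by positivity
    have hBmu : mu B ≤ ((K : ℝ) + 1) / c := by
      rw [hB]
      refine (mu_iUnion_le _ _).trans ?_
      have h1 : ∀ j ∈ range (K + 1), mu {t₀ | c * (Zw A w (x / 4 ^ j) * Zw A w (x / 4 ^ j / 4)) ≤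
          Zw A (w' t₀) (x / 4 ^ j)} ≤ 1 / c := by
        intro j _
        have h2 := mu_markov (f := fun t₀ => Zw A (w' t₀) (x / 4 ^ j))
          (fun t₀ => zero_le_one.trans (one_le_Zw A _ (hxj j)))
          (c * (Zw A w (x / 4 ^ j) * Zw A w (x / 4 ^ j / 4)))
        have h3 := Zw_step A w (hxj j)
        have h4 : av (fun t₀ => Zw A (w' t₀) (x / 4 ^ j)) ≤
            Zw A w (x / 4 ^ j) * Zw A w (x / 4 ^ j / 4) := by
          rw [hw']
          exact h3
        have h5 : 0 < Zw A w (x / 4 ^ j) := zero_lt_one.trans_le (one_le_Zw A _ (hxj j))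
        have h6 : 0 < Zw A w (x / 4 ^ j / 4) :=
          zero_lt_one.trans_le (one_le_Zw A _ (by have := hxj j; positivity))
        have h7 : 0 < Zw A w (x / 4 ^ j) * Zw A w (x / 4 ^ j / 4) := mul_pos h5 h6
        rw [le_div_iff₀ hc0]
        have h8 := h2.trans h4
        by_contra h9
        push Not at h9
        have h10 := mul_lt_mul_of_pos_right h9 h7
        linarith
      calc _ ≤ ∑ j ∈ range (K + 1), 1 / c := Finset.sum_le_sum h1
        _ = ((K : ℝ) + 1) / c := by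
          rw [Finset.sum_const, Finset.card_range, nsmul_eq_mul]
          push_cast
          ring
    have hgood : ∀ t₀ ∉ B, muK {t : Fin K → ZMod p | (Fin.cons t₀ t : Fin (K + 1) → ZMod p) ∈
        {t : Fin (K + 1) → ZMod p | 2 ^ (K + 1) * Real.log c + ∑ j ∈ range (K + 1 + 1),
          ((K + 1).choose j : ℝ) * Real.log (Zw A w (x / 4 ^ j)) <
          Real.log (Zw A (fun a => wt t a * w a) x)}} ≤ ((K : ℝ) + 1) ^ 2 / c := by
      intro t₀ ht₀
      refine (muK_mono ?_).trans (ih (w' t₀))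
      intro t ht
      have ht' : 2 ^ (K + 1) * Real.log c + ∑ j ∈ range (K + 1 + 1),
          ((K + 1).choose j : ℝ) * Real.log (Zw A w (x / 4 ^ j)) <
          Real.log (Zw A (fun a => wt (Fin.cons t₀ t : Fin (K + 1) → ZMod p) a * w a) x) := ht
      change 2 ^ K * Real.log c + ∑ j ∈ range (K + 1), (K.choose j : ℝ) *
        Real.log (Zw A (w' t₀) (x / 4 ^ j)) < Real.log (Zw A (fun a => wt t a * w' t₀ a) x)
      have h1 : (fun a => wt (Fin.cons t₀ t : Fin (K + 1) → ZMod p) a * w a) =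
          fun a => wt t a * w' t₀ a := by
        funext a
        rw [wt_cons, hw']
        ring
      rw [h1] at ht'
      refine lt_of_le_of_lt ?_ ht'
      have h2 : ∀ j ∈ range (K + 1), (K.choose j : ℝ) * Real.log (Zw A (w' t₀) (x / 4 ^ j)) ≤
          (K.choose j : ℝ) * Real.log c + (K.choose j : ℝ) *
            (Real.log (Zw A w (x / 4 ^ j)) + Real.log (Zw A w (x / 4 ^ (j + 1)))) := by
        intro j hj
        have h3 : ¬ (c * (Zw A w (x / 4 ^ j) * Zw A w (x / 4 ^ j / 4)) ≤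
            Zw A (w' t₀) (x / 4 ^ j)) := by
          intro h4
          apply ht₀
          rw [hB]
          exact Set.mem_biUnion hj h4
        push Not at h3
        have h5 : 0 < Zw A w (x / 4 ^ j) := zero_lt_one.trans_le (one_le_Zw A _ (hxj j))
        have h6 : 0 < Zw A w (x / 4 ^ j / 4) :=
          zero_lt_one.trans_le (one_le_Zw A _ (by have := hxj j; positivity))
        have h7 : 0 < Zw A (w' t₀) (x / 4 ^ j) := zero_lt_one.trans_le (one_le_Zw A _ (hxj j))
        have h8 := Real.log_le_log h7 h3.le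
        rw [Real.log_mul hc0.ne' (mul_pos h5 h6).ne', Real.log_mul h5.ne' h6.ne'] at h8
        have h9 : x / 4 ^ (j + 1) = x / 4 ^ j / 4 := by
          rw [pow_succ, div_div]
        rw [h9, ← mul_add]
        exact mul_le_mul_of_nonneg_left h8 (Nat.cast_nonneg _)
      have h3 := Finset.sum_le_sum h2
      rw [Finset.sum_add_distrib, ← Finset.sum_mul, ChainZ_choose,
        ChainZ_binom K (fun j => Real.log (Zw A w (x / 4 ^ j)))] at h3
      rw [pow_succ]
      linarith
    rw [muK_succ]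
    have h1 : av (fun t₀ => muK {t : Fin K → ZMod p | (Fin.cons t₀ t : Fin (K + 1) → ZMod p) ∈
        {t : Fin (K + 1) → ZMod p | 2 ^ (K + 1) * Real.log c + ∑ j ∈ range (K + 1 + 1),
          ((K + 1).choose j : ℝ) * Real.log (Zw A w (x / 4 ^ j)) <
          Real.log (Zw A (fun a => wt t a * w a) x)}}) ≤
        av (fun t₀ => ((K : ℝ) + 1) ^ 2 / c + if t₀ ∈ B then 1 else 0) := by
      refine av_mono fun t₀ => ?_
      by_cases ht₀ : t₀ ∈ B
      · rw [if_pos ht₀]
        have h2 := muK_le_one {t : Fin K → ZMod p | (Fin.cons t₀ t : Fin (K + 1) → ZMod p) ∈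
          {t : Fin (K + 1) → ZMod p | 2 ^ (K + 1) * Real.log c + ∑ j ∈ range (K + 1 + 1),
            ((K + 1).choose j : ℝ) * Real.log (Zw A w (x / 4 ^ j)) <
            Real.log (Zw A (fun a => wt t a * w a) x)}}
        have h3 : 0 ≤ ((K : ℝ) + 1) ^ 2 / c := by positivity
        linarith
      · rw [if_neg ht₀, add_zero]
        exact hgood t₀ ht₀
    refine h1.trans ?_
    rw [av_add, av_const, ← mu_eq]
    have h2 : ((K : ℝ) + 1) ^ 2 / c + ((K : ℝ) + 1) / c ≤ (((K + 1 : ℕ) : ℝ) + 1) ^ 2 / c := by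
      rw [← add_div]
      refine div_le_div_of_nonneg_right ?_ hc0.le
      push_cast
      nlinarith [(Nat.cast_nonneg K : (0 : ℝ) ≤ K)]
    linarith

end Pool.Agent.Lib.MP_6d8312_an.KD
end
end

section

/-!
# The Laplace transform of the exponential sum

For a complex number `z`: `‖z‖ ≤ √2 max_ζ Re (ζ z)`, `ζ ∈ {1, -1, i, -i}`, so
`exp (y ‖z‖) ≤ ∑_ζ exp (√2 y Re (ζ z))`.  With `s = √2 y` and `|x| ≤ 1`:
`exp (s x) ≤ cosh s + x sinh s` (convexity), so `exp (s ∑_a Re (ζ ch(aθ))) ≤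
(cosh s)^n ∏_a (1 + tanh s Re (ζ ch (aθ)))`, `cosh s ≤ exp (s²/2) = exp (y²)`
(`Real.cosh_le_exp_half_sq`), `0 ≤ tanh s ≤ s ≤ ξ`, and `riesz_le` (with `z_b = ζ`).
-/

set_option autoImplicit false

noncomputable section

namespace Pool.Agent.Lib.MP_6d8312_an.KD

open Finset

variable {p : ℕ} [Fact p.Prime]

private theorem ExpSup_sinh_le {s : ℝ} (hs : 0 ≤ s) : Real.sinh s ≤ s * Real.cosh s := by
  have hmono : MonotoneOn (fun t : ℝ => t * Real.cosh t - Real.sinh t) (Set.Ici 0) := by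
    refine monotoneOn_of_deriv_nonneg (convex_Ici 0) ?_ ?_ ?_
    · exact ((continuous_id.mul Real.continuous_cosh).sub Real.continuous_sinh).continuousOn
    · exact ((differentiable_id.mul Real.differentiable_cosh).sub
        Real.differentiable_sinh).differentiableOn
    · intro t ht
      rw [interior_Ici] at ht
      have h1 : HasDerivAt (fun t : ℝ => t * Real.cosh t - Real.sinh t)
          (1 * Real.cosh t + t * Real.sinh t - Real.cosh t) t :=
        ((hasDerivAt_id t).mul (Real.hasDerivAt_cosh t)).sub (Real.hasDerivAt_sinh t)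
      rw [h1.deriv]
      have h2 : 0 ≤ Real.sinh t := Real.sinh_nonneg_iff.2 (le_of_lt ht)
      have h3 : 0 ≤ t * Real.sinh t := mul_nonneg (le_of_lt ht) h2
      linarith
  have h := hmono (Set.mem_Ici.2 le_rfl) (Set.mem_Ici.2 hs) hs
  simp only [zero_mul, Real.sinh_zero, sub_zero] at h
  linarith

private theorem ExpSup_one (A : Finset (ZMod p)) {s ξ : ℝ} (hs : 0 ≤ s) (hξ : s ≤ ξ) (ζ : ℂ)
    (hζ : ‖ζ‖ ≤ 1) :
    av (fun θ => Real.exp (s * (ζ * ∑ a ∈ A, ch (a * θ)).re)) ≤
      Real.exp (s ^ 2 / 2 * A.card) * rz ξ A := by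
  have hc : 0 < Real.cosh s := Real.cosh_pos s
  have hth0 : 0 ≤ Real.sinh s / Real.cosh s :=
    div_nonneg (Real.sinh_nonneg_iff.2 hs) hc.le
  have hth1 : Real.sinh s / Real.cosh s ≤ ξ := by
    rw [div_le_iff₀ hc]
    calc Real.sinh s ≤ s * Real.cosh s := ExpSup_sinh_le hs
      _ ≤ ξ * Real.cosh s := mul_le_mul_of_nonneg_right hξ hc.le
  have hz := riesz_le A (fun _ => ζ) (fun _ _ => hζ) (Real.sinh s / Real.cosh s) ξ hth0 hth1
  have hpt : ∀ θ : ZMod p, Real.exp (s * (ζ * ∑ a ∈ A, ch (a * θ)).re) ≤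
      Real.cosh s ^ A.card *
        ∏ b ∈ A, (1 + Real.sinh s / Real.cosh s * (ζ * ch (b * θ)).re) := by
    intro θ
    rw [Finset.mul_sum, Complex.re_sum, Finset.mul_sum, Real.exp_sum,
      ← Finset.prod_const, ← Finset.prod_mul_distrib]
    refine Finset.prod_le_prod (fun b _ => (Real.exp_pos _).le) fun b _ => ?_
    have h := Real.exp_mul_le_cosh_add_mul_sinh (abs_re_ch_le ζ hζ (b * θ)) s
    rw [mul_comm s]
    refine h.trans (le_of_eq ?_)
    field_simp
  have hrz : 0 ≤ rz ξ A := le_trans zero_le_one (one_le_rz A ξ (hs.trans hξ))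
  calc av (fun θ => Real.exp (s * (ζ * ∑ a ∈ A, ch (a * θ)).re))
      ≤ av (fun θ => Real.cosh s ^ A.card *
        ∏ b ∈ A, (1 + Real.sinh s / Real.cosh s * (ζ * ch (b * θ)).re)) := av_mono hpt
    _ = Real.cosh s ^ A.card *
        av (fun θ => ∏ b ∈ A, (1 + Real.sinh s / Real.cosh s * (ζ * ch (b * θ)).re)) :=
        av_mul_left _ _
    _ ≤ Real.cosh s ^ A.card * rz ξ A := mul_le_mul_of_nonneg_left hz (pow_nonneg hc.le _)
    _ ≤ Real.exp (s ^ 2 / 2 * A.card) * rz ξ A := by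
        refine mul_le_mul_of_nonneg_right ?_ hrz
        calc Real.cosh s ^ A.card ≤ Real.exp (s ^ 2 / 2) ^ A.card :=
              pow_le_pow_left₀ hc.le (Real.cosh_le_exp_half_sq s) _
          _ = Real.exp (s ^ 2 / 2 * A.card) := by
              rw [← Real.exp_nat_mul, mul_comm]

private theorem ExpSup_norm (z : ℂ) {y : ℝ} (hy : 0 ≤ y) :
    Real.exp (y * ‖z‖) ≤ Real.exp (Real.sqrt 2 * y * (1 * z).re) +
      Real.exp (Real.sqrt 2 * y * ((-1) * z).re) +
      Real.exp (Real.sqrt 2 * y * (Complex.I * z).re) +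
      Real.exp (Real.sqrt 2 * y * ((-Complex.I) * z).re) := by
  have h := Complex.norm_le_sqrt_two_mul_max z
  have e1 : (1 * z).re = z.re := by simp
  have e2 : ((-1) * z).re = -z.re := by simp
  have e3 : (Complex.I * z).re = -z.im := by simp
  have e4 : ((-Complex.I) * z).re = z.im := by simp
  rw [e1, e2, e3, e4]
  have p1 := Real.exp_pos (Real.sqrt 2 * y * z.re)
  have p2 := Real.exp_pos (Real.sqrt 2 * y * -z.re)
  have p3 := Real.exp_pos (Real.sqrt 2 * y * -z.im)
  have p4 := Real.exp_pos (Real.sqrt 2 * y * z.im)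
  have hb : ∀ x : ℝ, ‖z‖ ≤ Real.sqrt 2 * x →
      Real.exp (y * ‖z‖) ≤ Real.exp (Real.sqrt 2 * y * x) := by
    intro x hx
    refine Real.exp_le_exp.2 ?_
    calc y * ‖z‖ ≤ y * (Real.sqrt 2 * x) := mul_le_mul_of_nonneg_left hx hy
      _ = Real.sqrt 2 * y * x := by ring
  rcases le_total |z.re| |z.im| with hm | hm
  · rw [max_eq_right hm] at h
    rcases abs_choice z.im with hs | hs
    · rw [hs] at h
      have := hb _ h
      linarith
    · rw [hs] at h
      have := hb _ h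
      linarith
  · rw [max_eq_left hm] at h
    rcases abs_choice z.re with hs | hs
    · rw [hs] at h
      have := hb _ h
      linarith
    · rw [hs] at h
      have := hb _ h
      linarith

theorem Z0_le (A : Finset (ZMod p)) {y ξ : ℝ} (hy : 0 ≤ y) (hξ : Real.sqrt 2 * y ≤ ξ) :
    av (fun θ => Real.exp (y * ‖∑ a ∈ A, ch (a * θ)‖)) ≤
      4 * Real.exp (y ^ 2 * A.card) * rz ξ A := by
  have hs : 0 ≤ Real.sqrt 2 * y := mul_nonneg (Real.sqrt_nonneg 2) hy
  have hsq : (Real.sqrt 2 * y) ^ 2 / 2 = y ^ 2 := by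
    rw [mul_pow, Real.sq_sqrt (by norm_num : (0 : ℝ) ≤ 2)]
    ring
  have h1 := ExpSup_one A hs hξ 1 (by simp)
  have h2 := ExpSup_one A hs hξ (-1) (by simp)
  have h3 := ExpSup_one A hs hξ Complex.I (by simp)
  have h4 := ExpSup_one A hs hξ (-Complex.I) (by simp)
  rw [hsq] at h1 h2 h3 h4
  calc av (fun θ => Real.exp (y * ‖∑ a ∈ A, ch (a * θ)‖))
      ≤ av (fun θ => Real.exp (Real.sqrt 2 * y * (1 * ∑ a ∈ A, ch (a * θ)).re) +
        Real.exp (Real.sqrt 2 * y * ((-1) * ∑ a ∈ A, ch (a * θ)).re) +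
        Real.exp (Real.sqrt 2 * y * (Complex.I * ∑ a ∈ A, ch (a * θ)).re) +
        Real.exp (Real.sqrt 2 * y * ((-Complex.I) * ∑ a ∈ A, ch (a * θ)).re)) :=
        av_mono fun θ => ExpSup_norm _ hy
    _ = av (fun θ => Real.exp (Real.sqrt 2 * y * (1 * ∑ a ∈ A, ch (a * θ)).re)) +
        av (fun θ => Real.exp (Real.sqrt 2 * y * ((-1) * ∑ a ∈ A, ch (a * θ)).re)) +
        av (fun θ => Real.exp (Real.sqrt 2 * y * (Complex.I * ∑ a ∈ A, ch (a * θ)).re)) +
        av (fun θ => Real.exp (Real.sqrt 2 * y * ((-Complex.I) * ∑ a ∈ A, ch (a * θ)).re)) := by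
        rw [av_add, av_add, av_add]
    _ ≤ 4 * Real.exp (y ^ 2 * A.card) * rz ξ A := by linarith

end Pool.Agent.Lib.MP_6d8312_an.KD
end
end

section

/-!
# Riesz product averages with variable coefficients

`I(B, v) = (1/p) ∑_t ∏_{b∈B} (1 + ξ b Re ch(b t)) ch(v t)` (complex).  As
`1 + ξ Re ch(bt) = 1 + (ξ/2) ch(bt) + (ξ/2) ch(-bt)`, `I(insert b B, v) = I(B,v) + (ξ_b/2)(I(B,v+b)+
I(B,v-b))`; hence by induction on `B`, for all `v`: `I(B,v)` is real, nonnegative and increasing in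
`ξ ≥ 0` on `B`.  `rzg ξ B = I(B,0)`.
`one_le_rzg`: compare with `ξ = 0`.  `rzg_update`: the product is affine in the coefficient at `a`
(`Finset.mul_prod_erase`).  `rzg_update_le`: `1 + Re ch ≤ 2 = 2 (1 + 0)`, the other factors are
`≥ 0` since `0 ≤ ξ ≤ 1`.
-/

set_option autoImplicit false

noncomputable section

namespace Pool.Agent.Lib.MP_6d8312_an.KD

open Finset

variable {p : ℕ} [Fact p.Prime]

/-- Riesz product average with variable coefficients. -/
def rzg (ξ : ZMod p → ℝ) (B : Finset (ZMod p)) : ℝ :=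
  av (fun t => ∏ b ∈ B, (1 + ξ b * (ch (b * t)).re))

theorem rz_eq_rzg (ξ : ℝ) (B : Finset (ZMod p)) : rz ξ B = rzg (fun _ => ξ) B := rfl

theorem rzg_congr {ξ ξ' : ZMod p → ℝ} {B : Finset (ZMod p)} (h : ∀ b ∈ B, ξ b = ξ' b) :
    rzg ξ B = rzg ξ' B := by
  unfold rzg
  congr 1
  funext t
  exact Finset.prod_congr rfl fun b hb => by rw [h b hb]

/-- The (real) Fourier coefficients of a Riesz product. -/
private def rzJ (ξ : ZMod p → ℝ) (B : Finset (ZMod p)) (v : ZMod p) : ℝ :=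
  av (fun t => (∏ b ∈ B, (1 + ξ b * (ch (b * t)).re)) * (ch (v * t)).re)

private theorem RzGen_cos (x y : ZMod p) :
    (ch y).re * (ch x).re = (1 / 2) * ((ch (x + y)).re + (ch (x - y)).re) := by
  rw [sub_eq_add_neg, ch_add, ch_add, ch_neg, Complex.mul_re, Complex.mul_re, Complex.conj_re,
    Complex.conj_im]
  ring

private theorem rzJ_empty (ξ : ZMod p → ℝ) (v : ZMod p) : 0 ≤ rzJ ξ ∅ v := by
  have h : rzJ ξ ∅ v = (∑ x : ZMod p, ch (v * x)).re / p := by
    unfold rzJ av
    rw [Complex.re_sum]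
    congr 1
    refine Finset.sum_congr rfl fun x _ => ?_
    change (∏ b ∈ ∅, (1 + ξ b * (ch (b * x)).re)) * (ch (v * x)).re = (ch (v * x)).re
    rw [Finset.prod_empty, one_mul]
  rw [h, sum_ch]
  refine div_nonneg ?_ p_pos.le
  split_ifs
  · rw [Complex.natCast_re]
    exact p_pos.le
  · simp

private theorem rzJ_empty_congr (ξ ξ' : ZMod p → ℝ) (v : ZMod p) : rzJ ξ ∅ v = rzJ ξ' ∅ v := by
  unfold rzJ
  congr 1

private theorem rzJ_insert (ξ : ZMod p → ℝ) {B : Finset (ZMod p)} {b : ZMod p} (hb : b ∉ B)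
    (v : ZMod p) :
    rzJ ξ (insert b B) v = rzJ ξ B v + ξ b * (1 / 2) * (rzJ ξ B (v + b) + rzJ ξ B (v - b)) := by
  unfold rzJ
  rw [← av_add, ← av_mul_left, ← av_add]
  congr 1
  funext t
  rw [Finset.prod_insert hb, add_mul v b t, sub_mul v b t]
  have h := RzGen_cos (v * t) (b * t)
  have h2 : (1 + ξ b * (ch (b * t)).re) * (∏ b ∈ B, (1 + ξ b * (ch (b * t)).re)) *
      (ch (v * t)).re = (∏ b ∈ B, (1 + ξ b * (ch (b * t)).re)) * (ch (v * t)).re +
        ξ b * (∏ b ∈ B, (1 + ξ b * (ch (b * t)).re)) * ((ch (b * t)).re * (ch (v * t)).re) := by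
    ring
  rw [h2, h]
  ring

private theorem rzJ_mono {ξ ξ' : ZMod p → ℝ} {B : Finset (ZMod p)} (h0 : ∀ b ∈ B, 0 ≤ ξ b)
    (h : ∀ b ∈ B, ξ b ≤ ξ' b) : ∀ v, 0 ≤ rzJ ξ B v ∧ rzJ ξ B v ≤ rzJ ξ' B v := by
  classical
  induction B using Finset.induction_on with
  | empty =>
    intro v
    exact ⟨rzJ_empty ξ v, (rzJ_empty_congr ξ ξ' v).le⟩
  | insert b B hb ih =>
    have ih' := ih (fun c hc => h0 c (Finset.mem_insert_of_mem hc))
      (fun c hc => h c (Finset.mem_insert_of_mem hc))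
    have hb0 := h0 b (Finset.mem_insert_self b B)
    have hb1 := h b (Finset.mem_insert_self b B)
    intro v
    rw [rzJ_insert ξ hb, rzJ_insert ξ' hb]
    have hs0 : 0 ≤ rzJ ξ B (v + b) + rzJ ξ B (v - b) := add_nonneg (ih' _).1 (ih' _).1
    have hs1 : rzJ ξ B (v + b) + rzJ ξ B (v - b) ≤ rzJ ξ' B (v + b) + rzJ ξ' B (v - b) :=
      add_le_add (ih' _).2 (ih' _).2
    constructor
    · exact add_nonneg (ih' v).1 (mul_nonneg (by positivity) hs0)
    · refine add_le_add (ih' v).2 ?_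
      refine mul_le_mul ?_ hs1 hs0 ?_
      · linarith
      · linarith

private theorem rzg_eq_rzJ (ξ : ZMod p → ℝ) (B : Finset (ZMod p)) : rzg ξ B = rzJ ξ B 0 := by
  unfold rzg rzJ
  congr 1
  funext t
  rw [zero_mul, ch_zero, Complex.one_re, mul_one]

theorem rzg_mono {ξ ξ' : ZMod p → ℝ} {B : Finset (ZMod p)} (h0 : ∀ b ∈ B, 0 ≤ ξ b)
    (h : ∀ b ∈ B, ξ b ≤ ξ' b) : rzg ξ B ≤ rzg ξ' B := by
  rw [rzg_eq_rzJ, rzg_eq_rzJ]
  exact (rzJ_mono h0 h 0).2

theorem one_le_rzg {ξ : ZMod p → ℝ} {B : Finset (ZMod p)} (h0 : ∀ b ∈ B, 0 ≤ ξ b) :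
    1 ≤ rzg ξ B := by
  have h1 : rzg (fun _ : ZMod p => (0 : ℝ)) B = 1 := by
    unfold rzg
    simp only [zero_mul, add_zero, Finset.prod_const_one]
    exact av_const 1
  rw [← h1]
  exact rzg_mono (fun _ _ => le_rfl) h0

private theorem RzGen_prod (ξ : ZMod p → ℝ) (B : Finset (ZMod p)) {a : ZMod p} (ha : a ∈ B) (s : ℝ)
    (t : ZMod p) : ∏ b ∈ B, (1 + Function.update ξ a s b * (ch (b * t)).re) =
      (1 + s * (ch (a * t)).re) * ∏ b ∈ B.erase a, (1 + ξ b * (ch (b * t)).re) := by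
  rw [← Finset.mul_prod_erase B _ ha, Function.update_self]
  congr 1
  refine Finset.prod_congr rfl fun b hb => ?_
  rw [Function.update_of_ne (Finset.ne_of_mem_erase hb)]

theorem rzg_update (ξ : ZMod p → ℝ) (B : Finset (ZMod p)) {a : ZMod p} (ha : a ∈ B) (s : ℝ) :
    rzg (Function.update ξ a s) B =
      (1 - s) * rzg (Function.update ξ a 0) B + s * rzg (Function.update ξ a 1) B := by
  unfold rzg
  rw [← av_mul_left, ← av_mul_left, ← av_add]
  congr 1
  funext t
  rw [RzGen_prod ξ B ha, RzGen_prod ξ B ha, RzGen_prod ξ B ha]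
  ring

theorem rzg_update_le {ξ : ZMod p → ℝ} {B : Finset (ZMod p)} {a : ZMod p} (ha : a ∈ B)
    (h0 : ∀ b ∈ B, 0 ≤ ξ b) (h1 : ∀ b ∈ B, ξ b ≤ 1) :
    rzg (Function.update ξ a 1) B ≤ 2 * rzg (Function.update ξ a 0) B := by
  unfold rzg
  rw [← av_mul_left]
  refine av_mono fun t => ?_
  rw [RzGen_prod ξ B ha, RzGen_prod ξ B ha]
  have hE : 0 ≤ ∏ b ∈ B.erase a, (1 + ξ b * (ch (b * t)).re) := by
    refine Finset.prod_nonneg fun b hb => ?_
    have hb' := Finset.mem_of_mem_erase hb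
    have h2 := h0 b hb'
    have h3 := h1 b hb'
    have h4 := neg_one_le_re_ch (b * t)
    nlinarith
  have h5 := re_ch_le_one (a * t)
  nlinarith

end Pool.Agent.Lib.MP_6d8312_an.KD
end
end

section

/-!
# Replacing the Riesz product by random ones

CLAIM: for finite `A` and `S` disjoint from `A`, with `ξ_{A}(x) = if x ∈ A then ξ else 1`,
`log (rzg ξ_A (A ∪ S)) ≤ bern l A (fun T => log (rz 1 (S ∪ T)))`.  Induction on `A`: for
`insert a A`, by `rzg_update` at `a` (`s = ξ`): `rzg = (1-ξ) z₀ + ξ z₁` where `z₀` (coefficient `0` at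
`a`) is `rzg ξ_A (A ∪ S)` (the factor at `a` is `1`) and `z₁` (coefficient `1`) is
`rzg ξ_A (A ∪ insert a S)`.  By `rzg_mono`, `rzg_update_le`: `1 ≤ z₀ ≤ z₁ ≤ 2 z₀`, so by `log_mix_le`
`log ≤ (1-l) log z₀ + l log z₁`, and the induction hypothesis for `S` and for `insert a S` and
`bern_insert`.  Finally `S = ∅`.
-/

set_option autoImplicit false

noncomputable section

namespace Pool.Agent.Lib.MP_6d8312_an.KD

open Finset

variable {p : ℕ} [Fact p.Prime]

private theorem rzg_update_zero (ξ : ZMod p → ℝ) {B : Finset (ZMod p)} {a : ZMod p}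
    (ha : a ∉ B) : rzg (Function.update ξ a 0) (insert a B) = rzg ξ B := by
  unfold rzg
  congr 1
  funext t
  rw [Finset.prod_insert ha, Function.update_self, zero_mul, add_zero, one_mul]
  refine Finset.prod_congr rfl fun b hb => ?_
  have hba : b ≠ a := fun h => ha (h ▸ hb)
  rw [Function.update_of_ne hba]

private theorem log_rz_aux {ξ l : ℝ} (h0 : 0 ≤ l) (h1 : l ≤ 1)
    (hξ : 1 + ξ = (2 : ℝ) ^ l) (A : Finset (ZMod p)) :
    ∀ S : Finset (ZMod p), Disjoint A S →
      Real.log (rzg (fun x => if x ∈ A then ξ else 1) (A ∪ S)) ≤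
        bern l A (fun T => Real.log (rz 1 (S ∪ T))) := by
  have hξ0 : 0 ≤ ξ := by
    have : (1 : ℝ) ≤ 2 ^ l := Real.one_le_rpow (by norm_num) h0
    linarith
  have hξ1 : ξ ≤ 1 := by
    have : (2 : ℝ) ^ l ≤ 2 ^ (1 : ℝ) := Real.rpow_le_rpow_of_exponent_le (by norm_num) h1
    rw [Real.rpow_one] at this
    linarith
  induction A using Finset.induction_on with
  | empty =>
    intro S _
    rw [bern_empty, Finset.union_empty, Finset.empty_union, rz_eq_rzg]
    refine le_of_eq (congrArg Real.log (rzg_congr fun b _ => ?_))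
    simp
  | insert a A ha ih =>
    intro S hd
    rw [Finset.disjoint_insert_left] at hd
    obtain ⟨haS, hAS⟩ := hd
    set ξ' : ZMod p → ℝ := fun x => if x ∈ insert a A then ξ else 1 with hξ'
    have hB : insert a A ∪ S = insert a (A ∪ S) := Finset.insert_union _ _ _
    have haB : a ∉ A ∪ S := by
      rw [Finset.mem_union]; push Not; exact ⟨ha, haS⟩
    have hup : Function.update ξ' a ξ = ξ' := by
      have : ξ' a = ξ := by simp [hξ']
      conv_lhs => rw [← this]
      exact Function.update_eq_self a ξ'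
    have hmem : a ∈ insert a (A ∪ S) := Finset.mem_insert_self _ _
    have key := rzg_update ξ' (insert a (A ∪ S)) hmem ξ
    rw [hup] at key
    have hpos : ∀ b ∈ insert a (A ∪ S), 0 ≤ ξ' b := by
      intro b _
      simp only [hξ']
      split_ifs
      · exact hξ0
      · norm_num
    have hle1 : ∀ b ∈ insert a (A ∪ S), ξ' b ≤ 1 := by
      intro b _
      simp only [hξ']
      split_ifs
      · exact hξ1
      · exact le_rfl
    have hpos0 : ∀ b ∈ insert a (A ∪ S), 0 ≤ Function.update ξ' a 0 b := by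
      intro b hb
      by_cases hba : b = a
      · subst hba; simp
      · rw [Function.update_of_ne hba]; exact hpos b hb
    have hz0 : 1 ≤ rzg (Function.update ξ' a 0) (insert a (A ∪ S)) := one_le_rzg hpos0
    have h01 : rzg (Function.update ξ' a 0) (insert a (A ∪ S)) ≤
        rzg (Function.update ξ' a 1) (insert a (A ∪ S)) := by
      refine rzg_mono hpos0 fun b _ => ?_
      by_cases hba : b = a
      · subst hba; simp
      · rw [Function.update_of_ne hba, Function.update_of_ne hba]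
    have h12 := rzg_update_le hmem hpos hle1
    have hmix := log_mix_le h0 h1 hξ (lt_of_lt_of_le one_pos hz0) h01 h12
    have e0 : rzg (Function.update ξ' a 0) (insert a (A ∪ S)) =
        rzg (fun x => if x ∈ A then ξ else 1) (A ∪ S) := by
      rw [rzg_update_zero _ haB]
      refine rzg_congr fun b hb => ?_
      have hba : b ≠ a := fun h => haB (h ▸ hb)
      simp [hξ', hba]
    have e1 : rzg (Function.update ξ' a 1) (insert a (A ∪ S)) =
        rzg (fun x => if x ∈ A then ξ else 1) (A ∪ insert a S) := by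
      rw [Finset.union_insert]
      refine rzg_congr fun b hb => ?_
      by_cases hba : b = a
      · subst hba; simp [ha]
      · rw [Function.update_of_ne hba]; simp [hξ', hba]
    rw [hB, key, bern_insert l ha]
    refine hmix.trans ?_
    rw [e0, e1]
    have i0 := ih S hAS
    have i1 := ih (insert a S) (by
      rw [Finset.disjoint_insert_right]; exact ⟨ha, hAS⟩)
    have e2 : (fun T : Finset (ZMod p) => Real.log (rz 1 (S ∪ insert a T))) =
        fun T => Real.log (rz 1 (insert a S ∪ T)) := by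
      funext T
      rw [Finset.union_insert, Finset.insert_union]
    rw [e2]
    exact add_le_add (mul_le_mul_of_nonneg_left i0 (by linarith))
      (mul_le_mul_of_nonneg_left i1 h0)

theorem log_rz_le (A : Finset (ZMod p)) {ξ l : ℝ} (h0 : 0 ≤ l) (h1 : l ≤ 1)
    (hξ : 1 + ξ = (2 : ℝ) ^ l) :
    Real.log (rz ξ A) ≤ bern l A (fun S => Real.log (rz 1 S)) := by
  have h := log_rz_aux h0 h1 hξ A ∅ (Finset.disjoint_empty_right _)
  rw [Finset.union_empty] at h
  have e : rz ξ A = rzg (fun x => if x ∈ A then ξ else 1) A := by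
    rw [rz_eq_rzg]
    exact rzg_congr fun b hb => by simp [hb]
  rw [e]
  simpa using h

end Pool.Agent.Lib.MP_6d8312_an.KD
end
end

section

/-!
# The Riesz product average is at most the Villain kernel at `0`

With `I(S,v)` as in `RzGen` for `ξ = 1` (real): `I(∅,v) = dl v`, `I(insert s S, v) = I(S,v) +
(1/2) I(S,v+s) + (1/2) I(S,v-s)`, while `kf 1 (insert s S) v = ∑_j vw 1 j * kf 1 S (v - j s)` is at
least the sum of the terms `j = 0, 1, -1` (different, as `p ≠ 2`), with `vw 1 0 ≥ 1`,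
`vw 1 (±1) ≥ exp (-1/2) ≥ 1/2`.  By induction `0 ≤ I(S,v) ≤ kf 1 S v` for all `v`.
-/

set_option autoImplicit false

noncomputable section

namespace Pool.Agent.Lib.MP_6d8312_an.KD

open Finset

variable {p : ℕ} [Fact p.Prime]

/-- The Fourier coefficients of the Riesz product. -/
private def RzLeKf_I (S : Finset (ZMod p)) (v : ZMod p) : ℝ :=
  av (fun t => (∏ b ∈ S, (1 + 1 * (ch (b * t)).re)) * (ch (v * t)).re)

private theorem RzLeKf_empty (v : ZMod p) : RzLeKf_I ∅ v = dl v := by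
  unfold RzLeKf_I av dl
  simp only [Finset.prod_empty, one_mul]
  have h1 : ∑ t, (ch (v * t)).re = (∑ t, ch (v * t)).re := (Complex.re_sum _ _).symm
  rw [h1, sum_ch]
  have hp0 : (p : ℝ) ≠ 0 := p_pos.ne'
  by_cases hv : v = 0
  · simp [hv, hp0]
  · simp [hv]

private theorem RzLeKf_insert {s : ZMod p} {S : Finset (ZMod p)} (hs : s ∉ S) (v : ZMod p) :
    RzLeKf_I (insert s S) v =
      RzLeKf_I S v + (1 / 2) * RzLeKf_I S (v + s) + (1 / 2) * RzLeKf_I S (v - s) := by
  unfold RzLeKf_I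
  rw [← av_mul_left, ← av_mul_left, ← av_add, ← av_add]
  congr 1
  funext t
  rw [Finset.prod_insert hs]
  have h1 : ch ((v + s) * t) = ch (v * t) * ch (s * t) := by rw [add_mul, ch_add]
  have h2 : ch ((v - s) * t) = ch (v * t) * (starRingEnd ℂ) (ch (s * t)) := by
    rw [sub_mul, sub_eq_add_neg, ch_add, ch_neg]
  rw [h1, h2, Complex.mul_re, Complex.mul_re, Complex.conj_re, Complex.conj_im]
  ring

private theorem RzLeKf_main (hp : p ≠ 2) (S : Finset (ZMod p)) :
    ∀ v, 0 ≤ RzLeKf_I S v ∧ RzLeKf_I S v ≤ kf 1 S v := by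
  induction S using Finset.induction_on with
  | empty =>
    intro v
    rw [RzLeKf_empty]
    refine ⟨by unfold dl; split_ifs <;> norm_num, ?_⟩
    unfold kf
    rw [KK_empty']
  | insert s S hs ih =>
    intro v
    rw [RzLeKf_insert hs]
    refine ⟨?_, ?_⟩
    · have h1 := (ih v).1
      have h2 := (ih (v + s)).1
      have h3 := (ih (v - s)).1
      positivity
    · have hk : kf 1 (insert s S) v = ∑ j, vw 1 j * kf 1 S (v - j * s) := by
        unfold kf
        rw [KK_insert' _ _ hs]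
        rfl
      have hnn : ∀ j : ZMod p, 0 ≤ vw 1 j * kf 1 S (v - j * s) := fun j =>
        mul_nonneg (vw_nonneg 1 j) ((ih _).1.trans (ih _).2)
      have h2 := two_ne_zero' (p := p) hp
      have h10 : (1 : ZMod p) ≠ 0 := one_ne_zero
      have h11 : (1 : ZMod p) ≠ -1 := by
        intro h
        apply h2
        have : (1 : ZMod p) + 1 = 0 := by nth_rewrite 1 [h]; ring
        rw [← this]; norm_num
      have hm10 : (-1 : ZMod p) ≠ 0 := neg_ne_zero.mpr h10
      have hsub : ∑ j ∈ ({0, 1, -1} : Finset (ZMod p)), vw 1 j * kf 1 S (v - j * s) ≤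
          ∑ j, vw 1 j * kf 1 S (v - j * s) :=
        Finset.sum_le_sum_of_subset_of_nonneg (Finset.subset_univ _) fun j _ _ => hnn j
      have hsum : ∑ j ∈ ({0, 1, -1} : Finset (ZMod p)), vw 1 j * kf 1 S (v - j * s) =
          vw 1 (0 : ZMod p) * kf 1 S v + vw 1 (1 : ZMod p) * kf 1 S (v - s) +
            vw 1 (-1 : ZMod p) * kf 1 S (v + s) := by
        rw [Finset.sum_insert, Finset.sum_insert, Finset.sum_singleton]
        · simp only [zero_mul, sub_zero, one_mul, neg_mul, sub_neg_eq_add]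
          ring
        · simpa using h11
        · simp only [Finset.mem_insert, Finset.mem_singleton, not_or]
          exact ⟨h10.symm, hm10.symm⟩
      have hexp : (1 / 2 : ℝ) ≤ Real.exp (-(1 : ℝ) ^ 2 / (2 * 1)) := by
        have := Real.add_one_le_exp (-(1 : ℝ) ^ 2 / (2 * 1))
        norm_num at this ⊢
        linarith
      have hv0 := one_le_vw_zero (p := p) (β := 1) one_pos
      have hv1 : (1 / 2 : ℝ) ≤ vw 1 (1 : ZMod p) := by
        have h3 := exp_le_vw (p := p) (β := 1) one_pos 1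
        simp only [Int.cast_one] at h3
        exact hexp.trans h3
      have hv2 : (1 / 2 : ℝ) ≤ vw 1 (-1 : ZMod p) := by
        rw [vw_even]; exact hv1
      rw [hk]
      refine le_trans ?_ hsub
      rw [hsum]
      have a1 := (ih v).2
      have a2 := (ih (v + s)).2
      have a3 := (ih (v - s)).2
      have b1 := (ih v).1
      have b2 := (ih (v + s)).1
      have b3 := (ih (v - s)).1
      have c1 : RzLeKf_I S v ≤ vw 1 (0 : ZMod p) * kf 1 S v := by
        calc RzLeKf_I S v = 1 * RzLeKf_I S v := (one_mul _).symm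
          _ ≤ vw 1 (0 : ZMod p) * kf 1 S v := mul_le_mul hv0 a1 b1 (vw_nonneg _ _)
      have c2 : 1 / 2 * RzLeKf_I S (v - s) ≤ vw 1 (1 : ZMod p) * kf 1 S (v - s) :=
        mul_le_mul hv1 a3 b3 (vw_nonneg _ _)
      have c3 : 1 / 2 * RzLeKf_I S (v + s) ≤ vw 1 (-1 : ZMod p) * kf 1 S (v + s) :=
        mul_le_mul hv2 a2 b2 (vw_nonneg _ _)
      linarith

theorem rz_one_le_kf (hp : p ≠ 2) (S : Finset (ZMod p)) : rz 1 S ≤ kf 1 S 0 := by
  have h := (RzLeKf_main hp S 0).2
  have h1 : RzLeKf_I S 0 = rz 1 S := by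
    unfold RzLeKf_I rz
    congr 1
    funext t
    rw [zero_mul, ch_zero, Complex.one_re, mul_one]
  rw [h1] at h
  exact h

end Pool.Agent.Lib.MP_6d8312_an.KD
end
end
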