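import Pool.Agent.Lib.MP_6d8312_an.Mg.G005
import Pool.Agent.Lib.MP_6d8312_an.Mg.G003
import Pool.Agent.Lib.MP_6d8312_an.Mg.G008
import Pool.Agent.Lib.MP_6d8312_an.Mg.G002
import Pool.Agent.Lib.MP_6d8312_an.Mg.G001

section

/-!
# Entropy bound for separated sets

`L = 1 + log (1/δ) ≥ 1`.  Suppose `|Θ| > exp (30 q L)`; take a subset (call it `Θ` again, separated
too) of size `N₁ = ⌊exp (30 q L)⌋ + 1` (`Finset.exists_subset_card_eq`), so `exp (30 q L) < N₁ ≤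
2 exp (30 q L) ≤ exp (31 q L)`.  `M₀ = ⌈1900 L/δ²⌉`, `M' = M₀ q`, `K₀ = ⌈496 L/δ²⌉`, `k = K₀ q`.
`N₁² exp (-.033 M' δ²) ≤ exp (62 q L - 62.7 q L) < 1`: `sample` gives `v`; `N₁ exp (-k δ²/16) ≤
exp (31 q L - 31 q L) = 1`: `packing`; the image `V'` of `v` is contained in `V`, `|V'| ≤ M' = M₀ q`,
`qd V' ≤ q`: `card_ksum`.  So `N₁ ≤ 2 (2 exp 2 M₀ K₀)^q ≤ (4 exp 2 M₀ K₀)^q` with `M₀ ≤ 1901 L/δ²`,
`K₀ ≤ 497 L/δ²` (`L/δ² ≥ 1`): `4 exp 2 M₀ K₀ ≤ 4·7.39·1901·497 L²/δ⁴ ≤ 2.8·10⁷ L²/δ⁴ ≤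
exp (17.2) · exp (2 L - 2)·exp(4 (L-1)) ≤ exp (11.2 + 6 L) ≤ exp (17.2 L)` (`L ≤ exp (L-1)`,
`1/δ = exp (L-1)`, `exp 17.2 ≥ 2.9·10⁷`).  Hence `exp (30 q L) < exp (17.2 q L)`, a contradiction.
(If you want room: any bound `< 30` instead of `17.2` will do.)
-/

set_option autoImplicit false

noncomputable section

namespace Pool.Agent.Lib.MP_6d8312_an.KD

open Finset

variable {p : ℕ} [Fact p.Prime]

theorem entropy (V : Finset (ZMod p)) (w : ZMod p → ℝ) (hw : ∀ v ∈ V, 0 ≤ w v)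
    (hw1 : ∑ v ∈ V, w v = 1) (q : ℕ) (hq : 1 ≤ q) (hd : qd V ≤ q) {δ : ℝ} (hδ : 0 < δ)
    (hδ1 : δ ≤ 1) (Θ : Finset (ZMod p))
    (hsep : ∀ σ ∈ Θ, ∀ σ' ∈ Θ, σ ≠ σ' →
      δ ^ 2 ≤ ∑ v ∈ V, w v * ‖ch (v * σ) - ch (v * σ')‖ ^ 2) :
    (Θ.card : ℝ) ≤ Real.exp (30 * q * (1 + Real.log (1 / δ))) := by
  by_contra hcon
  rw [not_le] at hcon
  have hlog : 0 ≤ Real.log (1 / δ) := Real.log_nonneg (by rw [le_div_iff₀ hδ]; linarith)
  obtain ⟨L, hL⟩ : ∃ L, L = 1 + Real.log (1 / δ) := ⟨_, rfl⟩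
  rw [← hL] at hcon
  have hL1 : 1 ≤ L := by linarith
  have hq1 : (1 : ℝ) ≤ q := by exact_mod_cast hq
  have hqL : 1 ≤ q * L := by nlinarith
  obtain ⟨X, hX⟩ : ∃ X, X = L / δ ^ 2 := ⟨_, rfl⟩
  have hd2 : 0 < δ ^ 2 := by positivity
  have hd21 : δ ^ 2 ≤ 1 := by nlinarith
  have hXd : X * δ ^ 2 = L := by rw [hX, div_mul_cancel₀ _ hd2.ne']
  have hX1 : 1 ≤ X := by
    rw [hX, le_div_iff₀ hd2]
    linarith
  -- the subset of the right size
  obtain ⟨Θ', hΘ', hcard⟩ := Finset.exists_subset_card_eq (s := Θ)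
    (n := ⌊Real.exp (30 * q * L)⌋₊ + 1)
    (Nat.succ_le_of_lt ((Nat.floor_lt (Real.exp_pos _).le).2 hcon))
  have hN1 : Real.exp (30 * q * L) < Θ'.card := by
    rw [hcard]
    push_cast
    exact Nat.lt_floor_add_one _
  have hN2 : (Θ'.card : ℝ) ≤ Real.exp (31 * (q * L)) := by
    rw [hcard]
    push_cast
    have h1 := Nat.floor_le (Real.exp_pos (30 * q * L)).le
    have h2 : Real.exp (31 * (q * L)) = Real.exp (30 * q * L) * Real.exp (q * L) := by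
      rw [← Real.exp_add]
      congr 1
      ring
    have h3 := Real.add_one_le_exp (q * L)
    have h4 : 1 ≤ Real.exp (30 * q * L) := Real.one_le_exp (by positivity)
    rw [h2]
    nlinarith
  have hsep' : ∀ σ ∈ Θ', ∀ σ' ∈ Θ', σ ≠ σ' →
      δ ^ 2 ≤ ∑ v ∈ V, w v * ‖ch (v * σ) - ch (v * σ')‖ ^ 2 :=
    fun σ h σ' h' hne => hsep σ (hΘ' h) σ' (hΘ' h') hne
  -- the parameters
  obtain ⟨M₀, hM₀⟩ : ∃ M₀ : ℕ, M₀ = ⌈1900 * X⌉₊ := ⟨_, rfl⟩
  obtain ⟨K₀, hK₀⟩ : ∃ K₀ : ℕ, K₀ = ⌈496 * X⌉₊ := ⟨_, rfl⟩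
  have hMl : 1900 * X ≤ M₀ := by rw [hM₀]; exact Nat.le_ceil _
  have hKl : 496 * X ≤ K₀ := by rw [hK₀]; exact Nat.le_ceil _
  have hMu : (M₀ : ℝ) ≤ 1901 * X := by
    rw [hM₀]
    have := (Nat.ceil_lt_add_one (show (0 : ℝ) ≤ 1900 * X by positivity)).le
    linarith
  have hKu : (K₀ : ℝ) ≤ 497 * X := by
    rw [hK₀]
    have := (Nat.ceil_lt_add_one (show (0 : ℝ) ≤ 496 * X by positivity)).le
    linarith
  have hM1 : 1 ≤ M₀ := by
    have : (1 : ℝ) ≤ M₀ := by linarith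
    exact_mod_cast this
  have hK1 : 1 ≤ K₀ := by
    have : (1 : ℝ) ≤ K₀ := by linarith
    exact_mod_cast this
  have hMd : 1900 * L ≤ M₀ * δ ^ 2 := by
    have := mul_le_mul_of_nonneg_right hMl hd2.le
    rw [mul_assoc, hXd] at this
    exact this
  have hKd : 496 * L ≤ K₀ * δ ^ 2 := by
    have := mul_le_mul_of_nonneg_right hKl hd2.le
    rw [mul_assoc, hXd] at this
    exact this
  obtain ⟨v, hv, hvs⟩ := sample V w hw hw1 Θ' hδ (M₀ * q) hsep' (by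
    have h1 : (Θ'.card : ℝ) ^ 2 ≤ Real.exp (62 * (q * L)) := by
      have h2 : Real.exp (62 * (q * L)) = Real.exp (31 * (q * L)) ^ 2 := by
        rw [← Real.exp_nat_mul]
        congr 1
        push_cast
        ring
      rw [h2]
      exact pow_le_pow_left₀ (Nat.cast_nonneg _) hN2 2
    have h3 : -(33 / 1000) * ((M₀ * q : ℕ) : ℝ) * δ ^ 2 ≤ -(627 / 10) * (q * L) := by
      push_cast
      have := mul_le_mul_of_nonneg_left hMd (show (0 : ℝ) ≤ q by positivity)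
      nlinarith
    calc (Θ'.card : ℝ) ^ 2 * Real.exp (-(33 / 1000) * ((M₀ * q : ℕ) : ℝ) * δ ^ 2)
        ≤ Real.exp (62 * (q * L)) * Real.exp (-(627 / 10) * (q * L)) := by
          gcongr
      _ = Real.exp (-(7 / 10) * (q * L)) := by
          rw [← Real.exp_add]
          congr 1
          ring
      _ < 1 := by
          rw [Real.exp_lt_one_iff]
          nlinarith)
  have hMq : 1 ≤ M₀ * q := Nat.one_le_iff_ne_zero.2 (Nat.mul_ne_zero (by omega) (by omega))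
  have hpack := packing hMq v Θ' hδ hδ1 hvs (K₀ * q) (by
    have h3 : -((K₀ * q : ℕ) : ℝ) * δ ^ 2 / 16 ≤ -31 * (q * L) := by
      push_cast
      have := mul_le_mul_of_nonneg_left hKd (show (0 : ℝ) ≤ q by positivity)
      nlinarith
    calc (Θ'.card : ℝ) * Real.exp (-((K₀ * q : ℕ) : ℝ) * δ ^ 2 / 16)
        ≤ Real.exp (31 * (q * L)) * Real.exp (-31 * (q * L)) := by
          gcongr
      _ = 1 := by
          rw [← Real.exp_add, ← Real.exp_zero]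
          congr 1
          ring)
  have himg : (univ.image v) ⊆ V := by
    intro x hx
    obtain ⟨i, _, rfl⟩ := Finset.mem_image.mp hx
    exact hv i
  have hks := card_ksum (univ.image v) q M₀ K₀ hM1 hK1
    (le_trans Finset.card_image_le (by rw [Finset.card_univ, Fintype.card_fin]))
    (le_trans (qd_mono himg) hd)
  -- the contradiction
  have h5 : (Θ'.card : ℝ) ≤ (4 * Real.exp 2 * M₀ * K₀) ^ q := by
    have h6 : (4 * Real.exp 2 * M₀ * K₀ : ℝ) ^ q = 2 ^ q * (2 * Real.exp 2 * M₀ * K₀) ^ q := by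
      rw [← mul_pow]
      congr 1
      ring
    have h7 : (2 : ℝ) ≤ 2 ^ q := by
      calc (2 : ℝ) = 2 ^ 1 := (pow_one _).symm
        _ ≤ 2 ^ q := pow_le_pow_right₀ (by norm_num) hq
    have h8 : (0 : ℝ) ≤ (2 * Real.exp 2 * M₀ * K₀) ^ q := by positivity
    rw [h6]
    nlinarith
  have hLe : L ≤ Real.exp (L - 1) := by
    have := Real.add_one_le_exp (L - 1)
    linarith
  have hδe : Real.exp (L - 1) * δ = 1 := by
    have : L - 1 = Real.log (1 / δ) := by linarith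
    rw [this, Real.exp_log (by positivity), one_div_mul_cancel hδ.ne']
  have hXe : X ≤ Real.exp (L - 1) ^ 3 := by
    have h9 : Real.exp (L - 1) ^ 2 * δ ^ 2 = 1 := by rw [← mul_pow, hδe, one_pow]
    rw [hX, div_le_iff₀ hd2]
    calc L ≤ Real.exp (L - 1) := hLe
      _ = Real.exp (L - 1) * (Real.exp (L - 1) ^ 2 * δ ^ 2) := by rw [h9, mul_one]
      _ = Real.exp (L - 1) ^ 3 * δ ^ 2 := by ring
  have h10 : 4 * Real.exp 2 * M₀ * K₀ ≤ Real.exp (30 * L) := by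
    have hE1 : 1 ≤ Real.exp (L - 1) := Real.one_le_exp (by linarith)
    have h11 : (M₀ : ℝ) * K₀ ≤ 1901 * 497 * Real.exp (L - 1) ^ 6 := by
      calc (M₀ : ℝ) * K₀ ≤ (1901 * X) * (497 * X) := by
            gcongr
        _ = 1901 * 497 * (X * X) := by ring
        _ ≤ 1901 * 497 * (Real.exp (L - 1) ^ 3 * Real.exp (L - 1) ^ 3) := by
            gcongr
        _ = 1901 * 497 * Real.exp (L - 1) ^ 6 := by ring
    have h12 : Real.exp (30 * L) = Real.exp 2 * Real.exp 1 ^ 28 * Real.exp (L - 1) ^ 30 := by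
      rw [← Real.exp_nat_mul, ← Real.exp_nat_mul, ← Real.exp_add, ← Real.exp_add]
      congr 1
      push_cast
      ring
    have h13 : (4 * (1901 * 497) : ℝ) ≤ Real.exp 1 ^ 28 := by
      have h2e : (2 : ℝ) ≤ Real.exp 1 := by
        have := Real.add_one_le_exp (1 : ℝ)
        linarith
      calc (4 * (1901 * 497) : ℝ) ≤ 2 ^ 28 := by norm_num
        _ ≤ Real.exp 1 ^ 28 := pow_le_pow_left₀ (by norm_num) h2e 28
    have h14 : Real.exp (L - 1) ^ 6 ≤ Real.exp (L - 1) ^ 30 :=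
      pow_le_pow_right₀ hE1 (by norm_num)
    calc 4 * Real.exp 2 * M₀ * K₀ = 4 * Real.exp 2 * (M₀ * K₀) := by ring
      _ ≤ 4 * Real.exp 2 * (1901 * 497 * Real.exp (L - 1) ^ 6) := by gcongr
      _ = Real.exp 2 * (4 * (1901 * 497)) * Real.exp (L - 1) ^ 6 := by ring
      _ ≤ Real.exp 2 * Real.exp 1 ^ 28 * Real.exp (L - 1) ^ 30 := by gcongr
      _ = Real.exp (30 * L) := h12.symm
  have h15 : (4 * Real.exp 2 * M₀ * K₀ : ℝ) ^ q ≤ Real.exp (30 * q * L) := by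
    have h16 : Real.exp (30 * q * L) = Real.exp (30 * L) ^ q := by
      rw [← Real.exp_nat_mul]
      congr 1
      ring
    rw [h16]
    exact pow_le_pow_left₀ (by positivity) h10 q
  linarith

end Pool.Agent.Lib.MP_6d8312_an.KD
end
end

section

/-!
# Haar measure of balls and nets

`ball`: if `qd V = 0` then every `v ∈ V` is `0` (`qd_pos`), the sum is `0` and `mu = 1`.  Otherwise
let `Θ` be a maximal subset of `ZMod p` which is separated: `δ² < ∑ w ‖ch(vσ)-ch(vσ')‖²` for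
`σ ≠ σ'` (`Finset.exists_maximal` or maximal cardinality).  By maximality every `θ` has
`∑ w‖ch(vθ)-ch(vσ)‖² ≤ δ²` for some `σ ∈ Θ`, and then with `τ = θ - σ`: `∑ w ‖ch(vτ)-1‖² ≤ δ²`, so by
Cauchy-Schwarz (`∑ w = 1`) `∑ w ‖ch(vτ)-1‖ ≤ δ`.  So `ZMod p` is covered by `|Θ|` translates of the
set `P`, `1 ≤ |Θ| mu P` (`mu_iUnion_le`, `mu_shift`), and `|Θ| ≤ exp(30 qd L)` by `entropy`.
`net`: let `N` be maximal with `∑ w‖ch(vσ)-ch(vσ')‖ > δ` for `σ ≠ σ'` in `N`; it is a `δ`-net; the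
sets `σ + P'`, `P' = {∑ w‖ch(vτ)-1‖ ≤ δ/2}`, are disjoint (triangle inequality), so `|N| mu P' ≤ 1`
(`mu_disjoint_sum`), `ball` for `δ/2`.
-/

set_option autoImplicit false

noncomputable section

namespace Pool.Agent.Lib.MP_6d8312_an.KD

open Finset

variable {p : ℕ} [Fact p.Prime]

private theorem Ball_shift (v θ σ : ZMod p) :
    ‖ch (v * (θ + -σ)) - 1‖ = ‖ch (v * θ) - ch (v * σ)‖ := by
  have h1 : ch (v * θ) = ch (v * (θ + -σ)) * ch (v * σ) := by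
    rw [← ch_add]; congr 1; ring
  have h2 : ch (v * θ) - ch (v * σ) = (ch (v * (θ + -σ)) - 1) * ch (v * σ) := by
    rw [h1]; ring
  rw [h2, norm_mul, norm_ch, mul_one]

/-- Maximal separated sets. -/
private theorem Ball_max (D : ZMod p → ZMod p → ℝ) (hsymm : ∀ x y, D x y = D y x)
    {c : ℝ} (hc : ∀ x, D x x ≤ c) :
    ∃ Θ : Finset (ZMod p), (∀ σ ∈ Θ, ∀ σ' ∈ Θ, σ ≠ σ' → c < D σ σ') ∧
      ∀ θ, ∃ σ ∈ Θ, D θ σ ≤ c := by
  classical
  obtain ⟨Θ, hΘ, hmax⟩ := Finset.exists_max_image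
    ((univ : Finset (Finset (ZMod p))).filter
      (fun Θ => ∀ σ ∈ Θ, ∀ σ' ∈ Θ, σ ≠ σ' → c < D σ σ')) Finset.card
    ⟨∅, by simp⟩
  have hsep := (Finset.mem_filter.mp hΘ).2
  refine ⟨Θ, hsep, fun θ => ?_⟩
  by_contra hcon
  push Not at hcon
  have hθ : θ ∉ Θ := fun h => absurd (hc θ) (not_le.mpr (hcon θ h))
  have hins : insert θ Θ ∈ (univ : Finset (Finset (ZMod p))).filter
      (fun Θ => ∀ σ ∈ Θ, ∀ σ' ∈ Θ, σ ≠ σ' → c < D σ σ') := by
    refine Finset.mem_filter.mpr ⟨Finset.mem_univ _, ?_⟩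
    intro σ hσ σ' hσ' hne
    rcases Finset.mem_insert.mp hσ with h1 | h1 <;> rcases Finset.mem_insert.mp hσ' with h2 | h2
    · exact absurd (h1.trans h2.symm) hne
    · rw [h1]; exact hcon σ' h2
    · rw [h2, hsymm]; exact hcon σ h1
    · exact hsep σ h1 σ' h2 hne
  have := hmax _ hins
  rw [Finset.card_insert_of_notMem hθ] at this
  omega

private theorem Ball_cs (V : Finset (ZMod p)) (w a : ZMod p → ℝ) (hw : ∀ v ∈ V, 0 ≤ w v)
    (hw1 : ∑ v ∈ V, w v = 1) {δ : ℝ} (hδ : 0 < δ) (h : ∑ v ∈ V, w v * a v ^ 2 ≤ δ ^ 2) :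
    ∑ v ∈ V, w v * a v ≤ δ := by
  obtain ⟨m, hm⟩ : ∃ m : ℝ, m = ∑ v ∈ V, w v * a v := ⟨_, rfl⟩
  rw [← hm]
  have h1 : 0 ≤ ∑ v ∈ V, w v * (a v - m) ^ 2 :=
    Finset.sum_nonneg fun v hv => mul_nonneg (hw v hv) (sq_nonneg _)
  have h2 : ∑ v ∈ V, w v * (a v - m) ^ 2 =
      ∑ v ∈ V, w v * a v ^ 2 - 2 * m * ∑ v ∈ V, w v * a v + m ^ 2 * ∑ v ∈ V, w v := by
    rw [Finset.mul_sum, Finset.mul_sum, ← Finset.sum_sub_distrib, ← Finset.sum_add_distrib]
    refine Finset.sum_congr rfl fun v _ => ?_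
    ring
  rw [h2, hw1, ← hm] at h1
  have h3 : m ^ 2 ≤ δ ^ 2 := by nlinarith
  exact le_of_sq_le_sq h3 hδ.le

theorem ball (V : Finset (ZMod p)) (w : ZMod p → ℝ) (hw : ∀ v ∈ V, 0 ≤ w v)
    (hw1 : ∑ v ∈ V, w v = 1) {δ : ℝ} (hδ : 0 < δ) (hδ1 : δ ≤ 1) :
    Real.exp (-(30 * qd V * (1 + Real.log (1 / δ)))) ≤
      mu {τ | ∑ v ∈ V, w v * ‖ch (v * τ) - 1‖ ≤ δ} := by
  classical
  set P : Set (ZMod p) := {τ | ∑ v ∈ V, w v * ‖ch (v * τ) - 1‖ ≤ δ} with hP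
  rcases Nat.eq_zero_or_pos (qd V) with hq | hq
  · have hV0 : ∀ v ∈ V, v = 0 := by
      intro v hv
      by_contra hne
      have := qd_pos hv hne
      omega
    have hPu : P = Set.univ := by
      rw [Set.eq_univ_iff_forall]
      intro τ
      show ∑ v ∈ V, w v * ‖ch (v * τ) - 1‖ ≤ δ
      have : ∑ v ∈ V, w v * ‖ch (v * τ) - 1‖ = 0 := by
        refine Finset.sum_eq_zero fun v hv => ?_
        rw [hV0 v hv, zero_mul, ch_zero, sub_self, norm_zero, mul_zero]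
      rw [this]; exact hδ.le
    rw [hPu, mu_univ, hq]
    simp
  · obtain ⟨Θ, hsep, hnet⟩ := Ball_max
      (fun σ σ' => ∑ v ∈ V, w v * ‖ch (v * σ) - ch (v * σ')‖ ^ 2)
      (fun x y => by
        refine Finset.sum_congr rfl fun v _ => ?_
        rw [norm_sub_rev]) (c := δ ^ 2) (fun x => by simp; positivity)
    have hE := entropy V w hw hw1 (qd V) hq le_rfl hδ hδ1 Θ
      (fun σ hσ σ' hσ' hne => (hsep σ hσ σ' hσ' hne).le)
    have hcov : (Set.univ : Set (ZMod p)) ⊆ ⋃ σ ∈ Θ, {θ | θ + -σ ∈ P} := by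
      intro θ _
      obtain ⟨σ, hσ, hle⟩ := hnet θ
      refine Set.mem_biUnion hσ ?_
      show ∑ v ∈ V, w v * ‖ch (v * (θ + -σ)) - 1‖ ≤ δ
      refine Ball_cs V w (fun v => ‖ch (v * (θ + -σ)) - 1‖) hw hw1 hδ ?_
      refine le_trans (le_of_eq ?_) hle
      refine Finset.sum_congr rfl fun v _ => ?_
      rw [Ball_shift]
    have h1 : (1 : ℝ) ≤ Θ.card * mu P := by
      calc (1 : ℝ) = mu (Set.univ : Set (ZMod p)) := mu_univ.symm
        _ ≤ mu (⋃ σ ∈ Θ, {θ | θ + -σ ∈ P}) := mu_mono hcov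
        _ ≤ ∑ σ ∈ Θ, mu {θ | θ + -σ ∈ P} := mu_iUnion_le _ _
        _ = ∑ σ ∈ Θ, mu P := Finset.sum_congr rfl fun σ _ => mu_shift P (-σ)
        _ = Θ.card * mu P := by rw [Finset.sum_const, nsmul_eq_mul]
    have h2 : (1 : ℝ) ≤ Real.exp (30 * qd V * (1 + Real.log (1 / δ))) * mu P :=
      h1.trans (mul_le_mul_of_nonneg_right hE (mu_nonneg P))
    rw [Real.exp_neg, inv_le_iff_one_le_mul₀ (Real.exp_pos _), mul_comm]
    exact h2

theorem net (V : Finset (ZMod p)) (w : ZMod p → ℝ) (hw : ∀ v ∈ V, 0 ≤ w v)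
    (hw1 : ∑ v ∈ V, w v = 1) {δ : ℝ} (hδ : 0 < δ) (hδ1 : δ ≤ 1) :
    ∃ N : Finset (ZMod p), (N.card : ℝ) ≤ Real.exp (30 * qd V * (1 + Real.log (2 / δ))) ∧
      ∀ σ, ∃ σ₀ ∈ N, ∑ v ∈ V, w v * ‖ch (v * σ) - ch (v * σ₀)‖ ≤ δ := by
  classical
  obtain ⟨N, hsep, hnet⟩ := Ball_max
    (fun σ σ' => ∑ v ∈ V, w v * ‖ch (v * σ) - ch (v * σ')‖)
    (fun x y => by
      refine Finset.sum_congr rfl fun v _ => ?_
      rw [norm_sub_rev]) (c := δ) (fun x => by simp; positivity)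
  refine ⟨N, ?_, hnet⟩
  set P : Set (ZMod p) := {τ | ∑ v ∈ V, w v * ‖ch (v * τ) - 1‖ ≤ δ / 2} with hP
  have hb := ball V w hw hw1 (δ := δ / 2) (by positivity) (by linarith)
  rw [← hP] at hb
  have h2d : 1 / (δ / 2) = 2 / δ := by field_simp
  rw [h2d] at hb
  have hdis : ∑ σ ∈ N, mu {x | x + -σ ∈ P} ≤ 1 := by
    refine mu_disjoint_sum N (fun σ => {x | x + -σ ∈ P}) ?_
    intro σ hσ σ' hσ' hne
    rw [Set.disjoint_left]
    intro x hx hx'
    have h1 : ∑ v ∈ V, w v * ‖ch (v * (x + -σ)) - 1‖ ≤ δ / 2 := hx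
    have h2 : ∑ v ∈ V, w v * ‖ch (v * (x + -σ')) - 1‖ ≤ δ / 2 := hx'
    have h3 := hsep σ hσ σ' hσ' hne
    have h4 : ∑ v ∈ V, w v * ‖ch (v * σ) - ch (v * σ')‖ ≤
        ∑ v ∈ V, w v * ‖ch (v * (x + -σ)) - 1‖ + ∑ v ∈ V, w v * ‖ch (v * (x + -σ')) - 1‖ := by
      rw [← Finset.sum_add_distrib]
      refine Finset.sum_le_sum fun v hv => ?_
      rw [← mul_add]
      refine mul_le_mul_of_nonneg_left ?_ (hw v hv)
      rw [Ball_shift, Ball_shift, norm_sub_rev (ch (v * x)) (ch (v * σ))]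
      exact norm_sub_le_norm_sub_add_norm_sub _ _ _
    linarith
  have h5 : ∑ σ ∈ N, mu {x | x + -σ ∈ P} = N.card * mu P := by
    rw [Finset.sum_congr rfl fun σ _ => mu_shift P (-σ), Finset.sum_const, nsmul_eq_mul]
  rw [h5] at hdis
  have h6 : (N.card : ℝ) * Real.exp (-(30 * qd V * (1 + Real.log (2 / δ)))) ≤ 1 :=
    (mul_le_mul_of_nonneg_left hb (Nat.cast_nonneg _)).trans hdis
  rw [Real.exp_neg, ← div_eq_mul_inv, div_le_one (Real.exp_pos _)] at h6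
  exact h6

end Pool.Agent.Lib.MP_6d8312_an.KD
end
end

section

/-!
# Nets, version for families

`ball_unif`: `ball` with `w v = 1/|A|`.
`net_fam`: `net` with `w v = #{i ∈ I | x i = v} / |I|` (sum over `V`: `Finset.card_eq_sum_card_fiberwise`
/ `Finset.sum_fiberwise_of_maps_to`), and multiply by `|I|`.
-/

set_option autoImplicit false

noncomputable section

namespace Pool.Agent.Lib.MP_6d8312_an.KD

open Finset

variable {p : ℕ} [Fact p.Prime]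

theorem ball_unif (A : Finset (ZMod p)) (hA : A.Nonempty) {δ : ℝ} (hδ : 0 < δ) (hδ1 : δ ≤ 1) :
    Real.exp (-(30 * qd A * (1 + Real.log (1 / δ)))) ≤
      mu {τ | ∑ a ∈ A, ‖ch (a * τ) - 1‖ ≤ δ * A.card} := by
  have hc : (0 : ℝ) < A.card := by exact_mod_cast hA.card_pos
  have h := ball A (fun _ => (A.card : ℝ)⁻¹) (fun _ _ => by positivity)
    (by rw [Finset.sum_const, nsmul_eq_mul, mul_inv_cancel₀ hc.ne']) hδ hδ1
  have hs : {τ : ZMod p | ∑ v ∈ A, (A.card : ℝ)⁻¹ * ‖ch (v * τ) - 1‖ ≤ δ} =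
      {τ | ∑ a ∈ A, ‖ch (a * τ) - 1‖ ≤ δ * A.card} := by
    ext τ
    simp only [Set.mem_setOf_eq, ← Finset.mul_sum]
    rw [inv_mul_le_iff₀ hc, mul_comm]
  rwa [hs] at h

theorem net_fam {ι : Type*} [DecidableEq ι] (I : Finset ι) (hI : I.Nonempty) (x : ι → ZMod p)
    (V : Finset (ZMod p)) (hV : ∀ i ∈ I, x i ∈ V) {δ : ℝ} (hδ : 0 < δ) (hδ1 : δ ≤ 1) :
    ∃ N : Finset (ZMod p), (N.card : ℝ) ≤ Real.exp (30 * qd V * (1 + Real.log (2 / δ))) ∧
      ∀ σ, ∃ σ₀ ∈ N, ∑ i ∈ I, ‖ch (x i * σ) - ch (x i * σ₀)‖ ≤ δ * I.card := by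
  have hc : (0 : ℝ) < I.card := by exact_mod_cast hI.card_pos
  obtain ⟨N, hN, hN2⟩ := net V (fun v => ((I.filter fun i => x i = v).card : ℝ) * (I.card : ℝ)⁻¹)
    (fun _ _ => by positivity)
    (by
      rw [← Finset.sum_mul, ← Nat.cast_sum, ← Finset.card_eq_sum_card_fiberwise (fun i hi => hV i hi),
        mul_inv_cancel₀ hc.ne']) hδ hδ1
  refine ⟨N, hN, fun σ => ?_⟩
  obtain ⟨σ₀, h0, h1⟩ := hN2 σ
  refine ⟨σ₀, h0, ?_⟩
  have h2 : ∑ v ∈ V, ((I.filter fun i => x i = v).card : ℝ) * (I.card : ℝ)⁻¹ *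
      ‖ch (v * σ) - ch (v * σ₀)‖ = (I.card : ℝ)⁻¹ * ∑ i ∈ I, ‖ch (x i * σ) - ch (x i * σ₀)‖ := by
    rw [← Finset.sum_fiberwise_of_maps_to (s := I) (t := V) (g := x) hV, Finset.mul_sum]
    refine Finset.sum_congr rfl fun v _ => ?_
    have h3 : ∀ i ∈ I.filter (fun i => x i = v), ‖ch (x i * σ) - ch (x i * σ₀)‖ =
        ‖ch (v * σ) - ch (v * σ₀)‖ := by
      intro i hi
      rw [(Finset.mem_filter.mp hi).2]
    rw [Finset.sum_congr rfl h3, Finset.sum_const, nsmul_eq_mul]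
    ring
  rw [h2, inv_mul_le_iff₀ hc] at h1
  linarith

end Pool.Agent.Lib.MP_6d8312_an.KD
end
end

section

/-!
# The off-diagonal term for a random `τ`

Family `I = {(b,a) | b ∈ B, a ∈ C b}` (`B.sigma C` or `B.biUnion`; of size `|B| M`), `x (b,a) = i (a - b)
∈ V`.  `net_fam` with `δ = e/4` gives `N`, `|N| ≤ exp (30 qd V (1 + log (8/e)))`.  For `σ` let `σ₀ ∈ N` be
close to `σ/i`: `∑_{(b,a)} ‖ch((a-b)σ) - ch((a-b) i σ₀)‖ ≤ (e/4)|B| M` (`i(a-b) (σ/i) = (a-b)σ`), so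
`∑_b ‖η_b(σ) - η_b(iσ₀)‖ ≤ (e/4) |B|`.  As `‖η‖ ≤ 1`:
`‖crs τ σ σ' - crs τ (iσ₀) (iσ₀')‖ ≤ e/4 + e/4 = e/2`.  So the bad set is contained in the union over
`σ₀, σ₀' ∈ N` of `{τ | e/2 < ‖crs τ (iσ₀) (iσ₀')‖}`, each of measure `≤ 4 exp(-(e|B|/2)²/(4|B|)) =
4 exp(-e²|B|/16)` (`subg_norm`, `z_b = η_b(iσ₀) conj η_b(iσ₀')`).
-/

set_option autoImplicit false

noncomputable section

namespace Pool.Agent.Lib.MP_6d8312_an.KD

open Finset

variable {p : ℕ} [Fact p.Prime]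

private theorem OffTau_eta_le {B : Finset (ZMod p)} {C : ZMod p → Finset (ZMod p)} {M : ℕ}
    (hM : 0 < M) (hC : ∀ b ∈ B, (C b).card = M) {b : ZMod p} (hb : b ∈ B) (σ : ZMod p) :
    ‖eta C M b σ‖ ≤ 1 := by
  have hM' : (0 : ℝ) < M := by exact_mod_cast hM
  rw [eta, norm_div, Complex.norm_natCast, div_le_one hM']
  calc ‖∑ a ∈ C b, ch ((a - b) * σ)‖ ≤ ∑ a ∈ C b, ‖ch ((a - b) * σ)‖ := norm_sum_le _ _
    _ = ∑ a ∈ C b, (1 : ℝ) := Finset.sum_congr rfl fun a _ => norm_ch _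
    _ = M := by rw [Finset.sum_const, hC b hb, nsmul_eq_mul, mul_one]

private theorem OffTau_prod (u v u' v' : ℂ) (h : ‖v‖ ≤ 1) (h' : ‖u'‖ ≤ 1) :
    ‖u * (starRingEnd ℂ) v - u' * (starRingEnd ℂ) v'‖ ≤ ‖u - u'‖ + ‖v - v'‖ := by
  have h1 : u * (starRingEnd ℂ) v - u' * (starRingEnd ℂ) v' =
      (u - u') * (starRingEnd ℂ) v + u' * (starRingEnd ℂ) (v - v') := by
    rw [map_sub]
    ring
  rw [h1]
  refine (norm_add_le _ _).trans ?_
  rw [norm_mul, norm_mul, RCLike.norm_conj, RCLike.norm_conj]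
  have h2 : ‖u - u'‖ * ‖v‖ ≤ ‖u - u'‖ * 1 := mul_le_mul_of_nonneg_left h (norm_nonneg _)
  have h3 : ‖u'‖ * ‖v - v'‖ ≤ 1 * ‖v - v'‖ := mul_le_mul_of_nonneg_right h' (norm_nonneg _)
  linarith

theorem off_tau (B : Finset (ZMod p)) (hB : QI B) (hBne : B.Nonempty)
    (C : ZMod p → Finset (ZMod p)) (M : ℕ) (hM : 0 < M) (hC : ∀ b ∈ B, (C b).card = M)
    {i : ZMod p} (hi : i ≠ 0) (V : Finset (ZMod p))
    (hV : ∀ b ∈ B, ∀ a ∈ C b, i * (a - b) ∈ V) {e : ℝ} (he : 0 < e) (he1 : e ≤ 1) :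
    mu {τ | ∃ σ σ', e < ‖crs B C M τ σ σ'‖} ≤
      Real.exp (30 * qd V * (1 + Real.log (8 / e))) ^ 2 *
        (4 * Real.exp (-e ^ 2 * B.card / 16)) := by
  classical
  have hM' : (0 : ℝ) < M := by exact_mod_cast hM
  have hB0 : (0 : ℝ) < B.card := by exact_mod_cast hBne.card_pos
  set I : Finset (Σ _ : ZMod p, ZMod p) := B.sigma C with hI
  have hIc : (I.card : ℝ) = B.card * M := by
    rw [hI, Finset.card_sigma, Finset.sum_congr rfl hC, Finset.sum_const, smul_eq_mul]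
    push_cast
    ring
  have hIne : I.Nonempty := by
    rw [← Finset.card_pos]
    have : (0 : ℝ) < I.card := by
      rw [hIc]
      positivity
    exact_mod_cast this
  obtain ⟨N, hN, hnet⟩ := net_fam I hIne (fun q => i * (q.2 - q.1)) V (by
    intro q hq
    rw [hI, Finset.mem_sigma] at hq
    exact hV _ hq.1 _ hq.2) (δ := e / 4) (by positivity) (by linarith)
  have h8 : (2 : ℝ) / (e / 4) = 8 / e := by
    field_simp
    norm_num
  rw [h8] at hN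
  -- approximation of `eta`
  have heta : ∀ σ, ∃ σ₀ ∈ N, ∑ b ∈ B, ‖eta C M b σ - eta C M b (i * σ₀)‖ ≤ e / 4 * B.card := by
    intro σ
    obtain ⟨σ₀, hσ₀, h⟩ := hnet (i⁻¹ * σ)
    refine ⟨σ₀, hσ₀, ?_⟩
    have h1 : ∑ q ∈ I, ‖ch (i * (q.2 - q.1) * (i⁻¹ * σ)) - ch (i * (q.2 - q.1) * σ₀)‖ =
        ∑ b ∈ B, ∑ a ∈ C b, ‖ch ((a - b) * σ) - ch ((a - b) * (i * σ₀))‖ := by
      rw [hI, Finset.sum_sigma]
      refine Finset.sum_congr rfl fun b _ => Finset.sum_congr rfl fun a _ => ?_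
      have e1 : i * (a - b) * (i⁻¹ * σ) = (a - b) * σ := by
        field_simp
      have e2 : i * (a - b) * σ₀ = (a - b) * (i * σ₀) := by ring
      rw [e1, e2]
    rw [h1, hIc] at h
    have h2 : ∀ b ∈ B, ‖eta C M b σ - eta C M b (i * σ₀)‖ ≤
        (∑ a ∈ C b, ‖ch ((a - b) * σ) - ch ((a - b) * (i * σ₀))‖) / M := by
      intro b _
      rw [eta, eta, ← sub_div, norm_div, Complex.norm_natCast, ← Finset.sum_sub_distrib]
      exact div_le_div_of_nonneg_right (norm_sum_le _ _) hM'.le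
    calc ∑ b ∈ B, ‖eta C M b σ - eta C M b (i * σ₀)‖
        ≤ ∑ b ∈ B, (∑ a ∈ C b, ‖ch ((a - b) * σ) - ch ((a - b) * (i * σ₀))‖) / M :=
          Finset.sum_le_sum h2
      _ = (∑ b ∈ B, ∑ a ∈ C b, ‖ch ((a - b) * σ) - ch ((a - b) * (i * σ₀))‖) / M := by
          rw [Finset.sum_div]
      _ ≤ (e / 4 * (B.card * M)) / M := div_le_div_of_nonneg_right h hM'.le
      _ = e / 4 * B.card := by
          field_simp
  -- approximation of `crs`
  have hcrs : ∀ τ σ σ' s s', ∑ b ∈ B, ‖eta C M b σ - eta C M b s‖ ≤ e / 4 * B.card →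
      ∑ b ∈ B, ‖eta C M b σ' - eta C M b s'‖ ≤ e / 4 * B.card →
      ‖crs B C M τ σ σ' - crs B C M τ s s'‖ ≤ e / 2 := by
    intro τ σ σ' s s' h1 h2
    rw [crs, crs, ← sub_div, norm_div, Complex.norm_natCast, ← Finset.sum_sub_distrib,
      div_le_iff₀ hB0]
    refine (norm_sum_le _ _).trans ?_
    have h3 : ∀ b ∈ B, ‖ch (b * τ) * (eta C M b σ * (starRingEnd ℂ) (eta C M b σ')) -
        ch (b * τ) * (eta C M b s * (starRingEnd ℂ) (eta C M b s'))‖ ≤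
        ‖eta C M b σ - eta C M b s‖ + ‖eta C M b σ' - eta C M b s'‖ := by
      intro b hb
      rw [← mul_sub, norm_mul, norm_ch, one_mul]
      exact OffTau_prod _ _ _ _ (OffTau_eta_le hM hC hb _) (OffTau_eta_le hM hC hb _)
    refine (Finset.sum_le_sum h3).trans ?_
    rw [Finset.sum_add_distrib]
    linarith
  -- covering
  have hsub : {τ | ∃ σ σ', e < ‖crs B C M τ σ σ'‖} ⊆
      ⋃ q ∈ N ×ˢ N, {τ | e / 2 < ‖crs B C M τ (i * q.1) (i * q.2)‖} := by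
    rintro τ ⟨σ, σ', h⟩
    obtain ⟨s, hs, h1⟩ := heta σ
    obtain ⟨s', hs', h2⟩ := heta σ'
    have h3 := hcrs τ σ σ' (i * s) (i * s') h1 h2
    simp only [Set.mem_iUnion, Set.mem_setOf_eq]
    refine ⟨(s, s'), Finset.mem_product.2 ⟨hs, hs'⟩, ?_⟩
    have h4 : ‖crs B C M τ σ σ'‖ ≤ ‖crs B C M τ σ σ' - crs B C M τ (i * s) (i * s')‖ +
        ‖crs B C M τ (i * s) (i * s')‖ := by
      have := norm_add_le (crs B C M τ σ σ' - crs B C M τ (i * s) (i * s'))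
        (crs B C M τ (i * s) (i * s'))
      rwa [sub_add_cancel] at this
    show e / 2 < ‖crs B C M τ (i * s) (i * s')‖
    linarith
  have hone : ∀ q ∈ N ×ˢ N, mu {τ | e / 2 < ‖crs B C M τ (i * q.1) (i * q.2)‖} ≤
      4 * Real.exp (-e ^ 2 * B.card / 16) := by
    intro q _
    have h1 := subg_norm B hB
      (fun b => eta C M b (i * q.1) * (starRingEnd ℂ) (eta C M b (i * q.2))) (by
        intro b hb
        rw [norm_mul, RCLike.norm_conj]
        have h1 := OffTau_eta_le hM hC hb (i * q.1)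
        have h2 := OffTau_eta_le hM hC hb (i * q.2)
        calc _ ≤ (1 : ℝ) * 1 := mul_le_mul h1 h2 (norm_nonneg _) (by norm_num)
          _ = 1 := by norm_num) (e / 2 * B.card) (by positivity)
    have h2 : {τ | e / 2 < ‖crs B C M τ (i * q.1) (i * q.2)‖} ⊆
        {t | e / 2 * B.card < ‖∑ b ∈ B, eta C M b (i * q.1) *
          (starRingEnd ℂ) (eta C M b (i * q.2)) * ch (b * t)‖} := by
      intro τ hτ
      simp only [Set.mem_setOf_eq] at hτ ⊢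
      rw [crs, norm_div, Complex.norm_natCast, lt_div_iff₀ hB0] at hτ
      refine hτ.trans_le (le_of_eq ?_)
      congr 1
      exact Finset.sum_congr rfl fun b _ => by ring
    refine (mu_mono h2).trans (h1.trans (le_of_eq ?_))
    congr 2
    field_simp
    ring
  calc mu {τ | ∃ σ σ', e < ‖crs B C M τ σ σ'‖}
      ≤ mu (⋃ q ∈ N ×ˢ N, {τ | e / 2 < ‖crs B C M τ (i * q.1) (i * q.2)‖}) := mu_mono hsub
    _ ≤ ∑ q ∈ N ×ˢ N, mu {τ | e / 2 < ‖crs B C M τ (i * q.1) (i * q.2)‖} := mu_iUnion_le _ _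
    _ ≤ ∑ q ∈ N ×ˢ N, 4 * Real.exp (-e ^ 2 * B.card / 16) := Finset.sum_le_sum hone
    _ = (N.card : ℝ) ^ 2 * (4 * Real.exp (-e ^ 2 * B.card / 16)) := by
        rw [Finset.sum_const, Finset.card_product, nsmul_eq_mul]
        push_cast
        ring
    _ ≤ _ := by
        refine mul_le_mul_of_nonneg_right ?_ (by positivity)
        exact pow_le_pow_left₀ (by positivity) hN 2

end Pool.Agent.Lib.MP_6d8312_an.KD
end
end

section

/-!
# The off-diagonal terms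

`e = (4/5)^(2h)`.  For `L ≠ L'`, `tL t L - tL t L' = ∑_i c_i t_i` with `c_i = 1_{i∈L} - 1_{i∈L'}`, some
`c_i = ±1 ≠ 0`, so `muK {t | tL t L - tL t L' ∈ Bad} = mu Bad` (`muK_linear`), `Bad` as in `off_tau`.
At most `4^h` pairs (`muK_iUnion_le` over `Finset (Fin h) × Finset (Fin h)`).  `mu Bad ≤
exp (60 qd V (1 + log (8/e))) 4 exp(-e²|B|/16)`, `1 + log 8 + 2h log(5/4) ≤ 4 + h`, and by `hc1`
`60 (4+h) qd V ≤ e²|B|/32` (`e² = (4/5)^(4h)`), so `mu Bad ≤ 4 exp (-e²|B|/32) ≤ 4 exp(-(2h+3))` by `hc2`.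
`4^h · 4 · exp(-2h-3) ≤ (1/2)(4/5)^h`: `exp 2 ≥ 7`, `4/7 ≤ 4/5`, `4 exp(-3) ≤ 1/2`.
-/

set_option autoImplicit false

noncomputable section

namespace Pool.Agent.Lib.MP_6d8312_an.KD

open Finset

variable {p : ℕ} [Fact p.Prime]

private theorem off_linear {h : ℕ} (L L' : Finset (Fin h)) (hL : L ≠ L') (P : Set (ZMod p)) :
    muK {t : Fin h → ZMod p | tL t L - tL t L' ∈ P} = mu P := by
  classical
  have key : ∀ t : Fin h → ZMod p, tL t L - tL t L' =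
      ∑ i, ((if i ∈ L then (1 : ZMod p) else 0) - (if i ∈ L' then (1 : ZMod p) else 0)) * t i := by
    intro t
    simp only [tL, sub_mul, ite_mul, one_mul, zero_mul, Finset.sum_sub_distrib,
      Finset.sum_ite_mem, Finset.univ_inter]
  have hex : ∃ i, ¬ (i ∈ L ↔ i ∈ L') := by
    by_contra hcon
    push Not at hcon
    exact hL (Finset.ext hcon)
  obtain ⟨i, hi⟩ := hex
  have h1 := muK_linear
    (fun i => (if i ∈ L then (1 : ZMod p) else 0) - (if i ∈ L' then (1 : ZMod p) else 0)) i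
    (by
      by_cases h1 : i ∈ L <;> by_cases h2 : i ∈ L' <;> simp [h1, h2] at hi ⊢) P
  rw [← h1]
  congr 1
  ext t
  rw [Set.mem_ofPred_eq, Set.mem_ofPred_eq, key t]

private theorem off_num1 (h : ℕ) : (4 : ℝ) ^ h * (4 * Real.exp (-(2 * h + 3))) ≤
    1 / 2 * (4 / 5 : ℝ) ^ h := by
  have e1 : (2.7182818283 : ℝ) < Real.exp 1 := Real.exp_one_gt_d9
  have e2 : (5 : ℝ) ≤ Real.exp 2 := by
    have : Real.exp 2 = Real.exp 1 * Real.exp 1 := by rw [← Real.exp_add]; norm_num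
    rw [this]; nlinarith
  have e3 : (8 : ℝ) ≤ Real.exp 3 := by
    have : Real.exp 3 = Real.exp 1 * Real.exp 1 * Real.exp 1 := by
      rw [← Real.exp_add, ← Real.exp_add]; norm_num
    rw [this]
    have h2 : (7 : ℝ) ≤ Real.exp 1 * Real.exp 1 := by nlinarith
    nlinarith
  have h1 : Real.exp (-(2 * h + 3)) = (Real.exp 2 ^ h * Real.exp 3)⁻¹ := by
    rw [Real.exp_neg, Real.exp_add, ← Real.exp_nat_mul]
    ring_nf
  rw [h1]
  have h5 : (5 : ℝ) ^ h ≤ Real.exp 2 ^ h := pow_le_pow_left₀ (by norm_num) e2 h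
  have h6 : (5 : ℝ) ^ h * 8 ≤ Real.exp 2 ^ h * Real.exp 3 :=
    mul_le_mul h5 e3 (by norm_num) (by positivity)
  have h7 : (Real.exp 2 ^ h * Real.exp 3)⁻¹ ≤ ((5 : ℝ) ^ h * 8)⁻¹ :=
    inv_anti₀ (by positivity) h6
  calc (4 : ℝ) ^ h * (4 * (Real.exp 2 ^ h * Real.exp 3)⁻¹)
      ≤ (4 : ℝ) ^ h * (4 * ((5 : ℝ) ^ h * 8)⁻¹) := by gcongr
    _ = 1 / 2 * (4 / 5 : ℝ) ^ h := by
        rw [div_pow]; field_simp; norm_num

private theorem off_num2 (h : ℕ) (q b : ℝ) (hq : 0 ≤ q)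
    (hc1 : 1920 * (5 / 4 : ℝ) ^ (4 * h) * (4 + h) * q ≤ b)
    (hc2 : 32 * (5 / 4 : ℝ) ^ (4 * h) * (2 * h + 3) ≤ b) :
    Real.exp (30 * q * (1 + Real.log (8 / (4 / 5 : ℝ) ^ (2 * h)))) ^ 2 *
      (4 * Real.exp (-((4 / 5 : ℝ) ^ (2 * h)) ^ 2 * b / 16)) ≤ 4 * Real.exp (-(2 * h + 3)) := by
  have hlog : 1 + Real.log (8 / (4 / 5 : ℝ) ^ (2 * h)) ≤ 4 + h := by
    rw [Real.log_div (by norm_num) (by positivity), Real.log_pow]
    have h8 : Real.log 8 ≤ 3 := by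
      rw [Real.log_le_iff_le_exp (by norm_num)]
      have e1 : (2.7182818283 : ℝ) < Real.exp 1 := Real.exp_one_gt_d9
      have : Real.exp 3 = Real.exp 1 * Real.exp 1 * Real.exp 1 := by
        rw [← Real.exp_add, ← Real.exp_add]; norm_num
      rw [this]
      have h2 : (7 : ℝ) ≤ Real.exp 1 * Real.exp 1 := by nlinarith
      nlinarith
    have h45 : -(1 / 2 : ℝ) ≤ Real.log (4 / 5) := by
      rw [Real.le_log_iff_exp_le (by norm_num)]
      have : Real.exp (-(1 / 2)) = (Real.exp (1 / 2))⁻¹ := Real.exp_neg _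
      rw [this]
      have h3 : (1 / 2 : ℝ) + 1 ≤ Real.exp (1 / 2) := Real.add_one_le_exp _
      have h4 : (Real.exp (1 / 2))⁻¹ ≤ ((1 / 2 : ℝ) + 1)⁻¹ := inv_anti₀ (by norm_num) h3
      exact h4.trans (by norm_num)
    have hh : (0 : ℝ) ≤ h := Nat.cast_nonneg h
    have h6 : ((2 * h : ℕ) : ℝ) * Real.log (4 / 5) ≥ -(h : ℝ) := by
      push_cast
      nlinarith
    linarith
  have hP : (0 : ℝ) < (5 / 4 : ℝ) ^ (4 * h) := by positivity
  have he2 : ((4 / 5 : ℝ) ^ (2 * h)) ^ 2 = ((5 / 4 : ℝ) ^ (4 * h))⁻¹ := by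
    rw [← pow_mul, ← inv_pow]
    norm_num
    ring_nf
  rw [he2]
  set P : ℝ := (5 / 4 : ℝ) ^ (4 * h) with hPdef
  have hA : 60 * q * (4 + h) ≤ P⁻¹ * b / 32 := by
    have : P * (60 * q * (4 + h)) * 32 ≤ b := by nlinarith
    rw [le_div_iff₀ (by norm_num), inv_mul_eq_div, le_div_iff₀ hP]
    nlinarith
  have hB : (2 * h + 3 : ℝ) ≤ P⁻¹ * b / 32 := by
    rw [le_div_iff₀ (by norm_num), inv_mul_eq_div, le_div_iff₀ hP]
    nlinarith
  have h1 : Real.exp (30 * q * (1 + Real.log (8 / (4 / 5 : ℝ) ^ (2 * h)))) ^ 2 ≤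
      Real.exp (60 * q * (4 + h)) := by
    rw [← Real.exp_nat_mul]
    apply Real.exp_le_exp.2
    push_cast
    have : 30 * q * (1 + Real.log (8 / (4 / 5 : ℝ) ^ (2 * h))) ≤ 30 * q * (4 + h) :=
      mul_le_mul_of_nonneg_left hlog (by positivity)
    linarith
  calc Real.exp (30 * q * (1 + Real.log (8 / (4 / 5 : ℝ) ^ (2 * h)))) ^ 2 *
      (4 * Real.exp (-P⁻¹ * b / 16))
      ≤ Real.exp (60 * q * (4 + h)) * (4 * Real.exp (-P⁻¹ * b / 16)) := by gcongr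
    _ = 4 * Real.exp (60 * q * (4 + h) + -P⁻¹ * b / 16) := by rw [Real.exp_add]; ring
    _ ≤ 4 * Real.exp (-(2 * h + 3)) := by
        gcongr
        have : -P⁻¹ * b / 16 = -(P⁻¹ * b / 32) - P⁻¹ * b / 32 := by ring
        rw [this]
        linarith

theorem off_le {h : ℕ} (B : Finset (ZMod p)) (hB : QI B) (hBne : B.Nonempty)
    (C : ZMod p → Finset (ZMod p)) (M : ℕ) (hM : 0 < M) (hC : ∀ b ∈ B, (C b).card = M)
    {i : ZMod p} (hi : i ≠ 0) (V : Finset (ZMod p))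
    (hV : ∀ b ∈ B, ∀ a ∈ C b, i * (a - b) ∈ V)
    (hc1 : 1920 * (5 / 4 : ℝ) ^ (4 * h) * (4 + h) * qd V ≤ B.card)
    (hc2 : 32 * (5 / 4 : ℝ) ^ (4 * h) * (2 * h + 3) ≤ B.card) :
    muK {t : Fin h → ZMod p | ∃ L L' : Finset (Fin h), L ≠ L' ∧ ∃ σ σ',
      (4 / 5 : ℝ) ^ (2 * h) < ‖crs B C M (tL t L - tL t L') σ σ'‖} ≤ 1 / 2 * (4 / 5 : ℝ) ^ h := by
  classical
  set e : ℝ := (4 / 5 : ℝ) ^ (2 * h) with he
  have hepos : 0 < e := by positivity
  have he1 : e ≤ 1 := pow_le_one₀ (by norm_num) (by norm_num)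
  set Bad : Set (ZMod p) := {τ | ∃ σ σ', e < ‖crs B C M τ σ σ'‖} with hBad
  have hmu := off_tau B hB hBne C M hM hC hi V hV hepos he1
  have hmu2 : mu Bad ≤ 4 * Real.exp (-(2 * h + 3)) :=
    hmu.trans (off_num2 h (qd V) B.card (Nat.cast_nonneg _) hc1 hc2)
  let s : Finset (Finset (Fin h) × Finset (Fin h)) := univ.filter fun x => x.1 ≠ x.2
  have hsub : {t : Fin h → ZMod p | ∃ L L' : Finset (Fin h), L ≠ L' ∧ ∃ σ σ',
      e < ‖crs B C M (tL t L - tL t L') σ σ'‖} ⊆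
      ⋃ x ∈ s, {t : Fin h → ZMod p | tL t x.1 - tL t x.2 ∈ Bad} := by
    intro t ht
    obtain ⟨L, L', hne, σ, σ', hlt⟩ := ht
    simp only [Set.mem_iUnion]
    exact ⟨(L, L'), by simp [s, hne], σ, σ', hlt⟩
  have hcard : (s.card : ℝ) ≤ 4 ^ h := by
    have h1 : s.card ≤ (univ : Finset (Finset (Fin h) × Finset (Fin h))).card :=
      Finset.card_le_card (Finset.filter_subset _ _)
    have h2 : (univ : Finset (Finset (Fin h) × Finset (Fin h))).card = 4 ^ h := by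
      rw [Finset.card_univ, Fintype.card_prod, Fintype.card_finset, Fintype.card_fin,
        ← mul_pow]
      norm_num
    rw [h2] at h1
    exact_mod_cast h1
  calc muK {t : Fin h → ZMod p | ∃ L L' : Finset (Fin h), L ≠ L' ∧ ∃ σ σ',
      e < ‖crs B C M (tL t L - tL t L') σ σ'‖}
      ≤ muK (⋃ x ∈ s, {t : Fin h → ZMod p | tL t x.1 - tL t x.2 ∈ Bad}) := muK_mono hsub
    _ ≤ ∑ x ∈ s, muK {t : Fin h → ZMod p | tL t x.1 - tL t x.2 ∈ Bad} := muK_iUnion_le _ _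
    _ = ∑ x ∈ s, mu Bad := by
        refine Finset.sum_congr rfl fun x hx => ?_
        exact off_linear x.1 x.2 (by simpa [s] using hx) Bad
    _ = s.card * mu Bad := by rw [Finset.sum_const, nsmul_eq_mul]
    _ ≤ 4 ^ h * (4 * Real.exp (-(2 * h + 3))) := by
        have h0 : 0 ≤ mu Bad := mu_nonneg Bad
        exact mul_le_mul hcard hmu2 h0 (by positivity)
    _ ≤ 1 / 2 * (4 / 5 : ℝ) ^ h := off_num1 h

end Pool.Agent.Lib.MP_6d8312_an.KD
end
end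

section

/-!
# Success on hubs

`A' = ⋃_{b∈B} C b` (disjoint), `|A'| = |B| M = N`, `A' ⊆ A`.  Good `t`: not in the set of `off_le`.  For good
`t`, `hub_expand` with `e = (4/5)^(2h)`, `(5/4)^(2h) e = 1`: `‖∑_{a∈A'} wt t a ch(aθ)‖ ≤ N √(Dst t + 1)`.
`num t = ‖∑_{a∈A'} wt t a exp(I phs t a)‖/N`: average `≥ g₀^h` (`numer`), `num ≤ (5/4)^h`, so the average
of `num 1_{good}` is `≥ g₀^h - 1/2 ≥ g₀^h/2`.  Average of `Dst + 1` is `≤ Q := 3 (513/512)^h`.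
CLAIM: some good `t` has `num² ≥ Θ (Dst + 1)`, `Θ = g₀^{2h}/(16 (513/512)^h)`.  Otherwise for all good `t`
and `α = √(Θ/Q)`: `num ≤ (1/2)(α (Dst+1) + Θ/α)`, so `g₀^h/2 ≤ (1/2)(α Q + Θ/α) = √(Θ Q) =
g₀^h √3/4 < g₀^h/2`, a contradiction.  For this `t`: `L = N √(Dst t + 1) > 0` and
`(1/10)(2001/2000)^h √(Dst+1) ≤ num`, since `(2001/2000)^{2h}/100 ≤ Θ`: `(2001/2000)² (513/512) ≤
(4159/4096)²`.
-/

set_option autoImplicit false

noncomputable section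

namespace Pool.Agent.Lib.MP_6d8312_an.KD

open Finset

variable {p : ℕ} [Fact p.Prime]

/-- The numerical heart: `s` is the (measure of the) bad set, `num` the numerators. -/
private theorem hub_pick {h : ℕ} (num D : (Fin h → ZMod p) → ℝ) (bad : Set (Fin h → ZMod p))
    (hbad : muK bad ≤ 1 / 2 * (4 / 5 : ℝ) ^ h)
    (hnum : ∀ t, num t ≤ (5 / 4 : ℝ) ^ h)
    (hav : (4159 / 4096 : ℝ) ^ h ≤ avK num)
    (hD0 : ∀ t, 0 ≤ D t) (hD : avK D ≤ 2 * (513 / 512 : ℝ) ^ h) :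
    ∃ t, t ∉ bad ∧ ((1 / 10) * (2001 / 2000 : ℝ) ^ h) * Real.sqrt (D t + 1) ≤ num t := by
  classical
  by_contra hcon
  push Not at hcon
  set g : ℝ := (4159 / 4096 : ℝ) ^ h with hg
  set q : ℝ := (513 / 512 : ℝ) ^ h with hq
  set r : ℝ := (2001 / 2000 : ℝ) ^ h with hr
  have hg1 : 1 ≤ g := one_le_pow₀ (by norm_num)
  have hq1 : 1 ≤ q := one_le_pow₀ (by norm_num)
  have hr1 : 1 ≤ r := one_le_pow₀ (by norm_num)
  -- r^2 q ≤ g^2
  have hrq : r ^ 2 * q ≤ g ^ 2 := by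
    rw [hr, hq, hg, ← pow_mul, mul_comm h 2, pow_mul, ← mul_pow, ← pow_mul, mul_comm h 2, pow_mul]
    exact pow_le_pow_left₀ (by norm_num) (by norm_num) h
  -- pointwise bound with `β > 0`: `num t ≤ (β/2) (D + 1) + r^2/(200 β)`
  set β : ℝ := g / (8 * q) with hβ
  have hβ0 : 0 < β := by positivity
  have hpt : ∀ t, num t ≤ (β / 2) * (D t + 1) + r ^ 2 / (200 * β) +
      (5 / 4 : ℝ) ^ h * (if t ∈ bad then 1 else 0) := by
    intro t
    have hD1 : 0 ≤ D t + 1 := by linarith [hD0 t]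
    have hpos : 0 ≤ (β / 2) * (D t + 1) + r ^ 2 / (200 * β) := by positivity
    by_cases ht : t ∈ bad
    · simp only [ht, if_true, mul_one]
      linarith [hnum t]
    · simp only [ht, if_false, mul_zero, add_zero]
      have h1 := (hcon t ht).le
      have hs : Real.sqrt (D t + 1) ^ 2 = D t + 1 := Real.sq_sqrt hD1
      set x := Real.sqrt (D t + 1) with hx
      rw [← hs]
      refine h1.trans ?_
      have h2 : 0 ≤ (β * x - r / 10) ^ 2 / (2 * β) := by positivity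
      have h3 : (β * x - r / 10) ^ 2 / (2 * β) =
          β / 2 * x ^ 2 + r ^ 2 / (200 * β) - 1 / 10 * r * x := by
        field_simp
        ring
      linarith
  have hsum : avK num ≤ (β / 2) * (avK D + 1) + r ^ 2 / (200 * β) +
      (5 / 4 : ℝ) ^ h * muK bad := by
    have h1 := avK_mono hpt
    rw [avK_add, avK_add, avK_mul_left, avK_mul_left, avK_const, avK_add, avK_const, ← muK_eq] at h1
    exact h1
  have h54 : (5 / 4 : ℝ) ^ h * (1 / 2 * (4 / 5 : ℝ) ^ h) = 1 / 2 := by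
    have : (5 / 4 : ℝ) ^ h * (4 / 5 : ℝ) ^ h = 1 := by
      rw [← mul_pow]; norm_num
    linear_combination (1 / 2 : ℝ) * this
  have h1 : (5 / 4 : ℝ) ^ h * muK bad ≤ 1 / 2 := by
    rw [← h54]
    exact mul_le_mul_of_nonneg_left hbad (by positivity)
  have h2 : (β / 2) * (avK D + 1) ≤ (β / 2) * (3 * q) := by
    apply mul_le_mul_of_nonneg_left _ (by positivity)
    linarith
  have h3 : (β / 2) * (3 * q) = 3 / 16 * g := by
    rw [hβ]
    field_simp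
    ring
  have h4 : r ^ 2 / (200 * β) ≤ g / 25 := by
    rw [hβ, div_le_div_iff₀ (by positivity) (by norm_num)]
    have : g * (200 * (g / (8 * q))) = 25 * g ^ 2 / q := by
      field_simp
      ring
    rw [this, le_div_iff₀ (by positivity)]
    nlinarith
  linarith

theorem hub_succ (hp : 7 ≤ p) {A : Finset (ZMod p)} (h0 : (0 : ZMod p) ∉ A) (h M : ℕ)
    (hM : (17 / 16 : ℝ) ^ h ≤ M) {i : ZMod p} (hi : i ≠ 0) (B : Finset (ZMod p)) (hB : QI B)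
    (hBne : B.Nonempty) (C : ZMod p → Finset (ZMod p)) (V : Finset (ZMod p))
    (hC : ∀ b ∈ B, C b ⊆ A ∧ (C b).card = M)
    (hdis : ∀ b ∈ B, ∀ b' ∈ B, b ≠ b' → Disjoint (C b) (C b'))
    (hV : ∀ b ∈ B, ∀ a ∈ C b, i * (a - b) ∈ V)
    (hc1 : 1920 * (5 / 4 : ℝ) ^ (4 * h) * (4 + h) * qd V ≤ B.card)
    (hc2 : 32 * (5 / 4 : ℝ) ^ (4 * h) * (2 * h + 3) ≤ B.card) : Succ A h := by
  classical
  have hM0 : 0 < M := by
    have : (0 : ℝ) < M := lt_of_lt_of_le (by positivity) hM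
    exact_mod_cast this
  have hBcard : 0 < B.card := hBne.card_pos
  set A' : Finset (ZMod p) := B.biUnion C with hA'
  have hA'A : A' ⊆ A := by
    intro a ha
    obtain ⟨b, hb, hab⟩ := Finset.mem_biUnion.1 ha
    exact (hC b hb).1 hab
  have hpd : (B : Set (ZMod p)).PairwiseDisjoint C := fun b hb b' hb' hne =>
    hdis b hb b' hb' hne
  have hcardA' : A'.card = B.card * M := by
    rw [hA', Finset.card_biUnion hdis, Finset.sum_congr rfl fun b hb => (hC b hb).2,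
      Finset.sum_const, smul_eq_mul]
  set N : ℝ := (B.card : ℝ) * M with hN
  have hN0 : 0 < N := by positivity
  have hcardN : (A'.card : ℝ) = N := by rw [hcardA', hN]; push_cast; ring
  have h0' : (0 : ZMod p) ∉ A' := fun hz => h0 (hA'A hz)
  set S : (Fin h → ZMod p) → ℝ := fun t =>
    ‖∑ a ∈ A', wt t a * Complex.exp (Complex.I * phs t a)‖ with hS
  set bad : Set (Fin h → ZMod p) := {t : Fin h → ZMod p | ∃ L L' : Finset (Fin h), L ≠ L' ∧
    ∃ σ σ', (4 / 5 : ℝ) ^ (2 * h) < ‖crs B C M (tL t L - tL t L') σ σ'‖} with hbaddef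
  have hbad : muK bad ≤ 1 / 2 * (4 / 5 : ℝ) ^ h :=
    off_le B hB hBne C M hM0 (fun b hb => (hC b hb).2) hi V hV hc1 hc2
  obtain ⟨t, htgood, htnum⟩ := hub_pick (fun t => S t / N) (fun t => Dst B C M t) bad hbad
    (fun t => by
      rw [div_le_iff₀ hN0]
      have := numer_le A' t
      rw [hcardN] at this
      linarith)
    (by
      have h1 := numer hp h A' h0'
      rw [hcardN] at h1
      have h2 : avK (fun t : Fin h → ZMod p => S t / N) = N⁻¹ * avK S := by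
        rw [← avK_mul_left]
        congr 1
        funext t
        rw [div_eq_inv_mul]
      rw [h2, inv_mul_eq_div, le_div_iff₀ hN0]
      linarith)
    (fun t => Dst_nonneg B C M t)
    (avK_Dst_le B C M hM hBne fun b hb => (hC b hb).2)
  have hoff : ∀ L L' : Finset (Fin h), L ≠ L' → ∀ σ σ',
      ‖crs B C M (tL t L - tL t L') σ σ'‖ ≤ (4 / 5 : ℝ) ^ (2 * h) := by
    intro L L' hne σ σ'
    by_contra hlt
    push Not at hlt
    exact htgood ⟨L, L', hne, σ, σ', hlt⟩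
  have hD0 := Dst_nonneg B C M t
  refine ⟨A', hA'A, t, N * Real.sqrt (Dst B C M t + 1), by positivity, ?_, ?_⟩
  · intro θ
    have h1 := hub_expand B C M hM0 hBne t (by positivity) hoff θ
    have h54 : (5 / 4 : ℝ) ^ (2 * h) * (4 / 5 : ℝ) ^ (2 * h) = 1 := by
      rw [← mul_pow]; norm_num
    rw [h54] at h1
    have h2 : ‖(∑ b ∈ B, ∑ a ∈ C b, wt t a * ch (a * θ)) / (B.card * M : ℂ)‖ ≤
        Real.sqrt (Dst B C M t + 1) := Real.le_sqrt_of_sq_le h1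
    rw [norm_div] at h2
    have h3 : ‖(B.card * M : ℂ)‖ = N := by
      rw [norm_mul, Complex.norm_natCast, Complex.norm_natCast]
    rw [h3, div_le_iff₀ hN0] at h2
    rw [hA', Finset.sum_biUnion hpd]
    linarith
  · have h1 : (1 / 10 * (2001 / 2000 : ℝ) ^ h) * Real.sqrt (Dst B C M t + 1) ≤ S t / N := htnum
    rw [le_div_iff₀ hN0] at h1
    calc (1 / 10) * (2001 / 2000 : ℝ) ^ h * (N * Real.sqrt (Dst B C M t + 1))
        = (1 / 10 * (2001 / 2000 : ℝ) ^ h) * Real.sqrt (Dst B C M t + 1) * N := by ring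
      _ ≤ S t := h1

end Pool.Agent.Lib.MP_6d8312_an.KD
end
end

section

/-!
# The first Laplace transform

`n = A.card`, `d = qd A ≥ 1`, `D = dens A = n/d`.  `Zw A 1 x = av exp ((x/D) ‖∑ ch(aθ)‖)` since
`d x / n = x / D`.  Put `y = x/D`, `l = 3 y ≤ 1`, `ξ = 2^l - 1 ≥ l log 2 ≥ √2 y` (`3 log 2 ≥ 2 ≥ √2`;
`2^l = exp (l log 2) ≥ 1 + l log 2`).  `Z0_le`: `Zw ≤ 4 exp (y² n) rz ξ A`, `y² n = x² d/D`
(`n/D = d`).  `log_rz_le`: `log (rz ξ A) ≤ bern l A (log rz 1 ·) ≤ bern l A (nu 1)`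
(`rz_one_le_kf`, `one_le_rzg`), `bern_nu_le`: `≤ l ∑_a bern l (A.erase a) (Fa 1 a) = l n gX 1 A (3x)
= 3 x d gX 1 A (3 x)` (`l = 3x/D`, `l n = 3 x d`).
-/

set_option autoImplicit false

noncomputable section

namespace Pool.Agent.Lib.MP_6d8312_an.KD

open Finset

variable {p : ℕ} [Fact p.Prime]

theorem logZ0_le (hp : p ≠ 2) {A : Finset (ZMod p)} (hA : Crit A) {x : ℝ} (hx : 0 ≤ x)
    (h : 3 * x ≤ dens A) :
    Real.log (Zw A (fun _ => 1) x) ≤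
      Real.log 4 + x ^ 2 * qd A / dens A + 3 * x * qd A * gX 1 A (3 * x) := by
  have hd : (1 : ℝ) ≤ (qd A : ℝ) := by exact_mod_cast hA.qd_pos
  have hn : (0 : ℝ) < (A.card : ℝ) := by exact_mod_cast hA.ne.card_pos
  have hD : 0 < dens A := by unfold dens; positivity
  have hdD : dens A * qd A = A.card := by unfold dens; field_simp
  set y : ℝ := x / dens A with hy
  have hy0 : 0 ≤ y := by positivity
  have hl0 : 0 ≤ 3 * y := by positivity
  have hl1 : 3 * y ≤ 1 := by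
    rw [hy, ← mul_div_assoc, div_le_one hD]; exact h
  have hyn : y * A.card = x * qd A := by
    rw [hy, ← hdD]; field_simp
  set ξ : ℝ := (2 : ℝ) ^ (3 * y) - 1 with hξ
  have hξy : Real.sqrt 2 * y ≤ ξ := by
    have h1 : 1 + Real.log 2 * (3 * y) ≤ (2 : ℝ) ^ (3 * y) := by
      rw [Real.rpow_def_of_pos (by norm_num)]
      have := Real.add_one_le_exp (Real.log 2 * (3 * y))
      linarith
    have h2 : Real.sqrt 2 ≤ 3 / 2 := by
      rw [show (3 / 2 : ℝ) = Real.sqrt ((3 / 2) ^ 2) by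
        rw [Real.sqrt_sq (by norm_num)]]
      exact Real.sqrt_le_sqrt (by norm_num)
    have h3 := Real.log_two_gt_d9
    rw [hξ]
    have h4 : Real.sqrt 2 * y ≤ Real.log 2 * (3 * y) := by
      have : Real.sqrt 2 ≤ Real.log 2 * 3 := by linarith
      nlinarith
    linarith
  have hξ0 : 0 ≤ ξ := le_trans (by positivity) hξy
  have hZ : Zw A (fun _ => 1) x = av (fun θ => Real.exp (y * ‖∑ a ∈ A, ch (a * θ)‖)) := by
    unfold Zw Fw
    congr 1
    funext θ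
    congr 1
    simp only [one_mul]
    rw [mul_div_assoc', mul_comm (qd A : ℝ) x, ← hyn, mul_right_comm, mul_div_assoc,
      div_self hn.ne', mul_one]
  have hpos : 0 < av (fun θ : ZMod p => Real.exp (y * ‖∑ a ∈ A, ch (a * θ)‖)) := by
    unfold av
    have hp0 : (0 : ℝ) < p := by exact_mod_cast (Fact.out : p.Prime).pos
    refine div_pos (Finset.sum_pos (fun i _ => Real.exp_pos _) ⟨0, Finset.mem_univ _⟩) hp0
  have hrz : 1 ≤ rz ξ A := by
    rw [rz_eq_rzg]; exact one_le_rzg fun _ _ => hξ0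
  have h1 : Real.log (Zw A (fun _ => 1) x) ≤
      Real.log 4 + y ^ 2 * A.card + Real.log (rz ξ A) := by
    rw [hZ]
    refine (Real.log_le_log hpos (Z0_le A hy0 hξy)).trans (le_of_eq ?_)
    rw [Real.log_mul (by positivity) (by positivity), Real.log_mul (by norm_num) (by positivity),
      Real.log_exp]
  have h2 : y ^ 2 * A.card = x ^ 2 * qd A / dens A := by
    rw [pow_two, mul_assoc, hyn, hy]; ring
  have h3 : Real.log (rz ξ A) ≤ bern (3 * y) A (fun S => Real.log (rz 1 S)) :=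
    log_rz_le A hl0 hl1 (by rw [hξ]; ring)
  have h4 : bern (3 * y) A (fun S => Real.log (rz 1 S)) ≤ bern (3 * y) A (nu 1) := by
    unfold bern
    refine Finset.sum_le_sum fun S _ => ?_
    refine mul_le_mul_of_nonneg_left ?_ ?_
    · unfold nu
      have hr : 1 ≤ rz 1 S := by
        rw [rz_eq_rzg]; exact one_le_rzg fun _ _ => zero_le_one
      exact Real.log_le_log (by linarith) (rz_one_le_kf hp S)
    · have : 0 ≤ 1 - 3 * y := by linarith
      positivity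
  have h5 := bern_nu_le hp (one_pos) hl0 hl1 A
  have h6 : (3 * y) * ∑ a ∈ A, bern (3 * y) (A.erase a) (Fa 1 a) =
      3 * x * qd A * gX 1 A (3 * x) := by
    unfold gX
    rw [show 3 * x / dens A = 3 * y by rw [hy]; ring, mul_assoc 3 x, ← hyn]
    field_simp
  rw [h2] at h1
  linarith

end Pool.Agent.Lib.MP_6d8312_an.KD
end
end

section

/-!
# From the Laplace transform to the supremum

`δ = (4/5)^m`, `P = {τ | ∑_{a∈A} ‖ch(aτ)-1‖ ≤ δ |A|}`, `mu P ≥ exp (-30 d (1 + m log(5/4)))` (`ball_unif`,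
`d = qd A`).  For `τ ∈ P`: `Fw A w (θ₀+τ) ≥ Fw A w θ₀ - (1/|A|) ∑ ‖w a‖ ‖ch(aτ)-1‖ ≥ Fw A w θ₀ - 1`.  So
`Zw A w x ≥ mu P exp (d x (Fw A w θ₀ - 1))` (`mu_shift`); take logarithms, `log (5/4) ≤ 1`.
-/

set_option autoImplicit false

noncomputable section

namespace Pool.Agent.Lib.MP_6d8312_an.KD

open Finset

variable {p : ℕ} [Fact p.Prime]

theorem sup_le_Zw {A : Finset (ZMod p)} (hA : Crit A) (w : ZMod p → ℂ) (m : ℕ)
    (hw : ∀ a ∈ A, ‖w a‖ ≤ (5 / 4 : ℝ) ^ m) {x : ℝ} (hx : 0 ≤ x) (θ₀ : ZMod p) :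
    qd A * x * (Fw A w θ₀ - 1) ≤ 30 * qd A * ((m : ℝ) + 1) + Real.log (Zw A w x) := by
  obtain ⟨δ, hδdef⟩ : ∃ δ : ℝ, δ = (4 / 5 : ℝ) ^ m := ⟨_, rfl⟩
  have hδ : 0 < δ := by rw [hδdef]; positivity
  have hδ1 : δ ≤ 1 := by
    rw [hδdef]
    exact pow_le_one₀ (by norm_num) (by norm_num)
  have hcard : (0 : ℝ) < A.card := by exact_mod_cast hA.ne.card_pos
  have hlog : Real.log (1 / δ) ≤ m := by
    have h1 : 1 / δ = (5 / 4 : ℝ) ^ m := by
      rw [hδdef, one_div, ← inv_pow]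
      norm_num
    rw [h1, Real.log_pow]
    have h2 : Real.log (5 / 4 : ℝ) ≤ 1 := by
      have := Real.log_le_sub_one_of_pos (show (0 : ℝ) < 5 / 4 by norm_num)
      linarith
    have h3 : (0 : ℝ) ≤ m := Nat.cast_nonneg _
    nlinarith
  have hball := ball_unif A hA.ne hδ hδ1
  -- the pointwise bound
  have hpt : ∀ τ : ZMod p, ∑ a ∈ A, ‖ch (a * τ) - 1‖ ≤ δ * A.card →
      Fw A w θ₀ - 1 ≤ Fw A w (τ + θ₀) := by
    intro τ hτ
    have h1 : ∑ a ∈ A, w a * ch (a * θ₀) = ∑ a ∈ A, w a * ch (a * (τ + θ₀)) -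
        ∑ a ∈ A, w a * ch (a * θ₀) * (ch (a * τ) - 1) := by
      rw [← Finset.sum_sub_distrib]
      refine Finset.sum_congr rfl fun a _ => ?_
      rw [mul_add, ch_add]
      ring
    have h2 : ‖∑ a ∈ A, w a * ch (a * θ₀) * (ch (a * τ) - 1)‖ ≤ A.card := by
      calc ‖∑ a ∈ A, w a * ch (a * θ₀) * (ch (a * τ) - 1)‖
          ≤ ∑ a ∈ A, ‖w a * ch (a * θ₀) * (ch (a * τ) - 1)‖ := norm_sum_le _ _
        _ ≤ ∑ a ∈ A, (5 / 4 : ℝ) ^ m * ‖ch (a * τ) - 1‖ := by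
            refine Finset.sum_le_sum fun a ha => ?_
            rw [norm_mul, norm_mul, norm_ch, mul_one]
            exact mul_le_mul_of_nonneg_right (hw a ha) (norm_nonneg _)
        _ = (5 / 4 : ℝ) ^ m * ∑ a ∈ A, ‖ch (a * τ) - 1‖ := by rw [Finset.mul_sum]
        _ ≤ (5 / 4 : ℝ) ^ m * (δ * A.card) := mul_le_mul_of_nonneg_left hτ (by positivity)
        _ = A.card := by
            rw [hδdef, ← mul_assoc, ← mul_pow]
            norm_num
    have h3 : ‖∑ a ∈ A, w a * ch (a * θ₀)‖ ≤ ‖∑ a ∈ A, w a * ch (a * (τ + θ₀))‖ + A.card := by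
      calc ‖∑ a ∈ A, w a * ch (a * θ₀)‖ = ‖∑ a ∈ A, w a * ch (a * (τ + θ₀)) -
            ∑ a ∈ A, w a * ch (a * θ₀) * (ch (a * τ) - 1)‖ := by rw [← h1]
        _ ≤ _ := (norm_sub_le _ _).trans (by linarith)
    unfold Fw
    rw [sub_le_iff_le_add, div_le_iff₀ hcard, add_mul, div_mul_cancel₀ _ hcard.ne', one_mul]
    exact h3
  obtain ⟨c, hcdef⟩ : ∃ c : ℝ, c = Real.exp (qd A * x * (Fw A w θ₀ - 1)) := ⟨_, rfl⟩
  have hZ : c * Real.exp (-(30 * qd A * (1 + Real.log (1 / δ)))) ≤ Zw A w x := by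
    have h1 : Zw A w x = av (fun τ => Real.exp (qd A * x * Fw A w (τ + θ₀))) := by
      unfold Zw
      exact (av_shift (fun θ => Real.exp (qd A * x * Fw A w θ)) θ₀).symm
    have h2 := mu_markov (f := fun τ : ZMod p => Real.exp (qd A * x * Fw A w (τ + θ₀)))
      (fun τ => (Real.exp_pos _).le) c
    have h3 : mu {τ | ∑ a ∈ A, ‖ch (a * τ) - 1‖ ≤ δ * A.card} ≤
        mu {τ : ZMod p | c ≤ Real.exp (qd A * x * Fw A w (τ + θ₀))} := by
      refine mu_mono fun τ hτ => ?_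
      change c ≤ _
      rw [hcdef]
      refine Real.exp_le_exp.2 (mul_le_mul_of_nonneg_left (hpt τ hτ) (by positivity))
    have hc0 : 0 ≤ c := by rw [hcdef]; exact (Real.exp_pos _).le
    rw [h1]
    exact (mul_le_mul_of_nonneg_left (hball.trans h3) hc0).trans h2
  have hlogZ := Real.log_le_log (by rw [hcdef]; positivity) hZ
  rw [Real.log_mul (by rw [hcdef]; positivity) (by positivity), Real.log_exp, hcdef,
    Real.log_exp] at hlogZ
  have hq : (0 : ℝ) ≤ 30 * qd A := by positivity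
  have h5 := mul_le_mul_of_nonneg_left hlog hq
  nlinarith

end Pool.Agent.Lib.MP_6d8312_an.KD
end
end

section

/-!
# Success if the increments of `nu` are small

`n = |A|`, `d = qd A`, `D = dens A = n/d`, `c = 2(m+1)²(5/4)^m`.  Let `Bad` be the set of `chainZ` for
`w = 1`, `x = ℓ`, `K = m`: `muK Bad ≤ (1/2)(4/5)^m`.  `N(t) = ‖∑_{a∈A} wt t a exp(I phs t a)‖`: average
`≥ n g₀^m` (`numer`), `N ≤ n (5/4)^m`, so the average of `N 1_{good}` is `≥ n g₀^m - n/2 ≥ n g₀^m / 2`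
and some good `t` has `N(t) ≥ n g₀^m/2` (`g₀ = 4159/4096 ≥ 1`).  For this `t`, by `logZ0_le` at
`x = ℓ/4^j`: `log Zw A (wt t) ℓ ≤ 2^m log c + ∑_j C(m,j) [log 4 + (ℓ/4^j)² d/D + 3 (ℓ/4^j) d gX 1 A (3ℓ/4^j)]
≤ 2^m log (4c) + 2^m ℓ² d/D + d ℓ ∑_j C(m,j) 3 · 4^{-j} · G/(3 (m+1) C(m,j) 4^{-j})
≤ d ℓ + d ℓ + d ℓ G` (hypotheses `h1`, `h2`, `hg`).  `sup_le_Zw`: `d ℓ (F - 1) ≤ 30 d (m+1) + 2 d ℓ + d ℓ G
= d ℓ (2G + 2)`, so `F ≤ 2 G + 3 ≤ 5 G`.  So `L = 5 n G` works: `(1/10) (2001/2000)^m 5 n G ≤ n g₀^m/2` by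
`hgg`.
-/

set_option autoImplicit false

noncomputable section

namespace Pool.Agent.Lib.MP_6d8312_an.KD

open Finset

variable {p : ℕ} [Fact p.Prime]

theorem propA (hp : 7 ≤ p) {A : Finset (ZMod p)} (hA : Crit A) (m : ℕ) {G ℓ : ℝ} (hG : 1 ≤ G)
    (hℓ : 0 < ℓ) (hℓG : ℓ * G = 30 * ((m : ℝ) + 1))
    (hgg : G * (2001 / 2000 : ℝ) ^ m ≤ (4159 / 4096 : ℝ) ^ m)
    (h1 : 2 ^ m * Real.log (4 * (2 * ((m : ℝ) + 1) ^ 2 * (5 / 4) ^ m)) ≤ qd A * ℓ)
    (h2 : 2 ^ m * ℓ ≤ dens A) (h3 : 3 * ℓ ≤ dens A)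
    (hg : ∀ j ∈ range (m + 1),
      gX 1 A (3 * ℓ / 4 ^ j) ≤ G / (3 * ((m : ℝ) + 1) * (m.choose j) * (1 / 4) ^ j)) :
    Succ A m := by
  classical
  set n : ℝ := (A.card : ℝ) with hn
  set d : ℝ := (qd A : ℝ) with hd
  set D : ℝ := dens A with hD
  have hnpos : 0 < n := by
    rw [hn]
    exact_mod_cast hA.ne.card_pos
  have hdpos : 0 < d := by
    rw [hd]
    exact_mod_cast hA.qd_pos
  have hDeq : D = n / d := rfl
  have hDpos : 0 < D := by
    rw [hDeq]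
    positivity
  set c : ℝ := 2 * ((m : ℝ) + 1) ^ 2 * (5 / 4) ^ m with hc
  have h54 : (1 : ℝ) ≤ (5 / 4) ^ m := one_le_pow₀ (by norm_num)
  have hm1 : (1 : ℝ) ≤ ((m : ℝ) + 1) ^ 2 := by
    have : (0 : ℝ) ≤ m := Nat.cast_nonneg m
    nlinarith
  have hc1 : 1 ≤ c := by
    rw [hc]
    nlinarith
  have hcpos : 0 < c := by linarith
  have hg0 : (1 : ℝ) ≤ (4159 / 4096) ^ m := one_le_pow₀ (by norm_num)
  set Bad : Set (Fin m → ZMod p) := {t : Fin m → ZMod p |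
      2 ^ m * Real.log c + ∑ j ∈ range (m + 1), (m.choose j : ℝ) *
        Real.log (Zw A (fun _ => 1) (ℓ / 4 ^ j)) <
        Real.log (Zw A (fun a => wt t a * (fun _ => 1 : ZMod p → ℂ) a) ℓ)} with hBad
  have hBadmu : muK Bad * (5 / 4) ^ m ≤ 1 / 2 := by
    have h := chainZ A m (fun _ => (1 : ℂ)) hℓ.le hc1
    have h' : muK Bad ≤ ((m : ℝ) + 1) ^ 2 / c := h
    have h'' : ((m : ℝ) + 1) ^ 2 / c * (5 / 4) ^ m = 1 / 2 := by
      rw [hc]
      have : ((m : ℝ) + 1) ≠ 0 := by positivity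
      field_simp
    calc muK Bad * (5 / 4) ^ m ≤ ((m : ℝ) + 1) ^ 2 / c * (5 / 4) ^ m :=
          mul_le_mul_of_nonneg_right h' (by positivity)
      _ = 1 / 2 := h''
  set N : (Fin m → ZMod p) → ℝ :=
    fun t => ‖∑ a ∈ A, wt t a * Complex.exp (Complex.I * phs t a)‖ with hN
  have hNav : n * (4159 / 4096) ^ m ≤ avK N := numer hp m A hA.zero
  set f : (Fin m → ZMod p) → ℝ := fun t => if t ∈ Bad then 0 else N t with hf
  have hNf : avK N ≤ avK f + n * (5 / 4) ^ m * muK Bad := by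
    rw [muK_eq, ← avK_mul_left, ← avK_add]
    refine avK_mono fun t => ?_
    by_cases ht : t ∈ Bad
    · simp only [hf, ht, if_true]
      have := numer_le A t
      linarith
    · simp only [hf, ht, if_false]
      linarith
  obtain ⟨t, ht⟩ := exists_avK_le f
  have hft : n * (4159 / 4096) ^ m / 2 ≤ f t := by
    have h1 : n * (5 / 4) ^ m * muK Bad ≤ n * (1 / 2) := by
      have := mul_le_mul_of_nonneg_left hBadmu hnpos.le
      linarith
    have h2 : n * 1 ≤ n * (4159 / 4096) ^ m := mul_le_mul_of_nonneg_left hg0 hnpos.le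
    linarith
  have htgood : t ∉ Bad := by
    intro hb
    simp only [hf, hb, if_true] at hft
    have : 0 < n * (4159 / 4096) ^ m := by positivity
    linarith
  have hNt : n * (4159 / 4096) ^ m / 2 ≤ N t := by
    simpa only [hf, htgood, if_false] using hft
  have hw1 : (fun a => wt t a * (fun _ => 1 : ZMod p → ℂ) a) = fun a => wt t a := by
    funext a
    simp
  have hlog : Real.log (Zw A (fun a => wt t a) ℓ) ≤ 2 ^ m * Real.log c +
      ∑ j ∈ range (m + 1), (m.choose j : ℝ) * Real.log (Zw A (fun _ => 1) (ℓ / 4 ^ j)) := by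
    have := not_lt.mp (show ¬ (2 ^ m * Real.log c + ∑ j ∈ range (m + 1), (m.choose j : ℝ) *
        Real.log (Zw A (fun _ => 1) (ℓ / 4 ^ j)) <
        Real.log (Zw A (fun a => wt t a * (fun _ => 1 : ZMod p → ℂ) a) ℓ)) from htgood)
    rwa [hw1] at this
  have hterm : ∀ j ∈ range (m + 1),
      (m.choose j : ℝ) * Real.log (Zw A (fun _ => 1) (ℓ / 4 ^ j)) ≤
        (m.choose j : ℝ) * (Real.log 4 + ℓ ^ 2 * d / D) + d * ℓ * G / ((m : ℝ) + 1) := by
    intro j hj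
    have hjm : j ≤ m := Nat.lt_succ_iff.mp (mem_range.mp hj)
    have hcpos' : 0 < (m.choose j : ℝ) := by
      exact_mod_cast Nat.choose_pos hjm
    have h4j : (1 : ℝ) ≤ 4 ^ j := one_le_pow₀ (by norm_num)
    have h4pos : (0 : ℝ) < 4 ^ j := by positivity
    have hxle : ℓ / 4 ^ j ≤ ℓ := div_le_self hℓ.le h4j
    have hx0 : 0 ≤ ℓ / 4 ^ j := by positivity
    have hlz := logZ0_le (p := p) (by omega) hA hx0 (by linarith)
    have hgj := hg j hj
    have e1 : 3 * ℓ / 4 ^ j = 3 * (ℓ / 4 ^ j) := by ring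
    rw [e1] at hgj
    have hsq : (ℓ / 4 ^ j) ^ 2 ≤ ℓ ^ 2 := pow_le_pow_left₀ hx0 hxle 2
    have hsq' : (ℓ / 4 ^ j) ^ 2 * (qd A : ℝ) / dens A ≤ ℓ ^ 2 * d / D := by
      change (ℓ / 4 ^ j) ^ 2 * d / D ≤ ℓ ^ 2 * d / D
      gcongr
    have h3' : (m.choose j : ℝ) * (3 * (ℓ / 4 ^ j) * (qd A : ℝ) * gX 1 A (3 * (ℓ / 4 ^ j))) ≤
        d * ℓ * G / ((m : ℝ) + 1) := by
      have hpos : 0 ≤ (m.choose j : ℝ) * (3 * (ℓ / 4 ^ j) * d) := by positivity
      have := mul_le_mul_of_nonneg_left hgj hpos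
      calc (m.choose j : ℝ) * (3 * (ℓ / 4 ^ j) * (qd A : ℝ) * gX 1 A (3 * (ℓ / 4 ^ j)))
          = (m.choose j : ℝ) * (3 * (ℓ / 4 ^ j) * d) * gX 1 A (3 * (ℓ / 4 ^ j)) := by ring
        _ ≤ (m.choose j : ℝ) * (3 * (ℓ / 4 ^ j) * d) *
            (G / (3 * ((m : ℝ) + 1) * (m.choose j) * (1 / 4) ^ j)) := this
        _ = d * ℓ * G / ((m : ℝ) + 1) := by
            have hm : ((m : ℝ) + 1) ≠ 0 := by positivity
            have hcc : (m.choose j : ℝ) ≠ 0 := hcpos'.ne'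
            rw [one_div, inv_pow]
            field_simp
    have := mul_le_mul_of_nonneg_left hlz hcpos'.le
    have h5 : (m.choose j : ℝ) * ((ℓ / 4 ^ j) ^ 2 * (qd A : ℝ) / dens A) ≤
        (m.choose j : ℝ) * (ℓ ^ 2 * d / D) := mul_le_mul_of_nonneg_left hsq' hcpos'.le
    linarith
  have hsum : ∑ j ∈ range (m + 1), (m.choose j : ℝ) * Real.log (Zw A (fun _ => 1) (ℓ / 4 ^ j)) ≤
      2 ^ m * (Real.log 4 + ℓ ^ 2 * d / D) + d * ℓ * G := by
    refine (Finset.sum_le_sum hterm).trans ?_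
    rw [Finset.sum_add_distrib, ← Finset.sum_mul, Finset.sum_const, card_range, nsmul_eq_mul]
    have hch : ∑ j ∈ range (m + 1), (m.choose j : ℝ) = 2 ^ m := by
      exact_mod_cast Nat.sum_range_choose m
    rw [hch]
    have hm : ((m : ℝ) + 1) ≠ 0 := by positivity
    have : ((m + 1 : ℕ) : ℝ) * (d * ℓ * G / ((m : ℝ) + 1)) = d * ℓ * G := by
      push_cast
      field_simp
    rw [this]
  have hlogc : 2 ^ m * Real.log c + 2 ^ m * Real.log 4 ≤ d * ℓ := by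
    have : Real.log (4 * c) = Real.log 4 + Real.log c := Real.log_mul (by norm_num) hcpos.ne'
    have h1' : 2 ^ m * Real.log (4 * c) ≤ d * ℓ := h1
    rw [this] at h1'
    linarith
  have hquad : 2 ^ m * (ℓ ^ 2 * d / D) ≤ d * ℓ := by
    have h2' : 2 ^ m * ℓ / D ≤ 1 := by
      rw [div_le_one hDpos]
      exact h2
    calc 2 ^ m * (ℓ ^ 2 * d / D) = (2 ^ m * ℓ / D) * (d * ℓ) := by ring
      _ ≤ 1 * (d * ℓ) := mul_le_mul_of_nonneg_right h2' (by positivity)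
      _ = d * ℓ := one_mul _
  have hlogZ : Real.log (Zw A (fun a => wt t a) ℓ) ≤ 2 * (d * ℓ) + d * ℓ * G := by
    linarith
  refine ⟨A, subset_rfl, t, 5 * n * G, by positivity, fun θ => ?_, ?_⟩
  · have hs := sup_le_Zw hA (fun a => wt t a) m (fun a _ => norm_wt_le t a) hℓ.le θ
    have hs' : d * ℓ * (Fw A (fun a => wt t a) θ - 1) ≤ d * ℓ * (2 * G + 2) := by
      have : d * ℓ * (Fw A (fun a => wt t a) θ - 1) ≤ 30 * d * ((m : ℝ) + 1) +
          Real.log (Zw A (fun a => wt t a) ℓ) := hs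
      have h30 : 30 * d * ((m : ℝ) + 1) = d * ℓ * G := by
        rw [mul_assoc d ℓ G, hℓG]
        ring
      linarith
    have hF : Fw A (fun a => wt t a) θ - 1 ≤ 2 * G + 2 :=
      le_of_mul_le_mul_left hs' (by positivity)
    have hF' : Fw A (fun a => wt t a) θ ≤ 5 * G := by linarith
    have hFw : Fw A (fun a => wt t a) θ = ‖∑ a ∈ A, wt t a * ch (a * θ)‖ / n := rfl
    rw [hFw, div_le_iff₀ hnpos] at hF'
    linarith
  · calc (1 / 10) * (2001 / 2000 : ℝ) ^ m * (5 * n * G) =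
        n / 2 * (G * (2001 / 2000 : ℝ) ^ m) := by ring
      _ ≤ n / 2 * (4159 / 4096 : ℝ) ^ m := mul_le_mul_of_nonneg_left hgg (by positivity)
      _ = n * (4159 / 4096) ^ m / 2 := by ring
      _ ≤ N t := hNt

end Pool.Agent.Lib.MP_6d8312_an.KD
end
end
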