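import Pool.Agent.Lib.MP_6d8312_an.Mg.G004
import Pool.Agent.Lib.MP_6d8312_an.KD.HubData
import Pool.Agent.Lib.MP_6d8312_an.Mg.G006
import Pool.Agent.Lib.MP_6d8312_an.Mg.G005
import Pool.Agent.Lib.MP_6d8312_an.Mg.G009
import Pool.Agent.Lib.MP_6d8312_an.Mg.G001

section

/-!
# Success if the increments of `nu` are large

`om = z/20`, `P = 300000 m⁵`, `u = exp(-m)`, `M = 2^h`.
(1) `find_i` gives `i`.  (`x² ≤ dens A` since `x² ≤ 1 ≤ dens A`, `x ≤ dens A`.)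
(2) `gX (2^k) A x ≤ P x`: `gX_le` with `β = 2^k`, `τ = m`, `k₂` (`k_exists'`-type: `2m ≤ 2^k₂ ≤ 4m`, least
`k₂` with `2 m ≤ 2^k₂`): `vw (2^k) 0 - 1 ≤ x`, `ph (2^k) ≤ 1 + 160 m² ≤ 161 m²`, `log (ph (2^k₂ 2^k)) ≤
log (1 + 4·160 m³) ≤ 640 m³`, `exp(-m) ≤ x`: `gX ≤ x + 161 m² (1600 m³ x + x) ≤ 300000 m⁵ x`.
(3) `90 m x³ ≤ om/2` and `80 P x³ ≤ om` follow from `hkey`.  `choose_UR`, `hub_data` (`hD`).
(4) `hc1`: multiply by `om`: `om 1920 (5/4)^(4h) (4+h) qd V ≤ 1920 (5/4)^(4h)(4+h) 60000 m² P x³ |B| ≤ om |B|`.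
`hc2`: `6400 m² 32 (5/4)^(4h)(2h+3) ≤ om qd A ≤ 6400 m² |B|`.  `B` is nonempty (`om qd A > 0`).
`(17/16)^h ≤ 2^h`.  `hub_succ`.
-/

set_option autoImplicit false

noncomputable section

namespace Pool.Agent.Lib.MP_6d8312_an.KD

open Finset

variable {p : ℕ} [Fact p.Prime]

theorem caseB (hp : 7 ≤ p) {A : Finset (ZMod p)} (hA : Crit A) (h m k : ℕ) (hm : 4 ≤ m)
    (hk : 20 * (m : ℝ) ^ 2 ≤ 2 ^ k) (hk' : (2 : ℝ) ^ k ≤ 40 * (m : ℝ) ^ 2) {x z : ℝ}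
    (hx0 : 0 < x) (hx1 : x ≤ 1 / 3) (hz0 : 0 < z) (hu : Real.exp (-m) ≤ z / 20)
    (hex : Real.exp (-m) ≤ x)
    (hkey : 1920 * (5 / 4 : ℝ) ^ (4 * h) * (4 + h) *
      (60000 * (m : ℝ) ^ 2 * (300000 * (m : ℝ) ^ 5) * x ^ 3) ≤ z / 20)
    (hD1 : 1 ≤ dens A) (hD : 16 * 2 ^ h * (2 * m + 1) * x ^ 2 ≤ z / 20 * dens A)
    (hd : 6400 * (m : ℝ) ^ 2 * (32 * (5 / 4 : ℝ) ^ (4 * h) * (2 * h + 3)) ≤ z / 20 * qd A)
    (hv1 : vw 1 (0 : ZMod p) ≤ 1 + z / 2) (hv2 : vw (2 ^ k) (0 : ZMod p) ≤ 1 + x)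
    (hg : z < gX 1 A (x ^ 2)) : Succ A h := by
  have hp2 : p ≠ 2 := by omega
  have hm1 : (1 : ℝ) ≤ m := by
    have : 1 ≤ m := by omega
    exact_mod_cast this
  have hm0 : (0 : ℝ) < m := lt_of_lt_of_le one_pos hm1
  have hxd2 : x ^ 2 ≤ dens A := by
    have : x ^ 2 ≤ 1 := by nlinarith
    linarith
  have hxd : x ≤ dens A := by linarith
  obtain ⟨i, hi, hom⟩ := find_i hp2 hA hxd2 hz0 hg hv1 (Real.exp_pos _).le hu
  obtain ⟨c, hc⟩ : ∃ c : ℝ, c = (5 / 4 : ℝ) ^ (4 * h) := ⟨_, rfl⟩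
  have hc1 : 1 ≤ c := by
    rw [hc]
    exact one_le_pow₀ (by norm_num)
  rw [← hc] at hkey hd
  have hh0 : (0 : ℝ) ≤ h := Nat.cast_nonneg h
  obtain ⟨P, hPdef⟩ : ∃ P : ℝ, P = 300000 * (m : ℝ) ^ 5 := ⟨_, rfl⟩
  have hP0 : 0 < P := by
    rw [hPdef]
    positivity
  have hom0 : 0 < z / 20 := by positivity
  rw [← hPdef] at hkey
  have hx3 : 0 < x ^ 3 := by positivity
  have hkey2 : 1920 * 4 * (60000 * (m : ℝ) ^ 2 * P * x ^ 3) ≤ z / 20 := by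
    refine le_trans ?_ hkey
    have h1 : (4 : ℝ) ≤ c * (4 + h) := by nlinarith
    have h2 : 0 ≤ 60000 * (m : ℝ) ^ 2 * P * x ^ 3 := by positivity
    nlinarith [mul_le_mul_of_nonneg_right h1 h2]
  have hm2 : (1 : ℝ) ≤ (m : ℝ) ^ 2 := one_le_pow₀ hm1
  have hm4 : (1 : ℝ) ≤ (m : ℝ) ^ 4 := one_le_pow₀ hm1
  have hP80 : 80 * P * x ^ 3 ≤ z / 20 := by
    refine le_trans ?_ hkey2
    have h2 : 0 ≤ P * x ^ 3 := by positivity
    nlinarith [mul_le_mul_of_nonneg_right hm2 h2]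
  have h90 : 90 * m * x ^ 3 ≤ z / 20 / 2 := by
    have h2 : (m : ℝ) * x ^ 3 ≤ P * x ^ 3 := by
      refine mul_le_mul_of_nonneg_right ?_ hx3.le
      rw [hPdef]
      have : (m : ℝ) ^ 5 = m * m ^ 4 := by ring
      rw [this]
      nlinarith [mul_le_mul_of_nonneg_left hm4 hm0.le]
    have h3 : 0 ≤ P * x ^ 3 := by positivity
    have h4 : 180 * (P * x ^ 3) ≤ z / 20 := by
      refine le_trans ?_ hkey2
      nlinarith [mul_le_mul_of_nonneg_right hm2 h3]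
    linarith
  have hgX : gX (2 ^ k) A x ≤ P * x := by
    obtain ⟨k₂, hk1, hk2⟩ : ∃ k₂ : ℕ, 2 * (m : ℝ) ≤ 2 ^ k₂ ∧ (2 : ℝ) ^ k₂ ≤ 4 * m := by
      refine ⟨Nat.log 2 m + 2, ?_, ?_⟩
      · have h := Nat.lt_pow_succ_log_self (b := 2) (by norm_num) m
        have h' : 2 * m ≤ 2 ^ (Nat.log 2 m + 2) := by
          rw [pow_succ]; omega
        exact_mod_cast h'
      · have h := Nat.pow_log_le_self 2 (x := m) (by omega)
        have h' : 2 ^ (Nat.log 2 m + 2) ≤ 4 * m := by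
          rw [pow_add]; omega
        exact_mod_cast h'
    have h1 := gX_le hp2 hA (β := 2 ^ k) (τ := m) (by positivity) k₂ hk1 hx0.le hxd
    have h2 : ph (2 ^ k) ≤ 161 * (m : ℝ) ^ 2 := by
      have h3 : ph (2 ^ k) ≤ 1 + 4 * 2 ^ k := ph_le (by positivity)
      linarith
    have h2' : 0 ≤ ph (2 ^ k) := zero_le_one.trans (one_le_ph (by positivity))
    have h4 : Real.log (ph (2 ^ k₂ * 2 ^ k)) ≤ 640 * (m : ℝ) ^ 3 := by
      have h5 : ph (2 ^ k₂ * 2 ^ k) ≤ 1 + 4 * (2 ^ k₂ * 2 ^ k) := ph_le (by positivity)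
      have h6 : 1 ≤ ph (2 ^ k₂ * 2 ^ k) := one_le_ph (by positivity)
      have h7 := Real.log_le_sub_one_of_pos (lt_of_lt_of_le one_pos h6)
      have h8 : (2 : ℝ) ^ k₂ * 2 ^ k ≤ 4 * m * (40 * (m : ℝ) ^ 2) :=
        mul_le_mul hk2 hk' (by positivity) (by positivity)
      have h9 : 4 * (m : ℝ) * (40 * (m : ℝ) ^ 2) = 160 * (m : ℝ) ^ 3 := by ring
      rw [h9] at h8
      linarith
    have h5 : 5 / 2 * x * Real.log (ph (2 ^ k₂ * 2 ^ k)) + Real.exp (-m) ≤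
        (1600 * (m : ℝ) ^ 3 + 1) * x := by
      have h6 : 5 / 2 * x * Real.log (ph (2 ^ k₂ * 2 ^ k)) ≤ 5 / 2 * x * (640 * (m : ℝ) ^ 3) :=
        mul_le_mul_of_nonneg_left h4 (by positivity)
      linarith
    have h6 : ph (2 ^ k) * (5 / 2 * x * Real.log (ph (2 ^ k₂ * 2 ^ k)) + Real.exp (-m)) ≤
        161 * (m : ℝ) ^ 2 * ((1600 * (m : ℝ) ^ 3 + 1) * x) := by
      refine (mul_le_mul_of_nonneg_left h5 h2').trans ?_
      exact mul_le_mul_of_nonneg_right h2 (by positivity)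
    have h7 : 161 * (m : ℝ) ^ 2 * ((1600 * (m : ℝ) ^ 3 + 1) * x) =
        257600 * ((m : ℝ) ^ 5 * x) + 161 * ((m : ℝ) ^ 2 * x) := by ring
    have h8 : (m : ℝ) ^ 2 * x ≤ (m : ℝ) ^ 5 * x :=
      mul_le_mul_of_nonneg_right (pow_le_pow_right₀ hm1 (by norm_num)) hx0.le
    have h9 : x ≤ (m : ℝ) ^ 5 * x := by
      have : (1 : ℝ) ≤ (m : ℝ) ^ 5 := one_le_pow₀ hm1
      nlinarith
    rw [hPdef]
    have h10 : 0 ≤ (m : ℝ) ^ 5 * x := by positivity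
    linarith
  obtain ⟨U, R, At, hUR, hAt, hatt, hbig⟩ := choose_UR hp2 hA m k hm hk hx0 hx1 hxd hP0 hom0 hi
    hom h90 hgX
  obtain ⟨B, C, V, hB, hC, hdis, hV, hq1, hq2⟩ := hub_data hp2 hA m k (2 ^ h) (by omega) hk hk'
    hx0 hP0 hom0 hi hUR hAt hatt hbig (by push_cast; exact hD) hP80
  have hqA : (0 : ℝ) < qd A := by
    exact_mod_cast hA.qd_pos
  have hBpos : (0 : ℝ) < B.card := by
    have h1 : 0 < z / 20 * qd A := by positivity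
    have h2 : 0 < 6400 * (m : ℝ) ^ 2 * B.card := lt_of_lt_of_le h1 hq2
    by_contra h3
    have h4 : (B.card : ℝ) = 0 := le_antisymm (not_lt.mp h3) (Nat.cast_nonneg _)
    rw [h4, mul_zero] at h2
    exact lt_irrefl _ h2
  have hBne : B.Nonempty := Finset.card_pos.mp (by exact_mod_cast hBpos)
  refine hub_succ hp hA.zero h (2 ^ h) ?_ hi B hB hBne C V hC hdis hV ?_ ?_
  · push_cast
    exact pow_le_pow_left₀ (by norm_num) (by norm_num) h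
  · rw [← hc]
    have h1 : z / 20 * (1920 * c * (4 + h) * qd V) ≤ z / 20 * B.card := by
      calc z / 20 * (1920 * c * (4 + h) * qd V) = 1920 * c * (4 + h) * (z / 20 * qd V) := by ring
        _ ≤ 1920 * c * (4 + h) * (60000 * m ^ 2 * P * x ^ 3 * B.card) :=
            mul_le_mul_of_nonneg_left hq1 (by positivity)
        _ = 1920 * c * (4 + h) * (60000 * m ^ 2 * P * x ^ 3) * B.card := by ring
        _ ≤ z / 20 * B.card := mul_le_mul_of_nonneg_right hkey hBpos.le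
    exact le_of_mul_le_mul_left h1 hom0
  · rw [← hc]
    have h1 : 6400 * (m : ℝ) ^ 2 * (32 * c * (2 * h + 3)) ≤ 6400 * (m : ℝ) ^ 2 * B.card :=
      hd.trans hq2
    exact le_of_mul_le_mul_left h1 (by positivity)

end Pool.Agent.Lib.MP_6d8312_an.KD
end
end

section

/-!
# Critical sets of large density: success

Fix `h ≥ h₀` (at least `1` and the `h₀` of `num1`, `num2`), `m = 200 h`, `k` from `k_exists`.  For each
`j ≤ m` let `x_j = √(mX h j)` (`x_j² = mX h j`), `z_j = mz h j`.  Choose `D₁` such that for all real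
`d, D ≥ D₁` and all `j ≤ m`: `2^m log(4(2(m+1)²(5/4)^m)) ≤ d ml h`, `2^m ml h ≤ D`, `3 ml h ≤ D`, `1 ≤ D`,
`16 2^h (2m+1) x_j² ≤ (z_j/20) D`, `6400 m² (32 (5/4)^(4h)(2h+3)) ≤ (z_j/20) d` (each is of the form
`a ≤ b D` with `b > 0`; finitely many: `Filter.eventually_all_finset`, or take a sum of the quotients).
`D₀ = 3^⌈D₁⌉ + D₁`: `dens A ≥ D₀` implies `dens A ≥ D₁` and, as `dens A ≤ 3 ^ qd A` (`Crit.dens_le`),
`qd A ≥ D₁`.  `p₀`: `7` and the `p₀` of `vw_zero_small` for `β = 1`, `ε = z_j/2`, and `β = 2^k`,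
`ε = x_j` (`j ≤ m`).
If `gX 1 A (3 ml h/4^j) ≤ mz h j` for all `j ≤ m`: `propA` with `G = mG h`, `ℓ = ml h` gives
`Succ A (200 h)`.  Otherwise `caseB` with `x = x_j`, `z = z_j` for some `j`.
-/

set_option autoImplicit false

noncomputable section

namespace Pool.Agent.Lib.MP_6d8312_an.KD

open Finset

private theorem MainOne_unif (P : ℕ → ℕ → Prop) (m : ℕ)
    (h : ∀ j, j ≤ m → ∃ p₀ : ℕ, ∀ q, p₀ ≤ q → P j q) :
    ∃ p₀ : ℕ, ∀ j, j ≤ m → ∀ q, p₀ ≤ q → P j q := by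
  classical
  choose! f hf using h
  refine ⟨(range (m + 1)).sup f, fun j hj q hq => hf j hj q (le_trans ?_ hq)⟩
  exact Finset.le_sup (f := f) (mem_range.2 (Nat.lt_succ_of_le hj))

private theorem MainOne_ev {b : ℝ} (hb : 0 < b) (a : ℝ) :
    ∀ᶠ D : ℝ in Filter.atTop, a ≤ b * D :=
  (Filter.tendsto_id.const_mul_atTop hb).eventually_ge_atTop a

theorem main_one : ∃ h₀ : ℕ, ∀ h : ℕ, h₀ ≤ h → ∃ (D₀ : ℝ) (p₀ : ℕ),
    ∀ (p : ℕ) [Fact p.Prime], p₀ ≤ p → ∀ A : Finset (ZMod p), Crit A → D₀ ≤ dens A →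
      Succ A (200 * h) ∨ Succ A h := by
  classical
  obtain ⟨n1, hn1⟩ := num1
  obtain ⟨n2, hn2⟩ := num2
  refine ⟨max (max n1 n2) 1, fun h hh => ?_⟩
  have hh1 : n1 ≤ h := (le_max_left _ _).trans ((le_max_left _ _).trans hh)
  have hh2 : n2 ≤ h := (le_max_right _ _).trans ((le_max_left _ _).trans hh)
  have hh3 : 1 ≤ h := (le_max_right _ _).trans hh
  have hm4 : 4 ≤ 200 * h := by omega
  obtain ⟨k, hk1, hk2⟩ := k_exists (200 * h) (by omega)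
  have hG1 : 1 ≤ mG h := by
    unfold mG
    exact one_le_pow₀ (by norm_num)
  have hG0 : 0 < mG h := lt_of_lt_of_le one_pos hG1
  have hml : 0 < ml h := by
    unfold ml
    positivity
  -- the density
  have hev : ∀ᶠ D : ℝ in Filter.atTop,
      (2 ^ (200 * h) * Real.log (4 * (2 * ((((200 * h : ℕ) : ℝ)) + 1) ^ 2 *
        (5 / 4) ^ (200 * h))) ≤ ml h * D) ∧ (2 ^ (200 * h) * ml h ≤ 1 * D) ∧
      (3 * ml h ≤ 1 * D) ∧ ((1 : ℝ) ≤ 1 * D) ∧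
      ∀ j ∈ range (200 * h + 1),
        (16 * 2 ^ h * (2 * ((200 * h : ℕ) : ℝ) + 1) * Real.sqrt (mX h j) ^ 2 ≤
          mz h j / 20 * D) ∧
        (6400 * ((200 * h : ℕ) : ℝ) ^ 2 * (32 * (5 / 4 : ℝ) ^ (4 * h) * (2 * h + 3)) ≤
          mz h j / 20 * D) := by
    refine (MainOne_ev hml _).and ((MainOne_ev one_pos _).and ((MainOne_ev one_pos _).and
      ((MainOne_ev one_pos _).and ?_)))
    rw [Filter.eventually_all_finset]
    intro j hj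
    have hz : 0 < mz h j / 20 :=
      div_pos (mz_pos h j (Nat.lt_succ_iff.1 (mem_range.1 hj))) (by norm_num)
    exact (MainOne_ev hz _).and (MainOne_ev hz _)
  obtain ⟨D₁, hD₁⟩ := Filter.eventually_atTop.1 hev
  obtain ⟨p1, hp1⟩ := MainOne_unif
    (fun j q => ∀ [Fact q.Prime], vw 1 (0 : ZMod q) ≤ 1 + mz h j / 2) (200 * h)
    (fun j hj => by
      obtain ⟨p₀, hp₀⟩ := vw_zero_small (β := 1) one_pos
        (ε := mz h j / 2) (by have := mz_pos h j hj; positivity)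
      exact ⟨p₀, fun q hq => by intro _; exact hp₀ q hq⟩)
  obtain ⟨p2, hp2⟩ := MainOne_unif
    (fun j q => ∀ [Fact q.Prime], vw (2 ^ k) (0 : ZMod q) ≤ 1 + Real.sqrt (mX h j)) (200 * h)
    (fun j _ => by
      obtain ⟨p₀, hp₀⟩ := vw_zero_small (β := 2 ^ k) (by positivity)
        (ε := Real.sqrt (mX h j)) (Real.sqrt_pos.2 (mX_pos h j))
      exact ⟨p₀, fun q hq => by intro _; exact hp₀ q hq⟩)
  refine ⟨3 ^ ⌈D₁⌉₊ + |D₁|, max 7 (max p1 p2), fun p _ hp A hA hdens => ?_⟩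
  have hp7 : 7 ≤ p := (le_max_left _ _).trans hp
  have hpp1 : p1 ≤ p := (le_max_left _ _).trans ((le_max_right _ _).trans hp)
  have hpp2 : p2 ≤ p := (le_max_right _ _).trans ((le_max_right _ _).trans hp)
  have hD : D₁ ≤ dens A := by
    have h1 : (0 : ℝ) ≤ 3 ^ ⌈D₁⌉₊ := by positivity
    have h2 := le_abs_self D₁
    linarith
  have hd : D₁ ≤ (qd A : ℝ) := by
    by_contra hcon
    push Not at hcon
    have h1 : qd A < ⌈D₁⌉₊ := by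
      have : (qd A : ℝ) < (⌈D₁⌉₊ : ℝ) := lt_of_lt_of_le hcon (Nat.le_ceil D₁)
      exact_mod_cast this
    have h2 : (3 : ℝ) ^ qd A < 3 ^ ⌈D₁⌉₊ := pow_lt_pow_right₀ (by norm_num) h1
    have h3 : dens A ≤ 3 ^ qd A := hA.dens_le
    have h4 := abs_nonneg D₁
    linarith
  obtain ⟨-, a2, a3, a4, a5⟩ := hD₁ _ hD
  obtain ⟨b1, -, -, -, b5⟩ := hD₁ _ hd
  rw [one_mul] at a2 a3 a4
  by_cases hg : ∀ j ∈ range (200 * h + 1), gX 1 A (3 * ml h / 4 ^ j) ≤ mz h j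
  · left
    refine propA hp7 hA (200 * h) (G := mG h) (ℓ := ml h) hG1 hml ?_ (mG_mul_le h) ?_ a2 a3 ?_
    · unfold ml
      exact div_mul_cancel₀ _ hG0.ne'
    · rw [mul_comm (qd A : ℝ)]
      exact b1
    · intro j hj
      exact hg j hj
  · right
    push Not at hg
    obtain ⟨j, hj, hgj⟩ := hg
    have hj' : j ≤ 200 * h := Nat.lt_succ_iff.1 (mem_range.1 hj)
    obtain ⟨c1, c2, c3⟩ := hn1 h hh1 j hj'
    have hX := mX_pos h j
    have hx2 : Real.sqrt (mX h j) ^ 2 = mX h j := Real.sq_sqrt hX.le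
    refine caseB hp7 hA h (200 * h) k hm4 hk1 hk2 (x := Real.sqrt (mX h j)) (z := mz h j)
      (Real.sqrt_pos.2 hX) (Real.sqrt_le_iff.2 ⟨by norm_num, by linarith⟩) (mz_pos h j hj')
      c2 c3 (hn2 h hh2 j hj') a4 (a5 j hj).1 (b5 j hj).2 (hp1 j hj' p hpp1)
      (hp2 j hj' p hpp2) ?_
    rw [hx2]
    exact hgj

end Pool.Agent.Lib.MP_6d8312_an.KD
end
end

section

/-!
# Density implies exponential growth

`GrowthG` with `a = 1/4`, `c₀ = 1/20`, `γ = 2001/2000`.  Given `R`, `K₀`: `h = max h₀ K₀ + 1`,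
`D₀, p₀` from `main_one`; WLOG `D₀ ≥ 1` (replace by `max`), `N₁ = ⌈D₀⌉ + 2R + 1`.  `h` gives a finite `A ⊆ Λ \ {0}` with `|A| > N₁ qd A`;
`A₁ = {n ∈ A | R < |n|}`: `|A₁| ≥ |A| - (2R+1) ≥ D₀ qd A ≥ D₀ qd A₁` (`qd A ≥ 1` as `A` is nonempty),
nonempty since `|A₁| > 0` (`|A| > N₁ qd A ≥ N₁ ≥ 2R+1`).  Choose a prime `p` (`Nat.exists_infinite_primes`) larger than `p₀`,
`2 ∑_{A₁} |a|`, and the `p₀` of `transfer A₁ h` and `transfer A₁ (200 h)`.  `A₂ = A₁.image cast`: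
`|A₂| = |A₁|`, `qd A₂ = qd A₁` (`cast_qd`), `0 ∉ A₂`; `exists_crit` gives a critical `A₃ ⊆ A₂` with
`D₀ qd A₃ ≤ |A₃|`, i.e. `dens A₃ ≥ D₀` (`qd A₃ ≥ 1`).  `main_one`: `Succ A₃ K` with `K ∈ {200 h, h}`, `K ≥ K₀`: `A' ⊆ A₃`, `t`,
`L`.  Put `B = {n ∈ A₁ | (n : ZMod p) ∈ A'}`; reduction is a bijection `B → A'`.  `v n = phs t n`
(`rtp_phs`), `w n = wt t n/(2L)`; `B` is nonempty because the numerator is positive; `transfer`:
`‖W B w θ‖ ≤ 1`; `‖∑_B w exp(i v)‖ ≥ (1/10) γ^K L/(2L) = γ^K/20`.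
-/

set_option autoImplicit false

noncomputable section

namespace Pool.Agent.Lib.MP_6d8312_an.KD

open Finset

theorem GrowthK_aux {Λ : Set ℤ} {R K : ℕ} {A₁ : Finset ℤ}
    (hA₁ : ∀ n ∈ A₁, n ∈ Λ ∧ (R : ℤ) < |n|) {p : ℕ} [Fact p.Prime]
    (hinj : Set.InjOn (Int.cast : ℤ → ZMod p) A₁)
    (htr : ∀ A' ⊆ A₁, A'.Nonempty → ∀ (t : Fin K → ZMod p) (L : ℝ),
      (∀ θ : ZMod p, ‖∑ a ∈ A', wt t (a : ZMod p) * ch ((a : ZMod p) * θ)‖ ≤ L) →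
      ∀ θ : ℝ, ‖∑ a ∈ A', wt t (a : ZMod p) * e (a * θ)‖ ≤ 2 * L)
    {A₃ : Finset (ZMod p)} (hA₃ : A₃ ⊆ A₁.image (Int.cast : ℤ → ZMod p)) (hS : Succ A₃ K) :
    ∃ A : Finset ℤ, (∀ n ∈ A, n ∈ Λ ∧ (R : ℤ) < |n|) ∧
      ∃ v : ℤ → ℝ, RTP ((1 / 4 : ℝ) * K) v ∧ ∃ w : ℤ → ℂ, (∀ θ : ℝ, ‖W A w θ‖ ≤ 1) ∧
        (1 / 20 : ℝ) * (2001 / 2000 : ℝ) ^ K ≤ ‖∑ l ∈ A, w l * Complex.exp (Complex.I * v l)‖ := by
  classical
  obtain ⟨A', hA', t, L, hL, hb, hlow⟩ := hS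
  let B : Finset ℤ := A₁.filter fun n : ℤ => (n : ZMod p) ∈ A'
  have hBA : B ⊆ A₁ := Finset.filter_subset _ _
  have himg : B.image (Int.cast : ℤ → ZMod p) = A' := by
    ext x
    rw [Finset.mem_image]
    constructor
    · rintro ⟨n, hn, rfl⟩
      exact (Finset.mem_filter.1 hn).2
    · intro hx
      obtain ⟨n, hn, rfl⟩ := Finset.mem_image.1 (hA₃ (hA' hx))
      exact ⟨n, Finset.mem_filter.2 ⟨hn, hx⟩, rfl⟩
  have hinjB : Set.InjOn (Int.cast : ℤ → ZMod p) B :=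
    hinj.mono (Finset.coe_subset.2 hBA)
  have hsum : ∀ f : ZMod p → ℂ, ∑ a ∈ A', f a = ∑ n ∈ B, f (n : ZMod p) := by
    intro f
    rw [← himg, Finset.sum_image hinjB]
  have hpow : (0 : ℝ) < (2001 / 2000 : ℝ) ^ K := by positivity
  have hBne : B.Nonempty := by
    rw [Finset.nonempty_iff_ne_empty]
    intro hB
    rw [hsum, hB, Finset.sum_empty, norm_zero] at hlow
    have : 0 < 1 / 10 * (2001 / 2000 : ℝ) ^ K * L := by positivity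
    linarith
  have h1 := htr B hBA hBne t L (fun θ => by rw [← hsum fun a => wt t a * ch (a * θ)]; exact hb θ)
  have h2L : (0 : ℝ) < 2 * L := by linarith
  have hn2L : ‖((2 * L : ℝ) : ℂ)‖ = 2 * L := by
    rw [Complex.norm_real, Real.norm_of_nonneg h2L.le]
  refine ⟨B, fun n hn => hA₁ n (hBA hn), fun n => phs t (n : ZMod p), rtp_phs t,
    fun n => wt t (n : ZMod p) / ((2 * L : ℝ) : ℂ), fun θ => ?_, ?_⟩
  · have h3 : W B (fun n => wt t (n : ZMod p) / ((2 * L : ℝ) : ℂ)) θ =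
        (∑ a ∈ B, wt t (a : ZMod p) * e (a * θ)) / ((2 * L : ℝ) : ℂ) := by
      unfold W
      rw [Finset.sum_div]
      exact Finset.sum_congr rfl fun n _ => by ring
    rw [h3, norm_div, hn2L, div_le_one h2L]
    exact h1 θ
  · have h4 : ∑ l ∈ B, wt t (l : ZMod p) / ((2 * L : ℝ) : ℂ) *
        Complex.exp (Complex.I * ((phs t (l : ZMod p) : ℝ) : ℂ)) =
        (∑ a ∈ A', wt t a * Complex.exp (Complex.I * phs t a)) / ((2 * L : ℝ) : ℂ) := by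
      rw [hsum fun a => wt t a * Complex.exp (Complex.I * phs t a), Finset.sum_div]
      exact Finset.sum_congr rfl fun n _ => by ring
    rw [h4, norm_div, hn2L, le_div_iff₀ h2L]
    calc 1 / 20 * (2001 / 2000 : ℝ) ^ K * (2 * L) = 1 / 10 * (2001 / 2000 : ℝ) ^ K * L := by ring
      _ ≤ _ := hlow

theorem growth_of_dense (Λ : Set ℤ)
    (h : ∀ D : ℕ, ∃ A : Finset ℤ, (∀ n ∈ A, n ∈ Λ ∧ n ≠ 0) ∧ D * qd A < A.card) :
    Q.GrowthG Λ := by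
  classical
  refine ⟨1 / 4, 1 / 20, 2001 / 2000, by norm_num, by norm_num, by norm_num, by norm_num,
    fun R K₀ => ?_⟩
  obtain ⟨h₀, hmain⟩ := main_one
  obtain ⟨D₀, p₀, hm⟩ := hmain (max h₀ K₀) (le_max_left _ _)
  obtain ⟨A, hA, hcard⟩ := h (⌈max D₀ 1⌉₊ + (2 * R + 1))
  let A₁ := A.filter fun n => (R : ℤ) < |n|
  have hA₁A : A₁ ⊆ A := Finset.filter_subset _ _
  have hAne : A.Nonempty := by
    rw [← Finset.card_pos]
    omega
  obtain ⟨a₀, ha₀⟩ := hAne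
  have hq : 1 ≤ qd A := KD.qd_pos ha₀ (hA a₀ ha₀).2
  have hcA : A.card ≤ A₁.card + (2 * R + 1) := by
    have h1 := Finset.card_filter_add_card_filter_not (s := A) (fun n => (R : ℤ) < |n|)
    have h2 : (A.filter fun n => ¬ (R : ℤ) < |n|).card ≤ (Finset.Icc (-(R : ℤ)) R).card := by
      refine Finset.card_le_card fun n hn => ?_
      have h3 := (Finset.mem_filter.1 hn).2
      push Not at h3
      rw [Finset.mem_Icc]
      exact abs_le.1 h3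
    rw [Int.card_Icc] at h2
    have h4 : ((R : ℤ) + 1 - -(R : ℤ)).toNat = 2 * R + 1 := by omega
    rw [h4] at h2
    have h5 : (A.filter fun n => (R : ℤ) < |n|).card = A₁.card := rfl
    omega
  have hc1 : ⌈max D₀ 1⌉₊ * qd A < A₁.card := by
    have h6 : (⌈max D₀ 1⌉₊ + (2 * R + 1)) * qd A = ⌈max D₀ 1⌉₊ * qd A + (2 * R + 1) * qd A := by
      ring
    have h7 : (2 * R + 1) * 1 ≤ (2 * R + 1) * qd A := Nat.mul_le_mul_left _ hq
    omega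
  have hD1 : max D₀ 1 * qd A₁ ≤ A₁.card := by
    have h8 : (qd A₁ : ℝ) ≤ qd A := by exact_mod_cast qd_mono hA₁A
    have h9 : max D₀ 1 ≤ (⌈max D₀ 1⌉₊ : ℝ) := Nat.le_ceil _
    have h10 : (0 : ℝ) < max D₀ 1 := lt_of_lt_of_le zero_lt_one (le_max_right _ _)
    have h11 : (⌈max D₀ 1⌉₊ : ℝ) * qd A < A₁.card := by exact_mod_cast hc1
    calc max D₀ 1 * qd A₁ ≤ max D₀ 1 * qd A := mul_le_mul_of_nonneg_left h8 h10.le
      _ ≤ (⌈max D₀ 1⌉₊ : ℝ) * qd A := mul_le_mul_of_nonneg_right h9 (Nat.cast_nonneg _)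
      _ ≤ A₁.card := h11.le
  have hA₁ne : A₁.Nonempty := by
    rw [← Finset.card_pos]
    omega
  have h01 : (0 : ℤ) ∉ A₁ := by
    intro h0
    exact (hA 0 (hA₁A h0)).2 rfl
  obtain ⟨p₁, ht₁⟩ := transfer A₁ (max h₀ K₀)
  obtain ⟨p₂, ht₂⟩ := transfer A₁ (200 * max h₀ K₀)
  obtain ⟨p, hpge, hp⟩ := Nat.exists_infinite_primes
    (p₀ + p₁ + p₂ + (2 * ∑ a ∈ A₁, |a|).toNat + 1)
  have _ : Fact p.Prime := ⟨hp⟩
  have hpA : 2 * ∑ a ∈ A₁, |a| < p := by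
    have h12 : 2 * ∑ a ∈ A₁, |a| ≤ ((2 * ∑ a ∈ A₁, |a|).toNat : ℤ) := Int.self_le_toNat _
    omega
  have hinj := cast_injOn A₁ p hpA
  have hqd := cast_qd A₁ p hpA
  have hz := cast_zero A₁ p hpA h01
  have hcd : (A₁.image (Int.cast : ℤ → ZMod p)).card = A₁.card :=
    Finset.card_image_of_injOn hinj
  obtain ⟨A₃, hA₃, hcrit, hD3⟩ := exists_crit (A₁.image (Int.cast : ℤ → ZMod p)) (max D₀ 1)
    (hA₁ne.image _) hz (by rw [hqd, hcd]; exact hD1)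
  have hdens : D₀ ≤ dens A₃ := by
    have h13 : (0 : ℝ) < qd A₃ := by exact_mod_cast hcrit.qd_pos
    refine (le_max_left D₀ 1).trans ?_
    unfold dens
    rw [le_div_iff₀ h13]
    exact hD3
  have hA₁' : ∀ n ∈ A₁, n ∈ Λ ∧ (R : ℤ) < |n| := fun n hn =>
    ⟨(hA n (hA₁A hn)).1, (Finset.mem_filter.1 hn).2⟩
  rcases hm p (by omega) A₃ hcrit hdens with hS | hS
  · refine ⟨200 * max h₀ K₀, ?_, GrowthK_aux hA₁' hinj (ht₂ p (by omega)) hA₃ hS⟩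
    have := le_max_right h₀ K₀
    omega
  · exact ⟨max h₀ K₀, le_max_right _ _, GrowthK_aux hA₁' hinj (ht₁ p (by omega)) hA₃ hS⟩

end Pool.Agent.Lib.MP_6d8312_an.KD
end
end
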